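import Pool.Agent.H92.FC.Defs2

/-!
# First emerging cycle: the process
-/

namespace FC

open Finset

/-- Incidence sign of the vertex `x` with respect to the ridge `ρ`. -/
def sg (ρ : Finset ℕ) (x : ℕ) : ℤ := (-1) ^ (ρ.filter (fun y => y < x)).card

/-- `z` is a `d`-cycle with coefficients in `F` of the complex on the vertex set `{0,…,n-1}`
whose set of `d`-faces is `X`: it is supported on `X` and its boundary vanishes. -/
def IsCyc (F : Type*) [Field F] (d n : ℕ) (X : Finset (Finset ℕ)) (z : Finset ℕ → F) : Prop :=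
  (∀ σ, z σ ≠ 0 → σ ∈ X) ∧
  ∀ ρ ∈ (range n).powersetCard d, ∑ x ∈ range n \ ρ, (sg ρ x : F) * z (insert x ρ) = 0

/-- Orders of a finite set. -/
abbrev Ord {α : Type*} (G : Finset α) : Type _ := Fin G.card ≃ {x // x ∈ G}

/-- The first `t` elements of an order. -/
def pre {α : Type*} [DecidableEq α] {G : Finset α} (e : Ord G) (t : ℕ) : Finset α :=
  (univ.filter (fun i : Fin G.card => i.val < t)).image (fun i => (e i : α))

end FC
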