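import Pool.Agent.H92.FC.ExLib
import Pool.Agent.H92.FC.Proc

/-!
# First emerging cycle: transfer from random orders to Bernoulli sets
-/

namespace FC

open Finset

variable {α : Type*} [DecidableEq α]

theorem h27_pre_sub {G : Finset α} (e : Ord G) (t : ℕ) : pre e t ⊆ G := by
  intro x hx
  unfold pre at hx
  obtain ⟨i, _, hi⟩ := Finset.mem_image.1 hx
  rw [← hi]
  exact (e i).2

theorem h27_pre_mono {G : Finset α} (e : Ord G) {s t : ℕ} (h : s ≤ t) : pre e s ⊆ pre e t := by
  unfold pre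
  refine Finset.image_subset_image ?_
  intro i hi
  rw [Finset.mem_filter] at hi ⊢
  exact ⟨hi.1, lt_of_lt_of_le hi.2 h⟩

theorem h27_image_univ {G : Finset α} (e : Ord G) :
    (univ : Finset (Fin G.card)).image (fun i => (e i : α)) = G := by
  ext x
  simp only [Finset.mem_image, Finset.mem_univ, true_and]
  constructor
  · rintro ⟨i, hi⟩; rw [← hi]; exact (e i).2
  · intro hx
    exact ⟨e.symm ⟨x, hx⟩, by simp⟩

theorem h27_Ex_order (G : Finset α) (e : Ord G) (q : ℝ) (f : Finset α → ℝ) :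
    Ex G q f = Ex (univ : Finset (Fin G.card)) q (fun Y => f (Y.image (fun i => (e i : α)))) := by
  have h := Ex_image (univ : Finset (Fin G.card)) (fun i => (e i : α))
    (by intro i _ j _ hij
        exact e.injective (Subtype.ext hij)) q f
  rw [h27_image_univ] at h
  exact h

/-- composition with a permutation of the positions -/
def h27_comp {G : Finset α} (π : Equiv.Perm (Fin G.card)) : Ord G ≃ Ord G where
  toFun e := π.trans e
  invFun e := π.symm.trans e
  left_inv e := by ext i; simp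
  right_inv e := by ext i; simp

theorem h27_sum_image {G : Finset α} (f : Finset α → ℝ) (Y : Finset (Fin G.card)) :
    ∑ e : Ord G, f (Y.image (fun i => (e i : α))) = ∑ e : Ord G, f (pre e Y.card) := by
  have hYN : Y.card ≤ G.card := by
    have := Finset.card_le_univ Y
    simpa using this
  have hc : ((univ : Finset (Fin G.card)).filter (fun i => i.val < Y.card)).card = Y.card := by
    rw [Fin.card_filter_val_lt]
    exact min_eq_right hYN
  let p0 : {x // x ∈ (univ : Finset (Fin G.card)).filter (fun i => i.val < Y.card)} ≃ {x // x ∈ Y} :=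
    Finset.equivOfCardEq hc
  let π : Equiv.Perm (Fin G.card) := p0.extendSubtype
  have hπ : ((univ : Finset (Fin G.card)).filter (fun i => i.val < Y.card)).image π = Y := by
    apply Finset.eq_of_subset_of_card_le
    · intro y hy
      obtain ⟨i, hi, rfl⟩ := Finset.mem_image.1 hy
      exact Equiv.extendSubtype_mem p0 i hi
    · rw [Finset.card_image_of_injective _ π.injective, hc]
  have key : ∀ e : Ord G, f (Y.image (fun i => (e i : α))) = f (pre (h27_comp π e) Y.card) := by
    intro e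
    congr 1
    unfold pre
    conv_lhs => rw [← hπ]
    rw [Finset.image_image]
    rfl
  rw [Finset.sum_congr rfl (fun e _ => key e)]
  exact Equiv.sum_comp (h27_comp π) (fun e => f (pre e Y.card))

theorem h27_key (G : Finset α) (q : ℝ) (f : Finset α → ℝ) :
    (Fintype.card (Ord G) : ℝ) * Ex G q f =
      Ex (univ : Finset (Fin G.card)) q (fun Y => ∑ e : Ord G, f (pre e Y.card)) := by
  have h1 : ∑ _e : Ord G, Ex G q f = (Fintype.card (Ord G) : ℝ) * Ex G q f := by
    rw [Finset.sum_const, nsmul_eq_mul]; rfl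
  rw [← h1, Finset.sum_congr rfl (fun e _ => h27_Ex_order G e q f), ← Ex_sum]
  refine Ex_congr _ _ _ _ fun Y _ => ?_
  exact h27_sum_image f Y

open Classical in
theorem h27_card_eq (G : Finset α) (A : Finset α → Prop) (t : ℕ) :
    ((univ.filter (fun e : Ord G => A (pre e t))).card : ℝ) = ∑ e : Ord G, ind (A (pre e t)) := by
  rw [Finset.card_filter]
  push_cast
  refine Finset.sum_congr rfl fun e _ => ?_
  unfold ind
  by_cases h : A (pre e t) <;> simp [h]

theorem h27_cheb (n : ℕ) (q D : ℝ) (hq0 : 0 ≤ q) (hq1 : q ≤ 1) (hD : 0 < D)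
    (P : ℕ → Prop) (hP : ∀ k : ℕ, ¬ P k → D ≤ |(k : ℝ) - q * n|)
    (hv : 2 * (n * q) ≤ D ^ 2) :
    1 / 2 ≤ Ex (univ : Finset (Fin n)) q (fun Y => ind (P Y.card)) := by
  have h1 := Ex_markov (univ : Finset (Fin n)) q hq0 hq1
    (fun Y => ((Y.card : ℝ) - q * (univ : Finset (Fin n)).card) ^ 2)
    (fun _ _ => sq_nonneg _) (D ^ 2) (by positivity)
  rw [Ex_sq_card] at h1
  have hcard : ((univ : Finset (Fin n)).card : ℝ) = n := by simp
  rw [hcard] at h1
  have h2 : Ex (univ : Finset (Fin n)) q (fun Y => 1 - ind (P Y.card)) ≤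
      Ex (univ : Finset (Fin n)) q (fun Y => ind (D ^ 2 ≤ ((Y.card : ℝ) - q * n) ^ 2)) := by
    refine Ex_mono _ q hq0 hq1 _ _ fun Y _ => ?_
    by_cases h : P Y.card
    · rw [ind_pos h]; linarith [ind_nonneg (D ^ 2 ≤ ((Y.card : ℝ) - q * n) ^ 2)]
    · rw [ind_neg h, ind_pos]
      · norm_num
      · have := hP _ h
        rw [← sq_abs ((Y.card : ℝ) - q * n)]
        exact pow_le_pow_left₀ hD.le this 2
  rw [Ex_sub, Ex_const] at h2
  have h3 : (n : ℝ) * q * (1 - q) / D ^ 2 ≤ 1 / 2 := by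
    rw [div_le_iff₀ (by positivity)]
    have : (0:ℝ) ≤ n * q := mul_nonneg (Nat.cast_nonneg n) hq0
    nlinarith [mul_nonneg this hq0]
  have h4 := h1
  linarith

open Classical in
theorem transfer (G : Finset α) (A B : Finset α → Prop)
    (hA : ∀ X Y, X ⊆ Y → Y ⊆ G → A Y → A X) (hB : ∀ X Y, X ⊆ Y → Y ⊆ G → B X → B Y)
    (q1 q2 : ℝ) (h0 : 0 ≤ q1) (h12 : q1 ≤ q2) (h1 : q2 ≤ 1)
    (hgap : 32 * (G.card * q2) + 16 ≤ (G.card * (q2 - q1)) ^ 2) :
    ∃ t ≤ G.card,
      ((univ.filter (fun e : Ord G => A (pre e t))).card : ℝ) ≤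
        2 * Ex G q1 (fun X => ind (A X)) * (Fintype.card (Ord G) : ℝ) ∧
      ((univ.filter (fun e : Ord G => B (pre e t))).card : ℝ) ≤
        2 * Ex G q2 (fun X => ind (B X)) * (Fintype.card (Ord G) : ℝ) := by
  set N : ℕ := G.card with hN
  have hN0 : (0 : ℝ) ≤ N := Nat.cast_nonneg N
  set D : ℝ := N * (q2 - q1) / 2 with hDdef
  have hD0 : 0 ≤ D := by
    rw [hDdef]; exact div_nonneg (mul_nonneg hN0 (by linarith)) (by norm_num)
  have hD2 : 8 * (N * q2) + 4 ≤ D ^ 2 := by
    have : D ^ 2 = (N * (q2 - q1)) ^ 2 / 4 := by rw [hDdef]; ring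
    rw [this]; linarith
  have hNq2 : 0 ≤ (N : ℝ) * q2 := mul_nonneg hN0 (by linarith)
  have hNq1 : (N : ℝ) * q1 ≤ N * q2 := mul_le_mul_of_nonneg_left h12 hN0
  have hDpos : 0 < D := by
    rcases hD0.lt_or_eq with h | h
    · exact h
    · exfalso; rw [← h] at hD2; nlinarith
  set t : ℕ := ⌈(N : ℝ) * (q1 + q2) / 2⌉₊ with ht
  have hnn : 0 ≤ (N : ℝ) * (q1 + q2) / 2 :=
    div_nonneg (mul_nonneg hN0 (by linarith)) (by norm_num)
  have ht1 : (N : ℝ) * (q1 + q2) / 2 ≤ t := Nat.le_ceil _
  have ht2 : (t : ℝ) < (N : ℝ) * (q1 + q2) / 2 + 1 := Nat.ceil_lt_add_one hnn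
  have htN : t ≤ N := by
    rw [ht]
    refine Nat.ceil_le.2 ?_
    nlinarith
  refine ⟨t, htN, ?_, ?_⟩
  · rw [h27_card_eq]
    have hkey := h27_key G q1 (fun X => ind (A X))
    have hch := h27_cheb N q1 D h0 (h12.trans h1) hDpos (fun k => k ≤ t)
      (by
        intro k hk
        have hk' : (t : ℝ) < k := by exact_mod_cast not_le.1 hk
        refine le_trans ?_ (le_abs_self _)
        rw [hDdef]
        nlinarith) (by linarith)
    have hlow : (∑ e : Ord G, ind (A (pre e t))) *
        Ex (univ : Finset (Fin N)) q1 (fun Y => ind (Y.card ≤ t)) ≤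
        Ex (univ : Finset (Fin N)) q1 (fun Y => ∑ e : Ord G, ind (A (pre e Y.card))) := by
      rw [← Ex_mul]
      refine Ex_mono _ q1 h0 (h12.trans h1) _ _ fun Y _ => ?_
      by_cases h : Y.card ≤ t
      · rw [ind_pos h, mul_one]
        refine Finset.sum_le_sum fun e _ => ind_mono fun hAe => ?_
        exact hA _ _ (h27_pre_mono e h) (h27_pre_sub e t) hAe
      · rw [ind_neg h, mul_zero]
        exact Finset.sum_nonneg fun e _ => ind_nonneg _
    have hs0 : 0 ≤ ∑ e : Ord G, ind (A (pre e t)) := Finset.sum_nonneg fun e _ => ind_nonneg _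
    rw [← hkey] at hlow
    nlinarith [mul_le_mul_of_nonneg_left hch hs0]
  · rw [h27_card_eq]
    have hkey := h27_key G q2 (fun X => ind (B X))
    have hch := h27_cheb N q2 D (h0.trans h12) h1 hDpos (fun k => t ≤ k)
      (by
        intro k hk
        have hk1 : k + 1 ≤ t := by
          have := not_le.1 hk
          omega
        have hk' : (k : ℝ) + 1 ≤ t := by exact_mod_cast hk1
        rw [abs_sub_comm]
        refine le_trans ?_ (le_abs_self _)
        rw [hDdef]
        nlinarith) (by linarith)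
    have hlow : (∑ e : Ord G, ind (B (pre e t))) *
        Ex (univ : Finset (Fin N)) q2 (fun Y => ind (t ≤ Y.card)) ≤
        Ex (univ : Finset (Fin N)) q2 (fun Y => ∑ e : Ord G, ind (B (pre e Y.card))) := by
      rw [← Ex_mul]
      refine Ex_mono _ q2 (h0.trans h12) h1 _ _ fun Y _ => ?_
      by_cases h : t ≤ Y.card
      · rw [ind_pos h, mul_one]
        refine Finset.sum_le_sum fun e _ => ind_mono fun hBe => ?_
        exact hB _ _ (h27_pre_mono e h) (h27_pre_sub e _) hBe
      · rw [ind_neg h, mul_zero]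
        exact Finset.sum_nonneg fun e _ => ind_nonneg _
    have hs0 : 0 ≤ ∑ e : Ord G, ind (B (pre e t)) := Finset.sum_nonneg fun e _ => ind_nonneg _
    rw [← hkey] at hlow
    nlinarith [mul_le_mul_of_nonneg_left hch hs0]

end FC
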