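import Pool.Agent.H92.FC.ANof2
import Pool.Agent.H92.FC.Transfer

/-!
# From Bernoulli estimates to the process
-/

namespace FC

open Finset

variable {d : ℕ}

/-- The conclusion for one order `e` of the faces: the first emerging cycle is a copy of the
boundary of a `(d+1)`-simplex, or fewer than `k` vertices are not covered by its support. -/
def FirstGood (F : Type*) [Field F] (d n k : ℕ) (e : Ord (fc d n)) : Prop :=
  ∀ (t : ℕ) (z : Finset ℕ → F),
    (∀ s < t, ∀ z' : Finset ℕ → F, IsCyc F d n (pre e s) z' → z' = 0) →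
    z ≠ 0 → IsCyc F d n (pre e t) z →
    (∃ W ⊆ range n, W.card = d + 2 ∧ ∀ σ, z σ ≠ 0 ↔ σ ∈ W.powersetCard (d + 1)) ∨
    ∀ U ⊆ range n, (∀ σ, z σ ≠ 0 → ∀ v ∈ U, v ∉ σ) → U.card < k

/-- The two properties of the rank function linking it to cycles. -/
def LinkF (F : Type*) [Field F] (d : ℕ) (R : CRank d) : Prop :=
    (∀ n, ∀ X ⊆ fc d n, (∃ z : Finset ℕ → F, z ≠ 0 ∧ IsCyc F d n X z) ↔ 0 < R.nul X) ∧
    (∀ n, ∀ X ⊆ fc d n, ∀ z : Finset ℕ → F, ∀ σ0 ∈ X,
      (∀ z' : Finset ℕ → F, IsCyc F d n (X.erase σ0) z' → z' = 0) → z ≠ 0 → IsCyc F d n X z →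
      ∃ S ⊆ X, (∀ σ, σ ∈ S ↔ z σ ≠ 0) ∧
        ((∃ W ⊆ range n, W.card = d + 2 ∧ S = W.powersetCard (d + 1)) ∨
          (R.Cyc S ∧ ¬ HasBd d S)))

theorem pre_sub {α : Type*} [DecidableEq α] {G : Finset α} (e : Ord G) (t : ℕ) : pre e t ⊆ G := by
  intro x hx
  unfold pre at hx
  obtain ⟨i, _, rfl⟩ := Finset.mem_image.1 hx
  exact (e i).2

theorem pre_mono {α : Type*} [DecidableEq α] {G : Finset α} (e : Ord G) {s t : ℕ} (h : s ≤ t) :
    pre e s ⊆ pre e t := by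
  intro x hx
  unfold pre at *
  obtain ⟨i, hi, rfl⟩ := Finset.mem_image.1 hx
  refine Finset.mem_image_of_mem _ ?_
  rw [Finset.mem_filter] at *
  exact ⟨hi.1, lt_of_lt_of_le hi.2 h⟩

theorem pre_succ {α : Type*} [DecidableEq α] {G : Finset α} (e : Ord G) (t : ℕ)
    (ht : t < G.card) : ∃ x ∈ pre e (t + 1), x ∉ pre e t ∧ (pre e (t + 1)).erase x = pre e t := by
  refine ⟨(e ⟨t, ht⟩ : α), ?_, ?_, ?_⟩
  · unfold pre
    refine Finset.mem_image_of_mem _ ?_
    simp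
  · unfold pre
    intro h
    obtain ⟨i, hi, hie⟩ := Finset.mem_image.1 h
    have := e.injective (Subtype.ext hie)
    rw [this] at hi
    simp at hi
  · ext y
    unfold pre
    simp only [Finset.mem_erase, Finset.mem_image, Finset.mem_filter, Finset.mem_univ, true_and]
    constructor
    · rintro ⟨hne, i, hi, rfl⟩
      refine ⟨i, ?_, rfl⟩
      by_contra hlt
      have hit : i.val = t := by omega
      apply hne
      congr 1
      congr 1
      exact Fin.ext hit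
    · rintro ⟨i, hi, rfl⟩
      refine ⟨fun h => ?_, i, by omega, rfl⟩
      have := e.injective (Subtype.ext h)
      rw [this] at hi
      simp at hi

theorem pre_zero {α : Type*} [DecidableEq α] {G : Finset α} (e : Ord G) : pre e 0 = ∅ := by
  unfold pre; simp

theorem pre_top {α : Type*} [DecidableEq α] {G : Finset α} (e : Ord G) (t : ℕ)
    (ht : G.card ≤ t) : pre e t = pre e G.card := by
  unfold pre
  congr 1
  ext i
  simp only [Finset.mem_filter, Finset.mem_univ, true_and]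
  have := i.2
  omega

/-- an order outside the two bad events is good -/
theorem good_of (F : Type*) [Field F] (R : CRank d) (hR : LinkF F d R) (n k t : ℕ)
    (e : Ord (fc d n)) (hA : ¬ R.nul (pre e t) = 0)
    (hB : ¬ ∃ U ⊆ range n, U.card = k ∧ ∃ C ⊆ pre e t, C ⊆ faces d (range n \ U) ∧ R.Cyc C ∧
      ¬ HasBd d C) : FirstGood F d n k e := by
  intro t1 z hmin hz hcyc
  -- t1 ≤ t
  have ht1 : t1 ≤ t := by
    by_contra hlt
    obtain ⟨z', hz', hc'⟩ := (hR.1 n (pre e t) (pre_sub e t)).2 (Nat.pos_of_ne_zero hA)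
    exact hz' (hmin t (not_le.1 hlt) z' hc')
  have ht0 : t1 ≠ 0 := by
    rintro rfl
    apply hz
    funext σ
    by_contra hσ
    have := hcyc.1 σ hσ
    rw [pre_zero] at this
    simp at this
  have htN : t1 ≤ (fc d n).card := by
    by_contra hlt
    have h1 := pre_top e t1 (not_le.1 hlt).le
    rw [h1] at hcyc
    exact hz (hmin _ (not_le.1 hlt) z hcyc)
  obtain ⟨s, rfl⟩ := Nat.exists_eq_succ_of_ne_zero ht0
  obtain ⟨σ0, h1, h2, h3⟩ := pre_succ e s (by omega)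
  obtain ⟨S, hS, hSz, hcase⟩ := hR.2 n (pre e (s + 1)) (pre_sub e _) z σ0 h1
    (fun z' hz' => hmin s (Nat.lt_succ_self s) z' (h3 ▸ hz')) hz hcyc
  rcases hcase with ⟨W, hW, hWc, hSW⟩ | ⟨hc, hb⟩
  · left
    refine ⟨W, hW, hWc, fun σ => ?_⟩
    rw [← hSz, hSW]
  · right
    intro U hU hUz
    by_contra hk
    obtain ⟨U', hU', hU'c⟩ := Finset.exists_subset_card_eq (not_lt.1 hk)
    refine hB ⟨U', hU'.trans hU, hU'c, S, hS.trans (pre_mono e ht1), ?_, hc, hb⟩
    intro σ hσ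
    have hσn := (hS.trans (pre_sub e _)) hσ
    unfold fc at hσn
    rw [mem_faces] at hσn ⊢
    refine ⟨fun v hv => ?_, hσn.2⟩
    rw [Finset.mem_sdiff]
    exact ⟨hσn.1 hv, fun hvU => hUz σ ((hSz σ).1 hσ) v (hU' hvU) hv⟩

open Classical in
/-- fraction of bad orders -/
noncomputable def badFrac (F : Type*) [Field F] (d n k : ℕ) : ℝ :=
  ((univ.filter (fun e : Ord (fc d n) => ¬ FirstGood F d n k e)).card : ℝ) /
    (Fintype.card (Ord (fc d n)) : ℝ)

theorem ord_pos {α : Type*} [DecidableEq α] (G : Finset α) : 0 < Fintype.card (Ord G) := by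
  have e : Fin G.card ≃ {x // x ∈ G} := G.equivFin.symm
  exact Fintype.card_pos_iff.2 ⟨e⟩

theorem choose_lower (d n : ℕ) (hn : 2 * (d + 1) ≤ n) :
    (n : ℝ) ^ (d + 1) / (2 ^ (d + 1) * ((d + 1).factorial : ℝ)) ≤ (n.choose (d + 1) : ℝ) := by
  have h1 : ((n + 1 - (d + 1) : ℕ) : ℝ) ^ (d + 1) ≤ ((d + 1).factorial : ℝ) * n.choose (d + 1) := by
    have := Nat.pow_sub_le_descFactorial n (d + 1)
    rw [Nat.descFactorial_eq_factorial_mul_choose] at this
    exact_mod_cast this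
  have h2 : (n : ℝ) / 2 ≤ ((n + 1 - (d + 1) : ℕ) : ℝ) := by
    rw [Nat.cast_sub (by omega)]
    push_cast
    have : (2 * ((d:ℝ) + 1)) ≤ n := by exact_mod_cast hn
    linarith
  have h3 : ((n : ℝ) / 2) ^ (d + 1) ≤ ((n + 1 - (d + 1) : ℕ) : ℝ) ^ (d + 1) :=
    pow_le_pow_left₀ (by positivity) h2 _
  rw [div_le_iff₀ (by positivity)]
  rw [div_pow, div_le_iff₀ (by positivity)] at h3
  nlinarith [h1, h3, show (0:ℝ) < 2 ^ (d + 1) by positivity]

/-- the core of the argument, for given `n`, `k` -/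
theorem bad_le (F : Type*) [Field F] (R : CRank d) (hR : LinkF F d R) (n k : ℕ) (q1 q2 ε : ℝ)
    (h0 : 0 ≤ q1) (h12 : q1 ≤ q2) (h1 : q2 ≤ 1)
    (hgap : 32 * ((fc d n).card * ((q1 + q2) / 2)) + 16 ≤
      ((fc d n).card * ((q1 + q2) / 2 - q1)) ^ 2)
    (hE1 : Ex (fc d n) q1 (fun X => ind (R.nul X = 0)) ≤ ε)
    (hE2 : Ex (fc d n) ((q1 + q2) / 2) (fun X => ind (∃ U ⊆ range n, U.card = k ∧
        ∃ C ⊆ X, C ⊆ faces d (range n \ U) ∧ R.Cyc C ∧ ¬ HasBd d C)) ≤ ε) :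
    badFrac F d n k ≤ 4 * ε := by
  classical
  obtain ⟨t, _, hA, hB⟩ := transfer (fc d n) (fun X => R.nul X = 0)
    (fun X => ∃ U ⊆ range n, U.card = k ∧
        ∃ C ⊆ X, C ⊆ faces d (range n \ U) ∧ R.Cyc C ∧ ¬ HasBd d C)
    (fun X Y hXY _ hY => by have := R.nul_mono hXY; omega)
    (fun X Y hXY _ ⟨U, hU, hUk, C, hC, h⟩ => ⟨U, hU, hUk, C, hC.trans hXY, h⟩)
    q1 ((q1 + q2) / 2) h0 (by linarith) (by linarith) hgap
  have hpos : (0:ℝ) < Fintype.card (Ord (fc d n)) := by exact_mod_cast ord_pos (fc d n)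
  unfold badFrac
  rw [div_le_iff₀ hpos]
  have hsub : (univ.filter (fun e : Ord (fc d n) => ¬ FirstGood F d n k e)) ⊆
      (univ.filter (fun e : Ord (fc d n) => R.nul (pre e t) = 0)) ∪
      (univ.filter (fun e : Ord (fc d n) => ∃ U ⊆ range n, U.card = k ∧
        ∃ C ⊆ pre e t, C ⊆ faces d (range n \ U) ∧ R.Cyc C ∧ ¬ HasBd d C)) := by
    intro e he
    rw [Finset.mem_union, Finset.mem_filter, Finset.mem_filter]
    by_contra hno
    rw [not_or] at hno
    exact (Finset.mem_filter.1 he).2 (good_of F R hR n k t e (fun h => hno.1 ⟨Finset.mem_univ _, h⟩)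
      (fun h => hno.2 ⟨Finset.mem_univ _, h⟩))
  have h2 := (Finset.card_le_card hsub).trans (Finset.card_union_le _ _)
  have h3 : ((univ.filter (fun e : Ord (fc d n) => ¬ FirstGood F d n k e)).card : ℝ) ≤
      ((univ.filter (fun e : Ord (fc d n) => R.nul (pre e t) = 0)).card : ℝ) +
      ((univ.filter (fun e : Ord (fc d n) => ∃ U ⊆ range n, U.card = k ∧
        ∃ C ⊆ pre e t, C ⊆ faces d (range n \ U) ∧ R.Cyc C ∧ ¬ HasBd d C)).card : ℝ) := by
    exact_mod_cast h2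
  have h4 := mul_le_mul_of_nonneg_right hE1 hpos.le
  have h5 := mul_le_mul_of_nonneg_right hE2 hpos.le
  have hA2 : ((univ.filter (fun e : Ord (fc d n) => R.nul (pre e t) = 0)).card : ℝ) ≤
      2 * Ex (fc d n) q1 (fun X => ind (R.nul X = 0)) * (Fintype.card (Ord (fc d n)) : ℝ) := by
    convert hA
  have hB2 : ((univ.filter (fun e : Ord (fc d n) => ∃ U ⊆ range n, U.card = k ∧
        ∃ C ⊆ pre e t, C ⊆ faces d (range n \ U) ∧ R.Cyc C ∧ ¬ HasBd d C)).card : ℝ) ≤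
      2 * Ex (fc d n) ((q1 + q2) / 2) (fun X => ind (∃ U ⊆ range n, U.card = k ∧
        ∃ C ⊆ X, C ⊆ faces d (range n \ U) ∧ R.Cyc C ∧ ¬ HasBd d C)) *
        (Fintype.card (Ord (fc d n)) : ℝ) := by
    convert hB
  linarith

end FC
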