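import Pool.Agent.H92.FC.ExLib

/-!
# Concentration and thinning
-/

namespace FC

open Finset

variable {α : Type*} [DecidableEq α]

theorem exp_quad (x : ℝ) (hx : |x| ≤ 1) : Real.exp x ≤ 1 + x + x ^ 2 := by
  have h := Real.abs_exp_sub_one_sub_id_le hx
  have := (abs_le.1 h).2
  linarith

/-- one coordinate -/
theorem mgf_step (q D l : ℝ) (hq0 : 0 ≤ q) (hq1 : q ≤ 1) (hD0 : 0 ≤ D) (hD1 : D ≤ 1)
    (hl : |l| ≤ 1) (u : ℝ) :
    (1 - q) * Real.exp (l * u) + q * Real.exp (l * (u + D)) ≤
      Real.exp (q * l ^ 2) * Real.exp (l * (u + q * D)) := by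
  have hl1 := abs_le.1 hl
  have h1 : Real.exp (l * u) = Real.exp (l * (u + q * D)) * Real.exp (-(l * q * D)) := by
    rw [← Real.exp_add]; congr 1; ring
  have h2 : Real.exp (l * (u + D)) = Real.exp (l * (u + q * D)) * Real.exp (l * (1 - q) * D) := by
    rw [← Real.exp_add]; congr 1; ring
  rw [h1, h2]
  have hqD : q * D ≤ 1 := by nlinarith
  have hqD' : (1 - q) * D ≤ 1 := by nlinarith
  have hqD0 : 0 ≤ q * D := mul_nonneg hq0 hD0
  have hqD0' : 0 ≤ (1 - q) * D := mul_nonneg (by linarith) hD0
  have b1 : |-(l * q * D)| ≤ 1 := by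
    rw [abs_neg, mul_assoc, abs_mul, abs_of_nonneg hqD0]
    nlinarith [abs_nonneg l]
  have b2 : |l * (1 - q) * D| ≤ 1 := by
    rw [mul_assoc, abs_mul, abs_of_nonneg hqD0']
    nlinarith [abs_nonneg l]
  have e1 := exp_quad _ b1
  have e2 := exp_quad _ b2
  have e3 : (1 - q) * Real.exp (-(l * q * D)) + q * Real.exp (l * (1 - q) * D) ≤
      Real.exp (q * l ^ 2) := by
    have h3 : (1 - q) * Real.exp (-(l * q * D)) + q * Real.exp (l * (1 - q) * D) ≤
        1 + l ^ 2 * D ^ 2 * (q * (1 - q)) := by
      have := mul_le_mul_of_nonneg_left e1 (by linarith : 0 ≤ 1 - q)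
      have := mul_le_mul_of_nonneg_left e2 hq0
      nlinarith
    have h4 : l ^ 2 * D ^ 2 * (q * (1 - q)) ≤ q * l ^ 2 := by
      have hD2 : D ^ 2 ≤ 1 := by nlinarith
      have : D ^ 2 * (1 - q) ≤ 1 := by nlinarith [sq_nonneg D]
      have h5 : 0 ≤ q * l ^ 2 := mul_nonneg hq0 (sq_nonneg l)
      nlinarith
    have h6 := Real.add_one_le_exp (q * l ^ 2)
    linarith
  have hp := Real.exp_pos (l * (u + q * D))
  nlinarith

theorem mgf (G : Finset α) (q l : ℝ) (hq0 : 0 ≤ q) (hq1 : q ≤ 1) (hl : |l| ≤ 1)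
    (f : Finset α → ℝ)
    (hf : ∀ X ⊆ G, ∀ a ∈ G, a ∉ X → f X ≤ f (insert a X) ∧ f (insert a X) ≤ f X + 1) :
    Ex G q (fun X => Real.exp (l * f X)) ≤
      Real.exp (G.card * q * l ^ 2) * Real.exp (l * Ex G q f) := by
  induction G using Finset.induction_on generalizing f with
  | empty => simp [Ex_empty]
  | insert a G ha ih =>
    rw [Ex_insert G a ha, Ex_insert G a ha, Finset.card_insert_of_notMem ha]
    set g : Finset α → ℝ := fun X => (1 - q) * f X + q * f (insert a X) with hg
    have hgE : Ex G q g = (1 - q) * Ex G q f + q * Ex G q (fun X => f (insert a X)) := by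
      rw [hg, Ex_add, Ex_mul, Ex_mul]
    have hgl : ∀ X ⊆ G, ∀ b ∈ G, b ∉ X → g X ≤ g (insert b X) ∧ g (insert b X) ≤ g X + 1 := by
      intro X hX b hb hbX
      have hab : b ≠ a := fun h => ha (h ▸ hb)
      have h1 := hf X (hX.trans (Finset.subset_insert a G)) b (Finset.mem_insert_of_mem hb) hbX
      have h2 := hf (insert a X) (Finset.insert_subset_insert a hX) b
        (Finset.mem_insert_of_mem hb) (by simp [hab, hbX])
      rw [Finset.insert_comm] at h2
      simp only [hg]
      constructor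
      · nlinarith [mul_le_mul_of_nonneg_left h1.1 (by linarith : 0 ≤ 1 - q),
          mul_le_mul_of_nonneg_left h2.1 hq0]
      · nlinarith [mul_le_mul_of_nonneg_left h1.2 (by linarith : 0 ≤ 1 - q),
          mul_le_mul_of_nonneg_left h2.2 hq0]
    have h1 := ih g hgl
    rw [hgE] at h1
    have h2 : (1 - q) * Ex G q (fun X => Real.exp (l * f X)) +
        q * Ex G q (fun X => Real.exp (l * f (insert a X))) ≤
        Real.exp (q * l ^ 2) * Ex G q (fun X => Real.exp (l * g X)) := by
      rw [← Ex_mul, ← Ex_mul, ← Ex_mul, ← Ex_add]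
      refine Ex_mono G q hq0 hq1 _ _ fun X hX => ?_
      have h3 := hf X (hX.trans (Finset.subset_insert a G)) a (Finset.mem_insert_self a G)
        (fun h => ha (hX h))
      have h4 := mgf_step q (f (insert a X) - f X) l hq0 hq1 (by linarith) (by linarith) hl (f X)
      have e1 : f X + (f (insert a X) - f X) = f (insert a X) := by ring
      have e2 : f X + q * (f (insert a X) - f X) = g X := by simp only [hg]; ring
      rw [e1, e2] at h4
      exact h4
    refine h2.trans ?_
    refine (mul_le_mul_of_nonneg_left h1 (Real.exp_pos _).le).trans (le_of_eq ?_)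
    rw [← mul_assoc, ← Real.exp_add]
    congr 2
    push_cast; ring

theorem conc_up (G : Finset α) (q l x : ℝ) (hq0 : 0 ≤ q) (hq1 : q ≤ 1) (hl0 : 0 ≤ l) (hl1 : l ≤ 1)
    (f : Finset α → ℝ)
    (hf : ∀ X ⊆ G, ∀ a ∈ G, a ∉ X → f X ≤ f (insert a X) ∧ f (insert a X) ≤ f X + 1) :
    Ex G q (fun X => ind (Ex G q f + x ≤ f X)) ≤ Real.exp (-(l * x) + G.card * q * l ^ 2) := by
  have h1 := mgf G q l hq0 hq1 (by rw [abs_of_nonneg hl0]; exact hl1) f hf
  have h2 : Ex G q (fun X => ind (Ex G q f + x ≤ f X)) ≤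
      Ex G q (fun X => Real.exp (-(l * (Ex G q f + x))) * Real.exp (l * f X)) := by
    refine Ex_mono G q hq0 hq1 _ _ fun X _ => ?_
    by_cases h : Ex G q f + x ≤ f X
    · rw [ind_pos h, ← Real.exp_add]
      refine Real.one_le_exp ?_
      nlinarith [mul_le_mul_of_nonneg_left h hl0]
    · rw [ind_neg h]; positivity
  rw [Ex_mul] at h2
  refine h2.trans ((mul_le_mul_of_nonneg_left h1 (Real.exp_pos _).le).trans (le_of_eq ?_))
  rw [← Real.exp_add, ← Real.exp_add]; congr 1; ring

theorem conc_dn (G : Finset α) (q l x : ℝ) (hq0 : 0 ≤ q) (hq1 : q ≤ 1) (hl0 : 0 ≤ l) (hl1 : l ≤ 1)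
    (f : Finset α → ℝ)
    (hf : ∀ X ⊆ G, ∀ a ∈ G, a ∉ X → f X ≤ f (insert a X) ∧ f (insert a X) ≤ f X + 1) :
    Ex G q (fun X => ind (f X ≤ Ex G q f - x)) ≤ Real.exp (-(l * x) + G.card * q * l ^ 2) := by
  have h1 := mgf G q (-l) hq0 hq1 (by rw [abs_neg, abs_of_nonneg hl0]; exact hl1) f hf
  have h2 : Ex G q (fun X => ind (f X ≤ Ex G q f - x)) ≤
      Ex G q (fun X => Real.exp (l * (Ex G q f - x)) * Real.exp (-l * f X)) := by
    refine Ex_mono G q hq0 hq1 _ _ fun X _ => ?_
    by_cases h : f X ≤ Ex G q f - x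
    · rw [ind_pos h, ← Real.exp_add]
      refine Real.one_le_exp ?_
      nlinarith [mul_le_mul_of_nonneg_left h hl0]
    · rw [ind_neg h]; positivity
  rw [Ex_mul] at h2
  refine h2.trans ((mul_le_mul_of_nonneg_left h1 (Real.exp_pos _).le).trans (le_of_eq ?_))
  rw [← Real.exp_add, ← Real.exp_add]; congr 1; ring

/-! ### Rank functions -/

theorem RankFn.r_le_card (R : RankFn α) (S : Finset α) : R.r S ≤ S.card := by
  induction S using Finset.induction_on with
  | empty => simp [R.empty]
  | insert a S ha ih =>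
    rw [Finset.card_insert_of_notMem ha]
    exact (R.ins a S).trans (by omega)

theorem RankFn.nul_add (R : RankFn α) (S : Finset α) : R.nul S + R.r S = S.card := by
  unfold RankFn.nul
  have := R.r_le_card S
  omega

/-- closure is monotone -/
theorem RankFn.cl_mono (R : RankFn α) {S T : Finset α} (h : S ⊆ T) (a : α)
    (hS : R.r (insert a S) = R.r S) : R.r (insert a T) = R.r T := by
  refine le_antisymm ?_ (R.mono _ _ (Finset.subset_insert a T))
  have h1 := R.submod T (insert a S)
  have h2 : T ∪ insert a S = insert a T := by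
    rw [Finset.union_insert, Finset.union_eq_left.2 h]
  have h3 : S ⊆ T ∩ insert a S := Finset.subset_inter h (Finset.subset_insert a S)
  have h4 := R.mono _ _ h3
  rw [h2] at h1
  omega

theorem RankFn.nul_insert (R : RankFn α) {S : Finset α} {a : α} (ha : a ∉ S) :
    (R.nul (insert a S) : ℝ) - R.nul S = ind (R.r (insert a S) = R.r S) := by
  have h1 := R.nul_add S
  have h2 := R.nul_add (insert a S)
  rw [Finset.card_insert_of_notMem ha] at h2
  have h3 := R.mono _ _ (Finset.subset_insert a S)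
  have h4 := R.ins a S
  by_cases h : R.r (insert a S) = R.r S
  · rw [ind_pos h]
    have : R.nul (insert a S) = R.nul S + 1 := by omega
    rw [this]; push_cast; ring
  · rw [ind_neg h]
    have : R.nul (insert a S) = R.nul S := by omega
    rw [this]; ring

theorem RankFn.nul_mono (R : RankFn α) {S T : Finset α} (h : S ⊆ T) : R.nul S ≤ R.nul T := by
  induction T using Finset.induction_on generalizing S with
  | empty => rw [Finset.subset_empty.1 h]
  | insert a T ha ih =>
    by_cases haS : a ∈ S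
    · have h1 : S.erase a ⊆ T := by
        intro y hy
        exact (Finset.mem_insert.1 (h (Finset.mem_of_mem_erase hy))).resolve_left
          (Finset.ne_of_mem_erase hy)
      have h2 := ih h1
      have h3 := R.nul_add (S.erase a)
      have h4 := R.nul_add (insert a (S.erase a))
      have h5 := R.nul_add T
      have h6 := R.nul_add (insert a T)
      have h7 := R.ins a (S.erase a)
      have h8 := R.ins a T
      rw [Finset.card_insert_of_notMem (Finset.notMem_erase a S)] at h4
      rw [Finset.card_insert_of_notMem ha] at h6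
      by_cases hc : R.r (insert a (S.erase a)) = R.r (S.erase a)
      · have := R.cl_mono h1 a hc
        rw [Finset.insert_erase haS] at *
        omega
      · have h9 := R.mono _ _ (Finset.subset_insert a (S.erase a))
        rw [Finset.insert_erase haS] at *
        omega
    · have h1 : S ⊆ T := fun y hy =>
        (Finset.mem_insert.1 (h hy)).resolve_left (fun h' => haS (h' ▸ hy))
      refine (ih h1).trans ?_
      have h5 := R.nul_add T
      have h6 := R.nul_add (insert a T)
      have h8 := R.ins a T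
      rw [Finset.card_insert_of_notMem ha] at h6
      omega

theorem RankFn.nul_lip (R : RankFn α) (X : Finset α) (a : α) (ha : a ∉ X) :
    (R.nul X : ℝ) ≤ R.nul (insert a X) ∧ (R.nul (insert a X) : ℝ) ≤ R.nul X + 1 := by
  have h := R.nul_insert ha
  have h1 := ind_nonneg (R.r (insert a X) = R.r X)
  have h2 := ind_le_one (R.r (insert a X) = R.r X)
  constructor <;> linarith

/-- Thinning: if all bad sets have at least `2g` elements, each in the closure of the others. -/
theorem thin (R : RankFn α) (Y : Finset α) (g : ℕ) (Bad : Finset α → Prop)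
    (hB : ∀ C ⊆ Y, Bad C → 2 * g ≤ C.card ∧ ∀ e ∈ C, R.r (C.erase e) = R.r C)
    (p : ℝ) (hp0 : 0 ≤ p) (hp1 : p ≤ 1) :
    Ex Y p (fun X => ind (∃ C ⊆ X, Bad C)) ≤ 2 ^ (R.nul Y) * p ^ g := by
  set pot : Finset α → ℝ := fun X => ind (∃ C ⊆ X, Bad C) * 2 ^ (R.nul X) with hpot
  set F : ℝ → ℝ := fun p => Ex Y p pot with hF
  -- derivative
  have hder : ∀ p, HasDerivAt F (∑ a ∈ Y, Ex (Y.erase a) p (fun X => pot (insert a X) - pot X)) p :=
    fun p => Ex_deriv Y pot p
  have hpot0 : ∀ X, 0 ≤ pot X := fun X => mul_nonneg (ind_nonneg _) (by positivity)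
  -- key inequality
  have hkey : ∀ p, 0 ≤ p → p ≤ 1 → (g : ℝ) * F p ≤
      p * ∑ a ∈ Y, Ex (Y.erase a) p (fun X => pot (insert a X) - pot X) := by
    intro p hp0 hp1
    have h1 : p * ∑ a ∈ Y, Ex (Y.erase a) p (fun X => pot (insert a X) - pot X) =
        Ex Y p (fun X => ∑ a ∈ Y, ind (a ∈ X) * (pot (insert a (X.erase a)) - pot (X.erase a))) := by
      rw [Finset.mul_sum, Ex_sum]
      exact Finset.sum_congr rfl fun a ha => Ex_erase_in Y a ha p _
    rw [h1, hF]
    simp only
    rw [← Ex_mul]
    refine Ex_mono Y p hp0 hp1 _ _ fun X hX => ?_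
    have h2 : ∑ a ∈ Y, ind (a ∈ X) * (pot (insert a (X.erase a)) - pot (X.erase a)) =
        ∑ a ∈ X, (pot X - pot (X.erase a)) := by
      rw [← Finset.sum_subset hX]
      · refine Finset.sum_congr rfl fun a ha => ?_
        rw [ind_pos ha, Finset.insert_erase ha]; ring
      · intro a _ haX
        rw [ind_neg haX]; ring
    rw [h2]
    have hmono : ∀ a ∈ X, pot (X.erase a) ≤ pot X := by
      intro a _
      simp only [hpot]
      have i1 : ind (∃ C ⊆ X.erase a, Bad C) ≤ ind (∃ C ⊆ X, Bad C) :=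
        ind_mono fun ⟨C, hC, hb⟩ => ⟨C, hC.trans (Finset.erase_subset a X), hb⟩
      have i2 : (2:ℝ) ^ (R.nul (X.erase a)) ≤ 2 ^ (R.nul X) :=
        pow_le_pow_right₀ (by norm_num) (R.nul_mono (Finset.erase_subset a X))
      exact mul_le_mul i1 i2 (by positivity) (ind_nonneg _)
    by_cases hex : ∃ C ⊆ X, Bad C
    · obtain ⟨C, hCX, hb⟩ := hex
      obtain ⟨hcard, hcl⟩ := hB C (hCX.trans hX) hb
      have h3 : ∀ a ∈ C, pot X / 2 ≤ pot X - pot (X.erase a) := by
        intro a haC
        have haX := hCX haC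
        have h4 : R.r (insert a (X.erase a)) = R.r (X.erase a) := by
          refine R.cl_mono (S := C.erase a) (Finset.erase_subset_erase a hCX) a ?_
          rw [Finset.insert_erase haC]; exact (hcl a haC).symm
        have h5 := R.nul_add (X.erase a)
        have h6 := R.nul_add (insert a (X.erase a))
        rw [Finset.card_insert_of_notMem (Finset.notMem_erase a X)] at h6
        have h7 : R.nul X = R.nul (X.erase a) + 1 := by
          rw [Finset.insert_erase haX] at *
          omega
        have h8 : pot (X.erase a) ≤ 2 ^ (R.nul (X.erase a)) := by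
          simp only [hpot]
          have := ind_le_one (∃ C ⊆ X.erase a, Bad C)
          have h9 : (0:ℝ) ≤ 2 ^ (R.nul (X.erase a)) := by positivity
          nlinarith
        have h9 : pot X = 2 * 2 ^ (R.nul (X.erase a)) := by
          simp only [hpot]
          rw [ind_pos ⟨C, hCX, hb⟩, h7, pow_succ]; ring
        rw [h9]; linarith
      have h10 : ∑ a ∈ C, pot X / 2 ≤ ∑ a ∈ X, (pot X - pot (X.erase a)) := by
        refine (Finset.sum_le_sum h3).trans ?_
        exact Finset.sum_le_sum_of_subset_of_nonneg hCX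
          (fun a ha _ => by have := hmono a ha; linarith)
      rw [Finset.sum_const, nsmul_eq_mul] at h10
      refine le_trans ?_ h10
      have hc : (2 * g : ℝ) ≤ C.card := by exact_mod_cast hcard
      have := hpot0 X
      nlinarith
    · have h0 : pot X = 0 := by simp only [hpot]; rw [ind_neg hex]; ring
      rw [h0]
      simp only [mul_zero]
      exact Finset.sum_nonneg fun a ha => by
        have := hmono a ha
        rw [h0] at this
        linarith
  -- comparison
  have hle : Ex Y p (fun X => ind (∃ C ⊆ X, Bad C)) ≤ F p := by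
    refine Ex_mono Y p hp0 hp1 _ _ fun X _ => ?_
    simp only [hpot]
    have h1 : (1:ℝ) ≤ 2 ^ (R.nul X) := one_le_pow₀ (by norm_num)
    nlinarith [ind_nonneg (∃ C ⊆ X, Bad C)]
  have hF1 : F 1 ≤ 2 ^ (R.nul Y) := by
    refine Ex_le_const Y 1 (by norm_num) le_rfl _ _ fun X hX => ?_
    simp only [hpot]
    have i2 : (2:ℝ) ^ (R.nul X) ≤ 2 ^ (R.nul Y) :=
      pow_le_pow_right₀ (by norm_num) (R.nul_mono hX)
    have i3 : (0:ℝ) ≤ 2 ^ (R.nul X) := by positivity
    nlinarith [ind_le_one (∃ C ⊆ X, Bad C), ind_nonneg (∃ C ⊆ X, Bad C)]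
  rcases Nat.eq_zero_or_pos g with hg | hg
  · subst hg
    rw [pow_zero, mul_one]
    have h1 : (1:ℝ) ≤ 2 ^ (R.nul Y) := one_le_pow₀ (by norm_num)
    exact (Ex_le_const Y p hp0 hp1 _ 1 fun X _ => ind_le_one _).trans h1
  rcases hp0.eq_or_lt with hp | hp
  · subst hp
    have h1 : Ex Y 0 (fun X => ind (∃ C ⊆ X, Bad C)) = ind (∃ C ⊆ (∅ : Finset α), Bad C) := by
      unfold Ex
      rw [Finset.sum_eq_single ∅]
      · simp
      · intro X _ hne
        have : X.card ≠ 0 := fun h => hne (Finset.card_eq_zero.1 h)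
        rw [zero_pow this]; ring
      · intro h; exact absurd (Finset.empty_mem_powerset Y) h
    rw [h1, ind_neg]
    · positivity
    · rintro ⟨C, hC, hb⟩
      have hC0 := Finset.subset_empty.1 hC
      subst hC0
      have := (hB ∅ (Finset.empty_subset _) hb).1
      simp at this; omega
  have hder2 : ∀ t ∈ Set.Icc p 1, HasDerivAt (fun t => F t / t ^ g)
      (((∑ a ∈ Y, Ex (Y.erase a) t (fun X => pot (insert a X) - pot X)) * t ^ g -
        F t * (g * t ^ (g - 1))) / (t ^ g) ^ 2) t := by
    intro t ht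
    have ht0 : 0 < t := lt_of_lt_of_le hp ht.1
    exact (hder t).div (hasDerivAt_pow g t) (by positivity)
  have hmonoH : MonotoneOn (fun t => F t / t ^ g) (Set.Icc p 1) := by
    refine monotoneOn_of_deriv_nonneg (convex_Icc p 1) ?_ ?_ ?_
    · intro t ht
      exact (hder2 t ht).continuousAt.continuousWithinAt
    · intro t ht
      exact (hder2 t (interior_subset ht)).differentiableAt.differentiableWithinAt
    · intro t ht
      have ht' := interior_subset ht
      have ht0 : 0 < t := lt_of_lt_of_le hp ht'.1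
      rw [(hder2 t ht').deriv]
      refine div_nonneg ?_ (by positivity)
      have hk := hkey t ht0.le ht'.2
      obtain ⟨g', rfl⟩ : ∃ g', g = g' + 1 := ⟨g - 1, by omega⟩
      have ht1 : 0 ≤ t ^ g' := by positivity
      have : (∑ a ∈ Y, Ex (Y.erase a) t (fun X => pot (insert a X) - pot X)) * t ^ (g' + 1) -
          F t * ((g' + 1 : ℕ) * t ^ (g' + 1 - 1)) =
          t ^ g' * (t * (∑ a ∈ Y, Ex (Y.erase a) t (fun X => pot (insert a X) - pot X)) -
            ((g' + 1 : ℕ) : ℝ) * F t) := by
        rw [Nat.add_sub_cancel, pow_succ]; ring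
      rw [this]
      exact mul_nonneg ht1 (by linarith)
  have h1 := hmonoH (Set.left_mem_Icc.2 hp1) (Set.right_mem_Icc.2 hp1) hp1
  simp only [one_pow, div_one] at h1
  rw [div_le_iff₀ (by positivity)] at h1
  refine hle.trans (h1.trans ?_)
  exact mul_le_mul_of_nonneg_right hF1 (by positivity)

end FC
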