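import Pool.Agent.H92.FC.Defs

/-!
# Bernoulli expectations on finite ground sets
-/

namespace FC

open Finset

variable {α : Type*} [DecidableEq α]

theorem Ex_empty (q : ℝ) (f : Finset α → ℝ) : Ex ∅ q f = f ∅ := by
  simp [Ex]

theorem Ex_insert (G : Finset α) (a : α) (ha : a ∉ G) (q : ℝ) (f : Finset α → ℝ) :
    Ex (insert a G) q f = (1 - q) * Ex G q f + q * Ex G q (fun X => f (insert a X)) := by
  unfold Ex
  rw [Finset.sum_powerset_insert ha, Finset.mul_sum, Finset.mul_sum]
  congr 1
  · refine Finset.sum_congr rfl fun X hX => ?_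
    have hXG := Finset.mem_powerset.1 hX
    have haX : a ∉ X := fun h => ha (hXG h)
    have : (insert a G) \ X = insert a (G \ X) := by
      ext y; simp only [mem_sdiff, mem_insert]
      constructor
      · rintro ⟨h1 | h1, h2⟩
        · exact Or.inl h1
        · exact Or.inr ⟨h1, h2⟩
      · rintro (h1 | h1)
        · exact ⟨Or.inl h1, h1 ▸ haX⟩
        · exact ⟨Or.inr h1.1, h1.2⟩
    rw [this, Finset.card_insert_of_notMem (by simp [ha])]
    ring
  · refine Finset.sum_congr rfl fun X hX => ?_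
    have hXG := Finset.mem_powerset.1 hX
    have haX : a ∉ X := fun h => ha (hXG h)
    have : (insert a G) \ (insert a X) = G \ X := by
      ext y; simp only [mem_sdiff, mem_insert, not_or]
      constructor
      · rintro ⟨h1 | h1, h2, h3⟩
        · exact absurd h1 h2
        · exact ⟨h1, h3⟩
      · rintro ⟨h1, h2⟩
        exact ⟨Or.inr h1, fun h => ha (h ▸ h1), h2⟩
    rw [this, Finset.card_insert_of_notMem haX]
    ring

theorem Ex_congr (G : Finset α) (q : ℝ) (f g : Finset α → ℝ) (h : ∀ X ⊆ G, f X = g X) :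
    Ex G q f = Ex G q g := by
  unfold Ex
  exact Finset.sum_congr rfl fun X hX => by rw [h X (Finset.mem_powerset.1 hX)]

theorem Ex_mono (G : Finset α) (q : ℝ) (hq0 : 0 ≤ q) (hq1 : q ≤ 1) (f g : Finset α → ℝ)
    (h : ∀ X ⊆ G, f X ≤ g X) : Ex G q f ≤ Ex G q g := by
  unfold Ex
  refine Finset.sum_le_sum fun X hX => ?_
  exact mul_le_mul_of_nonneg_left (h X (Finset.mem_powerset.1 hX))
    (mul_nonneg (pow_nonneg hq0 _) (pow_nonneg (by linarith) _))

theorem Ex_add (G : Finset α) (q : ℝ) (f g : Finset α → ℝ) :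
    Ex G q (fun X => f X + g X) = Ex G q f + Ex G q g := by
  unfold Ex
  rw [← Finset.sum_add_distrib]
  exact Finset.sum_congr rfl fun X _ => by ring

theorem Ex_sub (G : Finset α) (q : ℝ) (f g : Finset α → ℝ) :
    Ex G q (fun X => f X - g X) = Ex G q f - Ex G q g := by
  unfold Ex
  rw [← Finset.sum_sub_distrib]
  exact Finset.sum_congr rfl fun X _ => by ring

theorem Ex_mul (G : Finset α) (q c : ℝ) (f : Finset α → ℝ) :
    Ex G q (fun X => c * f X) = c * Ex G q f := by
  unfold Ex
  rw [Finset.mul_sum]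
  exact Finset.sum_congr rfl fun X _ => by ring

theorem Ex_sum {ι : Type*} (s : Finset ι) (G : Finset α) (q : ℝ) (f : ι → Finset α → ℝ) :
    Ex G q (fun X => ∑ i ∈ s, f i X) = ∑ i ∈ s, Ex G q (f i) := by
  unfold Ex
  rw [Finset.sum_comm]
  exact Finset.sum_congr rfl fun X _ => by rw [Finset.mul_sum]

theorem Ex_const (G : Finset α) (q c : ℝ) : Ex G q (fun _ => c) = c := by
  induction G using Finset.induction_on with
  | empty => exact Ex_empty q _
  | insert a G ha ih => rw [Ex_insert G a ha, ih]; ring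

theorem Ex_nonneg (G : Finset α) (q : ℝ) (hq0 : 0 ≤ q) (hq1 : q ≤ 1) (f : Finset α → ℝ)
    (h : ∀ X ⊆ G, 0 ≤ f X) : 0 ≤ Ex G q f := by
  have := Ex_mono G q hq0 hq1 (fun _ => 0) f h
  rwa [Ex_const] at this

theorem Ex_le_const (G : Finset α) (q : ℝ) (hq0 : 0 ≤ q) (hq1 : q ≤ 1) (f : Finset α → ℝ) (c : ℝ)
    (h : ∀ X ⊆ G, f X ≤ c) : Ex G q f ≤ c := by
  have := Ex_mono G q hq0 hq1 f (fun _ => c) h
  rwa [Ex_const] at this

theorem le_Ex_const (G : Finset α) (q : ℝ) (hq0 : 0 ≤ q) (hq1 : q ≤ 1) (f : Finset α → ℝ) (c : ℝ)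
    (h : ∀ X ⊆ G, c ≤ f X) : c ≤ Ex G q f := by
  have := Ex_mono G q hq0 hq1 (fun _ => c) f h
  rwa [Ex_const] at this

theorem ind_nonneg (p : Prop) : 0 ≤ ind p := by unfold ind; split_ifs <;> norm_num

theorem ind_le_one (p : Prop) : ind p ≤ 1 := by unfold ind; split_ifs <;> norm_num

theorem ind_pos {p : Prop} (h : p) : ind p = 1 := by unfold ind; rw [if_pos h]

theorem ind_neg {p : Prop} (h : ¬ p) : ind p = 0 := by unfold ind; rw [if_neg h]

theorem ind_mono {p r : Prop} (h : p → r) : ind p ≤ ind r := by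
  by_cases hp : p
  · rw [ind_pos hp, ind_pos (h hp)]
  · rw [ind_neg hp]; exact ind_nonneg r

theorem ind_congr {p r : Prop} (h : p ↔ r) : ind p = ind r := by
  by_cases hp : p
  · rw [ind_pos hp, ind_pos (h.1 hp)]
  · rw [ind_neg hp, ind_neg fun hr => hp (h.2 hr)]

theorem ind_or_le (p r : Prop) : ind (p ∨ r) ≤ ind p + ind r := by
  by_cases hp : p
  · rw [ind_pos (Or.inl hp), ind_pos hp]; linarith [ind_nonneg r]
  · by_cases hr : r
    · rw [ind_pos (Or.inr hr), ind_pos hr]; linarith [ind_nonneg p]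
    · rw [ind_neg (not_or.2 ⟨hp, hr⟩)]; linarith [ind_nonneg p, ind_nonneg r]

theorem ind_not (p : Prop) : ind (¬ p) = 1 - ind p := by
  by_cases hp : p
  · rw [ind_pos hp, ind_neg (not_not.2 hp)]; ring
  · rw [ind_neg hp, ind_pos hp]; ring

theorem ind_and (p r : Prop) : ind (p ∧ r) = ind p * ind r := by
  by_cases hp : p
  · by_cases hr : r
    · rw [ind_pos hp, ind_pos hr, ind_pos ⟨hp, hr⟩]; ring
    · rw [ind_neg hr, ind_neg fun h => hr h.2]; ring
  · rw [ind_neg hp, ind_neg fun h => hp h.1]; ring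

/-- marginalisation -/
theorem Ex_restrict (G H : Finset α) (hH : H ⊆ G) (q : ℝ) (f : Finset α → ℝ) :
    Ex G q (fun X => f (X ∩ H)) = Ex H q f := by
  induction G using Finset.induction_on generalizing H f with
  | empty =>
    have : H = ∅ := Finset.subset_empty.1 hH
    subst this; simp [Ex_empty]
  | insert a G ha ih =>
    rw [Ex_insert G a ha]
    by_cases haH : a ∈ H
    · have hH' : H.erase a ⊆ G := by
        intro y hy
        rcases Finset.mem_insert.1 (hH (Finset.mem_of_mem_erase hy)) with h | h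
        · exact absurd h (Finset.ne_of_mem_erase hy)
        · exact h
      have e1 : H = insert a (H.erase a) := (Finset.insert_erase haH).symm
      have haX : ∀ X ⊆ G, a ∉ X := fun X hX h => ha (hX h)
      have h1 : Ex G q (fun X => f (X ∩ H)) = Ex (H.erase a) q f := by
        rw [← ih (H.erase a) hH' f]
        refine Ex_congr _ _ _ _ fun X hX => ?_
        congr 1
        ext y; simp only [mem_inter, mem_erase]
        constructor
        · rintro ⟨h1, h2⟩; exact ⟨h1, fun h => haX X hX (h ▸ h1), h2⟩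
        · rintro ⟨h1, _, h2⟩; exact ⟨h1, h2⟩
      have h2 : Ex G q (fun X => f (insert a X ∩ H)) =
          Ex (H.erase a) q (fun X => f (insert a X)) := by
        rw [← ih (H.erase a) hH' (fun X => f (insert a X))]
        refine Ex_congr _ _ _ _ fun X hX => ?_
        congr 1
        ext y; simp only [mem_inter, mem_erase, mem_insert]
        constructor
        · rintro ⟨h1 | h1, h2⟩
          · exact Or.inl h1
          · by_cases hy : y = a
            · exact Or.inl hy
            · exact Or.inr ⟨h1, hy, h2⟩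
        · rintro (h1 | ⟨h1, _, h2⟩)
          · exact ⟨Or.inl h1, h1 ▸ haH⟩
          · exact ⟨Or.inr h1, h2⟩
      rw [h1, h2]
      conv_rhs => rw [e1]
      rw [Ex_insert (H.erase a) a (Finset.notMem_erase a H)]
    · have hH' : H ⊆ G := fun y hy =>
        (Finset.mem_insert.1 (hH hy)).resolve_left (fun h => haH (h ▸ hy))
      have h2 : Ex G q (fun X => f (insert a X ∩ H)) = Ex G q (fun X => f (X ∩ H)) := by
        refine Ex_congr _ _ _ _ fun X _ => ?_
        rw [Finset.insert_inter_of_notMem haH]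
      rw [h2, ih H hH' f]; ring

theorem Ex_union (G : Finset α) (q y : ℝ) (f : Finset α → ℝ) :
    Ex G q (fun X => Ex G y (fun Y => f (X ∪ Y))) = Ex G (q + y - q * y) f := by
  induction G using Finset.induction_on generalizing f with
  | empty => simp [Ex_empty]
  | insert a G ha ih =>
    rw [Ex_insert G a ha, Ex_insert G a ha (q + y - q * y)]
    have e0 : ∀ X : Finset α, Ex (insert a G) y (fun Y => f (X ∪ Y)) =
        (1 - y) * Ex G y (fun Y => f (X ∪ Y)) + y * Ex G y (fun Y => f (insert a (X ∪ Y))) := by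
      intro X
      rw [Ex_insert G a ha]
      simp only [Finset.union_insert]
    have e1 : Ex G q (fun X => Ex (insert a G) y (fun Y => f (X ∪ Y))) =
        (1 - y) * Ex G (q + y - q * y) f +
          y * Ex G (q + y - q * y) (fun X => f (insert a X)) := by
      simp only [e0]
      rw [Ex_add, Ex_mul, Ex_mul, ih f, ih (fun X => f (insert a X))]
    have e3 : ∀ X : Finset α, Ex (insert a G) y (fun Y => f (insert a X ∪ Y)) =
        Ex G y (fun Y => f (insert a (X ∪ Y))) := by
      intro X
      rw [Ex_insert G a ha]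
      simp only [Finset.insert_union, Finset.union_insert, Finset.insert_idem]
      ring
    have e2 : Ex G q (fun X => Ex (insert a G) y (fun Y => f (insert a X ∪ Y))) =
        Ex G (q + y - q * y) (fun X => f (insert a X)) := by
      simp only [e3]
      exact ih (fun X => f (insert a X))
    rw [e1, e2]; ring

theorem Ex_thin (G : Finset α) (q p : ℝ) (f : Finset α → ℝ) :
    Ex G q (fun Y => Ex Y p f) = Ex G (q * p) f := by
  induction G using Finset.induction_on generalizing f with
  | empty => simp [Ex_empty]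
  | insert a G ha ih =>
    rw [Ex_insert G a ha, Ex_insert G a ha, ih f]
    have e : Ex G q (fun X => Ex (insert a X) p f) =
        (1 - p) * Ex G (q * p) f + p * Ex G (q * p) (fun X => f (insert a X)) := by
      rw [← ih f, ← ih (fun X => f (insert a X)), ← Ex_mul, ← Ex_mul, ← Ex_add]
      refine Ex_congr _ _ _ _ fun X hX => ?_
      exact Ex_insert X a (fun h => ha (hX h)) p f
    rw [e]; ring

theorem Ex_split (G : Finset α) (a : α) (ha : a ∈ G) (q : ℝ) (f : Finset α → ℝ) :
    Ex G q f = (1 - q) * Ex (G.erase a) q f + q * Ex (G.erase a) q (fun X => f (insert a X)) := by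
  conv_lhs => rw [← Finset.insert_erase ha]
  rw [Ex_insert _ a (Finset.notMem_erase a G)]

theorem Ex_erase_in (G : Finset α) (a : α) (ha : a ∈ G) (q : ℝ) (h : Finset α → ℝ) :
    q * Ex (G.erase a) q h = Ex G q (fun X => ind (a ∈ X) * h (X.erase a)) := by
  rw [Ex_split G a ha q (fun X => ind (a ∈ X) * h (X.erase a))]
  have h1 : Ex (G.erase a) q (fun X => ind (a ∈ X) * h (X.erase a)) = 0 := by
    rw [← Ex_const (G.erase a) q 0]
    refine Ex_congr _ _ _ _ fun X hX => ?_
    rw [ind_neg (fun h' => Finset.notMem_erase a G (hX h'))]; ring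
  have h2 : Ex (G.erase a) q (fun X => ind (a ∈ insert a X) * h ((insert a X).erase a)) =
      Ex (G.erase a) q h := by
    refine Ex_congr _ _ _ _ fun X hX => ?_
    rw [ind_pos (Finset.mem_insert_self a X),
      Finset.erase_insert (fun h' => Finset.notMem_erase a G (hX h'))]; ring
  rw [h1, h2]; ring

theorem Ex_erase_out (G : Finset α) (a : α) (ha : a ∈ G) (q : ℝ) (h : Finset α → ℝ) :
    (1 - q) * Ex (G.erase a) q h = Ex G q (fun X => ind (a ∉ X) * h X) := by
  rw [Ex_split G a ha q (fun X => ind (a ∉ X) * h X)]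
  have h2 : Ex (G.erase a) q (fun X => ind (a ∉ insert a X) * h (insert a X)) = 0 := by
    rw [← Ex_const (G.erase a) q 0]
    refine Ex_congr _ _ _ _ fun X hX => ?_
    rw [ind_neg (fun h' => h' (Finset.mem_insert_self a X))]; ring
  have h1 : Ex (G.erase a) q (fun X => ind (a ∉ X) * h X) =
      Ex (G.erase a) q h := by
    refine Ex_congr _ _ _ _ fun X hX => ?_
    rw [ind_pos (fun h' => Finset.notMem_erase a G (hX h'))]; ring
  rw [h1, h2]; ring

/-- Russo's formula. -/
theorem Ex_deriv (G : Finset α) (f : Finset α → ℝ) (q : ℝ) :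
    HasDerivAt (fun q => Ex G q f)
      (∑ a ∈ G, Ex (G.erase a) q (fun X => f (insert a X) - f X)) q := by
  induction G using Finset.induction_on generalizing f with
  | empty =>
    simp only [Ex_empty, Finset.sum_empty]
    exact hasDerivAt_const q _
  | insert a G ha ih =>
    have h1 := ih f
    have h2 := ih (fun X => f (insert a X))
    have h3 : HasDerivAt (fun q => (1 - q) * Ex G q f + q * Ex G q (fun X => f (insert a X)))
        ((-1) * Ex G q f + (1 - q) * (∑ a ∈ G, Ex (G.erase a) q (fun X => f (insert a X) - f X)) +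
          (1 * Ex G q (fun X => f (insert a X)) + q * (∑ b ∈ G, Ex (G.erase b) q
            (fun X => f (insert a (insert b X)) - f (insert a X))))) q := by
      refine HasDerivAt.add ?_ ?_
      · refine HasDerivAt.mul ?_ h1
        have := (hasDerivAt_id q).const_sub 1
        simpa using this
      · exact HasDerivAt.mul (hasDerivAt_id q) h2
    have h4 : (fun q => Ex (insert a G) q f) =
        fun q => (1 - q) * Ex G q f + q * Ex G q (fun X => f (insert a X)) := by
      funext q; exact Ex_insert G a ha q f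
    rw [h4]
    convert h3 using 1
    rw [Finset.sum_insert ha, Finset.erase_insert ha, Ex_sub]
    have h5 : ∀ b ∈ G, Ex ((insert a G).erase b) q (fun X => f (insert b X) - f X) =
        (1 - q) * Ex (G.erase b) q (fun X => f (insert b X) - f X) +
        q * Ex (G.erase b) q (fun X => f (insert a (insert b X)) - f (insert a X)) := by
      intro b hb
      have hab : a ≠ b := fun h => ha (h ▸ hb)
      rw [Finset.erase_insert_of_ne hab, Ex_insert _ a (fun h => ha (Finset.mem_of_mem_erase h))]
      congr 2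
      refine Ex_congr _ _ _ _ fun X _ => ?_
      rw [Finset.insert_comm]
    rw [Finset.sum_congr rfl h5, Finset.sum_add_distrib, ← Finset.mul_sum, ← Finset.mul_sum]
    ring

theorem Ex_mono_q (G : Finset α) (q q' : ℝ) (hq0 : 0 ≤ q) (hqq : q ≤ q') (hq1 : q' ≤ 1)
    (f : Finset α → ℝ) (hf : ∀ X Y, X ⊆ Y → Y ⊆ G → f X ≤ f Y) : Ex G q f ≤ Ex G q' f := by
  induction G using Finset.induction_on generalizing f with
  | empty => simp [Ex_empty]
  | insert a G ha ih =>
    rw [Ex_insert G a ha, Ex_insert G a ha]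
    have h1 := ih f (fun X Y h1 h2 => hf X Y h1 (h2.trans (Finset.subset_insert a G)))
    have h2 := ih (fun X => f (insert a X)) (fun X Y h1 h2 =>
      hf _ _ (Finset.insert_subset_insert a h1) (Finset.insert_subset_insert a h2))
    have h3 : Ex G q f ≤ Ex G q (fun X => f (insert a X)) :=
      Ex_mono G q hq0 (hqq.trans hq1) _ _ (fun X hX =>
        hf _ _ (Finset.subset_insert a X) (Finset.insert_subset_insert a hX))
    nlinarith [mul_le_mul_of_nonneg_left h1 (by linarith : (0:ℝ) ≤ 1 - q'),
      mul_le_mul_of_nonneg_left h2 (by linarith : (0:ℝ) ≤ q'),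
      mul_le_mul_of_nonneg_left h3 (by linarith : (0:ℝ) ≤ q' - q)]

theorem Ex_subset (G S : Finset α) (hS : S ⊆ G) (q : ℝ) :
    Ex G q (fun X => ind (S ⊆ X)) = q ^ S.card := by
  have h1 : Ex G q (fun X => ind (S ⊆ X)) = Ex G q (fun X => ind (S ⊆ X ∩ S)) := by
    refine Ex_congr _ _ _ _ fun X _ => ind_congr ?_
    exact ⟨fun h => Finset.subset_inter h (Finset.Subset.refl S),
      fun h => h.trans Finset.inter_subset_left⟩
  rw [h1, Ex_restrict G S hS q (fun X => ind (S ⊆ X))]
  unfold Ex
  rw [Finset.sum_eq_single S]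
  · beta_reduce
    rw [ind_pos (Finset.Subset.refl S)]; simp
  · intro X hX hne
    beta_reduce
    rw [ind_neg (fun h => hne (Finset.Subset.antisymm (Finset.mem_powerset.1 hX) h))]; ring
  · intro h; exact absurd (Finset.mem_powerset_self S) h

/-- union bound -/
theorem Ex_union_bound (G : Finset α) (q : ℝ) (hq0 : 0 ≤ q) (hq1 : q ≤ 1)
    (𝒮 : Finset (Finset α)) (h𝒮 : ∀ S ∈ 𝒮, S ⊆ G) (P : Finset α → Prop)
    (hP : ∀ X ⊆ G, P X → ∃ S ∈ 𝒮, S ⊆ X) :
    Ex G q (fun X => ind (P X)) ≤ ∑ S ∈ 𝒮, q ^ S.card := by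
  have h1 : Ex G q (fun X => ind (P X)) ≤ Ex G q (fun X => ∑ S ∈ 𝒮, ind (S ⊆ X)) := by
    refine Ex_mono G q hq0 hq1 _ _ fun X hX => ?_
    by_cases hp : P X
    · obtain ⟨S, hS, hSX⟩ := hP X hX hp
      rw [ind_pos hp, ← ind_pos hSX]
      exact Finset.single_le_sum (f := fun S => ind (S ⊆ X)) (fun i _ => ind_nonneg _) hS
    · rw [ind_neg hp]; exact Finset.sum_nonneg fun i _ => ind_nonneg _
  rw [Ex_sum] at h1
  refine h1.trans (le_of_eq (Finset.sum_congr rfl fun S hS => Ex_subset G S (h𝒮 S hS) q))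

theorem Ex_card (G : Finset α) (q : ℝ) : Ex G q (fun X => (X.card : ℝ)) = q * G.card := by
  induction G using Finset.induction_on with
  | empty => simp [Ex_empty]
  | insert a G ha ih =>
    rw [Ex_insert G a ha, ih]
    have : Ex G q (fun X => ((insert a X).card : ℝ)) = Ex G q (fun X => (X.card : ℝ) + 1) := by
      refine Ex_congr _ _ _ _ fun X hX => ?_
      rw [Finset.card_insert_of_notMem (fun h => ha (hX h))]; push_cast; ring
    rw [this, Ex_add, ih, Ex_const, Finset.card_insert_of_notMem ha]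
    push_cast; ring

theorem Ex_sq_card (G : Finset α) (q : ℝ) :
    Ex G q (fun X => ((X.card : ℝ) - q * G.card) ^ 2) = G.card * q * (1 - q) := by
  have key : ∀ c : ℝ, Ex G q (fun X => ((X.card : ℝ) - c) ^ 2) =
      G.card * q * (1 - q) + (q * G.card - c) ^ 2 := by
    induction G using Finset.induction_on with
    | empty => intro c; simp [Ex_empty]
    | insert a G ha ih =>
      intro c
      rw [Ex_insert G a ha, ih]
      have : Ex G q (fun X => (((insert a X).card : ℝ) - c) ^ 2) =
          Ex G q (fun X => ((X.card : ℝ) - (c - 1)) ^ 2) := by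
        refine Ex_congr _ _ _ _ fun X hX => ?_
        rw [Finset.card_insert_of_notMem (fun h => ha (hX h))]; push_cast; ring
      rw [this, ih, Finset.card_insert_of_notMem ha]
      push_cast; ring
  rw [key]; ring

/-- Cauchy–Schwarz -/
theorem Ex_sq_le (G : Finset α) (q : ℝ) (hq0 : 0 ≤ q) (hq1 : q ≤ 1) (f : Finset α → ℝ) :
    (Ex G q f) ^ 2 ≤ Ex G q (fun X => (f X) ^ 2) := by
  have h := Ex_nonneg G q hq0 hq1 (fun X => (f X - Ex G q f) ^ 2) (fun X _ => sq_nonneg _)
  have e : Ex G q (fun X => (f X - Ex G q f) ^ 2) =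
      Ex G q (fun X => (f X) ^ 2) - (Ex G q f) ^ 2 := by
    have : (fun X => (f X - Ex G q f) ^ 2) =
        fun X => ((f X) ^ 2 - (2 * Ex G q f) * f X) + (Ex G q f) ^ 2 := by
      funext X; ring
    rw [this, Ex_add, Ex_sub, Ex_mul, Ex_const]; ring
  rw [e] at h; linarith

/-- relabelling -/
theorem Ex_image {γ : Type*} [DecidableEq γ] (G : Finset α) (ψ : α → γ)
    (hψ : Set.InjOn ψ G) (q : ℝ) (f : Finset γ → ℝ) :
    Ex (G.image ψ) q f = Ex G q (fun X => f (X.image ψ)) := by
  induction G using Finset.induction_on generalizing f with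
  | empty => simp [Ex_empty]
  | insert a G ha ih =>
    have hinj : Set.InjOn ψ (G : Set α) := hψ.mono (by simp)
    have hnot : ψ a ∉ G.image ψ := by
      intro h
      obtain ⟨b, hb, hab⟩ := Finset.mem_image.1 h
      have : b = a := hψ (by simp [hb]) (by simp) hab
      exact ha (this ▸ hb)
    rw [Finset.image_insert, Ex_insert _ _ hnot, Ex_insert G a ha, ih hinj, ih hinj]
    simp only [Finset.image_insert]

/-- lower bound by Markov's inequality -/
theorem Ex_markov (G : Finset α) (q : ℝ) (hq0 : 0 ≤ q) (hq1 : q ≤ 1) (f : Finset α → ℝ)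
    (hf : ∀ X ⊆ G, 0 ≤ f X) (x : ℝ) (hx : 0 < x) :
    Ex G q (fun X => ind (x ≤ f X)) ≤ Ex G q f / x := by
  rw [le_div_iff₀ hx, mul_comm, ← Ex_mul]
  refine Ex_mono G q hq0 hq1 _ _ fun X hX => ?_
  by_cases h : x ≤ f X
  · rw [ind_pos h]; linarith
  · rw [ind_neg h]; simpa using hf X hX

end FC
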