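import Pool.Agent.H92.FC.Conc

/-!
# The functions `beta` and `Tm`
-/

namespace FC

open Finset

theorem card_fc (d m : ℕ) : (fc d m).card = m.choose (d + 1) := by
  unfold fc faces
  rw [Finset.card_powersetCard, Finset.card_range]

theorem mem_faces {d : ℕ} {V σ : Finset ℕ} : σ ∈ faces d V ↔ σ ⊆ V ∧ σ.card = d + 1 := by
  unfold faces; exact Finset.mem_powersetCard

theorem faces_mono {d : ℕ} {V W : Finset ℕ} (h : V ⊆ W) : faces d V ⊆ faces d W := by
  intro σ hσ
  rw [mem_faces] at *
  exact ⟨hσ.1.trans h, hσ.2⟩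

/-- every finite set of naturals is the image of an initial segment under a strictly monotone map -/
theorem exists_strictMono (V : Finset ℕ) (m : ℕ) (hV : V.card = m) :
    ∃ φ : ℕ → ℕ, StrictMono φ ∧ (range m).image φ = V := by
  subst hV
  set p : ℕ → Prop := fun x => x ∈ V ∨ V.sup id < x with hp
  have hinf : (setOf p).Infinite := by
    refine Set.infinite_of_not_bddAbove ?_
    rintro ⟨B, hB⟩
    have h1 : (max B (V.sup id) + 1) ∈ setOf p := by
      right
      have := le_max_right B (V.sup id)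
      omega
    have h2 := hB h1
    have := le_max_left B (V.sup id)
    omega
  classical
  refine ⟨Nat.nth p, Nat.nth_strictMono hinf, ?_⟩
  have hsub : (range V.card).image (Nat.nth p) ⊆ V := by
    intro y hy
    obtain ⟨i, hi, rfl⟩ := Finset.mem_image.1 hy
    have hi' := Finset.mem_range.1 hi
    have h1 : p (Nat.nth p i) := Nat.nth_mem_of_infinite hinf i
    rcases h1 with h1 | h1
    · exact h1
    · exfalso
      -- all elements of V are smaller than nth p i, so count is at least card V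
      have h2 : Nat.count p (Nat.nth p i) = i := Nat.count_nth_of_infinite hinf i
      have h3 : V.card ≤ Nat.count p (Nat.nth p i) := by
        rw [Nat.count_eq_card_filter_range]
        refine Finset.card_le_card fun x hx => ?_
        rw [Finset.mem_filter, Finset.mem_range]
        exact ⟨lt_of_le_of_lt (Finset.le_sup (f := id) hx) h1, Or.inl hx⟩
      omega
  refine Finset.eq_of_subset_of_card_le hsub ?_
  rw [Finset.card_image_of_injective _ (Nat.nth_strictMono hinf).injective, Finset.card_range]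

theorem image_inj {φ : ℕ → ℕ} (hφ : StrictMono φ) :
    Function.Injective (fun σ : Finset ℕ => σ.image φ) :=
  Finset.image_injective hφ.injective

theorem faces_image {d m : ℕ} {V : Finset ℕ} {φ : ℕ → ℕ} (hφ : StrictMono φ)
    (h : (range m).image φ = V) : faces d V = (fc d m).image (fun σ => σ.image φ) := by
  ext σ
  rw [mem_faces, Finset.mem_image]
  constructor
  · rintro ⟨h1, h2⟩
    rw [← h] at h1
    obtain ⟨τ, hτ, hτσ⟩ := Finset.subset_image_iff.1 h1
    refine ⟨τ, ?_, hτσ⟩
    unfold fc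
    rw [mem_faces]
    refine ⟨by exact_mod_cast hτ, ?_⟩
    rw [← h2, ← hτσ, Finset.card_image_of_injective _ hφ.injective]
  · rintro ⟨τ, hτ, rfl⟩
    unfold fc at hτ
    rw [mem_faces] at hτ
    refine ⟨?_, ?_⟩
    · rw [← h]; exact Finset.image_subset_image hτ.1
    · rw [Finset.card_image_of_injective _ hφ.injective]; exact hτ.2

variable {d : ℕ}

theorem nul_image (R : CRank d) {φ : ℕ → ℕ} (hφ : StrictMono φ) (X : Finset (Finset ℕ)) :
    R.nul (X.image (fun σ => σ.image φ)) = R.nul X := by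
  unfold RankFn.nul
  rw [Finset.card_image_of_injective _ (image_inj hφ)]
  have := R.map φ hφ X
  rw [this]

theorem beta_eq (R : CRank d) (m : ℕ) (V : Finset ℕ) (hV : V.card = m) (q : ℝ) :
    Ex (faces d V) q (fun X => (R.nul X : ℝ)) = beta R m q := by
  obtain ⟨φ, hφ, h⟩ := exists_strictMono V m hV
  rw [faces_image hφ h, Ex_image _ _ (image_inj hφ).injOn]
  unfold beta
  refine Ex_congr _ _ _ _ fun X _ => ?_
  rw [nul_image R hφ]

/-- `Tm` on an arbitrary vertex set. -/
theorem Tm_eq (R : CRank d) (m : ℕ) (V : Finset ℕ) (hV : V.card = m) (q : ℝ) :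
    ∑ σ ∈ faces d V, Ex ((faces d V).erase σ) q (fun X => ind (R.r (insert σ X) = R.r X)) =
      Tm R m q := by
  obtain ⟨φ, hφ, h⟩ := exists_strictMono V m hV
  rw [faces_image hφ h, Finset.sum_image (fun x _ y _ hxy => image_inj hφ hxy)]
  unfold Tm
  refine Finset.sum_congr rfl fun σ _ => ?_
  have e : ((fc d m).image (fun σ => σ.image φ)).erase (σ.image φ) =
      ((fc d m).erase σ).image (fun σ => σ.image φ) := by
    ext τ
    simp only [Finset.mem_erase, Finset.mem_image]
    constructor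
    · rintro ⟨h1, υ, h2, rfl⟩
      exact ⟨υ, ⟨fun h' => h1 (by rw [h']), h2⟩, rfl⟩
    · rintro ⟨υ, ⟨h1, h2⟩, rfl⟩
      exact ⟨fun h' => h1 (image_inj hφ h'), υ, h2, rfl⟩
  rw [e, Ex_image _ _ (image_inj hφ).injOn]
  refine Ex_congr _ _ _ _ fun X _ => ?_
  have e2 : insert (σ.image φ) (X.image (fun σ => σ.image φ)) =
      (insert σ X).image (fun σ => σ.image φ) := by rw [Finset.image_insert]
  rw [e2, R.map φ hφ, R.map φ hφ]

theorem beta_der (R : CRank d) (m : ℕ) (q : ℝ) : HasDerivAt (beta R m) (Tm R m q) q := by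
  have h := Ex_deriv (fc d m) (fun X => (R.nul X : ℝ)) q
  have e : (∑ a ∈ fc d m, Ex ((fc d m).erase a) q
      (fun X => (R.nul (insert a X) : ℝ) - R.nul X)) = Tm R m q := by
    unfold Tm
    refine Finset.sum_congr rfl fun a _ => Ex_congr _ _ _ _ fun X hX => ?_
    exact R.nul_insert (fun h' => Finset.notMem_erase a _ (hX h'))
  rw [e] at h
  exact h

theorem Tm_nonneg (R : CRank d) (m : ℕ) (q : ℝ) (h0 : 0 ≤ q) (h1 : q ≤ 1) : 0 ≤ Tm R m q :=
  Finset.sum_nonneg fun _ _ => Ex_nonneg _ _ h0 h1 _ fun _ _ => ind_nonneg _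

theorem Tm_le (R : CRank d) (m : ℕ) (q : ℝ) (h0 : 0 ≤ q) (h1 : q ≤ 1) :
    Tm R m q ≤ (m.choose (d + 1) : ℝ) := by
  unfold Tm
  calc _ ≤ ∑ σ ∈ fc d m, (1 : ℝ) := Finset.sum_le_sum fun _ _ =>
        Ex_le_const _ _ h0 h1 _ 1 fun _ _ => ind_le_one _
    _ = _ := by rw [Finset.sum_const, card_fc]; simp

theorem Tm_mono (R : CRank d) (m : ℕ) (q q' : ℝ) (h0 : 0 ≤ q) (hqq : q ≤ q') (h1 : q' ≤ 1) :
    Tm R m q ≤ Tm R m q' := by
  unfold Tm
  refine Finset.sum_le_sum fun σ _ => ?_
  exact Ex_mono_q _ q q' h0 hqq h1 _ fun X Y hXY _ => ind_mono fun h => R.cl_mono hXY σ h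

theorem Ex_zero {α : Type*} [DecidableEq α] (G : Finset α) (f : Finset α → ℝ) :
    Ex G 0 f = f ∅ := by
  induction G using Finset.induction_on generalizing f with
  | empty => exact Ex_empty _ _
  | insert a G ha ih => rw [Ex_insert G a ha, ih]; ring

theorem nul_empty (R : CRank d) : R.nul ∅ = 0 := by
  unfold RankFn.nul; simp

theorem beta_zero (R : CRank d) (m : ℕ) : beta R m 0 = 0 := by
  unfold beta
  rw [Ex_zero, nul_empty]; simp

theorem beta_restrict (R : CRank d) (G : Finset (Finset ℕ)) (m : ℕ) (V : Finset ℕ)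
    (hV : V.card = m) (hG : faces d V ⊆ G) (q : ℝ) :
    Ex G q (fun X => (R.nul (X ∩ faces d V) : ℝ)) = beta R m q := by
  rw [Ex_restrict G (faces d V) hG q (fun X => (R.nul X : ℝ)), beta_eq R m V hV]

theorem beta_mono (R : CRank d) (m : ℕ) (q : ℝ) (h0 : 0 ≤ q) (h1 : q ≤ 1) :
    beta R m q ≤ beta R (m + 1) q := by
  rw [← beta_restrict R (fc d (m + 1)) m (range m) (Finset.card_range m)
    (faces_mono (Finset.range_subset_range.2 (Nat.le_succ m))) q]
  unfold beta
  refine Ex_mono _ _ h0 h1 _ _ fun X _ => ?_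
  exact_mod_cast R.nul_mono Finset.inter_subset_left

/-- supermodularity of the nullity, with extra elements in the two closures -/
theorem nul_super {α : Type*} [DecidableEq α] (R : RankFn α) (X S1 S2 S0 Y P : Finset α)
    (h1 : S1 ⊆ X) (h2 : S2 ⊆ X) (h0 : S1 ∩ S2 = S0) (hP : P ⊆ Y) (hPd : Disjoint P S0)
    (hc1 : ∀ a ∈ P, R.r (insert a S1) = R.r S1) (hc2 : ∀ a ∈ P, R.r (insert a S2) = R.r S2) :
    R.nul S1 + R.nul S2 + P.card ≤ R.nul X + R.nul (S0 ∪ Y) := by
  have cl : ∀ S : Finset α, (∀ a ∈ P, R.r (insert a S) = R.r S) → R.r (S ∪ P) = R.r S := by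
    intro S hS
    have : ∀ Q ⊆ P, R.r (S ∪ Q) = R.r S := by
      intro Q
      induction Q using Finset.induction_on with
      | empty => intro _; simp
      | insert a Q ha ih =>
        intro hQ
        rw [Finset.union_insert]
        rw [R.cl_mono (Finset.subset_union_left) a (hS a (hQ (Finset.mem_insert_self a Q)))]
        exact ih fun y hy => hQ (Finset.mem_insert_of_mem hy)
    exact this P (Finset.Subset.refl P)
  have e1 := cl S1 hc1
  have e2 := cl S2 hc2
  have e3 := R.submod (S1 ∪ P) (S2 ∪ P)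
  have e4 : R.r (S0 ∪ P) ≤ R.r ((S1 ∪ P) ∩ (S2 ∪ P)) := by
    refine R.mono _ _ ?_
    rw [← Finset.inter_union_distrib_right, h0]
  have e5 : R.r (S1 ∪ S2) ≤ R.r (S1 ∪ P ∪ (S2 ∪ P)) := by
    refine R.mono _ _ ?_
    exact Finset.union_subset_union Finset.subset_union_left Finset.subset_union_left
  have n1 := R.nul_add S1
  have n2 := R.nul_add S2
  have n3 := R.nul_add (S1 ∪ S2)
  have n4 := R.nul_add (S0 ∪ P)
  have c1 := Finset.card_union_add_card_inter S1 S2
  rw [h0] at c1
  have c2 : (S0 ∪ P).card = S0.card + P.card := Finset.card_union_of_disjoint hPd.symm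
  have m1 := R.nul_mono (Finset.union_subset h1 h2)
  have m2 := R.nul_mono (Finset.union_subset_union (Finset.Subset.refl S0) hP)
  omega

theorem faces_inter (d : ℕ) (V W : Finset ℕ) : faces d V ∩ faces d W = faces d (V ∩ W) := by
  ext σ
  simp only [Finset.mem_inter, mem_faces, Finset.subset_inter_iff]
  tauto

theorem beta_conv (R : CRank d) (m : ℕ) (q : ℝ) (h0 : 0 ≤ q) (h1 : q ≤ 1) :
    2 * beta R (m + 1) q ≤ beta R m q + beta R (m + 2) q := by
  set V := range (m + 2)
  set V1 := V.erase 0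
  set V2 := V.erase 1
  have h0V : (0:ℕ) ∈ V := by simp [V]
  have h1V : (1:ℕ) ∈ V := by simp [V]
  have c1 : V1.card = m + 1 := by rw [Finset.card_erase_of_mem h0V]; simp [V]
  have c2 : V2.card = m + 1 := by rw [Finset.card_erase_of_mem h1V]; simp [V]
  have c0 : (V1 ∩ V2).card = m := by
    have : V1 ∩ V2 = V1.erase 1 := by
      ext y; simp only [V1, V2, Finset.mem_inter, Finset.mem_erase]; tauto
    rw [this, Finset.card_erase_of_mem (by simp [V1, h1V]), c1]; rfl
  have s1 : V1 ⊆ V := Finset.erase_subset _ _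
  have s2 : V2 ⊆ V := Finset.erase_subset _ _
  have e1 := beta_restrict R (fc d (m + 2)) (m + 1) V1 c1 (faces_mono s1) q
  have e2 := beta_restrict R (fc d (m + 2)) (m + 1) V2 c2 (faces_mono s2) q
  have e0 := beta_restrict R (fc d (m + 2)) m (V1 ∩ V2) c0
    (faces_mono (Finset.inter_subset_left.trans s1)) q
  have key : Ex (fc d (m + 2)) q (fun X => (R.nul (X ∩ faces d V1) : ℝ) + R.nul (X ∩ faces d V2)) ≤
      Ex (fc d (m + 2)) q (fun X => (R.nul X : ℝ) + R.nul (X ∩ faces d (V1 ∩ V2))) := by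
    refine Ex_mono _ _ h0 h1 _ _ fun X _ => ?_
    have := nul_super R.toRankFn X (X ∩ faces d V1) (X ∩ faces d V2) (X ∩ faces d (V1 ∩ V2)) ∅ ∅
      Finset.inter_subset_left Finset.inter_subset_left
      (by rw [← faces_inter]; ext y; simp only [Finset.mem_inter]; tauto)
      (Finset.Subset.refl _) (by simp) (by simp) (by simp)
    simp only [Finset.card_empty, Finset.union_empty, add_zero] at this
    exact_mod_cast this
  rw [Ex_add, Ex_add, e1, e2, e0] at key
  have : Ex (fc d (m + 2)) q (fun X => (R.nul X : ℝ)) = beta R (m + 2) q := rfl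
  rw [this] at key
  linarith

theorem beta_lin (R : CRank d) (m : ℕ) (q : ℝ) (h0 : 0 ≤ q) (h1 : q ≤ 1) :
    (m.choose (d + 1) : ℝ) * q - (m.choose d : ℝ) ≤ beta R m q := by
  have h2 : Ex (fc d m) q (fun X => (X.card : ℝ) - (m.choose d : ℝ)) ≤ beta R m q := by
    unfold beta
    refine Ex_mono _ _ h0 h1 _ _ fun X hX => ?_
    have n1 := R.nul_add X
    have n2 := R.le_ridge (range m) X hX
    rw [Finset.card_range] at n2
    have n3 : X.card ≤ R.nul X + m.choose d := by omega
    have : (X.card : ℝ) ≤ R.nul X + m.choose d := by exact_mod_cast n3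
    linarith
  rw [Ex_sub, Ex_card, Ex_const, card_fc] at h2
  linarith

theorem nul_conc_up (R : CRank d) (m : ℕ) (V : Finset ℕ) (hV : V.card = m) (q l x : ℝ)
    (h0 : 0 ≤ q) (h1 : q ≤ 1) (hl0 : 0 ≤ l) (hl1 : l ≤ 1) :
    Ex (faces d V) q (fun X => ind (beta R m q + x ≤ R.nul X)) ≤
      Real.exp (-(l * x) + (m.choose (d + 1) : ℝ) * q * l ^ 2) := by
  have := conc_up (faces d V) q l x h0 h1 hl0 hl1 (fun X => (R.nul X : ℝ))
    (fun X _ a _ ha => R.nul_lip X a ha)
  rw [beta_eq R m V hV] at this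
  have hc : (faces d V).card = m.choose (d + 1) := by
    unfold faces; rw [Finset.card_powersetCard, hV]
  rwa [hc] at this

theorem nul_conc_dn (R : CRank d) (m : ℕ) (V : Finset ℕ) (hV : V.card = m) (q l x : ℝ)
    (h0 : 0 ≤ q) (h1 : q ≤ 1) (hl0 : 0 ≤ l) (hl1 : l ≤ 1) :
    Ex (faces d V) q (fun X => ind ((R.nul X : ℝ) ≤ beta R m q - x)) ≤
      Real.exp (-(l * x) + (m.choose (d + 1) : ℝ) * q * l ^ 2) := by
  have := conc_dn (faces d V) q l x h0 h1 hl0 hl1 (fun X => (R.nul X : ℝ))
    (fun X _ a _ ha => R.nul_lip X a ha)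
  rw [beta_eq R m V hV] at this
  have hc : (faces d V).card = m.choose (d + 1) := by
    unfold faces; rw [Finset.card_powersetCard, hV]
  rwa [hc] at this

/-- cyclic sets are cores -/
theorem cyc_core (R : CRank d) (V : Finset ℕ) (C : Finset (Finset ℕ)) (hC : C ⊆ faces d V)
    (hc : R.Cyc C) : Core C := by
  intro σ hσ x hx
  by_contra hno
  push_neg at hno
  have h1 := R.free (C.erase σ) (fun τ hτ => (mem_faces.1 (hC (Finset.mem_of_mem_erase hτ))).2) σ
    (mem_faces.1 (hC hσ)).2 x hx (fun τ hτ => hno τ (Finset.mem_of_mem_erase hτ)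
      (Finset.ne_of_mem_erase hτ))
  rw [Finset.insert_erase hσ, hc.2 σ hσ] at h1
  omega

/-- minimal dependent sets are cyclic -/
theorem exists_cyc {α : Type*} [DecidableEq α] (R : RankFn α) (X : Finset α) (h : 0 < R.nul X) :
    ∃ C ⊆ X, R.Cyc C := by
  classical
  have hne : (X.powerset.filter (fun C => 0 < R.nul C)).Nonempty :=
    ⟨X, by simp [h]⟩
  obtain ⟨C, hC, hmin⟩ := Finset.exists_min_image _ Finset.card hne
  rw [Finset.mem_filter, Finset.mem_powerset] at hC
  refine ⟨C, hC.1, ?_, ?_⟩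
  · rw [Finset.nonempty_iff_ne_empty]
    rintro rfl
    have := hC.2
    unfold RankFn.nul at this
    simp at this
  · intro e he
    have h1 : R.nul (C.erase e) = 0 := by
      by_contra h0
      have := hmin (C.erase e) (by
        rw [Finset.mem_filter, Finset.mem_powerset]
        exact ⟨(Finset.erase_subset e C).trans hC.1, Nat.pos_of_ne_zero h0⟩)
      rw [Finset.card_erase_of_mem he] at this
      have := Finset.card_pos.2 ⟨e, he⟩
      omega
    have h2 := R.nul_add (C.erase e)
    have h3 := R.nul_add C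
    have h4 := R.mono _ _ (Finset.erase_subset e C)
    rw [Finset.card_erase_of_mem he] at h2
    have := hC.2
    omega

end FC
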