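import Pool.Agent.H92.FC.FF5

set_option autoImplicit false
open Finset

/-! Auxiliary estimates for `ff`. -/

namespace FC

variable {d : ℕ}

theorem h63_ANe_of (hd : 2 ≤ d) (e0 : ℝ) (he0 : 0 < e0) (R : CRank d) :
    ∃ m0 s c, ANe d (beta R) (Tm R) m0 s c e0 := by
  obtain ⟨s, hs, m1, h1⟩ := h63e_an_big e0 he0 (giantProp d hd) R
  obtain ⟨c, hc, m2, h2⟩ := h63e_an_low e0 he0 (by omega) (giantProp d hd) R
  refine ⟨max m1 m2, s, c, hs, hc, beta_der R, Tm_nonneg R, Tm_le R, Tm_mono R, beta_zero R,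
    beta_mono R, beta_conv R, beta_r2 R, beta_lin R, ?_, ?_⟩
  · intro m hm q hq0 hq hβ
    exact h1 m ((le_max_left _ _).trans hm) q hq0 hq hβ
  · intro m hm
    exact h2 m ((le_max_right _ _).trans hm)

/-- the numerical inequalities between `θ`, `W`, `K` -/
theorem h63_num (d n M K : ℕ) (hd : 2 ≤ d) (η e1 δ κ C1 θ W : ℝ)
    (hκ : 0 < κ) (hδ : 0 < δ) (he1 : 0 < e1) (hC1 : 1 ≤ C1)
    (hM : 1 ≤ M) (hMn : M ≤ n) (hnM : n ≤ 2 * M) (hθ : θ = (M : ℝ) ^ ((d : ℝ) / 2 + e1))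
    (hK : (n : ℝ) ^ η / 2 ≤ K) (hW : (n : ℝ) ^ (d + 1) * (K * (M : ℝ) ^ (-(2 + κ))) ≤ C1 * W)
    (c1 : (2 : ℝ) ^ ((d : ℝ) / 2 + e1) ≤ (n : ℝ) ^ (e1 - δ))
    (c2 : 2 * C1 ≤ (n : ℝ) ^ (η - e1 - δ - κ))
    (c3 : 2 * C1 ^ 2 ≤ (n : ℝ) ^ (η - 2 * δ - 2 * κ)) :
    (n : ℝ) ^ ((d : ℝ) / 2 + δ) ≤ θ ∧ (n : ℝ) ^ δ * θ ≤ W ∧
      (n : ℝ) ^ ((d : ℝ) / 2 + δ) * Real.sqrt K ≤ W := by
  have hn : 1 ≤ n := hM.trans hMn
  have hnR : (0:ℝ) < n := by exact_mod_cast (by omega : 0 < n)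
  have hn1 : (1:ℝ) ≤ n := by exact_mod_cast hn
  have hMR : (0:ℝ) < M := by exact_mod_cast (by omega : 0 < M)
  have hMnR : (M:ℝ) ≤ n := by exact_mod_cast hMn
  have hnMR : (n:ℝ) ≤ 2 * M := by exact_mod_cast hnM
  have hd' : (2:ℝ) ≤ d := by exact_mod_cast hd
  have hKpos : (0:ℝ) < K := lt_of_lt_of_le (by positivity) hK
  -- (i)
  have i1 : (n : ℝ) ^ ((d : ℝ) / 2 + δ) ≤ θ := by
    have h1 : (n : ℝ) ^ ((d : ℝ) / 2 + e1) ≤ 2 ^ ((d : ℝ) / 2 + e1) * θ := by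
      rw [hθ, ← Real.mul_rpow (by norm_num) hMR.le]
      exact Real.rpow_le_rpow hnR.le hnMR (by positivity)
    have h2 : (n : ℝ) ^ ((d : ℝ) / 2 + e1) = (n : ℝ) ^ ((d : ℝ) / 2 + δ) * (n : ℝ) ^ (e1 - δ) := by
      rw [← Real.rpow_add hnR]; congr 1; ring
    have h3 : 2 ^ ((d : ℝ) / 2 + e1) * (n : ℝ) ^ ((d : ℝ) / 2 + δ) ≤
        2 ^ ((d : ℝ) / 2 + e1) * θ := by
      calc _ ≤ (n : ℝ) ^ (e1 - δ) * (n : ℝ) ^ ((d : ℝ) / 2 + δ) :=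
            mul_le_mul_of_nonneg_right c1 (by positivity)
        _ = (n : ℝ) ^ ((d : ℝ) / 2 + e1) := by rw [h2]; ring
        _ ≤ _ := h1
    exact le_of_mul_le_mul_left h3 (by positivity)
  -- the lower bound of `W`
  have w1 : (n : ℝ) ^ ((d : ℝ) / 2 - κ) * K ≤ C1 * W := by
    refine le_trans ?_ hW
    have h1 : (n : ℝ) ^ (-(2 + κ)) ≤ (M : ℝ) ^ (-(2 + κ)) :=
      Real.rpow_le_rpow_of_nonpos hMR hMnR (by linarith)
    have h2 : (n : ℝ) ^ ((d : ℝ) / 2 - κ) ≤ (n : ℝ) ^ (d + 1) * (n : ℝ) ^ (-(2 + κ)) := by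
      rw [← Real.rpow_natCast, ← Real.rpow_add hnR]
      apply Real.rpow_le_rpow_of_exponent_le hn1
      push_cast
      linarith
    calc (n : ℝ) ^ ((d : ℝ) / 2 - κ) * K ≤ ((n : ℝ) ^ (d + 1) * (n : ℝ) ^ (-(2 + κ))) * K :=
          mul_le_mul_of_nonneg_right h2 hKpos.le
      _ ≤ ((n : ℝ) ^ (d + 1) * (M : ℝ) ^ (-(2 + κ))) * K := by
          apply mul_le_mul_of_nonneg_right _ hKpos.le
          exact mul_le_mul_of_nonneg_left h1 (by positivity)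
      _ = _ := by ring
  have hC1pos : 0 < C1 := by linarith
  refine ⟨i1, ?_, ?_⟩
  · -- (ii)
    have h1 : θ ≤ (n : ℝ) ^ ((d : ℝ) / 2 + e1) := by
      rw [hθ]; exact Real.rpow_le_rpow hMR.le hMnR (by positivity)
    have h2 : C1 * ((n : ℝ) ^ δ * (n : ℝ) ^ ((d : ℝ) / 2 + e1)) ≤ C1 * W := by
      refine le_trans ?_ w1
      have h3 : (n : ℝ) ^ δ * (n : ℝ) ^ ((d : ℝ) / 2 + e1) * (n : ℝ) ^ (η - e1 - δ - κ) =
          (n : ℝ) ^ ((d : ℝ) / 2 - κ) * (n : ℝ) ^ η := by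
        rw [← Real.rpow_add hnR, ← Real.rpow_add hnR, ← Real.rpow_add hnR]; congr 1; ring
      have h4 : 2 * (C1 * ((n : ℝ) ^ δ * (n : ℝ) ^ ((d : ℝ) / 2 + e1))) ≤
          (n : ℝ) ^ ((d : ℝ) / 2 - κ) * (n : ℝ) ^ η := by
        rw [← h3]
        calc _ = (n : ℝ) ^ δ * (n : ℝ) ^ ((d : ℝ) / 2 + e1) * (2 * C1) := by ring
          _ ≤ _ := mul_le_mul_of_nonneg_left c2 (by positivity)
      have h5 : (n : ℝ) ^ ((d : ℝ) / 2 - κ) * ((n : ℝ) ^ η / 2) ≤ (n : ℝ) ^ ((d : ℝ) / 2 - κ) * K :=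
        mul_le_mul_of_nonneg_left hK (by positivity)
      linarith
    have h3 := le_of_mul_le_mul_left h2 hC1pos
    exact (mul_le_mul_of_nonneg_left h1 (by positivity)).trans h3
  · -- (iii)
    have hs0 : 0 ≤ Real.sqrt K := Real.sqrt_nonneg _
    have hss : Real.sqrt K * Real.sqrt K = K := Real.mul_self_sqrt hKpos.le
    have h1 : C1 * (n : ℝ) ^ (δ + κ) ≤ Real.sqrt K := by
      apply Real.le_sqrt_of_sq_le
      refine le_trans ?_ hK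
      have h2 : (C1 * (n : ℝ) ^ (δ + κ)) ^ 2 = C1 ^ 2 * (n : ℝ) ^ (2 * δ + 2 * κ) := by
        rw [mul_pow, ← Real.rpow_natCast ((n : ℝ) ^ (δ + κ)), ← Real.rpow_mul hnR.le]
        congr 2
        push_cast; ring
      rw [h2]
      have h3 : (n : ℝ) ^ (η - 2 * δ - 2 * κ) * (n : ℝ) ^ (2 * δ + 2 * κ) = (n : ℝ) ^ η := by
        rw [← Real.rpow_add hnR]; congr 1; ring
      have h4 : 2 * C1 ^ 2 * (n : ℝ) ^ (2 * δ + 2 * κ) ≤ (n : ℝ) ^ η := by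
        rw [← h3]
        exact mul_le_mul_of_nonneg_right c3 (by positivity)
      linarith
    have h2 : C1 * ((n : ℝ) ^ ((d : ℝ) / 2 + δ) * Real.sqrt K) ≤ C1 * W := by
      refine le_trans ?_ w1
      have h3 : (n : ℝ) ^ ((d : ℝ) / 2 + δ) = (n : ℝ) ^ ((d : ℝ) / 2 - κ) * (n : ℝ) ^ (δ + κ) := by
        rw [← Real.rpow_add hnR]; congr 1; ring
      calc C1 * ((n : ℝ) ^ ((d : ℝ) / 2 + δ) * Real.sqrt K) =
            (n : ℝ) ^ ((d : ℝ) / 2 - κ) * ((C1 * (n : ℝ) ^ (δ + κ)) * Real.sqrt K) := by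
              rw [h3]; ring
        _ ≤ (n : ℝ) ^ ((d : ℝ) / 2 - κ) * (Real.sqrt K * Real.sqrt K) := by
            apply mul_le_mul_of_nonneg_left _ (by positivity)
            exact mul_le_mul_of_nonneg_right h1 hs0
        _ = _ := by rw [hss]
    exact le_of_mul_le_mul_left h2 hC1pos

/-- the gap in the number of faces -/
theorem h63_gap (n : ℕ) (δ D c' W q1 q2 S : ℝ) (hD0 : 0 < D)
    (hc' : c' = 1 / (2 ^ (d + 1) * ((d + 1).factorial : ℝ))) (hc'0 : 0 < c')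
    (hnd : 2 * (d + 1) ≤ n) (hnR : (0:ℝ) < n) (hnR1 : (1:ℝ) ≤ n) (b1 : 0 < q1) (b2 : q1 < q2)
    (hq2le : (q1 + q2) / 2 ≤ D / n) (hW : W = (n : ℝ) ^ (d + 1) * (q2 - q1)) (hS : 1 ≤ S)
    (w3 : (n : ℝ) ^ ((d : ℝ) / 2 + δ) * S ≤ W)
    (c6 : (32 * D + 16) * 4 / c' ^ 2 ≤ (n : ℝ) ^ (2 * δ)) :
    32 * ((fc d n).card * ((q1 + q2) / 2)) + 16 ≤
      ((fc d n).card * ((q1 + q2) / 2 - q1)) ^ 2 := by
  rw [card_fc]
  set N : ℝ := (n.choose (d + 1) : ℝ) with hNdef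
  have hN0 : 0 ≤ N := by positivity
  have hNle : N ≤ (n : ℝ) ^ (d + 1) := by
    rw [hNdef]; exact_mod_cast Nat.choose_le_pow n (d + 1)
  have hNge : c' * (n : ℝ) ^ (d + 1) ≤ N := by
    have h4 := Nat.pow_le_choose (α := ℝ) (d + 1) n
    refine le_trans ?_ h4
    rw [hc', one_div, ← div_eq_inv_mul, div_le_div_iff₀ (by positivity) (by positivity)]
    have h5 : ((n : ℝ) / 2) ^ (d + 1) ≤ ((n + 1 - (d + 1) : ℕ) : ℝ) ^ (d + 1) := by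
      apply pow_le_pow_left₀ (by positivity)
      rw [Nat.cast_sub (by omega)]
      push_cast
      have : (2 * ((d : ℝ) + 1)) ≤ n := by exact_mod_cast hnd
      linarith
    rw [div_pow] at h5
    have h6 : (n : ℝ) ^ (d + 1) ≤ 2 ^ (d + 1) * ((n + 1 - (d + 1) : ℕ) : ℝ) ^ (d + 1) := by
      rw [div_le_iff₀ (by positivity)] at h5
      linarith
    calc (n : ℝ) ^ (d + 1) * ((d + 1).factorial : ℝ) ≤
          (2 ^ (d + 1) * ((n + 1 - (d + 1) : ℕ) : ℝ) ^ (d + 1)) * ((d + 1).factorial : ℝ) :=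
          mul_le_mul_of_nonneg_right h6 (by positivity)
      _ = _ := by ring
  have hw0 : 0 ≤ (n : ℝ) ^ ((d : ℝ) / 2 + δ) := by positivity
  have hWge : (n : ℝ) ^ ((d : ℝ) / 2 + δ) ≤ W := by
    refine le_trans ?_ w3
    nlinarith
  have e1' : (q1 + q2) / 2 - q1 = (q2 - q1) / 2 := by ring
  rw [e1']
  have hlow : c' * (n : ℝ) ^ ((d : ℝ) / 2 + δ) / 2 ≤ N * ((q2 - q1) / 2) := by
    have h1 : c' * W ≤ N * (q2 - q1) := by
      calc c' * W = (c' * (n : ℝ) ^ (d + 1)) * (q2 - q1) := by rw [hW]; ring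
        _ ≤ _ := mul_le_mul_of_nonneg_right hNge (by linarith)
    have h2 : c' * (n : ℝ) ^ ((d : ℝ) / 2 + δ) ≤ c' * W := mul_le_mul_of_nonneg_left hWge hc'0.le
    linarith
  have hsq : (c' * (n : ℝ) ^ ((d : ℝ) / 2 + δ) / 2) ^ 2 ≤ (N * ((q2 - q1) / 2)) ^ 2 :=
    pow_le_pow_left₀ (by positivity) hlow 2
  refine le_trans ?_ hsq
  have hpow : ((n : ℝ) ^ ((d : ℝ) / 2 + δ)) ^ 2 = (n : ℝ) ^ d * (n : ℝ) ^ (2 * δ) := by
    rw [← Real.rpow_natCast (n : ℝ) d, ← Real.rpow_add hnR, ← Real.rpow_natCast,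
      ← Real.rpow_mul hnR.le]
    congr 1
    push_cast; ring
  have e2' : (c' * (n : ℝ) ^ ((d : ℝ) / 2 + δ) / 2) ^ 2 =
      c' ^ 2 / 4 * ((n : ℝ) ^ d * (n : ℝ) ^ (2 * δ)) := by
    rw [div_pow, mul_pow, hpow]; ring
  rw [e2']
  have h7 : (32 * D + 16) ≤ c' ^ 2 / 4 * (n : ℝ) ^ (2 * δ) := by
    rw [div_le_iff₀ (by positivity)] at c6
    linarith
  have hnd1 : 1 ≤ (n : ℝ) ^ d := one_le_pow₀ hnR1
  have h8 : N * ((q1 + q2) / 2) ≤ D * (n : ℝ) ^ d := by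
    calc N * ((q1 + q2) / 2) ≤ (n : ℝ) ^ (d + 1) * (D / n) := by
          apply mul_le_mul hNle hq2le (by linarith) (by positivity)
      _ = D * (n : ℝ) ^ d := by rw [pow_succ]; field_simp
  calc 32 * (N * ((q1 + q2) / 2)) + 16 ≤ (32 * D + 16) * (n : ℝ) ^ d := by nlinarith
    _ ≤ (c' ^ 2 / 4 * (n : ℝ) ^ (2 * δ)) * (n : ℝ) ^ d :=
        mul_le_mul_of_nonneg_right h7 (by positivity)
    _ = _ := by ring

/-- the nullity is large at the threshold -/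
theorem h63_nul (R : CRank d) (n : ℕ) (δ ε D θ q1 : ℝ) (hD0 : 0 < D) (hε : 0 < ε)
    (hnR : (0:ℝ) < n) (b1 : 0 < q1) (hq11 : q1 ≤ 1) (hq1D : q1 ≤ D / n) (hθ0 : 0 < θ)
    (b4 : beta R n q1 = θ) (w1 : (n : ℝ) ^ ((d : ℝ) / 2 + δ) ≤ θ) (c4 : 2 ≤ (n : ℝ) ^ δ)
    (c5 : -Real.log ε * (16 * D) ≤ (n : ℝ) ^ (2 * δ)) :
    Ex (fc d n) q1 (fun X => ind ((R.nul X : ℝ) < (n : ℝ) ^ ((d : ℝ) / 2))) ≤ ε := by
  set A : ℝ := D * (n:ℝ) ^ d with hA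
  have hA0 : 0 < A := by positivity
  have hNq : (n.choose (d + 1) : ℝ) * q1 ≤ A := by
    have h1 : (n.choose (d + 1) : ℝ) ≤ (n : ℝ) ^ (d + 1) := by
      exact_mod_cast Nat.choose_le_pow n (d + 1)
    calc _ ≤ (n : ℝ) ^ (d + 1) * (D / n) := by
          apply mul_le_mul h1 hq1D b1.le (by positivity)
      _ = A := by rw [hA, pow_succ]; field_simp
  have hθA : θ ≤ A := by
    refine le_trans ?_ hNq
    rw [← b4]; unfold beta
    calc _ ≤ Ex (fc d n) q1 (fun X => (X.card : ℝ)) := by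
          refine Ex_mono _ _ b1.le hq11 _ _ fun X _ => ?_
          have := R.nul_add X
          exact_mod_cast (by omega : R.nul X ≤ X.card)
      _ = _ := by rw [Ex_card, card_fc]; ring
  set x : ℝ := θ / 2 with hx
  set l : ℝ := x / (2 * A) with hl
  have hl0 : 0 ≤ l := by positivity
  have hl1 : l ≤ 1 := by
    rw [hl, div_le_one (by positivity)]; linarith
  have h := nul_conc_dn R n (range n) (Finset.card_range n) q1 l x b1.le hq11 hl0 hl1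
  rw [b4] at h
  have e3 : θ - x = θ / 2 := by rw [hx]; ring
  rw [e3] at h
  have hθ2 : (n : ℝ) ^ ((d : ℝ) / 2) ≤ θ / 2 := by
    have h1 : (n : ℝ) ^ ((d : ℝ) / 2 + δ) = (n : ℝ) ^ ((d : ℝ) / 2) * (n : ℝ) ^ δ :=
      Real.rpow_add hnR _ _
    have h2 : (n : ℝ) ^ ((d : ℝ) / 2) * 2 ≤ (n : ℝ) ^ ((d : ℝ) / 2) * (n : ℝ) ^ δ :=
      mul_le_mul_of_nonneg_left c4 (by positivity)
    linarith
  have h1 : Ex (fc d n) q1 (fun X => ind ((R.nul X : ℝ) < (n : ℝ) ^ ((d : ℝ) / 2))) ≤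
      Ex (faces d (range n)) q1 (fun X => ind ((R.nul X : ℝ) ≤ θ / 2)) := by
    refine Ex_mono _ _ b1.le hq11 _ _ fun X _ => ind_mono fun h0 => ?_
    linarith
  refine (h1.trans h).trans ?_
  have h2 : (n.choose (d + 1) : ℝ) * q1 * l ^ 2 ≤ A * l ^ 2 :=
    mul_le_mul_of_nonneg_right hNq (sq_nonneg l)
  have h3 : A * l ^ 2 = x ^ 2 / (4 * A) := by rw [hl]; field_simp; ring
  have h4 : l * x = 2 * (x ^ 2 / (4 * A)) := by rw [hl]; field_simp; ring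
  have h5 : (n : ℝ) ^ (2 * δ) / (16 * D) ≤ x ^ 2 / (4 * A) := by
    rw [div_le_div_iff₀ (by positivity) (by positivity)]
    have h6 : ((n : ℝ) ^ ((d : ℝ) / 2 + δ)) ^ 2 ≤ θ ^ 2 := pow_le_pow_left₀ (by positivity) w1 2
    have hpow : ((n : ℝ) ^ ((d : ℝ) / 2 + δ)) ^ 2 = (n : ℝ) ^ d * (n : ℝ) ^ (2 * δ) := by
      rw [← Real.rpow_natCast (n : ℝ) d, ← Real.rpow_add hnR, ← Real.rpow_natCast,
        ← Real.rpow_mul hnR.le]
      congr 1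
      push_cast; ring
    rw [hpow] at h6
    have h7 : x ^ 2 = θ ^ 2 / 4 := by rw [hx]; ring
    rw [h7, hA]
    have h8 := mul_le_mul_of_nonneg_left h6 (show (0:ℝ) ≤ 4 * D by positivity)
    linarith
  have h6 : -Real.log ε ≤ (n : ℝ) ^ (2 * δ) / (16 * D) := by
    rw [le_div_iff₀ (by positivity)]; exact c5
  calc Real.exp (-(l * x) + (n.choose (d + 1) : ℝ) * q1 * l ^ 2) ≤
      Real.exp (Real.log ε) := Real.exp_le_exp.2 (by linarith)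
    _ = ε := Real.exp_log hε

end FC
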