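import Pool.Agent.H92.FC.Proc

/-!
# First emerging cycle: the linear matroid of the faces over a field
-/

namespace FC

open Finset

/-- incidence vector of a face -/
noncomputable def h23_bd (F : Type*) [Field F] (σ : Finset ℕ) : Finset ℕ →₀ F :=
  ∑ x ∈ σ, Finsupp.single (σ.erase x) ((sg (σ.erase x) x : ℤ) : F)

/-- span of the incidence vectors -/
noncomputable def h23_W (F : Type*) [Field F] (S : Finset (Finset ℕ)) :
    Submodule F (Finset ℕ →₀ F) :=
  Submodule.span F (h23_bd F '' (S : Set (Finset ℕ)))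

theorem h23_sg_ne (F : Type*) [Field F] (ρ : Finset ℕ) (x : ℕ) : ((sg ρ x : ℤ) : F) ≠ 0 := by
  unfold sg
  push_cast
  exact pow_ne_zero _ (by simp)

instance h23_fin (F : Type*) [Field F] (S : Finset (Finset ℕ)) :
    FiniteDimensional F (h23_W F S) :=
  FiniteDimensional.span_of_finite F (S.finite_toSet.image _)

theorem h23_W_union (F : Type*) [Field F] (S T : Finset (Finset ℕ)) :
    h23_W F (S ∪ T) = h23_W F S ⊔ h23_W F T := by
  unfold h23_W
  rw [coe_union, Set.image_union, Submodule.span_union]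

theorem h23_W_mono (F : Type*) [Field F] {S T : Finset (Finset ℕ)} (h : S ⊆ T) :
    h23_W F S ≤ h23_W F T :=
  Submodule.span_mono (Set.image_mono (by exact_mod_cast h))

theorem h23_mem (F : Type*) [Field F] {S : Finset (Finset ℕ)} {σ : Finset ℕ} (h : σ ∈ S) :
    h23_bd F σ ∈ h23_W F S :=
  Submodule.subset_span ⟨σ, by exact_mod_cast h, rfl⟩

theorem h23_W_insert (F : Type*) [Field F] (a : Finset ℕ) (S : Finset (Finset ℕ)) :
    h23_W F (insert a S) = Submodule.span F {h23_bd F a} ⊔ h23_W F S := by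
  unfold h23_W
  rw [coe_insert, Set.image_insert_eq, Submodule.span_insert]

theorem h23_W_le_card (F : Type*) [Field F] (S : Finset (Finset ℕ)) :
    Module.finrank F (h23_W F S) ≤ S.card := by
  classical
  have h : h23_W F S = Submodule.span F ((S.image (h23_bd F) : Finset _) : Set _) := by
    unfold h23_W
    rw [coe_image]
  rw [h]
  exact (finrank_span_finset_le_card _).trans card_image_le

theorem h23_bd_apply (F : Type*) [Field F] (σ ρ : Finset ℕ) :
    h23_bd F σ ρ = ∑ x ∈ σ, if σ.erase x = ρ then ((sg ρ x : ℤ) : F) else 0 := by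
  unfold h23_bd
  rw [Finsupp.finsetSum_apply]
  refine sum_congr rfl (fun x _ => ?_)
  rw [Finsupp.single_apply]
  split_ifs with h
  · rw [h]
  · rfl

theorem h23_sg_image {φ : ℕ → ℕ} (hφ : StrictMono φ) (ρ : Finset ℕ) (x : ℕ) :
    sg (ρ.image φ) (φ x) = sg ρ x := by
  unfold sg
  congr 1
  rw [filter_image, card_image_of_injective _ hφ.injective]
  congr 1
  ext y
  simp [hφ.lt_iff_lt]

theorem h23_erase_image {φ : ℕ → ℕ} (hφ : StrictMono φ) (σ : Finset ℕ) (x : ℕ) :
    (σ.image φ).erase (φ x) = (σ.erase x).image φ := by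
  rw [image_erase hφ.injective]

theorem h23_bd_image (F : Type*) [Field F] {φ : ℕ → ℕ} (hφ : StrictMono φ) (σ : Finset ℕ) :
    h23_bd F (σ.image φ) = Finsupp.lmapDomain F F (fun σ : Finset ℕ => σ.image φ) (h23_bd F σ) := by
  unfold h23_bd
  rw [map_sum, sum_image (fun x _ y _ h => hφ.injective h)]
  refine sum_congr rfl (fun x _ => ?_)
  rw [Finsupp.lmapDomain_apply, Finsupp.mapDomain_single, h23_erase_image hφ, h23_sg_image hφ]

theorem h23_map (F : Type*) [Field F] {φ : ℕ → ℕ} (hφ : StrictMono φ) (S : Finset (Finset ℕ)) :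
    Module.finrank F (h23_W F (S.image (fun σ => σ.image φ))) = Module.finrank F (h23_W F S) := by
  have hinj : Function.Injective (Finsupp.lmapDomain F F (fun σ : Finset ℕ => σ.image φ)) :=
    Finsupp.mapDomain_injective (image_injective hφ.injective)
  have h : h23_W F (S.image (fun σ => σ.image φ)) =
      (h23_W F S).map (Finsupp.lmapDomain F F (fun σ : Finset ℕ => σ.image φ)) := by
    unfold h23_W
    rw [Submodule.map_span, coe_image, Set.image_image, Set.image_image]
    congr 1
    refine Set.image_congr (fun σ _ => ?_)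
    exact h23_bd_image F hφ σ
  rw [h]
  exact (LinearEquiv.finrank_eq (Submodule.equivMapOfInjective _ hinj _)).symm

theorem h23_le_ridge (F : Type*) [Field F] (d : ℕ) (V : Finset ℕ) (S : Finset (Finset ℕ))
    (hS : S ⊆ faces d V) : Module.finrank F (h23_W F S) ≤ V.card.choose d := by
  classical
  set U : Finset (Finset ℕ →₀ F) := (V.powersetCard d).image (fun ρ => Finsupp.single ρ (1 : F))
  have h1 : h23_W F S ≤ Submodule.span F (U : Set (Finset ℕ →₀ F)) := by
    unfold h23_W
    rw [Submodule.span_le]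
    rintro _ ⟨σ, hσ, rfl⟩
    have hσ' := hS (by exact_mod_cast hσ)
    unfold faces at hσ'
    rw [mem_powersetCard] at hσ'
    unfold h23_bd
    refine Submodule.sum_mem _ (fun x hx => ?_)
    have h2 : Finsupp.single (σ.erase x) ((sg (σ.erase x) x : ℤ) : F) =
        ((sg (σ.erase x) x : ℤ) : F) • Finsupp.single (σ.erase x) (1 : F) := by
      rw [Finsupp.smul_single, smul_eq_mul, mul_one]
    rw [h2]
    refine Submodule.smul_mem _ _ (Submodule.subset_span ?_)
    simp only [U, coe_image]
    refine ⟨σ.erase x, ?_, rfl⟩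
    rw [mem_coe, mem_powersetCard]
    refine ⟨(erase_subset _ _).trans hσ'.1, ?_⟩
    rw [card_erase_of_mem hx, hσ'.2]
    rfl
  have : FiniteDimensional F (Submodule.span F (U : Set (Finset ℕ →₀ F))) :=
    FiniteDimensional.span_of_finite F U.finite_toSet
  calc Module.finrank F (h23_W F S) ≤ Module.finrank F (Submodule.span F (U : Set (Finset ℕ →₀ F))) :=
        Submodule.finrank_mono h1
    _ ≤ U.card := finrank_span_finset_le_card _
    _ ≤ (V.powersetCard d).card := card_image_le
    _ = V.card.choose d := card_powersetCard _ _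

theorem h23_erase_inj {σ : Finset ℕ} {x y : ℕ} (hx : x ∈ σ) (h : σ.erase y = σ.erase x) :
    y = x := by
  by_contra hne
  have : x ∈ σ.erase y := mem_erase.2 ⟨fun h' => hne h'.symm, hx⟩
  rw [h] at this
  exact notMem_erase x σ this

theorem h23_free (F : Type*) [Field F] (S : Finset (Finset ℕ)) (σ : Finset ℕ) (x : ℕ) (hx : x ∈ σ)
    (hS : ∀ τ ∈ S, ¬ σ.erase x ⊆ τ) :
    Module.finrank F (h23_W F (insert σ S)) = Module.finrank F (h23_W F S) + 1 := by
  have hker : ∀ v ∈ h23_W F S, v (σ.erase x) = 0 := by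
    intro v hv
    unfold h23_W at hv
    induction hv using Submodule.span_induction with
    | mem v hv =>
      obtain ⟨τ, hτ, rfl⟩ := hv
      rw [h23_bd_apply]
      refine sum_eq_zero (fun y _ => ?_)
      rw [if_neg]
      intro h
      refine hS τ (by exact_mod_cast hτ) ?_
      rw [← h]
      exact erase_subset _ _
    | zero => rfl
    | add u v _ _ hu hv => rw [Finsupp.add_apply, hu, hv, add_zero]
    | smul a v _ hv => rw [Finsupp.smul_apply, hv, smul_zero]
  have hval : h23_bd F σ (σ.erase x) ≠ 0 := by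
    rw [h23_bd_apply, sum_eq_single x]
    · rw [if_pos rfl]
      exact h23_sg_ne F _ _
    · intro y _ hyx
      rw [if_neg]
      intro h
      exact hyx (h23_erase_inj hx h)
    · intro h
      exact absurd hx h
  have hne : h23_bd F σ ≠ 0 := by
    intro h
    rw [h] at hval
    exact hval rfl
  rw [h23_W_insert]
  have h1 := Submodule.finrank_sup_add_finrank_inf_eq (Submodule.span F {h23_bd F σ}) (h23_W F S)
  have h2 : Submodule.span F {h23_bd F σ} ⊓ h23_W F S = ⊥ := by
    rw [eq_bot_iff]
    rintro v ⟨hv1, hv2⟩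
    obtain ⟨a, rfl⟩ := Submodule.mem_span_singleton.1 hv1
    have h3 := hker _ hv2
    rw [Finsupp.smul_apply, smul_eq_mul] at h3
    rcases mul_eq_zero.1 h3 with h4 | h4
    · rw [h4, zero_smul]
      exact Submodule.zero_mem _
    · exact absurd h4 hval
  rw [h2, finrank_bot, finrank_span_singleton hne] at h1
  omega

/-- coefficients of the boundary of the simplex on `W` -/
noncomputable def h23_z (F : Type*) [Field F] (W : Finset ℕ) (σ : Finset ℕ) : F :=
  ∑ w ∈ W, if σ = W.erase w then ((sg (W.erase w) w : ℤ) : F) else 0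

theorem h23_z_erase (F : Type*) [Field F] (W : Finset ℕ) (w : ℕ) (hw : w ∈ W) :
    h23_z F W (W.erase w) = ((sg (W.erase w) w : ℤ) : F) := by
  unfold h23_z
  rw [sum_eq_single w]
  · rw [if_pos rfl]
  · intro y hy hyw
    rw [if_neg]
    intro h
    exact hyw (h23_erase_inj hw h.symm)
  · intro h
    exact absurd hw h

theorem h23_z_ne (F : Type*) [Field F] (W : Finset ℕ) (σ : Finset ℕ) :
    h23_z F W σ ≠ 0 ↔ ∃ w ∈ W, σ = W.erase w := by
  constructor
  · intro h
    by_contra h2
    push Not at h2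
    apply h
    unfold h23_z
    refine sum_eq_zero (fun w hw => ?_)
    rw [if_neg (h2 w hw)]
  · rintro ⟨w, hw, rfl⟩
    rw [h23_z_erase F W w hw]
    exact h23_sg_ne F _ _

theorem h23_sg_pair (W : Finset ℕ) (w x : ℕ) (hw : w ∈ W) (hx : x ∈ W) (hne : x ≠ w) :
    sg (W.erase w) w * sg ((W.erase w).erase x) x =
      - (sg (W.erase x) x * sg ((W.erase x).erase w) w) := by
  have key : ∀ w x : ℕ, x ∈ W → x ≠ w → ((W.erase w).filter (fun y => y < w)).card =
      (((W.erase x).erase w).filter (fun y => y < w)).card + (if x < w then 1 else 0) := by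
    intro w x hx hne
    have h1 : W.erase w = insert x ((W.erase x).erase w) := by
      rw [erase_right_comm, insert_erase (mem_erase.2 ⟨hne, hx⟩)]
    conv_lhs => rw [h1]
    rw [filter_insert]
    split_ifs with h
    · rw [card_insert_of_notMem]
      intro h2
      rw [mem_filter, mem_erase, mem_erase] at h2
      exact h2.1.2.1 rfl
    · rfl
  unfold sg
  rw [key w x hx hne, key x w hw hne.symm, pow_add, pow_add, erase_right_comm]
  rcases lt_or_gt_of_ne hne with h | h
  · rw [if_pos h, if_neg (by omega)]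
    ring
  · rw [if_neg (by omega), if_pos h]
    ring

theorem h23_dd (F : Type*) [Field F] (W : Finset ℕ) :
    ∑ w ∈ W, ((sg (W.erase w) w : ℤ) : F) • h23_bd F (W.erase w) = 0 := by
  have h0 : ∀ w ∈ W, ((sg (W.erase w) w : ℤ) : F) • h23_bd F (W.erase w) =
      ∑ x ∈ W.erase w, Finsupp.single ((W.erase w).erase x)
        (((sg (W.erase w) w * sg ((W.erase w).erase x) x : ℤ)) : F) := by
    intro w _
    unfold h23_bd
    rw [smul_sum]
    refine sum_congr rfl (fun x _ => ?_)
    rw [Finsupp.smul_single, smul_eq_mul, Int.cast_mul]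
  rw [sum_congr rfl h0, sum_sigma']
  refine sum_involution (fun p _ => ⟨p.2, p.1⟩) ?_ ?_ ?_ ?_
  · rintro ⟨w, x⟩ hp
    rw [mem_sigma, mem_erase] at hp
    simp only at hp ⊢
    rw [erase_right_comm (a := x) (b := w), ← Finsupp.single_add,
      h23_sg_pair W w x hp.1 hp.2.2 hp.2.1, ← Int.cast_add]
    rw [show (-(sg (W.erase x) x * sg ((W.erase x).erase w) w) +
      sg (W.erase x) x * sg ((W.erase w).erase x) w : ℤ) = 0 by
        rw [erase_right_comm (a := x) (b := w)]; ring]
    simp
  · rintro ⟨w, x⟩ hp _ h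
    rw [mem_sigma, mem_erase] at hp
    simp only at hp
    injection h with h1 h2
    exact hp.2.1 h1
  · rintro ⟨w, x⟩ hp
    rw [mem_sigma, mem_erase] at hp ⊢
    simp only at hp ⊢
    exact ⟨hp.2.2, fun h => hp.2.1 h.symm, hp.1⟩
  · rintro ⟨w, x⟩ _
    rfl

theorem h23_mem_span_of_sum (F : Type*) [Field F] (S : Finset (Finset ℕ)) (z : Finset ℕ → F)
    (hz : ∑ σ ∈ S, z σ • h23_bd F σ = 0) (e : Finset ℕ) (he : e ∈ S) (hze : z e ≠ 0) :
    h23_bd F e ∈ h23_W F (S.erase e) := by
  rw [← add_sum_erase S _ he] at hz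
  have h1 : h23_bd F e = ∑ σ ∈ S.erase e, (-(z e)⁻¹ * z σ) • h23_bd F σ := by
    have h2 : z e • h23_bd F e = - ∑ σ ∈ S.erase e, z σ • h23_bd F σ := eq_neg_of_add_eq_zero_left hz
    calc h23_bd F e = (z e)⁻¹ • (z e • h23_bd F e) := by
          rw [smul_smul, inv_mul_cancel₀ hze, one_smul]
      _ = (z e)⁻¹ • (- ∑ σ ∈ S.erase e, z σ • h23_bd F σ) := by rw [h2]
      _ = ∑ σ ∈ S.erase e, (-(z e)⁻¹ * z σ) • h23_bd F σ := by
          rw [smul_neg, smul_sum, ← sum_neg_distrib]
          refine sum_congr rfl (fun σ _ => ?_)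
          rw [smul_smul, neg_mul, neg_smul]
  rw [h1]
  exact Submodule.sum_mem _ (fun σ hσ => Submodule.smul_mem _ _ (h23_mem F hσ))

theorem h23_W_erase (F : Type*) [Field F] (S : Finset (Finset ℕ)) (z : Finset ℕ → F)
    (hz : ∑ σ ∈ S, z σ • h23_bd F σ = 0) (e : Finset ℕ) (he : e ∈ S) (hze : z e ≠ 0) :
    h23_W F (S.erase e) = h23_W F S := by
  have h1 := h23_mem_span_of_sum F S z hz e he hze
  conv_rhs => rw [← insert_erase he]
  rw [h23_W_insert, eq_comm, sup_eq_right, Submodule.span_le, Set.singleton_subset_iff]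
  exact h1

theorem h23_erase_mem {d : ℕ} {W : Finset ℕ} (hW : W.card = d + 2) {w : ℕ} (hw : w ∈ W) :
    W.erase w ∈ W.powersetCard (d + 1) := by
  rw [mem_powersetCard]
  refine ⟨erase_subset _ _, ?_⟩
  rw [card_erase_of_mem hw, hW]
  rfl

theorem h23_mem_erase {d : ℕ} {W : Finset ℕ} (hW : W.card = d + 2) {σ : Finset ℕ}
    (hσ : σ ∈ W.powersetCard (d + 1)) : ∃ w ∈ W, σ = W.erase w := by
  rw [mem_powersetCard] at hσ
  have h1 : (W \ σ).card = 1 := by
    rw [card_sdiff_of_subset hσ.1, hW, hσ.2]
    omega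
  obtain ⟨w, hw⟩ := card_eq_one.1 h1
  have hw1 : w ∈ W \ σ := by rw [hw]; exact mem_singleton_self w
  refine ⟨w, (mem_sdiff.1 hw1).1, ?_⟩
  ext y
  rw [mem_erase]
  constructor
  · intro hy
    refine ⟨?_, hσ.1 hy⟩
    rintro rfl
    exact (mem_sdiff.1 hw1).2 hy
  · rintro ⟨hy1, hy2⟩
    by_contra hy3
    have : y ∈ W \ σ := mem_sdiff.2 ⟨hy2, hy3⟩
    rw [hw, mem_singleton] at this
    exact hy1 this

theorem h23_z_sum (F : Type*) [Field F] {d : ℕ} (W : Finset ℕ) (hW : W.card = d + 2)
    (X : Finset (Finset ℕ)) (hX : W.powersetCard (d + 1) ⊆ X) :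
    ∑ σ ∈ X, h23_z F W σ • h23_bd F σ = 0 := by
  rw [← h23_dd F W]
  unfold h23_z
  simp_rw [sum_smul]
  rw [sum_comm]
  refine sum_congr rfl (fun w hw => ?_)
  rw [sum_eq_single (W.erase w)]
  · rw [if_pos rfl]
  · intro σ _ h
    rw [if_neg h, zero_smul]
  · intro h
    exact absurd (hX (h23_erase_mem hW hw)) h

theorem h23_simp (F : Type*) [Field F] (d : ℕ) (W : Finset ℕ) (hW : W.card = d + 2) :
    Module.finrank F (h23_W F (W.powersetCard (d + 1))) ≤ d + 1 := by
  have hne : W.Nonempty := by
    rw [← card_pos, hW]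
    omega
  obtain ⟨w, hw⟩ := hne
  have h1 := h23_W_erase F (W.powersetCard (d + 1)) (h23_z F W) (h23_z_sum F W hW _ subset_rfl)
    (W.erase w) (h23_erase_mem hW hw) (by rw [h23_z_erase F W w hw]; exact h23_sg_ne F _ _)
  rw [← h1]
  refine (h23_W_le_card F _).trans ?_
  rw [card_erase_of_mem (h23_erase_mem hW hw), card_powersetCard, hW]
  have : (d + 2).choose (d + 1) = d + 2 := by
    simp
  omega

/-- the linear matroid of the incidence vectors -/
noncomputable def h23_R (F : Type*) [Field F] (d : ℕ) : CRank d where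
  r S := Module.finrank F (h23_W F S)
  empty := by
    have : h23_W F ∅ = ⊥ := by
      unfold h23_W
      simp
    rw [this, finrank_bot]
  mono S T h := Submodule.finrank_mono (h23_W_mono F h)
  ins a S := by
    rw [h23_W_insert]
    have h1 := Submodule.finrank_add_le_finrank_add_finrank (Submodule.span F {h23_bd F a})
      (h23_W F S)
    have h2 : Module.finrank F (Submodule.span F {h23_bd F a}) ≤ 1 := by
      have h3 := finrank_span_finset_le_card (R := F) ({h23_bd F a} : Finset (Finset ℕ →₀ F))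
      rw [coe_singleton, card_singleton] at h3
      exact h3
    omega
  submod S T := by
    rw [h23_W_union]
    have h1 := Submodule.finrank_sup_add_finrank_inf_eq (h23_W F S) (h23_W F T)
    have h2 : Module.finrank F (h23_W F (S ∩ T)) ≤
        Module.finrank F (h23_W F S ⊓ h23_W F T : Submodule F (Finset ℕ →₀ F)) :=
      Submodule.finrank_mono (le_inf (h23_W_mono F inter_subset_left)
        (h23_W_mono F inter_subset_right))
    omega
  map φ hφ S := h23_map F hφ S
  le_ridge V S hS := h23_le_ridge F d V S hS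
  free S _ σ _ x hx h := h23_free F S σ x hx h
  simp W hW := h23_simp F d W hW

theorem h23_cyc_iff (F : Type*) [Field F] (d n : ℕ) (X : Finset (Finset ℕ)) (hX : X ⊆ fc d n)
    (z : Finset ℕ → F) :
    IsCyc F d n X z ↔ (∀ σ, z σ ≠ 0 → σ ∈ X) ∧ ∑ σ ∈ X, z σ • h23_bd F σ = 0 := by
  have hcard : ∀ σ ∈ X, σ ⊆ range n ∧ σ.card = d + 1 := by
    intro σ hσ
    have := hX hσ
    unfold fc faces at this
    exact mem_powersetCard.1 this
  unfold IsCyc
  refine and_congr_right (fun hs => ?_)
  have hcoef : ∀ ρ : Finset ℕ, (∑ σ ∈ X, z σ • h23_bd F σ) ρ =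
      ∑ x ∈ range n \ ρ, ((sg ρ x : ℤ) : F) * z (insert x ρ) := by
    intro ρ
    rw [Finsupp.finsetSum_apply]
    have h1 : ∀ σ ∈ X, (z σ • h23_bd F σ) ρ =
        ∑ x ∈ range n \ ρ, if σ = insert x ρ then ((sg ρ x : ℤ) : F) * z (insert x ρ) else 0 := by
      intro σ hσ
      rw [Finsupp.smul_apply, h23_bd_apply, smul_eq_mul, mul_sum]
      have h2 : ∀ x : ℕ, (x ∈ σ ∧ σ.erase x = ρ) ↔ (x ∈ range n \ ρ ∧ σ = insert x ρ) := by
        intro x
        constructor
        · rintro ⟨hx, rfl⟩
          refine ⟨mem_sdiff.2 ⟨(hcard σ hσ).1 hx, notMem_erase _ _⟩, (insert_erase hx).symm⟩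
        · rintro ⟨hx, rfl⟩
          exact ⟨mem_insert_self _ _, erase_insert (mem_sdiff.1 hx).2⟩
      have h3 : ∀ x ∈ σ, z σ * (if σ.erase x = ρ then ((sg ρ x : ℤ) : F) else 0) =
          if (x ∈ σ ∧ σ.erase x = ρ) then ((sg ρ x : ℤ) : F) * z σ else 0 := by
        intro x hx
        by_cases h : σ.erase x = ρ
        · rw [if_pos h, if_pos ⟨hx, h⟩, mul_comm]
        · rw [if_neg h, if_neg (fun h' => h h'.2), mul_zero]
      have h4 : ∀ x ∈ range n \ ρ,
          (if σ = insert x ρ then ((sg ρ x : ℤ) : F) * z (insert x ρ) else 0) =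
          if (x ∈ σ ∧ σ.erase x = ρ) then ((sg ρ x : ℤ) : F) * z σ else 0 := by
        intro x hx
        by_cases h : σ = insert x ρ
        · rw [if_pos h, if_pos ((h2 x).2 ⟨hx, h⟩), ← h]
        · rw [if_neg h, if_neg (fun h' => h ((h2 x).1 h').2)]
      rw [sum_congr rfl h3, sum_congr rfl h4, ← sum_filter, ← sum_filter]
      refine sum_congr ?_ (fun _ _ => rfl)
      ext x
      rw [mem_filter, mem_filter]
      constructor
      · rintro ⟨_, h⟩
        exact ⟨((h2 x).1 h).1, h⟩
      · rintro ⟨_, h⟩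
        exact ⟨h.1, h⟩
    rw [sum_congr rfl h1, sum_comm]
    refine sum_congr rfl (fun x _ => ?_)
    by_cases hx : insert x ρ ∈ X
    · rw [sum_eq_single (insert x ρ)]
      · rw [if_pos rfl]
      · intro σ _ h
        rw [if_neg h]
      · intro h
        exact absurd hx h
    · have hz0 : z (insert x ρ) = 0 := by
        by_contra h
        exact hx (hs _ h)
      rw [hz0, mul_zero]
      exact sum_eq_zero (fun σ _ => by split_ifs <;> rfl)
  constructor
  · intro h
    ext ρ
    rw [hcoef, Finsupp.zero_apply]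
    by_cases hρ : ρ ∈ (range n).powersetCard d
    · exact h ρ hρ
    · refine sum_eq_zero (fun x hx => ?_)
      have hz0 : z (insert x ρ) = 0 := by
        by_contra h
        have h1 := hcard _ (hs _ h)
        rw [card_insert_of_notMem (mem_sdiff.1 hx).2] at h1
        refine hρ (mem_powersetCard.2 ⟨(subset_insert _ _).trans h1.1, by omega⟩)
      rw [hz0, mul_zero]
  · intro h ρ _
    rw [← hcoef, h]
    rfl

theorem h23_main (F : Type*) [Field F] (d : ℕ) :
    (∀ n, ∀ X ⊆ fc d n, (∃ z : Finset ℕ → F, z ≠ 0 ∧ IsCyc F d n X z) ↔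
      0 < (h23_R F d).nul X) ∧
    (∀ n, ∀ X ⊆ fc d n, ∀ z : Finset ℕ → F, ∀ σ0 ∈ X,
      (∀ z' : Finset ℕ → F, IsCyc F d n (X.erase σ0) z' → z' = 0) → z ≠ 0 → IsCyc F d n X z →
      ∃ S ⊆ X, (∀ σ, σ ∈ S ↔ z σ ≠ 0) ∧
        ((∃ W ⊆ range n, W.card = d + 2 ∧ S = W.powersetCard (d + 1)) ∨
          ((h23_R F d).Cyc S ∧ ¬ HasBd d S))) := by
  classical
  refine ⟨?_, ?_⟩
  · intro n X hX
    have hnul : (h23_R F d).nul X = X.card - Module.finrank F (h23_W F X) := rfl
    rw [hnul]
    have hle := h23_W_le_card F X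
    have hW : Set.range (fun σ : {x // x ∈ X} => h23_bd F σ.1) = h23_bd F '' (X : Set _) := by
      ext v
      simp
    constructor
    · rintro ⟨z, hz0, hz⟩
      rw [h23_cyc_iff F d n X hX] at hz
      obtain ⟨σ, hσ⟩ : ∃ σ, z σ ≠ 0 := by
        by_contra h
        push Not at h
        exact hz0 (funext h)
      have h1 := h23_W_erase F X z hz.2 σ (hz.1 σ hσ) hσ
      have h2 := h23_W_le_card F (X.erase σ)
      rw [h1, card_erase_of_mem (hz.1 σ hσ)] at h2
      have h3 : 0 < X.card := card_pos.2 ⟨σ, hz.1 σ hσ⟩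
      omega
    · intro h
      have hnli : ¬ LinearIndependent F (fun σ : {x // x ∈ X} => h23_bd F σ.1) := by
        intro hli
        rw [linearIndependent_iff_card_eq_finrank_span, hW] at hli
        have : (h23_bd F '' (X : Set _)).finrank F = Module.finrank F (h23_W F X) := rfl
        rw [this, Fintype.card_coe] at hli
        omega
      rw [Fintype.linearIndependent_iff] at hnli
      push Not at hnli
      obtain ⟨g, hg, ⟨σ, hσ⟩, hgσ⟩ := hnli
      refine ⟨fun τ => if h : τ ∈ X then g ⟨τ, h⟩ else 0, ?_, ?_⟩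
      · intro h0
        have := congrFun h0 σ
        rw [dif_pos hσ] at this
        exact hgσ this
      · rw [h23_cyc_iff F d n X hX]
        refine ⟨?_, ?_⟩
        · intro τ hτ
          by_contra h2
          rw [dif_neg h2] at hτ
          exact hτ rfl
        · rw [← hg, ← sum_coe_sort X]
          refine sum_congr rfl (fun τ _ => ?_)
          rw [dif_pos τ.2]
  · intro n X hX z σ0 hσ0 hfree hz0 hz
    have hz' := (h23_cyc_iff F d n X hX z).1 hz
    have hσ0z : z σ0 ≠ 0 := by
      intro h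
      apply hz0
      apply hfree
      rw [h23_cyc_iff F d n _ ((erase_subset _ _).trans hX)]
      refine ⟨?_, ?_⟩
      · intro σ hσ
        refine mem_erase.2 ⟨?_, hz'.1 σ hσ⟩
        rintro rfl
        exact hσ h
      · have h1 := hz'.2
        rw [← add_sum_erase X _ hσ0, h, zero_smul, zero_add] at h1
        exact h1
    refine ⟨X.filter (fun σ => z σ ≠ 0), filter_subset _ _, ?_, ?_⟩
    · intro σ
      rw [mem_filter]
      exact ⟨fun h => h.2, fun h => ⟨hz'.1 σ h, h⟩⟩
    · by_cases hbd : HasBd d (X.filter (fun σ => z σ ≠ 0))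
      · left
        obtain ⟨W, hW, hWS⟩ := hbd
        have hWX : W.powersetCard (d + 1) ⊆ X := hWS.trans (filter_subset _ _)
        have hWn : W ⊆ range n := by
          intro w hw
          have h1 : 1 < W.card := by omega
          obtain ⟨v, hv, hvw⟩ := exists_mem_ne h1 w
          have h2 := hX (hWX (h23_erase_mem hW hv))
          unfold fc faces at h2
          exact (mem_powersetCard.1 h2).1 (mem_erase.2 ⟨hvw.symm, hw⟩)
        refine ⟨W, hWn, hW, ?_⟩
        set c : F := h23_z F W σ0 / z σ0 with hc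
        have hsub : (fun σ => h23_z F W σ - c * z σ) = 0 := by
          apply hfree
          rw [h23_cyc_iff F d n _ ((erase_subset _ _).trans hX)]
          have hat : h23_z F W σ0 - c * z σ0 = 0 := by
            rw [hc, div_mul_cancel₀ _ hσ0z, sub_self]
          refine ⟨?_, ?_⟩
          · intro σ hσ
            refine mem_erase.2 ⟨?_, ?_⟩
            · rintro rfl
              exact hσ hat
            · by_contra hσX
              apply hσ
              have h1 : z σ = 0 := by
                by_contra h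
                exact hσX (hz'.1 σ h)
              have h2 : h23_z F W σ = 0 := by
                by_contra h
                obtain ⟨w, hw, rfl⟩ := (h23_z_ne F W σ).1 h
                exact hσX (hWX (h23_erase_mem hW hw))
              rw [h1, h2, mul_zero, sub_zero]
          · have h1 : ∑ σ ∈ X, (h23_z F W σ - c * z σ) • h23_bd F σ = 0 := by
              simp_rw [sub_smul, mul_smul]
              rw [sum_sub_distrib, ← smul_sum, hz'.2, h23_z_sum F W hW X hWX, smul_zero, sub_zero]
            rw [← add_sum_erase X _ hσ0, hat, zero_smul, zero_add] at h1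
            exact h1
        have heq : ∀ σ, h23_z F W σ = c * z σ := fun σ => sub_eq_zero.1 (congrFun hsub σ)
        ext σ
        rw [mem_filter]
        constructor
        · rintro ⟨_, hσ⟩
          have hWne : W.Nonempty := by
            rw [← card_pos, hW]
            omega
          obtain ⟨w, hw⟩ := hWne
          have hc0 : c ≠ 0 := by
            intro h
            have h1 := heq (W.erase w)
            rw [h, zero_mul, h23_z_erase F W w hw] at h1
            exact h23_sg_ne F _ _ h1
          have h2 : h23_z F W σ ≠ 0 := by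
            rw [heq]
            exact mul_ne_zero hc0 hσ
          obtain ⟨v, hv, rfl⟩ := (h23_z_ne F W σ).1 h2
          exact h23_erase_mem hW hv
        · intro hσ
          exact mem_filter.1 (hWS hσ)
      · right
        refine ⟨⟨?_, ?_⟩, hbd⟩
        · exact ⟨σ0, mem_filter.2 ⟨hσ0, hσ0z⟩⟩
        · intro e he
          have h1 : ∑ σ ∈ X.filter (fun σ => z σ ≠ 0), z σ • h23_bd F σ = 0 := by
            rw [sum_filter]
            refine Eq.trans (sum_congr rfl (fun σ _ => ?_)) hz'.2
            split_ifs with h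
            · rfl
            · push Not at h
              rw [h, zero_smul]
          have h2 := h23_W_erase F _ z h1 e he (mem_filter.1 he).2
          change Module.finrank F (h23_W F _) = Module.finrank F (h23_W F _)
          rw [h2]

/-! ### Adjacent transpositions -/

/-- sign of a ridge under the transposition of `a` and `a+1` -/
noncomputable def h23_eps (a : ℕ) (ρ : Finset ℕ) : ℤ := if a ∈ ρ ∧ a + 1 ∈ ρ then -1 else 1

/-- relabelling of the ridges with signs -/
noncomputable def h23_phi (F : Type*) [Field F] (a : ℕ) :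
    (Finset ℕ →₀ F) →ₗ[F] (Finset ℕ →₀ F) :=
  Finsupp.linearCombination F
    (fun ρ : Finset ℕ => Finsupp.single (ρ.image (Equiv.swap a (a + 1))) ((h23_eps a ρ : ℤ) : F))

theorem h23_phi_single (F : Type*) [Field F] (a : ℕ) (ρ : Finset ℕ) (c : F) :
    h23_phi F a (Finsupp.single ρ c) =
      Finsupp.single (ρ.image (Equiv.swap a (a + 1))) (c * ((h23_eps a ρ : ℤ) : F)) := by
  unfold h23_phi
  rw [Finsupp.linearCombination_single, Finsupp.smul_single, smul_eq_mul]

theorem h23_swap_image (a : ℕ) (ρ : Finset ℕ) :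
    (ρ.image (Equiv.swap a (a + 1))).image (Equiv.swap a (a + 1)) = ρ := by
  rw [image_image]
  conv_rhs => rw [← image_id (s := ρ)]
  refine image_congr (fun x _ => ?_)
  simp

theorem h23_mem_swap (a : ℕ) (ρ : Finset ℕ) (x : ℕ) :
    x ∈ ρ.image (Equiv.swap a (a + 1)) ↔ Equiv.swap a (a + 1) x ∈ ρ := by
  rw [mem_image]
  constructor
  · rintro ⟨y, hy, rfl⟩
    simpa using hy
  · intro h
    exact ⟨_, h, by simp⟩

theorem h23_eps_swap (a : ℕ) (ρ : Finset ℕ) :
    h23_eps a (ρ.image (Equiv.swap a (a + 1))) = h23_eps a ρ := by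
  unfold h23_eps
  refine if_congr ?_ rfl rfl
  rw [h23_mem_swap, h23_mem_swap, Equiv.swap_apply_left, Equiv.swap_apply_right]
  exact ⟨fun h => ⟨h.2, h.1⟩, fun h => ⟨h.2, h.1⟩⟩

theorem h23_eps_sq (a : ℕ) (ρ : Finset ℕ) : h23_eps a ρ * h23_eps a ρ = 1 := by
  unfold h23_eps
  split_ifs <;> rfl

theorem h23_phi_phi (F : Type*) [Field F] (a : ℕ) (v : Finset ℕ →₀ F) :
    h23_phi F a (h23_phi F a v) = v := by
  induction v using Finsupp.induction_linear with
  | zero => simp
  | add u v hu hv => rw [map_add, map_add, hu, hv]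
  | single ρ c =>
    rw [h23_phi_single, h23_phi_single, h23_swap_image, h23_eps_swap, mul_assoc, ← Int.cast_mul,
      h23_eps_sq, Int.cast_one, mul_one]

theorem h23_sg_swap (a : ℕ) (ρ : Finset ℕ) (x : ℕ) (hx : x ∉ ρ) :
    sg (ρ.image (Equiv.swap a (a + 1))) (Equiv.swap a (a + 1) x) =
      sg ρ x * (if (x = a ∧ a + 1 ∈ ρ) ∨ (x = a + 1 ∧ a ∈ ρ) then -1 else 1) := by
  have h0 : ((ρ.image (Equiv.swap a (a + 1))).filter
      (fun y => y < Equiv.swap a (a + 1) x)).card =
      (ρ.filter (fun y => Equiv.swap a (a + 1) y < Equiv.swap a (a + 1) x)).card := by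
    rw [filter_image, card_image_of_injective _ (Equiv.swap a (a + 1)).injective]
  unfold sg
  rw [h0]
  by_cases hxa : x = a
  · subst hxa
    rw [Equiv.swap_apply_left]
    have h1 : ρ.filter (fun y => Equiv.swap x (x + 1) y < x + 1) =
        ρ.filter (fun y => y < x ∨ y = x + 1) := by
      refine filter_congr (fun y hy => ?_)
      have hyx : y ≠ x := fun h => hx (h ▸ hy)
      rw [Equiv.swap_apply_def, if_neg hyx]
      split_ifs with h
      · constructor
        · intro _
          exact Or.inr h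
        · intro _
          omega
      · omega
    rw [h1, filter_or, card_union_of_disjoint]
    · by_cases h2 : x + 1 ∈ ρ
      · rw [if_pos (Or.inl ⟨rfl, h2⟩)]
        have h3 : (ρ.filter (fun y => y = x + 1)).card = 1 := by
          rw [filter_eq' ρ (x + 1), if_pos h2, card_singleton]
        rw [h3, pow_succ]
      · rw [if_neg]
        · have h3 : (ρ.filter (fun y => y = x + 1)).card = 0 := by
            rw [filter_eq' ρ (x + 1), if_neg h2, card_empty]
          rw [h3, add_zero, mul_one]
        · rintro (h4 | h4)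
          · exact h2 h4.2
          · omega
    · rw [disjoint_filter]
      intro y _ h3 h4
      omega
  · by_cases hxb : x = a + 1
    · subst hxb
      rw [Equiv.swap_apply_right]
      have h1 : ρ.filter (fun y => Equiv.swap a (a + 1) y < a) = ρ.filter (fun y => y < a) := by
        refine filter_congr (fun y hy => ?_)
        have hyx : y ≠ a + 1 := fun h => hx (h ▸ hy)
        rw [Equiv.swap_apply_def]
        split_ifs with h
        · omega
        · rfl
      have h2 : ρ.filter (fun y => y < a + 1) = ρ.filter (fun y => y < a ∨ y = a) := by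
        refine filter_congr (fun y _ => ?_)
        omega
      rw [h1, h2, filter_or, card_union_of_disjoint]
      · by_cases h2 : a ∈ ρ
        · rw [if_pos (Or.inr ⟨rfl, h2⟩)]
          have h3 : (ρ.filter (fun y => y = a)).card = 1 := by
            rw [filter_eq' ρ a, if_pos h2, card_singleton]
          rw [h3, pow_succ]
          ring
        · rw [if_neg]
          · have h3 : (ρ.filter (fun y => y = a)).card = 0 := by
              rw [filter_eq' ρ a, if_neg h2, card_empty]
            rw [h3, add_zero, mul_one]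
          · rintro (h4 | h4)
            · omega
            · exact h2 h4.2
      · rw [disjoint_filter]
        intro y _ h3 h4
        omega
    · rw [if_neg (by rintro (h | h); exacts [hxa h.1, hxb h.1]), mul_one,
        Equiv.swap_apply_of_ne_of_ne hxa hxb]
      congr 2
      refine filter_congr (fun y _ => ?_)
      rw [Equiv.swap_apply_def]
      split_ifs with h h'
      · omega
      · omega
      · rfl

theorem h23_bd_swap (F : Type*) [Field F] (a : ℕ) (σ : Finset ℕ) :
    h23_bd F (σ.image (Equiv.swap a (a + 1))) =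
      ((h23_eps a σ : ℤ) : F) • h23_phi F a (h23_bd F σ) := by
  unfold h23_bd
  rw [map_sum, smul_sum, sum_image (fun x _ y _ h => (Equiv.swap a (a + 1)).injective h)]
  refine sum_congr rfl (fun x hx => ?_)
  rw [h23_phi_single, Finsupp.smul_single, smul_eq_mul,
    ← image_erase (Equiv.swap a (a + 1)).injective, h23_sg_swap a _ x (notMem_erase x σ)]
  congr 1
  rw [← Int.cast_mul, ← Int.cast_mul]
  congr 1
  rw [mul_left_comm]
  congr 1
  unfold h23_eps
  simp only [mem_erase]
  by_cases h1 : a ∈ σ <;> by_cases h2 : a + 1 ∈ σ <;> by_cases h3 : x = a <;>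
    by_cases h4 : x = a + 1 <;> simp_all [eq_comm]

theorem h23_swap_rank (F : Type*) [Field F] (a : ℕ) (S : Finset (Finset ℕ)) :
    Module.finrank F (h23_W F (S.image (fun σ => σ.image (Equiv.swap a (a + 1))))) =
      Module.finrank F (h23_W F S) := by
  have hinj : Function.Injective (h23_phi F a) :=
    Function.LeftInverse.injective (h23_phi_phi F a)
  have hu : ∀ σ : Finset ℕ, ((h23_eps a σ : ℤ) : F) * ((h23_eps a σ : ℤ) : F) = 1 := by
    intro σ
    rw [← Int.cast_mul, h23_eps_sq, Int.cast_one]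
  have h : h23_W F (S.image (fun σ => σ.image (Equiv.swap a (a + 1)))) =
      (h23_W F S).map (h23_phi F a) := by
    unfold h23_W
    rw [Submodule.map_span, coe_image, Set.image_image, Set.image_image]
    apply le_antisymm
    · rw [Submodule.span_le]
      rintro _ ⟨σ, hσ, rfl⟩
      simp only
      rw [h23_bd_swap]
      exact Submodule.smul_mem _ _ (Submodule.subset_span ⟨σ, hσ, rfl⟩)
    · rw [Submodule.span_le]
      rintro _ ⟨σ, hσ, rfl⟩
      simp only
      have h1 : h23_phi F a (h23_bd F σ) =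
          ((h23_eps a σ : ℤ) : F) • h23_bd F (σ.image (Equiv.swap a (a + 1))) := by
        rw [h23_bd_swap, smul_smul, hu, one_smul]
      rw [h1]
      exact Submodule.smul_mem _ _ (Submodule.subset_span ⟨σ, hσ, rfl⟩)
  rw [h]
  exact (LinearEquiv.finrank_eq (Submodule.equivMapOfInjective _ hinj _)).symm

theorem exists_linrank (F : Type*) [Field F] (d : ℕ) : ∃ R : CRank d,
    (∀ n, ∀ X ⊆ fc d n, (∃ z : Finset ℕ → F, z ≠ 0 ∧ IsCyc F d n X z) ↔ 0 < R.nul X) ∧
    (∀ n, ∀ X ⊆ fc d n, ∀ z : Finset ℕ → F, ∀ σ0 ∈ X,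
      (∀ z' : Finset ℕ → F, IsCyc F d n (X.erase σ0) z' → z' = 0) → z ≠ 0 → IsCyc F d n X z →
      ∃ S ⊆ X, (∀ σ, σ ∈ S ↔ z σ ≠ 0) ∧
        ((∃ W ⊆ range n, W.card = d + 2 ∧ S = W.powersetCard (d + 1)) ∨
          (R.Cyc S ∧ ¬ HasBd d S))) :=
  ⟨h23_R F d, h23_main F d⟩

/-- As `exists_linrank`, with the invariance of the rank under adjacent transpositions. -/
theorem exists_linrank' (F : Type*) [Field F] (d : ℕ) : ∃ R : CRank d,
    (∀ n, ∀ X ⊆ fc d n, (∃ z : Finset ℕ → F, z ≠ 0 ∧ IsCyc F d n X z) ↔ 0 < R.nul X) ∧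
    (∀ n, ∀ X ⊆ fc d n, ∀ z : Finset ℕ → F, ∀ σ0 ∈ X,
      (∀ z' : Finset ℕ → F, IsCyc F d n (X.erase σ0) z' → z' = 0) → z ≠ 0 → IsCyc F d n X z →
      ∃ S ⊆ X, (∀ σ, σ ∈ S ↔ z σ ≠ 0) ∧
        ((∃ W ⊆ range n, W.card = d + 2 ∧ S = W.powersetCard (d + 1)) ∨
          (R.Cyc S ∧ ¬ HasBd d S))) ∧
    (∀ (a : ℕ) (S : Finset (Finset ℕ)),
      R.r (S.image (fun s => s.image (Equiv.swap a (a + 1)))) = R.r S) :=
  ⟨h23_R F d, (h23_main F d).1, (h23_main F d).2, fun a S => h23_swap_rank F a S⟩

end FC
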