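import Pool.Agent.H92.FC.Defs

/-!
# First emerging cycle: further definitions
-/

namespace FC

open Finset

/-- Minimal nonempty cores. -/
def MinCore (S : Finset (Finset ℕ)) : Prop :=
  S.Nonempty ∧ Core S ∧ ∀ T ⊆ S, T.Nonempty → Core T → T = S

/-- analytic properties of `beta`, `Tm` -/
structure AN (d : ℕ) (β T : ℕ → ℝ → ℝ) (m0 : ℕ) (s c : ℝ) : Prop where
  spos : 0 < s
  cpos : 0 < c
  der : ∀ m q, HasDerivAt (β m) (T m q) q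
  T_nonneg : ∀ m q, 0 ≤ q → q ≤ 1 → 0 ≤ T m q
  T_le : ∀ m q, 0 ≤ q → q ≤ 1 → T m q ≤ (m.choose (d + 1) : ℝ)
  T_mono : ∀ m q q', 0 ≤ q → q ≤ q' → q' ≤ 1 → T m q ≤ T m q'
  zero : ∀ m, β m 0 = 0
  mono : ∀ m q, 0 ≤ q → q ≤ 1 → β m q ≤ β (m + 1) q
  conv : ∀ m q, 0 ≤ q → q ≤ 1 → 2 * β (m + 1) q ≤ β m q + β (m + 2) q
  r2 : ∀ (m k j : ℕ) (q y : ℝ), 1 ≤ k → 2 ≤ j → j * k ≤ m → 0 ≤ q → 0 ≤ y → q + y ≤ 1 →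
    y * T (m - k) q * ((j : ℝ) * T (m - k) q / (m.choose (d + 1) : ℝ) - 1) ≤
      ((j : ℝ) - 1) * (β m q - 2 * β (m - k) q + β (m - 2 * k) (q + y))
  lin : ∀ m q, 0 ≤ q → q ≤ 1 → (m.choose (d + 1) : ℝ) * q - (m.choose d : ℝ) ≤ β m q
  big : ∀ m ≥ m0, ∀ q, 0 < q → q ≤ ((d : ℝ) + 3) / m →
    (m : ℝ) ^ ((d : ℝ) / 2 + 1 / 100) ≤ β m q → s * (m : ℝ) ^ (d + 1) ≤ T m q
  low : ∀ m ≥ m0, β m (c / m) ≤ (m : ℝ) ^ ((d : ℝ) / 2 + 1 / 100)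

end FC
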