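import Pool.Agent.H92.FC.BetaR2
import Pool.Agent.H92.FC.Defs2

/-!
# The analytic properties of `beta` and `Tm`
-/

namespace FC

open Finset

variable {d : ℕ}

/-- The giant property: small cores contain the boundary of a simplex. -/
def GiantProp (d : ℕ) (C : ℝ) : Prop :=
  ∃ ρ > (0:ℝ), ∃ K > (0:ℝ), ∃ n0 : ℕ, ∀ n ≥ n0, ∀ q : ℝ, 0 ≤ q → q ≤ C / n →
    Ex (fc d n) q (fun X => ind (∃ S ⊆ X, S.Nonempty ∧ Core S ∧ ¬ HasBd d S ∧
      (S.card : ℝ) ≤ ρ * (n : ℝ) ^ d)) ≤ K / n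

/-- Number of copies of the boundary of a simplex. -/
def nb (d m : ℕ) (X : Finset (Finset ℕ)) : ℕ :=
  (((range m).powersetCard (d + 2)).filter (fun W => W.powersetCard (d + 1) ⊆ X)).card

theorem nul_sdiff_le {α : Type*} [DecidableEq α] (R : RankFn α) (X P : Finset α) :
    R.nul X ≤ R.nul (X \ P) + P.card := by
  induction P using Finset.induction_on with
  | empty => simp
  | insert a P ha ih =>
    rw [Finset.card_insert_of_notMem ha]
    have e : X \ insert a P = (X \ P).erase a := by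
      ext y; simp only [Finset.mem_sdiff, Finset.mem_insert, Finset.mem_erase]; tauto
    rw [e]
    by_cases h : a ∈ X \ P
    · have h1 := (R.nul_lip ((X \ P).erase a) a (Finset.notMem_erase a _)).2
      rw [Finset.insert_erase h] at h1
      have h2 : R.nul (X \ P) ≤ R.nul ((X \ P).erase a) + 1 := by exact_mod_cast h1
      omega
    · rw [Finset.erase_eq_of_notMem h]; omega

theorem nul_le_nb (R : CRank d) (m : ℕ) (X : Finset (Finset ℕ)) (hX : X ⊆ fc d m)
    (h : ∀ C ⊆ X, R.Cyc C → HasBd d C) : R.nul X ≤ nb d m X := by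
  classical
  set 𝒲 := ((range m).powersetCard (d + 2)).filter (fun W => W.powersetCard (d + 1) ⊆ X) with h𝒲
  have hne : ∀ W ∈ 𝒲, ∃ τ, τ ∈ W.powersetCard (d + 1) := by
    intro W hW
    have h1 := (Finset.mem_powersetCard.1 (Finset.mem_filter.1 hW).1).2
    have h2 : (W.powersetCard (d + 1)).Nonempty := by
      rw [← Finset.card_pos, Finset.card_powersetCard, h1]
      exact Nat.choose_pos (by omega)
    exact h2
  choose! g hg using hne
  set P := 𝒲.image g with hP
  have h1 : R.nul (X \ P) = 0 := by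
    by_contra h0
    obtain ⟨C, hC, hcyc⟩ := exists_cyc R.toRankFn (X \ P) (Nat.pos_of_ne_zero h0)
    obtain ⟨W, hW, hWC⟩ := h C (hC.trans Finset.sdiff_subset) hcyc
    have hWX : W.powersetCard (d + 1) ⊆ X := hWC.trans (hC.trans Finset.sdiff_subset)
    have hWm : W ⊆ range m := by
      intro x hx
      -- a face of W containing x
      obtain ⟨τ, hτ1, hτ2, hτ3⟩ : ∃ τ : Finset ℕ, x ∈ τ ∧ τ ⊆ W ∧ τ.card = d + 1 := by
        obtain ⟨u, hu1, hu2, hu3⟩ := Finset.exists_subsuperset_card_eq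
          (s := {x}) (t := W) (n := d + 1) (Finset.singleton_subset_iff.2 hx) (by simp) (by omega)
        exact ⟨u, hu1 (Finset.mem_singleton_self x), hu2, hu3⟩
      have := hX (hWX (Finset.mem_powersetCard.2 ⟨hτ2, hτ3⟩))
      unfold fc at this
      exact (mem_faces.1 this).1 hτ1
    have hW𝒲 : W ∈ 𝒲 := by
      rw [h𝒲, Finset.mem_filter, Finset.mem_powersetCard]
      exact ⟨⟨hWm, hW⟩, hWX⟩
    have h2 := hC (hWC (hg W hW𝒲))
    rw [Finset.mem_sdiff] at h2
    exact h2.2 (Finset.mem_image_of_mem g hW𝒲)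
  have h2 := nul_sdiff_le R.toRankFn X P
  rw [h1] at h2
  have h3 : P.card ≤ 𝒲.card := Finset.card_image_le
  have h4 : nb d m X = 𝒲.card := rfl
  omega

theorem Ex_nb (m : ℕ) (q : ℝ) : Ex (fc d m) q (fun X => (nb d m X : ℝ)) =
    (m.choose (d + 2) : ℝ) * q ^ (d + 2) := by
  classical
  have e : ∀ X : Finset (Finset ℕ), (nb d m X : ℝ) =
      ∑ W ∈ (range m).powersetCard (d + 2), ind (W.powersetCard (d + 1) ⊆ X) := by
    intro X
    unfold nb
    rw [Finset.card_filter]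
    push_cast
    refine Finset.sum_congr rfl fun W _ => ?_
    by_cases h : W.powersetCard (d + 1) ⊆ X
    · rw [if_pos h, ind_pos h]
    · rw [if_neg h, ind_neg h]
  simp only [e]
  rw [Ex_sum]
  have e2 : ∀ W ∈ (range m).powersetCard (d + 2), Ex (fc d m) q
      (fun X => ind (W.powersetCard (d + 1) ⊆ X)) = q ^ (d + 2) := by
    intro W hW
    have h1 := Finset.mem_powersetCard.1 hW
    rw [Ex_subset]
    · rw [Finset.card_powersetCard, h1.2, Nat.choose_succ_self_right]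
    · exact faces_mono h1.1
  rw [Finset.sum_congr rfl e2, Finset.sum_const, Finset.card_powersetCard, Finset.card_range,
    nsmul_eq_mul]

theorem Ex_nb_le (m : ℕ) (hm : 1 ≤ m) (C q : ℝ) (hq0 : 0 ≤ q) (hC : 0 ≤ C) (hq : q ≤ C / m) :
    Ex (fc d m) q (fun X => (nb d m X : ℝ)) ≤ C ^ (d + 2) := by
  rw [Ex_nb]
  have hm0 : (0:ℝ) < m := by exact_mod_cast hm
  have h1 : (m.choose (d + 2) : ℝ) ≤ (m : ℝ) ^ (d + 2) := by
    exact_mod_cast Nat.choose_le_pow m (d + 2)
  have h2 : q ^ (d + 2) ≤ (C / m) ^ (d + 2) := pow_le_pow_left₀ hq0 hq _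
  calc _ ≤ (m : ℝ) ^ (d + 2) * (C / m) ^ (d + 2) := by
        apply mul_le_mul h1 h2 (by positivity) (by positivity)
    _ = C ^ (d + 2) := by
        rw [← mul_pow, mul_div_cancel₀ C hm0.ne']

open Classical in
/-- number of elements lying in the closure of the others -/
noncomputable def noncol (R : CRank d) (X : Finset (Finset ℕ)) : ℕ :=
  (X.filter (fun σ => R.r (insert σ (X.erase σ)) = R.r (X.erase σ))).card

theorem Ex_noncol (R : CRank d) (m : ℕ) (q : ℝ) :
    Ex (fc d m) q (fun X => (noncol R X : ℝ)) = q * Tm R m q := by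
  classical
  unfold Tm
  rw [Finset.mul_sum]
  have e : ∀ σ ∈ fc d m, q * Ex ((fc d m).erase σ) q (fun X => ind (R.r (insert σ X) = R.r X)) =
      Ex (fc d m) q (fun X => ind (σ ∈ X) *
        ind (R.r (insert σ (X.erase σ)) = R.r (X.erase σ))) := fun σ hσ =>
    Ex_erase_in (fc d m) σ hσ q _
  rw [Finset.sum_congr rfl e, ← Ex_sum]
  refine Ex_congr _ _ _ _ fun X hX => ?_
  unfold noncol
  rw [card_filter_ind (fc d m) X hX]

theorem card_le_noncol (R : CRank d) (X C : Finset (Finset ℕ)) (hC : C ⊆ X) (hc : R.Cyc C) :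
    C.card ≤ noncol R X := by
  classical
  unfold noncol
  refine Finset.card_le_card fun σ hσ => ?_
  rw [Finset.mem_filter]
  refine ⟨hC hσ, ?_⟩
  refine R.cl_mono (S := C.erase σ) (Finset.erase_subset_erase σ hC) σ ?_
  rw [Finset.insert_erase hσ]
  exact (hc.2 σ hσ).symm

/-- lower tail of the nullity -/
theorem nul_tail (R : CRank d) : ∃ m0 : ℕ, ∀ m ≥ m0, ∀ q : ℝ, 0 ≤ q → q ≤ ((d : ℝ) + 3) / m →
    (m : ℝ) ^ ((d : ℝ) / 2 + 1 / 100) ≤ beta R m q →
    Ex (fc d m) q (fun X => ind ((R.nul X : ℝ) ≤ beta R m q / 2)) ≤ 1 / 8 := by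
  -- m large
  have hlim : Filter.Tendsto (fun m : ℕ => (m : ℝ) ^ ((1 : ℝ) / 50)) Filter.atTop Filter.atTop :=
    (tendsto_rpow_atTop (by norm_num)).comp tendsto_natCast_atTop_atTop
  obtain ⟨m1, hm1⟩ := (hlim.eventually_ge_atTop (48 * ((d : ℝ) + 3))).exists_forall_of_atTop
  refine ⟨max m1 (d + 3), fun m hm q hq0 hq hβ => ?_⟩
  have hmm1 := hm1 m (le_of_max_le_left hm)
  have hmd : d + 3 ≤ m := le_of_max_le_right hm
  have hm0 : (0:ℝ) < m := by exact_mod_cast (by omega : 0 < m)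
  have hd3 : (0:ℝ) < (d:ℝ) + 3 := by positivity
  have hq1 : q ≤ 1 := by
    refine hq.trans ?_
    rw [div_le_one hm0]; exact_mod_cast hmd
  set β := beta R m q with hβdef
  set A : ℝ := ((d:ℝ) + 3) * (m:ℝ) ^ d with hA
  have hApos : 0 < A := by positivity
  have hNq : (m.choose (d + 1) : ℝ) * q ≤ A := by
    have h1 : (m.choose (d + 1) : ℝ) ≤ (m : ℝ) ^ (d + 1) := by
      exact_mod_cast Nat.choose_le_pow m (d + 1)
    calc _ ≤ (m : ℝ) ^ (d + 1) * (((d:ℝ) + 3) / m) := by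
          apply mul_le_mul h1 hq hq0 (by positivity)
      _ = A := by rw [hA, pow_succ]; field_simp
  have hβ0 : 0 < β := lt_of_lt_of_le (by positivity) hβ
  have hβA : β ≤ A := by
    refine le_trans ?_ hNq
    rw [hβdef]; unfold beta
    calc _ ≤ Ex (fc d m) q (fun X => (X.card : ℝ)) := by
          refine Ex_mono _ _ hq0 hq1 _ _ fun X _ => ?_
          have := R.nul_add X
          exact_mod_cast (by omega : R.nul X ≤ X.card)
      _ = _ := by rw [Ex_card, card_fc]; ring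
  set l : ℝ := β / (4 * A) with hl
  have hl0 : 0 ≤ l := by positivity
  have hl1 : l ≤ 1 := by
    rw [hl, div_le_one (by positivity)]; linarith
  have h := nul_conc_dn R m (range m) (Finset.card_range m) q l (β / 2) hq0 hq1 hl0 hl1
  have e1 : β - β / 2 = β / 2 := by ring
  rw [← hβdef, e1] at h
  refine (show Ex (fc d m) q (fun X => ind ((R.nul X : ℝ) ≤ β / 2)) ≤ _ from h).trans ?_
  have h2 : -(l * (β / 2)) + (m.choose (d + 1) : ℝ) * q * l ^ 2 ≤ -3 := by
    have h3 : (m.choose (d + 1) : ℝ) * q * l ^ 2 ≤ A * l ^ 2 :=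
      mul_le_mul_of_nonneg_right hNq (sq_nonneg l)
    have h4 : A * l ^ 2 = l * (β / 4) := by
      rw [hl]; field_simp
    have h5 : l * (β / 4) = β ^ 2 / (16 * A) := by rw [hl]; field_simp; ring
    have h6 : (m : ℝ) ^ ((1:ℝ)/50) * (m:ℝ) ^ d ≤ β ^ 2 := by
      have h7 : ((m : ℝ) ^ ((d : ℝ) / 2 + 1 / 100)) ^ 2 = (m : ℝ) ^ ((1:ℝ)/50) * (m:ℝ) ^ d := by
        rw [← Real.rpow_natCast (m:ℝ) d, ← Real.rpow_add hm0, ← Real.rpow_natCast, ← Real.rpow_mul hm0.le]
        congr 1; push_cast; ring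
      rw [← h7]
      exact pow_le_pow_left₀ (by positivity) hβ 2
    have h8 : 3 ≤ β ^ 2 / (16 * A) := by
      rw [le_div_iff₀ (by positivity)]
      refine le_trans ?_ h6
      rw [hA]
      have h9 : (0:ℝ) < (m:ℝ) ^ d := by positivity
      nlinarith
    nlinarith
  calc Real.exp _ ≤ Real.exp (-3) := Real.exp_le_exp.2 h2
    _ ≤ 1 / 8 := by
      have h3 : (8:ℝ) ≤ Real.exp 3 := by
        have := Real.exp_one_gt_d9
        have h4 : Real.exp 3 = Real.exp 1 ^ 3 := by rw [← Real.exp_nat_mul]; norm_num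
        rw [h4]
        have h5 : (2:ℝ) ^ 3 ≤ Real.exp 1 ^ 3 := pow_le_pow_left₀ (by norm_num) (by linarith) 3
        linarith
      rw [Real.exp_neg, one_div]
      exact inv_anti₀ (by norm_num) h3

end FC
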