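import Pool.Agent.H92.FC.ANof

/-!
# The structure `AN` for `beta`
-/

namespace FC

open Finset

variable {d : ℕ}

/-- the small-core event -/
def SmallCore (d n : ℕ) (ρ : ℝ) (X : Finset (Finset ℕ)) : Prop :=
  ∃ S ⊆ X, S.Nonempty ∧ Core S ∧ ¬ HasBd d S ∧ (S.card : ℝ) ≤ ρ * (n : ℝ) ^ d

theorem bad_card (R : CRank d) (n : ℕ) (ρ : ℝ) (X C : Finset (Finset ℕ)) (hX : X ⊆ fc d n)
    (hn : ¬ SmallCore d n ρ X) (hC : C ⊆ X) (hc : R.Cyc C) (hb : ¬ HasBd d C) :
    ρ * (n : ℝ) ^ d < C.card := by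
  by_contra h
  exact hn ⟨C, hC, hc.1, cyc_core R (range n) C (hC.trans hX) hc, hb, not_lt.1 h⟩

theorem an_big (hg : GiantProp d ((d : ℝ) + 3)) (R : CRank d) :
    ∃ s > (0:ℝ), ∃ m0 : ℕ, ∀ m ≥ m0, ∀ q : ℝ, 0 < q → q ≤ ((d : ℝ) + 3) / m →
      (m : ℝ) ^ ((d : ℝ) / 2 + 1 / 100) ≤ beta R m q → s * (m : ℝ) ^ (d + 1) ≤ Tm R m q := by
  obtain ⟨ρ, hρ, K, hK, n0, hgi⟩ := hg
  obtain ⟨m1, hm1⟩ := nul_tail R
  have hd3 : (0:ℝ) < (d:ℝ) + 3 := by positivity
  have hlim : Filter.Tendsto (fun m : ℕ => (m : ℝ)) Filter.atTop Filter.atTop :=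
    tendsto_natCast_atTop_atTop
  have hlim2 : Filter.Tendsto (fun m : ℕ => (m : ℝ) ^ ((d : ℝ) / 2 + 1 / 100)) Filter.atTop
      Filter.atTop := (tendsto_rpow_atTop (by positivity)).comp hlim
  obtain ⟨m2, hm2⟩ := (hlim.eventually_ge_atTop (8 * K)).exists_forall_of_atTop
  obtain ⟨m3, hm3⟩ := (hlim2.eventually_ge_atTop (16 * ((d:ℝ) + 3) ^ (d + 2))).exists_forall_of_atTop
  refine ⟨ρ / (2 * ((d:ℝ) + 3)), by positivity, max (max m1 n0) (max (max m2 m3) (d + 3)),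
    fun m hm q hq0 hq hβ => ?_⟩
  have b1 := hm1 m ((le_max_left _ _).trans ((le_max_left _ _).trans hm)) q hq0.le hq hβ
  have b2 := hgi m ((le_max_right _ _).trans ((le_max_left _ _).trans hm)) q hq0.le hq
  have b3 := hm2 m ((le_max_left _ _).trans ((le_max_left _ _).trans
    ((le_max_right _ _).trans hm)))
  have b4 := hm3 m ((le_max_right _ _).trans ((le_max_left _ _).trans
    ((le_max_right _ _).trans hm)))
  have hmd : d + 3 ≤ m := (le_max_right _ _).trans ((le_max_right _ _).trans hm)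
  have hm0 : (0:ℝ) < m := by exact_mod_cast (by omega : 0 < m)
  have hq1 : q ≤ 1 := by
    refine hq.trans ?_
    rw [div_le_one hm0]; exact_mod_cast hmd
  set β := beta R m q with hβdef
  have hβ0 : 0 < β := lt_of_lt_of_le (by positivity) hβ
  -- events
  have c1 : Ex (fc d m) q (fun X => ind ((R.nul X : ℝ) ≤ β / 2)) ≤ 1 / 8 := b1
  have c2 : Ex (fc d m) q (fun X => ind (SmallCore d m ρ X)) ≤ 1 / 8 := by
    refine (show _ ≤ K / m from b2).trans ?_
    rw [div_le_iff₀ hm0]; linarith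
  have c3 : Ex (fc d m) q (fun X => ind (β / 2 ≤ (nb d m X : ℝ))) ≤ 1 / 8 := by
    refine (Ex_markov (fc d m) q hq0.le hq1 (fun X => (nb d m X : ℝ)) (fun _ _ => by positivity)
      (β / 2) (by positivity)).trans ?_
    have h1 := Ex_nb_le (d := d) m (by omega) ((d:ℝ) + 3) q hq0.le hd3.le hq
    rw [div_le_iff₀ (by positivity)]
    have : 16 * ((d:ℝ) + 3) ^ (d + 2) ≤ β := b4.trans hβ
    linarith
  have key : Ex (fc d m) q (fun X => ρ * (m:ℝ) ^ d * (1 - (ind ((R.nul X : ℝ) ≤ β / 2) +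
      ind (SmallCore d m ρ X) + ind (β / 2 ≤ (nb d m X : ℝ))))) ≤
      Ex (fc d m) q (fun X => (noncol R X : ℝ)) := by
    refine Ex_mono _ _ hq0.le hq1 _ _ fun X hX => ?_
    have i1 := ind_nonneg ((R.nul X : ℝ) ≤ β / 2)
    have i2 := ind_nonneg (SmallCore d m ρ X)
    have i3 := ind_nonneg (β / 2 ≤ (nb d m X : ℝ))
    have hpos : 0 ≤ ρ * (m:ℝ) ^ d := by positivity
    by_cases e1 : (R.nul X : ℝ) ≤ β / 2
    · have : (0:ℝ) ≤ noncol R X := Nat.cast_nonneg _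
      rw [ind_pos e1]; nlinarith
    by_cases e2 : SmallCore d m ρ X
    · have : (0:ℝ) ≤ noncol R X := Nat.cast_nonneg _
      rw [ind_pos e2]; nlinarith
    by_cases e3 : β / 2 ≤ (nb d m X : ℝ)
    · have : (0:ℝ) ≤ noncol R X := Nat.cast_nonneg _
      rw [ind_pos e3]; nlinarith
    rw [ind_neg e1, ind_neg e2, ind_neg e3]
    have hlt : nb d m X < R.nul X := by
      have : (nb d m X : ℝ) < R.nul X := by linarith [not_le.1 e1, not_le.1 e3]
      exact_mod_cast this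
    have : ∃ C ⊆ X, R.Cyc C ∧ ¬ HasBd d C := by
      by_contra hno
      have := nul_le_nb R m X hX (fun C hC hc => by
        by_contra hb
        exact hno ⟨C, hC, hc, hb⟩)
      omega
    obtain ⟨C, hC, hc, hb⟩ := this
    have h1 := bad_card R m ρ X C hX e2 hC hc hb
    have h2 : (C.card : ℝ) ≤ noncol R X := by exact_mod_cast card_le_noncol R X C hC hc
    linarith
  rw [Ex_mul, Ex_sub, Ex_const, Ex_add, Ex_add, Ex_noncol] at key
  have hpos : 0 < ρ * (m:ℝ) ^ d := by positivity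
  have h1 : ρ * (m:ℝ) ^ d / 2 ≤ q * Tm R m q := by nlinarith
  have hT0 := Tm_nonneg R m q hq0.le hq1
  have h2 : q * Tm R m q ≤ (((d:ℝ) + 3) / m) * Tm R m q := mul_le_mul_of_nonneg_right hq hT0
  have h3 : ρ * (m:ℝ) ^ d / 2 ≤ (((d:ℝ) + 3) / m) * Tm R m q := h1.trans h2
  rw [div_mul_eq_mul_div, le_div_iff₀ hm0] at h3
  rw [div_mul_eq_mul_div, div_le_iff₀ (by positivity), pow_succ]
  nlinarith

theorem an_low (hd : 1 ≤ d) (hg : GiantProp d ((d : ℝ) + 3)) (R : CRank d) :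
    ∃ c > (0:ℝ), ∃ m0 : ℕ, ∀ m ≥ m0, beta R m (c / m) ≤ (m : ℝ) ^ ((d : ℝ) / 2 + 1 / 100) := by
  obtain ⟨ρ, hρ, K, hK, n0, hgi⟩ := hg
  obtain ⟨m1, hm1⟩ := nul_tail R
  set D : ℝ := (d:ℝ) + 3 with hD
  have hd3 : (0:ℝ) < D := by positivity
  -- thinning parameter
  set L : ℝ := (8 * D + 3) * 4 / ρ with hL
  have hLpos : 0 < L := by positivity
  set p : ℝ := Real.exp (-L) with hp
  have hp0 : 0 < p := Real.exp_pos _
  have hp1 : p ≤ 1 := by rw [hp]; exact Real.exp_le_one_iff.2 (by linarith)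
  have hlim : Filter.Tendsto (fun m : ℕ => (m : ℝ)) Filter.atTop Filter.atTop :=
    tendsto_natCast_atTop_atTop
  have hlim2 : Filter.Tendsto (fun m : ℕ => (m : ℝ) ^ ((d : ℝ) / 2 + 1 / 100)) Filter.atTop
      Filter.atTop := (tendsto_rpow_atTop (by positivity)).comp hlim
  obtain ⟨m2, hm2⟩ := (hlim.eventually_ge_atTop (8 * K)).exists_forall_of_atTop
  obtain ⟨m3, hm3⟩ := (hlim2.eventually_ge_atTop (16 * D ^ (d + 2))).exists_forall_of_atTop
  obtain ⟨m4, hm4⟩ := (hlim.eventually_ge_atTop (4 / ρ)).exists_forall_of_atTop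
  refine ⟨D * p, by positivity, max (max m1 n0) (max (max m2 m3) (max m4 (d + 3))), fun m hm => ?_⟩
  have bm1 : m1 ≤ m := (le_max_left _ _).trans ((le_max_left _ _).trans hm)
  have bn0 : n0 ≤ m := (le_max_right _ _).trans ((le_max_left _ _).trans hm)
  have b3 := hm2 m ((le_max_left _ _).trans ((le_max_left _ _).trans
    ((le_max_right _ _).trans hm)))
  have b4 := hm3 m ((le_max_right _ _).trans ((le_max_left _ _).trans
    ((le_max_right _ _).trans hm)))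
  have b5 := hm4 m ((le_max_left _ _).trans ((le_max_right _ _).trans
    ((le_max_right _ _).trans hm)))
  have hmd : d + 3 ≤ m := (le_max_right _ _).trans ((le_max_right _ _).trans
    ((le_max_right _ _).trans hm))
  have hm0 : (0:ℝ) < m := by exact_mod_cast (by omega : 0 < m)
  have hm1' : (1:ℝ) ≤ m := by exact_mod_cast (by omega : 1 ≤ m)
  by_contra hcon
  have hβ := (not_le.1 hcon).le
  set Q : ℝ := D / m with hQ
  have hQ0 : 0 ≤ Q := by positivity
  have hQ1 : Q ≤ 1 := by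
    rw [hQ, div_le_one hm0, hD]; exact_mod_cast hmd
  have hqQ : D * p / m = Q * p := by rw [hQ]; ring
  set q : ℝ := D * p / m with hq
  have hq0 : 0 ≤ q := by positivity
  have hqle : q ≤ Q := by rw [hqQ]; nlinarith
  have hq1 : q ≤ 1 := hqle.trans hQ1
  have c1 := hm1 m bm1 q hq0 hqle hβ
  set β := beta R m q with hβdef
  have hβ0 : 0 < β := lt_of_lt_of_le (by positivity) hβ
  set Bad : Finset (Finset ℕ) → Prop := fun C => R.Cyc C ∧ ¬ HasBd d C with hBad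
  -- no bad sets at q
  have c2 : Ex (fc d m) q (fun X => ind (∃ C ⊆ X, Bad C)) ≤ 3 / 8 := by
    rw [hqQ, ← Ex_thin]
    have hsm : Ex (fc d m) Q (fun X => ind (SmallCore d m ρ X)) ≤ 1 / 8 := by
      refine (show _ ≤ K / m from hgi m bn0 Q hQ0 le_rfl).trans ?_
      rw [div_le_iff₀ hm0]; linarith
    have hcard : Ex (fc d m) Q (fun X => ind (8 * D * (m:ℝ) ^ d ≤ (X.card : ℝ))) ≤ 1 / 8 := by
      refine (Ex_markov (fc d m) Q hQ0 hQ1 (fun X => (X.card : ℝ)) (fun _ _ => by positivity)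
        (8 * D * (m:ℝ) ^ d) (by positivity)).trans ?_
      rw [Ex_card, card_fc, div_le_iff₀ (by positivity)]
      have h1 : (m.choose (d + 1) : ℝ) ≤ (m : ℝ) ^ (d + 1) := by
        exact_mod_cast Nat.choose_le_pow m (d + 1)
      calc Q * (m.choose (d + 1) : ℝ) ≤ Q * (m : ℝ) ^ (d + 1) :=
            mul_le_mul_of_nonneg_left h1 hQ0
        _ = D * (m:ℝ) ^ d := by rw [hQ, pow_succ]; field_simp
        _ = _ := by ring
    have hpt : ∀ Y ⊆ fc d m, Ex Y p (fun X => ind (∃ C ⊆ X, Bad C)) ≤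
        ind (SmallCore d m ρ Y) + ind (8 * D * (m:ℝ) ^ d ≤ (Y.card : ℝ)) + 1 / 8 := by
      intro Y hY
      have hle1 : Ex Y p (fun X => ind (∃ C ⊆ X, Bad C)) ≤ 1 :=
        Ex_le_const Y p hp0.le hp1 _ 1 fun _ _ => ind_le_one _
      by_cases e1 : SmallCore d m ρ Y
      · rw [ind_pos e1]; linarith [ind_nonneg (8 * D * (m:ℝ) ^ d ≤ (Y.card : ℝ))]
      by_cases e2 : 8 * D * (m:ℝ) ^ d ≤ (Y.card : ℝ)
      · rw [ind_pos e2]; linarith [ind_nonneg (SmallCore d m ρ Y)]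
      rw [ind_neg e1, ind_neg e2]
      set g : ℕ := ⌊ρ * (m:ℝ) ^ d / 2⌋₊ with hg'
      have hg1 : (g : ℝ) ≤ ρ * (m:ℝ) ^ d / 2 := Nat.floor_le (by positivity)
      have hg2 : ρ * (m:ℝ) ^ d / 2 < g + 1 := Nat.lt_floor_add_one _
      have ht := thin R.toRankFn Y g Bad (fun C hC hb => by
        refine ⟨?_, hb.1.2⟩
        have h1 := bad_card R m ρ Y C hY e1 hC hb.1 hb.2
        have : ((2 * g : ℕ) : ℝ) ≤ (C.card : ℝ) := by push_cast; linarith
        exact_mod_cast this) p hp0.le hp1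
      refine ht.trans ?_
      have hn1 : (R.nul Y : ℝ) ≤ 8 * D * (m:ℝ) ^ d := by
        have h1 := R.nul_add Y
        have : (R.nul Y : ℝ) ≤ Y.card := by exact_mod_cast (by omega : R.nul Y ≤ Y.card)
        linarith [not_le.1 e2]
      have h2 : ((2:ℝ) ^ (R.nul Y)) ≤ Real.exp (R.nul Y) := by
        have h3 : (2:ℝ) ≤ Real.exp 1 := by linarith [Real.exp_one_gt_d9]
        calc (2:ℝ) ^ (R.nul Y) ≤ Real.exp 1 ^ (R.nul Y) := pow_le_pow_left₀ (by norm_num) h3 _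
          _ = Real.exp (R.nul Y) := by rw [← Real.exp_nat_mul, mul_one]
      have h3 : p ^ g = Real.exp (-(L * g)) := by
        rw [hp, ← Real.exp_nat_mul]; congr 1; ring
      rw [h3]
      have hmd1 : (m:ℝ) ≤ (m:ℝ) ^ d := by
        calc (m:ℝ) = (m:ℝ) ^ 1 := (pow_one _).symm
          _ ≤ (m:ℝ) ^ d := pow_le_pow_right₀ hm1' hd
      have h4 : 4 ≤ ρ * (m:ℝ) ^ d := by
        have h5 : 4 ≤ m * ρ := (div_le_iff₀ hρ).1 b5
        nlinarith
      have h5 : (8 * D + 3) * (m:ℝ) ^ d ≤ L * g := by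
        have h6 : ρ * (m:ℝ) ^ d / 4 ≤ g := by linarith
        calc (8 * D + 3) * (m:ℝ) ^ d = L * (ρ * (m:ℝ) ^ d / 4) := by rw [hL]; field_simp
          _ ≤ L * g := mul_le_mul_of_nonneg_left h6 hLpos.le
      calc (2:ℝ) ^ (R.nul Y) * Real.exp (-(L * g)) ≤ Real.exp (R.nul Y) * Real.exp (-(L * g)) :=
            mul_le_mul_of_nonneg_right h2 (Real.exp_pos _).le
        _ = Real.exp (R.nul Y - L * g) := by rw [← Real.exp_add]; congr 1
        _ ≤ Real.exp (-3) := by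
            apply Real.exp_le_exp.2
            nlinarith
        _ ≤ 1 / 8 := by
          have h3 : (8:ℝ) ≤ Real.exp 3 := by
            have := Real.exp_one_gt_d9
            have h4 : Real.exp 3 = Real.exp 1 ^ 3 := by rw [← Real.exp_nat_mul]; norm_num
            rw [h4]
            have h5 : (2:ℝ) ^ 3 ≤ Real.exp 1 ^ 3 := pow_le_pow_left₀ (by norm_num) (by linarith) 3
            linarith
          rw [Real.exp_neg, one_div]
          exact inv_anti₀ (by norm_num) h3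
        _ ≤ 0 + 0 + 1 / 8 := by norm_num
    have h1 := Ex_mono (fc d m) Q hQ0 hQ1 _ _ hpt
    rw [Ex_add, Ex_add, Ex_const] at h1
    linarith
  have c3 : Ex (fc d m) q (fun X => ind (β / 2 ≤ (nb d m X : ℝ))) ≤ 1 / 8 := by
    refine (Ex_markov (fc d m) q hq0 hq1 (fun X => (nb d m X : ℝ)) (fun _ _ => by positivity)
      (β / 2) (by positivity)).trans ?_
    have h1 := Ex_nb_le (d := d) m (by omega) D q hq0 hd3.le hqle
    rw [div_le_iff₀ (by positivity)]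
    have : 16 * D ^ (d + 2) ≤ β := b4.trans hβ
    linarith
  have key : Ex (fc d m) q (fun _ => 1) ≤ Ex (fc d m) q (fun X => ind ((R.nul X : ℝ) ≤ β / 2) +
      ind (∃ C ⊆ X, Bad C) + ind (β / 2 ≤ (nb d m X : ℝ))) := by
    refine Ex_mono _ _ hq0 hq1 _ _ fun X hX => ?_
    have i1 := ind_nonneg ((R.nul X : ℝ) ≤ β / 2)
    have i2 := ind_nonneg (∃ C ⊆ X, Bad C)
    have i3 := ind_nonneg (β / 2 ≤ (nb d m X : ℝ))
    by_cases e2 : ∃ C ⊆ X, Bad C
    · rw [ind_pos e2]; linarith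
    by_cases e3 : β / 2 ≤ (nb d m X : ℝ)
    · rw [ind_pos e3]; linarith
    have h1 := nul_le_nb R m X hX (fun C hC hc => by
      by_contra hb
      exact e2 ⟨C, hC, hc, hb⟩)
    have h2 : (R.nul X : ℝ) ≤ nb d m X := by exact_mod_cast h1
    rw [ind_pos (show (R.nul X : ℝ) ≤ β / 2 by linarith [not_le.1 e3])]
    linarith
  rw [Ex_const, Ex_add, Ex_add] at key
  have c1' : Ex (fc d m) q (fun X => ind ((R.nul X : ℝ) ≤ β / 2)) ≤ 1 / 8 := c1
  linarith

theorem AN_of (hd : 2 ≤ d) (hg : GiantProp d ((d : ℝ) + 3)) (R : CRank d) :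
    ∃ m0 s c, AN d (beta R) (Tm R) m0 s c := by
  obtain ⟨s, hs, m1, h1⟩ := an_big hg R
  obtain ⟨c, hc, m2, h2⟩ := an_low (by omega) hg R
  refine ⟨max m1 m2, s, c, hs, hc, beta_der R, Tm_nonneg R, Tm_le R, Tm_mono R, beta_zero R,
    beta_mono R, beta_conv R, beta_r2 R, beta_lin R, ?_, ?_⟩
  · intro m hm q hq0 hq hβ
    exact h1 m ((le_max_left _ _).trans hm) q hq0 hq hβ
  · intro m hm
    exact h2 m ((le_max_right _ _).trans hm)

end FC
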