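import Pool.Agent.H92.FC.AnPre

set_option autoImplicit false
open Finset Set

/-! `an_A`. -/

namespace FC

section
variable {d : ℕ} {β T : ℕ → ℝ → ℝ} {m0 : ℕ} {s c θ : ℝ} {m : ℕ}

/-- the constants for `R2` -/
structure h63_K (d : ℕ) (s c : ℝ) (j M1 : ℕ) (γ : ℝ) : Prop where
  hj : (2 : ℝ) ^ (d + 2) ≤ s * j
  hj2 : 2 ≤ j
  gpos : 0 < γ
  g1 : γ ≤ 1
  gs : γ ≤ s / (2 ^ (d + 1) * j)
  hM1 : (d : ℝ) + 3 ≤ c * M1
  hM2 : 2 ≤ M1

theorem h63_exK (d : ℕ) {s c : ℝ} (hs : 0 < s) (hc : 0 < c) : ∃ j M1 γ, h63_K d s c j M1 γ := by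
  obtain ⟨j, hj⟩ := exists_nat_ge ((2 : ℝ) ^ (d + 2) / s)
  obtain ⟨M1, hM1⟩ := exists_nat_ge (((d : ℝ) + 3) / c)
  refine ⟨j + 2, M1 + 2, min 1 (s / (2 ^ (d + 1) * ((j + 2 : ℕ) : ℝ))), ?_, by omega, ?_,
    min_le_left _ _, min_le_right _ _, ?_, by omega⟩
  · rw [div_le_iff₀ hs] at hj
    push_cast
    nlinarith
  · apply lt_min one_pos
    positivity
  · rw [div_le_iff₀ hc] at hM1
    push_cast
    nlinarith

theorem h63_K.R2 {j M1 : ℕ} {γ : ℝ} (K : h63_K d s c j M1 γ) (h : AN d β T m0 s c)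
    (k : ℕ) (hk : 1 ≤ k) (hjk : j * k ≤ m) (g : h63_G d β m0 c θ m)
    (g1 : h63_G d β m0 c θ (m - k)) (g2 : h63_G d β m0 c θ (m - 2 * k)) :
    γ * (h63_q β θ (m - 2 * k) - h63_q β θ (m - k)) ≤ h63_q β θ (m - k) - h63_q β θ m := by
  refine le_trans (mul_le_mul_of_nonneg_right K.gs ?_) (h63_R2 h j K.hj K.hj2 k hk hjk g g1 g2)
  exact sub_nonneg.2 (h.h63_anti θ (by omega))

theorem h63_macro {j M1 : ℕ} {γ : ℝ} (K : h63_K d s c j M1 γ) (h : AN d β T m0 s c)
    (k I0 : ℕ) (hk : 1 ≤ k) (hjk : M1 * (j * k) ≤ m) (hI : m ≤ I0 * k)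
    (hG : ∀ a, m ≤ 2 * M1 * a → a ≤ m → h63_G d β m0 c θ a) :
    γ ^ I0 / (I0 * m) ≤ h63_q β θ (m - k) - h63_q β θ m := by
  classical
  have hM2 := K.hM2
  have hj2 := K.hj2
  have hmpos : 0 < m := by
    have : 0 < M1 * (j * k) := by positivity
    omega
  have hex : ∃ i, M1 * (m - i * k) ≤ m := ⟨I0, by
    rw [Nat.sub_eq_zero_of_le hI]; omega⟩
  set I := Nat.find hex with hIdef
  have hI1 : M1 * (m - I * k) ≤ m := Nat.find_spec hex
  have hI2 : ∀ i < I, m < M1 * (m - i * k) := fun i hi => not_le.1 (Nat.find_min hex hi)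
  have hII0 : I ≤ I0 := Nat.find_min' hex (by rw [Nat.sub_eq_zero_of_le hI]; omega)
  have hIpos : 0 < I := by
    by_contra hc
    have h0 : I = 0 := by omega
    rw [h0] at hI1
    simp only [Nat.zero_mul, Nat.sub_zero] at hI1
    nlinarith
  -- the points stay large
  have hjkl : ∀ i < I, j * k ≤ m - i * k := by
    intro i hi
    have := hI2 i hi
    by_contra hc
    push Not at hc
    have : M1 * (m - i * k) ≤ M1 * (j * k) := Nat.mul_le_mul_left _ hc.le
    omega
  have hkj : 2 * k ≤ j * k := Nat.mul_le_mul_right k hj2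
  have hGi : ∀ i ≤ I, h63_G d β m0 c θ (m - i * k) := by
    intro i hi
    apply hG
    · rcases hi.lt_or_eq with h1 | h1
      · have h2 := hI2 i h1
        have e : 2 * M1 * (m - i * k) = 2 * (M1 * (m - i * k)) := by ring
        omega
      · obtain ⟨i', rfl⟩ : ∃ i', i = i' + 1 := ⟨i - 1, by omega⟩
        have h2 := hI2 i' (by omega)
        have h3 := hjkl i' (by omega)
        have e : m - (i' + 1) * k = (m - i' * k) - k := by
          rw [Nat.add_mul, one_mul, Nat.sub_sub]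
        rw [e, Nat.mul_sub]
        have h4 : 2 * M1 * k ≤ m := by
          calc 2 * M1 * k = M1 * (2 * k) := by ring
            _ ≤ M1 * (j * k) := Nat.mul_le_mul_left _ hkj
            _ ≤ m := hjk
        have h5 : 2 * m ≤ 2 * M1 * (m - i' * k) := by
          have : 2 * M1 * (m - i' * k) = 2 * (M1 * (m - i' * k)) := by ring
          omega
        omega
    · omega
  have hanti : ∀ {a b : ℕ}, a ≤ b → h63_q β θ b ≤ h63_q β θ a := fun hab => h.h63_anti θ hab
  set D := h63_q β θ (m - k) - h63_q β θ m with hD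
  have hDnn : 0 ≤ D := sub_nonneg.2 (hanti (by omega))
  have hγ := K.gpos
  -- claim A
  have hA : ∀ i, i < I → γ ^ i * (h63_q β θ (m - (i + 1) * k) - h63_q β θ (m - i * k)) ≤ D := by
    intro i
    induction i with
    | zero => intro _; simp [hD]
    | succ i ih =>
      intro hi
      have h1 := ih (by omega)
      have h2 := K.R2 (m := m - i * k) h k hk (hjkl i (by omega)) (hGi i (by omega))
        (by
          have e : m - i * k - k = m - (i + 1) * k := by rw [Nat.add_mul, one_mul, Nat.sub_sub]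
          rw [e]; exact hGi (i + 1) (by omega))
        (by
          have e : m - i * k - 2 * k = m - (i + 2) * k := by rw [Nat.add_mul, Nat.sub_sub]
          rw [e]; exact hGi (i + 2) (by omega))
      have e1 : m - i * k - k = m - (i + 1) * k := by rw [Nat.add_mul, one_mul, Nat.sub_sub]
      have e2 : m - i * k - 2 * k = m - (i + 1 + 1) * k := by
        rw [show i + 1 + 1 = i + 2 by ring, Nat.add_mul, Nat.sub_sub]
      rw [e1, e2] at h2
      calc γ ^ (i + 1) * (h63_q β θ (m - (i + 1 + 1) * k) - h63_q β θ (m - (i + 1) * k)) =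
            γ ^ i * (γ * (h63_q β θ (m - (i + 1 + 1) * k) - h63_q β θ (m - (i + 1) * k))) := by ring
        _ ≤ γ ^ i * (h63_q β θ (m - (i + 1) * k) - h63_q β θ (m - i * k)) :=
            mul_le_mul_of_nonneg_left h2 (by positivity)
        _ ≤ D := h1
  have hB : ∀ i, i ≤ I → γ ^ I0 * (h63_q β θ (m - i * k) - h63_q β θ m) ≤ i * D := by
    intro i
    induction i with
    | zero => intro _; simp
    | succ i ih =>
      intro hi
      have h1 := ih (by omega)
      have h2 := hA i (by omega)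
      have h3 : γ ^ I0 ≤ γ ^ i := pow_le_pow_of_le_one hγ.le K.g1 (by omega)
      have h4 : 0 ≤ h63_q β θ (m - (i + 1) * k) - h63_q β θ (m - i * k) := by
        apply sub_nonneg.2 (hanti _)
        have : i * k ≤ (i + 1) * k := Nat.mul_le_mul_right k (by omega)
        omega
      have h5 := mul_le_mul_of_nonneg_right h3 h4
      push_cast
      linarith
  have h1 := hB I le_rfl
  -- the total drop
  have hGI := hGi I le_rfl
  have h2 := hGI.qge h
  have h3 := (hG m (Nat.le_mul_of_pos_left _ (by omega)) le_rfl).qle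
  have hmR : (0 : ℝ) < m := by exact_mod_cast hmpos
  have h4 : (1 : ℝ) / m ≤ h63_q β θ (m - I * k) - h63_q β θ m := by
    have h5 : c * M1 / m ≤ c / ((m - I * k : ℕ) : ℝ) := by
      rw [div_le_div_iff₀ hmR hGI.mpos]
      have h6 : ((M1 * (m - I * k) : ℕ) : ℝ) ≤ m := by exact_mod_cast hI1
      push_cast only [Nat.cast_mul] at h6
      have := mul_le_mul_of_nonneg_left h6 h.cpos.le
      linarith
    have h7 : ((d : ℝ) + 3) / m ≤ c * M1 / m := div_le_div_of_nonneg_right K.hM1 hmR.le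
    have h8 : ((d : ℝ) + 3) / m = ((d : ℝ) + 2) / m + 1 / m := by ring
    linarith
  have hI0pos : (0 : ℝ) < I0 := by
    have : 0 < I0 := by omega
    exact_mod_cast this
  rw [div_le_iff₀ (by positivity)]
  have h9 : γ ^ I0 * (1 / m) ≤ I * D := (mul_le_mul_of_nonneg_left h4 (by positivity)).trans h1
  have h10 : (I : ℝ) * D ≤ I0 * D := mul_le_mul_of_nonneg_right (by exact_mod_cast hII0) hDnn
  have h11 : γ ^ I0 = (γ ^ I0 * (1 / m)) * m := by field_simp
  rw [h11]
  calc _ ≤ (I0 * D) * m := mul_le_mul_of_nonneg_right (h9.trans h10) hmR.le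
    _ = _ := by ring

end

theorem an_A (d : ℕ) (hd : 2 ≤ d) (β T : ℕ → ℝ → ℝ) (m0 : ℕ) (s c : ℝ) (h : AN d β T m0 s c) :
    ∃ κ ≥ (1:ℝ), ∃ c0 > (0:ℝ), ∃ η0 > (0:ℝ), ∃ M0 : ℕ, ∀ n ≥ M0, ∀ k : ℕ, 1 ≤ k → (k : ℝ) ≤ η0 * n →
      ∃ q1 q2 : ℝ, 0 < q1 ∧ q1 < q2 ∧ q2 ≤ ((d : ℝ) + 3) / n ∧
        β n q1 = (n : ℝ) ^ ((d : ℝ) / 2 + 1 / 20) ∧ β (n - k) q2 = (n : ℝ) ^ ((d : ℝ) / 2 + 1 / 20) ∧
        c0 * ((k : ℝ) / n) ^ κ / n ≤ q2 - q1 := by
  obtain ⟨j, M1, γ, K⟩ := h63_exK d h.spos h.cpos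
  have hj2 := K.hj2
  have hM2 := K.hM2
  have hγ := K.gpos
  have hγ1 := K.g1
  obtain ⟨M0, hM0⟩ := h63_range hd h (2 * M1) (by omega)
  -- the constants
  set L : ℕ := M1 * j * (d + 3) with hL
  have hLpos : 0 < L := by positivity
  have hLM : M1 * j ≤ L := by rw [hL]; exact Nat.le_mul_of_pos_right _ (by omega)
  have hL4 : 4 ≤ L := by
    have : 2 * 2 ≤ M1 * j := Nat.mul_le_mul hM2 hj2
    omega
  have hM4 : ∀ x y : ℕ, x ≤ 2 * y → x ≤ 2 * M1 * y := fun x y hxy =>
    hxy.trans (Nat.mul_le_mul_right y (by omega))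
  have hLd : d + 3 ≤ L := by
    rw [hL]
    exact Nat.le_mul_of_pos_left _ (by positivity)
  set κ : ℝ := Real.logb 2 (1 + 1 / γ) with hκ
  have h1γ : 1 ≤ 1 / γ := by rw [le_div_iff₀ hγ]; linarith
  have hκ2 : (2 : ℝ) ^ κ = 1 + 1 / γ := Real.rpow_logb (by norm_num) (by norm_num) (by linarith)
  have hκ1 : 1 ≤ κ := by
    rw [hκ, Real.le_logb_iff_rpow_le (by norm_num) (by linarith)]
    rw [Real.rpow_one]
    linarith
  refine ⟨κ, hκ1, γ ^ (2 * L) / ((2 * L : ℕ) : ℝ), by positivity, 1 / (L : ℝ), by positivity,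
    M0 + 1, fun n hn k hk hkn => ?_⟩
  set θ : ℝ := (n : ℝ) ^ ((d : ℝ) / 2 + 1 / 20) with hθ
  have hnpos : 0 < n := by omega
  have hnR : (0 : ℝ) < n := by exact_mod_cast hnpos
  have hLk : L * k ≤ n := by
    have h1 : (k : ℝ) * L ≤ n := by
      rw [div_mul_eq_mul_div, one_mul, le_div_iff₀ (by positivity)] at hkn
      exact hkn
    have h2 : ((k * L : ℕ) : ℝ) ≤ n := by push_cast; exact h1
    have h3 : k * L ≤ n := by exact_mod_cast h2
    linarith
  have hG : ∀ a, n ≤ 2 * M1 * a → a ≤ n → h63_G d β m0 c θ a := fun a h1 h2 =>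
    hM0 n (by omega) a h1 (by omega)
  -- the induction on `k`
  have main : ∀ t k : ℕ, n - k ≤ t → 1 ≤ k → L * k ≤ n →
      γ ^ (2 * L) / ((2 * L : ℕ) : ℝ) * ((k : ℝ) / n) ^ κ / n ≤ h63_q β θ (n - k) - h63_q β θ n := by
    intro t
    induction t with
    | zero =>
      intro k h1 h2 h3
      exfalso
      have h4 : 4 * k ≤ L * k := Nat.mul_le_mul_right k hL4
      omega
    | succ t ih =>
      intro k h1 h2 h3
      have hkR : (0 : ℝ) < k := by exact_mod_cast h2
      by_cases h4 : n ≤ 2 * L * k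
      · have h5 := h63_macro K h k (2 * L) h2 (by
          calc M1 * (j * k) = M1 * j * k := by ring
            _ ≤ L * k := Nat.mul_le_mul_right k hLM
            _ ≤ n := h3) h4 hG
        refine le_trans ?_ h5
        have h6 : ((k : ℝ) / n) ^ κ ≤ 1 := by
          apply Real.rpow_le_one (by positivity) _ (by linarith)
          rw [div_le_one hnR]
          have : k ≤ n := (Nat.le_mul_of_pos_left k hLpos).trans h3
          exact_mod_cast this
        rw [← div_div]
        apply div_le_div_of_nonneg_right _ hnR.le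
        have h7 : (0 : ℝ) ≤ γ ^ (2 * L) / ((2 * L : ℕ) : ℝ) := by positivity
        exact mul_le_of_le_one_right h7 h6
      · push Not at h4
        have h40 : 2 * L * k = L * (2 * k) := by ring
        have h41 : L * (2 * k) ≤ n := by omega
        have h5 := ih (2 * k) (by omega) (by omega) h41
        have h42 : 4 * (2 * k) ≤ L * (2 * k) := Nat.mul_le_mul_right _ hL4
        have h6 : 4 * (2 * k) ≤ n := h42.trans h41
        have h43 : j * k ≤ n := (Nat.mul_le_mul_right k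
          ((Nat.le_mul_of_pos_left j (by omega)).trans hLM)).trans h3
        have h7 := K.R2 (m := n) (θ := θ) h k h2 h43 (hG n (hM4 _ _ (by omega)) le_rfl)
          (hG (n - k) (hM4 _ _ (by omega)) (by omega))
          (hG (n - 2 * k) (hM4 _ _ (by omega)) (by omega))
        have h8 : γ * (h63_q β θ (n - 2 * k) - h63_q β θ n) ≤
            (1 + γ) * (h63_q β θ (n - k) - h63_q β θ n) := by linarith
        have h9 : h63_q β θ (n - 2 * k) - h63_q β θ n ≤
            (1 + 1 / γ) * (h63_q β θ (n - k) - h63_q β θ n) := by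
          have e : (1 + 1 / γ) * (h63_q β θ (n - k) - h63_q β θ n) =
              ((1 + γ) * (h63_q β θ (n - k) - h63_q β θ n)) / γ := by field_simp; ring
          rw [e, le_div_iff₀ hγ]
          linarith
        have h10 : (((2 * k : ℕ) : ℝ) / n) ^ κ = (1 + 1 / γ) * ((k : ℝ) / n) ^ κ := by
          rw [← hκ2, ← Real.mul_rpow (by norm_num) (by positivity)]
          congr 1
          push_cast
          ring
        rw [h10] at h5
        have h11 : (0 : ℝ) < 1 + 1 / γ := by linarith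
        have h12 : (1 + 1 / γ) * (γ ^ (2 * L) / ((2 * L : ℕ) : ℝ) * ((k : ℝ) / n) ^ κ / n) ≤
            (1 + 1 / γ) * (h63_q β θ (n - k) - h63_q β θ n) := by
          calc _ = γ ^ (2 * L) / ((2 * L : ℕ) : ℝ) * ((1 + 1 / γ) * ((k : ℝ) / n) ^ κ) / n := by ring
            _ ≤ _ := h5.trans h9
        exact le_of_mul_le_mul_left h12 h11
  have hm := main (n - k) k le_rfl hk hLk
  have hGn := hG n (hM4 _ _ (by omega)) le_rfl
  have h4k : 4 * k ≤ n := (Nat.mul_le_mul_right k hL4).trans hLk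
  have hGk := hG (n - k) (hM4 _ _ (by omega)) (by omega)
  have hkR : (0 : ℝ) < k := by exact_mod_cast hk
  refine ⟨h63_q β θ n, h63_q β θ (n - k), hGn.qpos h, ?_, ?_, hGn.val h, hGk.val h, hm⟩
  · have : 0 < γ ^ (2 * L) / ((2 * L : ℕ) : ℝ) * ((k : ℝ) / n) ^ κ / n := by positivity
    linarith
  · refine hGk.qle.trans ?_
    rw [div_le_div_iff₀ hGk.mpos hnR]
    have h1 : (((d + 3) * k : ℕ) : ℝ) ≤ n := by
      have : (d + 3) * k ≤ n := (Nat.mul_le_mul_right k hLd).trans hLk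
      exact_mod_cast this
    push_cast at h1
    rw [Nat.cast_sub (by omega)]
    nlinarith

end FC
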