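import Mathlib

namespace FC

open Finset

lemma h71_greedy (A B : Finset ℕ) (θ : ℝ) (hθ : 0 ≤ θ)
    (h : ∀ x ∈ A, ∃ k : ℕ, 1 ≤ k ∧ k ≤ x ∧
      θ * (k : ℝ) ≤ ((B.filter (fun y => x - k < y ∧ y ≤ x)).card : ℝ)) (N : ℕ) :
    θ * ((A.filter (fun y => y ≤ N)).card : ℝ) ≤ ((B.filter (fun y => y ≤ N)).card : ℝ) := by
  induction N using Nat.strong_induction_on with
  | _ N ih =>
    by_cases hN : N ∈ A
    · obtain ⟨k, hk1, hkx, hk⟩ := h N hN
      have h1 := ih (N - k) (by omega)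
      have hA : ((A.filter (fun y => y ≤ N)).card : ℝ) ≤
          ((A.filter (fun y => y ≤ N - k)).card : ℝ) + k := by
        have hsub : A.filter (fun y => y ≤ N) ⊆
            A.filter (fun y => y ≤ N - k) ∪ Ioc (N - k) N := by
          intro y hy
          simp only [mem_filter, mem_union, mem_Ioc] at hy ⊢
          rcases Nat.lt_or_ge (N - k) y with h' | h'
          · right; exact ⟨h', hy.2⟩
          · left; exact ⟨hy.1, h'⟩
        have hc := (card_le_card hsub).trans (card_union_le _ _)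
        rw [Nat.card_Ioc] at hc
        have : N - (N - k) = k := by omega
        rw [this] at hc
        exact_mod_cast hc
      have hB : ((B.filter (fun y => y ≤ N - k)).card : ℝ) +
          ((B.filter (fun y => N - k < y ∧ y ≤ N)).card : ℝ) ≤
          ((B.filter (fun y => y ≤ N)).card : ℝ) := by
        have hdisj : Disjoint (B.filter (fun y => y ≤ N - k))
            (B.filter (fun y => N - k < y ∧ y ≤ N)) := by
          rw [disjoint_filter]; intro y _ h1 h2; omega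
        have hsub : (B.filter (fun y => y ≤ N - k)) ∪
            (B.filter (fun y => N - k < y ∧ y ≤ N)) ⊆ B.filter (fun y => y ≤ N) := by
          intro y hy
          simp only [mem_filter, mem_union] at hy ⊢
          rcases hy with hy | hy
          · exact ⟨hy.1, by omega⟩
          · exact ⟨hy.1, hy.2.2⟩
        have := card_le_card hsub
        rw [card_union_of_disjoint hdisj] at this
        exact_mod_cast this
      nlinarith
    · rcases Nat.eq_zero_or_pos N with h0 | hpos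
      · subst h0
        have : A.filter (fun y => y ≤ 0) = ∅ := by
          apply filter_eq_empty_iff.2
          intro y hy hy0
          have : y = 0 := by omega
          exact hN (this ▸ hy)
        rw [this]; simp
      · have h1 := ih (N - 1) (by omega)
        have hA : A.filter (fun y => y ≤ N) = A.filter (fun y => y ≤ N - 1) := by
          apply filter_congr
          intro y hy
          constructor
          · intro h
            have : y ≠ N := fun e => hN (e ▸ hy)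
            omega
          · intro h; omega
        rw [hA]
        refine h1.trans ?_
        have : B.filter (fun y => y ≤ N - 1) ⊆ B.filter (fun y => y ≤ N) := by
          intro y hy
          simp only [mem_filter] at hy ⊢
          exact ⟨hy.1, by omega⟩
        exact_mod_cast card_le_card this

lemma h71_double (J : ℕ → ℝ) (γ q : ℝ) (hγ : 0 < γ) (hq : q = γ / (1 + γ)) (x k : ℕ)
    (hx : 2 * k ≤ x)
    (h : γ * ∑ i ∈ Ioc (x - 2 * k) (x - k), J i ≤ ∑ i ∈ Ioc (x - k) x, J i) :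
    q * ∑ i ∈ Ioc (x - 2 * k) x, J i ≤ ∑ i ∈ Ioc (x - k) x, J i := by
  have hs : ∑ i ∈ Ioc (x - 2 * k) (x - k), J i + ∑ i ∈ Ioc (x - k) x, J i =
      ∑ i ∈ Ioc (x - 2 * k) x, J i :=
    sum_Ioc_consecutive _ (by omega) (by omega)
  rw [← hs, hq, div_mul_eq_mul_div, div_le_iff₀ (by linarith)]
  nlinarith

lemma h71_lower (γ c η q : ℝ) (hγ : 0 < γ) (hq : q = γ / (1 + γ)) (hη1 : η ≤ 1 / 8)
    (M : ℕ) (J : ℕ → ℝ) (hJ : ∀ i, 0 ≤ J i)
    (hR2 : ∀ m k : ℕ, 1 ≤ k → (k : ℝ) ≤ η * M → M / 2 + 2 * k ≤ m → m ≤ 2 * M →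
        γ * ∑ i ∈ Ioc (m - 2 * k) (m - k), J i ≤ ∑ i ∈ Ioc (m - k) m, J i)
    (hR3 : ∀ m : ℕ, M / 2 + ⌊η * M⌋₊ ≤ m → m ≤ 2 * M →
        c / M ≤ ∑ i ∈ Ioc (m - ⌊η * M⌋₊) m, J i)
    (x : ℕ) (hx : 15 * M ≤ 16 * x) (hx2 : x ≤ 2 * M) (I : ℕ)
    (hI : ((2 ^ I : ℕ) : ℝ) ≤ η * M) (hI2 : ⌊η * M⌋₊ < 2 ^ (I + 1)) (n : ℕ) (hn : n ≤ I + 1) :
    q ^ n * (c / M) ≤ ∑ i ∈ Ioc (x - 2 ^ (I + 1 - n)) x, J i := by
  have hq0 : 0 < q := by rw [hq]; positivity
  have hpow : ∀ i ≤ I, 8 * 2 ^ i ≤ M := by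
    intro i hi
    have h1 : (2 ^ i : ℕ) ≤ 2 ^ I := Nat.pow_le_pow_right (by norm_num) hi
    have h2 : ((2 ^ i : ℕ) : ℝ) ≤ η * M := le_trans (by exact_mod_cast h1) hI
    have h3 : (8 : ℝ) * ((2 ^ i : ℕ) : ℝ) ≤ M := by
      have : η * M ≤ 1 / 8 * M := mul_le_mul_of_nonneg_right hη1 (by positivity)
      linarith
    exact_mod_cast h3
  induction n with
  | zero =>
    simp only [pow_zero, one_mul, Nat.sub_zero]
    have h8 := hpow I le_rfl
    have hfl : ⌊η * M⌋₊ ≤ M / 8 := by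
      have : η * M ≤ 1 / 8 * M := mul_le_mul_of_nonneg_right hη1 (by positivity)
      have h2 : ⌊η * M⌋₊ ≤ ⌊(M : ℝ) / ((8 : ℕ) : ℝ)⌋₊ := Nat.floor_le_floor (by push_cast; linarith)
      rwa [Nat.floor_div_eq_div] at h2
    refine (hR3 x (by omega) hx2).trans ?_
    apply sum_le_sum_of_subset_of_nonneg
    · intro y hy
      rw [mem_Ioc] at hy ⊢
      exact ⟨by omega, hy.2⟩
    · intro i _ _; exact hJ i
  | succ n ih =>
    have ih := ih (by omega)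
    have hi : I - n ≤ I := by omega
    have h8 := hpow (I - n) hi
    have e1 : I + 1 - n = (I - n) + 1 := by omega
    have e2 : I + 1 - (n + 1) = I - n := by omega
    rw [e2]
    rw [e1, pow_succ, mul_comm (2 ^ (I - n)) 2] at ih
    have hk : (((2 ^ (I - n) : ℕ)) : ℝ) ≤ η * M := by
      refine le_trans ?_ hI
      exact_mod_cast Nat.pow_le_pow_right (by norm_num) hi
    have h1 := hR2 x (2 ^ (I - n)) (Nat.one_le_two_pow) hk (by omega) hx2
    have h2 := h71_double J γ q hγ hq x (2 ^ (I - n)) (by omega) h1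
    calc q ^ (n + 1) * (c / M) = q * (q ^ n * (c / M)) := by ring
      _ ≤ q * ∑ i ∈ Ioc (x - 2 * 2 ^ (I - n)) x, J i := mul_le_mul_of_nonneg_left ih hq0.le
      _ ≤ _ := h2

lemma h71_stage (C1 γ c η q : ℝ) (hC1 : 1 ≤ C1) (hγ : 0 < γ) (hγ2 : γ ≤ 1 / 2)
    (hc : 0 < c) (hη : 0 < η) (hη1 : η ≤ 1 / 8) (hq : q = γ / (1 + γ))
    (M : ℕ) (hM : 1 ≤ η * M) (J : ℕ → ℝ) (hJ : ∀ i, 0 ≤ J i)
    (hR1 : ∀ m' m'' : ℕ, M / 2 ≤ m' → m' ≤ m'' → m'' ≤ 2 * M →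
        ((m'' - m' + 1 : ℕ) : ℝ) * J m' ≤ C1 * ∑ i ∈ Icc m' m'', J i)
    (hR2 : ∀ m k : ℕ, 1 ≤ k → (k : ℝ) ≤ η * M → M / 2 + 2 * k ≤ m → m ≤ 2 * M →
        γ * ∑ i ∈ Ioc (m - 2 * k) (m - k), J i ≤ ∑ i ∈ Ioc (m - k) m, J i)
    (hR3 : ∀ m : ℕ, M / 2 + ⌊η * M⌋₊ ≤ m → m ≤ 2 * M →
        c / M ≤ ∑ i ∈ Ioc (m - ⌊η * M⌋₊) m, J i)
    (j : ℕ) (τ ξ c3 : ℝ) (hτ : 0 < τ) (hξ : 0 < ξ) (hξ1 : ξ ≤ 1 / (2 * C1))
    (hc3 : c3 = γ ^ 2 / ((1 + γ) * C1)) (hξ2 : ξ ≤ c3 / 2)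
    (hτj : η * τ / (2 * C1 * c * q) < (2 * q) ^ (j + 1))
    (x : ℕ) (hx : 15 * M ≤ 16 * x) (hx2 : x ≤ 2 * M) (hxJ : (M : ℝ) ^ 2 * J x ≤ ξ * τ) :
    ∃ k : ℕ, 1 ≤ k ∧ k ≤ x ∧ (k : ℝ) ≤ M / 2 ^ (j + 5) ∧
      c3 / 4 * k ≤ (((Ioc (x - k) x).filter
        (fun m => ξ * τ < (M : ℝ) ^ 2 * J m ∧ (M : ℝ) ^ 2 * J m ≤ τ)).card : ℝ) := by
  classical
  have hq0 : 0 < q := by rw [hq]; positivity
  have hq1 : 2 * q < 1 := by
    rw [hq, ← mul_div_assoc, div_lt_one (by linarith)]; linarith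
  have hMpos : (0 : ℝ) < M := by
    rcases Nat.eq_zero_or_pos M with h | h
    · subst h; norm_num at hM
    · exact_mod_cast h
  have hN1 : 1 ≤ ⌊η * M⌋₊ := by
    rw [Nat.one_le_floor_iff]; exact hM
  set N := ⌊η * M⌋₊ with hN
  set I := Nat.log 2 N with hIdef
  have hI : 2 ^ I ≤ N := Nat.pow_log_le_self 2 (by omega)
  have hI2 : N < 2 ^ (I + 1) := Nat.lt_pow_succ_log_self (by norm_num) N
  have hIr : ((2 ^ I : ℕ) : ℝ) ≤ η * M :=
    le_trans (by exact_mod_cast hI) (Nat.floor_le (by positivity))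
  have hlow := h71_lower γ c η q hγ hq hη1 M J hJ hR2 hR3 x hx hx2 I hIr hI2
  have hpow : ∀ i ≤ I, ((2 ^ i : ℕ) : ℝ) ≤ η * M := by
    intro i hi
    refine le_trans ?_ hIr
    exact_mod_cast Nat.pow_le_pow_right (by norm_num) hi
  have hpow8 : ∀ i ≤ I, 8 * 2 ^ i ≤ M := by
    intro i hi
    have h2 := hpow i hi
    have h3 : (8 : ℝ) * ((2 ^ i : ℕ) : ℝ) ≤ M := by
      have : η * M ≤ 1 / 8 * M := mul_le_mul_of_nonneg_right hη1 (by positivity)
      linarith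
    exact_mod_cast h3
  have hM8 : 8 ≤ M := by have := hpow8 0 (by omega); simpa using this
  -- the predicate
  set P : ℕ → Prop := fun i => (M : ℝ) ^ 2 * ∑ l ∈ Ioc (x - 2 ^ i) x, J l ≤ τ / (2 * C1) * 2 ^ i
    with hP
  have hsum1 : ∑ l ∈ Ioc (x - 1) x, J l = J x := by
    have : Ioc (x - 1) x = {x} := by
      ext y; rw [mem_Ioc, mem_singleton]; omega
    rw [this, sum_singleton]
  have hP0 : P 0 := by
    simp only [hP, pow_zero, mul_one]
    rw [hsum1]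
    refine hxJ.trans ?_
    calc ξ * τ ≤ 1 / (2 * C1) * τ := mul_le_mul_of_nonneg_right hξ1 hτ.le
      _ = τ / (2 * C1) := by ring
  set i := Nat.findGreatest P I with hi
  have hPi : P i := Nat.findGreatest_spec (P := P) (Nat.zero_le I) hP0
  have hiI : i ≤ I := Nat.findGreatest_le I
  -- I - i ≥ j + 2
  have hgap : j + 2 ≤ I - i := by
    by_contra hcon
    push Not at hcon
    have h1 := hlow (I + 1 - i) (by omega)
    have e1 : I + 1 - (I + 1 - i) = i := by omega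
    rw [e1] at h1
    have h2 : (M : ℝ) ^ 2 * (q ^ (I + 1 - i) * (c / M)) ≤ τ / (2 * C1) * 2 ^ i :=
      le_trans (mul_le_mul_of_nonneg_left h1 (by positivity)) hPi
    have e2 : I + 1 - i = (I - i) + 1 := by omega
    rw [e2] at h2
    have h3 : (M : ℝ) ^ 2 * (q ^ ((I - i) + 1) * (c / M)) = M * (c * q ^ (I - i) * q) := by
      field_simp
      ring
    rw [h3] at h2
    have h4 : ((2 : ℝ) ^ I) / η ≤ M := by
      rw [div_le_iff₀ hη]
      have := hIr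
      push_cast at this
      linarith
    have h5 : (2 : ℝ) ^ I / η * (c * q ^ (I - i) * q) ≤ τ / (2 * C1) * 2 ^ i :=
      le_trans (mul_le_mul_of_nonneg_right h4 (by positivity)) h2
    have e3 : (2 : ℝ) ^ I = 2 ^ (I - i) * 2 ^ i := by
      rw [← pow_add]; congr 1; omega
    rw [e3] at h5
    have h6 : (2 * q) ^ (I - i) ≤ η * τ / (2 * C1 * c * q) := by
      rw [le_div_iff₀ (by positivity), mul_pow]
      have h7 : (2 : ℝ) ^ (I - i) * 2 ^ i / η * (c * q ^ (I - i) * q) =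
          (2 ^ (I - i) * q ^ (I - i) * (c * q) / η) * 2 ^ i := by ring
      rw [h7] at h5
      have h8 := le_of_mul_le_mul_right h5 (by positivity : (0 : ℝ) < 2 ^ i)
      rw [div_le_div_iff₀ hη (by positivity)] at h8
      nlinarith
    have h7 : (2 * q) ^ (j + 1) ≤ (2 * q) ^ (I - i) :=
      pow_le_pow_of_le_one (by positivity) hq1.le (by omega)
    linarith
  have hnP : ¬ P (i + 1) := by
    intro h
    have := Nat.le_findGreatest (P := P) (n := I) (by omega : i + 1 ≤ I) h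
    omega
  have hk8 : 8 * 2 ^ (i + 1) ≤ M := hpow8 (i + 1) (by omega)
  have hkr : ((2 ^ i : ℕ) : ℝ) ≤ M / 2 ^ (j + 5) := by
    rw [le_div_iff₀ (by positivity)]
    have h1 : (2 : ℕ) ^ i * 2 ^ (j + 5) ≤ M := by
      have : 2 ^ i * 2 ^ (j + 5) = 8 * 2 ^ (i + (j + 2)) := by
        rw [← pow_add, show (8 : ℕ) = 2 ^ 3 by norm_num, ← pow_add]; congr 1; omega
      rw [this]
      exact hpow8 _ (by omega)
    exact_mod_cast h1
  simp only [hP, not_le] at hnP hPi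
  have hx3 : 2 * 2 ^ (i + 1) ≤ x := by omega
  -- i is positive
  have hipos : i ≠ 0 := by
    intro h0
    rw [h0] at hnP
    simp only [zero_add, pow_one] at hnP
    have hr := hR2 x 1 le_rfl (by simpa using hM) (by omega) hx2
    have hd := h71_double J γ q hγ hq x 1 (by omega) hr
    simp only [mul_one] at hd
    rw [hsum1] at hd
    have h1 : q * ((M : ℝ) ^ 2 * ∑ l ∈ Ioc (x - 2) x, J l) ≤ ξ * τ := by
      calc q * ((M : ℝ) ^ 2 * ∑ l ∈ Ioc (x - 2) x, J l)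
          = (M : ℝ) ^ 2 * (q * ∑ l ∈ Ioc (x - 2) x, J l) := by ring
        _ ≤ (M : ℝ) ^ 2 * J x := mul_le_mul_of_nonneg_left hd (by positivity)
        _ ≤ ξ * τ := hxJ
    have h2 : q * (τ / (2 * C1) * 2) < ξ * τ := lt_of_lt_of_le (mul_lt_mul_of_pos_left hnP hq0) h1
    have h3 : q * (τ / (2 * C1) * 2) = (q / C1) * τ := by field_simp
    rw [h3] at h2
    have h4 : q / C1 < ξ := lt_of_mul_lt_mul_right h2 hτ.le
    have h5 : c3 ≤ q / C1 := by
      rw [hc3, hq, div_div]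
      exact div_le_div_of_nonneg_right (by nlinarith) (by positivity)
    have h6 : 0 < c3 := by rw [hc3]; positivity
    linarith
  obtain ⟨i', hi'⟩ := Nat.exists_eq_succ_of_ne_zero hipos
  rw [hi'] at hnP hPi hkr hx3 hk8
  simp only [Nat.succ_eq_add_one] at hnP hPi hkr hx3 hk8
  set h := 2 ^ i' with hh
  have hhpos : 1 ≤ h := Nat.one_le_two_pow
  have ek : 2 ^ (i' + 1) = 2 * h := by rw [pow_succ]; ring
  have ek2 : 2 ^ (i' + 1 + 1) = 4 * h := by rw [pow_succ, ek]; ring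
  have ekr : (2 : ℝ) ^ (i' + 1) = 2 * (h : ℝ) := by rw [hh]; push_cast; ring
  have ekr2 : (2 : ℝ) ^ (i' + 1 + 1) = 4 * (h : ℝ) := by rw [hh]; push_cast; ring
  rw [ek2, ekr2] at hnP
  rw [ek, ekr] at hPi
  rw [ek] at hkr
  rw [ek2] at hx3 hk8
  have hhη : (h : ℝ) ≤ η * M := by
    have := hpow i' (by omega)
    simpa [hh] using this
  refine ⟨2 * h, by omega, by omega, hkr, ?_⟩
  -- masses
  have hE : ∑ l ∈ Ioc (x - 4 * h) (x - 2 * h), J l + ∑ l ∈ Ioc (x - 2 * h) x, J l =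
      ∑ l ∈ Ioc (x - 4 * h) x, J l := sum_Ioc_consecutive _ (by omega) (by omega)
  have hE1 : τ * h / C1 < (M : ℝ) ^ 2 * ∑ l ∈ Ioc (x - 4 * h) (x - 2 * h), J l := by
    rw [← hE, mul_add] at hnP
    have e : τ / (2 * C1) * (4 * (h : ℝ)) - τ / (2 * C1) * (2 * h) = τ * h / C1 := by
      field_simp; ring
    linarith
  have hr1 := hR2 (x - 2 * h) h hhpos hhη (by omega) (by omega)
  have hd1 := h71_double J γ q hγ hq (x - 2 * h) h (by omega) hr1
  have e1 : x - 2 * h - 2 * h = x - 4 * h := by omega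
  have e2 : x - 2 * h - h = x - 3 * h := by omega
  rw [e1, e2] at hd1
  have hr2 := hR2 (x - h) h hhpos hhη (by omega) (by omega)
  have e3 : x - h - 2 * h = x - 3 * h := by omega
  have e4 : x - h - h = x - 2 * h := by omega
  rw [e3, e4] at hr2
  have hmass : c3 * τ * h < (M : ℝ) ^ 2 * ∑ l ∈ Ioc (x - 2 * h) (x - h), J l := by
    have h1 : γ * (q * ((M : ℝ) ^ 2 * ∑ l ∈ Ioc (x - 4 * h) (x - 2 * h), J l)) ≤
        (M : ℝ) ^ 2 * ∑ l ∈ Ioc (x - 2 * h) (x - h), J l := by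
      have := mul_le_mul_of_nonneg_left (le_trans (mul_le_mul_of_nonneg_left hd1 hγ.le) hr2)
        (by positivity : (0 : ℝ) ≤ (M : ℝ) ^ 2)
      calc _ = (M : ℝ) ^ 2 * (γ * (q * ∑ l ∈ Ioc (x - 4 * h) (x - 2 * h), J l)) := by ring
        _ ≤ _ := this
    refine lt_of_lt_of_le ?_ h1
    have h2 : c3 * τ * h = γ * (q * (τ * h / C1)) := by
      rw [hc3, hq]; field_simp
    rw [h2]
    exact mul_lt_mul_of_pos_left (mul_lt_mul_of_pos_left hE1 hq0) hγ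
  have hpt : ∀ m ∈ Ioc (x - 2 * h) (x - h), (M : ℝ) ^ 2 * J m ≤ τ := by
    intro m hm
    rw [mem_Ioc] at hm
    have h1 := hR1 m x (by omega) (by omega) hx2
    have h2 : ∑ l ∈ Icc m x, J l ≤ ∑ l ∈ Ioc (x - 2 * h) x, J l := by
      apply sum_le_sum_of_subset_of_nonneg
      · intro y hy
        rw [mem_Icc] at hy
        rw [mem_Ioc]
        exact ⟨by omega, hy.2⟩
      · intro i _ _; exact hJ i
    have h3 : (h : ℝ) * J m ≤ ((x - m + 1 : ℕ) : ℝ) * J m := by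
      apply mul_le_mul_of_nonneg_right _ (hJ m)
      exact_mod_cast (by omega : h ≤ x - m + 1)
    have h4 : (h : ℝ) * ((M : ℝ) ^ 2 * J m) ≤ h * τ := by
      calc (h : ℝ) * ((M : ℝ) ^ 2 * J m) = (M : ℝ) ^ 2 * (h * J m) := by ring
        _ ≤ (M : ℝ) ^ 2 * (C1 * ∑ l ∈ Ioc (x - 2 * h) x, J l) :=
            mul_le_mul_of_nonneg_left (h3.trans (h1.trans
              (mul_le_mul_of_nonneg_left h2 (by linarith)))) (by positivity)
        _ = C1 * ((M : ℝ) ^ 2 * ∑ l ∈ Ioc (x - 2 * h) x, J l) := by ring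
        _ ≤ C1 * (τ / (2 * C1) * (2 * h)) := mul_le_mul_of_nonneg_left hPi (by linarith)
        _ = h * τ := by field_simp
    exact le_of_mul_le_mul_left h4 (by exact_mod_cast hhpos)
  set B := (Ioc (x - 2 * h) (x - h)).filter (fun m => ξ * τ < (M : ℝ) ^ 2 * J m) with hB
  have hcardL : ((Ioc (x - 2 * h) (x - h)).card : ℝ) = h := by
    rw [Nat.card_Ioc]
    exact_mod_cast (by omega : x - h - (x - 2 * h) = h)
  have hsumle : (M : ℝ) ^ 2 * ∑ l ∈ Ioc (x - 2 * h) (x - h), J l ≤ B.card * τ + h * (ξ * τ) := by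
    rw [mul_sum, ← sum_filter_add_sum_filter_not (Ioc (x - 2 * h) (x - h))
      (fun m => ξ * τ < (M : ℝ) ^ 2 * J m)]
    apply add_le_add
    · calc ∑ m ∈ B, (M : ℝ) ^ 2 * J m ≤ ∑ m ∈ B, τ :=
            sum_le_sum fun m hm => hpt m (mem_of_mem_filter m hm)
        _ = B.card * τ := by rw [sum_const, nsmul_eq_mul]
    · calc ∑ m ∈ (Ioc (x - 2 * h) (x - h)).filter (fun m => ¬ ξ * τ < (M : ℝ) ^ 2 * J m),
            (M : ℝ) ^ 2 * J m
          ≤ ∑ m ∈ (Ioc (x - 2 * h) (x - h)).filter (fun m => ¬ ξ * τ < (M : ℝ) ^ 2 * J m),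
            ξ * τ := sum_le_sum fun m hm => not_lt.1 (mem_filter.1 hm).2
        _ = (((Ioc (x - 2 * h) (x - h)).filter
            (fun m => ¬ ξ * τ < (M : ℝ) ^ 2 * J m)).card : ℝ) * (ξ * τ) := by
            rw [sum_const, nsmul_eq_mul]
        _ ≤ h * (ξ * τ) := by
            apply mul_le_mul_of_nonneg_right _ (by positivity)
            rw [← hcardL]
            exact_mod_cast card_le_card (filter_subset _ _)
  have hBcard : c3 / 2 * h ≤ (B.card : ℝ) := by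
    have h1 : c3 * τ * h < B.card * τ + h * (ξ * τ) := lt_of_lt_of_le hmass hsumle
    have h2 : (c3 * h - h * ξ) * τ < B.card * τ := by nlinarith
    have h3 := lt_of_mul_lt_mul_right h2 hτ.le
    have h4 : (h : ℝ) * ξ ≤ h * (c3 / 2) := mul_le_mul_of_nonneg_left hξ2 (by positivity)
    nlinarith
  have hsub : B ⊆ (Ioc (x - 2 * h) x).filter
      (fun m => ξ * τ < (M : ℝ) ^ 2 * J m ∧ (M : ℝ) ^ 2 * J m ≤ τ) := by
    intro m hm
    rw [hB, mem_filter] at hm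
    rw [mem_filter]
    refine ⟨?_, hm.2, hpt m hm.1⟩
    rw [mem_Ioc] at hm ⊢
    exact ⟨hm.1.1, by omega⟩
  calc c3 / 4 * ((2 * h : ℕ) : ℝ) = c3 / 2 * h := by push_cast; ring
    _ ≤ (B.card : ℝ) := hBcard
    _ ≤ _ := by exact_mod_cast card_le_card hsub

lemma h71_step (C1 γ c η q : ℝ) (hC1 : 1 ≤ C1) (hγ : 0 < γ) (hγ2 : γ ≤ 1 / 2)
    (hc : 0 < c) (hη : 0 < η) (hη1 : η ≤ 1 / 8) (hq : q = γ / (1 + γ))
    (M : ℕ) (hM : 1 ≤ η * M) (J : ℕ → ℝ) (hJ : ∀ i, 0 ≤ J i)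
    (hR1 : ∀ m' m'' : ℕ, M / 2 ≤ m' → m' ≤ m'' → m'' ≤ 2 * M →
        ((m'' - m' + 1 : ℕ) : ℝ) * J m' ≤ C1 * ∑ i ∈ Icc m' m'', J i)
    (hR2 : ∀ m k : ℕ, 1 ≤ k → (k : ℝ) ≤ η * M → M / 2 + 2 * k ≤ m → m ≤ 2 * M →
        γ * ∑ i ∈ Ioc (m - 2 * k) (m - k), J i ≤ ∑ i ∈ Ioc (m - k) m, J i)
    (hR3 : ∀ m : ℕ, M / 2 + ⌊η * M⌋₊ ≤ m → m ≤ 2 * M →
        c / M ≤ ∑ i ∈ Ioc (m - ⌊η * M⌋₊) m, J i)
    (ξ c3 τ0 : ℝ) (hτ0 : τ0 = 2 * C1 * c * q ^ 2 / η) (hξ : 0 < ξ) (hξ1 : ξ ≤ 1 / (2 * C1))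
    (hξq : ξ ≤ 2 * q) (hξ1' : ξ ≤ 1)
    (hc3 : c3 = γ ^ 2 / ((1 + γ) * C1)) (hξ2 : ξ ≤ c3 / 2) (j : ℕ) :
    (1 + c3 / 4) * (((Icc 0 (2 * M)).filter (fun x : ℕ =>
        (M : ℝ) * (1 - 1 / 2 ^ (j + 1 + 4)) ≤ x ∧ (M : ℝ) ^ 2 * J x ≤ τ0 * ξ ^ (j + 1))).card : ℝ) ≤
      (((Icc 0 (2 * M)).filter (fun x : ℕ =>
        (M : ℝ) * (1 - 1 / 2 ^ (j + 4)) ≤ x ∧ (M : ℝ) ^ 2 * J x ≤ τ0 * ξ ^ j)).card : ℝ) := by
  classical
  have hq0 : 0 < q := by rw [hq]; positivity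
  have hτ0' : 0 < τ0 := by rw [hτ0]; positivity
  have hc30 : 0 < c3 := by rw [hc3]; positivity
  set G : ℕ → Finset ℕ := fun j => (Icc 0 (2 * M)).filter (fun x : ℕ =>
        (M : ℝ) * (1 - 1 / 2 ^ (j + 4)) ≤ x ∧ (M : ℝ) ^ 2 * J x ≤ τ0 * ξ ^ j) with hG
  change (1 + c3 / 4) * ((G (j + 1)).card : ℝ) ≤ ((G j).card : ℝ)
  have hMr : (0 : ℝ) ≤ M := by positivity
  have hhalf : (1 : ℝ) / 2 ^ (j + 4) = 2 * (1 / 2 ^ (j + 1 + 4)) := by
    rw [show j + 1 + 4 = (j + 4) + 1 by omega, pow_succ (2 : ℝ) (j + 4)]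
    have : (2 : ℝ) ^ (j + 4) ≠ 0 := by positivity
    field_simp
  have hsubG : G (j + 1) ⊆ G j := by
    intro x hx
    simp only [hG, mem_filter] at hx ⊢
    refine ⟨hx.1, ?_, ?_⟩
    · have : (M : ℝ) * (1 - 1 / 2 ^ (j + 4)) ≤ (M : ℝ) * (1 - 1 / 2 ^ (j + 1 + 4)) := by
        apply mul_le_mul_of_nonneg_left _ hMr
        have : (0 : ℝ) < 1 / 2 ^ (j + 1 + 4) := by positivity
        linarith
      linarith [hx.2.1]
    · refine hx.2.2.trans ?_
      apply mul_le_mul_of_nonneg_left _ hτ0'.le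
      exact pow_le_pow_of_le_one hξ.le hξ1' (by omega)
  have key := h71_greedy (G (j + 1)) (G j \ G (j + 1)) (c3 / 4) (by positivity) (by
    intro x hx
    simp only [hG, mem_filter, mem_Icc] at hx
    obtain ⟨⟨_, hx2⟩, hxL, hxJ⟩ := hx
    have h32 : (1 : ℝ) / 2 ^ (j + 1 + 4) ≤ 1 / 32 := by
      apply one_div_le_one_div_of_le (by norm_num)
      calc (32 : ℝ) = 2 ^ 5 := by norm_num
        _ ≤ 2 ^ (j + 1 + 4) := pow_le_pow_right₀ (by norm_num) (by omega)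
    have hx15 : 15 * M ≤ 16 * x := by
      have h1 : (M : ℝ) * (1 - 1 / 32) ≤ x :=
        le_trans (mul_le_mul_of_nonneg_left (by linarith) hMr) hxL
      have : (15 : ℝ) * M ≤ 16 * x := by linarith
      exact_mod_cast this
    have hxJ' : (M : ℝ) ^ 2 * J x ≤ ξ * (τ0 * ξ ^ j) := by
      calc _ ≤ τ0 * ξ ^ (j + 1) := hxJ
        _ = _ := by ring
    have hτj : η * (τ0 * ξ ^ j) / (2 * C1 * c * q) < (2 * q) ^ (j + 1) := by
      have e : η * (τ0 * ξ ^ j) / (2 * C1 * c * q) = q * ξ ^ j := by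
        rw [hτ0]; field_simp
      rw [e, pow_succ, mul_comm]
      apply mul_lt_mul' (pow_le_pow_left₀ hξ.le hξq j) (by linarith) hq0.le (by positivity)
    obtain ⟨k, hk1, hkx, hkM, hk⟩ := h71_stage C1 γ c η q hC1 hγ hγ2 hc hη hη1 hq M hM J hJ hR1 hR2
      hR3 j (τ0 * ξ ^ j) ξ c3 (by positivity) hξ hξ1 hc3 hξ2 hτj x hx15 hx2 hxJ'
    refine ⟨k, hk1, hkx, hk.trans ?_⟩
    have : (Ioc (x - k) x).filter (fun m => ξ * (τ0 * ξ ^ j) < (M : ℝ) ^ 2 * J m ∧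
        (M : ℝ) ^ 2 * J m ≤ τ0 * ξ ^ j) ⊆
        (G j \ G (j + 1)).filter (fun y => x - k < y ∧ y ≤ x) := by
      intro y hy
      simp only [mem_filter, mem_Ioc] at hy
      obtain ⟨⟨hy1, hy2⟩, hy3, hy4⟩ := hy
      simp only [mem_filter, mem_sdiff, hG, mem_Icc]
      refine ⟨⟨⟨⟨by omega, by omega⟩, ?_, hy4⟩, ?_⟩, hy1, hy2⟩
      · have h1 : (x : ℝ) - k ≤ y := by
          have : x ≤ y + k := by omega
          have : (x : ℝ) ≤ y + k := by exact_mod_cast this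
          linarith
        have h2 : (M : ℝ) / 2 ^ (j + 5) = M * (1 / 2 ^ (j + 1 + 4)) := by
          rw [show j + 1 + 4 = j + 5 by omega]; ring
        rw [h2] at hkM
        rw [hhalf]
        linarith
      · rintro ⟨_, _, h3⟩
        have : τ0 * ξ ^ (j + 1) = ξ * (τ0 * ξ ^ j) := by ring
        rw [this] at h3
        linarith
    exact_mod_cast card_le_card this) (2 * M)
  have hA : (G (j + 1)).filter (fun y => y ≤ 2 * M) = G (j + 1) := by
    apply filter_true_of_mem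
    intro y hy
    simp only [hG, mem_filter, mem_Icc] at hy
    exact hy.1.2
  rw [hA] at key
  have hcard : ((G j \ G (j + 1)).card : ℝ) + ((G (j + 1)).card : ℝ) = ((G j).card : ℝ) := by
    exact_mod_cast card_sdiff_add_card_eq_card hsubG
  have hB : (((G j \ G (j + 1)).filter (fun y => y ≤ 2 * M)).card : ℝ) ≤
      ((G j \ G (j + 1)).card : ℝ) := by
    exact_mod_cast card_le_card (filter_subset _ _)
  nlinarith

theorem dens (C1 γ c η : ℝ) (hC1 : 1 ≤ C1) (hγ : 0 < γ) (hγ1 : γ ≤ 1) (hc : 0 < c) (hη : 0 < η)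
    (hη1 : η ≤ 1/8) (κ : ℝ) (hκ : 0 < κ) :
    ∃ a > (0:ℝ), ∃ M0 : ℕ, ∀ M ≥ M0, ∀ J : ℕ → ℝ, (∀ i, 0 ≤ J i) →
      (∀ m' m'' : ℕ, M / 2 ≤ m' → m' ≤ m'' → m'' ≤ 2 * M →
        ((m'' - m' + 1 : ℕ) : ℝ) * J m' ≤ C1 * ∑ i ∈ Icc m' m'', J i) →
      (∀ m k : ℕ, 1 ≤ k → (k : ℝ) ≤ η * M → M / 2 + 2 * k ≤ m → m ≤ 2 * M →
        γ * ∑ i ∈ Ioc (m - 2 * k) (m - k), J i ≤ ∑ i ∈ Ioc (m - k) m, J i) →
      (∀ m : ℕ, M / 2 + ⌊η * M⌋₊ ≤ m → m ≤ 2 * M →
        c / M ≤ ∑ i ∈ Ioc (m - ⌊η * M⌋₊) m, J i) →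
      (((Icc M (2 * M)).filter (fun m => J m ≤ (M : ℝ) ^ (-(2 + κ)))).card : ℝ)
        ≤ (M : ℝ) ^ (1 - a) := by
  classical
  set γ' : ℝ := γ / 2 with hγ'
  have hγ'0 : 0 < γ' := by positivity
  have hγ'2 : γ' ≤ 1 / 2 := by rw [hγ']; linarith
  set q : ℝ := γ' / (1 + γ') with hq
  have hq0 : 0 < q := by positivity
  set c3 : ℝ := γ' ^ 2 / ((1 + γ') * C1) with hc3
  have hc30 : 0 < c3 := by positivity
  set ξ : ℝ := min (min (1 / (2 * C1)) (c3 / 2)) (min (2 * q) (1 / 2)) with hξdef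
  have hξ : 0 < ξ := by
    rw [hξdef]
    refine lt_min (lt_min (by positivity) (by positivity)) (lt_min (by positivity) (by norm_num))
  have hξ1 : ξ ≤ 1 / (2 * C1) := (min_le_left _ _).trans (min_le_left _ _)
  have hξ2 : ξ ≤ c3 / 2 := (min_le_left _ _).trans (min_le_right _ _)
  have hξq : ξ ≤ 2 * q := (min_le_right _ _).trans (min_le_left _ _)
  have hξh : ξ ≤ 1 / 2 := (min_le_right _ _).trans (min_le_right _ _)
  set τ0 : ℝ := 2 * C1 * c * q ^ 2 / η with hτ0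
  have hτ0' : 0 < τ0 := by positivity
  set L : ℝ := Real.log (1 / ξ) with hL
  have hLpos : 0 < L := by
    apply Real.log_pos
    rw [lt_div_iff₀ hξ]; linarith
  set θ : ℝ := c3 / 4 with hθ
  have hθ0 : 0 < θ := by positivity
  have hlogθ : 0 < Real.log (1 + θ) := Real.log_pos (by linarith)
  set b : ℝ := (κ / 2) * Real.log (1 + θ) / L with hb
  have hb0 : 0 < b := by positivity
  have ev1 : ∀ᶠ M : ℕ in Filter.atTop, 1 ≤ η * (M : ℝ) :=
    (Filter.Tendsto.const_mul_atTop hη tendsto_natCast_atTop_atTop).eventually_ge_atTop 1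
  have ev2 : ∀ᶠ M : ℕ in Filter.atTop, 1 / τ0 ≤ (M : ℝ) ^ (κ / 2) :=
    ((tendsto_rpow_atTop (by positivity : 0 < κ / 2)).comp
      tendsto_natCast_atTop_atTop).eventually_ge_atTop _
  have ev3 : ∀ᶠ M : ℕ in Filter.atTop, 3 * (1 + θ) ≤ (M : ℝ) ^ (b / 2) :=
    ((tendsto_rpow_atTop (by positivity : 0 < b / 2)).comp
      tendsto_natCast_atTop_atTop).eventually_ge_atTop _
  obtain ⟨M0, hM0⟩ := Filter.eventually_atTop.1 (ev1.and (ev2.and ev3))
  refine ⟨b / 2, by positivity, max M0 1, ?_⟩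
  intro M hM J hJ hR1 hR2 hR3
  obtain ⟨hM1, hM2, hM3⟩ := hM0 M (le_trans (le_max_left _ _) hM)
  have hM1' : 1 ≤ M := le_trans (le_max_right _ _) hM
  have hMpos : (0 : ℝ) < M := by exact_mod_cast hM1'
  have hR2' : ∀ m k : ℕ, 1 ≤ k → (k : ℝ) ≤ η * M → M / 2 + 2 * k ≤ m → m ≤ 2 * M →
        γ' * ∑ i ∈ Ioc (m - 2 * k) (m - k), J i ≤ ∑ i ∈ Ioc (m - k) m, J i := by
    intro m k h1 h2 h3 h4
    refine le_trans ?_ (hR2 m k h1 h2 h3 h4)
    apply mul_le_mul_of_nonneg_right (by rw [hγ']; linarith)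
    exact sum_nonneg fun i _ => hJ i
  set G : ℕ → Finset ℕ := fun j => (Icc 0 (2 * M)).filter (fun x : ℕ =>
        (M : ℝ) * (1 - 1 / 2 ^ (j + 4)) ≤ x ∧ (M : ℝ) ^ 2 * J x ≤ τ0 * ξ ^ j) with hG
  have hstep : ∀ j, (1 + θ) * ((G (j + 1)).card : ℝ) ≤ ((G j).card : ℝ) := fun j =>
    h71_step C1 γ' c η q hC1 hγ'0 hγ'2 hc hη hη1 hq M hM1 J hJ hR1 hR2' hR3 ξ c3 τ0 hτ0 hξ hξ1
      hξq (by linarith) hc3 hξ2 j
  have hiter : ∀ n, (1 + θ) ^ n * ((G n).card : ℝ) ≤ ((G 0).card : ℝ) := by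
    intro n
    induction n with
    | zero => simp
    | succ n ih =>
      calc (1 + θ) ^ (n + 1) * ((G (n + 1)).card : ℝ)
          = (1 + θ) ^ n * ((1 + θ) * ((G (n + 1)).card : ℝ)) := by ring
        _ ≤ (1 + θ) ^ n * ((G n).card : ℝ) :=
            mul_le_mul_of_nonneg_left (hstep n) (by positivity)
        _ ≤ _ := ih
  have hG0 : ((G 0).card : ℝ) ≤ 3 * M := by
    have h1 : (G 0).card ≤ 2 * M + 1 := by
      have := card_le_card (filter_subset (fun x : ℕ =>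
        (M : ℝ) * (1 - 1 / 2 ^ (0 + 4)) ≤ x ∧ (M : ℝ) ^ 2 * J x ≤ τ0 * ξ ^ 0) (Icc 0 (2 * M)))
      rw [Nat.card_Icc] at this
      simpa [hG] using this
    have h2 : (G 0).card ≤ 3 * M := by omega
    exact_mod_cast h2
  set n : ℕ := ⌊(κ / 2) * Real.log M / L⌋₊ with hn
  have hlogM : 0 ≤ Real.log M := Real.log_nonneg (by exact_mod_cast hM1')
  have hnle : (n : ℝ) * L ≤ (κ / 2) * Real.log M := by
    have := Nat.floor_le (by positivity : 0 ≤ (κ / 2) * Real.log M / L)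
    rwa [← hn, le_div_iff₀ hLpos] at this
  have hnlt : (κ / 2) * Real.log M < ((n : ℝ) + 1) * L := by
    have := Nat.lt_floor_add_one ((κ / 2) * Real.log M / L)
    rwa [← hn, div_lt_iff₀ hLpos] at this
  have hlogξ : Real.log ξ = -L := by rw [hL, one_div, Real.log_inv]; ring
  have hξn : (M : ℝ) ^ (-(κ / 2)) ≤ ξ ^ n := by
    rw [← Real.exp_log (pow_pos hξ n), Real.rpow_def_of_pos hMpos, Real.log_pow, hlogξ]
    apply Real.exp_le_exp.2
    linarith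
  have hτ : (M : ℝ) ^ (-(κ / 2)) ≤ τ0 := by
    rw [Real.rpow_neg hMpos.le, inv_le_comm₀ (by positivity) hτ0']
    simpa using hM2
  have hθn : (M : ℝ) ^ b ≤ (1 + θ) ^ (n + 1) := by
    rw [← Real.exp_log (pow_pos (by linarith : 0 < 1 + θ) (n + 1)), Real.rpow_def_of_pos hMpos,
      Real.log_pow]
    apply Real.exp_le_exp.2
    have e : Real.log M * b = (κ / 2 * Real.log M) / L * Real.log (1 + θ) := by
      rw [hb]; ring
    rw [e]
    push_cast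
    apply mul_le_mul_of_nonneg_right _ hlogθ.le
    rw [div_le_iff₀ hLpos]
    exact hnlt.le
  have hsub : (Icc M (2 * M)).filter (fun m => J m ≤ (M : ℝ) ^ (-(2 + κ))) ⊆ G n := by
    intro m hm
    rw [mem_filter, mem_Icc] at hm
    simp only [hG, mem_filter, mem_Icc]
    refine ⟨⟨by omega, hm.1.2⟩, ?_, ?_⟩
    · have h1 : (M : ℝ) ≤ m := by exact_mod_cast hm.1.1
      have h2 : (M : ℝ) * (1 - 1 / 2 ^ (n + 4)) ≤ M * 1 := by
        apply mul_le_mul_of_nonneg_left _ hMpos.le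
        have : (0 : ℝ) < 1 / 2 ^ (n + 4) := by positivity
        linarith
      linarith
    · calc (M : ℝ) ^ 2 * J m ≤ (M : ℝ) ^ 2 * (M : ℝ) ^ (-(2 + κ)) :=
            mul_le_mul_of_nonneg_left hm.2 (by positivity)
        _ = (M : ℝ) ^ (-(κ / 2)) * (M : ℝ) ^ (-(κ / 2)) := by
            rw [← Real.rpow_natCast, ← Real.rpow_add hMpos, ← Real.rpow_add hMpos]
            congr 1; push_cast; ring
        _ ≤ τ0 * ξ ^ n := mul_le_mul hτ hξn (by positivity) hτ0'.le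
  have hcount : (((Icc M (2 * M)).filter (fun m => J m ≤ (M : ℝ) ^ (-(2 + κ)))).card : ℝ) ≤
      ((G n).card : ℝ) := by exact_mod_cast card_le_card hsub
  set N : ℝ := (((Icc M (2 * M)).filter (fun m => J m ≤ (M : ℝ) ^ (-(2 + κ)))).card : ℝ) with hN
  have h1 : N * (M : ℝ) ^ b ≤ (M : ℝ) ^ (b / 2) * M := by
    calc N * (M : ℝ) ^ b ≤ ((G n).card : ℝ) * (1 + θ) ^ (n + 1) :=
          mul_le_mul hcount hθn (by positivity) (by positivity)
      _ = (1 + θ) * ((1 + θ) ^ n * ((G n).card : ℝ)) := by ring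
      _ ≤ (1 + θ) * (3 * M) :=
          mul_le_mul_of_nonneg_left ((hiter n).trans hG0) (by linarith)
      _ = (3 * (1 + θ)) * M := by ring
      _ ≤ (M : ℝ) ^ (b / 2) * M := mul_le_mul_of_nonneg_right hM3 hMpos.le
  have h2 : (M : ℝ) ^ (1 - b / 2) * (M : ℝ) ^ b = (M : ℝ) ^ (b / 2) * M := by
    rw [← Real.rpow_add hMpos]
    nth_rewrite 3 [← Real.rpow_one (M : ℝ)]
    rw [← Real.rpow_add hMpos]
    congr 1; ring
  rw [← h2] at h1
  exact le_of_mul_le_mul_right h1 (by positivity)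

end FC
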