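import Pool.Agent.H92.FC.AnB0
import Pool.Agent.H92.FC.Dens

set_option autoImplicit false
open Finset Set

/-! `an_B`. -/

namespace FC

theorem an_B (d : ℕ) (hd : 2 ≤ d) (β T : ℕ → ℝ → ℝ) (m0 : ℕ) (s c : ℝ) (h : AN d β T m0 s c) :
    ∃ a > (0:ℝ), ∃ M0 : ℕ, ∀ M ≥ M0, ∃ E : Finset ℕ, (E.card : ℝ) ≤ (M : ℝ) ^ (1 - a) ∧
      ∀ n, M ≤ n → n ≤ 2 * M → n ∉ E → ∃ q1 q2 : ℝ, 0 < q1 ∧ q1 < q2 ∧ q2 ≤ ((d : ℝ) + 3) / n ∧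
        β n q1 = (M : ℝ) ^ ((d : ℝ) / 2 + 1 / 20) ∧ β (n - 1) q2 = (M : ℝ) ^ ((d : ℝ) / 2 + 1 / 20) ∧
        (M : ℝ) ^ (-(2 + 1 / 10 : ℝ)) ≤ q2 - q1 :=
  h63_an_B_of (fun C1 γ c η h1 h2 h3 h4 h5 h6 κ h7 => dens C1 γ c η h1 h2 h3 h4 h5 h6 κ h7)
    d hd β T m0 s c h

end FC
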