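import Pool.Agent.H92.FC.AnA

set_option autoImplicit false
open Finset Set

/-! `an_B`, from the density lemma. -/

namespace FC

/-- the statement of the density lemma `dens` -/
def h63_Dens : Prop := ∀ (C1 γ c η : ℝ) (_ : 1 ≤ C1) (_ : 0 < γ) (_ : γ ≤ 1) (_ : 0 < c) (_ : 0 < η)
    (_ : η ≤ 1/8) (κ : ℝ) (_ : 0 < κ),
    ∃ a > (0:ℝ), ∃ M0 : ℕ, ∀ M ≥ M0, ∀ J : ℕ → ℝ, (∀ i, 0 ≤ J i) →
      (∀ m' m'' : ℕ, M / 2 ≤ m' → m' ≤ m'' → m'' ≤ 2 * M →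
        ((m'' - m' + 1 : ℕ) : ℝ) * J m' ≤ C1 * ∑ i ∈ Finset.Icc m' m'', J i) →
      (∀ m k : ℕ, 1 ≤ k → (k : ℝ) ≤ η * M → M / 2 + 2 * k ≤ m → m ≤ 2 * M →
        γ * ∑ i ∈ Finset.Ioc (m - 2 * k) (m - k), J i ≤ ∑ i ∈ Finset.Ioc (m - k) m, J i) →
      (∀ m : ℕ, M / 2 + ⌊η * M⌋₊ ≤ m → m ≤ 2 * M →
        c / M ≤ ∑ i ∈ Finset.Ioc (m - ⌊η * M⌋₊) m, J i) →
      (((Finset.Icc M (2 * M)).filter (fun m => J m ≤ (M : ℝ) ^ (-(2 + κ)))).card : ℝ) ≤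
        (M : ℝ) ^ (1 - a)

/-- telescoping -/
theorem h63_tele (q : ℕ → ℝ) {a b : ℕ} (hab : a ≤ b) :
    ∑ i ∈ Finset.Ioc a b, (q (i - 1) - q i) = q a - q b := by
  induction b, hab using Nat.le_induction with
  | base => simp
  | succ n hn ih =>
    rw [Finset.sum_Ioc_succ_top (by omega), ih]
    simp

theorem h63_an_B_of (dens : h63_Dens) (d : ℕ) (hd : 2 ≤ d) (β T : ℕ → ℝ → ℝ) (m0 : ℕ) (s c : ℝ)
    (h : AN d β T m0 s c) :
    ∃ a > (0:ℝ), ∃ M0 : ℕ, ∀ M ≥ M0, ∃ E : Finset ℕ, (E.card : ℝ) ≤ (M : ℝ) ^ (1 - a) ∧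
      ∀ n, M ≤ n → n ≤ 2 * M → n ∉ E → ∃ q1 q2 : ℝ, 0 < q1 ∧ q1 < q2 ∧ q2 ≤ ((d : ℝ) + 3) / n ∧
        β n q1 = (M : ℝ) ^ ((d : ℝ) / 2 + 1 / 20) ∧ β (n - 1) q2 = (M : ℝ) ^ ((d : ℝ) / 2 + 1 / 20) ∧
        (M : ℝ) ^ (-(2 + 1 / 10 : ℝ)) ≤ q2 - q1 := by
  classical
  obtain ⟨j, M1, γ, K⟩ := h63_exK d h.spos h.cpos
  have hj2 := K.hj2
  have hM2 := K.hM2
  have hγ := K.gpos
  have hγ1 := K.g1
  obtain ⟨M0, hM0⟩ := h63_range hd h (6 * M1) (by omega)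
  set L : ℕ := M1 * j with hL
  have hL4 : 4 ≤ L := Nat.mul_le_mul hM2 hj2
  have hLR : (4 : ℝ) ≤ L := by exact_mod_cast hL4
  have hjL : j ≤ L := Nat.le_mul_of_pos_left j (by omega)
  set I0 : ℕ := 16 * L with hI0
  have hI0pos : (0 : ℝ) < I0 := by
    have : 0 < I0 := by omega
    exact_mod_cast this
  have hη : (1 : ℝ) / (4 * L) ≤ 1 / 8 := by
    apply one_div_le_one_div_of_le (by norm_num)
    linarith
  have hspos := h.spos
  obtain ⟨a, ha, M0', hd1⟩ := dens (max 1 (6 ^ (d + 1) / s)) γ (γ ^ I0 / (2 * I0)) (1 / (4 * L))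
    (le_max_left _ _) hγ hγ1 (by positivity) (by positivity) hη (1 / 10) (by norm_num)
  refine ⟨a, ha, max (max M0 M0') (8 * L + d + 4), fun M hM => ?_⟩
  have hMa : M0 ≤ M := (le_max_left _ _).trans ((le_max_left _ _).trans hM)
  have hMb : M0' ≤ M := (le_max_right _ _).trans ((le_max_left _ _).trans hM)
  have hMc : 8 * L + d + 4 ≤ M := (le_max_right _ _).trans hM
  have hMR : (0 : ℝ) < M := by
    have : 0 < M := by omega
    exact_mod_cast this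
  set θ : ℝ := (M : ℝ) ^ ((d : ℝ) / 2 + 1 / 20) with hθ
  have hG : ∀ x, M ≤ 6 * M1 * x → x ≤ 2 * M → h63_G d β m0 c θ x := fun x h1 h2 =>
    hM0 M hMa x h1 h2
  have hM5 : ∀ x, M ≤ 6 * x → M ≤ 6 * M1 * x := by
    intro x hx
    calc M ≤ 6 * x := hx
      _ ≤ 6 * M1 * x := Nat.mul_le_mul_right x (by omega)
  set J : ℕ → ℝ := fun i => h63_q β θ (i - 1) - h63_q β θ i with hJ
  have hJ0 : ∀ i, 0 ≤ J i := fun i => sub_nonneg.2 (h.h63_anti θ (by omega))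
  -- (R1)
  have c1 : ∀ m' m'' : ℕ, M / 2 ≤ m' → m' ≤ m'' → m'' ≤ 2 * M →
        ((m'' - m' + 1 : ℕ) : ℝ) * J m' ≤ max 1 (6 ^ (d + 1) / s) * ∑ i ∈ Finset.Icc m' m'', J i := by
    intro m' m'' h1 h2 h3
    obtain ⟨x, rfl⟩ : ∃ x, m' = x + 1 := ⟨m' - 1, by omega⟩
    have hR := h63_R1 (θ := θ) h (a := x) (b := m'') h2 (hG x (hM5 _ (by omega)) (by omega))
      (hG (x + 1) (hM5 _ (by omega)) (by omega)) (hG m'' (hM5 _ (by omega)) h3)
    have hs : ∑ i ∈ Finset.Icc (x + 1) m'', J i = h63_q β θ x - h63_q β θ m'' := by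
      rw [Finset.Icc_add_one_left_eq_Ioc]
      exact h63_tele (h63_q β θ) (by omega)
    have hJx : J (x + 1) = h63_q β θ x - h63_q β θ (x + 1) := rfl
    rw [hs, hJx]
    have hDn : 0 ≤ h63_q β θ x - h63_q β θ m'' := sub_nonneg.2 (h.h63_anti θ (by omega))
    refine le_trans ?_ (mul_le_mul_of_nonneg_right (le_max_right _ _) hDn)
    have e1 : ((m'' - (x + 1) + 1 : ℕ) : ℝ) = (m'' : ℝ) - x := by
      rw [show m'' - (x + 1) + 1 = m'' - x by omega, Nat.cast_sub (by omega)]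
    rw [e1, div_mul_eq_mul_div, le_div_iff₀ hspos]
    have hxp : (0 : ℝ) < ((x + 1 : ℕ) : ℝ) ^ (d + 1) := by positivity
    have h5 : (m'' : ℝ) ^ (d + 1) ≤ 6 ^ (d + 1) * ((x + 1 : ℕ) : ℝ) ^ (d + 1) := by
      rw [← mul_pow]
      apply pow_le_pow_left₀ (by positivity)
      exact_mod_cast (by omega : m'' ≤ 6 * (x + 1))
    have h6 := hR.trans (mul_le_mul_of_nonneg_right h5 hDn)
    apply le_of_mul_le_mul_left _ hxp
    calc _ = ((m'' : ℝ) - x) * (s * ((x + 1 : ℕ) : ℝ) ^ (d + 1) *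
          (h63_q β θ x - h63_q β θ (x + 1))) := by ring
      _ ≤ _ := h6
      _ = _ := by ring
  -- relation between `k ≤ η M` and naturals
  have hkη : ∀ k : ℕ, (k : ℝ) ≤ 1 / (4 * L) * M → 4 * L * k ≤ M := by
    intro k hk
    rw [div_mul_eq_mul_div, one_mul, le_div_iff₀ (by positivity)] at hk
    have : ((4 * L * k : ℕ) : ℝ) ≤ M := by push_cast; linarith
    exact_mod_cast this
  -- (R2)
  have c2 : ∀ m k : ℕ, 1 ≤ k → (k : ℝ) ≤ 1 / (4 * L) * M → M / 2 + 2 * k ≤ m → m ≤ 2 * M →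
        γ * ∑ i ∈ Finset.Ioc (m - 2 * k) (m - k), J i ≤ ∑ i ∈ Finset.Ioc (m - k) m, J i := by
    intro m k h1 h2 h3 h4
    have h5 := hkη k h2
    rw [h63_tele (h63_q β θ) (show m - 2 * k ≤ m - k by omega),
      h63_tele (h63_q β θ) (show m - k ≤ m by omega)]
    have h6 : j * k ≤ L * k := Nat.mul_le_mul_right k hjL
    have h7 : 4 * L * k = 4 * (L * k) := by ring
    exact K.R2 h k h1 (by omega) (hG m (hM5 _ (by omega)) h4)
      (hG (m - k) (hM5 _ (by omega)) (by omega)) (hG (m - 2 * k) (hM5 _ (by omega)) (by omega))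
  -- (MACRO)
  have c3 : ∀ m : ℕ, M / 2 + ⌊(1 : ℝ) / (4 * L) * M⌋₊ ≤ m → m ≤ 2 * M →
        γ ^ I0 / (2 * I0) / M ≤ ∑ i ∈ Finset.Ioc (m - ⌊(1 : ℝ) / (4 * L) * M⌋₊) m, J i := by
    intro m h3 h4
    set k := ⌊(1 : ℝ) / (4 * L) * M⌋₊ with hk
    have h5 := hkη k (Nat.floor_le (by positivity))
    have h6 : M < 4 * L * (k + 1) := by
      have h8 := Nat.lt_floor_add_one ((1 : ℝ) / (4 * L) * M)
      rw [← hk, div_mul_eq_mul_div, one_mul, div_lt_iff₀ (by positivity)] at h8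
      have : (M : ℝ) < ((4 * L * (k + 1) : ℕ) : ℝ) := by push_cast; linarith
      exact_mod_cast this
    have e1 : 4 * L * (k + 1) = 4 * (L * k) + 4 * L := by ring
    have e2 : 4 * L * k = 4 * (L * k) := by ring
    have e3 : M1 * (j * k) = L * k := by rw [hL]; ring
    have e4 : I0 * k = 16 * (L * k) := by rw [hI0]; ring
    have hk1 : 1 ≤ k := by
      by_contra hc
      have hk0 : k = 0 := by omega
      rw [hk0] at e1
      simp only [Nat.mul_zero] at e1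
      rw [hk0] at h6
      omega
    rw [h63_tele (h63_q β θ) (show m - k ≤ m by omega)]
    have h7 := h63_macro (m := m) (θ := θ) K h k I0 hk1 (by omega) (by omega) (by
      intro x hx1 hx2
      apply hG x _ (by omega)
      have e5 : 6 * M1 * x = 3 * (2 * M1 * x) := by ring
      omega)
    refine le_trans ?_ h7
    have hmR : (0 : ℝ) < m := by
      have : 0 < m := by omega
      exact_mod_cast this
    rw [div_div]
    apply div_le_div_of_nonneg_left (by positivity) (by positivity)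
    have : (m : ℝ) ≤ 2 * M := by exact_mod_cast h4
    nlinarith
  have hfin := hd1 M hMb J hJ0 c1 c2 c3
  refine ⟨_, hfin, fun n hn1 hn2 hnE => ?_⟩
  have hJn : (M : ℝ) ^ (-(2 + 1 / 10 : ℝ)) < J n := by
    by_contra hc
    push Not at hc
    exact hnE (Finset.mem_filter.2 ⟨Finset.mem_Icc.2 ⟨hn1, hn2⟩, hc⟩)
  have hGn := hG n (hM5 _ (by omega)) hn2
  have hGn1 := hG (n - 1) (hM5 _ (by omega)) (by omega)
  refine ⟨h63_q β θ n, h63_q β θ (n - 1), hGn.qpos h, ?_, ?_, hGn.val h, hGn1.val h, hJn.le⟩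
  · have : (0 : ℝ) < (M : ℝ) ^ (-(2 + 1 / 10 : ℝ)) := by positivity
    have h2 : J n = h63_q β θ (n - 1) - h63_q β θ n := rfl
    linarith
  · refine hGn1.qle.trans ?_
    rw [div_le_div_iff₀ hGn1.mpos hGn.mpos, Nat.cast_sub (by omega)]
    have h1 : (((d : ℕ) : ℝ) + 3) ≤ n := by
      exact_mod_cast (by omega : d + 3 ≤ n)
    push_cast
    linarith

end FC
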