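import Pool.Agent.H92.FC.Defs2

set_option autoImplicit false
open Finset Set

/-! Analysis of the thresholds `q_m` : common part of `an_A`, `an_B`. -/

namespace FC

/-- the first `q` with `β m q ≥ θ` (cut at `1`) -/
noncomputable def h63_q (β : ℕ → ℝ → ℝ) (θ : ℝ) (m : ℕ) : ℝ :=
  sInf (insert 1 {q | 0 ≤ q ∧ q ≤ 1 ∧ θ ≤ β m q})

section
variable {d : ℕ} {β T : ℕ → ℝ → ℝ} {m0 : ℕ} {s c : ℝ}

theorem AN.h63_cont (h : AN d β T m0 s c) (m : ℕ) : Continuous (β m) :=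
  continuous_iff_continuousAt.2 (fun q => (h.der m q).continuousAt)

theorem AN.h63_diff (h : AN d β T m0 s c) (m : ℕ) : Differentiable ℝ (β m) :=
  fun q => (h.der m q).differentiableAt

theorem AN.h63_lower (h : AN d β T m0 s c) (m : ℕ) {q q' L : ℝ} (h0 : 0 ≤ q) (h1 : q ≤ q')
    (h2 : q' ≤ 1) (hL : L ≤ T m q) : L * (q' - q) ≤ β m q' - β m q := by
  apply (convex_Icc q q').mul_sub_le_image_sub_of_le_deriv (h.h63_cont m).continuousOn
    ((h.h63_diff m).differentiableOn)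
  · intro x hx
    rw [interior_Icc] at hx
    rw [(h.der m x).deriv]
    exact hL.trans (h.T_mono m q x h0 hx.1.le (hx.2.le.trans h2))
  · exact ⟨le_rfl, h1⟩
  · exact ⟨h1, le_rfl⟩
  · exact h1

theorem AN.h63_upper (h : AN d β T m0 s c) (m : ℕ) {q q' : ℝ} (h0 : 0 ≤ q) (h1 : q ≤ q')
    (h2 : q' ≤ 1) : β m q' - β m q ≤ (m.choose (d + 1) : ℝ) * (q' - q) := by
  apply (convex_Icc q q').image_sub_le_mul_sub_of_deriv_le (h.h63_cont m).continuousOn
    ((h.h63_diff m).differentiableOn)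
  · intro x hx
    rw [interior_Icc] at hx
    rw [(h.der m x).deriv]
    exact h.T_le m x (h0.trans hx.1.le) (hx.2.le.trans h2)
  · exact ⟨le_rfl, h1⟩
  · exact ⟨h1, le_rfl⟩
  · exact h1

theorem AN.h63_mono (h : AN d β T m0 s c) (m : ℕ) {q q' : ℝ} (h0 : 0 ≤ q) (h1 : q ≤ q')
    (h2 : q' ≤ 1) : β m q ≤ β m q' := by
  have := h.h63_lower m h0 h1 h2 (h.T_nonneg m q h0 (h1.trans h2))
  linarith

/-- `T m q` is not needed below: lower bound of `β` with the derivative in the left end point -/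
theorem AN.h63_monom (h : AN d β T m0 s c) {m m' : ℕ} (hm : m ≤ m') {q : ℝ} (h0 : 0 ≤ q)
    (h1 : q ≤ 1) : β m q ≤ β m' q := by
  induction hm with
  | refl => exact le_rfl
  | step _ ih => exact ih.trans (h.mono _ q h0 h1)

theorem h63_bdd (β : ℕ → ℝ → ℝ) (θ : ℝ) (m : ℕ) :
    BddBelow (insert 1 {q | 0 ≤ q ∧ q ≤ 1 ∧ θ ≤ β m q}) :=
  ⟨0, by
    rintro x (rfl | hx)
    · exact zero_le_one
    · exact hx.1⟩

theorem h63_q_nonneg (β : ℕ → ℝ → ℝ) (θ : ℝ) (m : ℕ) : 0 ≤ h63_q β θ m := by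
  apply le_csInf (Set.insert_nonempty _ _)
  rintro x (rfl | hx)
  · exact zero_le_one
  · exact hx.1

theorem h63_q_le_one (β : ℕ → ℝ → ℝ) (θ : ℝ) (m : ℕ) : h63_q β θ m ≤ 1 :=
  csInf_le (h63_bdd β θ m) (Or.inl rfl)

theorem h63_q_le {θ : ℝ} {m : ℕ} {x : ℝ} (h0 : 0 ≤ x) (h1 : x ≤ 1) (h2 : θ ≤ β m x) :
    h63_q β θ m ≤ x := csInf_le (h63_bdd β θ m) (Or.inr ⟨h0, h1, h2⟩)

theorem h63_lt {θ : ℝ} {m : ℕ} {x : ℝ} (h0 : 0 ≤ x) (h2 : x < h63_q β θ m) : β m x < θ := by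
  by_contra hc
  push Not at hc
  exact absurd (h63_q_le h0 (h2.le.trans (h63_q_le_one β θ m)) hc) (not_le.2 h2)

theorem AN.h63_anti (h : AN d β T m0 s c) (θ : ℝ) {m m' : ℕ} (hm : m ≤ m') :
    h63_q β θ m' ≤ h63_q β θ m := by
  apply le_csInf (Set.insert_nonempty _ _)
  rintro x (rfl | hx)
  · exact h63_q_le_one β θ m'
  · exact h63_q_le hx.1 hx.2.1 (hx.2.2.trans (h.h63_monom hm hx.1 hx.2.1))

/-- the value at the threshold -/
theorem AN.h63_val (h : AN d β T m0 s c) {θ : ℝ} (hθ : 0 < θ) {m : ℕ} {x : ℝ} (h0 : 0 ≤ x)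
    (h1 : x ≤ 1) (h2 : θ ≤ β m x) : β m (h63_q β θ m) = θ := by
  -- an exact solution
  have hmem : θ ∈ Icc (β m 0) (β m x) := ⟨by rw [h.zero]; exact hθ.le, h2⟩
  obtain ⟨y, hy, hyθ⟩ := intermediate_value_Icc h0 (h.h63_cont m).continuousOn hmem
  apply le_antisymm
  · rw [← hyθ]
    apply h.h63_mono m
    · rw [hyθ]; exact h63_q_nonneg β θ m
    · rw [hyθ]; exact h63_q_le hy.1 (hy.2.trans h1) hyθ.ge
    · exact hy.2.trans h1
  · -- otherwise `β m < θ` near the threshold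
    by_contra hc
    push Not at hc
    have hlt : h63_q β θ m < y := by
      rcases (h63_q_le (θ := θ) (m := m) hy.1 (hy.2.trans h1) hyθ.ge).lt_or_eq with h3 | h3
      · exact h3
      · rw [h3, hyθ] at hc; exact absurd hc (lt_irrefl _)
    have hopen : ∀ᶠ z in nhds (h63_q β θ m), β m z < θ :=
      (h.h63_cont m).continuousAt.eventually (gt_mem_nhds hc)
    obtain ⟨ε, hε, hball⟩ := Metric.eventually_nhds_iff.1 hopen
    have hz : h63_q β θ m < h63_q β θ m + min (ε / 2) (y - h63_q β θ m) := by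
      have : 0 < min (ε / 2) (y - h63_q β θ m) := lt_min (by linarith) (by linarith)
      linarith
    obtain ⟨w, hw, hwlt⟩ := exists_lt_of_csInf_lt
      (⟨1, Or.inl rfl⟩ : (insert 1 {q | 0 ≤ q ∧ q ≤ 1 ∧ θ ≤ β m q} : Set ℝ).Nonempty) hz
    have hwge : h63_q β θ m ≤ w := csInf_le (h63_bdd β θ m) hw
    have hw1 : w < h63_q β θ m + ε := by
      have := min_le_left (ε / 2) (y - h63_q β θ m); linarith
    have hw2 : w < y := by
      have := min_le_right (ε / 2) (y - h63_q β θ m); linarith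
    have hw3 : β m w < θ := by
      apply hball
      rw [Real.dist_eq, abs_of_nonneg (by linarith)]
      linarith
    rcases hw with rfl | hw
    · linarith [hy.2]
    · exact absurd hw.2.2 (not_le.2 hw3)

end

/-- `m` is in the good range for `θ` -/
structure h63_G (d : ℕ) (β : ℕ → ℝ → ℝ) (m0 : ℕ) (c θ : ℝ) (m : ℕ) : Prop where
  pos : 0 < θ
  hm0 : m0 ≤ m
  hd : d + 3 ≤ m
  hc : c ≤ m
  lo : (m : ℝ) ^ ((d : ℝ) / 2 + 1 / 100) < θ
  hi : θ ≤ β m (((d : ℝ) + 2) / m)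

section
variable {d : ℕ} {β T : ℕ → ℝ → ℝ} {m0 : ℕ} {s c θ : ℝ} {m : ℕ}

theorem h63_G.mpos (g : h63_G d β m0 c θ m) : (0 : ℝ) < m := by
  have := g.hd
  have : 0 < m := by omega
  exact_mod_cast this

theorem h63_G.dle (g : h63_G d β m0 c θ m) : ((d : ℝ) + 3) / m ≤ 1 := by
  rw [div_le_one g.mpos]
  exact_mod_cast g.hd

theorem h63_G.d2le (g : h63_G d β m0 c θ m) : ((d : ℝ) + 2) / m ≤ 1 :=
  (div_le_div_of_nonneg_right (by linarith) g.mpos.le).trans g.dle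

theorem h63_G.val (h : AN d β T m0 s c) (g : h63_G d β m0 c θ m) : β m (h63_q β θ m) = θ :=
  h.h63_val g.pos (by have := g.mpos; positivity) g.d2le g.hi

theorem h63_G.qle (g : h63_G d β m0 c θ m) : h63_q β θ m ≤ ((d : ℝ) + 2) / m :=
  h63_q_le (by have := g.mpos; positivity) g.d2le g.hi

theorem h63_G.qge (h : AN d β T m0 s c) (g : h63_G d β m0 c θ m) : c / m < h63_q β θ m := by
  by_contra hc
  push Not at hc
  have h1 := h.low m g.hm0
  have h2 := h.h63_mono m (h63_q_nonneg β θ m) hc ((div_le_one g.mpos).2 g.hc)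
  rw [g.val h] at h2
  linarith [g.lo]

theorem h63_G.qpos (h : AN d β T m0 s c) (g : h63_G d β m0 c θ m) : 0 < h63_q β θ m :=
  (div_pos h.cpos g.mpos).trans (g.qge h)

theorem h63_G.big (h : AN d β T m0 s c) (g : h63_G d β m0 c θ m) {q : ℝ} (h1 : h63_q β θ m ≤ q)
    (h2 : q ≤ ((d : ℝ) + 3) / m) : s * (m : ℝ) ^ (d + 1) ≤ T m q := by
  apply h.big m g.hm0 q ((g.qpos h).trans_le h1) h2
  have h3 := h.h63_mono m (h63_q_nonneg β θ m) h1 (h2.trans g.dle)
  rw [g.val h] at h3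
  exact g.lo.le.trans h3

/-- upper estimate: `β_m(q_a) - θ ≤ N_m (q_a - q_m)` for `a ≤ m` -/
theorem h63_G.up (h : AN d β T m0 s c) (g : h63_G d β m0 c θ m) {a : ℕ} (ha : a ≤ m) :
    β m (h63_q β θ a) - θ ≤ (m : ℝ) ^ (d + 1) * (h63_q β θ a - h63_q β θ m) := by
  have h1 := h.h63_upper m (h63_q_nonneg β θ m) (h.h63_anti θ ha) (h63_q_le_one β θ a)
  rw [g.val h] at h1
  refine h1.trans (mul_le_mul_of_nonneg_right ?_ (sub_nonneg.2 (h.h63_anti θ ha)))
  exact_mod_cast Nat.choose_le_pow m (d + 1)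

/-- **R2** -/
theorem h63_R2 (h : AN d β T m0 s c) (j : ℕ) (hj : (2 : ℝ) ^ (d + 2) ≤ s * j) (hj2 : 2 ≤ j)
    (k : ℕ) (hk : 1 ≤ k) (hjk : j * k ≤ m) (g : h63_G d β m0 c θ m)
    (g1 : h63_G d β m0 c θ (m - k)) (g2 : h63_G d β m0 c θ (m - 2 * k)) :
    s / (2 ^ (d + 1) * j) * (h63_q β θ (m - 2 * k) - h63_q β θ (m - k)) ≤
      h63_q β θ (m - k) - h63_q β θ m := by
  set q := h63_q β θ (m - k) with hq
  set y := h63_q β θ (m - 2 * k) - q with hy
  have h2k : 2 * k ≤ m := by nlinarith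
  have hy0 : 0 ≤ y := sub_nonneg.2 (h.h63_anti θ (by omega))
  have hqy : q + y = h63_q β θ (m - 2 * k) := by rw [hy]; ring
  have hr := h.r2 m k j q y hk hj2 hjk (h63_q_nonneg β θ _) hy0
    (by rw [hqy]; exact h63_q_le_one β θ _)
  rw [hqy, g2.val h, hq, g1.val h, ← hq] at hr
  have hup := g.up h (show m - k ≤ m by omega)
  rw [← hq] at hup
  -- `T_{m-k}(q) ≥ s (m-k)^(d+1) ≥ s (m/2)^(d+1)`
  have hT : s * ((m : ℝ) / 2) ^ (d + 1) ≤ T (m - k) q := by
    have h1 := g1.big h (le_refl q) ((g1.qle).trans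
      (div_le_div_of_nonneg_right (by linarith) g1.mpos.le))
    refine le_trans ?_ h1
    apply mul_le_mul_of_nonneg_left _ h.spos.le
    apply pow_le_pow_left₀ (by positivity)
    rw [Nat.cast_sub (by omega)]
    have : (2 * k : ℝ) ≤ m := by exact_mod_cast h2k
    linarith
  have hmpos := g.mpos
  have hN : ((m.choose (d + 1) : ℕ) : ℝ) ≤ (m : ℝ) ^ (d + 1) := by
    exact_mod_cast Nat.choose_le_pow m (d + 1)
  have hNpos : (0 : ℝ) < (m.choose (d + 1) : ℝ) := by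
    have := Nat.choose_pos (show d + 1 ≤ m by have := g.hd; omega)
    exact_mod_cast this
  have hjpos : (0 : ℝ) < j := by
    have : 0 < j := by omega
    exact_mod_cast this
  have hspos := h.spos
  -- the factor is at least one
  have hfac : (1 : ℝ) ≤ (j : ℝ) * T (m - k) q / (m.choose (d + 1) : ℝ) - 1 := by
    have h1 : (2 : ℝ) * (m : ℝ) ^ (d + 1) ≤ (j : ℝ) * T (m - k) q := by
      calc (2 : ℝ) * (m : ℝ) ^ (d + 1) = 2 ^ (d + 2) * ((m : ℝ) / 2) ^ (d + 1) := by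
            rw [div_pow, pow_succ (2 : ℝ) (d + 1)]
            field_simp
        _ ≤ (s * j) * ((m : ℝ) / 2) ^ (d + 1) := mul_le_mul_of_nonneg_right hj (by positivity)
        _ = (j : ℝ) * (s * ((m : ℝ) / 2) ^ (d + 1)) := by ring
        _ ≤ (j : ℝ) * T (m - k) q := mul_le_mul_of_nonneg_left hT hjpos.le
    have h2 : (2 : ℝ) ≤ (j : ℝ) * T (m - k) q / (m.choose (d + 1) : ℝ) := by
      rw [le_div_iff₀ hNpos]
      exact (mul_le_mul_of_nonneg_left hN (by norm_num)).trans h1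
    linarith
  have hTnn : 0 ≤ T (m - k) q := le_trans (by positivity) hT
  have hchain : y * (s * ((m : ℝ) / 2) ^ (d + 1)) ≤
      (j : ℝ) * ((m : ℝ) ^ (d + 1) * (q - h63_q β θ m)) := by
    calc y * (s * ((m : ℝ) / 2) ^ (d + 1)) ≤ y * T (m - k) q := mul_le_mul_of_nonneg_left hT hy0
      _ = y * T (m - k) q * 1 := by ring
      _ ≤ y * T (m - k) q * ((j : ℝ) * T (m - k) q / (m.choose (d + 1) : ℝ) - 1) :=
          mul_le_mul_of_nonneg_left hfac (mul_nonneg hy0 hTnn)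
      _ ≤ ((j : ℝ) - 1) * (β m q - 2 * θ + θ) := hr
      _ = ((j : ℝ) - 1) * (β m q - θ) := by ring
      _ ≤ ((j : ℝ) - 1) * ((m : ℝ) ^ (d + 1) * (q - h63_q β θ m)) := by
          apply mul_le_mul_of_nonneg_left hup
          have : (2 : ℝ) ≤ j := by exact_mod_cast hj2
          linarith
      _ ≤ (j : ℝ) * ((m : ℝ) ^ (d + 1) * (q - h63_q β θ m)) := by
          apply mul_le_mul_of_nonneg_right (by linarith)
          apply mul_nonneg (by positivity)
          exact sub_nonneg.2 (h.h63_anti θ (by omega))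
  rw [div_mul_eq_mul_div, div_le_iff₀ (by positivity)]
  have hmp : (0 : ℝ) < (m : ℝ) ^ (d + 1) := by positivity
  have h5 : y * (s * (m : ℝ) ^ (d + 1)) ≤
      2 ^ (d + 1) * ((j : ℝ) * ((m : ℝ) ^ (d + 1) * (q - h63_q β θ m))) := by
    have := mul_le_mul_of_nonneg_left hchain (show (0 : ℝ) ≤ 2 ^ (d + 1) by positivity)
    calc y * (s * (m : ℝ) ^ (d + 1)) = 2 ^ (d + 1) * (y * (s * ((m : ℝ) / 2) ^ (d + 1))) := by
          rw [div_pow]; field_simp
      _ ≤ _ := this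
  have h6 : (m : ℝ) ^ (d + 1) * (s * y) ≤
      (m : ℝ) ^ (d + 1) * ((q - h63_q β θ m) * (2 ^ (d + 1) * (j : ℝ))) := by
    calc (m : ℝ) ^ (d + 1) * (s * y) = y * (s * (m : ℝ) ^ (d + 1)) := by ring
      _ ≤ _ := h5
      _ = _ := by ring
  exact le_of_mul_le_mul_left h6 hmp

/-- **R1** -/
theorem h63_R1 (h : AN d β T m0 s c) {a b : ℕ} (hab : a + 1 ≤ b)
    (ga : h63_G d β m0 c θ a) (ga1 : h63_G d β m0 c θ (a + 1)) (gb : h63_G d β m0 c θ b) :
    ((b : ℝ) - a) * (s * ((a + 1 : ℕ) : ℝ) ^ (d + 1) * (h63_q β θ a - h63_q β θ (a + 1))) ≤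
      (b : ℝ) ^ (d + 1) * (h63_q β θ a - h63_q β θ b) := by
  set q := h63_q β θ a with hq
  have hq0 : 0 ≤ q := h63_q_nonneg β θ a
  have hq1 : q ≤ 1 := h63_q_le_one β θ a
  -- increments are increasing
  have hinc : ∀ i, β (i + 1) q - β i q ≤ β (i + 2) q - β (i + 1) q := by
    intro i
    have := h.conv i q hq0 hq1
    linarith
  have hinc2 : ∀ n, β (a + 1) q - β a q ≤ β (a + n + 1) q - β (a + n) q := by
    intro n
    induction n with
    | zero => exact le_rfl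
    | succ n ih => exact ih.trans (hinc (a + n))
  have hsum : ∀ n : ℕ, (n : ℝ) * (β (a + 1) q - β a q) ≤ β (a + n) q - β a q := by
    intro n
    induction n with
    | zero => simp
    | succ n ih =>
      have := hinc2 n
      have e : a + (n + 1) = a + n + 1 := by ring
      rw [e]
      push_cast
      nlinarith
  have h1 := hsum (b - a)
  have e1 : a + (b - a) = b := by omega
  rw [e1, Nat.cast_sub (by omega), hq, ga.val h, ← hq] at h1
  have h2 := gb.up h (show a ≤ b by omega)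
  rw [← hq] at h2
  have h3 : s * ((a + 1 : ℕ) : ℝ) ^ (d + 1) * (q - h63_q β θ (a + 1)) ≤ β (a + 1) q - θ := by
    have h4 := h.h63_lower (a + 1) (L := s * ((a + 1 : ℕ) : ℝ) ^ (d + 1))
      (h63_q_nonneg β θ (a + 1)) (h.h63_anti θ (show a ≤ a + 1 by omega)) hq1 ?_
    · rw [ga1.val h] at h4
      exact h4
    · apply ga1.big h le_rfl
      exact ga1.qle.trans (div_le_div_of_nonneg_right (by linarith) ga1.mpos.le)
  have hba : (0 : ℝ) ≤ (b : ℝ) - a := by
    have : (a : ℝ) + 1 ≤ b := by exact_mod_cast hab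
    linarith
  exact (mul_le_mul_of_nonneg_left h3 hba).trans (h1.trans h2)

end

/-- the good range, asymptotically -/
theorem h63_range {d : ℕ} (hd : 2 ≤ d) {β T : ℕ → ℝ → ℝ} {m0 : ℕ} {s c : ℝ}
    (h : AN d β T m0 s c) (M1 : ℕ) (hM1 : 1 ≤ M1) :
    ∃ M0 : ℕ, ∀ M ≥ M0, ∀ m : ℕ, M ≤ M1 * m → m ≤ 2 * M →
      h63_G d β m0 c ((M : ℝ) ^ ((d : ℝ) / 2 + 1 / 20)) m := by
  have hd' : (2 : ℝ) ≤ d := by exact_mod_cast hd
  -- two asymptotic conditions
  have e1 : ∀ᶠ M : ℕ in Filter.atTop, (2 : ℝ) ^ ((d : ℝ) / 2 + 1 / 100) < (M : ℝ) ^ (1 / 25 : ℝ) := by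
    have := (tendsto_rpow_atTop (show (0 : ℝ) < 1 / 25 by norm_num)).comp
      (tendsto_natCast_atTop_atTop (R := ℝ))
    exact this.eventually_gt_atTop _
  have e2 : ∀ᶠ M : ℕ in Filter.atTop,
      (M1 : ℝ) ^ d * (2 ^ d * (d.factorial : ℝ) * (2 * ((d : ℝ) + 1))) ≤
        (M : ℝ) ^ ((d : ℝ) / 2 - 1 / 20 : ℝ) := by
    have := (tendsto_rpow_atTop (show (0 : ℝ) < (d : ℝ) / 2 - 1 / 20 by linarith)).comp
      (tendsto_natCast_atTop_atTop (R := ℝ))
    exact this.eventually_ge_atTop _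
  obtain ⟨A, hA⟩ := Filter.eventually_atTop.1 (e1.and e2)
  obtain ⟨Bc, hBc⟩ := exists_nat_ge c
  refine ⟨max A (M1 * (m0 + Bc + 2 * d * (d + 2) + d + 3 + 1)), fun M hM m h1 h2 => ?_⟩
  obtain ⟨ha1, ha2⟩ := hA M (le_trans (le_max_left _ _) hM)
  have hbig : M1 * (m0 + Bc + 2 * d * (d + 2) + d + 3 + 1) ≤ M1 * m :=
    (le_trans (le_max_right _ _) hM).trans h1
  have hm : m0 + Bc + 2 * d * (d + 2) + d + 3 + 1 ≤ m := Nat.le_of_mul_le_mul_left hbig (by omega)
  have hmpos : 0 < m := by omega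
  have hMpos : 0 < M := by omega
  have hMR : (0 : ℝ) < M := by exact_mod_cast hMpos
  have hmR : (0 : ℝ) < m := by exact_mod_cast hmpos
  have hm2 : (m : ℝ) ≤ 2 * M := by exact_mod_cast h2
  refine ⟨by positivity, by nlinarith, by nlinarith, ?_, ?_, ?_⟩
  · refine hBc.trans ?_
    exact_mod_cast (by omega : Bc ≤ m)
  · calc (m : ℝ) ^ ((d : ℝ) / 2 + 1 / 100) ≤ (2 * (M : ℝ)) ^ ((d : ℝ) / 2 + 1 / 100) :=
          Real.rpow_le_rpow hmR.le hm2 (by positivity)
      _ = 2 ^ ((d : ℝ) / 2 + 1 / 100) * (M : ℝ) ^ ((d : ℝ) / 2 + 1 / 100) :=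
          Real.mul_rpow (by norm_num) hMR.le
      _ < (M : ℝ) ^ (1 / 25 : ℝ) * (M : ℝ) ^ ((d : ℝ) / 2 + 1 / 100) :=
          mul_lt_mul_of_pos_right ha1 (by positivity)
      _ = (M : ℝ) ^ ((d : ℝ) / 2 + 1 / 20) := by
          rw [← Real.rpow_add hMR]
          congr 1
          ring
  · -- lower bound of `β m ((d+2)/m)`
    have hdm : d ≤ m := by nlinarith
    have hlin := h.lin m (((d : ℝ) + 2) / m) (by positivity) (by
      rw [div_le_one hmR]
      exact_mod_cast (by nlinarith : d + 2 ≤ m))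
    have hch : ((m.choose (d + 1) : ℕ) : ℝ) * ((d : ℝ) + 1) = (m.choose d : ℝ) * ((m : ℝ) - d) := by
      have := Nat.choose_succ_right_eq m d
      have h3 : ((m.choose (d + 1) * (d + 1) : ℕ) : ℝ) = ((m.choose d * (m - d) : ℕ) : ℝ) := by
        rw [this]
      push_cast [Nat.cast_sub hdm] at h3
      exact h3
    have hcd : (0 : ℝ) ≤ (m.choose d : ℝ) := by positivity
    have hm3 : 2 * (d : ℝ) * (d + 2) ≤ m := by
      exact_mod_cast (by omega : 2 * d * (d + 2) ≤ m)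
    have hlow : (m.choose d : ℝ) / (2 * ((d : ℝ) + 1)) ≤
        (m.choose (d + 1) : ℝ) * (((d : ℝ) + 2) / m) - (m.choose d : ℝ) := by
      have e3 : (m.choose (d + 1) : ℝ) = (m.choose d : ℝ) * ((m : ℝ) - d) / ((d : ℝ) + 1) := by
        rw [eq_div_iff (by positivity)]; exact hch
      rw [e3]
      have e4 : (m.choose d : ℝ) * ((m : ℝ) - d) / ((d : ℝ) + 1) * (((d : ℝ) + 2) / m) -
          (m.choose d : ℝ) - (m.choose d : ℝ) / (2 * ((d : ℝ) + 1)) =
          (m.choose d : ℝ) * ((m / 2 - d * (d + 2)) / (((d : ℝ) + 1) * m)) := by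
        field_simp
        ring
      have e5 : 0 ≤ (m.choose d : ℝ) * (((m : ℝ) / 2 - d * (d + 2)) / (((d : ℝ) + 1) * m)) := by
        apply mul_nonneg hcd
        apply div_nonneg _ (by positivity)
        linarith
      linarith
    have hpow : ((m : ℝ) / 2) ^ d / (d.factorial : ℝ) ≤ (m.choose d : ℝ) := by
      have h4 := Nat.pow_le_choose (α := ℝ) d m
      refine le_trans ?_ h4
      apply div_le_div_of_nonneg_right _ (by positivity)
      apply pow_le_pow_left₀ (by positivity)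
      rw [Nat.cast_sub (by omega)]
      push_cast
      have : (2 * d : ℝ) ≤ m := by
        have : 2 * d ≤ m := by nlinarith
        exact_mod_cast this
      linarith
    have hmM : (M : ℝ) / M1 ≤ m := by
      rw [div_le_iff₀ (by exact_mod_cast hM1)]
      have : (M : ℝ) ≤ M1 * m := by exact_mod_cast h1
      linarith
    have hM1R : (0 : ℝ) < M1 := by exact_mod_cast hM1
    have hfin : (M : ℝ) ^ ((d : ℝ) / 2 + 1 / 20) ≤
        ((M : ℝ) / M1 / 2) ^ d / (d.factorial : ℝ) / (2 * ((d : ℝ) + 1)) := by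
      rw [le_div_iff₀ (by positivity), le_div_iff₀ (by positivity), div_div, div_pow, mul_pow,
        le_div_iff₀ (by positivity)]
      calc (M : ℝ) ^ ((d : ℝ) / 2 + 1 / 20) * (2 * ((d : ℝ) + 1)) * (d.factorial : ℝ) *
            ((M1 : ℝ) ^ d * 2 ^ d) =
          (M : ℝ) ^ ((d : ℝ) / 2 + 1 / 20) *
            ((M1 : ℝ) ^ d * (2 ^ d * (d.factorial : ℝ) * (2 * ((d : ℝ) + 1)))) := by ring
        _ ≤ (M : ℝ) ^ ((d : ℝ) / 2 + 1 / 20) * (M : ℝ) ^ ((d : ℝ) / 2 - 1 / 20 : ℝ) :=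
            mul_le_mul_of_nonneg_left ha2 (by positivity)
        _ = (M : ℝ) ^ d := by
            rw [← Real.rpow_add hMR, ← Real.rpow_natCast]
            congr 1
            ring
    calc (M : ℝ) ^ ((d : ℝ) / 2 + 1 / 20) ≤
          ((M : ℝ) / M1 / 2) ^ d / (d.factorial : ℝ) / (2 * ((d : ℝ) + 1)) := hfin
      _ ≤ ((m : ℝ) / 2) ^ d / (d.factorial : ℝ) / (2 * ((d : ℝ) + 1)) := by
          apply div_le_div_of_nonneg_right _ (by positivity)
          apply div_le_div_of_nonneg_right _ (by positivity)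
          apply pow_le_pow_left₀ (by positivity)
          linarith
      _ ≤ (m.choose d : ℝ) / (2 * ((d : ℝ) + 1)) := div_le_div_of_nonneg_right hpow (by positivity)
      _ ≤ _ := hlow
      _ ≤ _ := hlin

end FC
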