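import Pool.Agent.H92.FC.Path
import Pool.Agent.H92.FC.Transfer

/-!
# First emerging cycle: nested pairs of random sets
-/

namespace FC

open Finset

theorem Ex2_insert {α : Type*} [DecidableEq α] (G : Finset α) (a : α) (ha : a ∉ G) (q p : ℝ)
    (f : Finset α → Finset α → ℝ) :
    Ex2 (insert a G) q p f = (1 - q) * Ex2 G q p f +
      q * (1 - p) * Ex2 G q p (fun X Y => f X (insert a Y)) +
      q * p * Ex2 G q p (fun X Y => f (insert a X) (insert a Y)) := by
  unfold Ex2
  rw [Ex_insert G a ha]
  have h : Ex G q (fun Y => Ex (insert a Y) p (fun X => f X (insert a Y))) =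
      (1 - p) * Ex G q (fun Y => Ex Y p (fun X => f X (insert a Y))) +
      p * Ex G q (fun Y => Ex Y p (fun X => f (insert a X) (insert a Y))) := by
    rw [← Ex_mul, ← Ex_mul, ← Ex_add]
    refine Ex_congr _ _ _ _ fun Y hY => ?_
    exact Ex_insert Y a (fun h => ha (hY h)) p _
  rw [h]; ring

theorem Ex2_forward {α : Type*} [DecidableEq α] (G : Finset α) (q p : ℝ) (hq0 : 0 ≤ q)
    (hq1 : q ≤ 1) (hp0 : 0 ≤ p) (hp1 : p ≤ 1) (hqp : q * p < 1)
    (f : Finset α → Finset α → ℝ) :
    Ex2 G q p f = Ex G (q * p) (fun X => Ex (G \ X) (q * (1 - p) / (1 - q * p))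
      (fun Z => f X (X ∪ Z))) := by
  induction G using Finset.induction_on generalizing f with
  | empty => simp [Ex2, Ex_empty]
  | insert a G ha ih =>
    rw [Ex2_insert G a ha, ih, ih, ih]
    set y : ℝ := q * (1 - p) / (1 - q * p) with hy
    have hden : 1 - q * p ≠ 0 := by
      have : 0 < 1 - q * p := by linarith
      exact this.ne'
    have hy1 : (1 - q * p) * y = q * (1 - p) := by rw [hy]; field_simp
    rw [Ex_insert G a ha (q * p)]
    have h1 : Ex G (q * p) (fun X => Ex (insert a G \ X) y (fun Z => f X (X ∪ Z))) =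
        (1 - y) * Ex G (q * p) (fun X => Ex (G \ X) y (fun Z => f X (X ∪ Z))) +
        y * Ex G (q * p) (fun X => Ex (G \ X) y (fun Z => f X (insert a (X ∪ Z)))) := by
      rw [← Ex_mul, ← Ex_mul, ← Ex_add]
      refine Ex_congr _ _ _ _ fun X hX => ?_
      have haX : a ∉ X := fun h => ha (hX h)
      have e1 : insert a G \ X = insert a (G \ X) := Finset.insert_sdiff_of_notMem G haX
      rw [e1, Ex_insert (G \ X) a (fun h => ha (Finset.mem_sdiff.1 h).1) y]
      simp only [Finset.union_insert]
    have h2 : Ex G (q * p) (fun X => Ex (insert a G \ insert a X) y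
          (fun Z => f (insert a X) (insert a X ∪ Z))) =
        Ex G (q * p) (fun X => Ex (G \ X) y (fun Z => f (insert a X) (insert a (X ∪ Z)))) := by
      refine Ex_congr _ _ _ _ fun X hX => ?_
      have haX : a ∉ X := fun h => ha (hX h)
      have e1 : insert a G \ insert a X = G \ X := by
        ext z; simp only [mem_sdiff, mem_insert, not_or]
        constructor
        · rintro ⟨h1 | h1, h2, h3⟩
          · exact absurd h1 h2
          · exact ⟨h1, h3⟩
        · rintro ⟨h1, h2⟩
          exact ⟨Or.inr h1, fun h => ha (h ▸ h1), h2⟩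
      rw [e1]
      simp only [Finset.insert_union]
    rw [h1, h2]
    have e1 : (1 - q * p) * (1 - y) = 1 - q := by
      have : (1 - q * p) * (1 - y) = (1 - q * p) - (1 - q * p) * y := by ring
      rw [this, hy1]; ring
    calc _ = (1 - q) * Ex G (q * p) (fun X => Ex (G \ X) y (fun Z => f X (X ∪ Z))) +
          q * (1 - p) * Ex G (q * p)
            (fun X => Ex (G \ X) y (fun Z => f X (insert a (X ∪ Z)))) +
          q * p * Ex G (q * p)
            (fun X => Ex (G \ X) y (fun Z => f (insert a X) (insert a (X ∪ Z)))) := rfl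
      _ = (1 - q * p) * (1 - y) * Ex G (q * p)
            (fun X => Ex (G \ X) y (fun Z => f X (X ∪ Z))) +
          (1 - q * p) * y * Ex G (q * p)
            (fun X => Ex (G \ X) y (fun Z => f X (insert a (X ∪ Z)))) +
          q * p * Ex G (q * p)
            (fun X => Ex (G \ X) y (fun Z => f (insert a X) (insert a (X ∪ Z)))) := by
          rw [e1, hy1]
      _ = _ := by ring

/-- the binomial weights are maximal at the mean -/
theorem h27_mode (t s k : ℕ) (hk : k ≤ t + s) :
    (t + s).choose k * t ^ k * s ^ (t + s - k) ≤ (t + s).choose t * t ^ t * s ^ s := by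
  rcases Nat.eq_zero_or_pos s with hs | hs
  · subst hs
    rcases hk.lt_or_eq with h | h
    · rw [zero_pow (by omega)]; simp
    · rw [h]; simp
  have step : ∀ k, k < t + s → ((t + s).choose (k + 1) * t ^ (k + 1) * s ^ (t + s - (k + 1))) *
      ((k + 1) * s) = ((t + s).choose k * t ^ k * s ^ (t + s - k)) * ((t + s - k) * t) := by
    intro k hk
    have e1 : (t + s).choose (k + 1) * (k + 1) = (t + s).choose k * (t + s - k) :=
      Nat.choose_succ_right_eq (t + s) k
    have e2 : s ^ (t + s - k) = s ^ (t + s - (k + 1)) * s := by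
      rw [← pow_succ]; congr 1; omega
    rw [e2]
    calc _ = ((t + s).choose (k + 1) * (k + 1)) * t ^ (k + 1) * (s ^ (t + s - (k + 1)) * s) := by
          ring
      _ = _ := by rw [e1]; ring
  rcases le_total k t with h | h
  · -- increasing below the mean
    obtain ⟨m, hm⟩ := Nat.exists_eq_add_of_le h
    have gen : ∀ m ≤ t, (t + s).choose (t - m) * t ^ (t - m) * s ^ (t + s - (t - m)) ≤
        (t + s).choose t * t ^ t * s ^ s := by
      intro m
      induction m with
      | zero => intro _; simp
      | succ m ih =>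
        intro hm
        refine le_trans ?_ (ih (by omega))
        have hst := step (t - (m + 1)) (by omega)
        have e0 : t - (m + 1) + 1 = t - m := by omega
        rw [e0] at hst
        have hpos : 0 < (t - m) * s := Nat.mul_pos (by omega) hs
        have hle : (t - m) * s ≤ (t + s - (t - (m + 1))) * t := by
          have a1 : t - m ≤ t := by omega
          have a2 : s ≤ t + s - (t - (m + 1)) := by omega
          calc (t - m) * s ≤ t * (t + s - (t - (m + 1))) := Nat.mul_le_mul a1 a2
            _ = _ := Nat.mul_comm _ _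
        have : (t + s).choose (t - (m + 1)) * t ^ (t - (m + 1)) * s ^ (t + s - (t - (m + 1))) *
            ((t - m) * s) ≤ (t + s).choose (t - m) * t ^ (t - m) * s ^ (t + s - (t - m)) *
            ((t - m) * s) := by
          rw [hst]
          exact Nat.mul_le_mul_left _ hle
        exact Nat.le_of_mul_le_mul_right this hpos
    have := gen m (by omega)
    have e : t - m = k := by omega
    rwa [e] at this
  · obtain ⟨m, hm⟩ := Nat.exists_eq_add_of_le h
    have gen : ∀ m ≤ s, (t + s).choose (t + m) * t ^ (t + m) * s ^ (t + s - (t + m)) ≤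
        (t + s).choose t * t ^ t * s ^ s := by
      intro m
      induction m with
      | zero => intro _; simp
      | succ m ih =>
        intro hm
        refine le_trans ?_ (ih (by omega))
        have hst := step (t + m) (by omega)
        have hpos : 0 < (t + m + 1) * s := Nat.mul_pos (by omega) hs
        have hle : (t + s - (t + m)) * t ≤ (t + m + 1) * s := by
          have a1 : t + s - (t + m) ≤ s := by omega
          have a2 : t ≤ t + m + 1 := by omega
          calc (t + s - (t + m)) * t ≤ s * (t + m + 1) := Nat.mul_le_mul a1 a2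
            _ = _ := Nat.mul_comm _ _
        have : (t + s).choose (t + m + 1) * t ^ (t + m + 1) * s ^ (t + s - (t + m + 1)) *
            ((t + m + 1) * s) ≤ (t + s).choose (t + m) * t ^ (t + m) * s ^ (t + s - (t + m)) *
            ((t + m + 1) * s) := by
          rw [hst]
          exact Nat.mul_le_mul_left _ hle
        exact Nat.le_of_mul_le_mul_right this hpos
    have := gen m (by omega)
    rwa [← hm] at this

theorem h27_mode_sum (t s : ℕ) :
    (t + s) ^ (t + s) ≤ (t + s + 1) * ((t + s).choose t * t ^ t * s ^ s) := by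
  have h := add_pow t s (t + s)
  rw [h]
  have : ∑ k ∈ range (t + s + 1), t ^ k * s ^ (t + s - k) * ((t + s).choose k) ≤
      ∑ _k ∈ range (t + s + 1), ((t + s).choose t * t ^ t * s ^ s) := by
    refine Finset.sum_le_sum fun k hk => ?_
    have h1 := h27_mode t s k (by have := Finset.mem_range.1 hk; omega)
    calc t ^ k * s ^ (t + s - k) * ((t + s).choose k) =
        (t + s).choose k * t ^ k * s ^ (t + s - k) := by ring
      _ ≤ _ := h1
  rw [Finset.sum_const, Finset.card_range, smul_eq_mul] at this
  exact this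

theorem h27_Ex_card {α : Type*} [DecidableEq α] (Y : Finset α) (p : ℝ) (t : ℕ) :
    Ex Y p (fun X => ind (X.card = t)) =
      (Y.card.choose t : ℝ) * p ^ t * (1 - p) ^ (Y.card - t) := by
  unfold Ex
  have e : ∀ X ∈ Y.powerset, p ^ X.card * (1 - p) ^ (Y \ X).card * ind (X.card = t) =
      if X.card = t then p ^ t * (1 - p) ^ (Y.card - t) else 0 := by
    intro X hX
    have hXY := Finset.mem_powerset.1 hX
    by_cases h : X.card = t
    · rw [if_pos h, ind_pos h, Finset.card_sdiff_of_subset hXY, h, mul_one]
    · rw [if_neg h, ind_neg h, mul_zero]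
  rw [Finset.sum_congr rfl e, ← Finset.sum_filter, ← Finset.powersetCard_eq_filter,
    Finset.sum_const, Finset.card_powersetCard, nsmul_eq_mul]
  ring

theorem h27_mode_real (n t : ℕ) (ht : t ≤ n) (hn : 0 < n) :
    1 / ((n : ℝ) + 1) ≤ (n.choose t : ℝ) * ((t : ℝ) / n) ^ t * (1 - (t : ℝ) / n) ^ (n - t) := by
  obtain ⟨s, hs⟩ := Nat.exists_eq_add_of_le ht
  have h := h27_mode_sum t s
  rw [← hs] at h
  have hR : ((n : ℝ)) ^ n ≤ ((n : ℝ) + 1) * ((n.choose t : ℝ) * (t : ℝ) ^ t * (s : ℝ) ^ s) := by
    exact_mod_cast h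
  have hn0 : (0 : ℝ) < n := by exact_mod_cast hn
  have e1 : 1 - (t : ℝ) / n = (s : ℝ) / n := by
    rw [eq_div_iff hn0.ne', sub_mul, div_mul_cancel₀ _ hn0.ne']
    have : (n : ℝ) = t + s := by rw [hs]; push_cast; ring
    linarith
  have e2 : n - t = s := by omega
  rw [e1, e2, div_pow, div_pow, div_le_iff₀ (by linarith)]
  have e3 : (n : ℝ) ^ t * (n : ℝ) ^ s = (n : ℝ) ^ n := by rw [← pow_add, ← hs]
  have e4 : (n.choose t : ℝ) * ((t : ℝ) ^ t / (n : ℝ) ^ t) * ((s : ℝ) ^ s / (n : ℝ) ^ s) *
      ((n : ℝ) + 1) = ((n : ℝ) + 1) * ((n.choose t : ℝ) * (t : ℝ) ^ t * (s : ℝ) ^ s) /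
      (n : ℝ) ^ n := by
    rw [← e3]; field_simp
  rw [e4, le_div_iff₀ (by positivity), one_mul]
  exact hR

theorem h27_Ex2_order {α : Type*} [DecidableEq α] (G : Finset α) (e : Ord G) (q p : ℝ)
    (f : Finset α → Finset α → ℝ) :
    Ex2 G q p f = Ex2 (univ : Finset (Fin G.card)) q p
      (fun X Y => f (X.image (fun i => (e i : α))) (Y.image (fun i => (e i : α)))) := by
  unfold Ex2
  rw [h27_Ex_order G e q]
  refine Ex_congr _ _ _ _ fun Y _ => ?_
  exact Ex_image Y (fun i => (e i : α))
    (by intro i _ j _ hij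
        exact e.injective (Subtype.ext hij)) p _

/-- a permutation carrying a nested pair of initial segments to a nested pair -/
theorem h27_perm {N : ℕ} (X Y : Finset (Fin N)) (hXY : X ⊆ Y) :
    ∃ π : Equiv.Perm (Fin N),
      ((univ : Finset (Fin N)).filter (fun i => i.val < X.card)).image π = X ∧
      ((univ : Finset (Fin N)).filter (fun i => i.val < Y.card)).image π = Y := by
  classical
  have hYN : Y.card ≤ N := by
    have := Finset.card_le_univ Y
    simpa using this
  have hXN : X.card ≤ Y.card := Finset.card_le_card hXY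
  have hcX : ((univ : Finset (Fin N)).filter (fun i => i.val < X.card)).card = X.card := by
    rw [Fin.card_filter_val_lt]
    exact min_eq_right (hXN.trans hYN)
  have hcY : ((univ : Finset (Fin N)).filter (fun i => i.val < Y.card)).card = Y.card := by
    rw [Fin.card_filter_val_lt]
    exact min_eq_right hYN
  let p0 : {x // x ∈ (univ : Finset (Fin N)).filter (fun i => i.val < Y.card)} ≃ {x // x ∈ Y} :=
    Finset.equivOfCardEq hcY
  let π : Equiv.Perm (Fin N) := p0.extendSubtype
  have hπ : ((univ : Finset (Fin N)).filter (fun i => i.val < Y.card)).image π = Y := by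
    apply Finset.eq_of_subset_of_card_le
    · intro y hy
      obtain ⟨i, hi, rfl⟩ := Finset.mem_image.1 hy
      exact Equiv.extendSubtype_mem p0 i hi
    · rw [Finset.card_image_of_injective _ π.injective, hcY]
  -- the preimage of X under π, to be moved to the initial segment inside the initial segment
  have hX' : (X.image π.symm).card = X.card := Finset.card_image_of_injective _ π.symm.injective
  -- second permutation: carries the initial segment of length |X| to π⁻¹ X and preserves
  -- the initial segment of length |Y|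
  let S := (univ : Finset (Fin N)).filter (fun i => i.val < Y.card)
  have hXS : X.image π.symm ⊆ S := by
    intro z hz
    obtain ⟨x, hx, rfl⟩ := Finset.mem_image.1 hz
    have : x ∈ S.image π := by rw [hπ]; exact hXY hx
    obtain ⟨i, hi, hix⟩ := Finset.mem_image.1 this
    rw [← hix, Equiv.symm_apply_apply]; exact hi
  have hIS : (univ : Finset (Fin N)).filter (fun i => i.val < X.card) ⊆ S := by
    intro i hi
    rw [Finset.mem_filter] at hi ⊢
    exact ⟨hi.1, lt_of_lt_of_le hi.2 hXN⟩
  -- permutation ρ with image of I_X equal to π⁻¹ X and ρ S = S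
  have hρ : ∃ ρ : Equiv.Perm (Fin N),
      ((univ : Finset (Fin N)).filter (fun i => i.val < X.card)).image ρ = X.image π.symm ∧
      S.image ρ = S := by
    let T := {x // x ∈ S}
    let A : Finset T := ((univ : Finset (Fin N)).filter (fun i => i.val < X.card)).subtype (· ∈ S)
    let B : Finset T := (X.image π.symm).subtype (· ∈ S)
    have hA : A.map (Function.Embedding.subtype _) =
        (univ : Finset (Fin N)).filter (fun i => i.val < X.card) :=
      Finset.subtype_map_of_mem (fun x hx => hIS hx)
    have hB : B.map (Function.Embedding.subtype _) = X.image π.symm :=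
      Finset.subtype_map_of_mem (fun x hx => hXS hx)
    have hAB : A.card = B.card := by
      have h1 : A.card = X.card := by
        rw [← Finset.card_map (Function.Embedding.subtype _), hA, hcX]
      have h2 : B.card = X.card := by
        rw [← Finset.card_map (Function.Embedding.subtype _), hB, hX']
      rw [h1, h2]
    let r0 : {x // x ∈ A} ≃ {x // x ∈ B} := Finset.equivOfCardEq hAB
    let r1 : Equiv.Perm T := r0.extendSubtype
    have hr1 : A.image r1 = B := by
      apply Finset.eq_of_subset_of_card_le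
      · intro y hy
        obtain ⟨i, hi, rfl⟩ := Finset.mem_image.1 hy
        exact Equiv.extendSubtype_mem r0 i hi
      · rw [Finset.card_image_of_injective _ r1.injective, hAB]
    let ρ : Equiv.Perm (Fin N) := Equiv.Perm.ofSubtype r1
    have hρT : ∀ x : T, ρ x.1 = (r1 x).1 := fun x => Equiv.Perm.ofSubtype_apply_coe r1 x
    refine ⟨ρ, ?_, ?_⟩
    · rw [← hA, ← hB, ← hr1]
      ext z
      simp only [Finset.mem_image, Finset.mem_map, Function.Embedding.coe_subtype]
      constructor
      · rintro ⟨w, ⟨u, hu, rfl⟩, rfl⟩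
        exact ⟨r1 u, ⟨u, hu, rfl⟩, (hρT u).symm⟩
      · rintro ⟨w, ⟨u, hu, rfl⟩, rfl⟩
        exact ⟨u.1, ⟨u, hu, rfl⟩, hρT u⟩
    · apply Finset.eq_of_subset_of_card_le
      · intro y hy
        obtain ⟨i, hi, rfl⟩ := Finset.mem_image.1 hy
        have := hρT ⟨i, hi⟩
        rw [show ρ i = (r1 ⟨i, hi⟩).1 from this]
        exact (r1 ⟨i, hi⟩).2
      · rw [Finset.card_image_of_injective _ ρ.injective]
  obtain ⟨ρ, hρ1, hρ2⟩ := hρ
  refine ⟨ρ.trans π, ?_, ?_⟩
  · have : ((univ : Finset (Fin N)).filter (fun i => i.val < X.card)).image (ρ.trans π) =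
        (((univ : Finset (Fin N)).filter (fun i => i.val < X.card)).image ρ).image π := by
      rw [Finset.image_image]; rfl
    rw [this, hρ1, Finset.image_image]
    simp
  · have : S.image (ρ.trans π) = (S.image ρ).image π := by
      rw [Finset.image_image]; rfl
    rw [show ((univ : Finset (Fin N)).filter (fun i => i.val < Y.card)) = S from rfl, this, hρ2]
    exact hπ

theorem h27_sum_image2 {α : Type*} [DecidableEq α] {G : Finset α}
    (f : Finset α → Finset α → ℝ) (X Y : Finset (Fin G.card)) (hXY : X ⊆ Y) :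
    ∑ e : Ord G, f (X.image (fun i => (e i : α))) (Y.image (fun i => (e i : α))) =
      ∑ e : Ord G, f (pre e X.card) (pre e Y.card) := by
  obtain ⟨π, h1, h2⟩ := h27_perm X Y hXY
  have key : ∀ e : Ord G, f (X.image (fun i => (e i : α))) (Y.image (fun i => (e i : α))) =
      f (pre (h27_comp π e) X.card) (pre (h27_comp π e) Y.card) := by
    intro e
    congr 1
    · unfold pre
      conv_lhs => rw [← h1]
      rw [Finset.image_image]
      rfl
    · unfold pre
      conv_lhs => rw [← h2]
      rw [Finset.image_image]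
      rfl
  rw [Finset.sum_congr rfl (fun e _ => key e)]
  exact Equiv.sum_comp (h27_comp π) (fun e => f (pre e X.card) (pre e Y.card))

theorem pair_transfer {α : Type*} [DecidableEq α] (G : Finset α) (t t' : ℕ) (ht : t ≤ t')
    (ht0 : 0 < t') (ht' : t' ≤ G.card) (f : Finset α → Finset α → ℝ) (hf : ∀ X Y, 0 ≤ f X Y) :
    ∑ e : Ord G, f (pre e t) (pre e t') ≤
      ((G.card : ℝ) + 1) ^ 2 * Ex2 G ((t' : ℝ) / G.card) ((t : ℝ) / t')
        (fun X Y => ind (X.card = t ∧ Y.card = t') * f X Y) * (Fintype.card (Ord G) : ℝ) := by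
  set N : ℕ := G.card with hN
  set q : ℝ := (t' : ℝ) / N with hq
  set p : ℝ := (t : ℝ) / t' with hp
  have hN0 : (0 : ℝ) < N := by
    have : 0 < N := lt_of_lt_of_le ht0 ht'
    exact_mod_cast this
  have ht'0 : (0 : ℝ) < t' := by exact_mod_cast ht0
  have hq0 : 0 ≤ q := by positivity
  have hq1 : q ≤ 1 := by rw [hq, div_le_one hN0]; exact_mod_cast ht'
  have hp0 : 0 ≤ p := by positivity
  have hp1 : p ≤ 1 := by rw [hp, div_le_one ht'0]; exact_mod_cast ht
  set S : ℝ := ∑ e : Ord G, f (pre e t) (pre e t') with hS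
  have hS0 : 0 ≤ S := Finset.sum_nonneg fun e _ => hf _ _
  -- the key identity
  have key : (Fintype.card (Ord G) : ℝ) *
      Ex2 G q p (fun X Y => ind (X.card = t ∧ Y.card = t') * f X Y) =
      S * Ex2 (univ : Finset (Fin G.card)) q p (fun X Y => ind (X.card = t ∧ Y.card = t')) := by
    have h1 : ∑ _e : Ord G, Ex2 G q p (fun X Y => ind (X.card = t ∧ Y.card = t') * f X Y) =
        (Fintype.card (Ord G) : ℝ) *
          Ex2 G q p (fun X Y => ind (X.card = t ∧ Y.card = t') * f X Y) := by
      rw [Finset.sum_const, nsmul_eq_mul]; rfl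
    rw [← h1, Finset.sum_congr rfl (fun e _ => h27_Ex2_order G e q p _)]
    unfold Ex2
    rw [← Ex_sum, ← Ex_mul]
    refine Ex_congr _ _ _ _ fun Y _ => ?_
    rw [← Ex_sum, ← Ex_mul]
    refine Ex_congr _ _ _ _ fun X hXY => ?_
    have hc : ∀ (e : Ord G) (W : Finset (Fin G.card)),
        (W.image (fun i => (e i : α))).card = W.card := fun e W =>
      Finset.card_image_of_injective _ (fun i j hij => e.injective (Subtype.ext hij))
    simp only [hc]
    rw [← Finset.mul_sum, h27_sum_image2 f X Y hXY]
    by_cases h : X.card = t ∧ Y.card = t'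
    · rw [ind_pos h, h.1, h.2]; ring
    · rw [ind_neg h]; ring
  have hlow : 1 / ((N : ℝ) + 1) ^ 2 ≤
      Ex2 (univ : Finset (Fin G.card)) q p (fun X Y => ind (X.card = t ∧ Y.card = t')) := by
    have hm1 := h27_mode_real N t' ht' (lt_of_lt_of_le ht0 ht')
    have hm2 := h27_mode_real t' t ht ht0
    have h1 : (1 / ((N : ℝ) + 1)) * Ex (univ : Finset (Fin G.card)) q
        (fun Y => ind (Y.card = t')) ≤
        Ex2 (univ : Finset (Fin G.card)) q p (fun X Y => ind (X.card = t ∧ Y.card = t')) := by
      unfold Ex2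
      rw [← Ex_mul]
      refine Ex_mono _ q hq0 hq1 _ _ fun Y _ => ?_
      by_cases h : Y.card = t'
      · have e1 : Ex Y p (fun X => ind (X.card = t ∧ Y.card = t')) =
            Ex Y p (fun X => ind (X.card = t)) := by
          refine Ex_congr _ _ _ _ fun X _ => ?_
          exact ind_congr ⟨fun hh => hh.1, fun hh => ⟨hh, h⟩⟩
        rw [e1, h27_Ex_card, h, ind_pos rfl, mul_one]
        refine le_trans ?_ hm2
        refine one_div_le_one_div_of_le (by linarith) ?_
        have : (t' : ℝ) ≤ N := by exact_mod_cast ht'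
        linarith
      · rw [ind_neg h, mul_zero]
        exact Ex_nonneg Y p hp0 hp1 _ fun X _ => ind_nonneg _
    refine le_trans ?_ h1
    rw [h27_Ex_card]
    have hcard : ((univ : Finset (Fin G.card)).card) = N := by simp [hN]
    rw [hcard]
    have : 1 / ((N : ℝ) + 1) ^ 2 = 1 / ((N : ℝ) + 1) * (1 / ((N : ℝ) + 1)) := by
      rw [sq, one_div_mul_one_div]
    rw [this]
    exact mul_le_mul_of_nonneg_left hm1 (by positivity)
  have h3 : S ≤ ((N : ℝ) + 1) ^ 2 * (S *
      Ex2 (univ : Finset (Fin G.card)) q p (fun X Y => ind (X.card = t ∧ Y.card = t'))) := by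
    have hpos : (0 : ℝ) < ((N : ℝ) + 1) ^ 2 := by positivity
    have h4 : 1 ≤ ((N : ℝ) + 1) ^ 2 *
        Ex2 (univ : Finset (Fin G.card)) q p (fun X Y => ind (X.card = t ∧ Y.card = t')) := by
      rw [div_le_iff₀ hpos] at hlow
      linarith
    calc S = S * 1 := (mul_one S).symm
      _ ≤ S * (((N : ℝ) + 1) ^ 2 *
        Ex2 (univ : Finset (Fin G.card)) q p (fun X Y => ind (X.card = t ∧ Y.card = t'))) :=
          mul_le_mul_of_nonneg_left h4 hS0
      _ = _ := by ring
  rw [← key] at h3
  calc S ≤ _ := h3
    _ = _ := by ring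

end FC
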