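import Pool.Agent.H92.FC.Path
import Pool.Agent.H92.FC.Pair

/-!
# Closure density
-/

namespace FC

open Finset

section general

variable {α : Type*} [DecidableEq α]

/-- Thinning, potential version. -/
theorem thin_pot (R : RankFn α) (Y : Finset α) (g : ℕ) (Bad : Finset α → Prop)
    (hB : ∀ C ⊆ Y, Bad C → 2 * g ≤ C.card ∧ ∀ e ∈ C, R.r (C.erase e) = R.r C)
    (p : ℝ) (hp0 : 0 ≤ p) (hp1 : p ≤ 1) :
    Ex Y p (fun X => ind (∃ C ⊆ X, Bad C) * 2 ^ (R.nul X)) ≤ 2 ^ (R.nul Y) * p ^ g := by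
  set pot : Finset α → ℝ := fun X => ind (∃ C ⊆ X, Bad C) * 2 ^ (R.nul X) with hpot
  set F : ℝ → ℝ := fun p => Ex Y p pot with hF
  -- derivative
  have hder : ∀ p, HasDerivAt F (∑ a ∈ Y, Ex (Y.erase a) p (fun X => pot (insert a X) - pot X)) p :=
    fun p => Ex_deriv Y pot p
  have hpot0 : ∀ X, 0 ≤ pot X := fun X => mul_nonneg (ind_nonneg _) (by positivity)
  -- key inequality
  have hkey : ∀ p, 0 ≤ p → p ≤ 1 → (g : ℝ) * F p ≤
      p * ∑ a ∈ Y, Ex (Y.erase a) p (fun X => pot (insert a X) - pot X) := by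
    intro p hp0 hp1
    have h1 : p * ∑ a ∈ Y, Ex (Y.erase a) p (fun X => pot (insert a X) - pot X) =
        Ex Y p (fun X => ∑ a ∈ Y, ind (a ∈ X) * (pot (insert a (X.erase a)) - pot (X.erase a))) := by
      rw [Finset.mul_sum, Ex_sum]
      exact Finset.sum_congr rfl fun a ha => Ex_erase_in Y a ha p _
    rw [h1, hF]
    simp only
    rw [← Ex_mul]
    refine Ex_mono Y p hp0 hp1 _ _ fun X hX => ?_
    have h2 : ∑ a ∈ Y, ind (a ∈ X) * (pot (insert a (X.erase a)) - pot (X.erase a)) =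
        ∑ a ∈ X, (pot X - pot (X.erase a)) := by
      rw [← Finset.sum_subset hX]
      · refine Finset.sum_congr rfl fun a ha => ?_
        rw [ind_pos ha, Finset.insert_erase ha]; ring
      · intro a _ haX
        rw [ind_neg haX]; ring
    rw [h2]
    have hmono : ∀ a ∈ X, pot (X.erase a) ≤ pot X := by
      intro a _
      simp only [hpot]
      have i1 : ind (∃ C ⊆ X.erase a, Bad C) ≤ ind (∃ C ⊆ X, Bad C) :=
        ind_mono fun ⟨C, hC, hb⟩ => ⟨C, hC.trans (Finset.erase_subset a X), hb⟩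
      have i2 : (2:ℝ) ^ (R.nul (X.erase a)) ≤ 2 ^ (R.nul X) :=
        pow_le_pow_right₀ (by norm_num) (R.nul_mono (Finset.erase_subset a X))
      exact mul_le_mul i1 i2 (by positivity) (ind_nonneg _)
    by_cases hex : ∃ C ⊆ X, Bad C
    · obtain ⟨C, hCX, hb⟩ := hex
      obtain ⟨hcard, hcl⟩ := hB C (hCX.trans hX) hb
      have h3 : ∀ a ∈ C, pot X / 2 ≤ pot X - pot (X.erase a) := by
        intro a haC
        have haX := hCX haC
        have h4 : R.r (insert a (X.erase a)) = R.r (X.erase a) := by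
          refine R.cl_mono (S := C.erase a) (Finset.erase_subset_erase a hCX) a ?_
          rw [Finset.insert_erase haC]; exact (hcl a haC).symm
        have h5 := R.nul_add (X.erase a)
        have h6 := R.nul_add (insert a (X.erase a))
        rw [Finset.card_insert_of_notMem (Finset.notMem_erase a X)] at h6
        have h7 : R.nul X = R.nul (X.erase a) + 1 := by
          rw [Finset.insert_erase haX] at *
          omega
        have h8 : pot (X.erase a) ≤ 2 ^ (R.nul (X.erase a)) := by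
          simp only [hpot]
          have := ind_le_one (∃ C ⊆ X.erase a, Bad C)
          have h9 : (0:ℝ) ≤ 2 ^ (R.nul (X.erase a)) := by positivity
          nlinarith
        have h9 : pot X = 2 * 2 ^ (R.nul (X.erase a)) := by
          simp only [hpot]
          rw [ind_pos ⟨C, hCX, hb⟩, h7, pow_succ]; ring
        rw [h9]; linarith
      have h10 : ∑ a ∈ C, pot X / 2 ≤ ∑ a ∈ X, (pot X - pot (X.erase a)) := by
        refine (Finset.sum_le_sum h3).trans ?_
        exact Finset.sum_le_sum_of_subset_of_nonneg hCX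
          (fun a ha _ => by have := hmono a ha; linarith)
      rw [Finset.sum_const, nsmul_eq_mul] at h10
      refine le_trans ?_ h10
      have hc : (2 * g : ℝ) ≤ C.card := by exact_mod_cast hcard
      have := hpot0 X
      nlinarith
    · have h0 : pot X = 0 := by simp only [hpot]; rw [ind_neg hex]; ring
      rw [h0]
      simp only [mul_zero]
      exact Finset.sum_nonneg fun a ha => by
        have := hmono a ha
        rw [h0] at this
        linarith
  have hFle : ∀ t, 0 ≤ t → t ≤ 1 → F t ≤ 2 ^ (R.nul Y) := by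
    intro t ht0 ht1
    refine Ex_le_const Y t ht0 ht1 _ _ fun X hX => ?_
    simp only [hpot]
    have i2 : (2:ℝ) ^ (R.nul X) ≤ 2 ^ (R.nul Y) :=
      pow_le_pow_right₀ (by norm_num) (R.nul_mono hX)
    have i3 : (0:ℝ) ≤ 2 ^ (R.nul X) := by positivity
    nlinarith [ind_le_one (∃ C ⊆ X, Bad C), ind_nonneg (∃ C ⊆ X, Bad C)]
  have hF1 : F 1 ≤ 2 ^ (R.nul Y) := hFle 1 zero_le_one le_rfl
  show F p ≤ _
  rcases Nat.eq_zero_or_pos g with hg | hg
  · subst hg
    rw [pow_zero, mul_one]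
    exact hFle p hp0 hp1
  rcases hp0.eq_or_lt with hp | hp
  · subst hp
    have h1 : F 0 = pot ∅ := by
      simp only [hF]
      unfold Ex
      rw [Finset.sum_eq_single ∅]
      · simp
      · intro X _ hne
        have : X.card ≠ 0 := fun h => hne (Finset.card_eq_zero.1 h)
        rw [zero_pow this]; ring
      · intro h; exact absurd (Finset.empty_mem_powerset Y) h
    have h2 : pot ∅ = 0 := by
      simp only [hpot]
      rw [ind_neg]
      · ring
      · rintro ⟨C, hC, hb⟩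
        have hC0 := Finset.subset_empty.1 hC
        subst hC0
        have := (hB ∅ (Finset.empty_subset _) hb).1
        simp at this; omega
    rw [h1, h2]
    positivity
  have hder2 : ∀ t ∈ Set.Icc p 1, HasDerivAt (fun t => F t / t ^ g)
      (((∑ a ∈ Y, Ex (Y.erase a) t (fun X => pot (insert a X) - pot X)) * t ^ g -
        F t * (g * t ^ (g - 1))) / (t ^ g) ^ 2) t := by
    intro t ht
    have ht0 : 0 < t := lt_of_lt_of_le hp ht.1
    exact (hder t).div (hasDerivAt_pow g t) (by positivity)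
  have hmonoH : MonotoneOn (fun t => F t / t ^ g) (Set.Icc p 1) := by
    refine monotoneOn_of_deriv_nonneg (convex_Icc p 1) ?_ ?_ ?_
    · intro t ht
      exact (hder2 t ht).continuousAt.continuousWithinAt
    · intro t ht
      exact (hder2 t (interior_subset ht)).differentiableAt.differentiableWithinAt
    · intro t ht
      have ht' := interior_subset ht
      have ht0 : 0 < t := lt_of_lt_of_le hp ht'.1
      rw [(hder2 t ht').deriv]
      refine div_nonneg ?_ (by positivity)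
      have hk := hkey t ht0.le ht'.2
      obtain ⟨g', rfl⟩ : ∃ g', g = g' + 1 := ⟨g - 1, by omega⟩
      have ht1 : 0 ≤ t ^ g' := by positivity
      have : (∑ a ∈ Y, Ex (Y.erase a) t (fun X => pot (insert a X) - pot X)) * t ^ (g' + 1) -
          F t * ((g' + 1 : ℕ) * t ^ (g' + 1 - 1)) =
          t ^ g' * (t * (∑ a ∈ Y, Ex (Y.erase a) t (fun X => pot (insert a X) - pot X)) -
            ((g' + 1 : ℕ) : ℝ) * F t) := by
        rw [Nat.add_sub_cancel, pow_succ]; ring
      rw [this]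
      exact mul_nonneg ht1 (by linarith)
  have h1 := hmonoH (Set.left_mem_Icc.2 hp1) (Set.right_mem_Icc.2 hp1) hp1
  simp only [one_pow, div_one] at h1
  rw [div_le_iff₀ (by positivity)] at h1
  exact h1.trans (mul_le_mul_of_nonneg_right hF1 (by positivity))

theorem fw (R : RankFn α) (G X : Finset α) (hX : X ⊆ G) (y : ℝ)
    (hy0 : 0 ≤ y) (hy1 : y < 1) (a : ℕ) (P : Finset α → Prop)
    (hP : ∀ Z, P Z → ∀ s ⊆ G, (∀ σ ∈ s, R.r (insert σ (X ∪ Z)) = R.r (X ∪ Z)) → s.card ≤ a) :
    Ex (G \ X) y (fun Z => ind (P Z) * 2 ^ (R.nul (X ∪ Z))) ≤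
      2 ^ (R.nul X) * ((1 - y) ^ a)⁻¹ := by
  classical
  set cl : Finset α → Finset α := fun S => G.filter (fun σ => R.r (insert σ S) = R.r S) with hcl
  set pot : Finset α → ℝ := fun Z => ind ((cl (X ∪ Z)).card ≤ a) * 2 ^ (R.nul (X ∪ Z)) with hpot
  have hpot0 : ∀ Z, 0 ≤ pot Z := fun Z => mul_nonneg (ind_nonneg _) (by positivity)
  have hle : Ex (G \ X) y (fun Z => ind (P Z) * 2 ^ (R.nul (X ∪ Z))) ≤ Ex (G \ X) y pot := by
    refine Ex_mono _ y hy0 hy1.le _ _ fun Z _ => ?_
    simp only [hpot]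
    refine mul_le_mul_of_nonneg_right (ind_mono fun h => ?_) (by positivity)
    exact hP Z h (cl (X ∪ Z)) (Finset.filter_subset _ _) fun σ hσ => (Finset.mem_filter.1 hσ).2
  refine hle.trans ?_
  set F : ℝ → ℝ := fun t => Ex (G \ X) t pot with hF
  have hder : ∀ t, HasDerivAt F
      (∑ b ∈ G \ X, Ex ((G \ X).erase b) t (fun Z => pot (insert b Z) - pot Z)) t :=
    fun t => Ex_deriv (G \ X) pot t
  have hkey : ∀ t, 0 ≤ t → t ≤ 1 → (1 - t) *
      ∑ b ∈ G \ X, Ex ((G \ X).erase b) t (fun Z => pot (insert b Z) - pot Z) ≤ a * F t := by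
    intro t ht0 ht1
    have h1 : (1 - t) *
        ∑ b ∈ G \ X, Ex ((G \ X).erase b) t (fun Z => pot (insert b Z) - pot Z) =
        Ex (G \ X) t (fun Z => ∑ b ∈ G \ X, ind (b ∉ Z) * (pot (insert b Z) - pot Z)) := by
      rw [Finset.mul_sum, Ex_sum]
      exact Finset.sum_congr rfl fun b hb => Ex_erase_out (G \ X) b hb t _
    rw [h1]
    simp only [hF]
    rw [← Ex_mul]
    refine Ex_mono _ t ht0 ht1 _ _ fun Z hZ => ?_
    -- termwise bound
    have h2 : ∀ b ∈ G \ X, ind (b ∉ Z) * (pot (insert b Z) - pot Z) ≤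
        ind (b ∈ cl (X ∪ Z)) * pot Z := by
      intro b hb
      have hbG := (Finset.mem_sdiff.1 hb).1
      have hbX := (Finset.mem_sdiff.1 hb).2
      by_cases hbZ : b ∉ Z
      · rw [ind_pos hbZ, one_mul]
        have hbS : b ∉ X ∪ Z := by
          simp only [Finset.mem_union, not_or]; exact ⟨hbX, hbZ⟩
        have e1 : X ∪ insert b Z = insert b (X ∪ Z) := Finset.union_insert b X Z
        have hcle : ind ((cl (insert b (X ∪ Z))).card ≤ a) ≤ ind ((cl (X ∪ Z)).card ≤ a) := by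
          refine ind_mono fun h => le_trans (Finset.card_le_card ?_) h
          intro σ hσ
          obtain ⟨hσG, hσr⟩ := Finset.mem_filter.1 hσ
          exact Finset.mem_filter.2 ⟨hσG, R.cl_mono (Finset.subset_insert b (X ∪ Z)) σ hσr⟩
        have h5 := R.nul_add (X ∪ Z)
        have h6 := R.nul_add (insert b (X ∪ Z))
        rw [Finset.card_insert_of_notMem hbS] at h6
        by_cases hc : R.r (insert b (X ∪ Z)) = R.r (X ∪ Z)
        · have hmem : b ∈ cl (X ∪ Z) := Finset.mem_filter.2 ⟨hbG, hc⟩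
          rw [ind_pos hmem, one_mul]
          have h7 : R.nul (insert b (X ∪ Z)) = R.nul (X ∪ Z) + 1 := by omega
          have h8 : pot (insert b Z) ≤ 2 * pot Z := by
            simp only [hpot]
            rw [e1, h7, pow_succ]
            have h9 : (0:ℝ) ≤ 2 ^ (R.nul (X ∪ Z)) := by positivity
            nlinarith
          linarith
        · have h7 : R.nul (insert b (X ∪ Z)) = R.nul (X ∪ Z) := by
            have h8 := R.mono _ _ (Finset.subset_insert b (X ∪ Z))
            have h9 := R.ins b (X ∪ Z)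
            omega
          have h8 : pot (insert b Z) ≤ pot Z := by
            simp only [hpot]
            rw [e1, h7]
            exact mul_le_mul_of_nonneg_right hcle (by positivity)
          have h9 := mul_nonneg (ind_nonneg (b ∈ cl (X ∪ Z))) (hpot0 Z)
          linarith
      · rw [ind_neg hbZ, zero_mul]
        exact mul_nonneg (ind_nonneg _) (hpot0 Z)
    refine (Finset.sum_le_sum h2).trans ?_
    rw [← Finset.sum_mul]
    by_cases hca : (cl (X ∪ Z)).card ≤ a
    · refine mul_le_mul_of_nonneg_right ?_ (hpot0 Z)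
      have h3 : ∑ b ∈ G \ X, ind (b ∈ cl (X ∪ Z)) ≤ ((cl (X ∪ Z)).card : ℝ) := by
        have h4 : ∑ b ∈ G \ X, ind (b ∈ cl (X ∪ Z)) =
            (((G \ X).filter (fun b => b ∈ cl (X ∪ Z))).card : ℝ) := by
          rw [Finset.card_filter]
          push_cast
          refine Finset.sum_congr rfl fun b _ => ?_
          by_cases hb : b ∈ cl (X ∪ Z)
          · rw [ind_pos hb, if_pos hb]
          · rw [ind_neg hb, if_neg hb]
        rw [h4]
        exact_mod_cast Finset.card_le_card fun b hb => (Finset.mem_filter.1 hb).2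
      exact h3.trans (by exact_mod_cast hca)
    · have h0 : pot Z = 0 := by simp only [hpot]; rw [ind_neg hca]; ring
      rw [h0]; simp
  have hanti : AntitoneOn (fun t => F t * (1 - t) ^ a) (Set.Icc 0 y) := by
    have hd2 : ∀ t, HasDerivAt (fun t => F t * (1 - t) ^ a)
        ((∑ b ∈ G \ X, Ex ((G \ X).erase b) t (fun Z => pot (insert b Z) - pot Z)) * (1 - t) ^ a +
          F t * ((a : ℝ) * (1 - t) ^ (a - 1) * (-1))) t := by
      intro t
      refine (hder t).mul ?_
      have h1 : HasDerivAt (fun t : ℝ => 1 - t) (-1) t := by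
        simpa using (hasDerivAt_id t).const_sub 1
      exact h1.pow a
    refine antitoneOn_of_deriv_nonpos (convex_Icc 0 y) ?_ ?_ ?_
    · intro t _
      exact (hd2 t).continuousAt.continuousWithinAt
    · intro t _
      exact (hd2 t).differentiableAt.differentiableWithinAt
    · intro t ht
      have ht' := interior_subset ht
      rw [(hd2 t).deriv]
      have hk := hkey t ht'.1 (ht'.2.trans hy1.le)
      have ht1 : 0 ≤ 1 - t := by linarith [ht'.2]
      rcases Nat.eq_zero_or_pos a with ha | ha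
      · have ht1' : 0 < 1 - t := by linarith [ht'.2]
        rw [ha] at hk ⊢
        simp only [Nat.cast_zero, zero_mul] at hk ⊢
        simp only [pow_zero, mul_one, mul_zero, add_zero]
        by_contra hneg
        rw [not_le] at hneg
        have := mul_pos ht1' hneg
        linarith
      · obtain ⟨a', rfl⟩ : ∃ a', a = a' + 1 := ⟨a - 1, by omega⟩
        rw [Nat.add_sub_cancel, pow_succ]
        have hp : 0 ≤ (1 - t) ^ a' := pow_nonneg ht1 _
        have e : (∑ b ∈ G \ X, Ex ((G \ X).erase b) t (fun Z => pot (insert b Z) - pot Z)) *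
            ((1 - t) ^ a' * (1 - t)) + F t * (((a' + 1 : ℕ) : ℝ) * (1 - t) ^ a' * (-1)) =
            (1 - t) ^ a' * ((1 - t) *
              (∑ b ∈ G \ X, Ex ((G \ X).erase b) t (fun Z => pot (insert b Z) - pot Z)) -
              ((a' + 1 : ℕ) : ℝ) * F t) := by ring
        rw [e]
        exact mul_nonpos_of_nonneg_of_nonpos hp (by linarith)
  have h1 := hanti (Set.left_mem_Icc.2 hy0) (Set.right_mem_Icc.2 hy0) hy0
  simp only [sub_zero, one_pow, mul_one] at h1
  have hF0 : F 0 ≤ 2 ^ (R.nul X) := by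
    have h2 : F 0 = pot ∅ := by
      simp only [hF]
      unfold Ex
      rw [Finset.sum_eq_single ∅]
      · simp
      · intro Z _ hne
        have : Z.card ≠ 0 := fun h => hne (Finset.card_eq_zero.1 h)
        rw [zero_pow this]; ring
      · intro h; exact absurd (Finset.empty_mem_powerset (G \ X)) h
    rw [h2]
    simp only [hpot, Finset.union_empty]
    have h3 : (0:ℝ) ≤ 2 ^ (R.nul X) := by positivity
    nlinarith [ind_le_one ((cl X).card ≤ a)]
  have hpos : 0 < (1 - y) ^ a := pow_pos (by linarith) _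
  rw [← div_eq_mul_inv, le_div_iff₀ hpos]
  exact h1.trans hF0

end general

variable {d : ℕ}

theorem th_rel (R : CRank d) (n : ℕ) (ρ : ℝ) (V : Finset ℕ) (hV : V ⊆ range n)
    (Y : Finset (Finset ℕ)) (hY : Y ⊆ fc d n) (hs : ¬ SmallCore d n ρ Y) (g A : ℕ)
    (hg : (2 * g : ℝ) ≤ ρ * (n : ℝ) ^ d) (p : ℝ) (hp0 : 0 ≤ p) (hp1 : p ≤ 1) :
    Ex Y p (fun X => ind (BadIn R V X ∧
      R.nul (Y ∩ faces d V) ≤ R.nul (X ∩ faces d V) + A)) ≤ 2 ^ A * p ^ g := by
  set Y' := Y ∩ faces d V with hY'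
  have hYY : Y' ⊆ Y := Finset.inter_subset_left
  set f : Finset (Finset ℕ) → ℝ := fun X' =>
    ind ((∃ C ⊆ X', R.Cyc C ∧ ¬ HasBd d C) ∧ R.nul Y' ≤ R.nul X' + A) with hf
  have h1 : Ex Y p (fun X => ind (BadIn R V X ∧ R.nul Y' ≤ R.nul (X ∩ faces d V) + A)) =
      Ex Y' p f := by
    rw [← Ex_restrict Y Y' hYY p f]
    refine Ex_congr _ _ _ _ fun X hX => ?_
    have e : X ∩ Y' = X ∩ faces d V := by
      ext σ
      simp only [hY', Finset.mem_inter]
      exact ⟨fun h => ⟨h.1, h.2.2⟩, fun h => ⟨h.1, hX h.1, h.2⟩⟩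
    simp only [hf, e]
    rfl
  rw [h1]
  have h2 := thin_pot R.toRankFn Y' g (fun C => R.Cyc C ∧ ¬ HasBd d C) (by
    intro C hC hb
    refine ⟨?_, hb.1.2⟩
    have h3 := bad_card R n ρ Y C hY hs (hC.trans hYY) hb.1 hb.2
    have h4 : (2 * g : ℝ) < C.card := lt_of_le_of_lt hg h3
    exact_mod_cast h4.le) p hp0 hp1
  have hpos : (0:ℝ) < 2 ^ (R.nul Y') := by positivity
  have h3 : Ex Y' p f ≤ Ex Y' p (fun X => (2 ^ A / 2 ^ (R.nul Y')) *
      (ind (∃ C ⊆ X, R.Cyc C ∧ ¬ HasBd d C) * 2 ^ (R.nul X))) := by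
    refine Ex_mono Y' p hp0 hp1 _ _ fun X _ => ?_
    simp only [hf]
    by_cases hc : (∃ C ⊆ X, R.Cyc C ∧ ¬ HasBd d C) ∧ R.nul Y' ≤ R.nul X + A
    · rw [ind_pos hc, ind_pos hc.1, one_mul, div_mul_eq_mul_div, le_div_iff₀ hpos, one_mul,
        ← pow_add]
      exact pow_le_pow_right₀ (by norm_num) (by omega)
    · rw [ind_neg hc]
      exact mul_nonneg (by positivity) (mul_nonneg (ind_nonneg _) (by positivity))
  refine h3.trans ?_
  rw [Ex_mul]
  refine (mul_le_mul_of_nonneg_left h2 (by positivity)).trans (le_of_eq ?_)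
  field_simp

theorem cd (R : CRank d) (n : ℕ) (ρ : ℝ) (V : Finset ℕ) (hV : V ⊆ range n) (g A a : ℕ)
    (hg : (2 * g : ℝ) ≤ ρ * (n : ℝ) ^ d) (q p : ℝ) (hq0 : 0 ≤ q) (hq1 : q ≤ 1) (hp0 : 0 ≤ p)
    (hp1 : p ≤ 1) (hqp : q * (1 - p) / (1 - q * p) < 1) (hqp' : q * p < 1) :
    Ex2 (fc d n) q p (fun X Y => ind (BadIn R V X ∧ ¬ SmallCore d n ρ Y ∧
      (clset R V Y).card ≤ a)) ≤
    2 ^ A * p ^ g + ((2:ℝ) ^ A)⁻¹ * ((1 - q * (1 - p) / (1 - q * p)) ^ a)⁻¹ := by
  classical
  set F := faces d V with hFdef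
  have hF : F ⊆ fc d n := by
    intro σ hσ
    have h := Finset.mem_powersetCard.1 hσ
    exact Finset.mem_powersetCard.2 ⟨h.1.trans hV, h.2⟩
  set y : ℝ := q * (1 - p) / (1 - q * p) with hy
  have hden : 0 < 1 - q * p := by linarith
  have hy0 : 0 ≤ y := div_nonneg (mul_nonneg hq0 (by linarith)) hden.le
  have hqp0 : 0 ≤ q * p := mul_nonneg hq0 hp0
  set f1 : Finset (Finset ℕ) → Finset (Finset ℕ) → ℝ := fun X Y =>
    ind (¬ SmallCore d n ρ Y) * ind (BadIn R V X ∧ R.nul (Y ∩ F) ≤ R.nul (X ∩ F) + A) with hf1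
  set f2 : Finset (Finset ℕ) → Finset (Finset ℕ) → ℝ := fun X Y =>
    ind (R.nul (X ∩ F) + A < R.nul (Y ∩ F) ∧ (clset R V Y).card ≤ a) with hf2
  have hsplit : Ex2 (fc d n) q p (fun X Y => ind (BadIn R V X ∧ ¬ SmallCore d n ρ Y ∧
      (clset R V Y).card ≤ a)) ≤ Ex2 (fc d n) q p f1 + Ex2 (fc d n) q p f2 := by
    unfold Ex2
    rw [← Ex_add]
    refine Ex_mono _ q hq0 hq1 _ _ fun Y _ => ?_
    rw [← Ex_add]
    refine Ex_mono _ p hp0 hp1 _ _ fun X _ => ?_
    simp only [hf1, hf2]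
    have n1 := ind_nonneg (R.nul (X ∩ F) + A < R.nul (Y ∩ F) ∧ (clset R V Y).card ≤ a)
    have n2 := mul_nonneg (ind_nonneg (¬ SmallCore d n ρ Y))
      (ind_nonneg (BadIn R V X ∧ R.nul (Y ∩ F) ≤ R.nul (X ∩ F) + A))
    by_cases h : BadIn R V X ∧ ¬ SmallCore d n ρ Y ∧ (clset R V Y).card ≤ a
    · rw [ind_pos h]
      by_cases h' : R.nul (Y ∩ F) ≤ R.nul (X ∩ F) + A
      · rw [ind_pos h.2.1, ind_pos ⟨h.1, h'⟩]
        linarith
      · have hh : R.nul (X ∩ F) + A < R.nul (Y ∩ F) ∧ (clset R V Y).card ≤ a :=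
          ⟨by omega, h.2.2⟩
        rw [ind_pos hh]
        linarith
    · rw [ind_neg h]
      linarith
  have hA1 : Ex2 (fc d n) q p f1 ≤ 2 ^ A * p ^ g := by
    unfold Ex2
    refine Ex_le_const _ q hq0 hq1 _ _ fun Y hY => ?_
    simp only [hf1]
    rw [Ex_mul]
    by_cases hs : ¬ SmallCore d n ρ Y
    · rw [ind_pos hs, one_mul]
      exact th_rel R n ρ V hV Y hY hs g A hg p hp0 hp1
    · rw [ind_neg hs, zero_mul]
      positivity
  have hA2 : Ex2 (fc d n) q p f2 ≤ ((2:ℝ) ^ A)⁻¹ * ((1 - y) ^ a)⁻¹ := by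
    rw [Ex2_forward (fc d n) q p hq0 hq1 hp0 hp1 hqp' f2]
    refine Ex_le_const _ (q * p) hqp0 hqp'.le _ _ fun X hX => ?_
    set X' := X ∩ F with hX'
    have hFX : F \ X ⊆ fc d n \ X := Finset.sdiff_subset_sdiff hF (Finset.Subset.refl X)
    have e0 : F \ X = F \ X' := by
      ext σ
      simp only [hX', Finset.mem_sdiff, Finset.mem_inter, not_and]
      exact ⟨fun h => ⟨h.1, fun h1 => absurd h1 h.2⟩, fun h => ⟨h.1, fun h1 => h.2 h1 h.1⟩⟩
    have e1 : Ex (fc d n \ X) y (fun Z => f2 X (X ∪ Z)) =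
        Ex (F \ X) y (fun Z => ind (R.nul X' + A < R.nul (X' ∪ Z) ∧
          (F.filter (fun σ => R.r (insert σ (X' ∪ Z)) = R.r (X' ∪ Z))).card ≤ a)) := by
      rw [← Ex_restrict (fc d n \ X) (F \ X) hFX y]
      refine Ex_congr _ _ _ _ fun Z hZ => ?_
      have e2 : (X ∪ Z) ∩ F = X' ∪ Z ∩ (F \ X) := by
        ext σ
        simp only [hX', Finset.mem_inter, Finset.mem_union, Finset.mem_sdiff]
        constructor
        · rintro ⟨h1 | h1, h2⟩
          · exact Or.inl ⟨h1, h2⟩
          · exact Or.inr ⟨h1, h2, (Finset.mem_sdiff.1 (hZ h1)).2⟩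
        · rintro (h | h)
          · exact ⟨Or.inl h.1, h.2⟩
          · exact ⟨Or.inr h.1, h.2.1⟩
      simp only [hf2]
      unfold clset
      rw [← hFdef, e2]
    rw [e1, e0]
    have hfw := fw R.toRankFn F X' Finset.inter_subset_right y hy0 hqp a
      (fun Z => (F.filter (fun σ => R.r (insert σ (X' ∪ Z)) = R.r (X' ∪ Z))).card ≤ a) (by
        intro Z hZ s hs hsr
        refine le_trans (Finset.card_le_card fun σ hσ => ?_) hZ
        exact Finset.mem_filter.2 ⟨hs hσ, hsr σ hσ⟩)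
    have hpX : (0:ℝ) < 2 ^ (R.nul X') := by positivity
    have h4 : Ex (F \ X') y (fun Z => ind (R.nul X' + A < R.nul (X' ∪ Z) ∧
          (F.filter (fun σ => R.r (insert σ (X' ∪ Z)) = R.r (X' ∪ Z))).card ≤ a)) ≤
        Ex (F \ X') y (fun Z => (((2:ℝ) ^ A)⁻¹ * (2 ^ (R.nul X'))⁻¹) *
          (ind ((F.filter (fun σ => R.r (insert σ (X' ∪ Z)) = R.r (X' ∪ Z))).card ≤ a) *
            2 ^ (R.nul (X' ∪ Z)))) := by
      refine Ex_mono _ y hy0 hqp.le _ _ fun Z _ => ?_
      by_cases h : R.nul X' + A < R.nul (X' ∪ Z) ∧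
          (F.filter (fun σ => R.r (insert σ (X' ∪ Z)) = R.r (X' ∪ Z))).card ≤ a
      · rw [ind_pos h, ind_pos h.2, one_mul, ← mul_inv, ← pow_add, ← div_eq_inv_mul,
          le_div_iff₀ (by positivity), one_mul]
        exact pow_le_pow_right₀ (by norm_num) (by omega)
      · rw [ind_neg h]
        exact mul_nonneg (by positivity) (mul_nonneg (ind_nonneg _) (by positivity))
    refine h4.trans ?_
    rw [Ex_mul]
    refine (mul_le_mul_of_nonneg_left hfw (by positivity)).trans (le_of_eq ?_)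
    have hpA : (2:ℝ) ^ A ≠ 0 := by positivity
    field_simp
  linarith

end FC
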