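import Pool.Agent.H92.FC.Path

/-!
# The deterministic chain argument
-/

namespace FC

open Finset

variable {d : ℕ}

theorem BadIn_mono (R : CRank d) (V : Finset ℕ) {X Y : Finset (Finset ℕ)} (h : X ⊆ Y)
    (hb : BadIn R V X) : BadIn R V Y := by
  obtain ⟨C, hC, h'⟩ := hb
  exact ⟨C, hC.trans (Finset.inter_subset_inter_right h), h'⟩

theorem nb_mono (d m : ℕ) {X Y : Finset (Finset ℕ)} (h : X ⊆ Y) : nb d m X ≤ nb d m Y := by
  unfold nb
  refine Finset.card_le_card fun W hW => ?_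
  rw [Finset.mem_filter] at *
  exact ⟨hW.1, hW.2.trans h⟩

theorem bad_of_nul (R : CRank d) (n : ℕ) (V : Finset ℕ) (X : Finset (Finset ℕ))
    (hX : X ⊆ fc d n) (h : nb d n X < R.nul (X ∩ faces d V)) : BadIn R V X := by
  by_contra hno
  have h1 := nul_le_nb R n (X ∩ faces d V) (Finset.inter_subset_left.trans hX)
    (fun C hC hc => by
      by_contra hb
      exact hno ⟨C, hC, hc, hb⟩)
  have h2 := nb_mono d n (Finset.inter_subset_left : X ∩ faces d V ⊆ X)
  omega

/-- The bound on the nullity at stage `i`. -/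
def Bst (Λ y0 i : ℕ) : ℕ := Λ ^ i * (2 * y0)

theorem Bst_mono (Λ y0 : ℕ) (hΛ : 1 ≤ Λ) {i i' : ℕ} (h : i ≤ i') : Bst Λ y0 i ≤ Bst Λ y0 i' := by
  unfold Bst
  exact Nat.mul_le_mul_right _ (Nat.pow_le_pow_right hΛ h)

theorem chain_det (R : CRank d) (n j I y0 lam L A0 T tstar v : ℕ) (x s : ℝ)
    (X : ℕ → Finset (Finset ℕ)) (hXm : ∀ t t', t ≤ t' → X t ⊆ X t')
    (hXf : ∀ t, X t ⊆ fc d n) (hXn : ∀ t y, R.nul (X (t + y)) ≤ R.nul (X t) + y)
    (hj : 0 < j) (hy0 : 1 ≤ y0)
    -- the event at time `tstar`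
    (hs1 : ¬ BadIn R (range n \ blk (2 ^ I) 0) (X tstar))
    (hs2 : Bst (2 + lam) y0 I < R.nul (X tstar))
    (hs3 : nb d n (X tstar) < L)
    -- numerical conditions
    (hL1 : (L : ℝ) + x ≤ A0) (hL2 : L ≤ y0) (hx : ∀ i < I, (2:ℝ) ^ (i + 1) * x ≤ y0)
    -- pathwise events
    (hTH : ∀ t, t + y0 ≤ tstar → BadIn R (range n \ {v}) (X t) →
      A0 < R.nul (X (t + y0) ∩ faces d (range n \ {v})))
    (hHG0 : ∀ t ≤ tstar, ∀ l < j, (R.nul (X t ∩ faces d (range n \ {v})) : ℝ) ≤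
      R.nul (X t ∩ faces d (range n \ blk (2 ^ 0) l)) + x)
    (hCD : ∀ t, ∀ i < I, ∀ l < j, t + Bst (2 + lam) y0 i ≤ tstar →
      BadIn R (range n \ blk (2 ^ i) l) (X t) → s * (n.choose (d + 1) : ℝ) ≤
        ((clset R (range n \ blk (2 ^ i) l) (X (t + Bst (2 + lam) y0 i))).card : ℝ))
    (hDB : ∀ t, ∀ i < I, t + lam * Bst (2 + lam) y0 i ≤ tstar →
      (∀ l < j, s * (n.choose (d + 1) : ℝ) ≤
        ((clset R (range n \ blk (2 ^ i) l) (X t)).card : ℝ)) →
      ∃ l < j, ∃ l' < j, l ≠ l' ∧ 8 * (Bst (2 + lam) y0 i : ℝ) ≤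
        (R.nul (X (t + lam * Bst (2 + lam) y0 i) ∩
          faces d (range n \ (blk (2 ^ i) l ∪ blk (2 ^ i) l'))) : ℝ) + R.nul (X t))
    (hHG : ∀ t ≤ tstar, ∀ i < I, ∀ l < j, ∀ l' < j, ∀ m < j, l ≠ l' →
      (R.nul (X t ∩ faces d (range n \ (blk (2 ^ i) l ∪ blk (2 ^ i) l'))) : ℝ) ≤
      R.nul (X t ∩ faces d (range n \ blk (2 ^ (i + 1)) m)) + 2 ^ (i + 1) * x)
    -- start
    (hT : T ≤ tstar) (hT1 : R.nul (X T) ≤ 1) (hTb : BadIn R (range n \ {v}) (X T)) : False := by
  have hΛ : 1 ≤ 2 + lam := by omega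
  -- times with small nullity are before tstar
  have hbefore : ∀ t, R.nul (X t) ≤ Bst (2 + lam) y0 I → t ≤ tstar := by
    intro t ht
    by_contra hlt
    have := R.nul_mono (hXm tstar t (not_le.1 hlt).le)
    omega
  have hinv : ∀ i ≤ I, ∃ t ≤ tstar, R.nul (X t) ≤ Bst (2 + lam) y0 i ∧
      ∀ l < j, L ≤ R.nul (X t ∩ faces d (range n \ blk (2 ^ i) l)) := by
    intro i
    induction i with
    | zero =>
      intro _
      have h1 : R.nul (X (T + y0)) ≤ Bst (2 + lam) y0 0 := by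
        have := hXn T y0
        unfold Bst; simp only [pow_zero, one_mul]; omega
      have h2 : T + y0 ≤ tstar := hbefore _ (h1.trans (Bst_mono _ _ hΛ (Nat.zero_le I)))
      refine ⟨T + y0, h2, h1, fun l hl => ?_⟩
      have h3 := hTH T h2 hTb
      have h4 := hHG0 (T + y0) h2 l hl
      have h5 : ((A0 : ℕ) : ℝ) < R.nul (X (T + y0) ∩ faces d (range n \ {v})) := by
        exact_mod_cast h3
      have h6 : (L : ℝ) ≤ R.nul (X (T + y0) ∩ faces d (range n \ blk (2 ^ 0) l)) := by linarith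
      exact_mod_cast h6
    | succ i ih =>
      intro hi
      have hiI : i < I := by omega
      obtain ⟨t, ht, hn, hl⟩ := ih (by omega)
      set B := Bst (2 + lam) y0 i with hB
      have hBs : Bst (2 + lam) y0 (i + 1) = (2 + lam) * B := by
        rw [hB]; unfold Bst; rw [pow_succ]; ring
      have hBI : (2 + lam) * B ≤ Bst (2 + lam) y0 I := by
        rw [← hBs]; exact Bst_mono _ _ hΛ hi
      have hBy : y0 ≤ B := by
        rw [hB]; unfold Bst
        have : 1 ≤ (2 + lam) ^ i := Nat.one_le_pow _ _ (by omega)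
        nlinarith
      -- bad sets at time t
      have hbad : ∀ l < j, BadIn R (range n \ blk (2 ^ i) l) (X t) := by
        intro l hlj
        refine bad_of_nul R n _ _ (hXf t) ?_
        have := nb_mono d n (hXm t tstar ht)
        have := hl l hlj
        omega
      -- first step
      have e1 : R.nul (X (t + B)) ≤ 2 * B := by
        have := hXn t B
        omega
      have h1 : t + B ≤ tstar := hbefore _ (e1.trans (by nlinarith))
      have hcl := fun l (hlj : l < j) => hCD t i hiI l hlj h1 (hbad l hlj)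
      -- second step
      have e2 : R.nul (X (t + B + lam * B)) ≤ (2 + lam) * B := by
        have := hXn (t + B) (lam * B)
        have e3 : (2 + lam) * B = 2 * B + lam * B := by ring
        omega
      have h2 : t + B + lam * B ≤ tstar := hbefore _ (e2.trans hBI)
      obtain ⟨l, hlj, l', hl'j, hne, hnul⟩ := hDB (t + B) i hiI h2 hcl
      refine ⟨t + B + lam * B, h2, by rw [hBs]; exact e2, fun m hm => ?_⟩
      have h3 := hHG (t + B + lam * B) h2 i hiI l hlj l' hl'j m hm hne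
      have h4 : ((R.nul (X (t + B)) : ℕ) : ℝ) ≤ 2 * B := by exact_mod_cast e1
      have h5 := hx i hiI
      have h6 : (y0 : ℝ) ≤ B := by exact_mod_cast hBy
      have h7 : (L : ℝ) ≤ y0 := by exact_mod_cast hL2
      have h8 : (1:ℝ) ≤ y0 := by exact_mod_cast hy0
      have h9 : (L : ℝ) ≤ R.nul (X (t + B + lam * B) ∩ faces d (range n \ blk (2 ^ (i + 1)) m)) := by
        linarith
      exact_mod_cast h9
  obtain ⟨t, ht, _, hl⟩ := hinv I le_rfl
  apply hs1
  refine BadIn_mono R _ (hXm t tstar ht) (bad_of_nul R n _ _ (hXf t) ?_)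
  have := nb_mono d n (hXm t tstar ht)
  have := hl 0 hj
  omega

end FC
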