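import Pool.Agent.H92.FC.DB
import Pool.Agent.H92.FC.Pair

/-!
# Two closures intersect: final form
-/

namespace FC

open Finset

variable {d : ℕ}

theorem db (R : CRank d) (n k j : ℕ) (hjk : j * k ≤ n) (s : ℝ) (hs : 0 < s)
    (hj : 2 ≤ (j : ℝ) * s ^ 2) (q p A : ℝ) (hq0 : 0 ≤ q) (hq1 : q ≤ 1) (hp0 : 0 ≤ p)
    (hp1 : p ≤ 1) (hqp : q * p < 1)
    (hA : A ≤ q * (1 - p) * s ^ 2 * (n.choose (d + 1) : ℝ) / 8) :
    Ex2 (fc d n) q p (fun X Y => ind ((X.card : ℝ) ≤ s ^ 2 * (n.choose (d + 1) : ℝ) / 4 ∧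
      (∀ l < j, s * (n.choose (d + 1) : ℝ) ≤ ((clset R (range n \ blk k l) X).card : ℝ)) ∧
      (∀ l < j, ∀ l' < j, l ≠ l' →
        (R.nul (Y ∩ faces d (range n \ (blk k l ∪ blk k l'))) : ℝ) + R.nul X < A + R.nul
          (X ∩ faces d (range n \ blk k l)) + R.nul (X ∩ faces d (range n \ blk k l'))))) ≤
    Real.exp (-(q * (1 - p) * s ^ 2 * (n.choose (d + 1) : ℝ) / 64)) :=
  h71_db_of (fun G q p hq0 hq1 hp0 hp1 hqp f => Ex2_forward G q p hq0 hq1 hp0 hp1 hqp f)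
    R n k j hjk s hs hj q p A hq0 hq1 hp0 hp1 hqp hA

end FC
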