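import Pool.Agent.H92.FC.Transfer

/-!
# Transfer with a bound on the time
-/

namespace FC

open Finset

variable {α : Type*} [DecidableEq α]

open Classical in
theorem transfer2 (G : Finset α) (A B : Finset α → Prop)
    (hA : ∀ X Y, X ⊆ Y → Y ⊆ G → A Y → A X) (hB : ∀ X Y, X ⊆ Y → Y ⊆ G → B X → B Y)
    (q1 q2 : ℝ) (h0 : 0 ≤ q1) (h12 : q1 ≤ q2) (h1 : q2 ≤ 1)
    (hgap : 32 * (G.card * q2) + 16 ≤ (G.card * (q2 - q1)) ^ 2) :
    ∃ t ≤ G.card, (t : ℝ) ≤ G.card * q2 ∧
      ((univ.filter (fun e : Ord G => A (pre e t))).card : ℝ) ≤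
        2 * Ex G q1 (fun X => ind (A X)) * (Fintype.card (Ord G) : ℝ) ∧
      ((univ.filter (fun e : Ord G => B (pre e t))).card : ℝ) ≤
        2 * Ex G q2 (fun X => ind (B X)) * (Fintype.card (Ord G) : ℝ) := by
  set N : ℕ := G.card with hN
  have hN0 : (0 : ℝ) ≤ N := Nat.cast_nonneg N
  set D : ℝ := N * (q2 - q1) / 2 with hDdef
  have hD0 : 0 ≤ D := by
    rw [hDdef]; exact div_nonneg (mul_nonneg hN0 (by linarith)) (by norm_num)
  have hD2 : 8 * (N * q2) + 4 ≤ D ^ 2 := by
    have : D ^ 2 = (N * (q2 - q1)) ^ 2 / 4 := by rw [hDdef]; ring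
    rw [this]; linarith
  have hNq2 : 0 ≤ (N : ℝ) * q2 := mul_nonneg hN0 (by linarith)
  have hNq1 : (N : ℝ) * q1 ≤ N * q2 := mul_le_mul_of_nonneg_left h12 hN0
  have hDpos : 0 < D := by
    rcases hD0.lt_or_eq with h | h
    · exact h
    · exfalso; rw [← h] at hD2; nlinarith
  set t : ℕ := ⌈(N : ℝ) * (q1 + q2) / 2⌉₊ with ht
  have hnn : 0 ≤ (N : ℝ) * (q1 + q2) / 2 :=
    div_nonneg (mul_nonneg hN0 (by linarith)) (by norm_num)
  have ht1 : (N : ℝ) * (q1 + q2) / 2 ≤ t := Nat.le_ceil _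
  have ht2 : (t : ℝ) < (N : ℝ) * (q1 + q2) / 2 + 1 := Nat.ceil_lt_add_one hnn
  have htN : t ≤ N := by
    rw [ht]
    refine Nat.ceil_le.2 ?_
    nlinarith
  have hD2' : 2 ≤ D := by
    by_contra h
    have h' := not_le.1 h
    nlinarith
  have htq : (t : ℝ) ≤ N * q2 := by
    have e1 : (N : ℝ) * (q1 + q2) / 2 = N * q2 - D := by rw [hDdef]; ring
    linarith
  refine ⟨t, htN, htq, ?_, ?_⟩
  · rw [h27_card_eq]
    have hkey := h27_key G q1 (fun X => ind (A X))
    have hch := h27_cheb N q1 D h0 (h12.trans h1) hDpos (fun k => k ≤ t)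
      (by
        intro k hk
        have hk' : (t : ℝ) < k := by exact_mod_cast not_le.1 hk
        refine le_trans ?_ (le_abs_self _)
        rw [hDdef]
        nlinarith) (by linarith)
    have hlow : (∑ e : Ord G, ind (A (pre e t))) *
        Ex (univ : Finset (Fin N)) q1 (fun Y => ind (Y.card ≤ t)) ≤
        Ex (univ : Finset (Fin N)) q1 (fun Y => ∑ e : Ord G, ind (A (pre e Y.card))) := by
      rw [← Ex_mul]
      refine Ex_mono _ q1 h0 (h12.trans h1) _ _ fun Y _ => ?_
      by_cases h : Y.card ≤ t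
      · rw [ind_pos h, mul_one]
        refine Finset.sum_le_sum fun e _ => ind_mono fun hAe => ?_
        exact hA _ _ (h27_pre_mono e h) (h27_pre_sub e t) hAe
      · rw [ind_neg h, mul_zero]
        exact Finset.sum_nonneg fun e _ => ind_nonneg _
    have hs0 : 0 ≤ ∑ e : Ord G, ind (A (pre e t)) := Finset.sum_nonneg fun e _ => ind_nonneg _
    rw [← hkey] at hlow
    nlinarith [mul_le_mul_of_nonneg_left hch hs0]
  · rw [h27_card_eq]
    have hkey := h27_key G q2 (fun X => ind (B X))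
    have hch := h27_cheb N q2 D (h0.trans h12) h1 hDpos (fun k => t ≤ k)
      (by
        intro k hk
        have hk1 : k + 1 ≤ t := by
          have := not_le.1 hk
          omega
        have hk' : (k : ℝ) + 1 ≤ t := by exact_mod_cast hk1
        rw [abs_sub_comm]
        refine le_trans ?_ (le_abs_self _)
        rw [hDdef]
        nlinarith) (by linarith)
    have hlow : (∑ e : Ord G, ind (B (pre e t))) *
        Ex (univ : Finset (Fin N)) q2 (fun Y => ind (t ≤ Y.card)) ≤
        Ex (univ : Finset (Fin N)) q2 (fun Y => ∑ e : Ord G, ind (B (pre e Y.card))) := by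
      rw [← Ex_mul]
      refine Ex_mono _ q2 (h0.trans h12) h1 _ _ fun Y _ => ?_
      by_cases h : t ≤ Y.card
      · rw [ind_pos h, mul_one]
        refine Finset.sum_le_sum fun e _ => ind_mono fun hBe => ?_
        exact hB _ _ (h27_pre_mono e h) (h27_pre_sub e _) hBe
      · rw [ind_neg h, mul_zero]
        exact Finset.sum_nonneg fun e _ => ind_nonneg _
    have hs0 : 0 ≤ ∑ e : Ord G, ind (B (pre e t)) := Finset.sum_nonneg fun e _ => ind_nonneg _
    rw [← hkey] at hlow
    nlinarith [mul_le_mul_of_nonneg_left hch hs0]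

end FC
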