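import Pool.Agent.H92.FC.HG
import Pool.Agent.H92.FC.DB2
import Pool.Agent.H92.FC.CD
import Pool.Agent.H92.FC.Main
import Pool.Agent.H92.FC.Chain
import Pool.Agent.H92.FC.Transfer2

/-!
# Counting orders with a pathwise failure
-/

namespace FC

open Finset

open Classical in
/-- number of orders with a property -/
noncomputable def cn {α : Type*} [DecidableEq α] {G : Finset α} (Q : Ord G → Prop) : ℝ :=
  ((univ.filter (fun e : Ord G => Q e)).card : ℝ)

section
variable {α : Type*} [DecidableEq α] {G : Finset α}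

theorem cn_nonneg (Q : Ord G → Prop) : 0 ≤ cn Q := Nat.cast_nonneg _

theorem cn_mono {Q Q' : Ord G → Prop} (h : ∀ e, Q e → Q' e) : cn Q ≤ cn Q' := by
  classical
  unfold cn
  have : (univ.filter (fun e : Ord G => Q e)).card ≤ (univ.filter (fun e : Ord G => Q' e)).card :=
    Finset.card_le_card fun e he => by
      rw [Finset.mem_filter] at *
      exact ⟨he.1, h e he.2⟩
  exact_mod_cast this

theorem cn_eq_sum (Q : Ord G → Prop) : cn Q = ∑ e : Ord G, ind (Q e) := by
  unfold cn
  rw [Finset.card_filter]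
  push_cast
  refine Finset.sum_congr rfl fun e _ => ?_
  by_cases h : Q e
  · rw [if_pos h, ind_pos h]
  · rw [if_neg h, ind_neg h]

theorem cn_or (Q Q' : Ord G → Prop) : cn (fun e => Q e ∨ Q' e) ≤ cn Q + cn Q' := by
  rw [cn_eq_sum, cn_eq_sum, cn_eq_sum, ← Finset.sum_add_distrib]
  exact Finset.sum_le_sum fun e _ => ind_or_le _ _

theorem cn_union {ι : Type*} (S : Finset ι) (Q : ι → Ord G → Prop) (b : ℝ)
    (h : ∀ i ∈ S, cn (Q i) ≤ b) : cn (fun e => ∃ i ∈ S, Q i e) ≤ S.card * b := by
  classical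
  induction S using Finset.induction_on with
  | empty =>
    have : cn (fun e : Ord G => ∃ i ∈ (∅ : Finset ι), Q i e) = 0 := by
      unfold cn; simp
    rw [this]; simp
  | insert a S ha ih =>
    have h1 := ih fun i hi => h i (Finset.mem_insert_of_mem hi)
    have h2 : cn (fun e => ∃ i ∈ insert a S, Q i e) ≤ cn (fun e => Q a e ∨ ∃ i ∈ S, Q i e) := by
      refine cn_mono fun e he => ?_
      obtain ⟨i, hi, hQ⟩ := he
      rcases Finset.mem_insert.1 hi with rfl | hi
      · exact Or.inl hQ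
      · exact Or.inr ⟨i, hi, hQ⟩
    have h3 := cn_or (Q a) (fun e => ∃ i ∈ S, Q i e)
    have h4 := h a (Finset.mem_insert_self a S)
    rw [Finset.card_insert_of_notMem ha]
    push_cast
    linarith

theorem cn_pair (t t' : ℕ) (ht : t ≤ t') (ht0 : 0 < t') (ht' : t' ≤ G.card)
    (Q : Finset α → Finset α → Prop) (δ : ℝ)
    (h : Ex2 G ((t' : ℝ) / G.card) ((t : ℝ) / t')
        (fun X Y => ind (X.card = t ∧ Y.card = t') * ind (Q X Y)) ≤ δ) :
    cn (fun e : Ord G => Q (pre e t) (pre e t')) ≤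
      ((G.card : ℝ) + 1) ^ 2 * δ * (Fintype.card (Ord G) : ℝ) := by
  rw [cn_eq_sum]
  refine (pair_transfer G t t' ht ht0 ht' (fun X Y => ind (Q X Y)) (fun _ _ => ind_nonneg _)).trans ?_
  have h1 : (0:ℝ) ≤ (Fintype.card (Ord G) : ℝ) := Nat.cast_nonneg _
  refine mul_le_mul_of_nonneg_right ?_ h1
  exact mul_le_mul_of_nonneg_left h (by positivity)

theorem Ex_one {α : Type*} [DecidableEq α] (G : Finset α) (f : Finset α → ℝ) :
    Ex G 1 f = f G := by
  induction G using Finset.induction_on generalizing f with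
  | empty => exact Ex_empty _ _
  | insert a G ha ih =>
    rw [Ex_insert G a ha, ih (fun X => f (insert a X))]; ring

theorem cn_single (t : ℕ) (ht0 : 0 < t) (ht' : t ≤ G.card) (Q : Finset α → Prop) (δ : ℝ)
    (h : Ex G ((t : ℝ) / G.card) (fun X => ind (Q X)) ≤ δ) :
    cn (fun e : Ord G => Q (pre e t)) ≤
      ((G.card : ℝ) + 1) ^ 2 * δ * (Fintype.card (Ord G) : ℝ) := by
  refine cn_pair t t le_rfl ht0 ht' (fun X _ => Q X) δ (le_trans ?_ h)
  unfold Ex2
  have ht0' : (0:ℝ) < t := by exact_mod_cast ht0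
  have hN : (0:ℝ) < G.card := by exact_mod_cast (lt_of_lt_of_le ht0 ht')
  have hq1 : (t : ℝ) / G.card ≤ 1 := by
    rw [div_le_one hN]; exact_mod_cast ht'
  refine Ex_mono _ _ (by positivity) hq1 _ _ fun Y _ => ?_
  rw [div_self ht0'.ne', Ex_one]
  have h1 := ind_le_one (Y.card = t ∧ Y.card = t)
  have h2 := ind_nonneg (Q Y)
  nlinarith

end

variable {d : ℕ}

/-- homogenisation for two vertex sets of the same size -/
theorem hg2 (R : CRank d) (hs : SwapInv R) (hd : 1 ≤ d) (n : ℕ) (hn : 1 ≤ n) (q x : ℝ)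
    (hq0 : 0 ≤ q) (hq1 : q ≤ 1) (hq : q ≤ ((d : ℝ) + 3) / n)
    (hx0 : 0 ≤ x) (hx : x ≤ 4 * ((d : ℝ) + 3) * (n : ℝ) ^ (d - 1)) (w : ℕ) :
    ∀ U U' : Finset ℕ, U ⊆ range n → U' ⊆ range n → U.card = U'.card → (U \ U').card = w →
    Ex (fc d n) q (fun X => ind ((w : ℝ) * x < |(R.nul (X ∩ faces d (range n \ U)) : ℝ) -
      R.nul (X ∩ faces d (range n \ U'))|)) ≤
    w * (4 * Real.exp (-(x ^ 2 / (16 * ((d : ℝ) + 3) * (n : ℝ) ^ (d - 1))))) := by
  induction w with
  | zero =>
    intro U U' _ _ hc hw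
    have h1 : U ⊆ U' := by
      rw [← Finset.sdiff_eq_empty_iff_subset]; exact Finset.card_eq_zero.1 hw
    have h2 : U = U' := Finset.eq_of_subset_of_card_le h1 hc.ge
    subst h2
    simp only [sub_self, abs_zero, Nat.cast_zero, zero_mul, lt_irrefl]
    rw [← Ex_const (fc d n) q 0]
    refine le_of_eq (Ex_congr _ _ _ _ fun X _ => ind_neg (by simp))
  | succ w ih =>
    intro U U' hU hU' hc hw
    -- choose p ∈ U \ U', r ∈ U' \ U
    have hne : (U \ U').Nonempty := by rw [← Finset.card_pos, hw]; omega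
    obtain ⟨p, hp⟩ := hne
    rw [Finset.mem_sdiff] at hp
    have hw' : (U' \ U).card = w + 1 := by
      have e1 := Finset.card_sdiff_add_card_inter U U'
      have e2 := Finset.card_sdiff_add_card_inter U' U
      rw [Finset.inter_comm] at e2
      omega
    have hne' : (U' \ U).Nonempty := by rw [← Finset.card_pos, hw']; omega
    obtain ⟨r, hr⟩ := hne'
    rw [Finset.mem_sdiff] at hr
    set W := U.erase p with hW
    set U'' := insert r W with hU''
    have hpr : p ≠ r := fun h => hr.2 (h ▸ hp.1)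
    have hrW : r ∉ W := fun h => hr.2 (Finset.mem_of_mem_erase h)
    have hpW : p ∉ W := Finset.notMem_erase p U
    have hUW : U = insert p W := (Finset.insert_erase hp.1).symm
    have hWn : W ⊆ range n := (Finset.erase_subset p U).trans hU
    have hU''n : U'' ⊆ range n := Finset.insert_subset (hU' hr.1) hWn
    have hc'' : U''.card = U'.card := by
      rw [hU'', Finset.card_insert_of_notMem hrW, hW, Finset.card_erase_of_mem hp.1, ← hc]
      have := Finset.card_pos.2 ⟨p, hp.1⟩
      omega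
    have hw'' : (U'' \ U').card = w := by
      have e : U'' \ U' = (U \ U').erase p := by
        ext y
        simp only [hU'', hW, Finset.mem_sdiff, Finset.mem_insert, Finset.mem_erase]
        constructor
        · rintro ⟨h1 | h1, h2⟩
          · exact absurd (h1 ▸ hr.1) h2
          · exact ⟨h1.1, h1.2, h2⟩
        · rintro ⟨h1, h2, h3⟩
          exact ⟨Or.inr ⟨h1, h2⟩, h3⟩
      rw [e, Finset.card_erase_of_mem (Finset.mem_sdiff.2 hp), hw]; rfl
    have h1 := ih U'' U' hU''n hU' hc'' hw''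
    have h2 := hg R hs hd n hn W hWn p r (hU hp.1) (hU' hr.1) hpW hrW q x hq0 hq1 hq hx0 hx
    have h3 : Ex (fc d n) q (fun X => ind (((w + 1 : ℕ) : ℝ) * x <
        |(R.nul (X ∩ faces d (range n \ U)) : ℝ) - R.nul (X ∩ faces d (range n \ U'))|)) ≤
        Ex (fc d n) q (fun X => ind (x ≤ |(R.nul (X ∩ faces d (range n \ insert p W)) : ℝ) -
      R.nul (X ∩ faces d (range n \ insert r W))|) +
        ind ((w : ℝ) * x < |(R.nul (X ∩ faces d (range n \ U'')) : ℝ) -
      R.nul (X ∩ faces d (range n \ U'))|)) := by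
      refine Ex_mono _ _ hq0 hq1 _ _ fun X _ => ?_
      refine (ind_mono ?_).trans (ind_or_le _ _)
      intro h
      rw [← hUW, ← hU'']
      by_contra hno
      rw [not_or, not_le, not_lt] at hno
      have := abs_sub_le (R.nul (X ∩ faces d (range n \ U)) : ℝ)
        (R.nul (X ∩ faces d (range n \ U''))) (R.nul (X ∩ faces d (range n \ U')))
      push_cast at h
      linarith
    rw [Ex_add] at h3
    push_cast
    push_cast at h3
    linarith

end FC
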