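import Pool.Agent.H92.FC.AsmA

/-!
# Bounds for the pathwise failures
-/

namespace FC

open Finset

variable {d : ℕ}

theorem exp_inv_pow (u : ℝ) (a : ℕ) (h0 : 0 ≤ u) (h1 : u ≤ 1 / 2) :
    ((1 - u) ^ a)⁻¹ ≤ Real.exp (2 * a * u) := by
  have h2 : Real.exp (-(2 * u)) ≤ 1 - u := by
    -- exp(-2u) ≤ 1 - u for 0 ≤ u ≤ 1/2
    have h3 := Real.add_one_le_exp (2 * u)
    have h4 : 0 < Real.exp (2 * u) := Real.exp_pos _
    rw [Real.exp_neg, inv_le_comm₀ h4 (by linarith)]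
    have h5 : (1 - u)⁻¹ ≤ 1 + 2 * u := by
      rw [inv_le_comm₀ (by linarith) (by linarith), inv_le_comm₀ (by linarith) (by linarith)]
      rw [inv_le_iff_one_le_mul₀ (by linarith)]
      nlinarith
    linarith
  have h3 : Real.exp (-(2 * u)) ^ a ≤ (1 - u) ^ a := pow_le_pow_left₀ (Real.exp_pos _).le h2 a
  have h4 : Real.exp (-(2 * u)) ^ a = (Real.exp (2 * a * u))⁻¹ := by
    rw [← Real.exp_nat_mul, ← Real.exp_neg]; congr 1; ring
  rw [h4] at h3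
  rw [inv_le_comm₀ (pow_pos (by linarith) a) (Real.exp_pos _)]
  exact h3

theorem pow_exp_le (u : ℝ) (g : ℕ) (h1 : u ≤ 1) : (1 - u) ^ g ≤ Real.exp (-(g * u)) := by
  have h2 : 1 - u ≤ Real.exp (-u) := by
    have := Real.add_one_le_exp (-u); linarith
  calc (1 - u) ^ g ≤ Real.exp (-u) ^ g := pow_le_pow_left₀ (by linarith) h2 g
    _ = _ := by rw [← Real.exp_nat_mul]; congr 1; ring

theorem two_pow_le_exp (A : ℕ) : (2:ℝ) ^ A ≤ Real.exp A := by
  have h3 : (2:ℝ) ≤ Real.exp 1 := by linarith [Real.exp_one_gt_d9]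
  calc (2:ℝ) ^ A ≤ Real.exp 1 ^ A := pow_le_pow_left₀ (by norm_num) h3 _
    _ = Real.exp A := by rw [← Real.exp_nat_mul, mul_one]

/-- basic data at fixed `n` -/
structure Dat (d n t t' : ℕ) (q2 : ℝ) : Prop where
  hn : 1 ≤ n
  tt : t ≤ t'
  t0 : 0 < t'
  tN : t' ≤ (fc d n).card
  tq : (t' : ℝ) ≤ (fc d n).card * q2
  q2n : q2 ≤ ((d : ℝ) + 3) / n
  q2s : ((d : ℝ) + 3) / n ≤ 1 / 4

theorem Dat.facts {n t t' : ℕ} {q2 : ℝ} (D : Dat d n t t' q2) :
    (0:ℝ) < (fc d n).card ∧ (0:ℝ) < t' ∧ (t' : ℝ) / (fc d n).card ≤ ((d : ℝ) + 3) / n ∧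
    (t' : ℝ) / (fc d n).card ≤ 1 / 4 ∧ (0:ℝ) ≤ (t' : ℝ) / (fc d n).card ∧
    (0:ℝ) ≤ (t : ℝ) / t' ∧ (t : ℝ) / t' ≤ 1 ∧
    (t' : ℝ) / (fc d n).card * (1 - (t : ℝ) / t') = ((t' : ℝ) - t) / (fc d n).card ∧
    (t' : ℝ) / (fc d n).card * ((t : ℝ) / t') = (t : ℝ) / (fc d n).card ∧
    (t' : ℝ) ≤ ((d : ℝ) + 3) * (n : ℝ) ^ d := by
  have h1 : (0:ℝ) < t' := by exact_mod_cast D.t0
  have h2 : (0:ℝ) < (fc d n).card := by exact_mod_cast lt_of_lt_of_le D.t0 D.tN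
  have hn : (0:ℝ) < n := by exact_mod_cast (by have := D.hn; omega : 0 < n)
  have h3 : (t' : ℝ) / (fc d n).card ≤ ((d : ℝ) + 3) / n := by
    rw [div_le_iff₀ h2]
    refine D.tq.trans ?_
    rw [mul_comm]
    exact mul_le_mul_of_nonneg_right D.q2n h2.le
  have htt : (t : ℝ) ≤ t' := by exact_mod_cast D.tt
  refine ⟨h2, h1, h3, h3.trans D.q2s, by positivity, by positivity, ?_, ?_, ?_, ?_⟩
  · rw [div_le_one h1]; exact htt
  · field_simp
  · field_simp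
  · have h4 : ((fc d n).card : ℝ) ≤ (n : ℝ) ^ (d + 1) := by
      rw [card_fc]; exact_mod_cast Nat.choose_le_pow n (d + 1)
    rw [div_le_iff₀ h2] at h3
    refine h3.trans ?_
    calc ((d : ℝ) + 3) / n * (fc d n).card ≤ ((d : ℝ) + 3) / n * (n : ℝ) ^ (d + 1) :=
          mul_le_mul_of_nonneg_left h4 (by positivity)
      _ = _ := by rw [pow_succ]; field_simp

/-- the factor `p ^ g` -/
theorem Dat.pg {n t t' : ℕ} {q2 : ℝ} (D : Dat d n t t' q2) (r1 : ℝ) (hr1 : 0 ≤ r1) (g : ℕ)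
    (hg : r1 * (((d : ℝ) + 3) * (n : ℝ) ^ d) ≤ g) :
    ((t : ℝ) / t') ^ g ≤ Real.exp (-(r1 * ((t' : ℝ) - t))) := by
  obtain ⟨h2, h1, _, _, _, _, _, _, _, h10⟩ := D.facts
  have htt : (t : ℝ) ≤ t' := by exact_mod_cast D.tt
  have e : (t : ℝ) / t' = 1 - ((t' : ℝ) - t) / t' := by field_simp; ring
  rw [e]
  refine (pow_exp_le _ g ?_).trans ?_
  · rw [div_le_one h1]
    have : (0:ℝ) ≤ t := Nat.cast_nonneg t
    linarith
  · apply Real.exp_le_exp.2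
    have h3 : r1 * (t' : ℝ) ≤ g := (mul_le_mul_of_nonneg_left h10 hr1).trans hg
    have h4 : r1 * ((t' : ℝ) - t) ≤ g * (((t' : ℝ) - t) / t') := by
      rw [mul_div_assoc', le_div_iff₀ h1]
      have : 0 ≤ (t' : ℝ) - t := by linarith
      nlinarith
    linarith

variable (R : CRank d)

theorem th_count {n t t' : ℕ} {q2 : ℝ} (D : Dat d n t t' q2) (ρ r1 δ : ℝ) (hr1 : 0 < r1)
    (g A0 y0 : ℕ) (hty : t' = t + y0)
    (hg : r1 * (((d : ℝ) + 3) * (n : ℝ) ^ d) ≤ g) (hg2 : (2 * g : ℝ) ≤ ρ * (n : ℝ) ^ d)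
    (hA0 : (A0 : ℝ) ≤ r1 * y0 / 2) (hδ : 3 * Real.exp (-(r1 * y0 / 8)) ≤ δ)
    (V : Finset ℕ) (hV : V ⊆ range n) :
    cn (fun e : Ord (fc d n) => BadIn R V (pre e t) ∧ ¬ SmallCore d n ρ (pre e t') ∧
      R.nul (pre e t' ∩ faces d V) ≤ R.nul (pre e t ∩ faces d V) + A0) ≤
    (((fc d n).card : ℝ) + 1) ^ 2 * δ * (Fintype.card (Ord (fc d n)) : ℝ) := by
  obtain ⟨h2, h1, _, hq14, hq0, hp0, hp1, _, _, _⟩ := D.facts
  refine cn_pair t t' D.tt D.t0 D.tN (fun X Y => BadIn R V X ∧ ¬ SmallCore d n ρ Y ∧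
      R.nul (Y ∩ faces d V) ≤ R.nul (X ∩ faces d V) + A0) δ ?_
  have hq1 : (t' : ℝ) / (fc d n).card ≤ 1 := by linarith
  unfold Ex2
  refine Ex_le_const _ _ hq0 hq1 _ _ fun Y hY => ?_
  have hδ0 : 0 ≤ δ := le_trans (by positivity) hδ
  by_cases hsm : SmallCore d n ρ Y
  · refine (Ex_le_const _ _ hp0 hp1 _ 0 fun X _ => ?_).trans hδ0
    beta_reduce
    rw [ind_neg (p := BadIn R V X ∧ ¬ SmallCore d n ρ Y ∧
      R.nul (Y ∩ faces d V) ≤ R.nul (X ∩ faces d V) + A0) (fun h => h.2.1 hsm), mul_zero]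
  · have h3 := th_rel R n ρ V hV Y hY hsm g A0 hg2 ((t : ℝ) / t') hp0 hp1
    refine (Ex_mono _ _ hp0 hp1 _ _ fun X _ => ?_).trans (h3.trans ?_)
    · have i1 := ind_le_one (X.card = t ∧ Y.card = t')
      have i2 := ind_nonneg (BadIn R V X ∧ ¬ SmallCore d n ρ Y ∧
        R.nul (Y ∩ faces d V) ≤ R.nul (X ∩ faces d V) + A0)
      have i3 : ind (BadIn R V X ∧ ¬ SmallCore d n ρ Y ∧
        R.nul (Y ∩ faces d V) ≤ R.nul (X ∩ faces d V) + A0) ≤ ind (BadIn R V X ∧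
        R.nul (Y ∩ faces d V) ≤ R.nul (X ∩ faces d V) + A0) := ind_mono fun h => ⟨h.1, h.2.2⟩
      nlinarith
    · have h4 := D.pg r1 hr1.le g hg
      have h5 : (t' : ℝ) - t = y0 := by rw [hty]; push_cast; ring
      rw [h5] at h4
      have hy0 : (0:ℝ) ≤ y0 := Nat.cast_nonneg _
      calc (2:ℝ) ^ A0 * ((t : ℝ) / t') ^ g ≤ Real.exp A0 * Real.exp (-(r1 * y0)) :=
            mul_le_mul (two_pow_le_exp A0) h4 (by positivity) (Real.exp_pos _).le
        _ = Real.exp (A0 - r1 * y0) := by rw [← Real.exp_add]; congr 1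
        _ ≤ Real.exp (-(r1 * y0 / 8)) := by
            apply Real.exp_le_exp.2
            have : 0 ≤ r1 * y0 := by positivity
            linarith
        _ ≤ 3 * Real.exp (-(r1 * y0 / 8)) := by
            have := Real.exp_pos (-(r1 * y0 / 8)); linarith
        _ ≤ δ := hδ

theorem cd_count {n t t' : ℕ} {q2 : ℝ} (D : Dat d n t t' q2) (ρ r1 s δ : ℝ) (hr1 : 0 < r1)
    (hs : s = r1 / 32) (g B y0 : ℕ) (hty : t' = t + B) (hyB : y0 ≤ B)
    (hg : r1 * (((d : ℝ) + 3) * (n : ℝ) ^ d) ≤ g) (hg2 : (2 * g : ℝ) ≤ ρ * (n : ℝ) ^ d)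
    (hδ : 3 * Real.exp (-(r1 * y0 / 8)) ≤ δ)
    (V : Finset ℕ) (hV : V ⊆ range n) :
    cn (fun e : Ord (fc d n) => BadIn R V (pre e t) ∧ ¬ SmallCore d n ρ (pre e t') ∧
      ((clset R V (pre e t')).card : ℝ) < s * (n.choose (d + 1) : ℝ)) ≤
    (((fc d n).card : ℝ) + 1) ^ 2 * δ * (Fintype.card (Ord (fc d n)) : ℝ) := by
  obtain ⟨h2, h1, _, hq14, hq0, hp0, hp1, hqp1, hqp2, _⟩ := D.facts
  have hs0 : 0 < s := by rw [hs]; positivity
  set a : ℕ := ⌊s * (n.choose (d + 1) : ℝ)⌋₊ with ha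
  have hN : ((fc d n).card : ℝ) = (n.choose (d + 1) : ℝ) := by rw [card_fc]
  refine (cn_mono (Q' := fun e : Ord (fc d n) => BadIn R V (pre e t) ∧
    ¬ SmallCore d n ρ (pre e t') ∧ (clset R V (pre e t')).card ≤ a) fun e he => ?_).trans ?_
  · refine ⟨he.1, he.2.1, ?_⟩
    exact Nat.le_floor he.2.2.le
  refine cn_pair t t' D.tt D.t0 D.tN (fun X Y => BadIn R V X ∧ ¬ SmallCore d n ρ Y ∧
      (clset R V Y).card ≤ a) δ ?_
  set q : ℝ := (t' : ℝ) / (fc d n).card with hq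
  set p : ℝ := (t : ℝ) / t' with hp
  have hq1 : q ≤ 1 := by linarith
  have htt : (t : ℝ) ≤ t' := by exact_mod_cast D.tt
  have hqp_le : q * p ≤ 1 / 4 := by nlinarith
  have hqp_lt : q * p < 1 := by linarith
  have hBe : (t' : ℝ) - t = B := by rw [hty]; push_cast; ring
  rw [hBe] at hqp1
  have hB0 : (0:ℝ) ≤ B := Nat.cast_nonneg _
  have hBt : (B : ℝ) ≤ t' := by
    have : (0:ℝ) ≤ t := Nat.cast_nonneg _
    linarith
  have hBN : (B : ℝ) / (fc d n).card ≤ 1 / 4 :=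
    le_trans (div_le_div_of_nonneg_right hBt h2.le) hq14
  set u : ℝ := q * (1 - p) / (1 - q * p) with hu
  have hu0 : 0 ≤ u := by
    rw [hu, hqp1]; exact div_nonneg (by positivity) (by linarith)
  have hu2 : u ≤ 2 * (B / (fc d n).card) := by
    rw [hu, hqp1, div_le_iff₀ (by linarith)]
    have : 0 ≤ (B : ℝ) / (fc d n).card := by positivity
    nlinarith
  have hu1 : u ≤ 1 / 2 := by linarith
  have h3 := cd R n ρ V hV g ⌊r1 * B / 2⌋₊ a hg2 q p hq0 hq1 hp0 hp1 (by linarith) hqp_lt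
  refine le_trans ?_ (h3.trans ?_)
  · unfold Ex2
    refine Ex_mono _ _ hq0 hq1 _ _ fun Y _ => Ex_mono _ _ hp0 hp1 _ _ fun X _ => ?_
    have i1 := ind_le_one (X.card = t ∧ Y.card = t')
    have i2 := ind_nonneg (BadIn R V X ∧ ¬ SmallCore d n ρ Y ∧ (clset R V Y).card ≤ a)
    nlinarith
  · have h4 := D.pg r1 hr1.le g hg
    rw [hBe, ← hp] at h4
    set A := ⌊r1 * B / 2⌋₊ with hA
    have hA1 : (A : ℝ) ≤ r1 * B / 2 := Nat.floor_le (by positivity)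
    have hA2 : r1 * B / 2 < A + 1 := Nat.lt_floor_add_one _
    have hyB' : (y0 : ℝ) ≤ B := by exact_mod_cast hyB
    have hrB : 0 ≤ r1 * B := by positivity
    have e1 : (2:ℝ) ^ A * p ^ g ≤ Real.exp (-(r1 * B / 8)) := by
      calc (2:ℝ) ^ A * p ^ g ≤ Real.exp A * Real.exp (-(r1 * B)) :=
            mul_le_mul (two_pow_le_exp A) h4 (by positivity) (Real.exp_pos _).le
        _ = Real.exp (A - r1 * B) := by rw [← Real.exp_add]; congr 1
        _ ≤ _ := by apply Real.exp_le_exp.2; linarith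
    have e2 : ((2:ℝ) ^ A)⁻¹ ≤ 2 * Real.exp (-(r1 * B / 4)) := by
      have h5 : Real.exp (r1 * B / 4) ≤ 2 * 2 ^ A := by
        have h6 : Real.exp (r1 * B / 4) ≤ Real.exp ((A + 1 : ℕ) / 2) := by
          apply Real.exp_le_exp.2; push_cast; linarith
        have h7 : Real.exp (((A + 1 : ℕ) : ℝ) / 2) = Real.exp (1 / 2) ^ (A + 1) := by
          rw [← Real.exp_nat_mul]; congr 1; ring
        have h8 : Real.exp (1 / 2) ≤ 2 := by
          have h9 : Real.exp (1 / 2) ^ 2 = Real.exp 1 := by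
            rw [← Real.exp_nat_mul]; norm_num
          have := Real.exp_one_lt_d9
          nlinarith [Real.exp_pos (1 / 2 : ℝ)]
        calc _ ≤ _ := h6
          _ = _ := h7
          _ ≤ 2 ^ (A + 1) := pow_le_pow_left₀ (Real.exp_pos _).le h8 _
          _ = _ := by ring
      rw [Real.exp_neg]
      rw [inv_le_comm₀ (by positivity) (by positivity), mul_inv, inv_inv]
      linarith
    have e3 : ((1 - u) ^ a)⁻¹ ≤ Real.exp (r1 * B / 8) := by
      refine (exp_inv_pow u a hu0 hu1).trans (Real.exp_le_exp.2 ?_)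
      have ha1 : (a : ℝ) ≤ s * (n.choose (d + 1) : ℝ) := Nat.floor_le (by positivity)
      have ha0 : (0:ℝ) ≤ a := Nat.cast_nonneg _
      calc 2 * (a : ℝ) * u ≤ 2 * (s * (n.choose (d + 1) : ℝ)) * (2 * (B / (fc d n).card)) := by
            apply mul_le_mul (by linarith) hu2 hu0 (by positivity)
        _ = 4 * s * B := by rw [← hN]; field_simp; ring
        _ = r1 * B / 8 := by rw [hs]; ring
    have e4 : ((2:ℝ) ^ A)⁻¹ * ((1 - u) ^ a)⁻¹ ≤ 2 * Real.exp (-(r1 * B / 8)) := by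
      calc _ ≤ 2 * Real.exp (-(r1 * B / 4)) * Real.exp (r1 * B / 8) :=
            mul_le_mul e2 e3 (inv_nonneg.2 (pow_nonneg (by linarith) _)) (by positivity)
        _ = _ := by rw [mul_assoc, ← Real.exp_add]; congr 2; ring
    have e5 : Real.exp (-(r1 * B / 8)) ≤ Real.exp (-(r1 * y0 / 8)) := by
      apply Real.exp_le_exp.2
      have := mul_le_mul_of_nonneg_left hyB' hr1.le
      linarith
    linarith

theorem db_count {n t t' : ℕ} {q2 : ℝ} (D : Dat d n t t' q2) (s δ : ℝ) (hs : 0 < s)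
    (k j lam B y0 : ℕ) (hty : t' = t + lam * B) (hyB : y0 ≤ B) (hjk : j * k ≤ n)
    (hj : 2 ≤ (j : ℝ) * s ^ 2) (hlam : 64 ≤ (lam : ℝ) * s ^ 2)
    (hs4 : ((d : ℝ) + 3) / n ≤ s ^ 2 / 4) (hlam1 : 1 ≤ lam)
    (hδ : Real.exp (-(s ^ 2 * y0 / 64)) ≤ δ) :
    cn (fun e : Ord (fc d n) =>
      (∀ l < j, s * (n.choose (d + 1) : ℝ) ≤ ((clset R (range n \ blk k l) (pre e t)).card : ℝ)) ∧
      (∀ l < j, ∀ l' < j, l ≠ l' →
        (R.nul (pre e t' ∩ faces d (range n \ (blk k l ∪ blk k l'))) : ℝ) + R.nul (pre e t) <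
          8 * (B : ℝ) + R.nul (pre e t ∩ faces d (range n \ blk k l)) +
          R.nul (pre e t ∩ faces d (range n \ blk k l')))) ≤
    (((fc d n).card : ℝ) + 1) ^ 2 * δ * (Fintype.card (Ord (fc d n)) : ℝ) := by
  obtain ⟨h2, h1, hqn, hq14, hq0, hp0, hp1, hqp1, hqp2, _⟩ := D.facts
  have hN : ((fc d n).card : ℝ) = (n.choose (d + 1) : ℝ) := by rw [card_fc]
  refine cn_pair t t' D.tt D.t0 D.tN (fun X Y =>
      (∀ l < j, s * (n.choose (d + 1) : ℝ) ≤ ((clset R (range n \ blk k l) X).card : ℝ)) ∧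
      (∀ l < j, ∀ l' < j, l ≠ l' →
        (R.nul (Y ∩ faces d (range n \ (blk k l ∪ blk k l'))) : ℝ) + R.nul X <
          8 * (B : ℝ) + R.nul (X ∩ faces d (range n \ blk k l)) +
          R.nul (X ∩ faces d (range n \ blk k l')))) δ ?_
  set q : ℝ := (t' : ℝ) / (fc d n).card with hq
  set p : ℝ := (t : ℝ) / t' with hp
  have hq1 : q ≤ 1 := by linarith
  have htt : (t : ℝ) ≤ t' := by exact_mod_cast D.tt
  have hqp_lt : q * p < 1 := by nlinarith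
  have hBe : (t' : ℝ) - t = lam * B := by rw [hty]; push_cast; ring
  rw [hBe] at hqp1
  have hB0 : (0:ℝ) ≤ B := Nat.cast_nonneg _
  have e0 : q * (1 - p) * s ^ 2 * (n.choose (d + 1) : ℝ) = lam * B * s ^ 2 := by
    rw [hqp1, ← hN]; field_simp
  have h3 := db R n k j hjk s hs hj q p (8 * (B : ℝ)) hq0 hq1 hp0 hp1 hqp_lt (by
    rw [e0]; nlinarith)
  rw [e0] at h3
  refine le_trans ?_ (h3.trans ?_)
  · unfold Ex2
    refine Ex_mono _ _ hq0 hq1 _ _ fun Y _ => Ex_mono _ _ hp0 hp1 _ _ fun X _ => ?_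
    beta_reduce
    rw [← ind_and]
    refine ind_mono ?_
    rintro ⟨⟨hc1, _⟩, hc2, hc3⟩
    refine ⟨?_, hc2, hc3⟩
    rw [hc1, ← hN]
    have h4 : (t : ℝ) ≤ t' := htt
    rw [div_le_iff₀ h2] at hqn
    calc (t : ℝ) ≤ ((d : ℝ) + 3) / n * (fc d n).card := h4.trans hqn
      _ ≤ s ^ 2 / 4 * (fc d n).card := mul_le_mul_of_nonneg_right hs4 h2.le
      _ = _ := by ring
  · refine le_trans (Real.exp_le_exp.2 ?_) hδ
    have hyB' : (y0 : ℝ) ≤ B := by exact_mod_cast hyB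
    have hl1 : (1:ℝ) ≤ lam := by exact_mod_cast hlam1
    have h5 : (y0 : ℝ) ≤ lam * B := by nlinarith
    have h6 := mul_le_mul_of_nonneg_left h5 (sq_nonneg s)
    have h7 : s ^ 2 * y0 / 64 ≤ lam * B * s ^ 2 / 64 := by nlinarith
    linarith

theorem hg_count (hsw : SwapInv R) (hd : 1 ≤ d) {n t : ℕ} {q2 : ℝ} (hn : 1 ≤ n)
    (htN : t ≤ (fc d n).card) (htq : (t : ℝ) ≤ (fc d n).card * q2)
    (q2n : q2 ≤ ((d : ℝ) + 3) / n) (q2s : ((d : ℝ) + 3) / n ≤ 1 / 4) (x δ : ℝ)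
    (hx0 : 0 ≤ x) (hx : x ≤ 4 * ((d : ℝ) + 3) * (n : ℝ) ^ (d - 1))
    (hδ : (n : ℝ) * (4 * Real.exp (-(x ^ 2 / (16 * ((d : ℝ) + 3) * (n : ℝ) ^ (d - 1))))) ≤ δ)
    (U U' : Finset ℕ) (hU : U ⊆ range n) (hU' : U' ⊆ range n) (hc : U.card = U'.card) :
    cn (fun e : Ord (fc d n) => (U.card : ℝ) * x < |(R.nul (pre e t ∩ faces d (range n \ U)) : ℝ) -
      R.nul (pre e t ∩ faces d (range n \ U'))|) ≤
    (((fc d n).card : ℝ) + 1) ^ 2 * δ * (Fintype.card (Ord (fc d n)) : ℝ) := by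
  have hδ0 : 0 ≤ δ := le_trans (by positivity) hδ
  rcases Nat.eq_zero_or_pos t with ht | ht
  · subst ht
    have : cn (fun e : Ord (fc d n) => (U.card : ℝ) * x <
      |(R.nul (pre e 0 ∩ faces d (range n \ U)) : ℝ) -
      R.nul (pre e 0 ∩ faces d (range n \ U'))|) = 0 := by
      rw [cn_eq_sum]
      refine Finset.sum_eq_zero fun e _ => ind_neg ?_
      rw [pre_zero]
      simp only [Finset.empty_inter, nul_empty, Nat.cast_zero, sub_self, abs_zero, not_lt]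
      positivity
    rw [this]; positivity
  · have D : Dat d n t t q2 := ⟨hn, le_rfl, ht, htN, htq, q2n, q2s⟩
    obtain ⟨h2, h1, hqn, hq14, hq0, _, _, _, _, _⟩ := D.facts
    refine cn_single t ht htN (fun X => (U.card : ℝ) * x <
      |(R.nul (X ∩ faces d (range n \ U)) : ℝ) - R.nul (X ∩ faces d (range n \ U'))|) δ ?_
    have h3 := hg2 R hsw hd n hn _ x hq0 (by linarith) hqn hx0 hx (U \ U').card U U' hU hU' hc rfl
    refine le_trans ?_ (h3.trans ?_)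
    · refine Ex_mono _ _ hq0 (by linarith) _ _ fun X _ => ind_mono fun h => ?_
      refine lt_of_le_of_lt ?_ h
      have : ((U \ U').card : ℝ) ≤ U.card := by
        exact_mod_cast Finset.card_le_card Finset.sdiff_subset
      exact mul_le_mul_of_nonneg_right this hx0
    · refine le_trans ?_ hδ
      refine mul_le_mul_of_nonneg_right ?_ (by positivity)
      have h4 : (U \ U').card ≤ n := by
        have := Finset.card_le_card ((Finset.sdiff_subset : U \ U' ⊆ U).trans hU)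
        rwa [Finset.card_range] at this
      exact_mod_cast h4

end FC
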