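import Pool.Agent.H92.FC.AsmB

/-!
# The pathwise argument at fixed `n`
-/

namespace FC

open Finset

variable {d : ℕ}

/-- a failing order gives a vertex avoided by a cyclic set at a time with nullity at most one -/
theorem bad_start (F : Type*) [Field F] (R : CRank d) (hL : LinkF F d R) (n : ℕ)
    (e : Ord (fc d n)) (h : ¬ FirstGood F d n 1 e) :
    ∃ T : ℕ, R.nul (pre e T) ≤ 1 ∧ ∃ v ∈ range n, BadIn R (range n \ {v}) (pre e T) := by
  unfold FirstGood at h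
  simp only [not_forall, not_or] at h
  obtain ⟨t1, z, hmin, hz, hcyc, hno1, U, hU, hUz, hUc⟩ := h
  have ht0 : t1 ≠ 0 := by
    rintro rfl
    apply hz
    funext σ
    by_contra hσ
    have := hcyc.1 σ hσ
    rw [pre_zero] at this
    simp at this
  have htN : t1 ≤ (fc d n).card := by
    by_contra hlt
    have h1 := pre_top e t1 (not_le.1 hlt).le
    rw [h1] at hcyc
    exact hz (hmin _ (not_le.1 hlt) z hcyc)
  obtain ⟨s, rfl⟩ := Nat.exists_eq_succ_of_ne_zero ht0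
  obtain ⟨σ0, h1, h2, h3⟩ := pre_succ e s (by omega)
  obtain ⟨S, hS, hSz, hcase⟩ := hL.2 n (pre e (s + 1)) (pre_sub e _) z σ0 h1
    (fun z' hz' => hmin s (Nat.lt_succ_self s) z' (h3 ▸ hz')) hz hcyc
  refine ⟨s + 1, ?_, ?_⟩
  · have h4 : R.nul (pre e s) = 0 := by
      by_contra h5
      obtain ⟨z', hz', hc'⟩ := (hL.1 n (pre e s) (pre_sub e s)).2 (Nat.pos_of_ne_zero h5)
      exact hz' (hmin s (Nat.lt_succ_self s) z' hc')
    have h5 := nul_sdiff_le R.toRankFn (pre e (s + 1)) {σ0}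
    rw [Finset.sdiff_singleton_eq_erase, h3, h4, Finset.card_singleton] at h5
    exact h5
  · rcases hcase with ⟨W, hW, hWc, hSW⟩ | ⟨hc, hb⟩
    · exfalso
      refine hno1 ⟨W, hW, hWc, fun σ => ?_⟩
      rw [← hSz, hSW]
    · obtain ⟨v, hv⟩ : U.Nonempty := by
        rw [← Finset.card_pos]; omega
      refine ⟨v, hU hv, S, ?_, hc, hb⟩
      intro σ hσ
      rw [Finset.mem_inter]
      refine ⟨hS hσ, ?_⟩
      have hσn := (hS.trans (pre_sub e _)) hσ
      unfold fc at hσn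
      rw [mem_faces] at hσn ⊢
      refine ⟨fun w hw => ?_, hσn.2⟩
      rw [Finset.mem_sdiff, Finset.mem_singleton]
      exact ⟨hσn.1 hw, fun hwv => hUz σ ((hSz σ).1 hσ) v hv (hwv ▸ hw)⟩

theorem nul_pre_add (R : CRank d) (n : ℕ) (e : Ord (fc d n)) (t y : ℕ) :
    R.nul (pre e (t + y)) ≤ R.nul (pre e t) + y := by
  induction y with
  | zero => simp
  | succ y ih =>
    by_cases h : t + y < (fc d n).card
    · obtain ⟨σ0, _, _, h3⟩ := pre_succ e (t + y) h
      have h5 := nul_sdiff_le R.toRankFn (pre e (t + y + 1)) {σ0}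
      rw [Finset.sdiff_singleton_eq_erase, h3, Finset.card_singleton] at h5
      have e1 : t + (y + 1) = t + y + 1 := by ring
      rw [e1]; omega
    · have h1 := pre_top e (t + (y + 1)) (by omega)
      have h2 := pre_top e (t + y) (by omega)
      rw [h1, ← h2]; omega

/-- The count at fixed `n`. -/
theorem asm_n (F : Type*) [Field F] (R : CRank d) (hL : LinkF F d R) (hsw : SwapInv R)
    (hd : 2 ≤ d) (n j I y0 lam L A0 g : ℕ) (q1 q2 x s ρ r1 δ ε : ℝ)
    (hn : 1 ≤ n) (h0 : 0 ≤ q1) (h12 : q1 ≤ q2) (hq2n : q2 ≤ ((d : ℝ) + 3) / n)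
    (hq2s : ((d : ℝ) + 3) / n ≤ 1 / 4)
    (hgap : 32 * ((fc d n).card * q2) + 16 ≤ ((fc d n).card * (q2 - q1)) ^ 2)
    (hE1 : Ex (fc d n) q1 (fun X => ind ((R.nul X : ℝ) < (n : ℝ) ^ ((d : ℝ) / 2))) ≤ ε)
    (hE2 : Ex (fc d n) q2 (fun X => ind (BadIn R (range n \ blk (2 ^ I) 0) X)) ≤ ε)
    (hE3 : Ex (fc d n) q2 (fun X => ind (SmallCore d n ρ X)) ≤ ε)
    (hE4 : Ex (fc d n) q2 (fun X => ind (L ≤ nb d n X)) ≤ ε)
    (hB : (Bst (2 + lam) y0 I : ℝ) < (n : ℝ) ^ ((d : ℝ) / 2))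
    (hr1 : 0 < r1) (hs : s = r1 / 32) (hj : 2 ≤ (j : ℝ) * s ^ 2) (hlam : 64 ≤ (lam : ℝ) * s ^ 2)
    (hs4 : ((d : ℝ) + 3) / n ≤ s ^ 2 / 4)
    (hg : r1 * (((d : ℝ) + 3) * (n : ℝ) ^ d) ≤ g) (hg2 : (2 * g : ℝ) ≤ ρ * (n : ℝ) ^ d)
    (hjn : j * 2 ^ I ≤ n) (hy0 : 1 ≤ y0) (hA0 : (A0 : ℝ) ≤ r1 * y0 / 2)
    (hL1 : (L : ℝ) + x ≤ A0) (hL2 : L ≤ y0) (hx0 : 0 ≤ x) (hx1 : (2:ℝ) ^ I * x ≤ y0)
    (hx2 : x ≤ 4 * ((d : ℝ) + 3) * (n : ℝ) ^ (d - 1))
    (hδ1 : 3 * Real.exp (-(r1 * y0 / 8)) ≤ δ) (hδ2 : Real.exp (-(s ^ 2 * y0 / 64)) ≤ δ)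
    (hδ3 : (n : ℝ) * (4 * Real.exp (-(x ^ 2 / (16 * ((d : ℝ) + 3) * (n : ℝ) ^ (d - 1))))) ≤ δ) :
    badFrac F d n 1 ≤ 8 * ε + ((fc d n).card + 1 : ℝ) ^ 3 *
      ((n : ℝ) + n * j + I * j + I + I * j ^ 3) * δ := by
  classical
  have hq21 : q2 ≤ 1 := by linarith
  have hjpos : 0 < j := by
    rcases Nat.eq_zero_or_pos j with h | h
    · subst h; norm_num at hj
    · exact h
  have hlam1 : 1 ≤ lam := by
    rcases Nat.eq_zero_or_pos lam with h | h
    · subst h; norm_num at hlam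
    · exact h
  have hs0 : 0 < s := by rw [hs]; positivity
  obtain ⟨T0, hT0N, hT0q, hA, hBB⟩ := transfer2 (fc d n)
    (fun X => (R.nul X : ℝ) < (n : ℝ) ^ ((d : ℝ) / 2))
    (fun X => BadIn R (range n \ blk (2 ^ I) 0) X ∨ SmallCore d n ρ X ∨ L ≤ nb d n X)
    (fun X Y hXY _ hY => lt_of_le_of_lt (by exact_mod_cast R.nul_mono hXY) hY)
    (fun X Y hXY _ hX => by
      rcases hX with h | ⟨S, hS, h⟩ | h
      · exact Or.inl (BadIn_mono R _ hXY h)
      · exact Or.inr (Or.inl ⟨S, hS.trans hXY, h⟩)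
      · exact Or.inr (Or.inr (h.trans (nb_mono d n hXY))))
    q1 q2 h0 h12 hq21 hgap
  set Nf : ℝ := (Fintype.card (Ord (fc d n)) : ℝ) with hNf
  have hNfpos : 0 < Nf := by rw [hNf]; exact_mod_cast ord_pos (fc d n)
  have hq20 : 0 ≤ q2 := h0.trans h12
  -- the two events at time T0
  have hA' : cn (fun e : Ord (fc d n) => (R.nul (pre e T0) : ℝ) < (n : ℝ) ^ ((d : ℝ) / 2)) ≤
      2 * ε * Nf := by
    have h1 : cn (fun e : Ord (fc d n) => (R.nul (pre e T0) : ℝ) < (n : ℝ) ^ ((d : ℝ) / 2)) ≤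
        2 * Ex (fc d n) q1 (fun X => ind ((R.nul X : ℝ) < (n : ℝ) ^ ((d : ℝ) / 2))) * Nf := by
      unfold cn; convert hA
    refine h1.trans ?_
    have := mul_le_mul_of_nonneg_right hE1 hNfpos.le
    linarith
  have hB' : cn (fun e : Ord (fc d n) => BadIn R (range n \ blk (2 ^ I) 0) (pre e T0) ∨
      SmallCore d n ρ (pre e T0) ∨ L ≤ nb d n (pre e T0)) ≤ 6 * ε * Nf := by
    have h1 : cn (fun e : Ord (fc d n) => BadIn R (range n \ blk (2 ^ I) 0) (pre e T0) ∨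
      SmallCore d n ρ (pre e T0) ∨ L ≤ nb d n (pre e T0)) ≤
        2 * Ex (fc d n) q2 (fun X => ind (BadIn R (range n \ blk (2 ^ I) 0) X ∨
          SmallCore d n ρ X ∨ L ≤ nb d n X)) * Nf := by
      unfold cn; convert hBB
    have h2 : Ex (fc d n) q2 (fun X => ind (BadIn R (range n \ blk (2 ^ I) 0) X ∨
          SmallCore d n ρ X ∨ L ≤ nb d n X)) ≤ 3 * ε := by
      have h3 : Ex (fc d n) q2 (fun X => ind (BadIn R (range n \ blk (2 ^ I) 0) X ∨
          SmallCore d n ρ X ∨ L ≤ nb d n X)) ≤ Ex (fc d n) q2 (fun X =>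
          ind (BadIn R (range n \ blk (2 ^ I) 0) X) +
            (ind (SmallCore d n ρ X) + ind (L ≤ nb d n X))) := by
        refine Ex_mono _ _ hq20 hq21 _ _ fun X _ => ?_
        refine (ind_or_le _ _).trans ?_
        have := ind_or_le (SmallCore d n ρ X) (L ≤ nb d n X)
        linarith
      rw [Ex_add, Ex_add] at h3
      linarith
    refine h1.trans ?_
    have := mul_le_mul_of_nonneg_right h2 hNfpos.le
    linarith
  -- times up to T0
  have hD : ∀ t t' : ℕ, t ≤ t' → 0 < t' → t' ≤ T0 → Dat d n t t' q2 := by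
    intro t t' h1 h2 h3
    have : (t' : ℝ) ≤ T0 := by exact_mod_cast h3
    exact ⟨hn, h1, h2, h3.trans hT0N, this.trans hT0q, hq2n, hq2s⟩
  have hBst : ∀ i, y0 ≤ Bst (2 + lam) y0 i := by
    intro i
    unfold Bst
    have : 1 ≤ (2 + lam) ^ i := Nat.one_le_pow _ _ (by omega)
    nlinarith
  have hBst0 : ∀ i, 0 < Bst (2 + lam) y0 i := fun i => lt_of_lt_of_le (by omega) (hBst i)
  set b : ℝ := (((fc d n).card : ℝ) + 1) ^ 2 * δ * Nf with hb
  have hδ0 : 0 ≤ δ := le_trans (by positivity) hδ1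
  have hb0 : 0 ≤ b := by positivity
  have hpow : ∀ i ≤ I, j * 2 ^ i ≤ n := fun i hi =>
    le_trans (Nat.mul_le_mul_left j (Nat.pow_le_pow_right (by norm_num) hi)) hjn
  -- failure events
  have f1 : cn (fun e : Ord (fc d n) => ∃ tv ∈ (range (T0 + 1)) ×ˢ (range n),
      tv.1 + y0 ≤ T0 ∧ BadIn R (range n \ {tv.2}) (pre e tv.1) ∧
      ¬ SmallCore d n ρ (pre e (tv.1 + y0)) ∧
      R.nul (pre e (tv.1 + y0) ∩ faces d (range n \ {tv.2})) ≤
        R.nul (pre e tv.1 ∩ faces d (range n \ {tv.2})) + A0) ≤ ((T0 + 1) * n : ℕ) * b := by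
    refine (cn_union _ _ b fun tv _ => ?_).trans (le_of_eq ?_)
    · by_cases h : tv.1 + y0 ≤ T0
      · refine (cn_mono fun e he => he.2).trans ?_
        exact th_count R (hD tv.1 (tv.1 + y0) (Nat.le_add_right _ _) (by omega) h) ρ r1 δ hr1 g A0 y0
          rfl hg hg2 hA0 hδ1 _ Finset.sdiff_subset
      · refine le_trans (le_of_eq ?_) hb0
        rw [cn_eq_sum]
        exact Finset.sum_eq_zero fun e _ => ind_neg fun h' => h h'.1
    · rw [Finset.card_product, Finset.card_range, Finset.card_range]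
  have f2 : cn (fun e : Ord (fc d n) => ∃ a ∈ (range (T0 + 1)) ×ˢ ((range I) ×ˢ (range j)),
      a.1 + Bst (2 + lam) y0 a.2.1 ≤ T0 ∧ BadIn R (range n \ blk (2 ^ a.2.1) a.2.2) (pre e a.1) ∧
      ¬ SmallCore d n ρ (pre e (a.1 + Bst (2 + lam) y0 a.2.1)) ∧
      ((clset R (range n \ blk (2 ^ a.2.1) a.2.2)
        (pre e (a.1 + Bst (2 + lam) y0 a.2.1))).card : ℝ) < s * (n.choose (d + 1) : ℝ)) ≤
      ((T0 + 1) * (I * j) : ℕ) * b := by
    refine (cn_union _ _ b fun a _ => ?_).trans (le_of_eq ?_)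
    · by_cases h : a.1 + Bst (2 + lam) y0 a.2.1 ≤ T0
      · refine (cn_mono fun e he => he.2).trans ?_
        exact cd_count R (hD a.1 (a.1 + Bst (2 + lam) y0 a.2.1) (Nat.le_add_right _ _)
          (by have := hBst0 a.2.1; omega) h) ρ r1 s δ hr1 hs g _ y0
          rfl (hBst _) hg hg2 hδ1 _ Finset.sdiff_subset
      · refine le_trans (le_of_eq ?_) hb0
        rw [cn_eq_sum]
        exact Finset.sum_eq_zero fun e _ => ind_neg fun h' => h h'.1
    · rw [Finset.card_product, Finset.card_product, Finset.card_range, Finset.card_range,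
        Finset.card_range]
  have f3 : cn (fun e : Ord (fc d n) => ∃ a ∈ (range (T0 + 1)) ×ˢ (range I),
      a.1 + lam * Bst (2 + lam) y0 a.2 ≤ T0 ∧
      (∀ l < j, s * (n.choose (d + 1) : ℝ) ≤
        ((clset R (range n \ blk (2 ^ a.2) l) (pre e a.1)).card : ℝ)) ∧
      (∀ l < j, ∀ l' < j, l ≠ l' →
        (R.nul (pre e (a.1 + lam * Bst (2 + lam) y0 a.2) ∩
          faces d (range n \ (blk (2 ^ a.2) l ∪ blk (2 ^ a.2) l'))) : ℝ) + R.nul (pre e a.1) <
          8 * (Bst (2 + lam) y0 a.2 : ℝ) + R.nul (pre e a.1 ∩ faces d (range n \ blk (2 ^ a.2) l)) +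
          R.nul (pre e a.1 ∩ faces d (range n \ blk (2 ^ a.2) l')))) ≤
      ((T0 + 1) * I : ℕ) * b := by
    refine (cn_union _ _ b fun a ha => ?_).trans (le_of_eq ?_)
    · by_cases h : a.1 + lam * Bst (2 + lam) y0 a.2 ≤ T0
      · refine (cn_mono fun e he => he.2).trans ?_
        have hi : a.2 < I := Finset.mem_range.1 (Finset.mem_product.1 ha).2
        have hpos : 0 < lam * Bst (2 + lam) y0 a.2 := Nat.mul_pos hlam1 (hBst0 a.2)
        exact db_count R (hD a.1 (a.1 + lam * Bst (2 + lam) y0 a.2) (Nat.le_add_right _ _)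
          (by omega) h) s δ hs0 (2 ^ a.2) j lam _ y0 rfl (hBst _) (hpow a.2 hi.le) hj hlam hs4
          hlam1 hδ2
      · refine le_trans (le_of_eq ?_) hb0
        rw [cn_eq_sum]
        exact Finset.sum_eq_zero fun e _ => ind_neg fun h' => h h'.1
    · rw [Finset.card_product, Finset.card_range, Finset.card_range]
  have hgc : ∀ t ≤ T0, ∀ U U' : Finset ℕ, U ⊆ range n → U' ⊆ range n → U.card = U'.card →
      cn (fun e : Ord (fc d n) => (U.card : ℝ) * x <
        |(R.nul (pre e t ∩ faces d (range n \ U)) : ℝ) -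
        R.nul (pre e t ∩ faces d (range n \ U'))|) ≤ b := by
    intro t ht U U' hU hU' hc
    have h1 : (t : ℝ) ≤ T0 := by exact_mod_cast ht
    exact hg_count R hsw (by omega) hn (ht.trans hT0N) (h1.trans hT0q) hq2n hq2s x δ hx0 hx2 hδ3
      U U' hU hU' hc
  have hblk0 : ∀ l < j, ∀ i ≤ I, blk (2 ^ i) l ⊆ range n := fun l hl i hi =>
    blk_sub (2 ^ i) l j n hl (hpow i hi)
  have f4 : cn (fun e : Ord (fc d n) => ∃ a ∈ (range (T0 + 1)) ×ˢ ((range n) ×ˢ (range j)),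
      (1:ℝ) * x < |(R.nul (pre e a.1 ∩ faces d (range n \ {a.2.1})) : ℝ) -
        R.nul (pre e a.1 ∩ faces d (range n \ blk (2 ^ 0) a.2.2))|) ≤
      ((T0 + 1) * (n * j) : ℕ) * b := by
    refine (cn_union _ _ b fun a ha => ?_).trans (le_of_eq ?_)
    · have ha1 := Finset.mem_product.1 ha
      have ha2 := Finset.mem_product.1 ha1.2
      have h1 : a.1 ≤ T0 := by have := Finset.mem_range.1 ha1.1; omega
      have h2 := hgc a.1 h1 {a.2.1} (blk (2 ^ 0) a.2.2)
        (Finset.singleton_subset_iff.2 ha2.1)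
        (hblk0 _ (Finset.mem_range.1 ha2.2) 0 (Nat.zero_le _)) (by rw [card_blk]; simp)
      rw [Finset.card_singleton, Nat.cast_one] at h2
      exact h2
    · rw [Finset.card_product, Finset.card_product, Finset.card_range, Finset.card_range,
        Finset.card_range]
  have f5 : cn (fun e : Ord (fc d n) => ∃ a ∈ (range (T0 + 1)) ×ˢ ((range I) ×ˢ
      ((range j) ×ˢ ((range j) ×ˢ (range j)))), a.2.2.1 ≠ a.2.2.2.1 ∧
      (2:ℝ) ^ (a.2.1 + 1) * x < |(R.nul (pre e a.1 ∩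
        faces d (range n \ (blk (2 ^ a.2.1) a.2.2.1 ∪ blk (2 ^ a.2.1) a.2.2.2.1))) : ℝ) -
        R.nul (pre e a.1 ∩ faces d (range n \ blk (2 ^ (a.2.1 + 1)) a.2.2.2.2))|) ≤
      ((T0 + 1) * (I * (j * (j * j))) : ℕ) * b := by
    refine (cn_union _ _ b fun a ha => ?_).trans (le_of_eq ?_)
    · obtain ⟨t, i, l, l', m⟩ := a
      simp only [Finset.mem_product, Finset.mem_range] at ha
      obtain ⟨ht, hi, hl, hl', hm⟩ := ha
      by_cases hne : l ≠ l'
      · refine (cn_mono fun e he => he.2).trans ?_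
        have h1 : t ≤ T0 := by omega
        have hcard : (blk (2 ^ i) l ∪ blk (2 ^ i) l').card = 2 ^ (i + 1) := by
          rw [Finset.card_union_of_disjoint (blk_disj _ l l' hne), card_blk, card_blk]; ring
        have h2 := hgc t h1 (blk (2 ^ i) l ∪ blk (2 ^ i) l') (blk (2 ^ (i + 1)) m)
          (Finset.union_subset (hblk0 l hl i hi.le) (hblk0 l' hl' i hi.le))
          (hblk0 m hm (i + 1) hi) (by rw [hcard, card_blk])
        rw [hcard] at h2
        push_cast at h2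
        exact h2
      · refine le_trans (le_of_eq ?_) hb0
        rw [cn_eq_sum]
        exact Finset.sum_eq_zero fun e _ => ind_neg fun h' => hne h'.1
    · rw [Finset.card_product, Finset.card_product, Finset.card_product, Finset.card_product,
        Finset.card_range, Finset.card_range, Finset.card_range]
  have hall : ∀ e : Ord (fc d n), ¬ FirstGood F d n 1 e →
      ((R.nul (pre e T0) : ℝ) < (n : ℝ) ^ ((d : ℝ) / 2)) ∨
      ((BadIn R (range n \ blk (2 ^ I) 0) (pre e T0) ∨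
        SmallCore d n ρ (pre e T0) ∨ L ≤ nb d n (pre e T0)) ∨
      ((∃ tv ∈ (range (T0 + 1)) ×ˢ (range n),
      tv.1 + y0 ≤ T0 ∧ BadIn R (range n \ {tv.2}) (pre e tv.1) ∧
      ¬ SmallCore d n ρ (pre e (tv.1 + y0)) ∧
      R.nul (pre e (tv.1 + y0) ∩ faces d (range n \ {tv.2})) ≤
        R.nul (pre e tv.1 ∩ faces d (range n \ {tv.2})) + A0) ∨
      ((∃ a ∈ (range (T0 + 1)) ×ˢ ((range I) ×ˢ (range j)),
      a.1 + Bst (2 + lam) y0 a.2.1 ≤ T0 ∧ BadIn R (range n \ blk (2 ^ a.2.1) a.2.2) (pre e a.1) ∧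
      ¬ SmallCore d n ρ (pre e (a.1 + Bst (2 + lam) y0 a.2.1)) ∧
      ((clset R (range n \ blk (2 ^ a.2.1) a.2.2)
        (pre e (a.1 + Bst (2 + lam) y0 a.2.1))).card : ℝ) < s * (n.choose (d + 1) : ℝ)) ∨
      ((∃ a ∈ (range (T0 + 1)) ×ˢ (range I),
      a.1 + lam * Bst (2 + lam) y0 a.2 ≤ T0 ∧
      (∀ l < j, s * (n.choose (d + 1) : ℝ) ≤
        ((clset R (range n \ blk (2 ^ a.2) l) (pre e a.1)).card : ℝ)) ∧
      (∀ l < j, ∀ l' < j, l ≠ l' →
        (R.nul (pre e (a.1 + lam * Bst (2 + lam) y0 a.2) ∩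
          faces d (range n \ (blk (2 ^ a.2) l ∪ blk (2 ^ a.2) l'))) : ℝ) + R.nul (pre e a.1) <
          8 * (Bst (2 + lam) y0 a.2 : ℝ) + R.nul (pre e a.1 ∩ faces d (range n \ blk (2 ^ a.2) l)) +
          R.nul (pre e a.1 ∩ faces d (range n \ blk (2 ^ a.2) l')))) ∨
      ((∃ a ∈ (range (T0 + 1)) ×ˢ ((range n) ×ˢ (range j)),
      (1:ℝ) * x < |(R.nul (pre e a.1 ∩ faces d (range n \ {a.2.1})) : ℝ) -
        R.nul (pre e a.1 ∩ faces d (range n \ blk (2 ^ 0) a.2.2))|) ∨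
      (∃ a ∈ (range (T0 + 1)) ×ˢ ((range I) ×ˢ
      ((range j) ×ˢ ((range j) ×ˢ (range j)))), a.2.2.1 ≠ a.2.2.2.1 ∧
      (2:ℝ) ^ (a.2.1 + 1) * x < |(R.nul (pre e a.1 ∩
        faces d (range n \ (blk (2 ^ a.2.1) a.2.2.1 ∪ blk (2 ^ a.2.1) a.2.2.2.1))) : ℝ) -
        R.nul (pre e a.1 ∩ faces d (range n \ blk (2 ^ (a.2.1 + 1)) a.2.2.2.2))|)))))) := by
    intro e he
    by_contra hno
    obtain ⟨g1, hno⟩ := not_or.1 hno
    obtain ⟨g2, hno⟩ := not_or.1 hno
    obtain ⟨g3, hno⟩ := not_or.1 hno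
    obtain ⟨g4, hno⟩ := not_or.1 hno
    obtain ⟨g5, hno⟩ := not_or.1 hno
    obtain ⟨g6, g7⟩ := not_or.1 hno
    rw [not_or, not_or] at g2
    obtain ⟨T, hT1, v, hv, hTb⟩ := bad_start F R hL n e he
    have hs2 : Bst (2 + lam) y0 I < R.nul (pre e T0) := by
      have h1 : (Bst (2 + lam) y0 I : ℝ) < R.nul (pre e T0) := lt_of_lt_of_le hB (not_lt.1 g1)
      exact_mod_cast h1
    have hTT : T ≤ T0 := by
      by_contra hlt
      have h1 := R.nul_mono (pre_mono e (not_le.1 hlt).le)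
      have h2 := hBst I
      omega
    have hsc : ∀ t ≤ T0, ¬ SmallCore d n ρ (pre e t) := by
      intro t ht hsm
      obtain ⟨S, hS, h⟩ := hsm
      exact g2.2.1 ⟨S, hS.trans (pre_mono e ht), h⟩
    refine chain_det R n j I y0 lam L A0 T T0 v x s (fun t => pre e t)
      (fun t t' h => pre_mono e h) (fun t => pre_sub e t) (fun t y => nul_pre_add R n e t y)
      hjpos hy0 g2.1 hs2 (not_le.1 g2.2.2) hL1 hL2 ?_ ?_ ?_ ?_ ?_ ?_ hTT hT1 hTb
    · intro i hi
      refine le_trans (mul_le_mul_of_nonneg_right ?_ hx0) hx1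
      exact pow_le_pow_right₀ (by norm_num) hi
    · intro t ht hbad
      by_contra hle
      refine g3 ⟨(t, v), ?_, ht, hbad, hsc _ ht, ?_⟩
      · rw [Finset.mem_product, Finset.mem_range]; exact ⟨by simp only; omega, hv⟩
      · simp only; omega
    · intro t ht l hl
      have h1 : ¬ (1:ℝ) * x < |(R.nul (pre e t ∩ faces d (range n \ {v})) : ℝ) -
        R.nul (pre e t ∩ faces d (range n \ blk (2 ^ 0) l))| := fun h =>
          g6 ⟨(t, v, l), by
            simp only [Finset.mem_product, Finset.mem_range]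
            exact ⟨by omega, Finset.mem_range.1 hv, hl⟩, h⟩
      have h2 := (abs_le.1 (not_lt.1 h1)).2
      linarith
    · intro t i hi l hl ht hbad
      by_contra hle
      refine g4 ⟨(t, i, l), ?_, ht, hbad, hsc _ ht, not_le.1 hle⟩
      rw [Finset.mem_product, Finset.mem_product, Finset.mem_range, Finset.mem_range,
        Finset.mem_range]
      exact ⟨by simp only; omega, hi, hl⟩
    · intro t i hi ht hcl
      by_contra hle
      refine g5 ⟨(t, i), ?_, ht, hcl, ?_⟩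
      · rw [Finset.mem_product, Finset.mem_range, Finset.mem_range]
        exact ⟨by simp only; omega, hi⟩
      · intro l hl l' hl' hne
        by_contra hlt
        refine hle ⟨l, hl, l', hl', hne, ?_⟩
        have h1 := not_lt.1 hlt
        have h2 : (0:ℝ) ≤ R.nul (pre e t ∩ faces d (range n \ blk (2 ^ i) l)) := Nat.cast_nonneg _
        have h3 : (0:ℝ) ≤ R.nul (pre e t ∩ faces d (range n \ blk (2 ^ i) l')) := Nat.cast_nonneg _
        simp only at h1
        linarith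
    · intro t ht i hi l hl l' hl' m hm hne
      have h1 : ¬ (2:ℝ) ^ (i + 1) * x < |(R.nul (pre e t ∩
        faces d (range n \ (blk (2 ^ i) l ∪ blk (2 ^ i) l'))) : ℝ) -
        R.nul (pre e t ∩ faces d (range n \ blk (2 ^ (i + 1)) m))| := fun h =>
          g7 ⟨(t, i, l, l', m), by
            simp only [Finset.mem_product, Finset.mem_range]
            exact ⟨by omega, hi, hl, hl', hm⟩, hne, h⟩
      have h2 := (abs_le.1 (not_lt.1 h1)).2
      linarith
  have hcount := (cn_mono hall).trans ((cn_or _ _).trans (add_le_add hA' ((cn_or _ _).trans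
    (add_le_add hB' ((cn_or _ _).trans (add_le_add f1 ((cn_or _ _).trans (add_le_add f2
    ((cn_or _ _).trans (add_le_add f3 ((cn_or _ _).trans (add_le_add f4 f5))))))))))))
  have hbad : badFrac F d n 1 = cn (fun e : Ord (fc d n) => ¬ FirstGood F d n 1 e) / Nf := by
    unfold badFrac cn
    rw [hNf]
    congr!
  rw [hbad, div_le_iff₀ hNfpos]
  refine hcount.trans ?_
  have hT0' : ((T0 : ℝ) + 1) ≤ ((fc d n).card : ℝ) + 1 := by
    have : (T0 : ℝ) ≤ (fc d n).card := by exact_mod_cast hT0N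
    linarith
  have e1 : 2 * ε * Nf + (6 * ε * Nf + (((T0 + 1) * n : ℕ) * b + (((T0 + 1) * (I * j) : ℕ) * b +
      (((T0 + 1) * I : ℕ) * b + (((T0 + 1) * (n * j) : ℕ) * b +
      ((T0 + 1) * (I * (j * (j * j))) : ℕ) * b))))) =
      8 * ε * Nf + ((T0 : ℝ) + 1) * ((n : ℝ) + n * j + I * j + I + I * j ^ 3) * b := by
    push_cast; ring
  rw [e1]
  have e2 : ((fc d n).card + 1 : ℝ) ^ 3 * ((n : ℝ) + n * j + I * j + I + I * j ^ 3) * δ * Nf =
      (((fc d n).card : ℝ) + 1) * ((n : ℝ) + n * j + I * j + I + I * j ^ 3) * b := by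
    rw [hb]; ring
  rw [add_mul (8 * ε), e2]
  have h3 : ((T0 : ℝ) + 1) * ((n : ℝ) + n * j + I * j + I + I * j ^ 3) * b ≤
      (((fc d n).card : ℝ) + 1) * ((n : ℝ) + n * j + I * j + I + I * j ^ 3) * b := by
    refine mul_le_mul_of_nonneg_right (mul_le_mul_of_nonneg_right hT0' (by positivity)) hb0
  linarith

end FC
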