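import Pool.Agent.H92.FC.FF6

set_option autoImplicit false
open Finset

/-! The threshold gap for blocks of size `n ^ η`. -/

namespace FC

variable {d : ℕ}

theorem ff (hd : 2 ≤ d) (R : CRank d) (η : ℝ) (hη : 0 < η) (hη1 : η ≤ 1 / 4) :
    ∃ a > (0:ℝ), ∃ G : Set ℕ,
      (∃ M0 : ℕ, ∀ M ≥ M0, ∀ E : Finset ℕ, (∀ n ∈ E, M ≤ n ∧ n ≤ 2 * M ∧ n ∉ G) →
        (E.card : ℝ) ≤ (M : ℝ) ^ (1 - a)) ∧
      ∀ ε > (0:ℝ), ∃ n0 : ℕ, ∀ n ≥ n0, n ∈ G → ∃ (I : ℕ) (q1 q2 : ℝ),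
        (n : ℝ) ^ η / 2 ≤ (2:ℝ) ^ I ∧ (2:ℝ) ^ I ≤ (n : ℝ) ^ η ∧ 0 ≤ q1 ∧ q1 ≤ q2 ∧
        q2 ≤ ((d : ℝ) + 3) / n ∧
        32 * ((fc d n).card * q2) + 16 ≤ ((fc d n).card * (q2 - q1)) ^ 2 ∧
        Ex (fc d n) q1 (fun X => ind ((R.nul X : ℝ) < (n : ℝ) ^ ((d : ℝ) / 2))) ≤ ε ∧
        Ex (fc d n) q2 (fun X => ind (BadIn R (range n \ blk (2 ^ I) 0) X)) ≤ ε := by
  classical
  set e0 : ℝ := η / 32 with he0
  set e1 : ℝ := η / 16 with he1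
  set δ : ℝ := η / 32 with hδ
  set κ : ℝ := η / 8 with hκ
  have he0' : 0 < e0 := by positivity
  have he1' : 0 < e1 := by positivity
  have hδ' : 0 < δ := by positivity
  have hκ' : 0 < κ := by positivity
  obtain ⟨m0, s, c, hAN⟩ := h63_ANe_of hd e0 he0' R
  obtain ⟨a, ha, C1, hC1, M0, hM0⟩ := h63_ffdens d hd (beta R) (Tm R) m0 s c e0 e1 κ he0'
    (by rw [he0, he1]; linarith) (by rw [he1]; linarith) hκ' hAN
  choose! Ex0 hEx1 hEx2 using hM0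
  -- the set `G`
  set G : Set ℕ := {n | ∃ M, M0 ≤ M ∧ (d + 3) * 2 ^ (h63_I η n) ≤ M ∧
    M + 2 ^ (h63_I η n) ≤ n + 1 ∧ n ≤ 2 * M ∧ n + 1 - 2 ^ (h63_I η n) ∉ Ex0 M} with hG
  obtain ⟨a', ha', M1, hM1⟩ := h63_count η a hη hη1 ha (d + 3) M0 Ex0 hEx1 G
    (fun n M h1 h2 h3 h4 h5 => ⟨M, h1, h2, h3, h4, h5⟩)
  refine ⟨a', ha', G, ⟨M1, hM1⟩, fun ε hε => ?_⟩
  obtain ⟨n1, hn1⟩ := prob_main d hd R δ ε hδ' hε
  set D : ℝ := (d : ℝ) + 3 with hD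
  have hD0 : 0 < D := by positivity
  set c' : ℝ := 1 / (2 ^ (d + 1) * ((d + 1).factorial : ℝ)) with hc'
  have hc'0 : 0 < c' := by positivity
  have hN : Filter.Tendsto (fun n : ℕ => (n : ℝ)) Filter.atTop Filter.atTop :=
    tendsto_natCast_atTop_atTop
  have ev : ∀ (t : ℝ) (A : ℝ), 0 < t → ∀ᶠ n : ℕ in Filter.atTop, A ≤ (n : ℝ) ^ t := by
    intro t A ht
    exact ((tendsto_rpow_atTop ht).comp hN).eventually_ge_atTop A
  have hall := (ev (e1 - δ) (2 ^ ((d : ℝ) / 2 + e1)) (by rw [he1, hδ]; linarith)).and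
    ((ev (η - e1 - δ - κ) (2 * C1) (by rw [he1, hδ, hκ]; linarith)).and
    ((ev (η - 2 * δ - 2 * κ) (2 * C1 ^ 2) (by rw [hδ, hκ]; linarith)).and
    ((ev δ 2 hδ').and ((ev (2 * δ) (-Real.log ε * (16 * D)) (by positivity)).and
    ((ev (2 * δ) ((32 * D + 16) * 4 / c' ^ 2) (by positivity)).and
    (Filter.eventually_ge_atTop (max (max n1 (2 * (d + 1))) (2 * M0 + 2))))))))
  obtain ⟨n0, hn0⟩ := hall.exists_forall_of_atTop
  refine ⟨n0, fun n hn hnG => ?_⟩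
  obtain ⟨c1, c2, c3, c4, c5, c6, c7⟩ := hn0 n hn
  have hnn1 : n1 ≤ n := (le_max_left _ _).trans ((le_max_left _ _).trans c7)
  have hnd : 2 * (d + 1) ≤ n := (le_max_right _ _).trans ((le_max_left _ _).trans c7)
  obtain ⟨M, g1, g2, g3, g4, g5⟩ := hnG
  set I := h63_I η n with hI
  set K : ℕ := 2 ^ I with hK
  have hK1 : 1 ≤ K := Nat.one_le_two_pow
  obtain ⟨q1, q2, b1, b2, b3, b4, b5, b6⟩ := hEx2 M g1 n K hK1 g2 g3 g4 g5
  have hMpos : 1 ≤ M := by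
    have h1 : 1 ≤ (d + 3) * K := Nat.mul_pos (by omega) hK1
    omega
  have hMn : M ≤ n := by omega
  have hn1' : 1 ≤ n := hMpos.trans hMn
  have hnR : (0:ℝ) < n := by exact_mod_cast (by omega : 0 < n)
  have hnR1 : (1:ℝ) ≤ n := by exact_mod_cast hn1'
  have hKn : K < n := by
    have h1 : 3 * K ≤ (d + 3) * K := Nat.mul_le_mul_right K (by omega)
    omega
  have hKR : (n : ℝ) ^ η / 2 ≤ (K : ℝ) := by
    rw [hK]; push_cast; exact h63_le_I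
  set θ : ℝ := (M : ℝ) ^ ((d : ℝ) / 2 + e1) with hθ
  set W : ℝ := (n : ℝ) ^ (d + 1) * (q2 - q1) with hW
  have hWl : (n : ℝ) ^ (d + 1) * (K * (M : ℝ) ^ (-(2 + κ))) ≤ C1 * W := by
    calc _ ≤ (n : ℝ) ^ (d + 1) * (C1 * (q2 - q1)) := mul_le_mul_of_nonneg_left b6 (by positivity)
      _ = _ := by rw [hW]; ring
  obtain ⟨w1, w2, w3⟩ := h63_num d n M K hd η e1 δ κ C1 θ W hκ' hδ' he1' hC1 hMpos hMn g4 hθ hKR
    hWl c1 c2 c3
  obtain ⟨_, p2⟩ := hn1 n hnn1 K q1 q2 θ hK1 hKn b1 b2 b3 b4 b5 w1 w2 w3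
  have hq2' : q1 ≤ (q1 + q2) / 2 := by linarith
  have hq2le : (q1 + q2) / 2 ≤ D / n := by linarith
  have hDn1 : D / n ≤ 1 := by
    rw [div_le_one hnR, hD]
    have : d + 3 ≤ n := by omega
    exact_mod_cast this
  have hq11 : q1 ≤ 1 := by linarith
  have hq21 : (q1 + q2) / 2 ≤ 1 := by linarith
  refine ⟨I, q1, (q1 + q2) / 2, h63_le_I, h63_I_le hη hn1', b1.le, hq2', hq2le, ?_, ?_, ?_⟩
  · exact h63_gap n δ D c' W q1 q2 (Real.sqrt K) hD0 hc' hc'0 hnd hnR hnR1 b1 b2 hq2le hW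
      (Real.one_le_sqrt.2 (by exact_mod_cast hK1)) w3 c6
  · exact h63_nul R n δ ε D θ q1 hD0 hε hnR b1 hq11 (hq2'.trans hq2le)
      (by rw [hθ]; exact Real.rpow_pos_of_pos (by exact_mod_cast hMpos) _) b4 w1 c4 c5
  · -- no bad set avoids the block
    refine le_trans ?_ p2
    refine Ex_mono _ _ (by linarith) hq21 _ _ fun X _ => ind_mono ?_
    rintro ⟨C, hC, hcyc, hb⟩
    refine ⟨blk K 0, ?_, card_blk K 0, C, hC.trans Finset.inter_subset_left,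
      hC.trans Finset.inter_subset_right, hcyc, hb⟩
    intro y hy
    unfold blk at hy
    rw [Finset.mem_Ico] at hy
    rw [Finset.mem_range]
    omega

end FC
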