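import Pool.Agent.H92.FC.AsmC
import Pool.Agent.H92.FC.FF

/-!
# Numerics of the pathwise argument
-/

namespace FC

open Finset Filter

theorem ev_rpow (A a b : ℝ) (h : a < b) :
    ∀ᶠ n : ℕ in atTop, A * (n : ℝ) ^ a ≤ (n : ℝ) ^ b := by
  have h1 : Tendsto (fun n : ℕ => (n : ℝ) ^ (b - a)) atTop atTop :=
    (tendsto_rpow_atTop (by linarith)).comp tendsto_natCast_atTop_atTop
  filter_upwards [h1.eventually_ge_atTop A, eventually_ge_atTop 1] with n hn hn1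
  have hn0 : (0:ℝ) < n := by exact_mod_cast hn1
  calc A * (n : ℝ) ^ a ≤ (n : ℝ) ^ (b - a) * (n : ℝ) ^ a :=
        mul_le_mul_of_nonneg_right hn (by positivity)
    _ = (n : ℝ) ^ b := by rw [← Real.rpow_add hn0]; ring_nf

theorem ev_exp (k c η ε : ℝ) (hc : 0 < c) (hη : 0 < η) (hε : 0 < ε) :
    ∀ᶠ n : ℕ in atTop, (n : ℝ) ^ k * Real.exp (-(c * (n : ℝ) ^ η)) ≤ ε := by
  have h1 := tendsto_rpow_mul_exp_neg_mul_atTop_nhds_zero (k / η) c hc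
  have h2 : Tendsto (fun n : ℕ => (n : ℝ) ^ η) atTop atTop :=
    (tendsto_rpow_atTop hη).comp tendsto_natCast_atTop_atTop
  have h3 := (h1.comp h2).eventually (ge_mem_nhds hε)
  filter_upwards [h3, eventually_ge_atTop 1] with n hn hn1
  have hn0 : (0:ℝ) < n := by exact_mod_cast hn1
  have e1 : ((n : ℝ) ^ η) ^ (k / η) = (n : ℝ) ^ k := by
    rw [← Real.rpow_mul hn0.le]
    congr 1
    field_simp
  simp only [Function.comp] at hn
  rw [e1, neg_mul] at hn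
  exact hn

theorem fc_card_le (d n : ℕ) : ((fc d n).card : ℝ) ≤ (n : ℝ) ^ (d + 1) := by
  rw [card_fc]
  exact_mod_cast Nat.choose_le_pow n (d + 1)

/-- the last error term -/
theorem tail_bound (d n j I : ℕ) (η D ε : ℝ) (hn : 1 ≤ n) (hI : (2:ℝ) ^ I ≤ (n : ℝ) ^ η)
    (hη1 : η ≤ 1) (h : (n : ℝ) ^ ((3 * (d + 1) + 2 : ℕ) : ℝ) *
      Real.exp (-(1 / (16 * D) * (n : ℝ) ^ η)) ≤
      ε / (32 * (1 + j + j + 1 + (j : ℝ) ^ 3))) :
    ((fc d n).card + 1 : ℝ) ^ 3 * ((n : ℝ) + n * j + I * j + I + I * j ^ 3) *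
      (n * (4 * Real.exp (-(1 / (16 * D) * (n : ℝ) ^ η)))) ≤ ε := by
  have hn1 : (1:ℝ) ≤ n := by exact_mod_cast hn
  have hIn : (I : ℝ) ≤ n := by
    have h1 : (I : ℝ) ≤ (2:ℝ) ^ I := by exact_mod_cast (Nat.lt_two_pow_self (n := I)).le
    have h2 : (n : ℝ) ^ η ≤ (n : ℝ) ^ (1:ℝ) := Real.rpow_le_rpow_of_exponent_le hn1 hη1
    rw [Real.rpow_one] at h2
    linarith
  have hc1 : ((fc d n).card + 1 : ℝ) ≤ 2 * (n : ℝ) ^ (d + 1) := by
    have h1 := fc_card_le d n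
    have h2 : (1:ℝ) ≤ (n : ℝ) ^ (d + 1) := one_le_pow₀ hn1
    linarith
  have hc0 : (0:ℝ) ≤ ((fc d n).card + 1 : ℝ) := by positivity
  have hj0 : (0:ℝ) ≤ j := Nat.cast_nonneg j
  have hI0 : (0:ℝ) ≤ I := Nat.cast_nonneg I
  set Cj : ℝ := 1 + j + j + 1 + (j : ℝ) ^ 3 with hCj
  have hCj0 : 0 < Cj := by rw [hCj]; positivity
  have hsum : ((n : ℝ) + n * j + I * j + I + I * j ^ 3) ≤ n * Cj := by
    have h1 : (I : ℝ) * j ≤ n * j := mul_le_mul_of_nonneg_right hIn hj0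
    have h2 : (I : ℝ) * j ^ 3 ≤ n * j ^ 3 := mul_le_mul_of_nonneg_right hIn (by positivity)
    rw [hCj]; linarith
  have hE := Real.exp_pos (-(1 / (16 * D) * (n : ℝ) ^ η))
  set X : ℝ := Real.exp (-(1 / (16 * D) * (n : ℝ) ^ η)) with hX
  have hcube : ((fc d n).card + 1 : ℝ) ^ 3 ≤ (2 * (n : ℝ) ^ (d + 1)) ^ 3 :=
    pow_le_pow_left₀ hc0 hc1 3
  have h3 : ((fc d n).card + 1 : ℝ) ^ 3 * ((n : ℝ) + n * j + I * j + I + I * j ^ 3) *
      (n * (4 * X)) ≤ (2 * (n : ℝ) ^ (d + 1)) ^ 3 * (n * Cj) * (n * (4 * X)) := by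
    refine mul_le_mul_of_nonneg_right ?_ (by positivity)
    exact mul_le_mul hcube hsum (by positivity) (by positivity)
  refine h3.trans ?_
  rw [Real.rpow_natCast, le_div_iff₀ (by positivity)] at h
  have e1 : (2 * (n : ℝ) ^ (d + 1)) ^ 3 * (n * Cj) * (n * (4 * X)) =
      (n : ℝ) ^ (3 * (d + 1) + 2) * X * (32 * Cj) := by
    have : (n : ℝ) ^ (3 * (d + 1) + 2) = ((n : ℝ) ^ (d + 1)) ^ 3 * n ^ 2 := by
      rw [pow_add, ← pow_mul]; ring_nf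
    rw [this]; ring
  rw [e1]; exact h

end FC
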