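import Pool.Agent.H92.FC.Beta

/-!
# The second difference inequality with the square of the closure density
-/

namespace FC

open Finset

variable {d : ℕ}

theorem Ex_mem {α : Type*} [DecidableEq α] (G : Finset α) (a : α) (ha : a ∈ G) (q : ℝ) :
    Ex G q (fun X => ind (a ∈ X)) = q := by
  have h := Ex_subset G {a} (Finset.singleton_subset_iff.2 ha) q
  simp only [Finset.singleton_subset_iff, Finset.card_singleton, pow_one] at h
  exact h

theorem card_filter_ind {α : Type*} [DecidableEq α] (G Y : Finset α) (hY : Y ⊆ G)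
    (p : α → Prop) [DecidablePred p] :
    ((Y.filter p).card : ℝ) = ∑ a ∈ G, ind (a ∈ Y) * ind (p a) := by
  rw [Finset.card_filter]
  push_cast
  rw [← Finset.sum_subset hY]
  · refine Finset.sum_congr rfl fun a ha => ?_
    rw [ind_pos ha, one_mul]
    by_cases h : p a
    · rw [if_pos h, ind_pos h]
    · rw [if_neg h, ind_neg h]
  · intro a _ haY
    rw [ind_neg haY]; ring

theorem r2_pair (R : CRank d) (m a b0 : ℕ) (V1 V2 : Finset ℕ) (h1 : V1 ⊆ range m)
    (h2 : V2 ⊆ range m) (c1 : V1.card = a) (c2 : V2.card = a) (c0 : (V1 ∩ V2).card = b0)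
    (q y' : ℝ) (hq0 : 0 ≤ q) (hq1 : q ≤ 1) (hy0 : 0 ≤ y') (hy1 : y' ≤ 1) :
    2 * beta R a q + y' * (1 - q) * ∑ σ ∈ faces d (V1 ∩ V2), Ex ((fc d m).erase σ) q
      (fun X => ind (R.r (insert σ (X ∩ faces d V1)) = R.r (X ∩ faces d V1)) *
        ind (R.r (insert σ (X ∩ faces d V2)) = R.r (X ∩ faces d V2))) ≤
    beta R m q + beta R b0 (q + y' - q * y') := by
  classical
  set G := fc d m
  set G1 := faces d V1
  set G2 := faces d V2
  set G0 := faces d (V1 ∩ V2)
  have hG0 : G0 ⊆ G := faces_mono (Finset.inter_subset_left.trans h1)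
  set w : Finset ℕ → Finset (Finset ℕ) → ℝ := fun σ X =>
    ind (R.r (insert σ (X ∩ G1)) = R.r (X ∩ G1)) * ind (R.r (insert σ (X ∩ G2)) = R.r (X ∩ G2))
    with hw
  have key : ∀ X ⊆ G, ∀ Y ⊆ G0, ((R.nul (X ∩ G1) : ℝ) + R.nul (X ∩ G2)) +
      (∑ σ ∈ G0, ind (σ ∈ Y) * (ind (σ ∉ X) * w σ X)) ≤
      (R.nul X : ℝ) + R.nul ((X ∩ G0) ∪ Y) := by
    intro X hX Y hY
    set P := Y.filter (fun σ => σ ∉ X ∧ R.r (insert σ (X ∩ G1)) = R.r (X ∩ G1) ∧
      R.r (insert σ (X ∩ G2)) = R.r (X ∩ G2)) with hP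
    have e1 := nul_super R.toRankFn X (X ∩ G1) (X ∩ G2) (X ∩ G0) Y P
      Finset.inter_subset_left Finset.inter_subset_left
      (by
        have : G1 ∩ G2 = G0 := faces_inter d V1 V2
        rw [← this]; ext y; simp only [Finset.mem_inter]; tauto)
      (Finset.filter_subset _ _)
      (by
        rw [Finset.disjoint_left]
        intro σ hσ hσ2
        exact ((Finset.mem_filter.1 hσ).2.1) (Finset.mem_inter.1 hσ2).1)
      (fun σ hσ => (Finset.mem_filter.1 hσ).2.2.1)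
      (fun σ hσ => (Finset.mem_filter.1 hσ).2.2.2)
    have e2 : (P.card : ℝ) = ∑ σ ∈ G0, ind (σ ∈ Y) * (ind (σ ∉ X) * w σ X) := by
      rw [hP, card_filter_ind G0 Y hY]
      refine Finset.sum_congr rfl fun σ _ => ?_
      rw [ind_and, ind_and]
    rw [← e2]
    have e3 : ((R.nul (X ∩ G1) + R.nul (X ∩ G2) + P.card : ℕ) : ℝ) ≤
        ((R.nul X + R.nul ((X ∩ G0) ∪ Y) : ℕ) : ℝ) := by exact_mod_cast e1
    push_cast at e3
    exact e3
  have key2 : Ex G q (fun X => Ex G0 y' (fun Y => ((R.nul (X ∩ G1) : ℝ) + R.nul (X ∩ G2)) +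
      (∑ σ ∈ G0, ind (σ ∈ Y) * (ind (σ ∉ X) * w σ X)))) ≤
      Ex G q (fun X => Ex G0 y' (fun Y => (R.nul X : ℝ) + R.nul ((X ∩ G0) ∪ Y))) := by
    refine Ex_mono _ _ hq0 hq1 _ _ fun X hX => Ex_mono _ _ hy0 hy1 _ _ fun Y hY => key X hX Y hY
  have l1 : ∀ X : Finset (Finset ℕ), Ex G0 y' (fun Y => ((R.nul (X ∩ G1) : ℝ) + R.nul (X ∩ G2)) +
      (∑ σ ∈ G0, ind (σ ∈ Y) * (ind (σ ∉ X) * w σ X))) =
      ((R.nul (X ∩ G1) : ℝ) + R.nul (X ∩ G2)) + y' * ∑ σ ∈ G0, ind (σ ∉ X) * w σ X := by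
    intro X
    rw [Ex_add, Ex_const, Ex_sum, Finset.mul_sum]
    congr 1
    refine Finset.sum_congr rfl fun σ hσ => ?_
    have : (fun Y : Finset (Finset ℕ) => ind (σ ∈ Y) * (ind (σ ∉ X) * w σ X)) =
        fun Y => (ind (σ ∉ X) * w σ X) * ind (σ ∈ Y) := by funext Y; ring
    rw [this, Ex_mul, Ex_mem G0 σ hσ]; ring
  have l2 : ∀ X : Finset (Finset ℕ), Ex G0 y' (fun Y => (R.nul X : ℝ) + R.nul ((X ∩ G0) ∪ Y)) =
      (R.nul X : ℝ) + Ex G0 y' (fun Y => (R.nul ((X ∩ G0) ∪ Y) : ℝ)) := by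
    intro X
    rw [Ex_add, Ex_const]
  simp only [l1, l2] at key2
  rw [Ex_add, Ex_add, Ex_add, Ex_mul, Ex_sum] at key2
  rw [beta_restrict R G a V1 c1 (faces_mono h1), beta_restrict R G a V2 c2 (faces_mono h2)] at key2
  have l3 : Ex G q (fun X => (R.nul X : ℝ)) = beta R m q := rfl
  have l4 : Ex G q (fun X => Ex G0 y' (fun Y => (R.nul ((X ∩ G0) ∪ Y) : ℝ))) =
      beta R b0 (q + y' - q * y') := by
    rw [Ex_restrict G G0 hG0 q (fun X => Ex G0 y' (fun Y => (R.nul (X ∪ Y) : ℝ))),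
      Ex_union G0 q y' (fun X => (R.nul X : ℝ)), beta_eq R b0 _ c0]
  have l5 : ∀ σ ∈ G0, Ex G q (fun X => ind (σ ∉ X) * w σ X) =
      (1 - q) * Ex (G.erase σ) q (fun X => w σ X) := fun σ hσ =>
    (Ex_erase_out G σ (hG0 hσ) q (fun X => w σ X)).symm
  rw [l3, l4, Finset.sum_congr rfl l5, ← Finset.mul_sum] at key2
  have l6 : y' * ((1 - q) * ∑ σ ∈ G0, Ex (G.erase σ) q (fun X => w σ X)) =
      y' * (1 - q) * ∑ σ ∈ G0, Ex (G.erase σ) q (fun X => w σ X) := by ring
  rw [l6] at key2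
  linarith

/-- Double counting and Cauchy–Schwarz. -/
theorem r2_cs (G : Finset (Finset ℕ)) (q : ℝ) (hq0 : 0 ≤ q) (hq1 : q ≤ 1) (j : ℕ)
    (c : ℕ → Finset ℕ → Finset (Finset ℕ) → ℝ)
    (hc : ∀ i σ X, c i σ X * c i σ X = c i σ X) (T : ℝ)
    (hT : ∀ i ∈ range j, ∑ σ ∈ G, Ex (G.erase σ) q (c i σ) = T) :
    ((j : ℝ) * T) ^ 2 / G.card - j * T ≤
      ∑ i ∈ range j, ∑ l ∈ (range j).erase i, ∑ σ ∈ G,
        Ex (G.erase σ) q (fun X => c i σ X * c l σ X) := by
  classical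
  set W : Finset ℕ → Finset (Finset ℕ) → ℝ := fun σ X => ∑ i ∈ range j, c i σ X with hW
  have h1 : ∑ i ∈ range j, ∑ l ∈ (range j).erase i, ∑ σ ∈ G,
        Ex (G.erase σ) q (fun X => c i σ X * c l σ X) =
      ∑ σ ∈ G, (Ex (G.erase σ) q (fun X => (W σ X) ^ 2) - Ex (G.erase σ) q (W σ)) := by
    have e1 : ∀ σ X, (W σ X) ^ 2 = W σ X + ∑ i ∈ range j, ∑ l ∈ (range j).erase i,
        c i σ X * c l σ X := by
      intro σ X
      simp only [hW]
      rw [sq, Finset.sum_mul_sum, ← Finset.sum_add_distrib]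
      refine Finset.sum_congr rfl fun i hi => ?_
      rw [← Finset.add_sum_erase _ _ hi, hc]
    have e2 : ∀ σ ∈ G, Ex (G.erase σ) q (fun X => (W σ X) ^ 2) - Ex (G.erase σ) q (W σ) =
        ∑ i ∈ range j, ∑ l ∈ (range j).erase i, Ex (G.erase σ) q (fun X => c i σ X * c l σ X) := by
      intro σ _
      simp only [e1]
      rw [Ex_add, Ex_sum]
      simp only [Ex_sum]
      ring
    rw [Finset.sum_congr rfl e2]
    rw [Finset.sum_comm]
    refine Finset.sum_congr rfl fun i _ => ?_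
    rw [Finset.sum_comm]
  have h2 : ∑ σ ∈ G, Ex (G.erase σ) q (W σ) = j * T := by
    have e2 : ∀ σ ∈ G, Ex (G.erase σ) q (W σ) = ∑ i ∈ range j, Ex (G.erase σ) q (c i σ) := by
      intro σ _
      simp only [hW]
      rw [Ex_sum]
    rw [Finset.sum_congr rfl e2, Finset.sum_comm, Finset.sum_congr rfl hT]
    simp
  rw [h1, Finset.sum_sub_distrib, h2]
  have h3 : ∑ σ ∈ G, (Ex (G.erase σ) q (W σ)) ^ 2 ≤
      ∑ σ ∈ G, Ex (G.erase σ) q (fun X => (W σ X) ^ 2) :=
    Finset.sum_le_sum fun σ _ => Ex_sq_le _ q hq0 hq1 _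
  have h4 : (∑ σ ∈ G, Ex (G.erase σ) q (W σ)) ^ 2 ≤
      G.card * ∑ σ ∈ G, (Ex (G.erase σ) q (W σ)) ^ 2 := sq_sum_le_card_mul_sum_sq
  rw [h2] at h4
  have h5 : ((j : ℝ) * T) ^ 2 / G.card ≤ ∑ σ ∈ G, (Ex (G.erase σ) q (W σ)) ^ 2 := by
    rcases Nat.eq_zero_or_pos G.card with h0 | h0
    · rw [h0]; simp only [Nat.cast_zero, div_zero]
      exact Finset.sum_nonneg fun _ _ => sq_nonneg _
    · rw [div_le_iff₀ (by exact_mod_cast h0)]
      linarith
  linarith

/-- blocks -/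
def blk (k i : ℕ) : Finset ℕ := Finset.Ico (i * k) ((i + 1) * k)

theorem card_blk (k i : ℕ) : (blk k i).card = k := by
  unfold blk
  rw [Nat.card_Ico, add_mul, one_mul]; omega

theorem blk_sub (k i j m : ℕ) (hi : i < j) (hm : j * k ≤ m) : blk k i ⊆ range m := by
  intro x hx
  unfold blk at hx
  rw [Finset.mem_Ico] at hx
  rw [Finset.mem_range]
  have : (i + 1) * k ≤ j * k := Nat.mul_le_mul_right k hi
  omega

theorem blk_disj (k i l : ℕ) (h : i ≠ l) : Disjoint (blk k i) (blk k l) := by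
  rw [Finset.disjoint_left]
  intro x hx hx'
  unfold blk at hx hx'
  rw [Finset.mem_Ico] at hx hx'
  rcases lt_or_gt_of_ne h with h | h
  · have : (i + 1) * k ≤ l * k := Nat.mul_le_mul_right k h
    omega
  · have : (l + 1) * k ≤ i * k := Nat.mul_le_mul_right k h
    omega

theorem beta_r2 (R : CRank d) (m k j : ℕ) (q y : ℝ) (_hk : 1 ≤ k) (hj : 2 ≤ j) (hjk : j * k ≤ m)
    (hq0 : 0 ≤ q) (hy0 : 0 ≤ y) (hqy : q + y ≤ 1) :
    y * Tm R (m - k) q * ((j : ℝ) * Tm R (m - k) q / (m.choose (d + 1) : ℝ) - 1) ≤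
      ((j : ℝ) - 1) * (beta R m q - 2 * beta R (m - k) q + beta R (m - 2 * k) (q + y)) := by
  have hq1 : q ≤ 1 := by linarith
  -- choice of y'
  obtain ⟨y', hy'0, hy'1, hyy, hqq⟩ : ∃ y' : ℝ, 0 ≤ y' ∧ y' ≤ 1 ∧ y' * (1 - q) = y ∧
      q + y' - q * y' = q + y := by
    rcases hq1.lt_or_eq with h | h
    · have hpos : 0 < 1 - q := by linarith
      refine ⟨y / (1 - q), div_nonneg hy0 hpos.le, ?_, ?_, ?_⟩
      · rw [div_le_one hpos]; linarith
      · exact div_mul_cancel₀ y hpos.ne'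
      · have : q + y / (1 - q) - q * (y / (1 - q)) = q + (y / (1 - q)) * (1 - q) := by ring
        rw [this, div_mul_cancel₀ y hpos.ne']
    · exact ⟨0, le_rfl, zero_le_one, by rw [h]; linarith, by rw [h]; linarith⟩
  set G := fc d m with hG
  set V : ℕ → Finset ℕ := fun i => range m \ blk k i with hV
  have hVsub : ∀ i, V i ⊆ range m := fun i => Finset.sdiff_subset
  have hVc : ∀ i ∈ range j, (V i).card = m - k := by
    intro i hi
    simp only [hV]
    rw [Finset.card_sdiff_of_subset (blk_sub k i j m (Finset.mem_range.1 hi) hjk), card_blk,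
      Finset.card_range]
  have hVc2 : ∀ i ∈ range j, ∀ l ∈ range j, i ≠ l → (V i ∩ V l).card = m - 2 * k := by
    intro i hi l hl hil
    have e : V i ∩ V l = range m \ (blk k i ∪ blk k l) := by
      ext x; simp only [hV, Finset.mem_inter, Finset.mem_sdiff, Finset.mem_union]; tauto
    rw [e, Finset.card_sdiff_of_subset (Finset.union_subset
      (blk_sub k i j m (Finset.mem_range.1 hi) hjk) (blk_sub k l j m (Finset.mem_range.1 hl) hjk)),
      Finset.card_union_of_disjoint (blk_disj k i l hil), card_blk, card_blk, Finset.card_range]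
    omega
  set c : ℕ → Finset ℕ → Finset (Finset ℕ) → ℝ := fun i σ X =>
    ind (σ ∈ faces d (V i)) * ind (R.r (insert σ (X ∩ faces d (V i))) = R.r (X ∩ faces d (V i)))
    with hc
  have hcc : ∀ i σ X, c i σ X * c i σ X = c i σ X := by
    intro i σ X
    have h2 : ∀ p : Prop, ind p * ind p = ind p := by
      intro p; unfold ind; split_ifs <;> norm_num
    simp only [hc]
    calc _ = (ind (σ ∈ faces d (V i)) * ind (σ ∈ faces d (V i))) *
          (ind (R.r (insert σ (X ∩ faces d (V i))) = R.r (X ∩ faces d (V i))) *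
          ind (R.r (insert σ (X ∩ faces d (V i))) = R.r (X ∩ faces d (V i)))) := by ring
      _ = _ := by rw [h2, h2]
  have hT : ∀ i ∈ range j, ∑ σ ∈ G, Ex (G.erase σ) q (c i σ) = Tm R (m - k) q := by
    intro i hi
    rw [← Tm_eq R (m - k) (V i) (hVc i hi) q]
    have hsub : faces d (V i) ⊆ G := faces_mono (hVsub i)
    rw [← Finset.sum_subset hsub]
    · refine Finset.sum_congr rfl fun σ hσ => ?_
      have hsub2 : (faces d (V i)).erase σ ⊆ G.erase σ := Finset.erase_subset_erase σ hsub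
      rw [← Ex_restrict (G.erase σ) ((faces d (V i)).erase σ) hsub2 q
        (fun X => ind (R.r (insert σ X) = R.r X))]
      refine Ex_congr _ _ _ _ fun X hX => ?_
      simp only [hc]
      rw [ind_pos hσ, one_mul]
      have : X ∩ (faces d (V i)).erase σ = X ∩ faces d (V i) := by
        ext τ; simp only [Finset.mem_inter, Finset.mem_erase]
        constructor
        · rintro ⟨h1, _, h3⟩; exact ⟨h1, h3⟩
        · rintro ⟨h1, h3⟩
          exact ⟨h1, fun h => Finset.notMem_erase σ G (h ▸ hX h1), h3⟩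
      rw [this]
    · intro σ _ hσ
      rw [← Ex_const (G.erase σ) q 0]
      refine Ex_congr _ _ _ _ fun X _ => ?_
      simp only [hc]
      rw [ind_neg hσ, zero_mul]
  have hcs := r2_cs G q hq0 hq1 j c hcc (Tm R (m - k) q) hT
  rw [hG, card_fc] at hcs
  set Δ := beta R m q - 2 * beta R (m - k) q + beta R (m - 2 * k) (q + y) with hΔ
  have hpair : ∀ i ∈ range j, ∀ l ∈ (range j).erase i,
      y * ∑ σ ∈ fc d m, Ex ((fc d m).erase σ) q (fun X => c i σ X * c l σ X) ≤ Δ := by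
    intro i hi l hl
    have hl' := Finset.mem_of_mem_erase hl
    have hil : i ≠ l := (Finset.ne_of_mem_erase hl).symm
    have h := r2_pair R m (m - k) (m - 2 * k) (V i) (V l) (hVsub i) (hVsub l) (hVc i hi)
      (hVc l hl') (hVc2 i hi l hl' hil) q y' hq0 hq1 hy'0 hy'1
    rw [hyy, hqq] at h
    have e : ∑ σ ∈ fc d m, Ex ((fc d m).erase σ) q (fun X => c i σ X * c l σ X) =
        ∑ σ ∈ faces d (V i ∩ V l), Ex ((fc d m).erase σ) q
      (fun X => ind (R.r (insert σ (X ∩ faces d (V i))) = R.r (X ∩ faces d (V i))) *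
        ind (R.r (insert σ (X ∩ faces d (V l))) = R.r (X ∩ faces d (V l)))) := by
      have hsub : faces d (V i ∩ V l) ⊆ fc d m :=
        faces_mono (Finset.inter_subset_left.trans (hVsub i))
      rw [← Finset.sum_subset hsub]
      · refine Finset.sum_congr rfl fun σ hσ => Ex_congr _ _ _ _ fun X _ => ?_
        rw [← faces_inter, Finset.mem_inter] at hσ
        simp only [hc]
        rw [ind_pos hσ.1, ind_pos hσ.2]; ring
      · intro σ _ hσ
        rw [← Ex_const ((fc d m).erase σ) q 0]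
        refine Ex_congr _ _ _ _ fun X _ => ?_
        rw [← faces_inter, Finset.mem_inter, not_and_or] at hσ
        simp only [hc]
        rcases hσ with hσ | hσ
        · rw [ind_neg hσ]; ring
        · rw [ind_neg hσ]; ring
    rw [e]
    linarith
  have hsum : y * ∑ i ∈ range j, ∑ l ∈ (range j).erase i, ∑ σ ∈ fc d m,
        Ex ((fc d m).erase σ) q (fun X => c i σ X * c l σ X) ≤ (j : ℝ) * ((j : ℝ) - 1) * Δ := by
    rw [Finset.mul_sum]
    calc _ ≤ ∑ i ∈ range j, ((j : ℝ) - 1) * Δ := by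
          refine Finset.sum_le_sum fun i hi => ?_
          rw [Finset.mul_sum]
          calc _ ≤ ∑ l ∈ (range j).erase i, Δ := Finset.sum_le_sum fun l hl => hpair i hi l hl
            _ = _ := by
              rw [Finset.sum_const, Finset.card_erase_of_mem hi, Finset.card_range, nsmul_eq_mul,
                Nat.cast_sub (by omega)]
              push_cast; ring
      _ = _ := by rw [Finset.sum_const, Finset.card_range, nsmul_eq_mul]; ring
  have hfin := (mul_le_mul_of_nonneg_left hcs hy0).trans hsum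
  have hjpos : (0:ℝ) < j := by exact_mod_cast (by omega : 0 < j)
  have e1 : y * (((j : ℝ) * Tm R (m - k) q) ^ 2 / (m.choose (d + 1) : ℝ) - j * Tm R (m - k) q) =
      j * (y * Tm R (m - k) q * ((j : ℝ) * Tm R (m - k) q / (m.choose (d + 1) : ℝ) - 1)) := by
    ring
  rw [e1, mul_assoc (j : ℝ)] at hfin
  exact le_of_mul_le_mul_left hfin hjpos

end FC
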