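import Pool.Agent.H92.FC.Defs

/-!
# Many cheap steps in the exploration of a large core
-/

namespace FC

open Finset

open Classical in
/-- Heavy sets by depth. -/
noncomputable def h26_Hv (d n : ℕ) (η : ℝ) (S : Finset (Finset ℕ)) : ℕ → Finset (Finset ℕ)
  | 0 => S.biUnion (fun σ => σ.powersetCard d)
  | (i + 1) => ((range n).powersetCard (d - (i + 1))).filter (fun h =>
      η ^ (2 ^ i) * (n : ℝ) <
        (((range n).filter (fun y => y ∉ h ∧ insert y h ∈ h26_Hv d n η S i)).card : ℝ))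

/-- All heavy sets of sizes `1, …, d - 1`. -/
noncomputable def h26_H (d n : ℕ) (η : ℝ) (S : Finset (Finset ℕ)) : Finset (Finset ℕ) :=
  (Finset.Icc 1 (d - 1)).biUnion (h26_Hv d n η S)

/-- Clean sets. -/
def h26_clean (H : Finset (Finset ℕ)) (r : Finset ℕ) : Prop := ∀ h ⊆ r, h ∉ H

/-- Soft sets. -/
def h26_soft (H : Finset (Finset ℕ)) (r : Finset ℕ) : Prop :=
  ∃ y ∈ r, h26_clean H (r.erase y)

/-- covering number -/
def h26_cov (T : Finset (Finset ℕ)) (r : Finset ℕ) : ℕ := (T.filter (fun τ => r ⊆ τ)).card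

open Classical in
/-- clean open ridges -/
noncomputable def h26_O (d n : ℕ) (H T : Finset (Finset ℕ)) : Finset (Finset ℕ) :=
  ((range n).powersetCard d).filter (fun r => h26_clean H r ∧ h26_cov T r = 1)

open Classical in
/-- nonsoft closed ridges -/
noncomputable def h26_N (d n : ℕ) (H T : Finset (Finset ℕ)) : Finset (Finset ℕ) :=
  ((range n).powersetCard d).filter (fun r => ¬ h26_soft H r ∧ 2 ≤ h26_cov T r)

theorem h26_Hv_card_mem (d n : ℕ) (η : ℝ) (S : Finset (Finset ℕ)) (hS : S ⊆ fc d n)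
    (i : ℕ) (h : Finset ℕ) (hh : h ∈ h26_Hv d n η S i) : h ⊆ range n ∧ h.card = d - i := by
  cases i with
  | zero =>
    rw [h26_Hv, mem_biUnion] at hh
    obtain ⟨σ, hσ, hh⟩ := hh
    have h1 := hS hσ
    rw [fc, faces, mem_powersetCard] at h1
    rw [mem_powersetCard] at hh
    exact ⟨hh.1.trans h1.1, by simpa using hh.2⟩
  | succ i =>
    rw [h26_Hv, mem_filter, mem_powersetCard] at hh
    exact hh.1

theorem h26_mem_H {d n : ℕ} {η : ℝ} {S : Finset (Finset ℕ)} (hS : S ⊆ fc d n)
    {h : Finset ℕ} : h ∈ h26_H d n η S ↔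
      1 ≤ h.card ∧ h.card + 1 ≤ d ∧ h ∈ h26_Hv d n η S (d - h.card) := by
  rw [h26_H, mem_biUnion]
  constructor
  · rintro ⟨i, hi, hh⟩
    have h1 := h26_Hv_card_mem d n η S hS i h hh
    rw [Finset.mem_Icc] at hi
    have h2 : d - h.card = i := by omega
    rw [h2]
    exact ⟨by omega, by omega, hh⟩
  · rintro ⟨h1, h2, h3⟩
    exact ⟨d - h.card, by rw [Finset.mem_Icc]; omega, h3⟩

/-- one step of the size bound -/
theorem h26_Hv_step (d n : ℕ) (η : ℝ) (S : Finset (Finset ℕ)) (hS : S ⊆ fc d n) (i : ℕ) :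
    ((h26_Hv d n η S (i + 1)).card : ℝ) * (η ^ (2 ^ i) * n) ≤
      (d : ℝ) * (h26_Hv d n η S i).card := by
  classical
  set A := h26_Hv d n η S (i + 1) with hA
  set B := h26_Hv d n η S i with hB
  -- pairs (h, y)
  have h1 : ((A.sigma (fun h => (range n).filter (fun y => y ∉ h ∧ insert y h ∈ B))).card : ℝ) ≤
      (d : ℝ) * B.card := by
    have h2 : (A.sigma (fun h => (range n).filter (fun y => y ∉ h ∧ insert y h ∈ B))).card ≤
        (B.sigma (fun g => g)).card := by
      refine Finset.card_le_card_of_injOn (fun p => ⟨insert p.2 p.1, p.2⟩) ?_ ?_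
      · rintro ⟨h, y⟩ hp
        simp only [Finset.coe_sigma, Set.mem_sigma_iff, Finset.mem_coe, mem_filter] at hp ⊢
        exact ⟨hp.2.2.2, mem_insert_self _ _⟩
      · rintro ⟨h, y⟩ hp ⟨h', y'⟩ hp' heq
        simp only [Finset.coe_sigma, Set.mem_sigma_iff, Finset.mem_coe, mem_filter] at hp hp'
        simp only [Sigma.mk.injEq, heq_eq_eq] at heq
        obtain ⟨e1, e2⟩ := heq
        subst e2
        have : h = h' := by
          have := congrArg (fun z => z.erase y) e1
          simpa [erase_insert hp.2.2.1, erase_insert hp'.2.2.1] using this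
        subst this
        rfl
    have h3 : (B.sigma (fun g => g)).card ≤ d * B.card := by
      rw [card_sigma]
      calc ∑ g ∈ B, g.card ≤ ∑ g ∈ B, d := by
            apply sum_le_sum
            intro g hg
            have := (h26_Hv_card_mem d n η S hS i g hg).2
            omega
        _ = d * B.card := by simp [mul_comm]
    exact_mod_cast h2.trans h3
  have h4 : (A.card : ℝ) * (η ^ (2 ^ i) * n) ≤
      ((A.sigma (fun h => (range n).filter (fun y => y ∉ h ∧ insert y h ∈ B))).card : ℝ) := by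
    rw [card_sigma]
    push_cast
    calc (A.card : ℝ) * (η ^ (2 ^ i) * n) = ∑ _h ∈ A, (η ^ (2 ^ i) * n) := by simp
      _ ≤ _ := by
        apply sum_le_sum
        intro h hh
        rw [hA, h26_Hv, mem_filter] at hh
        exact hh.2.le
  exact h4.trans h1

theorem h26_Hv_bound (d n : ℕ) (η : ℝ) (hη : 0 < η) (S : Finset (Finset ℕ)) (hS : S ⊆ fc d n)
    (i : ℕ) :
    ((h26_Hv d n η S i).card : ℝ) * (η ^ (2 ^ i - 1) * (n : ℝ) ^ i) ≤
      (d : ℝ) ^ i * (h26_Hv d n η S 0).card := by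
  induction i with
  | zero => simp
  | succ i ih =>
    have h1 := h26_Hv_step d n η S hS i
    have e : 2 ^ (i + 1) - 1 = 2 ^ i + (2 ^ i - 1) := by
      have : 1 ≤ 2 ^ i := Nat.one_le_two_pow
      rw [pow_succ]; omega
    rw [e, pow_add]
    calc ((h26_Hv d n η S (i + 1)).card : ℝ) * (η ^ 2 ^ i * η ^ (2 ^ i - 1) * (n : ℝ) ^ (i + 1))
        = (((h26_Hv d n η S (i + 1)).card : ℝ) * (η ^ (2 ^ i) * n)) *
            (η ^ (2 ^ i - 1) * (n : ℝ) ^ i) := by ring
      _ ≤ ((d : ℝ) * (h26_Hv d n η S i).card) * (η ^ (2 ^ i - 1) * (n : ℝ) ^ i) := by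
        apply mul_le_mul_of_nonneg_right h1
        positivity
      _ = (d : ℝ) * (((h26_Hv d n η S i).card : ℝ) * (η ^ (2 ^ i - 1) * (n : ℝ) ^ i)) := by ring
      _ ≤ (d : ℝ) * ((d : ℝ) ^ i * (h26_Hv d n η S 0).card) := by
        apply mul_le_mul_of_nonneg_left ih
        positivity
      _ = (d : ℝ) ^ (i + 1) * (h26_Hv d n η S 0).card := by ring

/-- covered ridges of a core: double counting -/
theorem h26_cov_count (d n : ℕ) (η : ℝ) (S : Finset (Finset ℕ)) (hS : S ⊆ fc d n)
    (hc : Core S) : 2 * (h26_Hv d n η S 0).card ≤ (d + 1) * S.card := by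
  classical
  set A := h26_Hv d n η S 0 with hA
  have h1 : 2 * A.card ≤ (A.sigma (fun f => S.filter (fun τ => f ⊆ τ))).card := by
    rw [card_sigma]
    calc 2 * A.card = ∑ _f ∈ A, 2 := by simp [mul_comm]
      _ ≤ _ := by
        apply sum_le_sum
        intro f hf
        rw [hA, h26_Hv, mem_biUnion] at hf
        obtain ⟨σ, hσ, hf⟩ := hf
        rw [mem_powersetCard] at hf
        have h2 := hS hσ
        rw [fc, faces, mem_powersetCard] at h2
        have h3 : (σ \ f).card = 1 := by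
          rw [card_sdiff_of_subset hf.1]; omega
        obtain ⟨x, hx⟩ := card_eq_one.mp h3
        have hxs : x ∈ σ ∧ x ∉ f := by
          have : x ∈ σ \ f := by rw [hx]; exact mem_singleton_self x
          simpa using this
        have hfe : σ.erase x = f := by
          symm
          apply eq_of_subset_of_card_le
          · intro y hy
            rw [mem_erase]
            exact ⟨fun h => hxs.2 (h ▸ hy), hf.1 hy⟩
          · rw [card_erase_of_mem hxs.1]; omega
        obtain ⟨τ, hτ, hne, hsub⟩ := hc σ hσ x hxs.1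
        rw [hfe] at hsub
        have : ({σ, τ} : Finset (Finset ℕ)) ⊆ S.filter (fun τ => f ⊆ τ) := by
          intro z hz
          simp only [mem_insert, mem_singleton] at hz
          rcases hz with rfl | rfl
          · exact mem_filter.mpr ⟨hσ, hf.1⟩
          · exact mem_filter.mpr ⟨hτ, hsub⟩
        calc 2 = ({σ, τ} : Finset (Finset ℕ)).card := by
              rw [card_pair hne.symm]
          _ ≤ _ := card_le_card this
  have h2 : (A.sigma (fun f => S.filter (fun τ => f ⊆ τ))).card ≤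
      (S.sigma (fun τ => τ.powersetCard d)).card := by
    refine Finset.card_le_card_of_injOn (fun p => ⟨p.2, p.1⟩) ?_ ?_
    · rintro ⟨f, τ⟩ hp
      simp only [Finset.coe_sigma, Set.mem_sigma_iff, Finset.mem_coe, mem_filter,
        mem_powersetCard] at hp ⊢
      refine ⟨hp.2.1, hp.2.2, ?_⟩
      have := (h26_Hv_card_mem d n η S hS 0 f hp.1).2
      simpa using this
    · rintro ⟨f, τ⟩ _ ⟨f', τ'⟩ _ heq
      simp only [Sigma.mk.injEq, heq_eq_eq] at heq
      obtain ⟨e1, e2⟩ := heq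
      subst e1 e2
      rfl
  have h3 : (S.sigma (fun τ => τ.powersetCard d)).card = (d + 1) * S.card := by
    rw [card_sigma]
    calc ∑ τ ∈ S, (τ.powersetCard d).card = ∑ _τ ∈ S, (d + 1) := by
          apply sum_congr rfl
          intro τ hτ
          have h2 := hS hτ
          rw [fc, faces, mem_powersetCard] at h2
          rw [card_powersetCard, h2.2]
          simp
      _ = (d + 1) * S.card := by simp [mul_comm]
  omega


/-- extension counts of light sets -/
def h26_Light (d n : ℕ) (η : ℝ) (S : Finset (Finset ℕ)) : Prop :=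
  ∀ (g : Finset ℕ) (i : ℕ), g ⊆ range n → g ∉ h26_H d n η S → g.card + 1 + i = d →
    (((range n).filter (fun y => y ∉ g ∧ insert y g ∈ h26_Hv d n η S i)).card : ℝ) ≤
      η ^ (2 ^ i) * n

theorem h26_light {d n : ℕ} (hd : 2 ≤ d) {η : ℝ} {S : Finset (Finset ℕ)} (hS : S ⊆ fc d n)
    (hsm : ((h26_Hv d n η S (d - 1)).card : ℝ) ≤ η ^ (2 ^ (d - 1)) * n) :
    h26_Light d n η S := by
  classical
  intro g i hg hgH hi
  rcases Nat.eq_zero_or_pos g.card with h0 | hpos
  · have hg0 : g = ∅ := card_eq_zero.mp h0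
    subst hg0
    have hi' : i = d - 1 := by simp at hi; omega
    subst hi'
    refine le_trans ?_ hsm
    norm_cast
    apply Finset.card_le_card_of_injOn (fun y => ({y} : Finset ℕ))
    · intro y hy
      simp only [Finset.mem_coe, mem_filter] at hy ⊢
      simpa using hy.2.2
    · intro y _ y' _ h
      simpa using h
  · rw [h26_mem_H hS] at hgH
    have h1 : d - g.card = i + 1 := by omega
    rw [h1] at hgH
    by_contra hcon
    apply hgH
    refine ⟨hpos, by omega, ?_⟩
    rw [h26_Hv, mem_filter, mem_powersetCard]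
    refine ⟨⟨hg, by omega⟩, ?_⟩
    exact not_le.mp hcon

theorem h26_pow_le {η : ℝ} (h0 : 0 < η) (h1 : η ≤ 1) (i : ℕ) : η ^ (2 ^ i) ≤ η := by
  calc η ^ (2 ^ i) ≤ η ^ 1 := pow_le_pow_of_le_one h0.le h1 Nat.one_le_two_pow
    _ = η := pow_one η

/-- the number of heavy extensions of a nonheavy set is at most `⌊ε n⌋` -/
theorem h26_ext_le {d n : ℕ} {η ε : ℝ} (h0 : 0 < η) (h1 : η ≤ 1) (hε : η ≤ ε)
    {S : Finset (Finset ℕ)} (hS : S ⊆ fc d n) (hL : h26_Light d n η S) {g : Finset ℕ}
    (hg : g ⊆ range n) (hgH : g ∉ h26_H d n η S) :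
    ((range n).filter (fun y => y ∉ g ∧ insert y g ∈ h26_H d n η S)).card ≤ ⌊ε * n⌋₊ := by
  classical
  apply Nat.le_floor
  rcases Nat.lt_or_ge (g.card + 1) d with h2 | h2
  · have h3 := hL g (d - g.card - 1) hg hgH (by omega)
    have h4 : ((range n).filter (fun y => y ∉ g ∧ insert y g ∈ h26_H d n η S)) ⊆
        ((range n).filter (fun y => y ∉ g ∧ insert y g ∈ h26_Hv d n η S (d - g.card - 1))) := by
      intro y hy
      rw [mem_filter] at hy ⊢
      refine ⟨hy.1, hy.2.1, ?_⟩
      have h5 := (h26_mem_H hS).mp hy.2.2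
      rw [card_insert_of_notMem hy.2.1] at h5
      have : d - (g.card + 1) = d - g.card - 1 := by omega
      rw [this] at h5
      exact h5.2.2
    calc _ ≤ (((range n).filter (fun y => y ∉ g ∧
            insert y g ∈ h26_Hv d n η S (d - g.card - 1))).card : ℝ) := by
          exact_mod_cast card_le_card h4
      _ ≤ η ^ (2 ^ (d - g.card - 1)) * n := h3
      _ ≤ ε * n := by
          apply mul_le_mul_of_nonneg_right ((h26_pow_le h0 h1 _).trans hε)
          positivity
  · have : ((range n).filter (fun y => y ∉ g ∧ insert y g ∈ h26_H d n η S)) = ∅ := by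
      rw [filter_eq_empty_iff]
      intro y _ hy
      have h5 := (h26_mem_H hS).mp hy.2
      rw [card_insert_of_notMem hy.1] at h5
      omega
    rw [this]
    simp only [card_empty, Nat.cast_zero]
    exact mul_nonneg (h0.le.trans hε) (Nat.cast_nonneg n)

/-- the number of covered extensions of a nonheavy set of size `d - 1` -/
theorem h26_ext_cov_le {d n : ℕ} {η ε : ℝ} (hε : η ≤ ε)
    {S : Finset (Finset ℕ)} (hL : h26_Light d n η S) {g : Finset ℕ}
    (hg : g ⊆ range n) (hgH : g ∉ h26_H d n η S) (hgc : g.card + 1 = d)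
    {T : Finset (Finset ℕ)} (hT : T ⊆ S) :
    ((range n).filter (fun y => y ∉ g ∧ ∃ τ ∈ T, insert y g ⊆ τ)).card ≤ ⌊ε * n⌋₊ := by
  classical
  apply Nat.le_floor
  have h3 := hL g 0 hg hgH (by omega)
  have h4 : ((range n).filter (fun y => y ∉ g ∧ ∃ τ ∈ T, insert y g ⊆ τ)) ⊆
      ((range n).filter (fun y => y ∉ g ∧ insert y g ∈ h26_Hv d n η S 0)) := by
    intro y hy
    rw [mem_filter] at hy ⊢
    obtain ⟨hy1, hy2, τ, hτ, hsub⟩ := hy
    refine ⟨hy1, hy2, ?_⟩
    rw [h26_Hv, mem_biUnion]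
    refine ⟨τ, hT hτ, ?_⟩
    rw [mem_powersetCard]
    exact ⟨hsub, by rw [card_insert_of_notMem hy2]; exact hgc⟩
  calc _ ≤ (((range n).filter (fun y => y ∉ g ∧
          insert y g ∈ h26_Hv d n η S 0)).card : ℝ) := by
        exact_mod_cast card_le_card h4
    _ ≤ η ^ (2 ^ 0) * n := h3
    _ ≤ ε * n := by
        rw [pow_zero, pow_one]
        apply mul_le_mul_of_nonneg_right hε
        positivity

theorem h26_cov_insert (T : Finset (Finset ℕ)) (σ : Finset ℕ) (hσ : σ ∉ T) (r : Finset ℕ) :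
    h26_cov (insert σ T) r = h26_cov T r + (if r ⊆ σ then 1 else 0) := by
  classical
  unfold h26_cov
  rw [filter_insert]
  split_ifs with h
  · rw [card_insert_of_notMem]
    intro h2
    exact hσ (mem_filter.mp h2).1
  · simp

/-- subsets of size `d` of `insert x f` other than `f` -/
theorem h26_ridge {d : ℕ} {f r : Finset ℕ} {x : ℕ} (hf : f.card = d) (hx : x ∉ f)
    (hr : r ⊆ insert x f) (hrc : r.card = d) (hne : r ≠ f) :
    ∃ y ∈ f, r = insert x (f.erase y) := by
  classical
  have hxr : x ∈ r := by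
    by_contra h
    apply hne
    apply eq_of_subset_of_card_le
    · intro z hz
      rcases mem_insert.mp (hr hz) with rfl | h2
      · exact absurd hz h
      · exact h2
    · omega
  have h1 : (f \ r).Nonempty := by
    rw [sdiff_nonempty]
    intro h
    have : insert x f ⊆ r := by
      intro z hz
      rcases mem_insert.mp hz with rfl | h2
      · exact hxr
      · exact h h2
    have := card_le_card this
    rw [card_insert_of_notMem hx] at this
    omega
  obtain ⟨y, hy⟩ := h1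
  rw [mem_sdiff] at hy
  refine ⟨y, hy.1, ?_⟩
  apply eq_of_subset_of_card_le
  · intro z hz
    rcases mem_insert.mp (hr hz) with rfl | h2
    · exact mem_insert_self _ _
    · apply mem_insert_of_mem
      rw [mem_erase]
      exact ⟨fun h => hy.2 (h ▸ hz), h2⟩
  · rw [card_insert_of_notMem (fun h => hx (mem_of_mem_erase h)), card_erase_of_mem hy.1]
    have : 1 ≤ f.card := card_pos.mpr ⟨y, hy.1⟩
    omega

section Step

variable {d n : ℕ} {H T : Finset (Finset ℕ)} {f : Finset ℕ} {x : ℕ}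

/-- not cheap -/
def h26_NC (d : ℕ) (H T : Finset (Finset ℕ)) (f : Finset ℕ) (x : ℕ) : Prop :=
  (∀ h ⊆ f, h ∉ H → insert x h ∉ H) ∧
  (∀ h ⊆ f, h.card + 1 = d → h ∉ H → ∀ τ ∈ T, ¬ insert x h ⊆ τ)

theorem h26_keep (hf : f.card = d) (hx : x ∉ f) (hσT : insert x f ∉ T)
    (hnc : h26_NC d H T f x) :
    (h26_O d n H T).erase f ⊆ h26_O d n H (insert (insert x f) T) := by
  classical
  intro r hr
  rw [mem_erase] at hr
  obtain ⟨hne, hr⟩ := hr
  rw [h26_O, mem_filter] at hr ⊢
  refine ⟨hr.1, hr.2.1, ?_⟩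
  rw [h26_cov_insert _ _ hσT]
  have hrc := (mem_powersetCard.mp hr.1).2
  have : ¬ r ⊆ insert x f := by
    intro hsub
    obtain ⟨y, hy, he⟩ := h26_ridge hf hx hsub hrc hne
    have h1 : f.erase y ∉ H := hr.2.1 _ (he ▸ subset_insert _ _)
    have h2 := hnc.2 (f.erase y) (erase_subset _ _)
      (by rw [card_erase_of_mem hy]; have : 1 ≤ f.card := card_pos.mpr ⟨y, hy⟩; omega) h1
    have h3 : 0 < h26_cov T r := by rw [hr.2.2]; norm_num
    unfold h26_cov at h3
    obtain ⟨τ, hτ⟩ := card_pos.mp h3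
    rw [mem_filter] at hτ
    exact h2 τ hτ.1 (he ▸ hτ.2)
  rw [if_neg this, hr.2.2]

theorem h26_new (hf : f.card = d) (hfn : f ⊆ range n) (hxn : x ∈ range n) (hx : x ∉ f)
    (hσT : insert x f ∉ T) (hnc : h26_NC d H T f x) {y : ℕ} (hy : y ∈ f)
    (hcl : h26_clean H (f.erase y)) :
    insert x (f.erase y) ∈ h26_O d n H (insert (insert x f) T) ∧
      insert x (f.erase y) ∉ h26_O d n H T := by
  classical
  have hc0 : h26_cov T (insert x (f.erase y)) = 0 := by
    unfold h26_cov
    rw [card_eq_zero, filter_eq_empty_iff]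
    intro τ hτ
    exact hnc.2 (f.erase y) (erase_subset _ _)
      (by rw [card_erase_of_mem hy]; have : 1 ≤ f.card := card_pos.mpr ⟨y, hy⟩; omega)
      (hcl _ (Subset.refl _)) τ hτ
  constructor
  · rw [h26_O, mem_filter, mem_powersetCard]
    refine ⟨⟨?_, ?_⟩, ?_, ?_⟩
    · intro z hz
      rcases mem_insert.mp hz with rfl | h2
      · exact hxn
      · exact hfn (mem_of_mem_erase h2)
    · rw [card_insert_of_notMem (fun h => hx (mem_of_mem_erase h)), card_erase_of_mem hy]
      have : 1 ≤ f.card := card_pos.mpr ⟨y, hy⟩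
      omega
    · intro h hh
      by_cases hxh : x ∈ h
      · have h1 : h.erase x ⊆ f.erase y := by
          intro z hz
          rw [mem_erase] at hz
          rcases mem_insert.mp (hh hz.2) with h3 | h3
          · exact absurd h3 hz.1
          · exact h3
        have h2 := hnc.1 (h.erase x) (h1.trans (erase_subset _ _)) (hcl _ h1)
        rwa [insert_erase hxh] at h2
      · apply hcl
        intro z hz
        rcases mem_insert.mp (hh hz) with h3 | h3
        · exact absurd (h3 ▸ hz) hxh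
        · exact h3
    · rw [h26_cov_insert _ _ hσT, hc0, if_pos]
      intro z hz
      rcases mem_insert.mp hz with rfl | h2
      · exact mem_insert_self _ _
      · exact mem_insert_of_mem (mem_of_mem_erase h2)
  · rw [h26_O, mem_filter]
    rintro ⟨_, _, h3⟩
    omega

theorem h26_step_soft (hd : 2 ≤ d) (hf : f.card = d) (hfn : f ⊆ range n) (hxn : x ∈ range n)
    (hx : x ∉ f) (hσT : insert x f ∉ T) (hnc : h26_NC d H T f x) (hsoft : h26_soft H f) :
    (h26_O d n H T).card + 1 ≤ (h26_O d n H (insert (insert x f) T)).card := by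
  classical
  by_cases hcl : h26_clean H f
  · -- all ridges are new
    have h1 : (f.image (fun y => insert x (f.erase y))) ∪ (h26_O d n H T).erase f ⊆
        h26_O d n H (insert (insert x f) T) := by
      apply union_subset
      · intro r hr
        obtain ⟨y, hy, rfl⟩ := mem_image.mp hr
        exact (h26_new hf hfn hxn hx hσT hnc hy
          (fun h hh => hcl h (hh.trans (erase_subset _ _)))).1
      · exact h26_keep hf hx hσT hnc
    have h2 : Disjoint (f.image (fun y => insert x (f.erase y))) ((h26_O d n H T).erase f) := by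
      rw [disjoint_left]
      intro r hr hr2
      obtain ⟨y, hy, rfl⟩ := mem_image.mp hr
      exact (h26_new hf hfn hxn hx hσT hnc hy
          (fun h hh => hcl h (hh.trans (erase_subset _ _)))).2 (mem_of_mem_erase hr2)
    have h3 : (f.image (fun y => insert x (f.erase y))).card = d := by
      rw [card_image_of_injOn, hf]
      intro y hy y' hy' he
      have hy1 : y ∈ f := hy
      have hy2 : y' ∈ f := hy'
      have he' : insert x (f.erase y) = insert x (f.erase y') := he
      by_contra hne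
      have : y ∈ insert x (f.erase y') := by
        apply mem_insert_of_mem
        rw [mem_erase]
        exact ⟨hne, hy1⟩
      rw [← he'] at this
      rcases mem_insert.mp this with h | h
      · exact hx (h ▸ hy1)
      · exact (notMem_erase y f) h
    have h4 := card_le_card h1
    rw [card_union_of_disjoint h2, h3] at h4
    have h5 := Finset.pred_card_le_card_erase (s := h26_O d n H T) (a := f)
    omega
  · obtain ⟨y, hy, hcy⟩ := hsoft
    have hfO : f ∉ h26_O d n H T := by
      rw [h26_O, mem_filter]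
      rintro ⟨_, h, _⟩
      exact hcl h
    have h1 := h26_keep (n := n) hf hx hσT hnc
    rw [erase_eq_of_notMem hfO] at h1
    have h2 := h26_new hf hfn hxn hx hσT hnc hy hcy
    have h3 : insert (insert x (f.erase y)) (h26_O d n H T) ⊆
        h26_O d n H (insert (insert x f) T) := by
      intro r hr
      rcases mem_insert.mp hr with rfl | h
      · exact h2.1
      · exact h1 h
    have h4 := card_le_card h3
    rwa [card_insert_of_notMem h2.2] at h4

theorem h26_step_nonsoft (hd : 2 ≤ d) (hf : f.card = d)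
    (hx : x ∉ f) (hσT : insert x f ∉ T) (hnc : h26_NC d H T f x) (hsoft : ¬ h26_soft H f) :
    (h26_O d n H T).card ≤ (h26_O d n H (insert (insert x f) T)).card := by
  classical
  have hcl : ¬ h26_clean H f := by
    intro h
    apply hsoft
    obtain ⟨y, hy⟩ : f.Nonempty := card_pos.mp (by omega)
    exact ⟨y, hy, fun g hg => h g (hg.trans (erase_subset _ _))⟩
  have hfO : f ∉ h26_O d n H T := by
    rw [h26_O, mem_filter]
    rintro ⟨_, h, _⟩
    exact hcl h
  have h1 := h26_keep (n := n) hf hx hσT hnc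
  rw [erase_eq_of_notMem hfO] at h1
  exact card_le_card h1

theorem h26_step_cheap {σ : Finset ℕ} (hσ : σ.card = d + 1) (hσT : σ ∉ T) :
    (h26_O d n H T).card ≤ (h26_O d n H (insert σ T)).card + (d + 1) := by
  classical
  have h1 : h26_O d n H T ⊆ h26_O d n H (insert σ T) ∪ σ.powersetCard d := by
    intro r hr
    rw [h26_O, mem_filter, mem_powersetCard] at hr
    rw [mem_union]
    by_cases h : r ⊆ σ
    · right
      rw [mem_powersetCard]
      exact ⟨h, hr.1.2⟩
    · left
      rw [h26_O, mem_filter, mem_powersetCard]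
      refine ⟨hr.1, hr.2.1, ?_⟩
      rw [h26_cov_insert _ _ hσT, if_neg h, hr.2.2]
  calc _ ≤ _ := card_le_card h1
    _ ≤ _ := card_union_le _ _
    _ = _ := by
      rw [card_powersetCard, hσ]
      simp

theorem h26_N_mono {σ : Finset ℕ} (hσT : σ ∉ T) :
    h26_N d n H T ⊆ h26_N d n H (insert σ T) := by
  classical
  intro r hr
  rw [h26_N, mem_filter] at hr ⊢
  refine ⟨hr.1, hr.2.1, ?_⟩
  rw [h26_cov_insert _ _ hσT]
  omega

theorem h26_N_step (hf : f.card = d) (hfn : f ⊆ range n) (hσT : insert x f ∉ T)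
    (hfo : h26_cov T f = 1) (hsoft : ¬ h26_soft H f) :
    (h26_N d n H T).card + 1 ≤ (h26_N d n H (insert (insert x f) T)).card := by
  classical
  have h1 : insert f (h26_N d n H T) ⊆ h26_N d n H (insert (insert x f) T) := by
    intro r hr
    rcases mem_insert.mp hr with rfl | h
    · rw [h26_N, mem_filter, mem_powersetCard]
      refine ⟨⟨hfn, hf⟩, hsoft, ?_⟩
      rw [h26_cov_insert _ _ hσT, hfo, if_pos (subset_insert _ _)]
    · exact h26_N_mono hσT h
  have h2 : f ∉ h26_N d n H T := by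
    rw [h26_N, mem_filter]
    rintro ⟨_, _, h⟩
    omega
  have h3 := card_le_card h1
  rwa [card_insert_of_notMem h2] at h3

end Step

theorem h26_exp_basic {d n : ℕ} : ∀ l : List (Finset ℕ), Exp d n l →
    l.Nodup ∧ ∀ σ ∈ l, σ ∈ fc d n := by
  intro l
  induction l with
  | nil => intro h; exact absurd h (by simp [Exp])
  | cons σ t ih =>
    cases t with
    | nil =>
      intro h
      simp only [Exp] at h
      simpa using h
    | cons τ t =>
      intro h
      simp only [Exp] at h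
      obtain ⟨h1, h2, h3, h4, h5⟩ := h
      have h6 := ih h1
      refine ⟨List.nodup_cons.mpr ⟨h3, h6.1⟩, ?_⟩
      intro z hz
      rcases List.mem_cons.mp hz with rfl | h
      · exact h4
      · exact h6.2 z h

/-- not cheap in the sense of `CheapStep` implies `h26_NC` -/
theorem h26_nc_of {d n : ℕ} {η ε : ℝ} (h0 : 0 < η) (h1 : η ≤ 1) (hε : η ≤ ε)
    {S : Finset (Finset ℕ)} (hS : S ⊆ fc d n) (hL : h26_Light d n η S)
    {t : List (Finset ℕ)} (ht : t.toFinset ⊆ S) {x : ℕ}
    (hfn : opn d t.toFinset ⊆ range n) (hx : x ∉ opn d t.toFinset)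
    (hch : ¬ CheapStep d n ⌊ε * n⌋₊ (h26_H d n η S) t (insert x (opn d t.toFinset))) :
    h26_NC d (h26_H d n η S) t.toFinset (opn d t.toFinset) x := by
  classical
  constructor
  · intro h hh hhH hcon
    apply hch
    exact ⟨h, hh, x, hx, rfl, Or.inl ⟨hhH,
      h26_ext_le h0 h1 hε hS hL (hh.trans hfn) hhH, hcon⟩⟩
  · intro h hh hc hhH τ hτ hcon
    apply hch
    refine ⟨h, hh, x, hx, rfl, Or.inr ⟨hhH, hc, ?_, τ, hτ, hcon⟩⟩
    exact h26_ext_cov_le hε hL (hh.trans hfn) hhH hc ht

theorem h26_inv {d n : ℕ} (hd : 2 ≤ d) {η ε : ℝ} (h0 : 0 < η) (h1 : η ≤ 1) (hε : η ≤ ε)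
    {S : Finset (Finset ℕ)} (hS : S ⊆ fc d n) (hL : h26_Light d n η S) :
    ∀ l : List (Finset ℕ), Exp d n l → l.toFinset ⊆ S →
      l.length ≤ 1 + (h26_O d n (h26_H d n η S) l.toFinset).card +
        (d + 2) * cnt (CheapStep d n ⌊ε * n⌋₊ (h26_H d n η S)) l +
        (h26_N d n (h26_H d n η S) l.toFinset).card := by
  classical
  intro l
  induction l with
  | nil => intro h; exact absurd h (by simp [Exp])
  | cons σ t ih =>
    cases t with
    | nil =>
      intro h hs
      simp only [List.length_singleton]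
      omega
    | cons τ t =>
      intro h hs
      have hbasic := h26_exp_basic _ h
      simp only [Exp] at h
      obtain ⟨e1, e2, e3, e4, e5⟩ := h
      have hts : (τ :: t).toFinset ⊆ S := by
        refine subset_trans ?_ hs
        intro z hz
        rw [List.mem_toFinset] at hz ⊢
        exact List.mem_cons_of_mem _ hz
      have ih' := ih e1 hts
      have hTe : (σ :: τ :: t).toFinset = insert σ (τ :: t).toFinset := by
        rw [List.toFinset_cons]
      rw [hTe]
      simp only [cnt, List.length_cons] at ih' ⊢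
      have hσT : σ ∉ (τ :: t).toFinset := by
        rw [List.mem_toFinset]; exact e3
      have e4' := e4
      rw [fc, faces, mem_powersetCard] at e4'
      set T := (τ :: t).toFinset with hT
      have hfc : (opn d T).card = d := e2.1
      have hfn : opn d T ⊆ range n := e5.trans e4'.1
      have h3 : (σ \ opn d T).card = 1 := by
        rw [card_sdiff_of_subset e5]; omega
      obtain ⟨x, hx⟩ := card_eq_one.mp h3
      have hxs : x ∈ σ ∧ x ∉ opn d T := by
        have : x ∈ σ \ opn d T := by rw [hx]; exact mem_singleton_self x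
        simpa using this
      have hσe : σ = insert x (opn d T) := by
        symm
        apply eq_of_subset_of_card_le
        · intro z hz
          rcases mem_insert.mp hz with rfl | h
          · exact hxs.1
          · exact e5 h
        · rw [card_insert_of_notMem hxs.2]; omega
      have hcovf : h26_cov T (opn d T) = 1 := e2.2
      have hNm := card_le_card (h26_N_mono (d := d) (n := n) (H := h26_H d n η S) hσT)
      by_cases hch : CheapStep d n ⌊ε * n⌋₊ (h26_H d n η S) (τ :: t) σ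
      · have hO := h26_step_cheap (n := n) (H := h26_H d n η S) e4'.2 hσT
        rw [if_pos hch]
        rw [Nat.mul_add]
        omega
      · rw [if_neg hch, add_zero]
        have hxn : x ∈ range n := e4'.1 hxs.1
        have hnc : h26_NC d (h26_H d n η S) T (opn d T) x := by
          apply h26_nc_of h0 h1 hε hS hL hts hfn hxs.2
          rw [← hT, ← hσe]
          exact hch
        rw [hσe] at hσT hNm ⊢
        by_cases hsoft : h26_soft (h26_H d n η S) (opn d T)
        · have hO := h26_step_soft hd hfc hfn hxn hxs.2 hσT hnc hsoft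
          omega
        · have hO := h26_step_nonsoft (n := n) hd hfc hxs.2 hσT hnc hsoft
          have hN := h26_N_step (n := n) hfc hfn hσT hcovf hsoft
          omega

theorem h26_O_core {d n : ℕ} {S : Finset (Finset ℕ)} (hS : S ⊆ fc d n) (hc : Core S)
    (H : Finset (Finset ℕ)) : h26_O d n H S = ∅ := by
  classical
  rw [h26_O, filter_eq_empty_iff]
  rintro r hr ⟨_, h1⟩
  rw [mem_powersetCard] at hr
  unfold h26_cov at h1
  obtain ⟨σ, hσ⟩ := card_eq_one.mp h1
  have h2 : σ ∈ S.filter (fun τ => r ⊆ τ) := by rw [hσ]; exact mem_singleton_self _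
  rw [mem_filter] at h2
  have h3 := hS h2.1
  rw [fc, faces, mem_powersetCard] at h3
  have h4 : (σ \ r).card = 1 := by
    rw [card_sdiff_of_subset h2.2]; omega
  obtain ⟨x, hx⟩ := card_eq_one.mp h4
  have hxs : x ∈ σ ∧ x ∉ r := by
    have : x ∈ σ \ r := by rw [hx]; exact mem_singleton_self x
    simpa using this
  obtain ⟨τ, hτ, hne, hsub⟩ := hc σ h2.1 x hxs.1
  have h5 : τ ∈ S.filter (fun τ => r ⊆ τ) := by
    rw [mem_filter]
    refine ⟨hτ, ?_⟩
    intro z hz
    apply hsub
    rw [mem_erase]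
    exact ⟨fun h => hxs.2 (h ▸ hz), h2.2 hz⟩
  rw [hσ, mem_singleton] at h5
  exact hne h5


theorem h26_nonsoft_struct {d n : ℕ} {η : ℝ} {S : Finset (Finset ℕ)} (hS : S ⊆ fc d n)
    {f : Finset ℕ} (hf : f.Nonempty) (hns : ¬ h26_soft (h26_H d n η S) f) :
    ∃ h ∈ h26_H d n η S, h ⊆ f ∧ ∃ y ∈ f, y ∉ h ∧ ∃ g ⊆ f.erase y,
      g ∉ h26_H d n η S ∧ insert y g ∈ h26_H d n η S ∧ g.card + 1 ≤ h.card ∧ y ∉ g := by
  classical
  have key : ∀ y ∈ f, ∃ h ∈ h26_H d n η S, h ⊆ f.erase y := by
    intro y hy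
    by_contra hcon
    push Not at hcon
    exact hns ⟨y, hy, fun h hh hH => hcon h hH hh⟩
  have hne : ((h26_H d n η S).filter (fun h => h ⊆ f)).Nonempty := by
    obtain ⟨y, hy⟩ := hf
    obtain ⟨h, hh, hs⟩ := key y hy
    exact ⟨h, mem_filter.mpr ⟨hh, hs.trans (erase_subset _ _)⟩⟩
  obtain ⟨h1, h1m, hmin⟩ := exists_min_image _ (fun h : Finset ℕ => h.card) hne
  rw [mem_filter] at h1m
  have hpos := ((h26_mem_H hS).mp h1m.1).1
  obtain ⟨y, hy⟩ := card_pos.mp hpos
  obtain ⟨h2, h2m, h2s⟩ := key y (h1m.2 hy)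
  refine ⟨h2, h2m, h2s.trans (erase_subset _ _), y, h1m.2 hy, ?_, h1.erase y, ?_, ?_, ?_, ?_,
    notMem_erase _ _⟩
  · intro h
    exact (notMem_erase y f) (h2s h)
  · intro z hz
    rw [mem_erase] at hz ⊢
    exact ⟨hz.1, h1m.2 hz.2⟩
  · intro hcon
    have h3 := hmin (h1.erase y) (mem_filter.mpr ⟨hcon, (erase_subset _ _).trans h1m.2⟩)
    rw [card_erase_of_mem hy] at h3
    omega
  · rw [insert_erase hy]
    exact h1m.1
  · rw [card_erase_of_mem hy]
    have h3 := hmin h2 (mem_filter.mpr ⟨h2m, h2s.trans (erase_subset _ _)⟩)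
    omega

open Classical in
/-- the candidates for nonsoft ridges -/
noncomputable def h26_X (d n : ℕ) (η : ℝ) (S : Finset (Finset ℕ)) (i : ℕ) :
    Finset (Finset ℕ) :=
  (h26_Hv d n η S i).biUnion (fun h => ((range n).powersetCard (i - 1)).biUnion (fun w =>
    ((h ∪ w).powerset.filter (fun g => g ∉ h26_H d n η S ∧ g.card + 1 ≤ d - i)).biUnion
      (fun g => ((range n).filter (fun y => y ∉ g ∧ insert y g ∈ h26_H d n η S)).image
        (fun y => insert y (h ∪ w)))))

theorem h26_X_card {d n : ℕ} {η : ℝ} (h0 : 0 < η) (h1 : η ≤ 1)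
    {S : Finset (Finset ℕ)} (hS : S ⊆ fc d n) (hL : h26_Light d n η S) (i : ℕ) (hi : 1 ≤ i)
    (hid : i ≤ d - 1) :
    (h26_X d n η S i).card ≤ (h26_Hv d n η S i).card * (n ^ (i - 1) *
      (2 ^ d * ⌊η ^ (2 ^ i) * n⌋₊)) := by
  classical
  unfold h26_X
  apply card_biUnion_le_card_mul
  intro h hh
  have hh1 := h26_Hv_card_mem d n η S hS i h hh
  have hw : ((range n).powersetCard (i - 1)).card ≤ n ^ (i - 1) := by
    rw [card_powersetCard, card_range]
    exact Nat.choose_le_pow _ _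
  refine le_trans (card_biUnion_le_card_mul _ _ (2 ^ d * ⌊η ^ (2 ^ i) * n⌋₊) ?_)
    (Nat.mul_le_mul_right _ hw)
  intro w hw
  rw [mem_powersetCard] at hw
  have hg : ((h ∪ w).powerset.filter (fun g => g ∉ h26_H d n η S ∧
      g.card + 1 ≤ d - i)).card ≤ 2 ^ d := by
    calc _ ≤ (h ∪ w).powerset.card := card_filter_le _ _
      _ = 2 ^ (h ∪ w).card := card_powerset _
      _ ≤ 2 ^ d := by
        apply Nat.pow_le_pow_right (by norm_num)
        have := card_union_le h w
        omega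
  refine le_trans (card_biUnion_le_card_mul _ _ (⌊η ^ (2 ^ i) * n⌋₊) ?_)
    (Nat.mul_le_mul_right _ hg)
  intro g hg
  rw [mem_filter, mem_powerset] at hg
  refine le_trans card_image_le ?_
  apply Nat.le_floor
  have hgn : g ⊆ range n := hg.1.trans (union_subset hh1.1 hw.1)
  have h3 := hL g (d - g.card - 1) hgn hg.2.1 (by omega)
  have h4 : ((range n).filter (fun y => y ∉ g ∧ insert y g ∈ h26_H d n η S)) ⊆
      ((range n).filter (fun y => y ∉ g ∧ insert y g ∈ h26_Hv d n η S (d - g.card - 1))) := by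
    intro y hy
    rw [mem_filter] at hy ⊢
    refine ⟨hy.1, hy.2.1, ?_⟩
    have h5 := (h26_mem_H hS).mp hy.2.2
    rw [card_insert_of_notMem hy.2.1] at h5
    have : d - (g.card + 1) = d - g.card - 1 := by omega
    rw [this] at h5
    exact h5.2.2
  calc _ ≤ (((range n).filter (fun y => y ∉ g ∧
          insert y g ∈ h26_Hv d n η S (d - g.card - 1))).card : ℝ) := by
        exact_mod_cast card_le_card h4
    _ ≤ η ^ (2 ^ (d - g.card - 1)) * n := h3
    _ ≤ η ^ (2 ^ i) * n := by
        apply mul_le_mul_of_nonneg_right _ (Nat.cast_nonneg n)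
        apply pow_le_pow_of_le_one h0.le h1
        apply Nat.pow_le_pow_right (by norm_num)
        omega

theorem h26_nonsoft_sub {d n : ℕ} (hd : 2 ≤ d) {η : ℝ}
    {S : Finset (Finset ℕ)} (hS : S ⊆ fc d n) :
    h26_N d n (h26_H d n η S) S ⊆ (Finset.Icc 1 (d - 1)).biUnion (h26_X d n η S) := by
  classical
  intro f hf
  rw [h26_N, mem_filter, mem_powersetCard] at hf
  obtain ⟨⟨hfn, hfc⟩, hns, _⟩ := hf
  obtain ⟨h, hh, hhf, y, hy, hyh, g, hg, hgH, hyg, hgc, hyng⟩ :=
    h26_nonsoft_struct hS (card_pos.mp (by omega)) hns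
  have h1 := (h26_mem_H hS).mp hh
  rw [mem_biUnion]
  refine ⟨d - h.card, by rw [Finset.mem_Icc]; omega, ?_⟩
  have hfeq : h ∪ ((f \ h).erase y) = f.erase y := by
    ext z
    simp only [mem_union, mem_erase, mem_sdiff]
    constructor
    · rintro (h2 | h2)
      · exact ⟨fun e => hyh (e ▸ h2), hhf h2⟩
      · exact ⟨h2.1, h2.2.1⟩
    · rintro ⟨h2, h3⟩
      by_cases h4 : z ∈ h
      · exact Or.inl h4
      · exact Or.inr ⟨h2, h3, h4⟩
  have hwc : ((f \ h).erase y).card = d - h.card - 1 := by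
    rw [card_erase_of_mem (mem_sdiff.mpr ⟨hy, hyh⟩), card_sdiff_of_subset hhf]
    omega
  unfold h26_X
  rw [mem_biUnion]
  refine ⟨h, h1.2.2, ?_⟩
  rw [mem_biUnion]
  refine ⟨(f \ h).erase y, ?_, ?_⟩
  · rw [mem_powersetCard]
    exact ⟨(erase_subset _ _).trans (sdiff_subset.trans hfn), hwc⟩
  · rw [mem_biUnion]
    refine ⟨g, ?_, ?_⟩
    · rw [mem_filter, mem_powerset, hfeq]
      exact ⟨hg, hgH, by omega⟩
    · rw [mem_image]
      refine ⟨y, ?_, ?_⟩
      · rw [mem_filter]
        exact ⟨hfn hy, hyng, hyg⟩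
      · rw [hfeq, insert_erase hy]

theorem h26_nonsoft_card {d n : ℕ} (hd : 2 ≤ d) {η : ℝ} (h0 : 0 < η) (h1 : η ≤ 1)
    {S : Finset (Finset ℕ)} (hS : S ⊆ fc d n) (hL : h26_Light d n η S) :
    ((h26_N d n (h26_H d n η S) S).card : ℝ) ≤
      (d : ℝ) * (2 ^ d * η * ((d : ℝ) ^ d * (h26_Hv d n η S 0).card)) := by
  classical
  have hd1 : (1 : ℝ) ≤ d := by exact_mod_cast (by omega : 1 ≤ d)
  have hX : ∀ i ∈ Finset.Icc 1 (d - 1), ((h26_X d n η S i).card : ℝ) ≤
      2 ^ d * η * ((d : ℝ) ^ d * (h26_Hv d n η S 0).card) := by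
    intro i hi
    rw [Finset.mem_Icc] at hi
    have h2 := h26_X_card h0 h1 hS hL i hi.1 hi.2
    have h3 := h26_Hv_bound d n η h0 S hS i
    have h4 : (⌊η ^ (2 ^ i) * n⌋₊ : ℝ) ≤ η ^ (2 ^ i) * n :=
      Nat.floor_le (by positivity)
    have e1 : η ^ (2 ^ i) = η ^ (2 ^ i - 1) * η := by
      rw [← pow_succ]
      congr 1
      have : 1 ≤ 2 ^ i := Nat.one_le_two_pow
      omega
    have e2 : (n : ℝ) ^ i = (n : ℝ) ^ (i - 1) * n := by
      rw [← pow_succ]
      congr 1
      omega
    calc ((h26_X d n η S i).card : ℝ) ≤ ((h26_Hv d n η S i).card * (n ^ (i - 1) *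
          (2 ^ d * ⌊η ^ (2 ^ i) * n⌋₊)) : ℕ) := by exact_mod_cast h2
      _ = ((h26_Hv d n η S i).card : ℝ) * ((n : ℝ) ^ (i - 1) *
          (2 ^ d * (⌊η ^ (2 ^ i) * n⌋₊ : ℝ))) := by push_cast; ring
      _ ≤ ((h26_Hv d n η S i).card : ℝ) * ((n : ℝ) ^ (i - 1) *
          (2 ^ d * (η ^ (2 ^ i) * n))) := by gcongr
      _ = 2 ^ d * η * (((h26_Hv d n η S i).card : ℝ) * (η ^ (2 ^ i - 1) * (n : ℝ) ^ i)) := by
          rw [e1, e2]; ring
      _ ≤ 2 ^ d * η * ((d : ℝ) ^ i * (h26_Hv d n η S 0).card) := by gcongr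
      _ ≤ 2 ^ d * η * ((d : ℝ) ^ d * (h26_Hv d n η S 0).card) := by
          gcongr
          omega
  have h5 : ((h26_N d n (h26_H d n η S) S).card : ℝ) ≤
      ∑ i ∈ Finset.Icc 1 (d - 1), ((h26_X d n η S i).card : ℝ) := by
    have := (card_le_card (h26_nonsoft_sub hd hS (η := η))).trans card_biUnion_le
    exact_mod_cast this
  calc _ ≤ _ := h5
    _ ≤ ∑ _i ∈ Finset.Icc 1 (d - 1), (2 ^ d * η * ((d : ℝ) ^ d * (h26_Hv d n η S 0).card)) :=
        sum_le_sum hX
    _ = ((d - 1 : ℕ) : ℝ) * (2 ^ d * η * ((d : ℝ) ^ d * (h26_Hv d n η S 0).card)) := by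
        rw [sum_const, Nat.card_Icc, nsmul_eq_mul]
        simp
    _ ≤ _ := by
        apply mul_le_mul_of_nonneg_right _ (by positivity)
        exact_mod_cast Nat.sub_le d 1

theorem cheap_large (d : ℕ) (hd : 2 ≤ d) (ε : ℝ) (hε : 0 < ε) (hε1 : ε ≤ 1) :
    ∃ ρ > (0:ℝ), ∃ C' > (0:ℝ), ∃ n0 : ℕ, ∀ n ≥ n0, ∀ S ⊆ fc d n, S.Nonempty → Core S →
      (S.card : ℝ) ≤ ρ * (n : ℝ) ^ d → ∀ l, Exp d n l → l.toFinset = S →
      ∃ H : Finset (Finset ℕ), (∀ h ∈ H, h ⊆ range n ∧ 1 ≤ h.card ∧ h.card + 1 ≤ d) ∧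
        (H.card : ℝ) ≤ C' * S.card / n ∧
        S.card ≤ 4 * (d + 2) * (cnt (CheapStep d n ⌊ε * n⌋₊ H) l + 1) := by
  classical
  have hd1 : (1 : ℝ) ≤ d := by exact_mod_cast (by omega : 1 ≤ d)
  have hd0 : (0 : ℝ) < d := by linarith
  obtain ⟨η, h0, h1, hηε, hη⟩ : ∃ η : ℝ, 0 < η ∧ η ≤ 1 ∧ η ≤ ε ∧
      (d : ℝ) * (2 ^ d * η * ((d : ℝ) ^ d * (d + 1))) ≤ 1 := by
    refine ⟨min ε (1 / ((d : ℝ) * (2 ^ d * ((d : ℝ) ^ d * (d + 1))))), ?_, ?_, ?_, ?_⟩
    · apply lt_min hε; positivity
    · exact (min_le_left _ _).trans hε1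
    · exact min_le_left _ _
    · have h2 : min ε (1 / ((d : ℝ) * (2 ^ d * ((d : ℝ) ^ d * (d + 1))))) ≤
          1 / ((d : ℝ) * (2 ^ d * ((d : ℝ) ^ d * (d + 1)))) := min_le_right _ _
      rw [le_div_iff₀ (by positivity)] at h2
      nlinarith [h2]
  refine ⟨η ^ (2 ^ d) / ((d : ℝ) ^ d * (d + 1)), by positivity,
    (d : ℝ) * ((d : ℝ) ^ d * (d + 1)) / η ^ (2 ^ d), by positivity, 1, ?_⟩
  intro n hn S hS hSne hc hsize l hl hlS
  have hn1 : (1 : ℝ) ≤ n := by exact_mod_cast hn
  have hn0 : (0 : ℝ) < n := by linarith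
  have hK : 2 * ((h26_Hv d n η S 0).card : ℝ) ≤ ((d : ℝ) + 1) * S.card := by
    exact_mod_cast h26_cov_count d n η S hS hc
  -- smallness
  have hsm : ((h26_Hv d n η S (d - 1)).card : ℝ) ≤ η ^ (2 ^ (d - 1)) * n := by
    have h3 := h26_Hv_bound d n η h0 S hS (d - 1)
    have h4 : (d : ℝ) ^ (d - 1) * (h26_Hv d n η S 0).card ≤
        η ^ (2 ^ d) * (n : ℝ) ^ d := by
      calc (d : ℝ) ^ (d - 1) * (h26_Hv d n η S 0).card
          ≤ (d : ℝ) ^ d * (((d : ℝ) + 1) * S.card) := by
            gcongr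
            · omega
            · linarith [Nat.cast_nonneg (α := ℝ) (h26_Hv d n η S 0).card]
        _ ≤ (d : ℝ) ^ d * (((d : ℝ) + 1) * (η ^ (2 ^ d) / ((d : ℝ) ^ d * (d + 1)) *
              (n : ℝ) ^ d)) := by gcongr
        _ = η ^ (2 ^ d) * (n : ℝ) ^ d := by field_simp
    have h5 : η ^ (2 ^ d) * (n : ℝ) ^ d ≤
        (η ^ (2 ^ (d - 1)) * n) * (η ^ (2 ^ (d - 1) - 1) * (n : ℝ) ^ (d - 1)) := by
      have e2 : (n : ℝ) ^ d = (n : ℝ) ^ (d - 1) * n := by
        rw [← pow_succ]
        congr 1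
        omega
      calc η ^ (2 ^ d) * (n : ℝ) ^ d ≤
            η ^ (2 ^ (d - 1) + (2 ^ (d - 1) - 1)) * (n : ℝ) ^ d := by
            apply mul_le_mul_of_nonneg_right _ (by positivity)
            apply pow_le_pow_of_le_one h0.le h1
            have : 2 ^ d = 2 ^ (d - 1) * 2 := by
              rw [← pow_succ]
              congr 1
              omega
            omega
        _ = _ := by rw [pow_add, e2]; ring
    have h6 := (h3.trans h4).trans h5
    exact le_of_mul_le_mul_right h6 (by positivity)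
  have hL : h26_Light d n η S := h26_light hd hS hsm
  refine ⟨h26_H d n η S, ?_, ?_, ?_⟩
  · intro h hh
    have h2 := (h26_mem_H hS).mp hh
    exact ⟨(h26_Hv_card_mem d n η S hS _ h h2.2.2).1, h2.1, h2.2.1⟩
  · -- size of H
    have h2 : ((h26_H d n η S).card : ℝ) ≤
        ∑ i ∈ Finset.Icc 1 (d - 1), ((h26_Hv d n η S i).card : ℝ) := by
      have : (h26_H d n η S).card ≤ ∑ i ∈ Finset.Icc 1 (d - 1), (h26_Hv d n η S i).card :=
        card_biUnion_le
      exact_mod_cast this
    have h3 : ∀ i ∈ Finset.Icc 1 (d - 1), ((h26_Hv d n η S i).card : ℝ) ≤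
        ((d : ℝ) ^ d * (((d : ℝ) + 1) * S.card)) / (η ^ (2 ^ d) * n) := by
      intro i hi
      rw [Finset.mem_Icc] at hi
      have h4 := h26_Hv_bound d n η h0 S hS i
      rw [le_div_iff₀ (by positivity)]
      calc ((h26_Hv d n η S i).card : ℝ) * (η ^ (2 ^ d) * n)
          ≤ ((h26_Hv d n η S i).card : ℝ) * (η ^ (2 ^ i - 1) * (n : ℝ) ^ i) := by
            apply mul_le_mul_of_nonneg_left _ (Nat.cast_nonneg _)
            apply mul_le_mul _ _ hn0.le (by positivity)
            · apply pow_le_pow_of_le_one h0.le h1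
              have : 2 ^ i ≤ 2 ^ d := Nat.pow_le_pow_right (by norm_num) (by omega)
              exact (Nat.sub_le _ _).trans this
            · calc (n : ℝ) = (n : ℝ) ^ 1 := (pow_one _).symm
                _ ≤ (n : ℝ) ^ i := pow_le_pow_right₀ hn1 hi.1
        _ ≤ (d : ℝ) ^ i * (h26_Hv d n η S 0).card := h4
        _ ≤ (d : ℝ) ^ d * (((d : ℝ) + 1) * S.card) := by
            gcongr
            · omega
            · linarith [Nat.cast_nonneg (α := ℝ) (h26_Hv d n η S 0).card]
    calc ((h26_H d n η S).card : ℝ) ≤ _ := h2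
      _ ≤ ∑ _i ∈ Finset.Icc 1 (d - 1),
          ((d : ℝ) ^ d * (((d : ℝ) + 1) * S.card)) / (η ^ (2 ^ d) * n) := sum_le_sum h3
      _ = ((d - 1 : ℕ) : ℝ) * (((d : ℝ) ^ d * (((d : ℝ) + 1) * S.card)) /
            (η ^ (2 ^ d) * n)) := by
          rw [sum_const, Nat.card_Icc, nsmul_eq_mul]
          simp
      _ ≤ (d : ℝ) * (((d : ℝ) ^ d * (((d : ℝ) + 1) * S.card)) / (η ^ (2 ^ d) * n)) := by
          apply mul_le_mul_of_nonneg_right _ (by positivity)
          exact_mod_cast Nat.sub_le d 1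
      _ = _ := by field_simp
  · have h2 := h26_inv hd h0 h1 hηε hS hL l hl (by rw [hlS])
    rw [hlS, h26_O_core hS hc, card_empty] at h2
    have h3 : l.length = S.card := by
      rw [← hlS]
      exact (List.toFinset_card_of_nodup (h26_exp_basic l hl).1).symm
    have h4 := h26_nonsoft_card hd h0 h1 hS hL
    have h5 : (d : ℝ) * (2 ^ d * η * ((d : ℝ) ^ d * (h26_Hv d n η S 0).card)) ≤
        (S.card : ℝ) / 2 := by
      calc (d : ℝ) * (2 ^ d * η * ((d : ℝ) ^ d * (h26_Hv d n η S 0).card))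
          ≤ (d : ℝ) * (2 ^ d * η * ((d : ℝ) ^ d * (((d : ℝ) + 1) * S.card / 2))) := by
            gcongr
            linarith
        _ = ((d : ℝ) * (2 ^ d * η * ((d : ℝ) ^ d * (d + 1)))) * ((S.card : ℝ) / 2) := by ring
        _ ≤ 1 * ((S.card : ℝ) / 2) := by gcongr
        _ = (S.card : ℝ) / 2 := one_mul _
    have h6 : 2 * (h26_N d n (h26_H d n η S) S).card ≤ S.card := by
      have h7 : 2 * ((h26_N d n (h26_H d n η S) S).card : ℝ) ≤ S.card := by linarith
      exact_mod_cast h7
    rw [h3] at h2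
    set c := cnt (CheapStep d n ⌊ε * n⌋₊ (h26_H d n η S)) l with hcdef
    have h8 : 4 * (d + 2) * (c + 1) = 4 * ((d + 2) * c) + 4 * (d + 2) := by ring
    rw [h8]
    omega

end FC
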