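import Pool.Agent.H92.FC.Path

/-!
# Two closures intersect
-/

namespace FC

open Finset

variable {d : ℕ}

/-- two of many dense sets have a dense intersection -/
theorem h71_pair (G : Finset (Finset ℕ)) (j : ℕ) (F : ℕ → Finset (Finset ℕ))
    (hF : ∀ l < j, F l ⊆ G) (s : ℝ) (hs : 0 < s) (hj : 2 ≤ (j : ℝ) * s ^ 2) (hG : 0 < G.card)
    (h : ∀ l < j, s * (G.card : ℝ) ≤ ((F l).card : ℝ)) :
    ∃ l < j, ∃ l' < j, l ≠ l' ∧ s ^ 2 * (G.card : ℝ) / 2 ≤ ((F l ∩ F l').card : ℝ) := by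
  classical
  by_contra hno
  push_neg at hno
  have hN : (0:ℝ) < G.card := by exact_mod_cast hG
  have hj0 : 0 < j := by
    rcases Nat.eq_zero_or_pos j with h0 | h0
    · subst h0; norm_num at hj
    · exact h0
  have hjR : (1:ℝ) ≤ j := by exact_mod_cast hj0
  have hs1 : s ≤ 1 := by
    have h1 := h 0 hj0
    have h2 : ((F 0).card : ℝ) ≤ G.card := by exact_mod_cast Finset.card_le_card (hF 0 hj0)
    have h3 : s * (G.card : ℝ) ≤ 1 * (G.card : ℝ) := by linarith
    exact le_of_mul_le_mul_right h3 hN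
  set c : Finset ℕ → ℕ → ℝ := fun σ l => if σ ∈ F l then 1 else 0 with hc
  have hcard : ∀ l ∈ range j, ((F l).card : ℝ) = ∑ σ ∈ G, c σ l := by
    intro l hl
    simp only [hc]
    rw [Finset.sum_ite_mem, Finset.inter_eq_right.2 (hF l (Finset.mem_range.1 hl))]
    simp
  have hcard2 : ∀ l ∈ range j, ∀ l' ∈ range j,
      ((F l ∩ F l').card : ℝ) = ∑ σ ∈ G, c σ l * c σ l' := by
    intro l hl l' hl'
    have e : ∀ σ ∈ G, c σ l * c σ l' = if σ ∈ F l ∩ F l' then 1 else 0 := by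
      intro σ _
      simp only [hc, Finset.mem_inter]
      by_cases h1 : σ ∈ F l <;> by_cases h2 : σ ∈ F l' <;> simp [h1, h2]
    rw [Finset.sum_congr rfl e, Finset.sum_ite_mem,
      Finset.inter_eq_right.2 (Finset.inter_subset_left.trans (hF l (Finset.mem_range.1 hl)))]
    simp
  set S : ℝ := ∑ l ∈ range j, ((F l).card : ℝ) with hS
  have hS1 : S = ∑ σ ∈ G, ∑ l ∈ range j, c σ l := by
    rw [hS, Finset.sum_congr rfl hcard, Finset.sum_comm]
  have hS2 : ∑ σ ∈ G, (∑ l ∈ range j, c σ l) ^ 2 =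
      ∑ l ∈ range j, ∑ l' ∈ range j, ((F l ∩ F l').card : ℝ) := by
    have e : ∀ σ ∈ G, (∑ l ∈ range j, c σ l) ^ 2 =
        ∑ l ∈ range j, ∑ l' ∈ range j, c σ l * c σ l' := by
      intro σ _
      rw [sq, Finset.sum_mul_sum]
    rw [Finset.sum_congr rfl e, Finset.sum_comm]
    refine Finset.sum_congr rfl fun l hl => ?_
    rw [Finset.sum_comm]
    refine Finset.sum_congr rfl fun l' hl' => ?_
    rw [hcard2 l hl l' hl']
  have hcs : S ^ 2 ≤ G.card * ∑ l ∈ range j, ∑ l' ∈ range j, ((F l ∩ F l').card : ℝ) := by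
    rw [← hS2, hS1]
    exact sq_sum_le_card_mul_sum_sq
  have hsum : ∑ l ∈ range j, ∑ l' ∈ range j, ((F l ∩ F l').card : ℝ) ≤
      S + j * ((j - 1) * (s ^ 2 * (G.card : ℝ) / 2)) := by
    have e : ∀ l ∈ range j, ∑ l' ∈ range j, ((F l ∩ F l').card : ℝ) ≤
        ((F l).card : ℝ) + (j - 1) * (s ^ 2 * (G.card : ℝ) / 2) := by
      intro l hl
      rw [← Finset.add_sum_erase _ _ hl, Finset.inter_self]
      have e2 : ∑ l' ∈ (range j).erase l, ((F l ∩ F l').card : ℝ) ≤
          ∑ l' ∈ (range j).erase l, (s ^ 2 * (G.card : ℝ) / 2) := by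
        refine Finset.sum_le_sum fun l' hl' => ?_
        have h1 := Finset.mem_erase.1 hl'
        exact (hno l (Finset.mem_range.1 hl) l' (Finset.mem_range.1 h1.2) (Ne.symm h1.1)).le
      rw [Finset.sum_const, Finset.card_erase_of_mem hl, Finset.card_range, nsmul_eq_mul,
        Nat.cast_sub hj0] at e2
      push_cast at e2
      linarith
    have e3 := Finset.sum_le_sum e
    rw [Finset.sum_add_distrib, Finset.sum_const, Finset.card_range, nsmul_eq_mul] at e3
    exact e3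
  have hSl : (j : ℝ) * (s * G.card) ≤ S := by
    have e := Finset.sum_le_sum (fun l (hl : l ∈ range j) => h l (Finset.mem_range.1 hl))
    rw [Finset.sum_const, Finset.card_range, nsmul_eq_mul] at e
    exact e
  set N : ℝ := (G.card : ℝ) with hNdef
  -- normalise
  obtain ⟨u, hu⟩ : ∃ u : ℝ, S = u * N := ⟨S / N, by field_simp⟩
  have hmain : S ^ 2 ≤ N * (S + j * ((j - 1) * (s ^ 2 * N / 2))) :=
    hcs.trans (mul_le_mul_of_nonneg_left hsum hN.le)
  rw [hu] at hmain hSl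
  have hu1 : (j : ℝ) * s ≤ u := by
    have : (j : ℝ) * s * N ≤ u * N := by linarith
    exact le_of_mul_le_mul_right this hN
  have hmain2 : u ^ 2 ≤ u + j * (j - 1) * s ^ 2 / 2 := by
    have h1 : u ^ 2 * (N * N) ≤ (u + j * (j - 1) * s ^ 2 / 2) * (N * N) := by
      calc u ^ 2 * (N * N) = (u * N) ^ 2 := by ring
        _ ≤ _ := hmain
        _ = _ := by ring
    exact le_of_mul_le_mul_right h1 (mul_pos hN hN)
  have hjs : 2 ≤ (j : ℝ) * s := by
    have : (j : ℝ) * s ^ 2 ≤ (j : ℝ) * s := by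
      refine mul_le_mul_of_nonneg_left ?_ (by linarith)
      nlinarith
    linarith
  have h5 : ((j : ℝ) * s) ^ 2 - j * s ≤ u ^ 2 - u := by nlinarith
  have h6 : ((j : ℝ) * s) ^ 2 - j * s ≤ j * (j - 1) * s ^ 2 / 2 := by linarith
  have h7 : (j : ℝ) * (j * s ^ 2 - s) ≤ j * ((j - 1) * s ^ 2 / 2) := by
    calc (j : ℝ) * (j * s ^ 2 - s) = ((j : ℝ) * s) ^ 2 - j * s := by ring
      _ ≤ _ := h6
      _ = _ := by ring
  have h8 := le_of_mul_le_mul_left h7 (by linarith : (0:ℝ) < j)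
  have h9 : 0 < s ^ 2 := by positivity
  nlinarith

/-- the number of random elements of a fixed set -/
theorem h71_cnt {α : Type*} [DecidableEq α] (G F : Finset α) (hF : F ⊆ G) (y μ A : ℝ)
    (hy0 : 0 ≤ y) (hy1 : y ≤ 1) (hμ : μ ≤ y * F.card) (hA : A ≤ μ / 2) :
    Ex G y (fun Z => ind (((Z ∩ F).card : ℝ) < A)) ≤ Real.exp (-(μ / 16)) := by
  rw [Ex_restrict G F hF y (fun Z => ind ((Z.card : ℝ) < A))]
  have h1 := conc_dn F y (1 / 4) (y * F.card / 2) hy0 hy1 (by norm_num) (by norm_num)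
    (fun X => (X.card : ℝ)) (fun X _ a _ ha => by
      beta_reduce
      rw [Finset.card_insert_of_notMem ha]; push_cast
      constructor <;> linarith)
  rw [Ex_card] at h1
  have h2 : Ex F y (fun Z => ind ((Z.card : ℝ) < A)) ≤
      Ex F y (fun X => ind ((X.card : ℝ) ≤ y * F.card - y * F.card / 2)) := by
    refine Ex_mono F y hy0 hy1 _ _ fun X _ => ind_mono fun h => ?_
    linarith
  refine h2.trans (h1.trans (Real.exp_le_exp.2 ?_))
  nlinarith

/-- the statement for the forward description of the pair -/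
theorem h71_db_fwd (R : CRank d) (n k j : ℕ) (s : ℝ) (hs : 0 < s)
    (hj : 2 ≤ (j : ℝ) * s ^ 2) (q p A : ℝ) (hq0 : 0 ≤ q) (hq1 : q ≤ 1) (hp0 : 0 ≤ p)
    (hp1 : p ≤ 1) (hqp : q * p < 1)
    (hA : A ≤ q * (1 - p) * s ^ 2 * (n.choose (d + 1) : ℝ) / 8) (X : Finset (Finset ℕ)) :
    Ex (fc d n \ X) (q * (1 - p) / (1 - q * p)) (fun Z =>
      ind ((X.card : ℝ) ≤ s ^ 2 * (n.choose (d + 1) : ℝ) / 4 ∧
      (∀ l < j, s * (n.choose (d + 1) : ℝ) ≤ ((clset R (range n \ blk k l) X).card : ℝ)) ∧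
      (∀ l < j, ∀ l' < j, l ≠ l' →
        (R.nul ((X ∪ Z) ∩ faces d (range n \ (blk k l ∪ blk k l'))) : ℝ) + R.nul X < A + R.nul
          (X ∩ faces d (range n \ blk k l)) + R.nul (X ∩ faces d (range n \ blk k l'))))) ≤
    Real.exp (-(q * (1 - p) * s ^ 2 * (n.choose (d + 1) : ℝ) / 64)) := by
  classical
  set y : ℝ := q * (1 - p) / (1 - q * p) with hy
  have hden : 0 < 1 - q * p := by linarith
  have hqp0 : 0 ≤ q * (1 - p) := mul_nonneg hq0 (by linarith)
  have hy0 : 0 ≤ y := div_nonneg hqp0 hden.le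
  have hy1 : y ≤ 1 := by
    rw [hy, div_le_one hden]; nlinarith
  have hyl : q * (1 - p) ≤ y := by
    rw [hy, le_div_iff₀ hden]
    have : 0 ≤ q * p := mul_nonneg hq0 hp0
    nlinarith
  set N : ℝ := (n.choose (d + 1) : ℝ) with hN
  have hN0 : 0 ≤ N := Nat.cast_nonneg _
  by_cases h12 : (X.card : ℝ) ≤ s ^ 2 * N / 4 ∧
      (∀ l < j, s * N ≤ ((clset R (range n \ blk k l) X).card : ℝ))
  swap
  · refine (Ex_le_const _ _ hy0 hy1 _ 0 fun Z _ => ?_).trans (Real.exp_pos _).le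
    rw [ind_neg fun h => h12 ⟨h.1, h.2.1⟩]
  obtain ⟨hX, hcl⟩ := h12
  rcases hN0.eq_or_lt with h0 | h0
  · rw [← h0]
    simp only [mul_zero, zero_div, neg_zero, Real.exp_zero]
    exact Ex_le_const _ _ hy0 hy1 _ 1 fun Z _ => ind_le_one _
  have hGc : ((fc d n).card : ℝ) = N := by rw [card_fc]
  have hG : 0 < (fc d n).card := by
    have : (0:ℝ) < (fc d n).card := by rw [hGc]; exact h0
    exact_mod_cast this
  have hsub : ∀ l, clset R (range n \ blk k l) X ⊆ fc d n := fun l =>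
    (Finset.filter_subset _ _).trans (faces_mono Finset.sdiff_subset)
  obtain ⟨l, hl, l', hl', hll, hint⟩ := h71_pair (fc d n) j
    (fun l => clset R (range n \ blk k l) X) (fun l _ => hsub l) s hs hj hG
    (by rw [hGc]; exact hcl)
  rw [hGc] at hint
  set F := (clset R (range n \ blk k l) X ∩ clset R (range n \ blk k l') X) \ X with hF
  have hFs : F ⊆ fc d n \ X :=
    Finset.sdiff_subset_sdiff (Finset.inter_subset_left.trans (hsub l)) (Finset.Subset.refl _)
  have hFc : s ^ 2 * N / 4 ≤ (F.card : ℝ) := by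
    have h1 : (clset R (range n \ blk k l) X ∩ clset R (range n \ blk k l') X).card ≤
        F.card + X.card := by
      rw [hF]
      have := Finset.le_card_sdiff X
        (clset R (range n \ blk k l) X ∩ clset R (range n \ blk k l') X)
      omega
    have h2 : ((clset R (range n \ blk k l) X ∩ clset R (range n \ blk k l') X).card : ℝ) ≤
        F.card + X.card := by exact_mod_cast h1
    linarith
  have hcnt := h71_cnt (fc d n \ X) F hFs y (q * (1 - p) * s ^ 2 * N / 4) A hy0 hy1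
    (by
      calc q * (1 - p) * s ^ 2 * N / 4 = q * (1 - p) * (s ^ 2 * N / 4) := by ring
        _ ≤ y * F.card := mul_le_mul hyl hFc (by positivity) hy0)
    (by linarith)
  have he : -(q * (1 - p) * s ^ 2 * N / 4 / 16) = -(q * (1 - p) * s ^ 2 * N / 64) := by ring
  rw [he] at hcnt
  refine le_trans (Ex_mono _ _ hy0 hy1 _ _ fun Z hZ => ind_mono fun h => ?_) hcnt
  have h3 := h.2.2 l hl l' hl' hll
  have e0 : (X ∩ faces d (range n \ blk k l)) ∩ (X ∩ faces d (range n \ blk k l')) =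
      X ∩ faces d (range n \ (blk k l ∪ blk k l')) := by
    have e1 : faces d (range n \ (blk k l ∪ blk k l')) =
        faces d (range n \ blk k l) ∩ faces d (range n \ blk k l') := by
      rw [faces_inter]
      congr 1
      ext x; simp only [Finset.mem_inter, Finset.mem_sdiff, Finset.mem_union]; tauto
    rw [e1]
    ext x; simp only [Finset.mem_inter]; tauto
  have hmemF : ∀ σ ∈ F, (σ ∈ faces d (range n \ blk k l) ∧
      R.r (insert σ (X ∩ faces d (range n \ blk k l))) =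
        R.r (X ∩ faces d (range n \ blk k l))) ∧
      (σ ∈ faces d (range n \ blk k l') ∧
      R.r (insert σ (X ∩ faces d (range n \ blk k l'))) =
        R.r (X ∩ faces d (range n \ blk k l'))) ∧ σ ∉ X := by
    intro σ hσ
    rw [hF, Finset.mem_sdiff, Finset.mem_inter] at hσ
    unfold clset at hσ
    rw [Finset.mem_filter, Finset.mem_filter] at hσ
    exact ⟨hσ.1.1, hσ.1.2, hσ.2⟩
  have hns := nul_super R.toRankFn X (X ∩ faces d (range n \ blk k l))
    (X ∩ faces d (range n \ blk k l')) (X ∩ faces d (range n \ (blk k l ∪ blk k l')))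
    (Z ∩ faces d (range n \ (blk k l ∪ blk k l'))) (Z ∩ F)
    Finset.inter_subset_left Finset.inter_subset_left e0
    (by
      intro σ hσ
      rw [Finset.mem_inter] at hσ
      obtain ⟨h1, h2, _⟩ := hmemF σ hσ.2
      rw [Finset.mem_inter]
      refine ⟨hσ.1, ?_⟩
      have h4 := mem_faces.1 h1.1
      have h5 := mem_faces.1 h2.1
      rw [mem_faces]
      refine ⟨?_, h4.2⟩
      intro x hx
      have h6 := Finset.mem_sdiff.1 (h4.1 hx)
      have h7 := Finset.mem_sdiff.1 (h5.1 hx)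
      rw [Finset.mem_sdiff, Finset.mem_union]
      exact ⟨h6.1, fun h => h.elim h6.2 h7.2⟩)
    (by
      rw [Finset.disjoint_left]
      intro σ hσ hσ2
      exact (hmemF σ (Finset.mem_inter.1 hσ).2).2.2 (Finset.mem_inter.1 hσ2).1)
    (fun σ hσ => (hmemF σ (Finset.mem_inter.1 hσ).2).1.2)
    (fun σ hσ => (hmemF σ (Finset.mem_inter.1 hσ).2).2.1.2)
  have eY : (X ∩ faces d (range n \ (blk k l ∪ blk k l'))) ∪
      (Z ∩ faces d (range n \ (blk k l ∪ blk k l'))) =
      (X ∪ Z) ∩ faces d (range n \ (blk k l ∪ blk k l')) := by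
    rw [Finset.union_inter_distrib_right]
  rw [eY] at hns
  have hns' : ((R.nul (X ∩ faces d (range n \ blk k l)) : ℝ) +
      R.nul (X ∩ faces d (range n \ blk k l')) + ((Z ∩ F).card : ℝ)) ≤
      (R.nul X : ℝ) + R.nul ((X ∪ Z) ∩ faces d (range n \ (blk k l ∪ blk k l'))) := by
    exact_mod_cast hns
  linarith

/-- the forward description of the pair, as a statement -/
def h71_Fwd : Prop := ∀ (G : Finset (Finset ℕ)) (q p : ℝ) (_ : 0 ≤ q)
    (_ : q ≤ 1) (_ : 0 ≤ p) (_ : p ≤ 1) (_ : q * p < 1)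
    (f : Finset (Finset ℕ) → Finset (Finset ℕ) → ℝ),
    Ex2 G q p f = Ex G (q * p) (fun X => Ex (G \ X) (q * (1 - p) / (1 - q * p))
      (fun Z => f X (X ∪ Z)))

theorem h71_db_of (hfwd : h71_Fwd) (R : CRank d) (n k j : ℕ) (_hjk : j * k ≤ n) (s : ℝ)
    (hs : 0 < s)
    (hj : 2 ≤ (j : ℝ) * s ^ 2) (q p A : ℝ) (hq0 : 0 ≤ q) (hq1 : q ≤ 1) (hp0 : 0 ≤ p)
    (hp1 : p ≤ 1) (hqp : q * p < 1)
    (hA : A ≤ q * (1 - p) * s ^ 2 * (n.choose (d + 1) : ℝ) / 8) :
    Ex2 (fc d n) q p (fun X Y => ind ((X.card : ℝ) ≤ s ^ 2 * (n.choose (d + 1) : ℝ) / 4 ∧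
      (∀ l < j, s * (n.choose (d + 1) : ℝ) ≤ ((clset R (range n \ blk k l) X).card : ℝ)) ∧
      (∀ l < j, ∀ l' < j, l ≠ l' →
        (R.nul (Y ∩ faces d (range n \ (blk k l ∪ blk k l'))) : ℝ) + R.nul X < A + R.nul
          (X ∩ faces d (range n \ blk k l)) + R.nul (X ∩ faces d (range n \ blk k l'))))) ≤
    Real.exp (-(q * (1 - p) * s ^ 2 * (n.choose (d + 1) : ℝ) / 64)) := by
  rw [hfwd (fc d n) q p hq0 hq1 hp0 hp1 hqp]
  refine Ex_le_const _ _ (mul_nonneg hq0 hp0) hqp.le _ _ fun X _ => ?_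
  exact h71_db_fwd R n k j s hs hj q p A hq0 hq1 hp0 hp1 hqp hA X

end FC
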