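import Mathlib

/-!
# First emerging cycle: common definitions

Faces are `(d+1)`-element finsets of naturals, ridges are `d`-element finsets.
-/

namespace FC

open Finset

/-- Bernoulli(`q`) expectation over the subsets of a finite ground set `G`. -/
noncomputable def Ex {α : Type*} [DecidableEq α] (G : Finset α) (q : ℝ)
    (f : Finset α → ℝ) : ℝ :=
  ∑ X ∈ G.powerset, q ^ X.card * (1 - q) ^ (G \ X).card * f X

open Classical in
/-- Indicator of a proposition, as a real number. -/
noncomputable def ind (p : Prop) : ℝ := if p then 1 else 0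

/-- All `d`-dimensional faces on the vertex set `V`. -/
def faces (d : ℕ) (V : Finset ℕ) : Finset (Finset ℕ) := V.powersetCard (d + 1)

/-- All `d`-dimensional faces on `{0, …, m-1}`. -/
def fc (d m : ℕ) : Finset (Finset ℕ) := faces d (range m)

/-- Every ridge covered by `S` is covered by at least two faces of `S`. -/
def Core (S : Finset (Finset ℕ)) : Prop :=
  ∀ σ ∈ S, ∀ x ∈ σ, ∃ τ ∈ S, τ ≠ σ ∧ σ.erase x ⊆ τ

/-- `S` contains a copy of the boundary of a `(d+1)`-simplex. -/
def HasBd (d : ℕ) (S : Finset (Finset ℕ)) : Prop :=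
  ∃ W : Finset ℕ, W.card = d + 2 ∧ W.powersetCard (d + 1) ⊆ S

/-- A rank function on finsets (a matroid rank function). -/
structure RankFn (α : Type*) [DecidableEq α] where
  r : Finset α → ℕ
  empty : r ∅ = 0
  mono : ∀ S T : Finset α, S ⊆ T → r S ≤ r T
  ins : ∀ (a : α) (S : Finset α), r (insert a S) ≤ r S + 1
  submod : ∀ S T : Finset α, r (S ∪ T) + r (S ∩ T) ≤ r S + r T

/-- Nullity. -/
def RankFn.nul {α : Type*} [DecidableEq α] (R : RankFn α) (S : Finset α) : ℕ :=
  S.card - R.r S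

/-- Nonempty sets all of whose elements lie in the closure of the others. -/
def RankFn.Cyc {α : Type*} [DecidableEq α] (R : RankFn α) (C : Finset α) : Prop :=
  C.Nonempty ∧ ∀ e ∈ C, R.r (C.erase e) = R.r C

/-- The properties of the rank of incidence vectors of `d`-faces that are used. -/
structure CRank (d : ℕ) extends RankFn (Finset ℕ) where
  map : ∀ φ : ℕ → ℕ, StrictMono φ → ∀ S : Finset (Finset ℕ),
    r (S.image (fun σ => σ.image φ)) = r S
  le_ridge : ∀ (V : Finset ℕ) (S : Finset (Finset ℕ)), S ⊆ faces d V →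
    r S ≤ V.card.choose d
  free : ∀ S : Finset (Finset ℕ), (∀ τ ∈ S, τ.card = d + 1) → ∀ σ : Finset ℕ,
    σ.card = d + 1 → ∀ x ∈ σ, (∀ τ ∈ S, ¬ σ.erase x ⊆ τ) → r (insert σ S) = r S + 1
  simp : ∀ W : Finset ℕ, W.card = d + 2 → r (W.powersetCard (d + 1)) ≤ d + 1

/-- Expected nullity of the Bernoulli(`q`) complex on `[m]`. -/
noncomputable def beta {d : ℕ} (R : CRank d) (m : ℕ) (q : ℝ) : ℝ :=
  Ex (fc d m) q (fun X => (R.nul X : ℝ))

/-- Derivative of `beta` (Russo). -/
noncomputable def Tm {d : ℕ} (R : CRank d) (m : ℕ) (q : ℝ) : ℝ :=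
  ∑ σ ∈ fc d m, Ex ((fc d m).erase σ) q (fun X => ind (R.r (insert σ X) = R.r X))

/-! ### Exploration of cores -/

/-- `f` is a ridge covered by exactly one face of `T`. -/
def Open1 (d : ℕ) (T : Finset (Finset ℕ)) (f : Finset ℕ) : Prop :=
  f.card = d ∧ (T.filter (fun τ => f ⊆ τ)).card = 1

open Classical in
/-- A chosen open ridge. -/
noncomputable def opn (d : ℕ) (T : Finset (Finset ℕ)) : Finset ℕ :=
  if h : ∃ f, Open1 d T f then h.choose else ∅

/-- Exploration lists, latest face first: every new face is attached at the chosen open ridge. -/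
def Exp (d n : ℕ) : List (Finset ℕ) → Prop
  | [] => False
  | [σ] => σ ∈ fc d n
  | σ :: τ :: t => Exp d n (τ :: t) ∧ Open1 d (τ :: t).toFinset (opn d (τ :: t).toFinset) ∧
      σ ∉ (τ :: t) ∧ σ ∈ fc d n ∧ opn d (τ :: t).toFinset ⊆ σ

open Classical in
/-- Number of steps of the list satisfying `ch` (`ch t σ`: the step adding `σ` to `t`). -/
noncomputable def cnt (ch : List (Finset ℕ) → Finset ℕ → Prop) : List (Finset ℕ) → ℕ
  | [] => 0
  | [_] => 0
  | σ :: τ :: t => cnt ch (τ :: t) + (if ch (τ :: t) σ then 1 else 0)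

/-- The new face has no new vertex. -/
def OldStep (t : List (Finset ℕ)) (σ : Finset ℕ) : Prop :=
  ∀ x ∈ σ, ∃ τ ∈ t, x ∈ τ

/-- Cheap step relative to a family `H` of heavy sets, with threshold `e`. -/
def CheapStep (d n e : ℕ) (H : Finset (Finset ℕ)) (t : List (Finset ℕ)) (σ : Finset ℕ) : Prop :=
  ∃ h ⊆ opn d t.toFinset, ∃ x : ℕ, x ∉ opn d t.toFinset ∧ σ = insert x (opn d t.toFinset) ∧
    ((h ∉ H ∧ ((range n).filter (fun y => y ∉ h ∧ insert y h ∈ H)).card ≤ e ∧ insert x h ∈ H) ∨
     (h ∉ H ∧ h.card + 1 = d ∧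
        ((range n).filter (fun y => y ∉ h ∧ ∃ τ ∈ t.toFinset, insert y h ⊆ τ)).card ≤ e ∧
        ∃ τ ∈ t.toFinset, insert x h ⊆ τ))

end FC
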