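import Pool.Agent.H92.FC.ANof2

set_option autoImplicit false

/-!
# `nul_tail`, `an_big`, `an_low` with a general exponent
-/

namespace FC

open Finset

variable {d : ℕ}

/-- lower tail of the nullity -/
theorem h63e_nul_tail (e0 : ℝ) (he0 : 0 < e0) (R : CRank d) : ∃ m0 : ℕ, ∀ m ≥ m0, ∀ q : ℝ, 0 ≤ q → q ≤ ((d : ℝ) + 3) / m →
    (m : ℝ) ^ ((d : ℝ) / 2 + e0) ≤ beta R m q →
    Ex (fc d m) q (fun X => ind ((R.nul X : ℝ) ≤ beta R m q / 2)) ≤ 1 / 8 := by
  -- m large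
  have hlim : Filter.Tendsto (fun m : ℕ => (m : ℝ) ^ (2 * e0)) Filter.atTop Filter.atTop :=
    (tendsto_rpow_atTop (by linarith)).comp tendsto_natCast_atTop_atTop
  obtain ⟨m1, hm1⟩ := (hlim.eventually_ge_atTop (48 * ((d : ℝ) + 3))).exists_forall_of_atTop
  refine ⟨max m1 (d + 3), fun m hm q hq0 hq hβ => ?_⟩
  have hmm1 := hm1 m (le_of_max_le_left hm)
  have hmd : d + 3 ≤ m := le_of_max_le_right hm
  have hm0 : (0:ℝ) < m := by exact_mod_cast (by omega : 0 < m)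
  have hd3 : (0:ℝ) < (d:ℝ) + 3 := by positivity
  have hq1 : q ≤ 1 := by
    refine hq.trans ?_
    rw [div_le_one hm0]; exact_mod_cast hmd
  set β := beta R m q with hβdef
  set A : ℝ := ((d:ℝ) + 3) * (m:ℝ) ^ d with hA
  have hApos : 0 < A := by positivity
  have hNq : (m.choose (d + 1) : ℝ) * q ≤ A := by
    have h1 : (m.choose (d + 1) : ℝ) ≤ (m : ℝ) ^ (d + 1) := by
      exact_mod_cast Nat.choose_le_pow m (d + 1)
    calc _ ≤ (m : ℝ) ^ (d + 1) * (((d:ℝ) + 3) / m) := by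
          apply mul_le_mul h1 hq hq0 (by positivity)
      _ = A := by rw [hA, pow_succ]; field_simp
  have hβ0 : 0 < β := lt_of_lt_of_le (by positivity) hβ
  have hβA : β ≤ A := by
    refine le_trans ?_ hNq
    rw [hβdef]; unfold beta
    calc _ ≤ Ex (fc d m) q (fun X => (X.card : ℝ)) := by
          refine Ex_mono _ _ hq0 hq1 _ _ fun X _ => ?_
          have := R.nul_add X
          exact_mod_cast (by omega : R.nul X ≤ X.card)
      _ = _ := by rw [Ex_card, card_fc]; ring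
  set l : ℝ := β / (4 * A) with hl
  have hl0 : 0 ≤ l := by positivity
  have hl1 : l ≤ 1 := by
    rw [hl, div_le_one (by positivity)]; linarith
  have h := nul_conc_dn R m (range m) (Finset.card_range m) q l (β / 2) hq0 hq1 hl0 hl1
  have e1 : β - β / 2 = β / 2 := by ring
  rw [← hβdef, e1] at h
  refine (show Ex (fc d m) q (fun X => ind ((R.nul X : ℝ) ≤ β / 2)) ≤ _ from h).trans ?_
  have h2 : -(l * (β / 2)) + (m.choose (d + 1) : ℝ) * q * l ^ 2 ≤ -3 := by
    have h3 : (m.choose (d + 1) : ℝ) * q * l ^ 2 ≤ A * l ^ 2 :=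
      mul_le_mul_of_nonneg_right hNq (sq_nonneg l)
    have h4 : A * l ^ 2 = l * (β / 4) := by
      rw [hl]; field_simp
    have h5 : l * (β / 4) = β ^ 2 / (16 * A) := by rw [hl]; field_simp; ring
    have h6 : (m : ℝ) ^ ((2 * e0)) * (m:ℝ) ^ d ≤ β ^ 2 := by
      have h7 : ((m : ℝ) ^ ((d : ℝ) / 2 + e0)) ^ 2 = (m : ℝ) ^ ((2 * e0)) * (m:ℝ) ^ d := by
        rw [← Real.rpow_natCast (m:ℝ) d, ← Real.rpow_add hm0, ← Real.rpow_natCast, ← Real.rpow_mul hm0.le]
        congr 1; push_cast; ring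
      rw [← h7]
      exact pow_le_pow_left₀ (by positivity) hβ 2
    have h8 : 3 ≤ β ^ 2 / (16 * A) := by
      rw [le_div_iff₀ (by positivity)]
      refine le_trans ?_ h6
      rw [hA]
      have h9 : (0:ℝ) < (m:ℝ) ^ d := by positivity
      nlinarith
    nlinarith
  calc Real.exp _ ≤ Real.exp (-3) := Real.exp_le_exp.2 h2
    _ ≤ 1 / 8 := by
      have h3 : (8:ℝ) ≤ Real.exp 3 := by
        have := Real.exp_one_gt_d9
        have h4 : Real.exp 3 = Real.exp 1 ^ 3 := by rw [← Real.exp_nat_mul]; norm_num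
        rw [h4]
        have h5 : (2:ℝ) ^ 3 ≤ Real.exp 1 ^ 3 := pow_le_pow_left₀ (by norm_num) (by linarith) 3
        linarith
      rw [Real.exp_neg, one_div]
      exact inv_anti₀ (by norm_num) h3

theorem h63e_an_big (e0 : ℝ) (he0 : 0 < e0) (hg : GiantProp d ((d : ℝ) + 3)) (R : CRank d) :
    ∃ s > (0:ℝ), ∃ m0 : ℕ, ∀ m ≥ m0, ∀ q : ℝ, 0 < q → q ≤ ((d : ℝ) + 3) / m →
      (m : ℝ) ^ ((d : ℝ) / 2 + e0) ≤ beta R m q → s * (m : ℝ) ^ (d + 1) ≤ Tm R m q := by
  obtain ⟨ρ, hρ, K, hK, n0, hgi⟩ := hg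
  obtain ⟨m1, hm1⟩ := h63e_nul_tail e0 he0 R
  have hd3 : (0:ℝ) < (d:ℝ) + 3 := by positivity
  have hlim : Filter.Tendsto (fun m : ℕ => (m : ℝ)) Filter.atTop Filter.atTop :=
    tendsto_natCast_atTop_atTop
  have hlim2 : Filter.Tendsto (fun m : ℕ => (m : ℝ) ^ ((d : ℝ) / 2 + e0)) Filter.atTop
      Filter.atTop := (tendsto_rpow_atTop (by positivity)).comp hlim
  obtain ⟨m2, hm2⟩ := (hlim.eventually_ge_atTop (8 * K)).exists_forall_of_atTop
  obtain ⟨m3, hm3⟩ := (hlim2.eventually_ge_atTop (16 * ((d:ℝ) + 3) ^ (d + 2))).exists_forall_of_atTop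
  refine ⟨ρ / (2 * ((d:ℝ) + 3)), by positivity, max (max m1 n0) (max (max m2 m3) (d + 3)),
    fun m hm q hq0 hq hβ => ?_⟩
  have b1 := hm1 m ((le_max_left _ _).trans ((le_max_left _ _).trans hm)) q hq0.le hq hβ
  have b2 := hgi m ((le_max_right _ _).trans ((le_max_left _ _).trans hm)) q hq0.le hq
  have b3 := hm2 m ((le_max_left _ _).trans ((le_max_left _ _).trans
    ((le_max_right _ _).trans hm)))
  have b4 := hm3 m ((le_max_right _ _).trans ((le_max_left _ _).trans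
    ((le_max_right _ _).trans hm)))
  have hmd : d + 3 ≤ m := (le_max_right _ _).trans ((le_max_right _ _).trans hm)
  have hm0 : (0:ℝ) < m := by exact_mod_cast (by omega : 0 < m)
  have hq1 : q ≤ 1 := by
    refine hq.trans ?_
    rw [div_le_one hm0]; exact_mod_cast hmd
  set β := beta R m q with hβdef
  have hβ0 : 0 < β := lt_of_lt_of_le (by positivity) hβ
  -- events
  have c1 : Ex (fc d m) q (fun X => ind ((R.nul X : ℝ) ≤ β / 2)) ≤ 1 / 8 := b1
  have c2 : Ex (fc d m) q (fun X => ind (SmallCore d m ρ X)) ≤ 1 / 8 := by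
    refine (show _ ≤ K / m from b2).trans ?_
    rw [div_le_iff₀ hm0]; linarith
  have c3 : Ex (fc d m) q (fun X => ind (β / 2 ≤ (nb d m X : ℝ))) ≤ 1 / 8 := by
    refine (Ex_markov (fc d m) q hq0.le hq1 (fun X => (nb d m X : ℝ)) (fun _ _ => by positivity)
      (β / 2) (by positivity)).trans ?_
    have h1 := Ex_nb_le (d := d) m (by omega) ((d:ℝ) + 3) q hq0.le hd3.le hq
    rw [div_le_iff₀ (by positivity)]
    have : 16 * ((d:ℝ) + 3) ^ (d + 2) ≤ β := b4.trans hβ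
    linarith
  have key : Ex (fc d m) q (fun X => ρ * (m:ℝ) ^ d * (1 - (ind ((R.nul X : ℝ) ≤ β / 2) +
      ind (SmallCore d m ρ X) + ind (β / 2 ≤ (nb d m X : ℝ))))) ≤
      Ex (fc d m) q (fun X => (noncol R X : ℝ)) := by
    refine Ex_mono _ _ hq0.le hq1 _ _ fun X hX => ?_
    have i1 := ind_nonneg ((R.nul X : ℝ) ≤ β / 2)
    have i2 := ind_nonneg (SmallCore d m ρ X)
    have i3 := ind_nonneg (β / 2 ≤ (nb d m X : ℝ))
    have hpos : 0 ≤ ρ * (m:ℝ) ^ d := by positivity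
    by_cases e1 : (R.nul X : ℝ) ≤ β / 2
    · have : (0:ℝ) ≤ noncol R X := Nat.cast_nonneg _
      rw [ind_pos e1]; nlinarith
    by_cases e2 : SmallCore d m ρ X
    · have : (0:ℝ) ≤ noncol R X := Nat.cast_nonneg _
      rw [ind_pos e2]; nlinarith
    by_cases e3 : β / 2 ≤ (nb d m X : ℝ)
    · have : (0:ℝ) ≤ noncol R X := Nat.cast_nonneg _
      rw [ind_pos e3]; nlinarith
    rw [ind_neg e1, ind_neg e2, ind_neg e3]
    have hlt : nb d m X < R.nul X := by
      have : (nb d m X : ℝ) < R.nul X := by linarith [not_le.1 e1, not_le.1 e3]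
      exact_mod_cast this
    have : ∃ C ⊆ X, R.Cyc C ∧ ¬ HasBd d C := by
      by_contra hno
      have := nul_le_nb R m X hX (fun C hC hc => by
        by_contra hb
        exact hno ⟨C, hC, hc, hb⟩)
      omega
    obtain ⟨C, hC, hc, hb⟩ := this
    have h1 := bad_card R m ρ X C hX e2 hC hc hb
    have h2 : (C.card : ℝ) ≤ noncol R X := by exact_mod_cast card_le_noncol R X C hC hc
    linarith
  rw [Ex_mul, Ex_sub, Ex_const, Ex_add, Ex_add, Ex_noncol] at key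
  have hpos : 0 < ρ * (m:ℝ) ^ d := by positivity
  have h1 : ρ * (m:ℝ) ^ d / 2 ≤ q * Tm R m q := by nlinarith
  have hT0 := Tm_nonneg R m q hq0.le hq1
  have h2 : q * Tm R m q ≤ (((d:ℝ) + 3) / m) * Tm R m q := mul_le_mul_of_nonneg_right hq hT0
  have h3 : ρ * (m:ℝ) ^ d / 2 ≤ (((d:ℝ) + 3) / m) * Tm R m q := h1.trans h2
  rw [div_mul_eq_mul_div, le_div_iff₀ hm0] at h3
  rw [div_mul_eq_mul_div, div_le_iff₀ (by positivity), pow_succ]
  nlinarith

theorem h63e_an_low (e0 : ℝ) (he0 : 0 < e0) (hd : 1 ≤ d) (hg : GiantProp d ((d : ℝ) + 3)) (R : CRank d) :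
    ∃ c > (0:ℝ), ∃ m0 : ℕ, ∀ m ≥ m0, beta R m (c / m) ≤ (m : ℝ) ^ ((d : ℝ) / 2 + e0) := by
  obtain ⟨ρ, hρ, K, hK, n0, hgi⟩ := hg
  obtain ⟨m1, hm1⟩ := h63e_nul_tail e0 he0 R
  set D : ℝ := (d:ℝ) + 3 with hD
  have hd3 : (0:ℝ) < D := by positivity
  -- thinning parameter
  set L : ℝ := (8 * D + 3) * 4 / ρ with hL
  have hLpos : 0 < L := by positivity
  set p : ℝ := Real.exp (-L) with hp
  have hp0 : 0 < p := Real.exp_pos _
  have hp1 : p ≤ 1 := by rw [hp]; exact Real.exp_le_one_iff.2 (by linarith)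
  have hlim : Filter.Tendsto (fun m : ℕ => (m : ℝ)) Filter.atTop Filter.atTop :=
    tendsto_natCast_atTop_atTop
  have hlim2 : Filter.Tendsto (fun m : ℕ => (m : ℝ) ^ ((d : ℝ) / 2 + e0)) Filter.atTop
      Filter.atTop := (tendsto_rpow_atTop (by positivity)).comp hlim
  obtain ⟨m2, hm2⟩ := (hlim.eventually_ge_atTop (8 * K)).exists_forall_of_atTop
  obtain ⟨m3, hm3⟩ := (hlim2.eventually_ge_atTop (16 * D ^ (d + 2))).exists_forall_of_atTop
  obtain ⟨m4, hm4⟩ := (hlim.eventually_ge_atTop (4 / ρ)).exists_forall_of_atTop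
  refine ⟨D * p, by positivity, max (max m1 n0) (max (max m2 m3) (max m4 (d + 3))), fun m hm => ?_⟩
  have bm1 : m1 ≤ m := (le_max_left _ _).trans ((le_max_left _ _).trans hm)
  have bn0 : n0 ≤ m := (le_max_right _ _).trans ((le_max_left _ _).trans hm)
  have b3 := hm2 m ((le_max_left _ _).trans ((le_max_left _ _).trans
    ((le_max_right _ _).trans hm)))
  have b4 := hm3 m ((le_max_right _ _).trans ((le_max_left _ _).trans
    ((le_max_right _ _).trans hm)))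
  have b5 := hm4 m ((le_max_left _ _).trans ((le_max_right _ _).trans
    ((le_max_right _ _).trans hm)))
  have hmd : d + 3 ≤ m := (le_max_right _ _).trans ((le_max_right _ _).trans
    ((le_max_right _ _).trans hm))
  have hm0 : (0:ℝ) < m := by exact_mod_cast (by omega : 0 < m)
  have hm1' : (1:ℝ) ≤ m := by exact_mod_cast (by omega : 1 ≤ m)
  by_contra hcon
  have hβ := (not_le.1 hcon).le
  set Q : ℝ := D / m with hQ
  have hQ0 : 0 ≤ Q := by positivity
  have hQ1 : Q ≤ 1 := by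
    rw [hQ, div_le_one hm0, hD]; exact_mod_cast hmd
  have hqQ : D * p / m = Q * p := by rw [hQ]; ring
  set q : ℝ := D * p / m with hq
  have hq0 : 0 ≤ q := by positivity
  have hqle : q ≤ Q := by rw [hqQ]; nlinarith
  have hq1 : q ≤ 1 := hqle.trans hQ1
  have c1 := hm1 m bm1 q hq0 hqle hβ
  set β := beta R m q with hβdef
  have hβ0 : 0 < β := lt_of_lt_of_le (by positivity) hβ
  set Bad : Finset (Finset ℕ) → Prop := fun C => R.Cyc C ∧ ¬ HasBd d C with hBad
  -- no bad sets at q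
  have c2 : Ex (fc d m) q (fun X => ind (∃ C ⊆ X, Bad C)) ≤ 3 / 8 := by
    rw [hqQ, ← Ex_thin]
    have hsm : Ex (fc d m) Q (fun X => ind (SmallCore d m ρ X)) ≤ 1 / 8 := by
      refine (show _ ≤ K / m from hgi m bn0 Q hQ0 le_rfl).trans ?_
      rw [div_le_iff₀ hm0]; linarith
    have hcard : Ex (fc d m) Q (fun X => ind (8 * D * (m:ℝ) ^ d ≤ (X.card : ℝ))) ≤ 1 / 8 := by
      refine (Ex_markov (fc d m) Q hQ0 hQ1 (fun X => (X.card : ℝ)) (fun _ _ => by positivity)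
        (8 * D * (m:ℝ) ^ d) (by positivity)).trans ?_
      rw [Ex_card, card_fc, div_le_iff₀ (by positivity)]
      have h1 : (m.choose (d + 1) : ℝ) ≤ (m : ℝ) ^ (d + 1) := by
        exact_mod_cast Nat.choose_le_pow m (d + 1)
      calc Q * (m.choose (d + 1) : ℝ) ≤ Q * (m : ℝ) ^ (d + 1) :=
            mul_le_mul_of_nonneg_left h1 hQ0
        _ = D * (m:ℝ) ^ d := by rw [hQ, pow_succ]; field_simp
        _ = _ := by ring
    have hpt : ∀ Y ⊆ fc d m, Ex Y p (fun X => ind (∃ C ⊆ X, Bad C)) ≤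
        ind (SmallCore d m ρ Y) + ind (8 * D * (m:ℝ) ^ d ≤ (Y.card : ℝ)) + 1 / 8 := by
      intro Y hY
      have hle1 : Ex Y p (fun X => ind (∃ C ⊆ X, Bad C)) ≤ 1 :=
        Ex_le_const Y p hp0.le hp1 _ 1 fun _ _ => ind_le_one _
      by_cases e1 : SmallCore d m ρ Y
      · rw [ind_pos e1]; linarith [ind_nonneg (8 * D * (m:ℝ) ^ d ≤ (Y.card : ℝ))]
      by_cases e2 : 8 * D * (m:ℝ) ^ d ≤ (Y.card : ℝ)
      · rw [ind_pos e2]; linarith [ind_nonneg (SmallCore d m ρ Y)]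
      rw [ind_neg e1, ind_neg e2]
      set g : ℕ := ⌊ρ * (m:ℝ) ^ d / 2⌋₊ with hg'
      have hg1 : (g : ℝ) ≤ ρ * (m:ℝ) ^ d / 2 := Nat.floor_le (by positivity)
      have hg2 : ρ * (m:ℝ) ^ d / 2 < g + 1 := Nat.lt_floor_add_one _
      have ht := thin R.toRankFn Y g Bad (fun C hC hb => by
        refine ⟨?_, hb.1.2⟩
        have h1 := bad_card R m ρ Y C hY e1 hC hb.1 hb.2
        have : ((2 * g : ℕ) : ℝ) ≤ (C.card : ℝ) := by push_cast; linarith
        exact_mod_cast this) p hp0.le hp1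
      refine ht.trans ?_
      have hn1 : (R.nul Y : ℝ) ≤ 8 * D * (m:ℝ) ^ d := by
        have h1 := R.nul_add Y
        have : (R.nul Y : ℝ) ≤ Y.card := by exact_mod_cast (by omega : R.nul Y ≤ Y.card)
        linarith [not_le.1 e2]
      have h2 : ((2:ℝ) ^ (R.nul Y)) ≤ Real.exp (R.nul Y) := by
        have h3 : (2:ℝ) ≤ Real.exp 1 := by linarith [Real.exp_one_gt_d9]
        calc (2:ℝ) ^ (R.nul Y) ≤ Real.exp 1 ^ (R.nul Y) := pow_le_pow_left₀ (by norm_num) h3 _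
          _ = Real.exp (R.nul Y) := by rw [← Real.exp_nat_mul, mul_one]
      have h3 : p ^ g = Real.exp (-(L * g)) := by
        rw [hp, ← Real.exp_nat_mul]; congr 1; ring
      rw [h3]
      have hmd1 : (m:ℝ) ≤ (m:ℝ) ^ d := by
        calc (m:ℝ) = (m:ℝ) ^ 1 := (pow_one _).symm
          _ ≤ (m:ℝ) ^ d := pow_le_pow_right₀ hm1' hd
      have h4 : 4 ≤ ρ * (m:ℝ) ^ d := by
        have h5 : 4 ≤ m * ρ := (div_le_iff₀ hρ).1 b5
        nlinarith
      have h5 : (8 * D + 3) * (m:ℝ) ^ d ≤ L * g := by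
        have h6 : ρ * (m:ℝ) ^ d / 4 ≤ g := by linarith
        calc (8 * D + 3) * (m:ℝ) ^ d = L * (ρ * (m:ℝ) ^ d / 4) := by rw [hL]; field_simp
          _ ≤ L * g := mul_le_mul_of_nonneg_left h6 hLpos.le
      calc (2:ℝ) ^ (R.nul Y) * Real.exp (-(L * g)) ≤ Real.exp (R.nul Y) * Real.exp (-(L * g)) :=
            mul_le_mul_of_nonneg_right h2 (Real.exp_pos _).le
        _ = Real.exp (R.nul Y - L * g) := by rw [← Real.exp_add]; congr 1
        _ ≤ Real.exp (-3) := by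
            apply Real.exp_le_exp.2
            nlinarith
        _ ≤ 1 / 8 := by
          have h3 : (8:ℝ) ≤ Real.exp 3 := by
            have := Real.exp_one_gt_d9
            have h4 : Real.exp 3 = Real.exp 1 ^ 3 := by rw [← Real.exp_nat_mul]; norm_num
            rw [h4]
            have h5 : (2:ℝ) ^ 3 ≤ Real.exp 1 ^ 3 := pow_le_pow_left₀ (by norm_num) (by linarith) 3
            linarith
          rw [Real.exp_neg, one_div]
          exact inv_anti₀ (by norm_num) h3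
        _ ≤ 0 + 0 + 1 / 8 := by norm_num
    have h1 := Ex_mono (fc d m) Q hQ0 hQ1 _ _ hpt
    rw [Ex_add, Ex_add, Ex_const] at h1
    linarith
  have c3 : Ex (fc d m) q (fun X => ind (β / 2 ≤ (nb d m X : ℝ))) ≤ 1 / 8 := by
    refine (Ex_markov (fc d m) q hq0 hq1 (fun X => (nb d m X : ℝ)) (fun _ _ => by positivity)
      (β / 2) (by positivity)).trans ?_
    have h1 := Ex_nb_le (d := d) m (by omega) D q hq0 hd3.le hqle
    rw [div_le_iff₀ (by positivity)]
    have : 16 * D ^ (d + 2) ≤ β := b4.trans hβ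
    linarith
  have key : Ex (fc d m) q (fun _ => 1) ≤ Ex (fc d m) q (fun X => ind ((R.nul X : ℝ) ≤ β / 2) +
      ind (∃ C ⊆ X, Bad C) + ind (β / 2 ≤ (nb d m X : ℝ))) := by
    refine Ex_mono _ _ hq0 hq1 _ _ fun X hX => ?_
    have i1 := ind_nonneg ((R.nul X : ℝ) ≤ β / 2)
    have i2 := ind_nonneg (∃ C ⊆ X, Bad C)
    have i3 := ind_nonneg (β / 2 ≤ (nb d m X : ℝ))
    by_cases e2 : ∃ C ⊆ X, Bad C
    · rw [ind_pos e2]; linarith
    by_cases e3 : β / 2 ≤ (nb d m X : ℝ)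
    · rw [ind_pos e3]; linarith
    have h1 := nul_le_nb R m X hX (fun C hC hc => by
      by_contra hb
      exact e2 ⟨C, hC, hc, hb⟩)
    have h2 : (R.nul X : ℝ) ≤ nb d m X := by exact_mod_cast h1
    rw [ind_pos (show (R.nul X : ℝ) ≤ β / 2 by linarith [not_le.1 e3])]
    linarith
  rw [Ex_const, Ex_add, Ex_add] at key
  have c1' : Ex (fc d m) q (fun X => ind ((R.nul X : ℝ) ≤ β / 2)) ≤ 1 / 8 := c1
  linarith

end FC
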