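import Pool.Agent.H92.FC.FF2
import Pool.Agent.H92.FC.AnA

set_option autoImplicit false
open Finset Set

/-! The macroscopic gap with general exponents. -/

namespace FC

section
variable {d : ℕ} {β T : ℕ → ℝ → ℝ} {m0 : ℕ} {s c e0 θ : ℝ} {m : ℕ}

theorem h63_K.R2e {j M1 : ℕ} {γ : ℝ} (K : h63_K d s c j M1 γ) (h : ANe d β T m0 s c e0)
    (k : ℕ) (hk : 1 ≤ k) (hjk : j * k ≤ m) (g : h63e_G d β m0 c e0 θ m)
    (g1 : h63e_G d β m0 c e0 θ (m - k)) (g2 : h63e_G d β m0 c e0 θ (m - 2 * k)) :
    γ * (h63_q β θ (m - 2 * k) - h63_q β θ (m - k)) ≤ h63_q β θ (m - k) - h63_q β θ m := by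
  refine le_trans (mul_le_mul_of_nonneg_right K.gs ?_) (h63e_R2 h j K.hj K.hj2 k hk hjk g g1 g2)
  exact sub_nonneg.2 (h.h63e_anti θ (by omega))

theorem h63e_macro {j M1 : ℕ} {γ : ℝ} (K : h63_K d s c j M1 γ) (h : ANe d β T m0 s c e0)
    (k I0 : ℕ) (hk : 1 ≤ k) (hjk : M1 * (j * k) ≤ m) (hI : m ≤ I0 * k)
    (hG : ∀ a, m ≤ 2 * M1 * a → a ≤ m → h63e_G d β m0 c e0 θ a) :
    γ ^ I0 / (I0 * m) ≤ h63_q β θ (m - k) - h63_q β θ m := by
  classical
  have hM2 := K.hM2
  have hj2 := K.hj2
  have hmpos : 0 < m := by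
    have : 0 < M1 * (j * k) := by positivity
    omega
  have hex : ∃ i, M1 * (m - i * k) ≤ m := ⟨I0, by
    rw [Nat.sub_eq_zero_of_le hI]; omega⟩
  set I := Nat.find hex with hIdef
  have hI1 : M1 * (m - I * k) ≤ m := Nat.find_spec hex
  have hI2 : ∀ i < I, m < M1 * (m - i * k) := fun i hi => not_le.1 (Nat.find_min hex hi)
  have hII0 : I ≤ I0 := Nat.find_min' hex (by rw [Nat.sub_eq_zero_of_le hI]; omega)
  have hIpos : 0 < I := by
    by_contra hc
    have h0 : I = 0 := by omega
    rw [h0] at hI1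
    simp only [Nat.zero_mul, Nat.sub_zero] at hI1
    nlinarith
  -- the points stay large
  have hjkl : ∀ i < I, j * k ≤ m - i * k := by
    intro i hi
    have := hI2 i hi
    by_contra hc
    push Not at hc
    have : M1 * (m - i * k) ≤ M1 * (j * k) := Nat.mul_le_mul_left _ hc.le
    omega
  have hkj : 2 * k ≤ j * k := Nat.mul_le_mul_right k hj2
  have hGi : ∀ i ≤ I, h63e_G d β m0 c e0 θ (m - i * k) := by
    intro i hi
    apply hG
    · rcases hi.lt_or_eq with h1 | h1
      · have h2 := hI2 i h1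
        have e : 2 * M1 * (m - i * k) = 2 * (M1 * (m - i * k)) := by ring
        omega
      · obtain ⟨i', rfl⟩ : ∃ i', i = i' + 1 := ⟨i - 1, by omega⟩
        have h2 := hI2 i' (by omega)
        have h3 := hjkl i' (by omega)
        have e : m - (i' + 1) * k = (m - i' * k) - k := by
          rw [Nat.add_mul, one_mul, Nat.sub_sub]
        rw [e, Nat.mul_sub]
        have h4 : 2 * M1 * k ≤ m := by
          calc 2 * M1 * k = M1 * (2 * k) := by ring
            _ ≤ M1 * (j * k) := Nat.mul_le_mul_left _ hkj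
            _ ≤ m := hjk
        have h5 : 2 * m ≤ 2 * M1 * (m - i' * k) := by
          have : 2 * M1 * (m - i' * k) = 2 * (M1 * (m - i' * k)) := by ring
          omega
        omega
    · omega
  have hanti : ∀ {a b : ℕ}, a ≤ b → h63_q β θ b ≤ h63_q β θ a := fun hab => h.h63e_anti θ hab
  set D := h63_q β θ (m - k) - h63_q β θ m with hD
  have hDnn : 0 ≤ D := sub_nonneg.2 (hanti (by omega))
  have hγ := K.gpos
  -- claim A
  have hA : ∀ i, i < I → γ ^ i * (h63_q β θ (m - (i + 1) * k) - h63_q β θ (m - i * k)) ≤ D := by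
    intro i
    induction i with
    | zero => intro _; simp [hD]
    | succ i ih =>
      intro hi
      have h1 := ih (by omega)
      have h2 := K.R2e (m := m - i * k) h k hk (hjkl i (by omega)) (hGi i (by omega))
        (by
          have e : m - i * k - k = m - (i + 1) * k := by rw [Nat.add_mul, one_mul, Nat.sub_sub]
          rw [e]; exact hGi (i + 1) (by omega))
        (by
          have e : m - i * k - 2 * k = m - (i + 2) * k := by rw [Nat.add_mul, Nat.sub_sub]
          rw [e]; exact hGi (i + 2) (by omega))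
      have e1 : m - i * k - k = m - (i + 1) * k := by rw [Nat.add_mul, one_mul, Nat.sub_sub]
      have e2 : m - i * k - 2 * k = m - (i + 1 + 1) * k := by
        rw [show i + 1 + 1 = i + 2 by ring, Nat.add_mul, Nat.sub_sub]
      rw [e1, e2] at h2
      calc γ ^ (i + 1) * (h63_q β θ (m - (i + 1 + 1) * k) - h63_q β θ (m - (i + 1) * k)) =
            γ ^ i * (γ * (h63_q β θ (m - (i + 1 + 1) * k) - h63_q β θ (m - (i + 1) * k))) := by ring
        _ ≤ γ ^ i * (h63_q β θ (m - (i + 1) * k) - h63_q β θ (m - i * k)) :=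
            mul_le_mul_of_nonneg_left h2 (by positivity)
        _ ≤ D := h1
  have hB : ∀ i, i ≤ I → γ ^ I0 * (h63_q β θ (m - i * k) - h63_q β θ m) ≤ i * D := by
    intro i
    induction i with
    | zero => intro _; simp
    | succ i ih =>
      intro hi
      have h1 := ih (by omega)
      have h2 := hA i (by omega)
      have h3 : γ ^ I0 ≤ γ ^ i := pow_le_pow_of_le_one hγ.le K.g1 (by omega)
      have h4 : 0 ≤ h63_q β θ (m - (i + 1) * k) - h63_q β θ (m - i * k) := by
        apply sub_nonneg.2 (hanti _)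
        have : i * k ≤ (i + 1) * k := Nat.mul_le_mul_right k (by omega)
        omega
      have h5 := mul_le_mul_of_nonneg_right h3 h4
      push_cast
      linarith
  have h1 := hB I le_rfl
  -- the total drop
  have hGI := hGi I le_rfl
  have h2 := hGI.qge h
  have h3 := (hG m (Nat.le_mul_of_pos_left _ (by omega)) le_rfl).qle
  have hmR : (0 : ℝ) < m := by exact_mod_cast hmpos
  have h4 : (1 : ℝ) / m ≤ h63_q β θ (m - I * k) - h63_q β θ m := by
    have h5 : c * M1 / m ≤ c / ((m - I * k : ℕ) : ℝ) := by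
      rw [div_le_div_iff₀ hmR hGI.mpos]
      have h6 : ((M1 * (m - I * k) : ℕ) : ℝ) ≤ m := by exact_mod_cast hI1
      push_cast only [Nat.cast_mul] at h6
      have := mul_le_mul_of_nonneg_left h6 h.cpos.le
      linarith
    have h7 : ((d : ℝ) + 3) / m ≤ c * M1 / m := div_le_div_of_nonneg_right K.hM1 hmR.le
    have h8 : ((d : ℝ) + 3) / m = ((d : ℝ) + 2) / m + 1 / m := by ring
    linarith
  have hI0pos : (0 : ℝ) < I0 := by
    have : 0 < I0 := by omega
    exact_mod_cast this
  rw [div_le_iff₀ (by positivity)]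
  have h9 : γ ^ I0 * (1 / m) ≤ I * D := (mul_le_mul_of_nonneg_left h4 (by positivity)).trans h1
  have h10 : (I : ℝ) * D ≤ I0 * D := mul_le_mul_of_nonneg_right (by exact_mod_cast hII0) hDnn
  have h11 : γ ^ I0 = (γ ^ I0 * (1 / m)) * m := by field_simp
  rw [h11]
  calc _ ≤ (I0 * D) * m := mul_le_mul_of_nonneg_right (h9.trans h10) hmR.le
    _ = _ := by ring

end


end FC
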