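import Pool.Agent.H92.FC.ANof2
import Pool.Agent.H92.FC.Proc

/-!
# Definitions for the pathwise argument
-/

namespace FC

open Finset

/-- Expectation over nested pairs: `Y` is Bernoulli(`q`) on `G`, `X` is Bernoulli(`p`) on `Y`. -/
noncomputable def Ex2 {α : Type*} [DecidableEq α] (G : Finset α) (q p : ℝ)
    (f : Finset α → Finset α → ℝ) : ℝ :=
  Ex G q (fun Y => Ex Y p (fun X => f X Y))

variable {d : ℕ}

/-- Invariance of the rank under exchanging two consecutive vertices. -/
def SwapInv (R : CRank d) : Prop :=
  ∀ (a : ℕ) (S : Finset (Finset ℕ)),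
    R.r (S.image (fun σ => σ.image (Equiv.swap a (a + 1)))) = R.r S

/-- `X` contains a cyclic set on the vertex set `V` without simplex boundaries. -/
def BadIn (R : CRank d) (V : Finset ℕ) (X : Finset (Finset ℕ)) : Prop :=
  ∃ C ⊆ X ∩ faces d V, R.Cyc C ∧ ¬ HasBd d C

open Classical in
/-- The faces on `V` in the closure of the part of `X` on `V`. -/
noncomputable def clset (R : CRank d) (V : Finset ℕ) (X : Finset (Finset ℕ)) :
    Finset (Finset ℕ) :=
  (faces d V).filter (fun σ => R.r (insert σ (X ∩ faces d V)) = R.r (X ∩ faces d V))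

end FC
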