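import Pool.Agent.H92.FC.Defs2

/-!
# First emerging cycle: exploration lists of minimal cores and their old steps
-/

namespace FC

open Finset

theorem h22_erase_of_subset {d : ℕ} {f σ : Finset ℕ} (hf : f.card = d) (hσ : σ.card = d + 1)
    (h : f ⊆ σ) : ∃ x ∈ σ, f = σ.erase x := by
  have hne : (σ \ f).card = 1 := by
    rw [card_sdiff_of_subset h]
    omega
  obtain ⟨x, hx⟩ := card_eq_one.mp hne
  have hxσ : x ∈ σ \ f := by
    rw [hx]
    exact mem_singleton_self x
  refine ⟨x, (mem_sdiff.mp hxσ).1, ?_⟩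
  have h1 : f ⊆ σ.erase x := fun y hy =>
    mem_erase.mpr ⟨fun e => (mem_sdiff.mp hxσ).2 (e ▸ hy), h hy⟩
  refine eq_of_subset_of_card_le h1 ?_
  rw [card_erase_of_mem (mem_sdiff.mp hxσ).1]
  omega

theorem h22_insert_of_subset {d : ℕ} {f σ : Finset ℕ} (hf : f.card = d) (hσ : σ.card = d + 1)
    (h : f ⊆ σ) : ∃ x, x ∉ f ∧ σ = insert x f := by
  obtain ⟨x, hx, e⟩ := h22_erase_of_subset hf hσ h
  refine ⟨x, ?_, ?_⟩
  · rw [e]
    exact notMem_erase x σ
  · rw [e, insert_erase hx]

theorem h22_card {d n : ℕ} {σ : Finset ℕ} (h : σ ∈ fc d n) : σ.card = d + 1 :=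
  (mem_powersetCard.mp h).2

theorem h22_opn_spec {d : ℕ} {T : Finset (Finset ℕ)} (h : ∃ f, Open1 d T f) :
    Open1 d T (opn d T) := by
  unfold opn
  rw [dif_pos h]
  exact h.choose_spec

theorem exists_minCore (S : Finset (Finset ℕ)) (h : S.Nonempty) (hc : Core S) :
    ∃ T ⊆ S, MinCore T := by
  classical
  have hne : (S.powerset.filter (fun T => T.Nonempty ∧ Core T)).Nonempty :=
    ⟨S, mem_filter.mpr ⟨mem_powerset.mpr (Subset.refl S), h, hc⟩⟩
  obtain ⟨T, hT, hmin⟩ := exists_min_image _ card hne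
  obtain ⟨hTS, hTn, hTc⟩ := mem_filter.mp hT
  refine ⟨T, mem_powerset.mp hTS, hTn, hTc, fun U hU hUn hUc => ?_⟩
  exact eq_of_subset_of_card_le hU (hmin U (mem_filter.mpr
    ⟨mem_powerset.mpr (hU.trans (mem_powerset.mp hTS)), hUn, hUc⟩))

theorem exists_exp (d n : ℕ) (S : Finset (Finset ℕ)) (hS : S ⊆ fc d n) (h : MinCore S) :
    ∃ l, Exp d n l ∧ l.toFinset = S ∧ l.length = S.card := by
  obtain ⟨hne, hc, hmin⟩ := h
  have key : ∀ k : ℕ, k + 1 ≤ S.card → ∃ l : List (Finset ℕ), Exp d n l ∧ l.toFinset ⊆ S ∧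
      l.Nodup ∧ l.length = k + 1 := by
    intro k
    induction k with
    | zero =>
      intro _
      obtain ⟨σ, hσ⟩ := hne
      exact ⟨[σ], hS hσ, by simpa using hσ, List.nodup_singleton σ, rfl⟩
    | succ k ih =>
      intro hk
      obtain ⟨l, hl, hlS, hnd, hlen⟩ := ih (by omega)
      have hcard : l.toFinset.card = k + 1 := by
        rw [List.toFinset_card_of_nodup hnd, hlen]
      have hTne : l.toFinset.Nonempty := by
        rw [← card_pos]
        omega
      have hnc : ¬ Core l.toFinset := by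
        intro hcore
        have := hmin l.toFinset hlS hTne hcore
        rw [this] at hcard
        omega
      have hop : ∃ f, Open1 d l.toFinset f := by
        unfold Core at hnc
        push Not at hnc
        obtain ⟨σ, hσ, x, hx, hno⟩ := hnc
        refine ⟨σ.erase x, ?_, ?_⟩
        · rw [card_erase_of_mem hx, h22_card (hS (hlS hσ))]
          rfl
        · rw [card_eq_one]
          refine ⟨σ, ?_⟩
          ext τ
          simp only [mem_filter, mem_singleton]
          constructor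
          · rintro ⟨hτ, hs⟩
            by_contra hne'
            exact hno τ hτ hne' hs
          · rintro rfl
            exact ⟨hσ, erase_subset _ _⟩
      obtain ⟨hfc, hf1⟩ := h22_opn_spec hop
      obtain ⟨σ, hσ⟩ := card_eq_one.mp hf1
      have hσm : σ ∈ l.toFinset ∧ opn d l.toFinset ⊆ σ := by
        have : σ ∈ l.toFinset.filter (fun τ => opn d l.toFinset ⊆ τ) := by
          rw [hσ]
          exact mem_singleton_self σ
        exact mem_filter.mp this
      obtain ⟨x, hx, e⟩ := h22_erase_of_subset hfc (h22_card (hS (hlS hσm.1))) hσm.2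
      obtain ⟨τ, hτS, hτne, hτs⟩ := hc σ (hlS hσm.1) x hx
      have hτl : τ ∉ l := by
        intro hτl
        have : τ ∈ l.toFinset.filter (fun τ => opn d l.toFinset ⊆ τ) :=
          mem_filter.mpr ⟨List.mem_toFinset.mpr hτl, by rw [e]; exact hτs⟩
        rw [hσ] at this
        exact hτne (mem_singleton.mp this)
      refine ⟨τ :: l, ?_, ?_, ?_, ?_⟩
      · cases l with
        | nil => exact absurd hlen (by simp)
        | cons a t => exact ⟨hl, ⟨hfc, hf1⟩, hτl, hS hτS, by rw [e]; exact hτs⟩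
      · rw [List.toFinset_cons]
        exact insert_subset hτS hlS
      · exact List.nodup_cons.mpr ⟨hτl, hnd⟩
      · simp [hlen]
  have hpos := card_pos.mpr hne
  obtain ⟨l, hl, hlS, hnd, hlen⟩ := key (S.card - 1) (by omega)
  refine ⟨l, hl, ?_, by omega⟩
  refine eq_of_subset_of_card_le hlS ?_
  rw [List.toFinset_card_of_nodup hnd]
  omega

/-! ### Cores without a full boundary have more faces than vertices -/

theorem h22_core_card {d n : ℕ} (hd : 2 ≤ d) {S : Finset (Finset ℕ)} (hS : S ⊆ fc d n)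
    (hne : S.Nonempty) (hc : Core S) (hb : ¬ HasBd d S) :
    (S.biUnion id).card + 1 ≤ S.card := by
  classical
  have hz : ∀ σ ∈ S, ∀ y ∈ σ, ∃ z, z ∉ σ ∧ insert z (σ.erase y) ∈ S := by
    intro σ hσ y hy
    obtain ⟨τ, hτ, hne', hs⟩ := hc σ hσ y hy
    obtain ⟨z, hz, e⟩ := h22_insert_of_subset (d := d)
      (by rw [card_erase_of_mem hy, h22_card (hS hσ)]; rfl) (h22_card (hS hτ)) hs
    refine ⟨z, ?_, e ▸ hτ⟩
    intro hzσ
    have h1 : z = y := by
      by_contra h
      exact hz (mem_erase.mpr ⟨h, hzσ⟩)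
    apply hne'
    rw [e, h1, insert_erase hy]
  choose! z hz1 hz2 using hz
  have hinj : ∀ σ ∈ S, Set.InjOn (fun y => insert (z σ y) (σ.erase y)) (σ : Set ℕ) := by
    intro σ hσ a ha b hb' hab
    by_contra hne'
    have h1 : a ∈ insert (z σ b) (σ.erase b) := mem_insert_of_mem (mem_erase.mpr ⟨hne', ha⟩)
    have h2 : insert (z σ a) (σ.erase a) = insert (z σ b) (σ.erase b) := hab
    rw [← h2] at h1
    rcases mem_insert.mp h1 with h | h
    · exact hz1 σ hσ a ha (h ▸ ha)
    · exact notMem_erase a σ h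
  have hFsub : ∀ σ ∈ S, ∀ x ∈ σ,
      insert σ ((σ.erase x).image (fun y => insert (z σ y) (σ.erase y))) ⊆
        S.filter (fun τ => x ∈ τ) := by
    intro σ hσ x hx τ hτ
    rcases mem_insert.mp hτ with rfl | hτ
    · exact mem_filter.mpr ⟨hσ, hx⟩
    · obtain ⟨y, hy, rfl⟩ := mem_image.mp hτ
      obtain ⟨hyx, hyσ⟩ := mem_erase.mp hy
      exact mem_filter.mpr ⟨hz2 σ hσ y hyσ,
        mem_insert_of_mem (mem_erase.mpr ⟨fun e => hyx e.symm, hx⟩)⟩
  have hFcard : ∀ σ ∈ S, ∀ x ∈ σ,
      (insert σ ((σ.erase x).image (fun y => insert (z σ y) (σ.erase y)))).card = d + 1 := by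
    intro σ hσ x hx
    rw [card_insert_of_notMem, card_image_of_injOn, card_erase_of_mem hx, h22_card (hS hσ)]
    · rfl
    · exact (hinj σ hσ).mono (by intro y hy; exact (mem_erase.mp hy).2)
    · intro h
      obtain ⟨y, hy, e⟩ := mem_image.mp h
      have hyσ := (mem_erase.mp hy).2
      have h3 : insert (z σ y) (σ.erase y) = σ := e
      exact hz1 σ hσ y hyσ (h3.subset (mem_insert_self _ _))
  by_contra hlt
  have hlt' : S.card ≤ (S.biUnion id).card := by omega
  have hdc : ∑ x ∈ S.biUnion id, (S.filter (fun τ => x ∈ τ)).card = ∑ σ ∈ S, σ.card := by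
    have h := sum_card_bipartiteAbove_eq_sum_card_bipartiteBelow (s := S.biUnion id) (t := S)
      (fun (x : ℕ) (σ : Finset ℕ) => x ∈ σ)
    rw [show (∑ x ∈ S.biUnion id, (S.filter (fun τ => x ∈ τ)).card) =
      ∑ a ∈ S.biUnion id, (bipartiteAbove (fun (x : ℕ) (σ : Finset ℕ) => x ∈ σ) S a).card from rfl,
      h]
    refine sum_congr rfl fun σ hσ => ?_
    congr 1
    ext x
    rw [mem_bipartiteBelow]
    exact ⟨fun hx => hx.2, fun hx => ⟨mem_biUnion.mpr ⟨σ, hσ, hx⟩, hx⟩⟩
  have hle : ∀ x ∈ S.biUnion id, d + 1 ≤ (S.filter (fun τ => x ∈ τ)).card := by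
    intro x hx
    obtain ⟨σ, hσ, hxσ⟩ := mem_biUnion.mp hx
    rw [← hFcard σ hσ x hxσ]
    exact card_le_card (hFsub σ hσ x hxσ)
  have hsum : ∑ x ∈ S.biUnion id, (d + 1) =
      ∑ x ∈ S.biUnion id, (S.filter (fun τ => x ∈ τ)).card := by
    refine le_antisymm (sum_le_sum hle) ?_
    rw [hdc, sum_const_nat (m := d + 1) (fun σ hσ => h22_card (hS hσ)), sum_const, smul_eq_mul]
    exact Nat.mul_le_mul_right _ hlt'
  have hdeg : ∀ x ∈ S.biUnion id, d + 1 = (S.filter (fun τ => x ∈ τ)).card :=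
    (sum_eq_sum_iff_of_le hle).mp hsum
  obtain ⟨σ, hσ⟩ := hne
  have hsc := h22_card (hS hσ)
  -- the faces at `x`
  have hall : ∀ x ∈ σ, ∀ τ ∈ S, x ∈ τ → τ ≠ σ → ∃ y ∈ σ, τ = insert (z σ y) (σ.erase y) := by
    intro x hx τ hτ hxτ hne'
    have heq : insert σ ((σ.erase x).image (fun y => insert (z σ y) (σ.erase y))) =
        S.filter (fun τ => x ∈ τ) := by
      refine eq_of_subset_of_card_le (hFsub σ hσ x hx) ?_
      rw [hFcard σ hσ x hx, hdeg x (mem_biUnion.mpr ⟨σ, hσ, hx⟩)]
    have h1 : τ ∈ S.filter (fun τ => x ∈ τ) := mem_filter.mpr ⟨hτ, hxτ⟩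
    rw [← heq] at h1
    rcases mem_insert.mp h1 with h | h
    · exact absurd h hne'
    · obtain ⟨y, hy, e⟩ := mem_image.mp h
      exact ⟨y, (mem_erase.mp hy).2, e.symm⟩
  have hconst : ∀ x ∈ σ, ∀ y ∈ σ, ∀ y' ∈ σ, y ≠ x → y' ≠ x → y ≠ y' → z σ y = z σ y' := by
    intro x hx y hy y' hy' hyx hyx' hyy
    have hy'τ : y' ∈ insert (z σ y) (σ.erase y) :=
      mem_insert_of_mem (mem_erase.mpr ⟨fun e => hyy e.symm, hy'⟩)
    obtain ⟨τ, hτ, hne', hs⟩ := hc _ (hz2 σ hσ y hy) y' hy'τ
    have hxτ : x ∈ τ := hs (mem_erase.mpr ⟨fun e => hyx' e.symm,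
      mem_insert_of_mem (mem_erase.mpr ⟨fun e => hyx e.symm, hx⟩)⟩)
    have hzτ : z σ y ∈ τ := hs (mem_erase.mpr ⟨fun e => hz1 σ hσ y hy (e ▸ hy'),
      mem_insert_self _ _⟩)
    have hτσ : τ ≠ σ := fun e => hz1 σ hσ y hy (e ▸ hzτ)
    obtain ⟨u, hu, e⟩ := hall x hx τ hτ hxτ hτσ
    have huz : z σ y = z σ u := by
      rw [e] at hzτ
      rcases mem_insert.mp hzτ with h | h
      · exact h
      · exact absurd (mem_erase.mp h).2 (hz1 σ hσ y hy)
    have huy : u ≠ y := by
      intro h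
      rw [h] at e
      exact hne' e
    by_cases huy' : u = y'
    · rw [huz, huy']
    · exfalso
      have h1 : u ∈ τ := hs (mem_erase.mpr ⟨huy', mem_insert_of_mem (mem_erase.mpr ⟨huy, hu⟩)⟩)
      rw [e] at h1
      rcases mem_insert.mp h1 with h | h
      · exact hz1 σ hσ u hu (h ▸ hu)
      · exact notMem_erase u σ h
  have hconst2 : ∀ y ∈ σ, ∀ y' ∈ σ, z σ y = z σ y' := by
    intro y hy y' hy'
    by_cases hyy : y = y'
    · rw [hyy]
    · have h3 : ((σ.erase y).erase y').Nonempty := by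
        rw [← card_pos, card_erase_of_mem (mem_erase.mpr ⟨fun e => hyy e.symm, hy'⟩),
          card_erase_of_mem hy, hsc]
        omega
      obtain ⟨x, hx⟩ := h3
      obtain ⟨hxy', hx⟩ := mem_erase.mp hx
      obtain ⟨hxy, hx⟩ := mem_erase.mp hx
      exact hconst x hx y hy y' hy' (fun e => hxy e.symm) (fun e => hxy' e.symm) hyy
  have hσne : σ.Nonempty := by
    rw [← card_pos, hsc]
    omega
  obtain ⟨y0, hy0⟩ := hσne
  have hz0 : z σ y0 ∉ σ := hz1 σ hσ y0 hy0
  apply hb
  refine ⟨insert (z σ y0) σ, ?_, ?_⟩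
  · rw [card_insert_of_notMem hz0, hsc]
  · intro τ hτ
    obtain ⟨hτs, hτc⟩ := mem_powersetCard.mp hτ
    obtain ⟨w, hw, e⟩ := h22_erase_of_subset hτc
      (by rw [card_insert_of_notMem hz0, hsc] : (insert (z σ y0) σ).card = d + 1 + 1) hτs
    rcases mem_insert.mp hw with h | h
    · rw [e, h, erase_insert hz0]
      exact hσ
    · have hne2 : z σ y0 ≠ w := by
        intro e'
        rw [e'] at hz0
        exact hz0 h
      rw [e, erase_insert_of_ne hne2, hconst2 y0 hy0 w h]
      exact hz2 σ hσ w h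

/-! ### Open ridges along the exploration -/

/-- open ridges inside `{0, …, n-1}` -/
def h22O (d n : ℕ) (T : Finset (Finset ℕ)) : Finset (Finset ℕ) :=
  ((range n).powersetCard d).filter (fun f => (T.filter (fun τ => f ⊆ τ)).card = 1)

theorem h22_filter_insert {T : Finset (Finset ℕ)} {σ g : Finset ℕ} (h : ¬ g ⊆ σ) :
    (insert σ T).filter (fun τ => g ⊆ τ) = T.filter (fun τ => g ⊆ τ) := by
  rw [filter_insert, if_neg h]

theorem h22_O_old {d n : ℕ} {T : Finset (Finset ℕ)} {σ : Finset ℕ} (hσ : σ.card = d + 1) :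
    (h22O d n T).card ≤ (d + 1) + (h22O d n (insert σ T)).card := by
  have hsub : h22O d n T ⊆ σ.powersetCard d ∪ h22O d n (insert σ T) := by
    intro g hg
    obtain ⟨h1, h2⟩ := mem_filter.mp hg
    rw [mem_union]
    by_cases hgs : g ⊆ σ
    · left
      exact mem_powersetCard.mpr ⟨hgs, (mem_powersetCard.mp h1).2⟩
    · right
      refine mem_filter.mpr ⟨h1, ?_⟩
      rw [h22_filter_insert hgs]
      exact h2
  calc (h22O d n T).card ≤ (σ.powersetCard d ∪ h22O d n (insert σ T)).card := card_le_card hsub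
    _ ≤ (σ.powersetCard d).card + (h22O d n (insert σ T)).card := card_union_le _ _
    _ = (d + 1) + (h22O d n (insert σ T)).card := by
      rw [card_powersetCard, hσ, Nat.choose_succ_self_right]

theorem h22_mem_of_one {T : Finset (Finset ℕ)} {g : Finset ℕ}
    (h : (T.filter (fun τ => g ⊆ τ)).card = 1) : ∃ τ ∈ T, g ⊆ τ := by
  obtain ⟨τ, hτ⟩ := card_eq_one.mp h
  have h1 : τ ∈ T.filter (fun τ => g ⊆ τ) := by
    rw [hτ]
    exact mem_singleton_self τ
  exact ⟨τ, (mem_filter.mp h1).1, (mem_filter.mp h1).2⟩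

theorem h22_O_new {d n : ℕ} {T : Finset (Finset ℕ)} {f : Finset ℕ} {x : ℕ} (hf : f.card = d)
    (hx : x ∉ f) (hxn : insert x f ⊆ range n) (hxT : ∀ τ ∈ T, x ∉ τ) (hfO : f ∈ h22O d n T) :
    (h22O d n T).card + d ≤ (h22O d n (insert (insert x f) T)).card + 1 := by
  have hinj : Set.InjOn (fun y => (insert x f).erase y) (f : Set ℕ) := by
    intro a ha b hb hab
    by_contra hne
    have h1 : a ∈ (insert x f).erase b := mem_erase.mpr ⟨hne, mem_insert_of_mem ha⟩
    have h2 : (insert x f).erase a = (insert x f).erase b := hab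
    rw [← h2] at h1
    exact notMem_erase a _ h1
  have hsub : (h22O d n T).erase f ∪ f.image (fun y => (insert x f).erase y) ⊆
      h22O d n (insert (insert x f) T) := by
    intro g hg
    rcases mem_union.mp hg with hg | hg
    · obtain ⟨hgf, hgO⟩ := mem_erase.mp hg
      obtain ⟨h1, h2⟩ := mem_filter.mp hgO
      have hgs : ¬ g ⊆ insert x f := by
        intro hgs
        obtain ⟨τ, hτ, hgτ⟩ := h22_mem_of_one h2
        have hgf' : g ⊆ f := by
          intro y hy
          rcases mem_insert.mp (hgs hy) with h | h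
          · exact absurd (h ▸ hgτ hy) (hxT τ hτ)
          · exact h
        exact hgf (eq_of_subset_of_card_le hgf' (by rw [hf, (mem_powersetCard.mp h1).2]))
      exact mem_filter.mpr ⟨h1, by rw [h22_filter_insert hgs]; exact h2⟩
    · obtain ⟨y, hy, rfl⟩ := mem_image.mp hg
      refine mem_filter.mpr ⟨mem_powersetCard.mpr ⟨(erase_subset _ _).trans hxn, ?_⟩, ?_⟩
      · rw [card_erase_of_mem (mem_insert_of_mem hy), card_insert_of_notMem hx, hf]
        rfl
      · rw [card_eq_one]
        refine ⟨insert x f, ?_⟩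
        ext τ
        simp only [mem_filter, mem_singleton, mem_insert]
        constructor
        · rintro ⟨h | hτ, hs⟩
          · exact h
          · exfalso
            refine hxT τ hτ (hs (mem_erase.mpr ⟨?_, mem_insert_self _ _⟩))
            intro e
            exact hx (e ▸ hy)
        · intro h
          rw [h]
          exact ⟨Or.inl rfl, erase_subset _ _⟩
  have hdisj : Disjoint ((h22O d n T).erase f) (f.image (fun y => (insert x f).erase y)) := by
    rw [disjoint_left]
    intro g hg hg'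
    obtain ⟨y, hy, rfl⟩ := mem_image.mp hg'
    obtain ⟨-, hgO⟩ := mem_erase.mp hg
    obtain ⟨h1, h2⟩ := mem_filter.mp hgO
    obtain ⟨τ, hτ, hs⟩ := h22_mem_of_one h2
    refine hxT τ hτ (hs (mem_erase.mpr ⟨?_, mem_insert_self _ _⟩))
    intro e
    exact hx (e ▸ hy)
  have hcle := card_le_card hsub
  rw [card_union_of_disjoint hdisj, card_image_of_injOn hinj, card_erase_of_mem hfO, hf] at hcle
  have hpos : 0 < (h22O d n T).card := card_pos.mpr ⟨f, hfO⟩
  omega

theorem h22_exp_mem {d n : ℕ} : ∀ l : List (Finset ℕ), Exp d n l →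
    l.Nodup ∧ ∀ σ ∈ l, σ ∈ fc d n
  | [], h => h.elim
  | [σ], h => ⟨List.nodup_singleton σ, fun τ hτ => (List.mem_singleton.mp hτ) ▸ h⟩
  | σ :: τ :: t, h => by
    obtain ⟨h1, -, h3, h4, -⟩ := h
    obtain ⟨i1, i2⟩ := h22_exp_mem (τ :: t) h1
    refine ⟨List.nodup_cons.mpr ⟨h3, i1⟩, ?_⟩
    intro ρ hρ
    rcases List.mem_cons.mp hρ with h | h
    · exact h ▸ h4
    · exact i2 ρ h

theorem h22_inv {d n : ℕ} (hd : 1 ≤ d) : ∀ l : List (Finset ℕ), Exp d n l →
    ∃ m, l.length = m + cnt OldStep l + 1 ∧ (l.toFinset.biUnion id).card = d + 1 + m ∧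
      (d + 1) + (d - 1) * m ≤ (d + 1) * cnt OldStep l + (h22O d n l.toFinset).card
  | [], h => h.elim
  | [σ], h => by
    have hσ : σ ∈ fc d n := h
    have hs := mem_powersetCard.mp hσ
    refine ⟨0, rfl, ?_, ?_⟩
    · have : (([σ] : List (Finset ℕ)).toFinset.biUnion id) = σ := by
        ext x
        simp
      rw [this, hs.2]
    · have hsub : σ.powersetCard d ⊆ h22O d n ([σ] : List (Finset ℕ)).toFinset := by
        intro f hf
        obtain ⟨f1, f2⟩ := mem_powersetCard.mp hf
        refine mem_filter.mpr ⟨mem_powersetCard.mpr ⟨f1.trans hs.1, f2⟩, ?_⟩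
        rw [card_eq_one]
        refine ⟨σ, ?_⟩
        ext τ
        simp only [mem_filter, mem_singleton, List.toFinset_cons, List.toFinset_nil,
          insert_empty_eq]
        constructor
        · exact fun h => h.1
        · intro h
          rw [h]
          exact ⟨rfl, f1⟩
      have h1 := card_le_card hsub
      rw [card_powersetCard, hs.2, Nat.choose_succ_self_right] at h1
      simp only [mul_zero, add_zero]
      omega
  | σ :: τ :: t, h => by
    obtain ⟨h1, h2, h3, h4, h5⟩ := h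
    obtain ⟨m, i1, i2, i3⟩ := h22_inv hd (τ :: t) h1
    have hmem := (h22_exp_mem (τ :: t) h1).2
    have hs := mem_powersetCard.mp h4
    obtain ⟨f1, f2⟩ := h2
    obtain ⟨ρ, hρ, hfρ⟩ := h22_mem_of_one f2
    obtain ⟨x, hx, e⟩ := h22_insert_of_subset f1 hs.2 h5
    have hT : (σ :: τ :: t).toFinset = insert σ (τ :: t).toFinset := List.toFinset_cons
    have hlen : (σ :: τ :: t).length = (τ :: t).length + 1 := rfl
    by_cases ho : OldStep (τ :: t) σ
    · have hcnt : cnt OldStep (σ :: τ :: t) = cnt OldStep (τ :: t) + 1 := by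
        change cnt OldStep (τ :: t) + _ = _
        rw [if_pos ho]
      refine ⟨m, by omega, ?_, ?_⟩
      · rw [← i2, hT]
        congr 1
        ext y
        simp only [mem_biUnion, id, mem_insert]
        constructor
        · rintro ⟨a, ha | ha, hy⟩
          · subst ha
            obtain ⟨b, hb, hyb⟩ := ho y hy
            exact ⟨b, List.mem_toFinset.mpr hb, hyb⟩
          · exact ⟨a, ha, hy⟩
        · rintro ⟨a, ha, hy⟩
          exact ⟨a, Or.inr ha, hy⟩
      · rw [hT, hcnt]
        have h6 := h22_O_old (n := n) (T := (τ :: t).toFinset) hs.2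
        have h7 : (d + 1) * (cnt OldStep (τ :: t) + 1) = (d + 1) * cnt OldStep (τ :: t) + (d + 1) := by
          ring
        omega
    · have hcnt : cnt OldStep (σ :: τ :: t) = cnt OldStep (τ :: t) := by
        change cnt OldStep (τ :: t) + _ = _
        rw [if_neg ho, add_zero]
      -- the vertex `x` is new
      have hxT : ∀ a ∈ (τ :: t).toFinset, x ∉ a := by
        intro a ha hxa
        apply ho
        intro y hy
        rw [e] at hy
        rcases mem_insert.mp hy with h | h
        · exact ⟨a, List.mem_toFinset.mp ha, h ▸ hxa⟩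
        · exact ⟨ρ, List.mem_toFinset.mp hρ, hfρ h⟩
      refine ⟨m + 1, by omega, ?_, ?_⟩
      · have h6 : (σ :: τ :: t).toFinset.biUnion id =
            insert x ((τ :: t).toFinset.biUnion id) := by
          rw [hT]
          ext y
          simp only [mem_biUnion, id, mem_insert]
          constructor
          · rintro ⟨a, ha | ha, hy⟩
            · rw [ha, e] at hy
              rcases mem_insert.mp hy with h | h
              · exact Or.inl h
              · exact Or.inr ⟨ρ, hρ, hfρ h⟩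
            · exact Or.inr ⟨a, ha, hy⟩
          · rintro (h | ⟨a, ha, hy⟩)
            · refine ⟨σ, Or.inl rfl, ?_⟩
              rw [e, h]
              exact mem_insert_self _ _
            · exact ⟨a, Or.inr ha, hy⟩
        rw [h6, card_insert_of_notMem, i2]
        · ring
        · intro h
          obtain ⟨a, ha, hxa⟩ := mem_biUnion.mp h
          exact hxT a ha hxa
      · have hfO : opn d (τ :: t).toFinset ∈ h22O d n (τ :: t).toFinset :=
          mem_filter.mpr ⟨mem_powersetCard.mpr ⟨h5.trans hs.1, f1⟩, f2⟩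
        have h6 := h22_O_new f1 hx (by rw [← e]; exact hs.1) hxT hfO
        rw [← e] at h6
        rw [hT, hcnt]
        have h7 : (d - 1) * (m + 1) = (d - 1) * m + (d - 1) := by ring
        omega

theorem small_old (d : ℕ) (hd : 2 ≤ d) (n : ℕ) (S : Finset (Finset ℕ)) (hS : S ⊆ fc d n)
    (hne : S.Nonempty) (hc : Core S) (hb : ¬ HasBd d S) (l : List (Finset ℕ)) (hl : Exp d n l)
    (hlS : l.toFinset = S) :
    d + 1 ≤ cnt OldStep l ∧ S.card ≤ 4 * cnt OldStep l + 1 := by
  obtain ⟨m, i1, i2, i3⟩ := h22_inv (by omega) l hl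
  obtain ⟨hnd, -⟩ := h22_exp_mem l hl
  have hcard : S.card = l.length := by
    rw [← hlS, List.toFinset_card_of_nodup hnd]
  have h1 := h22_core_card hd hS hne hc hb
  rw [hlS] at i2 i3
  have hO : (h22O d n S).card = 0 := by
    rw [card_eq_zero, eq_empty_iff_forall_notMem]
    intro f hf
    obtain ⟨f1, f2⟩ := mem_filter.mp hf
    obtain ⟨σ, hσ⟩ := card_eq_one.mp f2
    have h3 : σ ∈ S.filter (fun τ => f ⊆ τ) := by
      rw [hσ]
      exact mem_singleton_self σ
    obtain ⟨h3, h4⟩ := mem_filter.mp h3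
    obtain ⟨x, hx, e⟩ := h22_erase_of_subset (mem_powersetCard.mp f1).2 (h22_card (hS h3)) h4
    obtain ⟨τ, hτ, hne', hs⟩ := hc σ h3 x hx
    have h5 : τ ∈ S.filter (fun τ => f ⊆ τ) := mem_filter.mpr ⟨hτ, by rw [e]; exact hs⟩
    rw [hσ] at h5
    exact hne' (mem_singleton.mp h5)
  rw [hO, add_zero] at i3
  refine ⟨by omega, ?_⟩
  obtain ⟨e, rfl⟩ : ∃ e, d = e + 2 := ⟨d - 2, by omega⟩
  have h8 : m ≤ 3 * cnt OldStep l := by
    by_contra hcon
    have hcon' : 3 * cnt OldStep l + 1 ≤ m := by omega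
    have h9 : (e + 1) * (3 * cnt OldStep l + 1) ≤ (e + 1) * m := Nat.mul_le_mul_left _ hcon'
    have h10 : (e + 2 - 1) * m = (e + 1) * m := rfl
    rw [h10] at i3
    have h11 : (e + 2 + 1) * cnt OldStep l + 2 * e * cnt OldStep l =
        (e + 1) * (3 * cnt OldStep l) := by ring
    have h12 : (e + 1) * (3 * cnt OldStep l + 1) = (e + 1) * (3 * cnt OldStep l) + (e + 1) := by
      ring
    have h13 : 0 ≤ 2 * e * cnt OldStep l := Nat.zero_le _
    omega
  omega

end FC
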