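import Pool.Agent.H92.FC.TreeGiant
import Pool.Agent.H92.FC.CheapLarge
import Pool.Agent.H92.FC.SmallOld

/-!
# No small cores without simplex boundaries
-/

namespace FC

open Finset

theorem giant (d : ℕ) (hd : 2 ≤ d) (C : ℝ) (hC : 1 ≤ C) :
    ∃ ρ > (0:ℝ), ∃ K > (0:ℝ), ∃ n0 : ℕ, ∀ n ≥ n0, ∀ q : ℝ, 0 ≤ q → q ≤ C / n →
      Ex (fc d n) q (fun X => ind (∃ S ⊆ X, S.Nonempty ∧ Core S ∧ ¬ HasBd d S ∧
        (S.card : ℝ) ≤ ρ * (n : ℝ) ^ d)) ≤ K / n :=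
  giant_of cheap_large exists_exp exists_minCore small_old d hd C hC

end FC
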