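import Pool.Agent.H92.FC.ANof2
import Pool.Agent.H92.FC.GiantFin

/-!
# The probabilistic comparison

At `q1` the nullity is positive, while slightly above `q1` no cyclic set without a copy of the
boundary of a simplex misses `k` vertices.
-/

namespace FC

open Finset

variable {d : ℕ}

theorem h40_pm_two_pow (m : ℕ) : (2:ℝ) ^ m ≤ Real.exp m := by
  have h3 : (2:ℝ) ≤ Real.exp 1 := by linarith [Real.exp_one_gt_d9]
  calc (2:ℝ) ^ m ≤ Real.exp 1 ^ m := pow_le_pow_left₀ (by norm_num) h3 _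
    _ = Real.exp m := by rw [← Real.exp_nat_mul, mul_one]

theorem h40_pm_pow_le (p : ℝ) (hp : 0 ≤ p) (g : ℕ) : p ^ g ≤ Real.exp (-(g * (1 - p))) := by
  have h1 : p ≤ Real.exp (-(1 - p)) := by
    have := Real.add_one_le_exp (-(1 - p)); linarith
  calc p ^ g ≤ (Real.exp (-(1 - p))) ^ g := pow_le_pow_left₀ hp h1 g
    _ = _ := by rw [← Real.exp_nat_mul]; congr 1; ring

theorem h40_pm_restrict {α : Type*} [DecidableEq α] (Y H : Finset α) (p : ℝ)
    (Bad : Finset α → Prop) :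
    Ex Y p (fun X => ind (∃ C ⊆ X, C ⊆ H ∧ Bad C)) =
      Ex (Y ∩ H) p (fun X => ind (∃ C ⊆ X, Bad C)) := by
  rw [← Ex_restrict Y (Y ∩ H) Finset.inter_subset_left p (fun X => ind (∃ C ⊆ X, Bad C))]
  refine Ex_congr _ _ _ _ fun X hX => ind_congr ?_
  constructor
  · rintro ⟨C, h1, h2, h3⟩
    exact ⟨C, Finset.subset_inter h1 (Finset.subset_inter (h1.trans hX) h2), h3⟩
  · rintro ⟨C, h1, h3⟩
    exact ⟨C, h1.trans Finset.inter_subset_left,
      (h1.trans Finset.inter_subset_right).trans Finset.inter_subset_right, h3⟩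

theorem h40_pm_point (R : CRank d) (n k g : ℕ) (ρ p t : ℝ) (hp0 : 0 ≤ p) (hp1 : p ≤ 1)
    (hg : (2 * g : ℝ) ≤ ρ * (n : ℝ) ^ d) (Y : Finset (Finset ℕ)) (hY : Y ⊆ fc d n) :
    Ex Y p (fun X => ind (∃ U ⊆ range n, U.card = k ∧
        ∃ C ⊆ X, C ⊆ faces d (range n \ U) ∧ R.Cyc C ∧ ¬ HasBd d C)) ≤
      ind (SmallCore d n ρ Y) + ∑ U ∈ (range n).powersetCard k,
        (ind (t ≤ (R.nul (Y ∩ faces d (range n \ U)) : ℝ)) + Real.exp (t - g * (1 - p))) := by
  have hsum0 : 0 ≤ ∑ U ∈ (range n).powersetCard k,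
        (ind (t ≤ (R.nul (Y ∩ faces d (range n \ U)) : ℝ)) + Real.exp (t - g * (1 - p))) :=
    Finset.sum_nonneg fun U _ => add_nonneg (ind_nonneg _) (Real.exp_pos _).le
  by_cases hs : SmallCore d n ρ Y
  · rw [ind_pos hs]
    have : Ex Y p (fun X => ind (∃ U ⊆ range n, U.card = k ∧
        ∃ C ⊆ X, C ⊆ faces d (range n \ U) ∧ R.Cyc C ∧ ¬ HasBd d C)) ≤ 1 :=
      Ex_le_const Y p hp0 hp1 _ 1 fun _ _ => ind_le_one _
    linarith
  rw [ind_neg hs, zero_add]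
  have h1 : Ex Y p (fun X => ind (∃ U ⊆ range n, U.card = k ∧
        ∃ C ⊆ X, C ⊆ faces d (range n \ U) ∧ R.Cyc C ∧ ¬ HasBd d C)) ≤
      Ex Y p (fun X => ∑ U ∈ (range n).powersetCard k,
        ind (∃ C ⊆ X, C ⊆ faces d (range n \ U) ∧ (R.Cyc C ∧ ¬ HasBd d C))) := by
    refine Ex_mono Y p hp0 hp1 _ _ fun X _ => ?_
    by_cases hP : ∃ U ⊆ range n, U.card = k ∧
        ∃ C ⊆ X, C ⊆ faces d (range n \ U) ∧ R.Cyc C ∧ ¬ HasBd d C
    · rw [ind_pos hP]
      obtain ⟨U, hU, hUk, hC⟩ := hP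
      rw [← ind_pos hC]
      exact Finset.single_le_sum (f := fun U => ind (∃ C ⊆ X, C ⊆ faces d (range n \ U) ∧
        (R.Cyc C ∧ ¬ HasBd d C))) (fun i _ => ind_nonneg _)
        (Finset.mem_powersetCard.2 ⟨hU, hUk⟩)
    · rw [ind_neg hP]; exact Finset.sum_nonneg fun i _ => ind_nonneg _
  refine h1.trans ?_
  rw [Ex_sum]
  refine Finset.sum_le_sum fun U _ => ?_
  rw [h40_pm_restrict Y (faces d (range n \ U)) p (fun C => R.Cyc C ∧ ¬ HasBd d C)]
  set Z := Y ∩ faces d (range n \ U) with hZ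
  by_cases ht : t ≤ (R.nul Z : ℝ)
  · rw [ind_pos ht]
    have : Ex Z p (fun X => ind (∃ C ⊆ X, R.Cyc C ∧ ¬ HasBd d C)) ≤ 1 :=
      Ex_le_const Z p hp0 hp1 _ 1 fun _ _ => ind_le_one _
    linarith [Real.exp_pos (t - g * (1 - p))]
  · rw [ind_neg ht, zero_add]
    have h2 := thin R.toRankFn Z g (fun C => R.Cyc C ∧ ¬ HasBd d C) (fun C hC hb => by
        refine ⟨?_, hb.1.2⟩
        have h1 := bad_card R n ρ Y C hY hs (hC.trans Finset.inter_subset_left) hb.1 hb.2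
        have : ((2 * g : ℕ) : ℝ) ≤ (C.card : ℝ) := by push_cast; linarith
        exact_mod_cast this) p hp0 hp1
    refine h2.trans ?_
    calc (2:ℝ) ^ (R.nul Z) * p ^ g ≤ Real.exp (R.nul Z) * Real.exp (-(g * (1 - p))) :=
          mul_le_mul (h40_pm_two_pow _) (h40_pm_pow_le p hp0 g) (pow_nonneg hp0 _)
            (Real.exp_pos _).le
      _ = Real.exp (R.nul Z - g * (1 - p)) := by rw [← Real.exp_add]; congr 1
      _ ≤ Real.exp (t - g * (1 - p)) := by
          apply Real.exp_le_exp.2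
          linarith [not_le.1 ht]

theorem h40_pm_expect (R : CRank d) (n k g : ℕ) (ρ q p l x : ℝ) (hq0 : 0 ≤ q)
    (hq1 : q ≤ 1) (hp0 : 0 ≤ p) (hp1 : p ≤ 1) (hl0 : 0 ≤ l) (hl1 : l ≤ 1)
    (hg : (2 * g : ℝ) ≤ ρ * (n : ℝ) ^ d) :
    Ex (fc d n) (q * p) (fun X => ind (∃ U ⊆ range n, U.card = k ∧
        ∃ C ⊆ X, C ⊆ faces d (range n \ U) ∧ R.Cyc C ∧ ¬ HasBd d C)) ≤
      Ex (fc d n) q (fun X => ind (SmallCore d n ρ X)) + (n.choose k : ℝ) *
        (Real.exp (-(l * x) + (n.choose (d + 1) : ℝ) * q * l ^ 2) +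
          Real.exp (beta R (n - k) q + x - g * (1 - p))) := by
  rw [← Ex_thin]
  refine (Ex_mono (fc d n) q hq0 hq1 _ _ fun Y hY =>
    h40_pm_point R n k g ρ p (beta R (n - k) q + x) hp0 hp1 hg Y hY).trans ?_
  rw [Ex_add, Ex_sum]
  have h1 : ∀ U ∈ (range n).powersetCard k, Ex (fc d n) q
      (fun Y => ind (beta R (n - k) q + x ≤ (R.nul (Y ∩ faces d (range n \ U)) : ℝ)) +
        Real.exp (beta R (n - k) q + x - g * (1 - p))) ≤
      Real.exp (-(l * x) + (n.choose (d + 1) : ℝ) * q * l ^ 2) +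
          Real.exp (beta R (n - k) q + x - g * (1 - p)) := by
    intro U hU
    have hU' := Finset.mem_powersetCard.1 hU
    rw [Ex_add, Ex_const]
    have hc : (range n \ U).card = n - k := by
      rw [Finset.card_sdiff_of_subset hU'.1, Finset.card_range, hU'.2]
    have e1 : Ex (fc d n) q
      (fun Y => ind (beta R (n - k) q + x ≤ (R.nul (Y ∩ faces d (range n \ U)) : ℝ))) =
      Ex (faces d (range n \ U)) q (fun Y => ind (beta R (n - k) q + x ≤ (R.nul Y : ℝ))) :=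
      Ex_restrict (fc d n) (faces d (range n \ U)) (faces_mono Finset.sdiff_subset) q
        (fun Y => ind (beta R (n - k) q + x ≤ (R.nul Y : ℝ)))
    rw [e1]
    have h2 := nul_conc_up R (n - k) (range n \ U) hc q l x hq0 hq1 hl0 hl1
    have h3 : ((n - k).choose (d + 1) : ℝ) ≤ (n.choose (d + 1) : ℝ) := by
      exact_mod_cast Nat.choose_le_choose (d + 1) (Nat.sub_le n k)
    have h4 : ((n - k).choose (d + 1) : ℝ) * q * l ^ 2 ≤ (n.choose (d + 1) : ℝ) * q * l ^ 2 :=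
      mul_le_mul_of_nonneg_right (mul_le_mul_of_nonneg_right h3 hq0) (sq_nonneg l)
    have h5 : Real.exp (-(l * x) + ((n - k).choose (d + 1) : ℝ) * q * l ^ 2) ≤
        Real.exp (-(l * x) + (n.choose (d + 1) : ℝ) * q * l ^ 2) :=
      Real.exp_le_exp.2 (by linarith)
    linarith
  have h6 := Finset.sum_le_sum h1
  rw [Finset.sum_const, Finset.card_powersetCard, Finset.card_range, nsmul_eq_mul] at h6
  linarith

/-- the conditions on `n` -/
theorem h40_pm_large (D ρ K c δ ε : ℝ) (hD : 0 < D) (hc : 0 < c)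
    (hδ : 0 < δ) (hε : 0 < ε) :
    ∃ n0 : ℕ, ∀ n ≥ n0, 4 / ρ ≤ (n : ℝ) ∧ Real.log n ≤ 1 / (8 * D) * (n : ℝ) ^ δ ∧
      Real.log n ≤ c / 6 * (n : ℝ) ^ δ ∧ 1 ≤ c / 6 * (n : ℝ) ^ δ ∧
      1 ≤ c / 6 * (n : ℝ) ^ (δ / 2) ∧ K / n ≤ ε / 3 ∧
      Real.exp (-((n : ℝ) ^ δ / (8 * D))) ≤ ε / 3 ∧
      Real.exp (-(c / 2 * (n : ℝ) ^ δ)) ≤ ε / 3 := by
  have hN : Filter.Tendsto (fun n : ℕ => (n : ℝ)) Filter.atTop Filter.atTop :=
    tendsto_natCast_atTop_atTop
  have hlog := fun (b : ℝ) (hb : 0 < b) =>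
    hN.eventually ((isLittleO_log_rpow_atTop hδ).bound hb)
  have hu : Filter.Tendsto (fun n : ℕ => (n : ℝ) ^ δ) Filter.atTop Filter.atTop :=
    (tendsto_rpow_atTop hδ).comp hN
  have hv : Filter.Tendsto (fun n : ℕ => (n : ℝ) ^ (δ / 2)) Filter.atTop Filter.atTop :=
    (tendsto_rpow_atTop (by positivity)).comp hN
  have h8D : 0 < 1 / (8 * D) := by positivity
  have hc6 : 0 < c / 6 := by positivity
  have hev := (hN.eventually_ge_atTop (4 / ρ)).and
    ((hlog _ h8D).and ((hlog _ hc6).and ((hu.eventually_ge_atTop (6 / c)).and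
    ((hv.eventually_ge_atTop (6 / c)).and ((hN.eventually_ge_atTop (3 * K / ε)).and
    ((hN.eventually_ge_atTop 1).and
    ((hu.eventually_ge_atTop (-Real.log (ε / 3) * (8 * D))).and
    (hu.eventually_ge_atTop (-Real.log (ε / 3) * (2 / c))))))))))
  obtain ⟨n0, hn0⟩ := hev.exists_forall_of_atTop
  refine ⟨n0, fun n hn => ?_⟩
  obtain ⟨a1, a2, a3, a4, a5, a6, a7, a8, a9⟩ := hn0 n hn
  have hn0' : (0:ℝ) < n := by linarith
  have hu0 : 0 ≤ (n : ℝ) ^ δ := by positivity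
  have hlogle : ∀ b : ℝ, ‖Real.log (n:ℝ)‖ ≤ b * ‖(n : ℝ) ^ δ‖ → Real.log n ≤ b * (n : ℝ) ^ δ := by
    intro b hb
    rw [Real.norm_of_nonneg hu0] at hb
    exact (Real.le_norm_self _).trans hb
  have hε3 : 0 < ε / 3 := by positivity
  refine ⟨a1, hlogle _ a2, hlogle _ a3, ?_, ?_, ?_, ?_, ?_⟩
  · have := mul_le_mul_of_nonneg_left a4 hc6.le
    have e : c / 6 * (6 / c) = 1 := by field_simp
    linarith
  · have := mul_le_mul_of_nonneg_left a5 hc6.le
    have e : c / 6 * (6 / c) = 1 := by field_simp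
    linarith
  · rw [div_le_iff₀ hn0']
    rw [div_le_iff₀ hε] at a6
    linarith
  · rw [← Real.le_log_iff_exp_le hε3]
    have e : -Real.log (ε / 3) ≤ (n : ℝ) ^ δ / (8 * D) := by
      rw [le_div_iff₀ (by positivity)]; exact a8
    linarith
  · rw [← Real.le_log_iff_exp_le hε3]
    have := mul_le_mul_of_nonneg_left a9 (by positivity : 0 ≤ c / 2)
    have e : c / 2 * (-Real.log (ε / 3) * (2 / c)) = -Real.log (ε / 3) := by field_simp
    linarith

theorem h40_pm_r1 (a u t : ℝ) (ha : 0 ≤ a) (hu : 1 ≤ u) (h : a * u * u ≤ t) : a * u ≤ t := by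
  have h9 : 0 ≤ a * u := mul_nonneg ha (by linarith)
  have h10 : a * u * 1 ≤ a * u * u := mul_le_mul_of_nonneg_left hu h9
  linarith

theorem h40_pm_r2 (u A D t y : ℝ) (hD : 0 ≤ D) (hy : 0 ≤ t) (h10 : u * (4 * A) = 4 * D * y)
    (h : y ≤ t) : u * (4 * A) ≤ t * (8 * D) := by
  rw [h10]
  have h11 : 4 * D * y ≤ 4 * D * t := mul_le_mul_of_nonneg_left h (by positivity)
  have h12 : 0 ≤ D * t := mul_nonneg hD hy
  linarith

theorem h40_pm_r3 (n D q1 q2 : ℝ) (hD : 0 < D) (hq : 0 < q2) (hq12 : q1 < q2)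
    (h2 : q2 * n ≤ D) : (q2 - q1) * n / (2 * D) ≤ (q2 - q1) / (2 * q2) := by
  rw [div_le_div_iff₀ (by positivity) (by positivity)]
  have h3 : (q2 - q1) * (q2 * n) ≤ (q2 - q1) * D :=
    mul_le_mul_of_nonneg_left h2 (by linarith)
  linarith

theorem h40_pm_r4 (a b r : ℝ) (hr : 0 < r) (h1 : a ≤ b) (h5 : 4 ≤ a * r) : 4 ≤ r * b := by
  have := mul_le_mul_of_nonneg_left h1 hr.le
  linarith

theorem h40_pm_r5 (u s w W : ℝ) (hu : 0 ≤ u) (hs : 0 ≤ s) (hsw : s ≤ w) (h : w * u * s ≤ W) :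
    u * (s * s) ≤ W := by
  have h5 : u * s * s ≤ u * s * w := mul_le_mul_of_nonneg_left hsw (mul_nonneg hu hs)
  linarith

theorem h40_pm_r6 (a b : ℝ) (ha : 0 ≤ a) (hb : 1 ≤ b) : a ≤ a * b := by
  have := mul_le_mul_of_nonneg_left hb ha
  linarith

theorem prob_main_of (d : ℕ) (hd : 2 ≤ d) (hg : GiantProp d ((d : ℝ) + 3)) (R : CRank d) (δ ε : ℝ)
    (hδ : 0 < δ) (hε : 0 < ε) :
    ∃ n0 : ℕ, ∀ n ≥ n0, ∀ (k : ℕ) (q1 q2 θ : ℝ), 1 ≤ k → k < n → 0 < q1 → q1 < q2 →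
      q2 ≤ ((d : ℝ) + 3) / n → beta R n q1 = θ → beta R (n - k) q2 = θ →
      (n : ℝ) ^ ((d : ℝ) / 2 + δ) ≤ θ → (n : ℝ) ^ δ * θ ≤ (n : ℝ) ^ (d + 1) * (q2 - q1) →
      (n : ℝ) ^ ((d : ℝ) / 2 + δ) * Real.sqrt k ≤ (n : ℝ) ^ (d + 1) * (q2 - q1) →
      Ex (fc d n) q1 (fun X => ind (R.nul X = 0)) ≤ ε ∧
      Ex (fc d n) ((q1 + q2) / 2) (fun X => ind (∃ U ⊆ range n, U.card = k ∧
        ∃ C ⊆ X, C ⊆ faces d (range n \ U) ∧ R.Cyc C ∧ ¬ HasBd d C)) ≤ ε := by
  obtain ⟨ρ, hρ, K, hK, m0, hgi⟩ := hg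
  set D : ℝ := (d:ℝ) + 3 with hD
  have hD0 : (0:ℝ) < D := by positivity
  set c : ℝ := ρ / (8 * D) with hc
  have hc0 : 0 < c := by positivity
  obtain ⟨m1, hm1⟩ := h40_pm_large D ρ K c δ ε hD0 hc0 hδ hε
  refine ⟨max (max m0 m1) (d + 3), fun n hn k q1 q2 θ hk hkn hq1 hq12 hq2 hβ1 hβ2 hθ hW1 hW2 => ?_⟩
  have bm0 : m0 ≤ n := (le_max_left _ _).trans ((le_max_left _ _).trans hn)
  have bm1 : m1 ≤ n := (le_max_right _ _).trans ((le_max_left _ _).trans hn)
  have hnd : d + 3 ≤ n := (le_max_right _ _).trans hn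
  obtain ⟨a1, a2, a3, a4, a5, a6, a7, a8⟩ := hm1 n bm1
  have hn0 : (0:ℝ) < n := by exact_mod_cast (by omega : 0 < n)
  have hn1 : (1:ℝ) ≤ n := by exact_mod_cast (by omega : 1 ≤ n)
  have hq20 : 0 < q2 := hq1.trans hq12
  have hq21 : q2 ≤ 1 := by
    refine hq2.trans ?_
    rw [div_le_one hn0, hD]; exact_mod_cast hnd
  have hq11 : q1 ≤ 1 := hq12.le.trans hq21
  set u : ℝ := (n : ℝ) ^ δ with hu
  set v : ℝ := (n : ℝ) ^ (δ / 2) with hv
  set w : ℝ := (n : ℝ) ^ ((d : ℝ) / 2) with hw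
  set s : ℝ := Real.sqrt k with hs
  have hu1 : 1 ≤ u := Real.one_le_rpow hn1 hδ.le
  have hv0 : 0 < v := by positivity
  have hw0 : 0 < w := by positivity
  have hk1 : (1:ℝ) ≤ k := by exact_mod_cast hk
  have hs0 : 0 ≤ s := Real.sqrt_nonneg _
  have hss : s * s = k := Real.mul_self_sqrt (by positivity)
  have hs1 : 1 ≤ s := by rw [hs]; exact Real.one_le_sqrt.2 hk1
  have hvv : v * v = u := by
    rw [hv, hu, ← Real.rpow_add hn0]; congr 1; ring
  have hww : w * w = (n : ℝ) ^ d := by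
    rw [hw, ← Real.rpow_add hn0, ← Real.rpow_natCast]; congr 1; ring
  have hwu : (n : ℝ) ^ ((d : ℝ) / 2 + δ) = w * u := by
    rw [hw, hu, ← Real.rpow_add hn0]
  rw [hwu] at hθ hW2
  set W : ℝ := (n : ℝ) ^ (d + 1) * (q2 - q1) with hW
  have hsw : s ≤ w := by
    have h1 : s ≤ Real.sqrt n := Real.sqrt_le_sqrt (by exact_mod_cast hkn.le)
    have h2 : Real.sqrt n = (n : ℝ) ^ ((1:ℝ) / 2) := Real.sqrt_eq_rpow n
    have h3 : (n : ℝ) ^ ((1:ℝ) / 2) ≤ w := by
      rw [hw]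
      refine Real.rpow_le_rpow_of_exponent_le hn1 ?_
      have : (2:ℝ) ≤ d := by exact_mod_cast hd
      linarith
    rw [h2] at h1
    exact h1.trans h3
  set A : ℝ := D * (n:ℝ) ^ d with hA
  have hA0 : 0 < A := by positivity
  have hNq : ∀ q : ℝ, 0 ≤ q → q ≤ D / n → (n.choose (d + 1) : ℝ) * q ≤ A := by
    intro q hq0 hq
    have h1 : (n.choose (d + 1) : ℝ) ≤ (n : ℝ) ^ (d + 1) := by
      exact_mod_cast Nat.choose_le_pow n (d + 1)
    calc _ ≤ (n : ℝ) ^ (d + 1) * (D / n) := by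
          apply mul_le_mul h1 hq hq0 (by positivity)
      _ = A := by rw [hA, pow_succ]; field_simp
  have hθ0 : 0 < θ := lt_of_lt_of_le (by positivity) hθ
  constructor
  · -- the nullity is positive
    have hθA : θ ≤ A := by
      refine le_trans ?_ (hNq q1 hq1.le (hq12.le.trans hq2))
      rw [← hβ1]; unfold beta
      calc _ ≤ Ex (fc d n) q1 (fun X => (X.card : ℝ)) := by
            refine Ex_mono _ _ hq1.le hq11 _ _ fun X _ => ?_
            have := R.nul_add X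
            exact_mod_cast (by omega : R.nul X ≤ X.card)
        _ = _ := by rw [Ex_card, card_fc]; ring
    set l : ℝ := θ / (2 * A) with hl
    have hl0 : 0 ≤ l := by positivity
    have hl1 : l ≤ 1 := by
      rw [hl, div_le_one (by positivity)]; linarith
    have h := nul_conc_dn R n (range n) (Finset.card_range n) q1 l θ hq1.le hq11 hl0 hl1
    rw [hβ1, sub_self] at h
    have h1 : Ex (fc d n) q1 (fun X => ind (R.nul X = 0)) ≤
        Ex (faces d (range n)) q1 (fun X => ind ((R.nul X : ℝ) ≤ 0)) := by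
      refine Ex_mono _ _ hq1.le hq11 _ _ fun X _ => ind_mono fun h0 => ?_
      rw [h0]; simp
    refine (h1.trans h).trans ?_
    have h2 : (n.choose (d + 1) : ℝ) * q1 * l ^ 2 ≤ A * l ^ 2 :=
      mul_le_mul_of_nonneg_right (hNq q1 hq1.le (hq12.le.trans hq2)) (sq_nonneg l)
    have h3 : A * l ^ 2 = θ ^ 2 / (4 * A) := by rw [hl]; field_simp; ring
    have h4 : l * θ = 2 * (θ ^ 2 / (4 * A)) := by rw [hl]; field_simp; ring
    have h5 : u / (8 * D) ≤ θ ^ 2 / (4 * A) := by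
      rw [div_le_div_iff₀ (by positivity) (by positivity)]
      have h6 : (w * u) ^ 2 ≤ θ ^ 2 := pow_le_pow_left₀ (by positivity) hθ 2
      have h7 : (w * u) ^ 2 = (n:ℝ) ^ d * u * u := by rw [← hww]; ring
      have h8 : (n:ℝ) ^ d * u ≤ θ ^ 2 := by
        rw [h7] at h6
        exact h40_pm_r1 _ _ _ (by positivity) hu1 h6
      have h10 : u * (4 * A) = 4 * D * ((n:ℝ) ^ d * u) := by rw [hA]; ring
      exact h40_pm_r2 _ _ _ _ _ hD0.le (sq_nonneg θ) h10 h8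
    have h6 : Real.exp (-(l * θ) + (n.choose (d + 1) : ℝ) * q1 * l ^ 2) ≤
        Real.exp (-(u / (8 * D))) := Real.exp_le_exp.2 (by linarith)
    linarith
  · -- no large cycle misses k vertices
    set p : ℝ := ((q1 + q2) / 2) / q2 with hp
    have hqp : (q1 + q2) / 2 = q2 * p := by rw [hp]; field_simp
    have hp0 : 0 ≤ p := by positivity
    have hp1 : p ≤ 1 := by rw [hp, div_le_one hq20]; linarith
    have h1p : 1 - p = (q2 - q1) / (2 * q2) := by rw [hp]; field_simp; ring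
    have h1p' : (q2 - q1) * n / (2 * D) ≤ 1 - p := by
      rw [h1p]
      exact h40_pm_r3 _ _ _ _ hD0 hq20 hq12 ((le_div_iff₀ hn0).1 hq2)
    set g : ℕ := ⌊ρ * (n:ℝ) ^ d / 2⌋₊ with hg'
    have hg1 : (g : ℝ) ≤ ρ * (n:ℝ) ^ d / 2 := Nat.floor_le (by positivity)
    have hg2 : ρ * (n:ℝ) ^ d / 2 < g + 1 := Nat.lt_floor_add_one _
    have hmd1 : (n:ℝ) ≤ (n:ℝ) ^ d := by
      calc (n:ℝ) = (n:ℝ) ^ 1 := (pow_one _).symm
        _ ≤ (n:ℝ) ^ d := pow_le_pow_right₀ hn1 (by omega)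
    have h4 : 4 ≤ ρ * (n:ℝ) ^ d := h40_pm_r4 _ _ _ hρ hmd1 ((div_le_iff₀ hρ).1 a1)
    have hg3 : ρ * (n:ℝ) ^ d / 4 ≤ g := by linarith
    have hgW : c * W ≤ g * (1 - p) := by
      calc c * W = (ρ * (n:ℝ) ^ d / 4) * ((q2 - q1) * n / (2 * D)) := by
            rw [hc, hW, pow_succ]; field_simp; ring
        _ ≤ g * (1 - p) := by
            apply mul_le_mul hg3 h1p' _ (by positivity)
            have : 0 < q2 - q1 := by linarith
            positivity
    set x : ℝ := w * v * s with hx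
    have hx0 : 0 ≤ x := by positivity
    have hxW : v * x ≤ W := by
      calc v * x = w * (v * v) * s := by rw [hx]; ring
        _ ≤ W := by rw [hvv]; exact hW2
    have hkW : u * k ≤ W := by
      rw [← hss]
      exact h40_pm_r5 u s w W (by linarith) hs0 hsw hW2
    have huW : u ≤ W := (h40_pm_r6 u k (by linarith) hk1).trans hkW
    have hW0 : 0 ≤ W := by linarith
    have hWA : W ≤ A := by
      rw [hW, hA]
      have h5 : (q2 - q1) ≤ D / n := by linarith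
      calc (n : ℝ) ^ (d + 1) * (q2 - q1) ≤ (n : ℝ) ^ (d + 1) * (D / n) :=
            mul_le_mul_of_nonneg_left h5 (by positivity)
        _ = _ := by rw [pow_succ]; field_simp
    have hv1 : 1 ≤ v := Real.one_le_rpow hn1 (by positivity)
    have hxA : x ≤ A := by
      have := h40_pm_r6 x v hx0 hv1
      linarith
    set l : ℝ := x / (2 * A) with hl
    have hl0 : 0 ≤ l := by positivity
    have hl1 : l ≤ 1 := by
      rw [hl, div_le_one (by positivity)]; linarith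
    have hmain := h40_pm_expect R n k g ρ q2 p l x hq20.le hq21 hp0 hp1 hl0 hl1
      (by linarith)
    rw [hqp]
    refine hmain.trans ?_
    rw [hβ2]
    have hsm : Ex (fc d n) q2 (fun X => ind (SmallCore d n ρ X)) ≤ ε / 3 :=
      (show _ ≤ K / n from hgi n bm0 q2 hq20.le hq2).trans a6
    have hch : (n.choose k : ℝ) ≤ Real.exp (k * Real.log n) := by
      have h5 : (n.choose k : ℝ) ≤ (n:ℝ) ^ k := by exact_mod_cast Nat.choose_le_pow n k
      have h6 : (n:ℝ) ^ k = Real.exp (k * Real.log n) := by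
        rw [Real.exp_nat_mul, Real.exp_log hn0]
      rw [← h6]; exact h5
    have hch0 : (0:ℝ) ≤ (n.choose k : ℝ) := by positivity
    -- first exponential
    have e1 : (n.choose k : ℝ) * Real.exp (-(l * x) + (n.choose (d + 1) : ℝ) * q2 * l ^ 2) ≤
        ε / 3 := by
      have h2 : (n.choose (d + 1) : ℝ) * q2 * l ^ 2 ≤ A * l ^ 2 :=
        mul_le_mul_of_nonneg_right (hNq q2 hq20.le hq2) (sq_nonneg l)
      have h3 : A * l ^ 2 = x ^ 2 / (4 * A) := by rw [hl]; field_simp; ring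
      have h5 : l * x = 2 * (x ^ 2 / (4 * A)) := by rw [hl]; field_simp; ring
      have h6 : x ^ 2 / (4 * A) = u * k / (4 * D) := by
        have h7 : x ^ 2 = (n:ℝ) ^ d * (u * k) := by
          rw [← hww, ← hvv, ← hss, hx]; ring
        rw [h7, hA]; field_simp
      have h8 : k * Real.log n ≤ u * k / (8 * D) := by
        calc k * Real.log n ≤ k * (1 / (8 * D) * u) := mul_le_mul_of_nonneg_left a2 (by positivity)
          _ = _ := by ring
      have h9 : u * k / (4 * D) = 2 * (u * k / (8 * D)) := by field_simp; ring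
      have h10 : u / (8 * D) ≤ u * k / (8 * D) := by
        apply div_le_div_of_nonneg_right _ (by positivity)
        exact h40_pm_r6 u k (by linarith) hk1
      calc _ ≤ Real.exp (k * Real.log n) *
            Real.exp (-(l * x) + (n.choose (d + 1) : ℝ) * q2 * l ^ 2) :=
            mul_le_mul_of_nonneg_right hch (Real.exp_pos _).le
        _ = Real.exp (k * Real.log n + (-(l * x) + (n.choose (d + 1) : ℝ) * q2 * l ^ 2)) := by
            rw [← Real.exp_add]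
        _ ≤ Real.exp (-(u / (8 * D))) := Real.exp_le_exp.2 (by linarith)
        _ ≤ ε / 3 := a7
    have e2 : (n.choose k : ℝ) * Real.exp (θ + x - g * (1 - p)) ≤ ε / 3 := by
      have h5 : k * Real.log n ≤ c / 6 * W := by
        calc k * Real.log n ≤ k * (c / 6 * u) := mul_le_mul_of_nonneg_left a3 (by positivity)
          _ = c / 6 * (u * k) := by ring
          _ ≤ _ := mul_le_mul_of_nonneg_left hkW (by positivity)
      have h6 : θ ≤ c / 6 * W := by
        calc θ = 1 * θ := (one_mul _).symm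
          _ ≤ (c / 6 * u) * θ := mul_le_mul_of_nonneg_right a4 hθ0.le
          _ = c / 6 * (u * θ) := by ring
          _ ≤ _ := mul_le_mul_of_nonneg_left hW1 (by positivity)
      have h7 : x ≤ c / 6 * W := by
        calc x = 1 * x := (one_mul _).symm
          _ ≤ (c / 6 * v) * x := mul_le_mul_of_nonneg_right a5 hx0
          _ = c / 6 * (v * x) := by ring
          _ ≤ _ := mul_le_mul_of_nonneg_left hxW (by positivity)
      have h8 : c / 2 * u ≤ c / 2 * W := mul_le_mul_of_nonneg_left huW (by positivity)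
      calc _ ≤ Real.exp (k * Real.log n) * Real.exp (θ + x - g * (1 - p)) :=
            mul_le_mul_of_nonneg_right hch (Real.exp_pos _).le
        _ = Real.exp (k * Real.log n + (θ + x - g * (1 - p))) := by rw [← Real.exp_add]
        _ ≤ Real.exp (-(c / 2 * u)) := Real.exp_le_exp.2 (by linarith)
        _ ≤ ε / 3 := a8
    rw [mul_add]
    linarith

theorem giantProp (d : ℕ) (hd : 2 ≤ d) : GiantProp d ((d : ℝ) + 3) := by
  have h0 : (0:ℝ) ≤ d := Nat.cast_nonneg d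
  exact giant d hd ((d:ℝ) + 3) (by linarith)

theorem prob_main (d : ℕ) (hd : 2 ≤ d) (R : CRank d) (δ ε : ℝ) (hδ : 0 < δ) (hε : 0 < ε) :
    ∃ n0 : ℕ, ∀ n ≥ n0, ∀ (k : ℕ) (q1 q2 θ : ℝ), 1 ≤ k → k < n → 0 < q1 → q1 < q2 →
      q2 ≤ ((d : ℝ) + 3) / n → beta R n q1 = θ → beta R (n - k) q2 = θ →
      (n : ℝ) ^ ((d : ℝ) / 2 + δ) ≤ θ → (n : ℝ) ^ δ * θ ≤ (n : ℝ) ^ (d + 1) * (q2 - q1) →
      (n : ℝ) ^ ((d : ℝ) / 2 + δ) * Real.sqrt k ≤ (n : ℝ) ^ (d + 1) * (q2 - q1) →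
      Ex (fc d n) q1 (fun X => ind (R.nul X = 0)) ≤ ε ∧
      Ex (fc d n) ((q1 + q2) / 2) (fun X => ind (∃ U ⊆ range n, U.card = k ∧
        ∃ C ⊆ X, C ⊆ faces d (range n \ U) ∧ R.Cyc C ∧ ¬ HasBd d C)) ≤ ε :=
  prob_main_of d hd (giantProp d hd) R δ ε hδ hε

end FC
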