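import Pool.Agent.H92.FC.FF4
import Pool.Agent.H92.FC.Path
import Pool.Agent.H92.FC.ProbMain

set_option autoImplicit false
open Finset

/-! The dyadic exponent `I(n)` and the counting part of `ff`. -/

namespace FC

/-- `2 ^ I(n)` is about `n ^ η` -/
noncomputable def h63_I (η : ℝ) (n : ℕ) : ℕ := Nat.log 2 ⌊(n : ℝ) ^ η⌋₊

theorem h63_I_le {η : ℝ} (hη : 0 < η) {n : ℕ} (hn : 1 ≤ n) :
    (2 : ℝ) ^ (h63_I η n) ≤ (n : ℝ) ^ η := by
  have hn1 : (1 : ℝ) ≤ n := by exact_mod_cast hn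
  have h1 : 1 ≤ (n : ℝ) ^ η := Real.one_le_rpow hn1 hη.le
  have h2 : ⌊(n : ℝ) ^ η⌋₊ ≠ 0 := by
    have := Nat.floor_pos.2 h1
    omega
  have h3 := Nat.pow_log_le_self 2 h2
  calc (2 : ℝ) ^ (h63_I η n) = ((2 ^ (h63_I η n) : ℕ) : ℝ) := by push_cast; rfl
    _ ≤ (⌊(n : ℝ) ^ η⌋₊ : ℝ) := by exact_mod_cast h3
    _ ≤ (n : ℝ) ^ η := Nat.floor_le (by positivity)

theorem h63_le_I {η : ℝ} {n : ℕ} :
    (n : ℝ) ^ η / 2 ≤ (2 : ℝ) ^ (h63_I η n) := by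
  have h3 := Nat.lt_pow_succ_log_self (b := 2) (by norm_num) ⌊(n : ℝ) ^ η⌋₊
  have h4 : (⌊(n : ℝ) ^ η⌋₊ : ℝ) + 1 ≤ 2 ^ (h63_I η n + 1) := by
    have : ⌊(n : ℝ) ^ η⌋₊ + 1 ≤ 2 ^ (h63_I η n + 1) := h3
    exact_mod_cast this
  have h5 := Nat.lt_floor_add_one ((n : ℝ) ^ η)
  rw [pow_succ] at h4
  linarith

theorem h63_I_log {η : ℝ} (hη1 : η ≤ 1) {n M : ℕ} (hn : 1 ≤ n) (hM : n ≤ 2 * M) :
    h63_I η n ≤ Nat.log 2 (2 * M) := by
  unfold h63_I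
  apply Nat.log_mono_right
  have hn1 : (1 : ℝ) ≤ n := by exact_mod_cast hn
  have h1 : (n : ℝ) ^ η ≤ n := by
    calc (n : ℝ) ^ η ≤ (n : ℝ) ^ (1 : ℝ) := Real.rpow_le_rpow_of_exponent_le hn1 hη1
      _ = n := Real.rpow_one _
  have h2 : ⌊(n : ℝ) ^ η⌋₊ ≤ n := by
    have := Nat.floor_le_floor h1
    rwa [Nat.floor_natCast] at this
  omega

/-- the counting part -/
theorem h63_count (η a : ℝ) (hη : 0 < η) (hη1 : η ≤ 1 / 4) (ha : 0 < a) (D0 M0 : ℕ)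
    (Ex0 : ℕ → Finset ℕ) (hEx : ∀ M ≥ M0, ((Ex0 M).card : ℝ) ≤ (M : ℝ) ^ (1 - a)) (G : Set ℕ)
    (hG : ∀ n M, M0 ≤ M → D0 * 2 ^ (h63_I η n) ≤ M → M + 2 ^ (h63_I η n) ≤ n + 1 → n ≤ 2 * M →
      n + 1 - 2 ^ (h63_I η n) ∉ Ex0 M → n ∈ G) :
    ∃ a' > (0:ℝ), ∃ M1 : ℕ, ∀ M ≥ M1, ∀ E : Finset ℕ, (∀ n ∈ E, M ≤ n ∧ n ≤ 2 * M ∧ n ∉ G) →
        (E.card : ℝ) ≤ (M : ℝ) ^ (1 - a') := by
  classical
  set a' : ℝ := min a (1 / 2) / 2 with ha'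
  have hmin : 0 < min a (1 / 2) := lt_min ha (by norm_num)
  have ha'0 : 0 < a' := by positivity
  have ha'1 : a' ≤ 1 / 4 := by
    have := min_le_right a (1 / 2); rw [ha']; linarith
  have ha'2 : a' < a := by
    have := min_le_left a (1 / 2); rw [ha']; linarith
  have hN : Filter.Tendsto (fun n : ℕ => (n : ℝ)) Filter.atTop Filter.atTop :=
    tendsto_natCast_atTop_atTop
  have hg : 0 < a - a' := by linarith
  -- logarithm
  have hlog := hN.eventually ((isLittleO_log_rpow_atTop hg).bound (show (0:ℝ) < 1 / 16 by norm_num))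
  have hbig := ((tendsto_rpow_atTop hg).comp hN).eventually_ge_atTop 16
  have hpow := ((tendsto_rpow_atTop (show (0:ℝ) < 1 / 2 by norm_num)).comp hN).eventually_ge_atTop
    ((2:ℝ) ^ (1 / 4 : ℝ) * 2)
  have hpow2 := ((tendsto_rpow_atTop (show (0:ℝ) < 3 / 4 by norm_num)).comp hN).eventually_ge_atTop
    (D0 * (2:ℝ) ^ (1 / 4 : ℝ))
  obtain ⟨A, hA⟩ := Filter.eventually_atTop.1 (hlog.and (hbig.and (hpow.and hpow2)))
  refine ⟨a', ha'0, max (max A M0) 2, fun M hM E hE => ?_⟩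
  obtain ⟨l1, l2, l3, l4⟩ := hA M ((le_max_left _ _).trans ((le_max_left _ _).trans hM))
  have hMM0 : M0 ≤ M := (le_max_right _ _).trans ((le_max_left _ _).trans hM)
  have hM2 : 2 ≤ M := (le_max_right _ _).trans hM
  simp only [Function.comp_apply] at l2 l3 l4
  have hMR : (0:ℝ) < M := by exact_mod_cast (by omega : 0 < M)
  have hM1 : (1:ℝ) ≤ M := by exact_mod_cast (by omega : 1 ≤ M)
  -- `K(n) ≤ (2M)^η ≤ 2^(1/4) M^(1/4)`
  have hKle : ∀ n, 1 ≤ n → n ≤ 2 * M → (2:ℝ) ^ (h63_I η n) ≤ (2:ℝ) ^ (1 / 4 : ℝ) * (M : ℝ) ^ (1 / 4 : ℝ) := by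
    intro n h1 h2
    refine (h63_I_le hη h1).trans ?_
    have hn1 : (1:ℝ) ≤ n := by exact_mod_cast h1
    calc (n : ℝ) ^ η ≤ (n : ℝ) ^ (1 / 4 : ℝ) := Real.rpow_le_rpow_of_exponent_le hn1 hη1
      _ ≤ (2 * (M : ℝ)) ^ (1 / 4 : ℝ) := by
          apply Real.rpow_le_rpow (by positivity) _ (by norm_num)
          exact_mod_cast h2
      _ = _ := Real.mul_rpow (by norm_num) hMR.le
  set Kmax : ℕ := ⌊(2:ℝ) ^ (1 / 4 : ℝ) * (M : ℝ) ^ (1 / 4 : ℝ)⌋₊ with hKmax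
  have hKnat : ∀ n, 1 ≤ n → n ≤ 2 * M → 2 ^ (h63_I η n) ≤ Kmax := by
    intro n h1 h2
    rw [hKmax]
    apply Nat.le_floor
    push_cast
    exact hKle n h1 h2
  have hD0 : D0 * Kmax ≤ M := by
    have h1 : (Kmax : ℝ) ≤ (2:ℝ) ^ (1 / 4 : ℝ) * (M : ℝ) ^ (1 / 4 : ℝ) := Nat.floor_le (by positivity)
    have h2 : (D0 : ℝ) * Kmax ≤ M := by
      calc (D0 : ℝ) * Kmax ≤ D0 * ((2:ℝ) ^ (1 / 4 : ℝ) * (M : ℝ) ^ (1 / 4 : ℝ)) :=
            mul_le_mul_of_nonneg_left h1 (by positivity)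
        _ = (D0 * (2:ℝ) ^ (1 / 4 : ℝ)) * (M : ℝ) ^ (1 / 4 : ℝ) := by ring
        _ ≤ (M : ℝ) ^ (3 / 4 : ℝ) * (M : ℝ) ^ (1 / 4 : ℝ) :=
            mul_le_mul_of_nonneg_right l4 (by positivity)
        _ = M := by rw [← Real.rpow_add hMR]; norm_num
    exact_mod_cast h2
  have hcov : E ⊆ Finset.Ico M (M + Kmax) ∪ (range (Nat.log 2 (2 * M) + 1)).biUnion
      (fun I => (Ex0 M).image (fun x => x + 2 ^ I - 1)) := by
    intro n hn
    obtain ⟨h1, h2, h3⟩ := hE n hn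
    rw [Finset.mem_union]
    have hn1 : 1 ≤ n := by omega
    have hK := hKnat n hn1 h2
    by_cases h4 : M + 2 ^ (h63_I η n) ≤ n + 1
    · right
      have h5 : n + 1 - 2 ^ (h63_I η n) ∈ Ex0 M := by
        by_contra h6
        exact h3 (hG n M hMM0 ((Nat.mul_le_mul_left D0 hK).trans hD0) h4 h2 h6)
      rw [Finset.mem_biUnion]
      refine ⟨h63_I η n, Finset.mem_range.2 (Nat.lt_succ_of_le
        (h63_I_log (by linarith) hn1 h2)), ?_⟩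
      rw [Finset.mem_image]
      exact ⟨_, h5, by omega⟩
    · left
      rw [Finset.mem_Ico]
      omega
  have hcard : E.card ≤ Kmax + (Nat.log 2 (2 * M) + 1) * (Ex0 M).card := by
    refine (Finset.card_le_card hcov).trans ((Finset.card_union_le _ _).trans ?_)
    rw [Nat.card_Ico]
    have h1 : ((range (Nat.log 2 (2 * M) + 1)).biUnion
      (fun I => (Ex0 M).image (fun x => x + 2 ^ I - 1))).card ≤
        (Nat.log 2 (2 * M) + 1) * (Ex0 M).card := by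
      refine Finset.card_biUnion_le.trans ?_
      refine (Finset.sum_le_card_nsmul _ _ (Ex0 M).card (fun I _ => Finset.card_image_le)).trans ?_
      rw [Finset.card_range, smul_eq_mul]
    omega
  have hcardR : (E.card : ℝ) ≤ Kmax + ((Nat.log 2 (2 * M) : ℕ) + 1 : ℝ) * ((Ex0 M).card : ℝ) := by
    have : (E.card : ℝ) ≤ ((Kmax + (Nat.log 2 (2 * M) + 1) * (Ex0 M).card : ℕ) : ℝ) := by
      exact_mod_cast hcard
    push_cast at this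
    exact this
  -- first term
  have t1 : (Kmax : ℝ) ≤ (M : ℝ) ^ (1 - a') / 2 := by
    have h1 : (Kmax : ℝ) ≤ (2:ℝ) ^ (1 / 4 : ℝ) * (M : ℝ) ^ (1 / 4 : ℝ) := Nat.floor_le (by positivity)
    have h2 : (M : ℝ) ^ (3 / 4 : ℝ) ≤ (M : ℝ) ^ (1 - a') :=
      Real.rpow_le_rpow_of_exponent_le hM1 (by linarith)
    have h3 : (M : ℝ) ^ (1 / 2 : ℝ) * (M : ℝ) ^ (1 / 4 : ℝ) = (M : ℝ) ^ (3 / 4 : ℝ) := by
      rw [← Real.rpow_add hMR]; norm_num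
    have h4 : ((2:ℝ) ^ (1 / 4 : ℝ) * 2) * (M : ℝ) ^ (1 / 4 : ℝ) ≤
        (M : ℝ) ^ (1 / 2 : ℝ) * (M : ℝ) ^ (1 / 4 : ℝ) := mul_le_mul_of_nonneg_right l3 (by positivity)
    linarith
  -- second term
  have t2 : ((Nat.log 2 (2 * M) : ℕ) + 1 : ℝ) ≤ (M : ℝ) ^ (a - a') / 2 := by
    have hu0 : 0 ≤ (M : ℝ) ^ (a - a') := by positivity
    rw [Real.norm_of_nonneg hu0] at l1
    have l1' : Real.log M ≤ 1 / 16 * (M : ℝ) ^ (a - a') := (Real.le_norm_self _).trans l1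
    have h1 : ((Nat.log 2 (2 * M) : ℕ) : ℝ) ≤ Real.logb 2 ((2 * M : ℕ) : ℝ) :=
      Real.natLog_le_logb _ _
    have h2 : Real.logb 2 ((2 * M : ℕ) : ℝ) = 1 + Real.logb 2 M := by
      push_cast
      rw [Real.logb_mul (by norm_num) hMR.ne', Real.logb_self_eq_one (by norm_num)]
    have h3 : Real.logb 2 M ≤ 2 * Real.log M := by
      rw [Real.logb, div_le_iff₀ (Real.log_pos (by norm_num))]
      have h4 : 1 / 2 ≤ Real.log 2 := by linarith [Real.log_two_gt_d9]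
      have h5 : 0 ≤ Real.log M := Real.log_nonneg hM1
      nlinarith
    linarith
  have t3 : ((Nat.log 2 (2 * M) : ℕ) + 1 : ℝ) * ((Ex0 M).card : ℝ) ≤ (M : ℝ) ^ (1 - a') / 2 := by
    calc ((Nat.log 2 (2 * M) : ℕ) + 1 : ℝ) * ((Ex0 M).card : ℝ) ≤
          ((M : ℝ) ^ (a - a') / 2) * (M : ℝ) ^ (1 - a) :=
          mul_le_mul t2 (hEx M hMM0) (by positivity) (by positivity)
      _ = ((M : ℝ) ^ (a - a') * (M : ℝ) ^ (1 - a)) / 2 := by ring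
      _ = (M : ℝ) ^ (1 - a') / 2 := by
          rw [← Real.rpow_add hMR]
          congr 2
          ring
  linarith

end FC
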