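import Pool.Agent.H92.FC.Main
import Pool.Agent.H92.FC.ProbMain
import Pool.Agent.H92.FC.AnA

/-!
# The criterion and the theorem for all dimensions
-/

namespace FC

open Finset

variable {d : ℕ}

theorem h40_gap (d n : ℕ) (hn : 2 * (d + 1) ≤ n) (q1 q2 W c : ℝ) (hq1 : 0 < q1) (hq12 : q1 < q2)
    (hq2 : q2 ≤ ((d : ℝ) + 3) / n) (hc : c = 2 ^ (d + 1) * ((d + 1).factorial : ℝ))
    (hW : W ≤ (n : ℝ) ^ (d + 1) * (q2 - q1)) (hW0 : 0 ≤ W)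
    (hb : 4 * c ^ 2 * (32 * ((d : ℝ) + 3) + 16) * (n : ℝ) ^ d ≤ W ^ 2) :
    32 * ((fc d n).card * ((q1 + q2) / 2)) + 16 ≤
      ((fc d n).card * ((q1 + q2) / 2 - q1)) ^ 2 := by
  have hn0 : (0:ℝ) < n := by exact_mod_cast (by omega : 0 < n)
  have hn1 : (1:ℝ) ≤ n := by exact_mod_cast (by omega : 1 ≤ n)
  have hc0 : 0 < c := by rw [hc]; positivity
  rw [card_fc]
  have h1 : (n.choose (d + 1) : ℝ) ≤ (n : ℝ) ^ (d + 1) := by
    exact_mod_cast Nat.choose_le_pow n (d + 1)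
  have h2 : (n : ℝ) ^ (d + 1) / c ≤ (n.choose (d + 1) : ℝ) := by
    rw [hc]; exact choose_lower d n hn
  have h3 : (n.choose (d + 1) : ℝ) * ((q1 + q2) / 2) ≤ ((d : ℝ) + 3) * (n : ℝ) ^ d := by
    calc (n.choose (d + 1) : ℝ) * ((q1 + q2) / 2) ≤ (n : ℝ) ^ (d + 1) * (((d:ℝ) + 3) / n) := by
          apply mul_le_mul h1 (by linarith) (by linarith) (by positivity)
      _ = _ := by rw [pow_succ]; field_simp
  have h4 : W / (2 * c) ≤ (n.choose (d + 1) : ℝ) * ((q1 + q2) / 2 - q1) := by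
    have h5 : (n : ℝ) ^ (d + 1) / c * ((q2 - q1) / 2) ≤
        (n.choose (d + 1) : ℝ) * ((q2 - q1) / 2) := mul_le_mul_of_nonneg_right h2 (by linarith)
    have h6 : (q1 + q2) / 2 - q1 = (q2 - q1) / 2 := by ring
    rw [h6]
    refine le_trans ?_ h5
    have h7 : (n : ℝ) ^ (d + 1) / c * ((q2 - q1) / 2) = (n : ℝ) ^ (d + 1) * (q2 - q1) / (2 * c) := by
      field_simp
    rw [h7]
    exact div_le_div_of_nonneg_right hW (by positivity)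
  have h5 : (W / (2 * c)) ^ 2 ≤ ((n.choose (d + 1) : ℝ) * ((q1 + q2) / 2 - q1)) ^ 2 :=
    pow_le_pow_left₀ (by positivity) h4 2
  refine le_trans ?_ h5
  rw [div_pow, le_div_iff₀ (by positivity)]
  have h6 : (1:ℝ) ≤ (n : ℝ) ^ d := one_le_pow₀ hn1
  have h7 : 32 * ((n.choose (d + 1) : ℝ) * ((q1 + q2) / 2)) + 16 ≤
      (32 * ((d : ℝ) + 3) + 16) * (n : ℝ) ^ d := by linarith
  calc (32 * ((n.choose (d + 1) : ℝ) * ((q1 + q2) / 2)) + 16) * (2 * c) ^ 2 ≤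
        ((32 * ((d : ℝ) + 3) + 16) * (n : ℝ) ^ d) * (2 * c) ^ 2 :=
        mul_le_mul_of_nonneg_right h7 (by positivity)
    _ = 4 * c ^ 2 * (32 * ((d : ℝ) + 3) + 16) * (n : ℝ) ^ d := by ring
    _ ≤ _ := hb

theorem crit (F : Type*) [Field F] (d : ℕ) (hd : 2 ≤ d) (R : CRank d) (hR : LinkF F d R) (ε : ℝ)
    (hε : 0 < ε) :
    ∃ n0 : ℕ, ∀ n ≥ n0, ∀ (k : ℕ) (q1 q2 θ : ℝ), 1 ≤ k → k < n → 0 < q1 → q1 < q2 →
      q2 ≤ ((d : ℝ) + 3) / n → beta R n q1 = θ → beta R (n - k) q2 = θ →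
      (n : ℝ) ^ ((d : ℝ) / 2 + 1 / 40) ≤ θ →
      (n : ℝ) ^ ((1:ℝ) / 40) * θ ≤ (n : ℝ) ^ (d + 1) * (q2 - q1) →
      (n : ℝ) ^ ((d : ℝ) / 2 + 1 / 40) * Real.sqrt k ≤ (n : ℝ) ^ (d + 1) * (q2 - q1) →
      badFrac F d n k ≤ ε := by
  obtain ⟨n1, h1⟩ := prob_main d hd R (1 / 40) (ε / 4) (by norm_num) (by positivity)
  set c : ℝ := 2 ^ (d + 1) * ((d + 1).factorial : ℝ) with hc
  have hlim : Filter.Tendsto (fun m : ℕ => (m : ℝ) ^ ((1 : ℝ) / 20)) Filter.atTop Filter.atTop :=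
    (tendsto_rpow_atTop (by norm_num)).comp tendsto_natCast_atTop_atTop
  obtain ⟨n2, h2⟩ := (hlim.eventually_ge_atTop
    (4 * c ^ 2 * (32 * ((d : ℝ) + 3) + 16))).exists_forall_of_atTop
  refine ⟨max (max n1 n2) (2 * (d + 1) + 1), fun n hn k q1 q2 θ hk hkn hq1 hq12 hq2 hb1 hb2 hθ
    hW1 hW2 => ?_⟩
  have hn1 : n1 ≤ n := (le_max_left _ _).trans ((le_max_left _ _).trans hn)
  have hn2 : n2 ≤ n := (le_max_right _ _).trans ((le_max_left _ _).trans hn)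
  have hn3 : 2 * (d + 1) + 1 ≤ n := (le_max_right _ _).trans hn
  obtain ⟨e1, e2⟩ := h1 n hn1 k q1 q2 θ hk hkn hq1 hq12 hq2 hb1 hb2 hθ hW1 hW2
  have hn0 : (0:ℝ) < n := by exact_mod_cast (by omega : 0 < n)
  have hq21 : q2 ≤ 1 := by
    refine hq2.trans ?_
    rw [div_le_one hn0]
    exact_mod_cast (by omega : d + 3 ≤ n)
  have hs : 1 ≤ Real.sqrt k := Real.one_le_sqrt.2 (by exact_mod_cast hk)
  have hp0 : 0 ≤ (n : ℝ) ^ ((d : ℝ) / 2 + 1 / 40) := by positivity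
  have hWW : (n : ℝ) ^ ((d : ℝ) / 2 + 1 / 40) ≤ (n : ℝ) ^ (d + 1) * (q2 - q1) := by
    refine le_trans ?_ hW2
    exact le_mul_of_one_le_right hp0 hs
  have hsq : ((n : ℝ) ^ ((d : ℝ) / 2 + 1 / 40)) ^ 2 = (n : ℝ) ^ ((1:ℝ) / 20) * (n : ℝ) ^ d := by
    rw [← Real.rpow_natCast (n : ℝ) d, ← Real.rpow_add hn0, ← Real.rpow_natCast,
      ← Real.rpow_mul hn0.le]
    congr 1; push_cast; ring
  have hgap := h40_gap d n (by omega) q1 q2 ((n : ℝ) ^ ((d : ℝ) / 2 + 1 / 40)) c hq1 hq12 hq2 hc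
    hWW hp0 (by
      rw [hsq]
      exact mul_le_mul_of_nonneg_right (h2 n hn2) (by positivity))
  have := bad_le F R hR n k q1 q2 (ε / 4) hq1.le hq12.le hq21 hgap e1 e2
  linarith

/-- the conditions on `n` in `main_A` -/
theorem h40_largeA (a c0 η : ℝ) (ha : 0 < a) (ha1 : a < 1) (hc0 : 0 < c0) (hη : 0 < η) :
    ∃ n0 : ℕ, ∀ n ≥ n0, 1 ≤ (n : ℝ) ∧ (n : ℝ) ^ (1 - a) + 1 ≤ η * n ∧
      1 / c0 ≤ (n : ℝ) ^ ((7:ℝ) / 20) := by
  have hN : Filter.Tendsto (fun n : ℕ => (n : ℝ)) Filter.atTop Filter.atTop :=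
    tendsto_natCast_atTop_atTop
  have hu : Filter.Tendsto (fun n : ℕ => (n : ℝ) ^ a) Filter.atTop Filter.atTop :=
    (tendsto_rpow_atTop ha).comp hN
  have hv : Filter.Tendsto (fun n : ℕ => (n : ℝ) ^ ((7:ℝ) / 20)) Filter.atTop Filter.atTop :=
    (tendsto_rpow_atTop (by norm_num)).comp hN
  have hev := (hN.eventually_ge_atTop 1).and ((hN.eventually_ge_atTop (2 / η)).and
    ((hu.eventually_ge_atTop (2 / η)).and (hv.eventually_ge_atTop (1 / c0))))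
  obtain ⟨n0, hn0⟩ := hev.exists_forall_of_atTop
  refine ⟨n0, fun n hn => ?_⟩
  obtain ⟨a1, a2, a3, a4⟩ := hn0 n hn
  refine ⟨a1, ?_, a4⟩
  have hnp : (0:ℝ) < n := by linarith
  have h1 : 1 ≤ η / 2 * n := by
    rw [div_le_iff₀ hη] at a2
    linarith
  have h2 : (n : ℝ) ^ (1 - a) ≤ η / 2 * n := by
    have h3 : (n : ℝ) ^ (1 - a) * (n : ℝ) ^ a = n := by
      rw [← Real.rpow_add hnp]
      have : 1 - a + a = 1 := by ring
      rw [this, Real.rpow_one]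
    have h4 : (n : ℝ) ^ (1 - a) * (2 / η) ≤ (n : ℝ) ^ (1 - a) * (n : ℝ) ^ a :=
      mul_le_mul_of_nonneg_left a3 (by positivity)
    rw [h3] at h4
    have h5 : (n : ℝ) ^ (1 - a) = η / 2 * ((n : ℝ) ^ (1 - a) * (2 / η)) := by field_simp
    rw [h5]
    exact mul_le_mul_of_nonneg_left h4 (by positivity)
  linarith

theorem main_A (F : Type*) [Field F] (d : ℕ) (hd : 2 ≤ d) (hL : ∃ R : CRank d, LinkF F d R) :
    ∃ a > (0:ℝ), ∀ ε > (0:ℝ), ∃ n0 : ℕ, ∀ n ≥ n0,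
      badFrac F d n (Nat.ceil ((n : ℝ) ^ (1 - a))) ≤ ε := by
  obtain ⟨R, hR⟩ := hL
  obtain ⟨m0, s, c, hAN⟩ := AN_of hd (giantProp d hd) R
  obtain ⟨κ, hκ, c0, hc0, η0, hη0, M0, hA⟩ := an_A d hd (beta R) (Tm R) m0 s c hAN
  have hκ0 : 0 < κ := by linarith
  set a : ℝ := 1 / (8 * κ) with ha
  have ha0 : 0 < a := by positivity
  have ha1 : a < 1 := by
    rw [ha, div_lt_one (by positivity)]; linarith
  have haκ : a * κ = 1 / 8 := by rw [ha]; field_simp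
  refine ⟨a, ha0, fun ε hε => ?_⟩
  obtain ⟨n1, h1⟩ := crit F d hd R hR ε hε
  obtain ⟨n2, h2⟩ := h40_largeA a c0 (min η0 (1 / 2)) ha0 ha1 hc0 (lt_min hη0 (by norm_num))
  refine ⟨max (max n1 n2) M0, fun n hn => ?_⟩
  have hn1 : n1 ≤ n := (le_max_left _ _).trans ((le_max_left _ _).trans hn)
  have hn2 : n2 ≤ n := (le_max_right _ _).trans ((le_max_left _ _).trans hn)
  have hn3 : M0 ≤ n := (le_max_right _ _).trans hn
  obtain ⟨b1, b2, b3⟩ := h2 n hn2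
  have hn0 : (0:ℝ) < n := by linarith
  set k : ℕ := Nat.ceil ((n : ℝ) ^ (1 - a)) with hk
  have hklow : (n : ℝ) ^ (1 - a) ≤ k := Nat.le_ceil _
  have hkup : (k : ℝ) ≤ (n : ℝ) ^ (1 - a) + 1 := (Nat.ceil_lt_add_one (by positivity)).le
  have hk1 : 1 ≤ k := Nat.one_le_ceil_iff.2 (by positivity)
  have hkη : (k : ℝ) ≤ η0 * n := by
    refine hkup.trans (b2.trans ?_)
    exact mul_le_mul_of_nonneg_right (min_le_left _ _) hn0.le
  have hkhalf : (k : ℝ) ≤ 1 / 2 * n := by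
    refine hkup.trans (b2.trans ?_)
    exact mul_le_mul_of_nonneg_right (min_le_right _ _) hn0.le
  have hkn : k < n := by
    have : (k : ℝ) < n := by linarith
    exact_mod_cast this
  obtain ⟨q1, q2, hq1, hq12, hq2, hβ1, hβ2, hgap⟩ := hA n hn3 k hk1 hkη
  have hd2 : (2:ℝ) ≤ d := by exact_mod_cast hd
  -- the gap
  have hg1 : c0 * (n : ℝ) ^ (-(9:ℝ) / 8) ≤ q2 - q1 := by
    refine le_trans ?_ hgap
    rw [mul_div_assoc]
    refine mul_le_mul_of_nonneg_left ?_ hc0.le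
    have h3 : (n : ℝ) ^ (-a) ≤ (k : ℝ) / n := by
      rw [le_div_iff₀ hn0]
      calc (n : ℝ) ^ (-a) * n = (n : ℝ) ^ (-a) * (n : ℝ) ^ (1:ℝ) := by rw [Real.rpow_one]
        _ = (n : ℝ) ^ (1 - a) := by rw [← Real.rpow_add hn0]; congr 1; ring
        _ ≤ k := hklow
    have h4 : ((n : ℝ) ^ (-a)) ^ κ ≤ ((k : ℝ) / n) ^ κ :=
      Real.rpow_le_rpow (by positivity) h3 hκ0.le
    have h5 : ((n : ℝ) ^ (-a)) ^ κ = (n : ℝ) ^ (-(1:ℝ) / 8) := by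
      rw [← Real.rpow_mul hn0.le]; congr 1; rw [neg_mul, haκ]; ring
    rw [le_div_iff₀ hn0]
    calc (n : ℝ) ^ (-(9:ℝ) / 8) * n = (n : ℝ) ^ (-(9:ℝ) / 8) * (n : ℝ) ^ (1:ℝ) := by
          rw [Real.rpow_one]
      _ = (n : ℝ) ^ (-(1:ℝ) / 8) := by rw [← Real.rpow_add hn0]; congr 1; ring
      _ ≤ _ := by rw [← h5]; exact h4
  have hg2 : (n : ℝ) ^ ((d : ℝ) / 2 + 21 / 40) ≤ (n : ℝ) ^ (d + 1) * (q2 - q1) := by
    have h3 : 1 ≤ c0 * (n : ℝ) ^ ((7:ℝ) / 20) := by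
      rw [div_le_iff₀ hc0] at b3
      linarith
    calc (n : ℝ) ^ ((d : ℝ) / 2 + 21 / 40) = (n : ℝ) ^ ((d : ℝ) / 2 + 21 / 40) * 1 := (mul_one _).symm
      _ ≤ (n : ℝ) ^ ((d : ℝ) / 2 + 21 / 40) * (c0 * (n : ℝ) ^ ((7:ℝ) / 20)) :=
          mul_le_mul_of_nonneg_left h3 (by positivity)
      _ = c0 * (n : ℝ) ^ ((d : ℝ) / 2 + 7 / 8) := by
          rw [mul_left_comm, ← Real.rpow_add hn0]; congr 2; ring
      _ ≤ c0 * (n : ℝ) ^ ((d : ℝ) + 1 + -(9:ℝ) / 8) := by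
          refine mul_le_mul_of_nonneg_left (Real.rpow_le_rpow_of_exponent_le b1 ?_) hc0.le
          linarith
      _ = (n : ℝ) ^ (d + 1) * (c0 * (n : ℝ) ^ (-(9:ℝ) / 8)) := by
          rw [Real.rpow_add hn0, ← Real.rpow_natCast (n : ℝ) (d + 1)]
          push_cast; ring
      _ ≤ (n : ℝ) ^ (d + 1) * (q2 - q1) := mul_le_mul_of_nonneg_left hg1 (by positivity)
  refine h1 n hn1 k q1 q2 ((n : ℝ) ^ ((d : ℝ) / 2 + 1 / 20)) hk1 hkn hq1 hq12 hq2 hβ1 hβ2 ?_ ?_ ?_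
  · exact Real.rpow_le_rpow_of_exponent_le b1 (by linarith)
  · rw [← Real.rpow_add hn0]
    exact (Real.rpow_le_rpow_of_exponent_le b1 (by linarith)).trans hg2
  · have h3 : Real.sqrt k ≤ (n : ℝ) ^ ((1:ℝ) / 2) := by
      rw [← Real.sqrt_eq_rpow]
      exact Real.sqrt_le_sqrt (by exact_mod_cast hkn.le)
    calc (n : ℝ) ^ ((d : ℝ) / 2 + 1 / 40) * Real.sqrt k ≤
          (n : ℝ) ^ ((d : ℝ) / 2 + 1 / 40) * (n : ℝ) ^ ((1:ℝ) / 2) :=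
          mul_le_mul_of_nonneg_left h3 (by positivity)
      _ = (n : ℝ) ^ ((d : ℝ) / 2 + 21 / 40) := by
          rw [← Real.rpow_add hn0]; congr 1; ring
      _ ≤ _ := hg2

end FC
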