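import Pool.Agent.H92.FC.FinalA
import Pool.Agent.H92.FC.AnB

/-!
# Full support outside a set of density zero, in dimension at least three
-/

namespace FC

open Finset

theorem h40_largeB (D : ℝ) :
    ∃ n0 : ℕ, ∀ n ≥ n0, 1 ≤ (n : ℝ) ∧ (2:ℝ) ^ (D + 1 / 20) ≤ (n : ℝ) ^ ((1:ℝ) / 40) := by
  have hN : Filter.Tendsto (fun n : ℕ => (n : ℝ)) Filter.atTop Filter.atTop :=
    tendsto_natCast_atTop_atTop
  have hu : Filter.Tendsto (fun n : ℕ => (n : ℝ) ^ ((1:ℝ) / 40)) Filter.atTop Filter.atTop :=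
    (tendsto_rpow_atTop (by norm_num)).comp hN
  have hev := (hN.eventually_ge_atTop 1).and (hu.eventually_ge_atTop ((2:ℝ) ^ (D + 1 / 20)))
  obtain ⟨n0, hn0⟩ := hev.exists_forall_of_atTop
  exact ⟨n0, fun n hn => hn0 n hn⟩

open Classical in
theorem main_B (F : Type*) [Field F] (d : ℕ) (hd : 3 ≤ d) (hL : ∃ R : CRank d, LinkF F d R) :
    ∃ a > (0:ℝ), ∃ G : Set ℕ, (∃ M0 : ℕ, ∀ M ≥ M0,
      (((Icc M (2 * M)).filter (fun n => n ∉ G)).card : ℝ) ≤ (M : ℝ) ^ (1 - a)) ∧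
      ∀ ε > (0:ℝ), ∃ n0 : ℕ, ∀ n ≥ n0, n ∈ G → badFrac F d n 1 ≤ ε := by
  obtain ⟨R, hR⟩ := hL
  have hd2 : 2 ≤ d := by omega
  obtain ⟨m0, s, c, hAN⟩ := AN_of hd2 (giantProp d hd2) R
  obtain ⟨a, ha, M0, hB⟩ := an_B d hd2 (beta R) (Tm R) m0 s c hAN
  refine ⟨a, ha, {n | ∃ M : ℕ, M ≤ n ∧ n ≤ 2 * M ∧ ∃ q1 q2 : ℝ, 0 < q1 ∧ q1 < q2 ∧
    q2 ≤ ((d : ℝ) + 3) / n ∧ beta R n q1 = (M : ℝ) ^ ((d : ℝ) / 2 + 1 / 20) ∧
    beta R (n - 1) q2 = (M : ℝ) ^ ((d : ℝ) / 2 + 1 / 20) ∧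
    (M : ℝ) ^ (-(2 + 1 / 10 : ℝ)) ≤ q2 - q1}, ⟨M0, fun M hM => ?_⟩, fun ε hε => ?_⟩
  · obtain ⟨E, hE, hE2⟩ := hB M hM
    refine le_trans ?_ hE
    have hsub : (Icc M (2 * M)).filter (fun n => n ∉ {n | ∃ M : ℕ, M ≤ n ∧ n ≤ 2 * M ∧
        ∃ q1 q2 : ℝ, 0 < q1 ∧ q1 < q2 ∧
        q2 ≤ ((d : ℝ) + 3) / n ∧ beta R n q1 = (M : ℝ) ^ ((d : ℝ) / 2 + 1 / 20) ∧
        beta R (n - 1) q2 = (M : ℝ) ^ ((d : ℝ) / 2 + 1 / 20) ∧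
        (M : ℝ) ^ (-(2 + 1 / 10 : ℝ)) ≤ q2 - q1}) ⊆ E := by
      intro n hn
      rw [Finset.mem_filter, Finset.mem_Icc] at hn
      by_contra hnE
      exact hn.2 ⟨M, hn.1.1, hn.1.2, hE2 n hn.1.1 hn.1.2 hnE⟩
    exact_mod_cast Finset.card_le_card hsub
  · obtain ⟨n1, h1⟩ := crit F d hd2 R hR ε hε
    obtain ⟨n2, h2⟩ := h40_largeB ((d : ℝ) / 2)
    refine ⟨max (max n1 n2) 2, fun n hn hG => ?_⟩
    have hn1 : n1 ≤ n := (le_max_left _ _).trans ((le_max_left _ _).trans hn)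
    have hn2 : n2 ≤ n := (le_max_right _ _).trans ((le_max_left _ _).trans hn)
    have hn3 : 2 ≤ n := (le_max_right _ _).trans hn
    obtain ⟨b1, b2⟩ := h2 n hn2
    have hn0 : (0:ℝ) < n := by linarith
    obtain ⟨M, hMn, hnM, q1, q2, hq1, hq12, hq2, hβ1, hβ2, hgap⟩ := hG
    have hd3 : (3:ℝ) ≤ d := by exact_mod_cast hd
    have hM0 : (0:ℝ) < M := by exact_mod_cast (by omega : 0 < M)
    have hMn' : (M : ℝ) ≤ n := by exact_mod_cast hMn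
    have hnM' : (n : ℝ) ≤ 2 * M := by exact_mod_cast hnM
    have hg1 : (n : ℝ) ^ (-(21:ℝ) / 10) ≤ q2 - q1 := by
      refine le_trans ?_ hgap
      have h3 := Real.rpow_le_rpow_of_nonpos hM0 hMn' (by norm_num : (-(21:ℝ) / 10) ≤ 0)
      have h4 : (-(2 + 1 / 10 : ℝ)) = -(21:ℝ) / 10 := by norm_num
      rw [h4]; exact h3
    have hg2 : (n : ℝ) ^ ((d : ℝ) / 2 + 3 / 40) ≤ (n : ℝ) ^ (d + 1) * (q2 - q1) := by
      calc (n : ℝ) ^ ((d : ℝ) / 2 + 3 / 40) ≤ (n : ℝ) ^ ((d : ℝ) + 1 + -(21:ℝ) / 10) :=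
            Real.rpow_le_rpow_of_exponent_le b1 (by linarith)
        _ = (n : ℝ) ^ (d + 1) * (n : ℝ) ^ (-(21:ℝ) / 10) := by
            rw [Real.rpow_add hn0, ← Real.rpow_natCast (n : ℝ) (d + 1)]
            push_cast; ring
        _ ≤ _ := mul_le_mul_of_nonneg_left hg1 (by positivity)
    refine h1 n hn1 1 q1 q2 ((M : ℝ) ^ ((d : ℝ) / 2 + 1 / 20)) le_rfl (by omega) hq1 hq12 hq2 hβ1
      hβ2 ?_ ?_ ?_
    · have h3 : (n : ℝ) ^ ((d : ℝ) / 2 + 1 / 20) ≤ (2 * M : ℝ) ^ ((d : ℝ) / 2 + 1 / 20) :=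
        Real.rpow_le_rpow hn0.le hnM' (by positivity)
      rw [Real.mul_rpow (by norm_num) hM0.le] at h3
      have h4 : (n : ℝ) ^ ((d : ℝ) / 2 + 1 / 40) * (n : ℝ) ^ ((1:ℝ) / 40) =
          (n : ℝ) ^ ((d : ℝ) / 2 + 1 / 20) := by
        rw [← Real.rpow_add hn0]; congr 1; ring
      have h5 : (n : ℝ) ^ ((d : ℝ) / 2 + 1 / 40) * (2:ℝ) ^ ((d : ℝ) / 2 + 1 / 20) ≤
          (M : ℝ) ^ ((d : ℝ) / 2 + 1 / 20) * (2:ℝ) ^ ((d : ℝ) / 2 + 1 / 20) := by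
        calc _ ≤ (n : ℝ) ^ ((d : ℝ) / 2 + 1 / 40) * (n : ℝ) ^ ((1:ℝ) / 40) :=
              mul_le_mul_of_nonneg_left b2 (by positivity)
          _ = (n : ℝ) ^ ((d : ℝ) / 2 + 1 / 20) := h4
          _ ≤ _ := by rw [mul_comm]; exact h3
      exact le_of_mul_le_mul_right h5 (by positivity)
    · calc (n : ℝ) ^ ((1:ℝ) / 40) * (M : ℝ) ^ ((d : ℝ) / 2 + 1 / 20) ≤
            (n : ℝ) ^ ((1:ℝ) / 40) * (n : ℝ) ^ ((d : ℝ) / 2 + 1 / 20) :=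
            mul_le_mul_of_nonneg_left (Real.rpow_le_rpow hM0.le hMn' (by positivity))
              (by positivity)
        _ = (n : ℝ) ^ ((d : ℝ) / 2 + 3 / 40) := by
            rw [← Real.rpow_add hn0]; congr 1; ring
        _ ≤ _ := hg2
    · rw [Nat.cast_one, Real.sqrt_one, mul_one]
      exact (Real.rpow_le_rpow_of_exponent_le b1 (by linarith)).trans hg2

end FC
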