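import Pool.Agent.H92.FC.Path

/-!
# Exchangeability of vertices: the nullities without `v` and without `w` are close
-/

namespace FC

open Finset

variable {d : ℕ}

/-- invariance of the rank under a relabelling of the vertices -/
def h22Inv (R : CRank d) (π : ℕ → ℕ) : Prop :=
  ∀ S : Finset (Finset ℕ), R.r (S.image (fun σ => σ.image π)) = R.r S

theorem h22_inv_comp {R : CRank d} {π ρ : ℕ → ℕ} (h1 : h22Inv R π) (h2 : h22Inv R ρ) :
    h22Inv R (π ∘ ρ) := by
  intro S
  have e : S.image (fun σ => σ.image (π ∘ ρ)) =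
      (S.image (fun σ => σ.image ρ)).image (fun σ => σ.image π) := by
    rw [image_image]
    congr 1
    funext σ
    simp only [Function.comp]
    rw [image_image]
  rw [e, h1, h2]

theorem h22_inv_add {R : CRank d} (hs : SwapInv R) (a k : ℕ) :
    h22Inv R (Equiv.swap a (a + 1 + k)) := by
  induction k with
  | zero => exact hs a
  | succ k ih =>
    have h1 : a ≠ a + 1 + k := by omega
    have h2 : a ≠ a + 1 + k + 1 := by omega
    have e := Equiv.swap_mul_swap_mul_swap h1 h2
    have h3 := h22_inv_comp (h22_inv_comp (hs (a + 1 + k)) ih) (hs (a + 1 + k))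
    have e2 : (⇑(Equiv.swap (a + 1 + k) (a + 1 + k + 1)) ∘ ⇑(Equiv.swap a (a + 1 + k))) ∘
        ⇑(Equiv.swap (a + 1 + k) (a + 1 + k + 1)) = ⇑(Equiv.swap a (a + 1 + (k + 1))) := by
      rw [← Equiv.Perm.coe_mul, ← Equiv.Perm.coe_mul, e, Equiv.swap_comm]
      rfl
    rw [e2] at h3
    exact h3

theorem h22_inv_swap {R : CRank d} (hs : SwapInv R) (v w : ℕ) : h22Inv R (Equiv.swap v w) := by
  rcases lt_trichotomy v w with h | h | h
  · obtain ⟨k, hk⟩ := Nat.exists_eq_add_of_lt h
    have e : w = v + 1 + k := by omega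
    rw [e]
    exact h22_inv_add hs v k
  · subst h
    intro S
    rw [Equiv.swap_self]
    simp
  · obtain ⟨k, hk⟩ := Nat.exists_eq_add_of_lt h
    have e : v = w + 1 + k := by omega
    rw [e, Equiv.swap_comm]
    exact h22_inv_add hs w k

theorem h22_img_inj (v w : ℕ) :
    Function.Injective (fun σ : Finset ℕ => σ.image (Equiv.swap v w)) :=
  image_injective (Equiv.swap v w).injective

theorem h22_nul_swap {R : CRank d} (hs : SwapInv R) (v w : ℕ) (S : Finset (Finset ℕ)) :
    R.nul (S.image (fun σ => σ.image (Equiv.swap v w))) = R.nul S := by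
  unfold RankFn.nul
  rw [card_image_of_injective _ (h22_img_inj v w)]
  have := h22_inv_swap hs v w S
  rw [this]

/-- product formula -/
theorem h22_Ex_prod {α : Type*} [DecidableEq α] (G H : Finset α) (hH : H ⊆ G) (q : ℝ)
    (f : Finset α → ℝ) :
    Ex G q f = Ex H q (fun X => Ex (G \ H) q (fun Y => f (X ∪ Y))) := by
  induction H using Finset.induction_on with
  | empty =>
    rw [Ex_empty, sdiff_empty]
    refine Ex_congr _ _ _ _ fun X _ => ?_
    rw [empty_union]
  | insert a H ha ih =>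
    have haG : a ∈ G := hH (mem_insert_self _ _)
    rw [ih ((subset_insert _ _).trans hH), Ex_insert H a ha, ← Ex_mul, ← Ex_mul, ← Ex_add]
    refine Ex_congr _ _ _ _ fun X _ => ?_
    have e : G \ H = insert a (G \ insert a H) := by
      ext b
      simp only [mem_sdiff, mem_insert]
      by_cases hb : b = a
      · subst hb
        tauto
      · tauto
    have hnot : a ∉ G \ insert a H := by simp
    rw [e, Ex_insert _ a hnot]
    congr 2
    refine Ex_congr _ _ _ _ fun Y _ => ?_
    congr 1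
    ext b
    simp only [mem_union, mem_insert]
    tauto

theorem h22_mem_faces {V σ : Finset ℕ} : σ ∈ faces d V ↔ σ ⊆ V ∧ σ.card = d + 1 :=
  mem_powersetCard

/-- number of faces containing the additional vertex -/
theorem h22_card_new (A : Finset ℕ) (w : ℕ) :
    (faces d (insert w A) \ faces d A).card ≤ A.card.choose d := by
  have hsub : faces d (insert w A) \ faces d A ⊆ (A.powersetCard d).image (insert w) := by
    intro σ hσ
    obtain ⟨h1, h2⟩ := mem_sdiff.mp hσ
    obtain ⟨h3, h4⟩ := h22_mem_faces.mp h1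
    have hw : w ∈ σ := by
      by_contra hw
      apply h2
      refine h22_mem_faces.mpr ⟨fun y hy => ?_, h4⟩
      rcases mem_insert.mp (h3 hy) with h | h
      · exact (hw (h ▸ hy)).elim
      · exact h
    refine mem_image.mpr ⟨σ.erase w, mem_powersetCard.mpr ⟨fun y hy => ?_, ?_⟩, insert_erase hw⟩
    · obtain ⟨h5, h6⟩ := mem_erase.mp hy
      exact (mem_insert.mp (h3 h6)).resolve_left h5
    · rw [card_erase_of_mem hw, h4]
      rfl
  calc (faces d (insert w A) \ faces d A).card ≤ ((A.powersetCard d).image (insert w)).card :=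
        card_le_card hsub
    _ ≤ (A.powersetCard d).card := card_image_le
    _ = A.card.choose d := card_powersetCard _ _

/-- relabelling by the swap: the faces at `w` become the faces at `v` -/
theorem h22_image_new {A : Finset ℕ} {v w : ℕ} (hv : v ∉ A) (hw : w ∉ A) :
    (faces d (insert w A) \ faces d A).image (fun σ => σ.image (Equiv.swap v w)) =
      faces d (insert v A) \ faces d A := by
  have key : ∀ (a b : ℕ), a ∉ A → b ∉ A → ∀ σ ∈ faces d (insert b A) \ faces d A,
      σ.image (Equiv.swap a b) ∈ faces d (insert a A) \ faces d A := by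
    intro a b ha hb σ hσ
    obtain ⟨h1, h2⟩ := mem_sdiff.mp hσ
    obtain ⟨h3, h4⟩ := h22_mem_faces.mp h1
    have hbσ : b ∈ σ := by
      by_contra hw
      apply h2
      refine h22_mem_faces.mpr ⟨fun y hy => ?_, h4⟩
      rcases mem_insert.mp (h3 hy) with h | h
      · exact (hw (h ▸ hy)).elim
      · exact h
    refine mem_sdiff.mpr ⟨h22_mem_faces.mpr ⟨?_, ?_⟩, ?_⟩
    · intro y hy
      obtain ⟨u, hu, e⟩ := mem_image.mp hy
      rcases mem_insert.mp (h3 hu) with h | h
      · rw [h, Equiv.swap_apply_right] at e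
        rw [← e]
        exact mem_insert_self _ _
      · have hua : u ≠ a := fun h' => ha (h' ▸ h)
        have hub : u ≠ b := fun h' => hb (h' ▸ h)
        rw [Equiv.swap_apply_of_ne_of_ne hua hub] at e
        rw [← e]
        exact mem_insert_of_mem h
    · rw [card_image_of_injective _ (Equiv.swap a b).injective, h4]
    · intro h
      have h5 : a ∈ σ.image (Equiv.swap a b) :=
        mem_image.mpr ⟨b, hbσ, Equiv.swap_apply_right a b⟩
      exact ha ((h22_mem_faces.mp h).1 h5)
  apply Subset.antisymm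
  · intro τ hτ
    obtain ⟨σ, hσ, rfl⟩ := mem_image.mp hτ
    exact key v w hv hw σ hσ
  · intro τ hτ
    refine mem_image.mpr ⟨τ.image (Equiv.swap w v), key w v hw hv τ hτ, ?_⟩
    rw [image_image, Equiv.swap_comm w v]
    have : (⇑(Equiv.swap v w) ∘ ⇑(Equiv.swap v w)) = id := by
      funext y
      simp
    rw [this, image_id]

theorem h22_image_old {A : Finset ℕ} {v w : ℕ} (hv : v ∉ A) (hw : w ∉ A)
    {X : Finset (Finset ℕ)} (hX : X ⊆ faces d A) :
    X.image (fun σ => σ.image (Equiv.swap v w)) = X := by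
  have h : ∀ σ ∈ X, σ.image (Equiv.swap v w) = σ := by
    intro σ hσ
    have h1 := (h22_mem_faces.mp (hX hσ)).1
    have h2 : σ.image (Equiv.swap v w) = σ.image id := by
      refine image_congr fun y hy => ?_
      have hy' := h1 hy
      exact Equiv.swap_apply_of_ne_of_ne (fun e => hv (e ▸ hy')) (fun e => hw (e ▸ hy'))
    rw [h2, image_id]
  have h3 : X.image (fun σ => σ.image (Equiv.swap v w)) = X.image id :=
    image_congr fun σ hσ => h σ hσ
  rw [h3, image_id]

/-- the tail of the conditional law, given the faces on `A` -/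
theorem h22_tail (R : CRank d) (G F0 F1 : Finset (Finset ℕ)) (h01 : F0 ⊆ F1) (h1G : F1 ⊆ G)
    (X0 : Finset (Finset ℕ)) (hX0 : X0 ⊆ F0) (q B x : ℝ) (hq0 : 0 ≤ q) (hq1 : q ≤ 1)
    (hB : 0 < B) (hcard : ((F1 \ F0).card : ℝ) * q ≤ B) (hx0 : 0 ≤ x) (hx : x ≤ 4 * B) (m : ℝ)
    (hm : m = Ex (F1 \ F0) q (fun Y => (R.nul (X0 ∪ Y) : ℝ))) :
    Ex (G \ F0) q (fun Y => ind (x / 2 ≤ |(R.nul ((X0 ∪ Y) ∩ F1) : ℝ) - m|)) ≤
      2 * Real.exp (-(x ^ 2 / (16 * B))) := by
  have hsub : F1 \ F0 ⊆ G \ F0 := sdiff_subset_sdiff h1G (Subset.refl _)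
  have e1 : Ex (G \ F0) q (fun Y => ind (x / 2 ≤ |(R.nul ((X0 ∪ Y) ∩ F1) : ℝ) - m|)) =
      Ex (F1 \ F0) q (fun Y => ind (x / 2 ≤ |(R.nul (X0 ∪ Y) : ℝ) - m|)) := by
    rw [← Ex_restrict (G \ F0) (F1 \ F0) hsub]
    refine Ex_congr _ _ _ _ fun Y hY => ?_
    have : (X0 ∪ Y) ∩ F1 = X0 ∪ (Y ∩ (F1 \ F0)) := by
      ext σ
      simp only [mem_inter, mem_union, mem_sdiff]
      constructor
      · rintro ⟨h | h, h2⟩
        · exact Or.inl h
        · exact Or.inr ⟨h, h2, (mem_sdiff.mp (hY h)).2⟩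
      · rintro (h | ⟨h, h2, -⟩)
        · exact ⟨Or.inl h, h01 (hX0 h)⟩
        · exact ⟨Or.inr h, h2⟩
    rw [this]
  rw [e1]
  have hlip : ∀ Y ⊆ F1 \ F0, ∀ a ∈ F1 \ F0, a ∉ Y →
      (R.nul (X0 ∪ Y) : ℝ) ≤ R.nul (X0 ∪ insert a Y) ∧
        (R.nul (X0 ∪ insert a Y) : ℝ) ≤ R.nul (X0 ∪ Y) + 1 := by
    intro Y _ a ha haY
    have e : X0 ∪ insert a Y = insert a (X0 ∪ Y) := by
      ext b
      simp only [mem_union, mem_insert]
      tauto
    have hna : a ∉ X0 ∪ Y := by
      intro h
      rcases mem_union.mp h with h | h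
      · exact (mem_sdiff.mp ha).2 (hX0 h)
      · exact haY h
    rw [e]
    exact R.nul_lip (X0 ∪ Y) a hna
  have hl0 : 0 ≤ x / (4 * B) := by positivity
  have hl1 : x / (4 * B) ≤ 1 := by
    rw [div_le_one (by positivity)]
    exact hx
  have hexp : Real.exp (-(x / (4 * B) * (x / 2)) + ((F1 \ F0).card : ℝ) * q * (x / (4 * B)) ^ 2) ≤
      Real.exp (-(x ^ 2 / (16 * B))) := by
    apply Real.exp_le_exp.mpr
    have h1 : ((F1 \ F0).card : ℝ) * q * (x / (4 * B)) ^ 2 ≤ B * (x / (4 * B)) ^ 2 :=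
      mul_le_mul_of_nonneg_right hcard (sq_nonneg _)
    have h2 : B * (x / (4 * B)) ^ 2 = x ^ 2 / (16 * B) := by
      field_simp
      ring
    have h3 : x / (4 * B) * (x / 2) = 2 * (x ^ 2 / (16 * B)) := by
      field_simp
      ring
    rw [h3]
    linarith
  have hup := (conc_up (F1 \ F0) q (x / (4 * B)) (x / 2) hq0 hq1 hl0 hl1
    (fun Y => (R.nul (X0 ∪ Y) : ℝ)) hlip).trans hexp
  have hdn := (conc_dn (F1 \ F0) q (x / (4 * B)) (x / 2) hq0 hq1 hl0 hl1
    (fun Y => (R.nul (X0 ∪ Y) : ℝ)) hlip).trans hexp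
  rw [← hm] at hup hdn
  have hle : Ex (F1 \ F0) q (fun Y => ind (x / 2 ≤ |(R.nul (X0 ∪ Y) : ℝ) - m|)) ≤
      Ex (F1 \ F0) q (fun Y => ind (m + x / 2 ≤ (R.nul (X0 ∪ Y) : ℝ)) +
        ind ((R.nul (X0 ∪ Y) : ℝ) ≤ m - x / 2)) := by
    refine Ex_mono _ _ hq0 hq1 _ _ fun Y _ => ?_
    refine (ind_mono ?_).trans (ind_or_le _ _)
    intro h
    rcases le_abs'.mp h with h | h
    · exact Or.inr (by linarith)
    · exact Or.inl (by linarith)
  rw [Ex_add] at hle
  linarith

theorem hg (R : CRank d) (hs : SwapInv R) (hd : 1 ≤ d) (n : ℕ) (hn : 1 ≤ n) (W : Finset ℕ)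
    (hW : W ⊆ range n) (v w : ℕ) (hv : v ∈ range n) (hw : w ∈ range n) (hvW : v ∉ W)
    (hwW : w ∉ W) (q x : ℝ) (hq0 : 0 ≤ q) (hq1 : q ≤ 1) (hq : q ≤ ((d : ℝ) + 3) / n)
    (hx0 : 0 ≤ x) (hx : x ≤ 4 * ((d : ℝ) + 3) * (n : ℝ) ^ (d - 1)) :
    Ex (fc d n) q (fun X => ind (x ≤ |(R.nul (X ∩ faces d (range n \ insert v W)) : ℝ) -
      R.nul (X ∩ faces d (range n \ insert w W))|)) ≤
    4 * Real.exp (-(x ^ 2 / (16 * ((d : ℝ) + 3) * (n : ℝ) ^ (d - 1)))) := by
  have hn0 : (0 : ℝ) < n := by exact_mod_cast hn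
  have hBpos : 0 < ((d : ℝ) + 3) * (n : ℝ) ^ (d - 1) := by positivity
  by_cases hvw : v = w
  · subst hvw
    rcases hx0.lt_or_eq with h | h
    · have h1 : Ex (fc d n) q (fun X => ind (x ≤ |(R.nul (X ∩ faces d (range n \ insert v W)) : ℝ) -
          R.nul (X ∩ faces d (range n \ insert v W))|)) ≤ 0 := by
        refine Ex_le_const _ _ hq0 hq1 _ _ fun X _ => ?_
        rw [sub_self, abs_zero, ind_neg (not_le.mpr h)]
      exact h1.trans (by positivity)
    · have h1 : Ex (fc d n) q (fun X => ind (x ≤ |(R.nul (X ∩ faces d (range n \ insert v W)) : ℝ) -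
          R.nul (X ∩ faces d (range n \ insert v W))|)) ≤ 1 :=
        Ex_le_const _ _ hq0 hq1 _ _ fun X _ => ind_le_one _
      rw [← h] at h1 ⊢
      refine h1.trans ?_
      simp
  · -- the common part
    have hvwW : v ∉ insert w W := by
      rw [mem_insert]
      tauto
    have hwvW : w ∉ insert v W := by
      rw [mem_insert]
      exact fun h => h.elim (fun e => hvw e.symm) hwW
    obtain ⟨A, hA⟩ : ∃ A, A = range n \ insert v (insert w W) := ⟨_, rfl⟩
    have hvA : v ∉ A := by rw [hA]; simp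
    have hwA : w ∉ A := by rw [hA]; simp
    have e1 : range n \ insert v W = insert w A := by
      rw [hA]
      ext y
      simp only [mem_sdiff, mem_insert]
      by_cases hy : y = w
      · subst hy
        simp only [true_or, iff_true]
        exact ⟨hw, by rw [mem_insert] at hwvW; exact hwvW⟩
      · tauto
    have e2 : range n \ insert w W = insert v A := by
      rw [hA]
      ext y
      simp only [mem_sdiff, mem_insert]
      by_cases hy : y = v
      · subst hy
        simp only [true_or, iff_true]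
        exact ⟨hv, by rw [mem_insert] at hvwW; exact hvwW⟩
      · tauto
    rw [e1, e2]
    have hAn : insert v (insert w A) ⊆ range n := by
      intro y hy
      rcases mem_insert.mp hy with h | h
      · rw [h]; exact hv
      · rcases mem_insert.mp h with h | h
        · rw [h]; exact hw
        · rw [hA] at h
          exact (mem_sdiff.mp h).1
    have hmono : ∀ U V : Finset ℕ, U ⊆ V → faces d U ⊆ faces d V := by
      intro U V hUV σ hσ
      obtain ⟨h1, h2⟩ := h22_mem_faces.mp hσ
      exact h22_mem_faces.mpr ⟨h1.trans hUV, h2⟩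
    have h1G : faces d (insert w A) ⊆ fc d n := hmono _ _ ((subset_insert _ _).trans hAn)
    have h2G : faces d (insert v A) ⊆ fc d n :=
      hmono _ _ ((insert_subset_insert _ (subset_insert _ _)).trans hAn)
    have h01 : faces d A ⊆ faces d (insert w A) := hmono _ _ (subset_insert _ _)
    have h02 : faces d A ⊆ faces d (insert v A) := hmono _ _ (subset_insert _ _)
    -- the number of faces
    have hcard : ∀ u, ((faces d (insert u A) \ faces d A).card : ℝ) * q ≤
        ((d : ℝ) + 3) * (n : ℝ) ^ (d - 1) := by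
      intro u
      have h1 : (faces d (insert u A) \ faces d A).card ≤ n ^ d := by
        refine (h22_card_new A u).trans ?_
        have h2 : A.card ≤ n := by
          have := card_le_card ((subset_insert _ _).trans ((subset_insert _ _).trans hAn) :
            A ⊆ range n)
          rwa [card_range] at this
        exact (Nat.choose_le_pow A.card d).trans (Nat.pow_le_pow_left h2 d)
      have h2 : ((faces d (insert u A) \ faces d A).card : ℝ) ≤ (n : ℝ) ^ d := by exact_mod_cast h1
      have h3 : (n : ℝ) ^ d = (n : ℝ) ^ (d - 1) * n := by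
        rw [← pow_succ]
        congr 1
        omega
      calc ((faces d (insert u A) \ faces d A).card : ℝ) * q ≤
          (n : ℝ) ^ d * (((d : ℝ) + 3) / n) := mul_le_mul h2 hq hq0 (by positivity)
        _ = ((d : ℝ) + 3) * (n : ℝ) ^ (d - 1) := by
          rw [h3]
          field_simp
    have hx' : x ≤ 4 * (((d : ℝ) + 3) * (n : ℝ) ^ (d - 1)) := by
      rw [← mul_assoc]
      exact hx
    rw [h22_Ex_prod (fc d n) (faces d A) (h01.trans h1G) q]
    have hbound : ∀ X0 ⊆ faces d A, Ex (fc d n \ faces d A) q (fun Y =>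
        ind (x ≤ |(R.nul ((X0 ∪ Y) ∩ faces d (insert w A)) : ℝ) -
          R.nul ((X0 ∪ Y) ∩ faces d (insert v A))|)) ≤
        4 * Real.exp (-(x ^ 2 / (16 * (((d : ℝ) + 3) * (n : ℝ) ^ (d - 1))))) := by
      intro X0 hX0
      obtain ⟨m, hm⟩ : ∃ m, m = Ex (faces d (insert w A) \ faces d A) q
          (fun Y => (R.nul (X0 ∪ Y) : ℝ)) := ⟨_, rfl⟩
      have hm2 : m = Ex (faces d (insert v A) \ faces d A) q
          (fun Y => (R.nul (X0 ∪ Y) : ℝ)) := by
        rw [← h22_image_new hvA hwA, Ex_image _ _ (h22_img_inj v w).injOn, hm]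
        refine Ex_congr _ _ _ _ fun Y _ => ?_
        have e3 : X0 ∪ Y.image (fun σ => σ.image (Equiv.swap v w)) =
            (X0 ∪ Y).image (fun σ => σ.image (Equiv.swap v w)) := by
          rw [image_union, h22_image_old hvA hwA hX0]
        rw [e3, h22_nul_swap hs]
      have t1 := h22_tail R (fc d n) (faces d A) (faces d (insert w A)) h01 h1G X0 hX0 q
        (((d : ℝ) + 3) * (n : ℝ) ^ (d - 1)) x hq0 hq1 hBpos (hcard w) hx0 hx' m hm
      have t2 := h22_tail R (fc d n) (faces d A) (faces d (insert v A)) h02 h2G X0 hX0 q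
        (((d : ℝ) + 3) * (n : ℝ) ^ (d - 1)) x hq0 hq1 hBpos (hcard v) hx0 hx' m hm2
      have hle : Ex (fc d n \ faces d A) q (fun Y =>
          ind (x ≤ |(R.nul ((X0 ∪ Y) ∩ faces d (insert w A)) : ℝ) -
            R.nul ((X0 ∪ Y) ∩ faces d (insert v A))|)) ≤
          Ex (fc d n \ faces d A) q (fun Y =>
            ind (x / 2 ≤ |(R.nul ((X0 ∪ Y) ∩ faces d (insert w A)) : ℝ) - m|) +
            ind (x / 2 ≤ |(R.nul ((X0 ∪ Y) ∩ faces d (insert v A)) : ℝ) - m|)) := by
        refine Ex_mono _ _ hq0 hq1 _ _ fun Y _ => ?_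
        refine (ind_mono ?_).trans (ind_or_le _ _)
        intro h
        by_contra hcon
        push Not at hcon
        obtain ⟨c1, c2⟩ := hcon
        have c3 := abs_sub_le (R.nul ((X0 ∪ Y) ∩ faces d (insert w A)) : ℝ) m
          (R.nul ((X0 ∪ Y) ∩ faces d (insert v A)) : ℝ)
        rw [abs_sub_comm m] at c3
        linarith
      rw [Ex_add] at hle
      linarith
    have hfin := Ex_le_const (faces d A) q hq0 hq1 _ _ hbound
    rw [mul_assoc 16]
    exact hfin

end FC
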