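import Pool.Agent.H92.FC.Defs2

/-!
# Counting exploration lists and the absence of small cores
-/

namespace FC

open Finset

theorem h40_cnt_le (ch : List (Finset ℕ) → Finset ℕ → Prop) :
    ∀ l : List (Finset ℕ), cnt ch l ≤ l.length - 1
  | [] => le_refl 0
  | [_] => le_refl 0
  | σ :: τ :: t => by
    have h1 := h40_cnt_le ch (τ :: t)
    simp only [cnt, List.length_cons] at *
    split_ifs <;> omega

theorem h40_exp_tail {d n : ℕ} {σ τ : Finset ℕ} {t : List (Finset ℕ)}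
    (h : Exp d n (σ :: τ :: t)) : Exp d n (τ :: t) := h.1

/-- The new face is the chosen open ridge plus a vertex. -/
theorem h40_exp_insert {d n : ℕ} {σ τ : Finset ℕ} {t : List (Finset ℕ)}
    (h : Exp d n (σ :: τ :: t)) :
    ∃ x ∈ range n, x ∉ opn d (τ :: t).toFinset ∧ x ∈ σ ∧
      σ = insert x (opn d (τ :: t).toFinset) := by
  obtain ⟨_, h2, _, h4, h5⟩ := h
  have h6 : σ.card = d + 1 := by
    unfold fc faces at h4
    exact (mem_powersetCard.1 h4).2
  have h7 : σ ⊆ range n := by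
    unfold fc faces at h4
    exact (mem_powersetCard.1 h4).1
  have h8 : (σ \ opn d (τ :: t).toFinset).card = 1 := by
    rw [card_sdiff_of_subset h5, h6, h2.1]
    omega
  obtain ⟨x, hx⟩ := card_eq_one.1 h8
  have hx1 : x ∈ σ \ opn d (τ :: t).toFinset := by rw [hx]; exact mem_singleton_self x
  rw [mem_sdiff] at hx1
  refine ⟨x, h7 hx1.1, hx1.2, hx1.1, ?_⟩
  rw [insert_eq, ← hx, sdiff_union_of_subset h5]

theorem h40_tree_nat (d n A K : ℕ) (ch : List (Finset ℕ) → Finset ℕ → Prop)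
    (hA : A ≤ n)
    (hch : ∀ t, Exp d n t → t.length ≤ K →
      ∀ P : Finset (Finset ℕ), (∀ σ ∈ P, Exp d n (σ :: t) ∧ ch t σ) → P.card ≤ A) :
    ∀ k c : ℕ, k ≤ K → c ≤ k → ∀ L : Finset (List (Finset ℕ)),
      (∀ l ∈ L, Exp d n l ∧ l.length = k + 1 ∧ c ≤ cnt ch l) →
      L.card ≤ n ^ (d + 1) * 2 ^ k * A ^ c * n ^ (k - c) := by
  classical
  intro k
  induction k with
  | zero =>
    intro c _ hc L hL
    have hc0 : c = 0 := by omega
    subst hc0
    have h1 : L ⊆ (fc d n).image (fun σ => [σ]) := by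
      intro l hl
      obtain ⟨h2, h3, _⟩ := hL l hl
      match l, h2, h3 with
      | [σ], h2, _ => exact mem_image.2 ⟨σ, h2, rfl⟩
    have h2 := (card_le_card h1).trans card_image_le
    have h3 : (fc d n).card ≤ n ^ (d + 1) := by
      unfold fc faces
      rw [card_powersetCard, card_range]
      exact Nat.choose_le_pow n (d + 1)
    simpa using h2.trans h3
  | succ k ih =>
    intro c hk hc L hL
    -- the two parts
    set L1 := L.filter (fun l => ∃ σ t, l = σ :: t ∧ ch t σ) with hL1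
    set L2 := L.filter (fun l => ¬ ∃ σ t, l = σ :: t ∧ ch t σ) with hL2
    have hsplit : L.card = L1.card + L2.card := by
      rw [hL1, hL2]
      exact (card_filter_add_card_filter_not _).symm
    have hshape : ∀ l ∈ L, ∃ σ τ t, l = σ :: τ :: t := by
      intro l hl
      obtain ⟨_, h3, _⟩ := hL l hl
      match l, h3 with
      | [_], h3 => simp at h3
      | σ :: τ :: t, _ => exact ⟨σ, τ, t, rfl⟩
    have htail : ∀ l ∈ L, Exp d n l.tail ∧ l.tail.length = k + 1 := by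
      intro l hl
      obtain ⟨σ, τ, t, rfl⟩ := hshape l hl
      obtain ⟨h2, h3, _⟩ := hL _ hl
      exact ⟨h40_exp_tail h2, by simpa using h3⟩
    -- fibres
    have hf1 : L1.card ≤ A * (L1.image List.tail).card := by
      apply card_le_mul_card_image
      intro t ht
      obtain ⟨l0, hl0, rfl⟩ := mem_image.1 ht
      have hl0' := mem_filter.1 hl0
      obtain ⟨ht1, ht2⟩ := htail l0 hl0'.1
      have h5 := hch l0.tail ht1 (by omega)
        ((L1.filter (fun l => l.tail = l0.tail)).image (fun l => l.headD ∅)) (by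
          intro σ hσ
          obtain ⟨l, hl, rfl⟩ := mem_image.1 hσ
          obtain ⟨hl1, hl2⟩ := mem_filter.1 hl
          obtain ⟨hl3, σ', t', rfl, hch'⟩ := mem_filter.1 hl1
          simp only [List.tail_cons] at hl2
          subst hl2
          exact ⟨(hL _ hl3).1, hch'⟩)
      rw [card_image_of_injOn] at h5
      · exact h5
      · intro l hl l' hl' hh
        rw [mem_coe, mem_filter] at hl hl'
        obtain ⟨σ, τ, t, rfl⟩ := hshape l (mem_filter.1 hl.1).1
        obtain ⟨σ', τ', t', rfl⟩ := hshape l' (mem_filter.1 hl'.1).1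
        have h6 := hl.2.trans hl'.2.symm
        simp only [List.tail_cons] at h6
        simp only [List.headD_cons] at hh
        rw [hh, h6]
    have hf2 : L2.card ≤ n * (L2.image List.tail).card := by
      apply card_le_mul_card_image
      intro t ht
      obtain ⟨l0, hl0, rfl⟩ := mem_image.1 ht
      have hl0' := mem_filter.1 hl0
      have h5 : L2.filter (fun l => l.tail = l0.tail) ⊆
          (range n).image (fun x => insert x (opn d l0.tail.toFinset) :: l0.tail) := by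
        intro l hl
        obtain ⟨hl1, hl2⟩ := mem_filter.1 hl
        obtain ⟨hl3, _⟩ := mem_filter.1 hl1
        obtain ⟨σ, τ, t, rfl⟩ := hshape l hl3
        simp only [List.tail_cons] at hl2
        rw [← hl2]
        obtain ⟨x, hx1, _, _, hx4⟩ := h40_exp_insert (hL _ hl3).1
        exact mem_image.2 ⟨x, hx1, by rw [← hx4]⟩
      have h6 := (card_le_card h5).trans card_image_le
      rwa [card_range] at h6
    have hc1 : ∀ l ∈ L1, c ≤ cnt ch l.tail + 1 := by
      intro l hl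
      obtain ⟨hl3, _⟩ := mem_filter.1 hl
      obtain ⟨σ, τ, t, rfl⟩ := hshape l hl3
      have h7 := (hL _ hl3).2.2
      simp only [cnt] at h7
      simp only [List.tail_cons]
      split_ifs at h7 <;> omega
    have hc2 : ∀ l ∈ L2, c ≤ cnt ch l.tail := by
      intro l hl
      obtain ⟨hl3, hl4⟩ := mem_filter.1 hl
      obtain ⟨σ, τ, t, rfl⟩ := hshape l hl3
      have h7 := (hL _ hl3).2.2
      have h8 : ¬ ch (τ :: t) σ := fun h => hl4 ⟨σ, _, rfl, h⟩
      simp only [cnt, if_neg h8] at h7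
      simpa using h7
    -- bound of the first part
    have hb1 : ∀ c', c' ≤ k → (∀ l ∈ L1, c' ≤ cnt ch l.tail) →
        (L1.image List.tail).card ≤ n ^ (d + 1) * 2 ^ k * A ^ c' * n ^ (k - c') := by
      intro c' hc' h7
      apply ih c' (by omega) hc'
      intro t ht
      obtain ⟨l, hl, rfl⟩ := mem_image.1 ht
      obtain ⟨e1, e2⟩ := htail l (mem_filter.1 hl).1
      exact ⟨e1, e2, h7 l hl⟩
    have hb2 : c ≤ k →
        (L2.image List.tail).card ≤ n ^ (d + 1) * 2 ^ k * A ^ c * n ^ (k - c) := by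
      intro hc'
      apply ih c (by omega) hc'
      intro t ht
      obtain ⟨l, hl, rfl⟩ := mem_image.1 ht
      obtain ⟨e1, e2⟩ := htail l (mem_filter.1 hl).1
      exact ⟨e1, e2, hc2 l hl⟩
    rcases Nat.eq_zero_or_pos c with hc0 | hc0
    · subst hc0
      have b1 := hb1 0 (by omega) (fun _ _ => Nat.zero_le _)
      have b2 := hb2 (by omega)
      simp only [pow_zero, mul_one, Nat.sub_zero] at *
      calc L.card ≤ A * (n ^ (d + 1) * 2 ^ k * n ^ k) + n * (n ^ (d + 1) * 2 ^ k * n ^ k) := by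
            rw [hsplit]
            exact Nat.add_le_add (hf1.trans (Nat.mul_le_mul_left _ b1))
              (hf2.trans (Nat.mul_le_mul_left _ b2))
        _ ≤ n * (n ^ (d + 1) * 2 ^ k * n ^ k) + n * (n ^ (d + 1) * 2 ^ k * n ^ k) := by gcongr
        _ = n ^ (d + 1) * 2 ^ (k + 1) * n ^ (k + 1) := by ring
    rcases Nat.lt_or_ge k c with hck | hck
    · have hce : c = k + 1 := by omega
      have hE : L2 = ∅ := by
        rw [eq_empty_iff_forall_notMem]
        intro l hl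
        have h9 := hc2 l hl
        have h10 := h40_cnt_le ch l.tail
        have h11 := (htail l (mem_filter.1 hl).1).2
        omega
      have b1 := hb1 k le_rfl (fun l hl => by have := hc1 l hl; omega)
      subst hce
      rw [hsplit, hE, card_empty, add_zero]
      calc L1.card ≤ A * (n ^ (d + 1) * 2 ^ k * A ^ k * n ^ (k - k)) :=
            hf1.trans (Nat.mul_le_mul_left _ b1)
        _ = n ^ (d + 1) * 2 ^ k * A ^ (k + 1) := by rw [Nat.sub_self]; ring
        _ ≤ n ^ (d + 1) * 2 ^ (k + 1) * A ^ (k + 1) :=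
            Nat.mul_le_mul_right _ (Nat.mul_le_mul_left _
              (Nat.pow_le_pow_right (by norm_num) (by omega)))
        _ = n ^ (d + 1) * 2 ^ (k + 1) * A ^ (k + 1) * n ^ (k + 1 - (k + 1)) := by
            rw [Nat.sub_self, pow_zero, mul_one]
    · obtain ⟨c', rfl⟩ : ∃ c', c = c' + 1 := ⟨c - 1, by omega⟩
      obtain ⟨j, rfl⟩ : ∃ j, k = c' + 1 + j := ⟨k - (c' + 1), by omega⟩
      have b1 := hb1 c' (by omega) (fun l hl => by have := hc1 l hl; omega)
      have b2 := hb2 (by omega)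
      have e1 : c' + 1 + j - c' = j + 1 := by omega
      have e2 : c' + 1 + j - (c' + 1) = j := by omega
      have e3 : c' + 1 + j + 1 - (c' + 1) = j + 1 := by omega
      rw [e1] at b1
      rw [e2] at b2
      rw [e3, hsplit]
      calc L1.card + L2.card
          ≤ A * (n ^ (d + 1) * 2 ^ (c' + 1 + j) * A ^ c' * n ^ (j + 1)) +
            n * (n ^ (d + 1) * 2 ^ (c' + 1 + j) * A ^ (c' + 1) * n ^ j) :=
            Nat.add_le_add (hf1.trans (Nat.mul_le_mul_left _ b1))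
              (hf2.trans (Nat.mul_le_mul_left _ b2))
        _ = n ^ (d + 1) * 2 ^ (c' + 1 + j + 1) * A ^ (c' + 1) * n ^ (j + 1) := by ring

theorem tree_count (d n k c A : ℕ) (ch : List (Finset ℕ) → Finset ℕ → Prop)
    (hA : A ≤ n) (hck : c ≤ k)
    (hch : ∀ t, Exp d n t → t.length ≤ k →
      ∀ P : Finset (Finset ℕ), (∀ σ ∈ P, Exp d n (σ :: t) ∧ ch t σ) → P.card ≤ A)
    (𝒮 : Finset (Finset (Finset ℕ)))
    (h𝒮 : ∀ S ∈ 𝒮, ∃ l, Exp d n l ∧ l.toFinset = S ∧ l.length = k + 1 ∧ c ≤ cnt ch l) :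
    (𝒮.card : ℝ) ≤ (n : ℝ) ^ (d + 1) * 2 ^ k * (A : ℝ) ^ c * (n : ℝ) ^ (k - c) := by
  classical
  choose! f hf1 hf2 hf3 hf4 using h𝒮
  have h1 : (𝒮.image f).card = 𝒮.card := by
    apply card_image_of_injOn
    intro S hS S' hS' hh
    rw [← hf2 S hS, ← hf2 S' hS', hh]
  have h2 := h40_tree_nat d n A k ch hA hch k c le_rfl hck (𝒮.image f) (by
    intro l hl
    obtain ⟨S, hS, rfl⟩ := mem_image.1 hl
    exact ⟨hf1 S hS, hf3 S hS, hf4 S hS⟩)
  rw [h1] at h2
  exact_mod_cast h2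

/-! ### Bernoulli expectations -/

theorem h40_Ex_mono {α : Type*} [DecidableEq α] (G : Finset α) {q : ℝ} (h0 : 0 ≤ q)
    (h1 : q ≤ 1) {f g : Finset α → ℝ} (h : ∀ X ⊆ G, f X ≤ g X) : Ex G q f ≤ Ex G q g := by
  unfold Ex
  apply sum_le_sum
  intro X hX
  have h2 : 0 ≤ q ^ X.card * (1 - q) ^ (G \ X).card :=
    mul_nonneg (pow_nonneg h0 _) (pow_nonneg (by linarith) _)
  exact mul_le_mul_of_nonneg_left (h X (mem_powerset.1 hX)) h2

theorem h40_Ex_sum {α ι : Type*} [DecidableEq α] (G : Finset α) (q : ℝ) (s : Finset ι)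
    (f : ι → Finset α → ℝ) : Ex G q (fun X => ∑ i ∈ s, f i X) = ∑ i ∈ s, Ex G q (f i) := by
  unfold Ex
  rw [sum_comm]
  exact sum_congr rfl fun X _ => mul_sum _ _ _

theorem h40_Ex_sub {α : Type*} [DecidableEq α] (G S : Finset α) (hS : S ⊆ G) (q : ℝ) :
    Ex G q (fun X => ind (S ⊆ X)) = q ^ S.card := by
  classical
  have h1 : Ex G q (fun X => ind (S ⊆ X)) =
      ∑ X ∈ Finset.Icc S G, q ^ X.card * (1 - q) ^ (G \ X).card := by
    unfold Ex ind
    have e1 : Finset.Icc S G = G.powerset.filter (fun X => S ⊆ X) := by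
      ext X
      simp only [Finset.mem_Icc, mem_filter, mem_powerset]
      exact and_comm
    rw [e1, sum_filter]
    apply sum_congr rfl
    intro X _
    by_cases h : S ⊆ X
    · simp [h]
    · simp [h]
  rw [h1, Icc_eq_image_powerset hS, sum_image]
  · have h2 : ∀ Y ∈ (G \ S).powerset, q ^ (S ∪ Y).card * (1 - q) ^ (G \ (S ∪ Y)).card =
        q ^ S.card * (q ^ Y.card * (1 - q) ^ ((G \ S).card - Y.card)) := by
      intro Y hY
      rw [mem_powerset] at hY
      have h3 : Disjoint S Y := (disjoint_sdiff (s := S) (t := G)).mono_right hY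
      have h4 : G \ (S ∪ Y) = (G \ S) \ Y := by
        ext z
        simp only [mem_sdiff, mem_union, not_or, and_assoc]
      rw [card_union_of_disjoint h3, h4, card_sdiff_of_subset (s := Y) hY]
      ring
    rw [sum_congr rfl h2, ← mul_sum, Finset.sum_pow_mul_eq_add_pow]
    simp
  · intro Y hY Y' hY' hh
    rw [mem_coe, mem_powerset] at hY hY'
    have h3 : Disjoint S Y := (disjoint_sdiff (s := S) (t := G)).mono_right hY
    have h4 : Disjoint S Y' := (disjoint_sdiff (s := S) (t := G)).mono_right hY'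
    simp only at hh
    have h5 : (S ∪ Y) \ S = (S ∪ Y') \ S := by rw [hh]
    rwa [union_sdiff_cancel_left h3, union_sdiff_cancel_left h4] at h5

/-! ### Counting small families -/

theorem h40_card_small {α : Type*} [DecidableEq α] (G : Finset α) (M : ℕ) :
    (G.powerset.filter (fun H => H.card ≤ M)).card ≤ (G.card + 1) ^ M := by
  induction M with
  | zero =>
    have h1 : G.powerset.filter (fun H => H.card ≤ 0) ⊆ {∅} := by
      intro H hH
      rw [mem_filter] at hH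
      rw [mem_singleton, ← card_eq_zero]
      omega
    simpa using card_le_card h1
  | succ M ih =>
    set F := G.powerset.filter (fun H => H.card ≤ M) with hF
    have h1 : G.powerset.filter (fun H => H.card ≤ M + 1) ⊆
        F ∪ (G ×ˢ F).image (fun p => insert p.1 p.2) := by
      intro H hH
      rw [mem_filter, mem_powerset] at hH
      rcases Nat.lt_or_ge M H.card with h | h
      · have hne : H.Nonempty := card_pos.1 (by omega)
        obtain ⟨a, ha⟩ := hne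
        apply mem_union_right
        refine mem_image.2 ⟨(a, H.erase a), ?_, insert_erase ha⟩
        rw [mem_product, hF, mem_filter, mem_powerset]
        refine ⟨hH.1 ha, (erase_subset _ _).trans hH.1, ?_⟩
        rw [card_erase_of_mem ha]
        omega
      · apply mem_union_left
        rw [hF, mem_filter, mem_powerset]
        exact ⟨hH.1, h⟩
    calc (G.powerset.filter (fun H => H.card ≤ M + 1)).card
        ≤ F.card + ((G ×ˢ F).image (fun p => insert p.1 p.2)).card :=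
          (card_le_card h1).trans (card_union_le _ _)
      _ ≤ F.card + G.card * F.card := by
          gcongr
          exact card_image_le.trans (card_product _ _).le
      _ = (G.card + 1) * F.card := by ring
      _ ≤ (G.card + 1) * (G.card + 1) ^ M := Nat.mul_le_mul_left _ ih
      _ = (G.card + 1) ^ (M + 1) := by ring

/-! ### Old steps -/

theorem h40_vts {d n : ℕ} : ∀ t : List (Finset ℕ), Exp d n t →
    (t.toFinset.biUnion id).card ≤ t.length + d
  | [], h => h.elim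
  | [σ], h => by
    have h1 : σ.card = d + 1 := by
      unfold Exp fc faces at h
      exact (mem_powersetCard.1 h).2
    simp only [List.toFinset_cons, List.toFinset_nil, insert_empty_eq, singleton_biUnion, id,
      List.length_singleton]
    omega
  | σ :: τ :: t, h => by
    have ih := h40_vts (τ :: t) h.1
    obtain ⟨x, _, _, _, hx⟩ := h40_exp_insert h
    obtain ⟨τ', hτ'⟩ := card_eq_one.1 h.2.1.2
    have h1 : τ' ∈ (τ :: t).toFinset.filter (fun τ' => opn d (τ :: t).toFinset ⊆ τ') := by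
      rw [hτ']
      exact mem_singleton_self _
    rw [mem_filter] at h1
    have h2 : (σ :: τ :: t).toFinset.biUnion id ⊆ insert x ((τ :: t).toFinset.biUnion id) := by
      intro y hy
      rw [mem_biUnion] at hy
      obtain ⟨ρ, hρ, hy⟩ := hy
      rw [List.toFinset_cons, mem_insert] at hρ
      rcases hρ with rfl | hρ
      · have hy' : y ∈ insert x (opn d (τ :: t).toFinset) := hx ▸ hy
        rw [mem_insert] at hy' ⊢
        rcases hy' with h3 | h3
        · exact Or.inl h3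
        · exact Or.inr (mem_biUnion.2 ⟨τ', h1.1, h1.2 h3⟩)
      · exact mem_insert_of_mem (mem_biUnion.2 ⟨ρ, hρ, hy⟩)
    calc ((σ :: τ :: t).toFinset.biUnion id).card
        ≤ (insert x ((τ :: t).toFinset.biUnion id)).card := card_le_card h2
      _ ≤ ((τ :: t).toFinset.biUnion id).card + 1 := card_insert_le _ _
      _ ≤ (σ :: τ :: t).length + d := by
          simp only [List.length_cons] at *
          omega

theorem h40_old_count (d n k : ℕ) : ∀ t, Exp d n t → t.length ≤ k →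
      ∀ P : Finset (Finset ℕ), (∀ σ ∈ P, Exp d n (σ :: t) ∧ OldStep t σ) →
        P.card ≤ k + d := by
  intro t ht hk P hP
  have h1 : P ⊆ (t.toFinset.biUnion id).image (fun x => insert x (opn d t.toFinset)) := by
    intro σ hσ
    obtain ⟨h2, h3⟩ := hP σ hσ
    match t, ht, h2, h3 with
    | τ :: t, _, h2, h3 =>
      obtain ⟨x, _, _, hx3, hx4⟩ := h40_exp_insert h2
      obtain ⟨ρ, hρ, hx⟩ := h3 x hx3
      exact mem_image.2 ⟨x, mem_biUnion.2 ⟨ρ, List.mem_toFinset.2 hρ, hx⟩, hx4.symm⟩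
  have h2 := h40_vts t ht
  have h3 := (card_le_card h1).trans card_image_le
  omega

/-! ### Cheap steps -/

theorem h40_cheap_count (d n e k : ℕ) (H : Finset (Finset ℕ)) : ∀ t, Exp d n t → t.length ≤ k →
      ∀ P : Finset (Finset ℕ), (∀ σ ∈ P, Exp d n (σ :: t) ∧ CheapStep d n e H t σ) →
        P.card ≤ 2 ^ (d + 1) * e := by
  classical
  intro t ht _ P hP
  rcases P.eq_empty_or_nonempty with rfl | ⟨σ0, hσ0⟩
  · simp
  have hfc : (opn d t.toFinset).card = d := by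
    obtain ⟨h2, _⟩ := hP σ0 hσ0
    match t, ht, h2 with
    | τ :: t, _, h2 => exact h2.2.1.1
  set f := opn d t.toFinset with hf
  set A1 : Finset ℕ → Finset ℕ := fun h =>
    if ((range n).filter (fun y => y ∉ h ∧ insert y h ∈ H)).card ≤ e then
      (range n).filter (fun y => y ∉ h ∧ insert y h ∈ H) else ∅ with hA1
  set A2 : Finset ℕ → Finset ℕ := fun h =>
    if ((range n).filter (fun y => y ∉ h ∧ ∃ τ ∈ t.toFinset, insert y h ⊆ τ)).card ≤ e then
      (range n).filter (fun y => y ∉ h ∧ ∃ τ ∈ t.toFinset, insert y h ⊆ τ) else ∅ with hA2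
  have c1 : ∀ h, (A1 h).card ≤ e := by
    intro h
    simp only [hA1]
    split_ifs with h1
    · exact h1
    · simp
  have c2 : ∀ h, (A2 h).card ≤ e := by
    intro h
    simp only [hA2]
    split_ifs with h1
    · exact h1
    · simp
  have hsub : P ⊆ f.powerset.biUnion (fun h => (A1 h ∪ A2 h).image (fun x => insert x f)) := by
    intro σ hσ
    obtain ⟨h2, h, hh, x, hx1, hx2, hx3⟩ := hP σ hσ
    have hxn : x ∈ range n := by
      match t, ht, h2, hx2 with
      | τ :: t, _, h2, hx2 =>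
        have h4 := h2.2.2.2.1
        unfold fc faces at h4
        apply (mem_powersetCard.1 h4).1
        rw [hx2]
        exact mem_insert_self _ _
    have hxh : x ∉ h := fun hxh => hx1 (hh hxh)
    refine mem_biUnion.2 ⟨h, mem_powerset.2 hh, mem_image.2 ⟨x, ?_, hx2.symm⟩⟩
    rcases hx3 with ⟨_, h5, h6⟩ | ⟨_, _, h5, h6⟩
    · apply mem_union_left
      simp only [hA1]
      rw [if_pos h5, mem_filter]
      exact ⟨hxn, hxh, h6⟩
    · apply mem_union_right
      simp only [hA2]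
      rw [if_pos h5, mem_filter]
      exact ⟨hxn, hxh, h6⟩
  calc P.card ≤ ∑ h ∈ f.powerset, ((A1 h ∪ A2 h).image (fun x => insert x f)).card :=
        (card_le_card hsub).trans card_biUnion_le
    _ ≤ ∑ h ∈ f.powerset, 2 * e := by
        apply sum_le_sum
        intro h _
        have := c1 h
        have := c2 h
        have h3 := card_union_le (A1 h) (A2 h)
        exact card_image_le.trans (by omega)
    _ = 2 ^ (d + 1) * e := by
        rw [sum_const, card_powerset, hfc, smul_eq_mul]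
        ring

/-! ### Estimates -/

theorem h40_exp_four (x : ℕ) : Real.exp x ≤ 4 ^ x := by
  have h1 : Real.exp (x : ℝ) = Real.exp 1 ^ x := by
    rw [← Real.exp_nat_mul, mul_one]
  rw [h1]
  have h2 := Real.exp_one_lt_d9
  exact pow_le_pow_left₀ (Real.exp_pos _).le (by linarith) _

theorem h40_small_term (d e j n : ℕ) (C q : ℝ) (hC : 1 ≤ C) (hq0 : 0 ≤ q)
    (hq : q ≤ C / n) (hc2 : d + 1 + e + j ≤ 4 * (d + 1 + e)) (hn : 0 < n)
    (hkn : (d + 1 + e + j + 1) ^ 2 ≤ n) (hbig : ((16 * C) ^ 4 * (d + 1)) ^ 2 ≤ (n : ℝ)) :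
    (n : ℝ) ^ (d + 1) * 2 ^ (d + 1 + e + j) * ((d + 1 + e + j + d : ℕ) : ℝ) ^ (d + 1 + e) *
      (n : ℝ) ^ j * q ^ (d + 1 + e + j + 1) ≤
      (C * (16 * C) ^ (4 * (d + 1)) * (d + 1).factorial * 4 ^ d) *
        (1 / 2) ^ (d + 1 + e + j) / n := by
  set k := d + 1 + e + j with hk
  have hN : (0 : ℝ) < n := by exact_mod_cast hn
  set N : ℝ := (n : ℝ) with hNd
  set x : ℝ := ((k + d : ℕ) : ℝ) with hx
  have hx0 : 0 ≤ x := by positivity
  have h1 : q ^ (k + 1) ≤ (C / N) ^ (k + 1) := pow_le_pow_left₀ hq0 hq _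
  have h2 : N ^ (d + 1) * 2 ^ k * x ^ (d + 1 + e) * N ^ j * (C / N) ^ (k + 1) =
      C * ((2 * C) ^ k * (x / N) ^ e) * x ^ (d + 1) / N := by
    rw [hk, div_pow, div_pow, mul_pow]
    field_simp
    ring
  have h3 : (16 * C) ^ 4 * x ≤ N := by
    have a1 : x ≤ ((d : ℝ) + 1) * (k + 1) := by
      rw [hx]
      push_cast
      have : (0 : ℝ) ≤ (d : ℝ) * k := by positivity
      nlinarith
    have a2 : ((16 * C) ^ 4 * (d + 1)) * ((k : ℝ) + 1) ≤ N := by
      have a3 : (((k : ℝ) + 1)) ^ 2 ≤ N := by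
        rw [hNd]
        exact_mod_cast hkn
      apply abs_le_of_sq_le_sq' _ hN.le |>.2
      calc (((16 * C) ^ 4 * (d + 1)) * ((k : ℝ) + 1)) ^ 2
          = ((16 * C) ^ 4 * (d + 1)) ^ 2 * ((k : ℝ) + 1) ^ 2 := by ring
        _ ≤ N * N := mul_le_mul hbig a3 (by positivity) hN.le
        _ = N ^ 2 := by ring
    calc (16 * C) ^ 4 * x ≤ (16 * C) ^ 4 * (((d : ℝ) + 1) * (k + 1)) := by
          gcongr
      _ = ((16 * C) ^ 4 * (d + 1)) * ((k : ℝ) + 1) := by ring
      _ ≤ N := a2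
  have h4 : (2 * C) ^ 4 * (x / N) ≤ (1 / 8) ^ 4 := by
    rw [mul_div_assoc', div_le_iff₀ hN]
    have : (16 * C) ^ 4 = 8 ^ 4 * (2 * C) ^ 4 := by ring
    rw [this] at h3
    linarith
  have h5 : (2 * C) ^ k ≤ (2 * C) ^ (4 * (d + 1 + e)) :=
    pow_le_pow_right₀ (by linarith) hc2
  have h6 : (2 * C) ^ k * (x / N) ^ e ≤ (2 * C) ^ (4 * (d + 1)) * (1 / 8) ^ (4 * e) := by
    calc (2 * C) ^ k * (x / N) ^ e ≤ (2 * C) ^ (4 * (d + 1 + e)) * (x / N) ^ e := by
          gcongr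
      _ = (2 * C) ^ (4 * (d + 1)) * ((2 * C) ^ 4 * (x / N)) ^ e := by
          rw [mul_add 4 (d + 1) e, pow_add, mul_pow ((2 * C) ^ 4), ← pow_mul (2 * C) 4 e,
            mul_assoc]
      _ ≤ (2 * C) ^ (4 * (d + 1)) * ((1 / 8) ^ 4) ^ e := by
          gcongr
      _ = (2 * C) ^ (4 * (d + 1)) * (1 / 8) ^ (4 * e) := by rw [← pow_mul (1 / 8 : ℝ) 4 e]
  have h7 : ((1 : ℝ) / 8) ^ (4 * e) ≤ 8 ^ (4 * (d + 1)) * (1 / 8) ^ k := by
    have a1 : ((1 : ℝ) / 8) ^ (4 * (d + 1 + e)) ≤ (1 / 8) ^ k :=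
      pow_le_pow_of_le_one (by norm_num) (by norm_num) hc2
    calc ((1 : ℝ) / 8) ^ (4 * e) = 8 ^ (4 * (d + 1)) * (1 / 8) ^ (4 * (d + 1 + e)) := by
          rw [mul_add 4 (d + 1) e, pow_add, ← mul_assoc, ← mul_pow]
          norm_num
      _ ≤ 8 ^ (4 * (d + 1)) * (1 / 8) ^ k := by gcongr
  have h8 : x ^ (d + 1) ≤ (d + 1).factorial * 4 ^ (k + d) := by
    have a1 := Real.pow_div_factorial_le_exp x hx0 (d + 1)
    rw [div_le_iff₀ (by positivity)] at a1
    have a2 : Real.exp x ≤ 4 ^ (k + d) := h40_exp_four (k + d)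
    calc x ^ (d + 1) ≤ Real.exp x * (d + 1).factorial := a1
      _ ≤ 4 ^ (k + d) * (d + 1).factorial := by gcongr
      _ = (d + 1).factorial * 4 ^ (k + d) := by ring
  have h9 : (2 * C) ^ k * (x / N) ^ e ≤
      (2 * C) ^ (4 * (d + 1)) * (8 ^ (4 * (d + 1)) * (1 / 8) ^ k) :=
    h6.trans (by gcongr)
  calc N ^ (d + 1) * 2 ^ k * x ^ (d + 1 + e) * N ^ j * q ^ (k + 1)
      ≤ N ^ (d + 1) * 2 ^ k * x ^ (d + 1 + e) * N ^ j * (C / N) ^ (k + 1) := by gcongr
    _ = C * ((2 * C) ^ k * (x / N) ^ e) * x ^ (d + 1) / N := h2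
    _ ≤ C * ((2 * C) ^ (4 * (d + 1)) * (8 ^ (4 * (d + 1)) * (1 / 8) ^ k)) *
        ((d + 1).factorial * 4 ^ (k + d)) / N :=
        div_le_div_of_nonneg_right (mul_le_mul (mul_le_mul_of_nonneg_left h9 (by linarith)) h8
          (by positivity) (by positivity)) hN.le
    _ = (C * (16 * C) ^ (4 * (d + 1)) * (d + 1).factorial * 4 ^ d) * (1 / 2) ^ k / N := by
        have a1 : (16 * C) ^ (4 * (d + 1)) = (2 * C) ^ (4 * (d + 1)) * 8 ^ (4 * (d + 1)) := by
          rw [← mul_pow]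
          congr 1
          ring
        have a2 : ((1 : ℝ) / 2) ^ k = (1 / 8) ^ k * 4 ^ k := by
          rw [← mul_pow]
          norm_num
        rw [a1, a2, pow_add]
        ring

theorem h40_large_term (d k c n M A D : ℕ) (C C' q u : ℝ) (hC : 1 ≤ C)
    (hq0 : 0 ≤ q) (hq : q ≤ C / n) (hn : 0 < n) (hu0 : 0 ≤ u)
    (hu : (2 * C) ^ D * u = Real.exp (-3) ^ D)
    (hA : (A : ℝ) ≤ u * n) (hc : k + 1 ≤ D * (c + 1)) (hck : c ≤ k)
    (hM : (M : ℝ) ≤ C' * (k + 1) / n) (hlog : C' * d * Real.log (n + 1) ≤ n)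
    (hkn : n < (k + 1) ^ 2) :
    (((n : ℝ) + 1) ^ d) ^ M * ((n : ℝ) ^ (d + 1) * 2 ^ k * (A : ℝ) ^ c * (n : ℝ) ^ (k - c)) *
      q ^ (k + 1) ≤
      (C * (2 * C) ^ D * Real.exp 3 ^ D * (2 * d + 2).factorial) * (1 / 2) ^ k / n := by
  obtain ⟨j, rfl⟩ := Nat.exists_eq_add_of_le hck
  rw [Nat.add_sub_cancel_left]
  set k := c + j with hk
  have hN : (0 : ℝ) < n := by exact_mod_cast hn
  set N : ℝ := (n : ℝ) with hNd
  have h1 : q ^ (k + 1) ≤ (C / N) ^ (k + 1) := pow_le_pow_left₀ hq0 hq _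
  have h2 : N ^ (d + 1) * 2 ^ k * (u * N) ^ c * N ^ j * (C / N) ^ (k + 1) =
      N ^ d * C * ((2 * C) ^ k * u ^ c) := by
    rw [hk, div_pow, mul_pow, mul_pow]
    field_simp
    ring
  have h3 : (2 * C) ^ k * u ^ c ≤ (2 * C) ^ D * Real.exp (-3) ^ (D * c) := by
    calc (2 * C) ^ k * u ^ c ≤ (2 * C) ^ (D * (c + 1)) * u ^ c := by
          gcongr
          · linarith
          · omega
      _ = (2 * C) ^ D * ((2 * C) ^ D * u) ^ c := by
          rw [mul_add, mul_one, pow_add, pow_mul, mul_pow]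
          ring
      _ = (2 * C) ^ D * Real.exp (-3) ^ (D * c) := by
          rw [hu, ← pow_mul]
  have h4 : Real.exp (-3) ^ (D * c) ≤ Real.exp 3 ^ D * Real.exp (-3) ^ (k + 1) := by
    have a1 : Real.exp (-3) ^ (D * (c + 1)) ≤ Real.exp (-3) ^ (k + 1) :=
      pow_le_pow_of_le_one (Real.exp_pos _).le (Real.exp_le_one_iff.2 (by norm_num)) hc
    calc Real.exp (-3) ^ (D * c) = Real.exp 3 ^ D * Real.exp (-3) ^ (D * (c + 1)) := by
          rw [mul_add, mul_one, pow_add, mul_comm (Real.exp (-3) ^ (D * c)), ← mul_assoc,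
            ← mul_pow, ← Real.exp_add]
          norm_num
      _ ≤ Real.exp 3 ^ D * Real.exp (-3) ^ (k + 1) := by gcongr
  have h5 : ((N + 1) ^ d) ^ M ≤ Real.exp (k + 1) := by
    have a1 : (0 : ℝ) < N + 1 := by linarith
    have a2 : ((N + 1) ^ d) ^ M = Real.exp (M * d * Real.log (N + 1)) := by
      rw [← pow_mul, mul_comm d M, ← Real.rpow_natCast, Real.rpow_def_of_pos a1]
      push_cast
      congr 1
      ring
    rw [a2, Real.exp_le_exp]
    have a3 : 0 ≤ Real.log (N + 1) := Real.log_nonneg (by linarith)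
    calc (M : ℝ) * d * Real.log (N + 1) ≤ (C' * (k + 1) / N) * d * Real.log (N + 1) := by
          gcongr
      _ = ((k : ℝ) + 1) / N * (C' * d * Real.log (N + 1)) := by ring
      _ ≤ ((k : ℝ) + 1) / N * N := by gcongr
      _ = k + 1 := by field_simp
  have h6 : N ^ (d + 1) ≤ (2 * d + 2).factorial * Real.exp (k + 1) := by
    have a1 : N ≤ ((k : ℝ) + 1) ^ 2 := by
      rw [hNd]
      exact_mod_cast hkn.le
    have a2 := Real.pow_div_factorial_le_exp ((k : ℝ) + 1) (by positivity) (2 * d + 2)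
    rw [div_le_iff₀ (by positivity)] at a2
    calc N ^ (d + 1) ≤ (((k : ℝ) + 1) ^ 2) ^ (d + 1) := by gcongr
      _ = ((k : ℝ) + 1) ^ (2 * d + 2) := by rw [← pow_mul]; congr 1
      _ ≤ Real.exp (k + 1) * (2 * d + 2).factorial := a2
      _ = (2 * d + 2).factorial * Real.exp (k + 1) := by ring
  have h7 : Real.exp (k + 1) = Real.exp 1 ^ (k + 1) := by
    rw [← Real.exp_nat_mul, mul_one]
    push_cast
    rfl
  have h8 : N ^ d ≤ (2 * d + 2).factorial * Real.exp (k + 1) / N := by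
    rw [le_div_iff₀ hN]
    calc N ^ d * N = N ^ (d + 1) := by ring
      _ ≤ _ := h6
  have h9 : Real.exp 1 ^ (k + 1) * (Real.exp (-3) ^ (k + 1) * Real.exp 1 ^ (k + 1)) ≤
      (1 / 2) ^ k := by
    rw [← mul_pow, ← mul_pow, ← Real.exp_add, ← Real.exp_add]
    have a1 : Real.exp (1 + (-3 + 1)) ≤ 1 / 2 := by
      have b1 : (1 : ℝ) + (-3 + 1) = -1 := by norm_num
      rw [b1, Real.exp_neg, ← one_div]
      apply one_div_le_one_div_of_le (by norm_num)
      have := Real.exp_one_gt_d9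
      linarith
    calc Real.exp (1 + (-3 + 1)) ^ (k + 1) ≤ (1 / 2) ^ (k + 1) :=
          pow_le_pow_left₀ (Real.exp_pos _).le a1 _
      _ ≤ (1 / 2) ^ k := pow_le_pow_of_le_one (by norm_num) (by norm_num) (by omega)
  have h10 : (2 * C) ^ k * u ^ c ≤
      (2 * C) ^ D * (Real.exp 3 ^ D * Real.exp (-3) ^ (k + 1)) :=
    h3.trans (by gcongr)
  calc ((N + 1) ^ d) ^ M * (N ^ (d + 1) * 2 ^ k * (A : ℝ) ^ c * N ^ j) * q ^ (k + 1)
      ≤ ((N + 1) ^ d) ^ M * (N ^ (d + 1) * 2 ^ k * (u * N) ^ c * N ^ j) *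
        (C / N) ^ (k + 1) := by gcongr
    _ = ((N + 1) ^ d) ^ M * (N ^ (d + 1) * 2 ^ k * (u * N) ^ c * N ^ j * (C / N) ^ (k + 1)) := by
        ring
    _ = ((N + 1) ^ d) ^ M * (N ^ d * C * ((2 * C) ^ k * u ^ c)) := by rw [h2]
    _ ≤ Real.exp (k + 1) * (((2 * d + 2).factorial * Real.exp (k + 1) / N) * C *
        ((2 * C) ^ D * (Real.exp 3 ^ D * Real.exp (-3) ^ (k + 1)))) :=
        mul_le_mul h5 (mul_le_mul (mul_le_mul_of_nonneg_right h8 (by linarith)) h10
          (by positivity) (by positivity)) (by positivity) (Real.exp_pos _).le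
    _ = (C * (2 * C) ^ D * Real.exp 3 ^ D * (2 * d + 2).factorial) *
        (Real.exp 1 ^ (k + 1) * (Real.exp (-3) ^ (k + 1) * Real.exp 1 ^ (k + 1))) / N := by
        rw [h7]
        ring
    _ ≤ (C * (2 * C) ^ D * Real.exp 3 ^ D * (2 * d + 2).factorial) * (1 / 2) ^ k / N := by
        gcongr

/-! ### Assembly -/

/-- Minimal cores without simplex boundary of size `k+1`. -/
noncomputable def h40T (d n : ℕ) (ρ : ℝ) (k : ℕ) : Finset (Finset (Finset ℕ)) := by
  classical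
  exact (fc d n).powerset.filter (fun S => (MinCore S ∧ ¬ HasBd d S ∧
    (S.card : ℝ) ≤ ρ * (n : ℝ) ^ d) ∧ S.card = k + 1)

theorem h40_mem_T {d n : ℕ} {ρ : ℝ} {k : ℕ} {S : Finset (Finset ℕ)} :
    S ∈ h40T d n ρ k ↔ S ⊆ fc d n ∧ (MinCore S ∧ ¬ HasBd d S ∧
    (S.card : ℝ) ≤ ρ * (n : ℝ) ^ d) ∧ S.card = k + 1 := by
  classical
  unfold h40T
  rw [mem_filter, mem_powerset]

theorem h40_union (d n : ℕ) (ρ q : ℝ) (hq0 : 0 ≤ q) (hq1 : q ≤ 1)
    (exists_minCore : ∀ (S : Finset (Finset ℕ)) (_ : S.Nonempty) (_ : Core S),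
      ∃ T ⊆ S, MinCore T) :
    Ex (fc d n) q (fun X => ind (∃ S ⊆ X, S.Nonempty ∧ Core S ∧ ¬ HasBd d S ∧
        (S.card : ℝ) ≤ ρ * (n : ℝ) ^ d)) ≤
      ∑ k ∈ range (fc d n).card, ((h40T d n ρ k).card : ℝ) * q ^ (k + 1) := by
  classical
  have h1 : Ex (fc d n) q (fun X => ind (∃ S ⊆ X, S.Nonempty ∧ Core S ∧ ¬ HasBd d S ∧
        (S.card : ℝ) ≤ ρ * (n : ℝ) ^ d)) ≤
      Ex (fc d n) q (fun X => ∑ k ∈ range (fc d n).card, ∑ S ∈ h40T d n ρ k, ind (S ⊆ X)) := by
    apply h40_Ex_mono _ hq0 hq1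
    intro X hX
    have h0 : ∀ S : Finset (Finset ℕ), 0 ≤ ind (S ⊆ X) := by
      intro S
      unfold ind
      split_ifs <;> norm_num
    by_cases h : ∃ S ⊆ X, S.Nonempty ∧ Core S ∧ ¬ HasBd d S ∧ (S.card : ℝ) ≤ ρ * (n : ℝ) ^ d
    · obtain ⟨S, hSX, hS1, hS2, hS3, hS4⟩ := h
      obtain ⟨T, hTS, hT⟩ := exists_minCore S hS1 hS2
      have hTc : 0 < T.card := card_pos.2 hT.1
      have hTX : T ⊆ X := hTS.trans hSX
      have hTle : T.card ≤ (fc d n).card := card_le_card (hTX.trans hX)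
      have hmem : T ∈ h40T d n ρ (T.card - 1) := by
        rw [h40_mem_T]
        refine ⟨hTX.trans hX, ⟨hT, ?_, ?_⟩, by omega⟩
        · rintro ⟨W, hW1, hW2⟩
          exact hS3 ⟨W, hW1, hW2.trans hTS⟩
        · refine le_trans ?_ hS4
          exact_mod_cast card_le_card hTS
      have e1 : (1 : ℝ) = ind (T ⊆ X) := by unfold ind; rw [if_pos hTX]
      calc ind _ ≤ (1 : ℝ) := by unfold ind; split_ifs <;> norm_num
        _ = ind (T ⊆ X) := e1
        _ ≤ ∑ S ∈ h40T d n ρ (T.card - 1), ind (S ⊆ X) :=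
            single_le_sum (f := fun S => ind (S ⊆ X)) (fun S _ => h0 S) hmem
        _ ≤ _ := single_le_sum (f := fun k => ∑ S ∈ h40T d n ρ k, ind (S ⊆ X))
            (fun k _ => sum_nonneg fun S _ => h0 S) (mem_range.2 (by omega))
    · have e1 : ind (∃ S ⊆ X, S.Nonempty ∧ Core S ∧ ¬ HasBd d S ∧
          (S.card : ℝ) ≤ ρ * (n : ℝ) ^ d) = 0 := by
        unfold ind
        rw [if_neg h]
      rw [e1]
      exact sum_nonneg fun k _ => sum_nonneg fun S _ => h0 S
  refine h1.trans ?_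
  rw [h40_Ex_sum]
  apply sum_le_sum
  intro k _
  rw [h40_Ex_sum]
  have h2 : ∀ S ∈ h40T d n ρ k, Ex (fc d n) q (fun X => ind (S ⊆ X)) = q ^ (k + 1) := by
    intro S hS
    rw [h40_mem_T] at hS
    rw [h40_Ex_sub _ _ hS.1, hS.2.2]
  rw [sum_congr rfl h2, sum_const, nsmul_eq_mul]

theorem h40_small (d n k : ℕ) (ρ C q : ℝ) (hC : 1 ≤ C) (hq0 : 0 ≤ q) (hq : q ≤ C / n)
    (hn : 0 < n) (hkn : (k + 1) ^ 2 ≤ n) (hbig : ((16 * C) ^ 4 * (d + 1)) ^ 2 ≤ (n : ℝ))
    (hd : 2 ≤ d)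
    (exists_exp : ∀ (d n : ℕ) (S : Finset (Finset ℕ)) (_ : S ⊆ fc d n) (_ : MinCore S),
      ∃ l, Exp d n l ∧ l.toFinset = S ∧ l.length = S.card)
    (small_old : ∀ (d : ℕ) (_ : 2 ≤ d) (n : ℕ) (S : Finset (Finset ℕ)) (_ : S ⊆ fc d n)
      (_ : S.Nonempty) (_ : Core S) (_ : ¬ HasBd d S) (l : List (Finset ℕ)) (_ : Exp d n l)
      (_ : l.toFinset = S), d + 1 ≤ cnt OldStep l ∧ S.card ≤ 4 * cnt OldStep l + 1) :
    ((h40T d n ρ k).card : ℝ) * q ^ (k + 1) ≤
      (C * (16 * C) ^ (4 * (d + 1)) * (d + 1).factorial * 4 ^ d) * (1 / 2) ^ k / n := by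
  classical
  have hC0 : 0 < C := by linarith
  rcases (h40T d n ρ k).eq_empty_or_nonempty with h | ⟨S0, hS0⟩
  · rw [h, card_empty, Nat.cast_zero, zero_mul]
    positivity
  set c := max (d + 1) ((k + 3) / 4) with hc
  have key : ∀ S ∈ h40T d n ρ k, ∃ l, Exp d n l ∧ l.toFinset = S ∧ l.length = k + 1 ∧
      c ≤ cnt OldStep l := by
    intro S hS
    rw [h40_mem_T] at hS
    obtain ⟨h1, ⟨h2, h3, _⟩, h5⟩ := hS
    obtain ⟨l, hl1, hl2, hl3⟩ := exists_exp d n S h1 h2
    obtain ⟨h6, h7⟩ := small_old d hd n S h1 h2.1 h2.2.1 h3 l hl1 hl2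
    refine ⟨l, hl1, hl2, by omega, ?_⟩
    rw [hc]
    apply max_le h6
    omega
  have hck : c ≤ k := by
    obtain ⟨l, _, _, h3, h4⟩ := key S0 hS0
    have := h40_cnt_le OldStep l
    omega
  have hd1 : d + 1 ≤ c := le_max_left _ _
  have hk4 : k ≤ 4 * c := by
    have : (k + 3) / 4 ≤ c := le_max_right _ _
    omega
  have hkd : k + d ≤ n := by
    have a1 : (((d + 1) ^ 2 : ℕ) : ℝ) ≤ n := by
      refine le_trans ?_ hbig
      push_cast
      have a2 : (1 : ℝ) ≤ (16 * C) ^ 4 := one_le_pow₀ (by linarith)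
      gcongr
      nlinarith [(by positivity : (0 : ℝ) ≤ (d : ℝ))]
    have a3 : (d + 1) ^ 2 ≤ n := by exact_mod_cast a1
    nlinarith [Nat.mul_le_mul hkn a3, sq_nonneg ((k : ℤ) - d)]
  have h1 := tree_count d n k c (k + d) OldStep hkd hck (h40_old_count d n k) _ key
  obtain ⟨e, he⟩ := Nat.exists_eq_add_of_le hd1
  obtain ⟨j, hj⟩ := Nat.exists_eq_add_of_le hck
  have hkj : k - c = j := by omega
  rw [hkj] at h1
  have h2 := h40_small_term d e j n C q hC hq0 hq (by omega) hn (by rw [← he, ← hj]; exact hkn)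
    hbig
  rw [← he, ← hj] at h2
  refine le_trans ?_ h2
  gcongr

theorem h40_large (d n k D n0 : ℕ) (ρ C C' ε q u : ℝ) (hC : 1 ≤ C) (hC' : 0 < C') (hq0 : 0 ≤ q)
    (hq : q ≤ C / n) (hd : 2 ≤ d)
    (hn : 0 < n) (hkn : n < (k + 1) ^ 2) (hD : D = 4 * (d + 2)) (hu0 : 0 ≤ u) (hu1 : u ≤ 1)
    (hu : (2 * C) ^ D * u = Real.exp (-3) ^ D) (hε : ε = u / 2 ^ (d + 1))
    (hlog : C' * d * Real.log (n + 1) ≤ n) (hn0 : n0 ≤ n)
    (exists_exp : ∀ (d n : ℕ) (S : Finset (Finset ℕ)) (_ : S ⊆ fc d n) (_ : MinCore S),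
      ∃ l, Exp d n l ∧ l.toFinset = S ∧ l.length = S.card)
    (cheap : ∀ n ≥ n0, ∀ S ⊆ fc d n, S.Nonempty → Core S →
      (S.card : ℝ) ≤ ρ * (n : ℝ) ^ d → ∀ l, Exp d n l → l.toFinset = S →
      ∃ H : Finset (Finset ℕ), (∀ h ∈ H, h ⊆ range n ∧ 1 ≤ h.card ∧ h.card + 1 ≤ d) ∧
        (H.card : ℝ) ≤ C' * S.card / n ∧
        S.card ≤ 4 * (d + 2) * (cnt (CheapStep d n ⌊ε * n⌋₊ H) l + 1)) :
    ((h40T d n ρ k).card : ℝ) * q ^ (k + 1) ≤
      (C * (2 * C) ^ D * Real.exp 3 ^ D * (2 * d + 2).factorial) * (1 / 2) ^ k / n := by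
  classical
  set M := ⌊C' * ((k : ℝ) + 1) / n⌋₊ with hM
  set c := k / D with hc
  set e := ⌊ε * n⌋₊ with he
  set A := 2 ^ (d + 1) * e with hA
  have hN : (0 : ℝ) < n := by exact_mod_cast hn
  have hD0 : 0 < D := by omega
  have hck : c ≤ k := Nat.div_le_self _ _
  have hkD : k + 1 ≤ D * (c + 1) := by
    rw [hc]
    exact Nat.lt_mul_div_succ k hD0
  have hε0 : 0 ≤ ε := by rw [hε]; positivity
  have hAu : (A : ℝ) ≤ u * n := by
    have a1 : (e : ℝ) ≤ ε * n := Nat.floor_le (by positivity)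
    rw [hA]
    push_cast
    calc (2 : ℝ) ^ (d + 1) * e ≤ 2 ^ (d + 1) * (ε * n) := by gcongr
      _ = u * n := by rw [hε]; field_simp
  have hAn : A ≤ n := by
    have : (A : ℝ) ≤ n := hAu.trans (by nlinarith)
    exact_mod_cast this
  set ground : Finset (Finset ℕ) := (range n).powerset.filter (fun h => h.card ≤ d - 1) with hg
  set Hs : Finset (Finset (Finset ℕ)) := ground.powerset.filter (fun H => H.card ≤ M) with hHs
  set Tk := h40T d n ρ k with hTk
  set TH : Finset (Finset ℕ) → Finset (Finset (Finset ℕ)) := fun H => Tk.filter (fun S =>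
    ∃ l, Exp d n l ∧ l.toFinset = S ∧ l.length = k + 1 ∧ c ≤ cnt (CheapStep d n e H) l) with hTH
  have hsub : Tk ⊆ Hs.biUnion TH := by
    intro S hS
    have hS' := hS
    rw [hTk, h40_mem_T] at hS'
    obtain ⟨h1, ⟨h2, _, h4⟩, h5⟩ := hS'
    obtain ⟨l, hl1, hl2, hl3⟩ := exists_exp d n S h1 h2
    obtain ⟨H, hH1, hH2, hH3⟩ := cheap n hn0 S h1 h2.1 h2.2.1 h4 l hl1 hl2
    refine mem_biUnion.2 ⟨H, ?_, ?_⟩
    · rw [hHs, mem_filter, mem_powerset]
      refine ⟨?_, ?_⟩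
      · intro h hh
        rw [hg, mem_filter, mem_powerset]
        obtain ⟨b1, b2, b3⟩ := hH1 h hh
        exact ⟨b1, by omega⟩
      · rw [hM]
        apply Nat.le_floor
        rw [h5] at hH2
        push_cast at hH2
        exact hH2
    · simp only [hTH]
      rw [mem_filter]
      refine ⟨hS, l, hl1, hl2, by omega, ?_⟩
      rw [h5, ← hD, ← he] at hH3
      have : k / D < cnt (CheapStep d n e H) l + 1 := by
        rw [Nat.div_lt_iff_lt_mul hD0]
        rw [mul_comm]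
        omega
      omega
  have hTHc : ∀ H ∈ Hs, ((TH H).card : ℝ) ≤
      (n : ℝ) ^ (d + 1) * 2 ^ k * (A : ℝ) ^ c * (n : ℝ) ^ (k - c) := by
    intro H _
    apply tree_count d n k c A (CheapStep d n e H) hAn hck (h40_cheap_count d n e k H)
    intro S hS
    simp only [hTH] at hS
    exact (mem_filter.1 hS).2
  have hgc : ground.card + 1 ≤ (n + 1) ^ d := by
    have a1 := h40_card_small (range n) (d - 1)
    rw [card_range] at a1
    obtain ⟨d', rfl⟩ : ∃ d', d = d' + 1 := ⟨d - 1, by omega⟩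
    simp only [Nat.add_sub_cancel] at a1
    have a2 : 1 ≤ (n + 1) ^ d' := Nat.one_le_pow _ _ (by omega)
    have a3 : ground.card ≤ (n + 1) ^ d' := by
      rw [hg]
      exact a1
    calc ground.card + 1 ≤ (n + 1) ^ d' + (n + 1) ^ d' := by omega
      _ = (n + 1) ^ d' * 2 := by ring
      _ ≤ (n + 1) ^ d' * (n + 1) := Nat.mul_le_mul_left _ (by omega)
      _ = (n + 1) ^ (d' + 1) := by ring
  have hHsc : (Hs.card : ℝ) ≤ (((n : ℝ) + 1) ^ d) ^ M := by
    have a1 : Hs.card ≤ ((n + 1) ^ d) ^ M :=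
      (h40_card_small ground M).trans (Nat.pow_le_pow_left hgc _)
    exact_mod_cast a1
  have hMr : (M : ℝ) ≤ C' * ((k : ℝ) + 1) / n := Nat.floor_le (by positivity)
  have h2 := h40_large_term d k c n M A D C C' q u hC hq0 hq hn hu0 hu hAu hkD hck hMr hlog hkn
  refine le_trans ?_ h2
  have h3 : (Tk.card : ℝ) ≤ (((n : ℝ) + 1) ^ d) ^ M *
      ((n : ℝ) ^ (d + 1) * 2 ^ k * (A : ℝ) ^ c * (n : ℝ) ^ (k - c)) := by
    calc (Tk.card : ℝ) ≤ ((Hs.biUnion TH).card : ℝ) := by exact_mod_cast card_le_card hsub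
      _ ≤ ∑ H ∈ Hs, ((TH H).card : ℝ) := by exact_mod_cast card_biUnion_le
      _ ≤ ∑ H ∈ Hs, ((n : ℝ) ^ (d + 1) * 2 ^ k * (A : ℝ) ^ c * (n : ℝ) ^ (k - c)) :=
          sum_le_sum hTHc
      _ = Hs.card * ((n : ℝ) ^ (d + 1) * 2 ^ k * (A : ℝ) ^ c * (n : ℝ) ^ (k - c)) := by
          rw [sum_const, nsmul_eq_mul]
      _ ≤ _ := by gcongr
  gcongr

/-- No small cores without simplex boundaries, from the four combinatorial inputs. -/
theorem giant_of
    (cheap_large : ∀ (d : ℕ) (_ : 2 ≤ d) (ε : ℝ) (_ : 0 < ε) (_ : ε ≤ 1),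
      ∃ ρ > (0:ℝ), ∃ C' > (0:ℝ), ∃ n0 : ℕ, ∀ n ≥ n0, ∀ S ⊆ fc d n, S.Nonempty → Core S →
        (S.card : ℝ) ≤ ρ * (n : ℝ) ^ d → ∀ l, Exp d n l → l.toFinset = S →
        ∃ H : Finset (Finset ℕ), (∀ h ∈ H, h ⊆ range n ∧ 1 ≤ h.card ∧ h.card + 1 ≤ d) ∧
          (H.card : ℝ) ≤ C' * S.card / n ∧
          S.card ≤ 4 * (d + 2) * (cnt (CheapStep d n ⌊ε * n⌋₊ H) l + 1))
    (exists_exp : ∀ (d n : ℕ) (S : Finset (Finset ℕ)) (_ : S ⊆ fc d n) (_ : MinCore S),
      ∃ l, Exp d n l ∧ l.toFinset = S ∧ l.length = S.card)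
    (exists_minCore : ∀ (S : Finset (Finset ℕ)) (_ : S.Nonempty) (_ : Core S),
      ∃ T ⊆ S, MinCore T)
    (small_old : ∀ (d : ℕ) (_ : 2 ≤ d) (n : ℕ) (S : Finset (Finset ℕ)) (_ : S ⊆ fc d n)
      (_ : S.Nonempty) (_ : Core S) (_ : ¬ HasBd d S) (l : List (Finset ℕ)) (_ : Exp d n l)
      (_ : l.toFinset = S), d + 1 ≤ cnt OldStep l ∧ S.card ≤ 4 * cnt OldStep l + 1)
    (d : ℕ) (hd : 2 ≤ d) (C : ℝ) (hC : 1 ≤ C) :
    ∃ ρ > (0:ℝ), ∃ K > (0:ℝ), ∃ n0 : ℕ, ∀ n ≥ n0, ∀ q : ℝ, 0 ≤ q → q ≤ C / n →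
      Ex (fc d n) q (fun X => ind (∃ S ⊆ X, S.Nonempty ∧ Core S ∧ ¬ HasBd d S ∧
        (S.card : ℝ) ≤ ρ * (n : ℝ) ^ d)) ≤ K / n := by
  have hC0 : 0 < C := by linarith
  set D := 4 * (d + 2) with hD
  set u : ℝ := Real.exp (-3) ^ D / (2 * C) ^ D with hu
  have hu0 : 0 < u := by positivity
  have hu1 : u ≤ 1 := by
    rw [hu, div_le_one (by positivity)]
    apply pow_le_pow_left₀ (Real.exp_pos _).le
    have : Real.exp (-3) ≤ 1 := Real.exp_le_one_iff.2 (by norm_num)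
    linarith
  have hu2 : (2 * C) ^ D * u = Real.exp (-3) ^ D := by
    rw [hu]
    field_simp
  set ε : ℝ := u / 2 ^ (d + 1) with hε
  have hε0 : 0 < ε := by positivity
  have hε1 : ε ≤ 1 := by
    rw [hε, div_le_one (by positivity)]
    exact hu1.trans (one_le_pow₀ (by norm_num))
  obtain ⟨ρ, hρ, C', hC', n0, hcheap⟩ := cheap_large d hd ε hε0 hε1
  -- the logarithm
  have hlog : ∀ᶠ n : ℕ in Filter.atTop, C' * d * Real.log ((n : ℝ) + 1) ≤ n := by
    have h1 := Real.isLittleO_log_id_atTop.bound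
      (show (0 : ℝ) < 1 / (2 * (C' * d + 1)) by positivity)
    have h2 : Filter.Tendsto (fun n : ℕ => (n : ℝ) + 1) Filter.atTop Filter.atTop :=
      Filter.tendsto_atTop_add_const_right _ _ tendsto_natCast_atTop_atTop
    filter_upwards [h2.eventually h1, Filter.eventually_ge_atTop 1] with n h3 h4
    have h5 : (1 : ℝ) ≤ n := by exact_mod_cast h4
    have h6 : 0 ≤ Real.log ((n : ℝ) + 1) := Real.log_nonneg (by linarith)
    rw [Real.norm_of_nonneg h6, id, Real.norm_of_nonneg (by linarith)] at h3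
    calc C' * d * Real.log ((n : ℝ) + 1)
        ≤ (C' * d + 1) * (1 / (2 * (C' * d + 1)) * ((n : ℝ) + 1)) :=
          mul_le_mul (by linarith) h3 h6 (by positivity)
      _ = ((n : ℝ) + 1) / 2 := by field_simp
      _ ≤ n := by linarith
  obtain ⟨n1, hn1⟩ := Filter.eventually_atTop.1 hlog
  set K1 : ℝ := C * (16 * C) ^ (4 * (d + 1)) * (d + 1).factorial * 4 ^ d with hK1
  set K2 : ℝ := C * (2 * C) ^ D * Real.exp 3 ^ D * (2 * d + 2).factorial with hK2
  have hK1p : 0 < K1 := by positivity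
  have hK2p : 0 < K2 := by positivity
  obtain ⟨n2, hn2⟩ := exists_nat_ge (((16 * C) ^ 4 * (d + 1)) ^ 2)
  obtain ⟨n3, hn3⟩ := exists_nat_ge C
  refine ⟨ρ, hρ, 2 * (K1 + K2), by positivity, n0 + n1 + n2 + n3 + 1, ?_⟩
  intro n hn q hq0 hq
  have hnp : 0 < n := by omega
  have hN : (0 : ℝ) < n := by exact_mod_cast hnp
  have hbig : ((16 * C) ^ 4 * (d + 1)) ^ 2 ≤ (n : ℝ) :=
    hn2.trans (by exact_mod_cast (by omega : n2 ≤ n))
  have hq1 : q ≤ 1 := by
    refine hq.trans ?_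
    rw [div_le_one hN]
    exact hn3.trans (by exact_mod_cast (by omega : n3 ≤ n))
  refine (h40_union d n ρ q hq0 hq1 exists_minCore).trans ?_
  have hterm : ∀ k ∈ range (fc d n).card, ((h40T d n ρ k).card : ℝ) * q ^ (k + 1) ≤
      (K1 + K2) / n * (1 / 2) ^ k := by
    intro k _
    rcases Nat.lt_or_ge n ((k + 1) ^ 2) with h | h
    · have h1 := h40_large d n k D n0 ρ C C' ε q u hC hC' hq0 hq hd hnp h hD hu0.le hu1 hu2 hε
        (hn1 n (by omega)) (by omega) exists_exp hcheap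
      refine h1.trans ?_
      calc K2 * (1 / 2) ^ k / n ≤ (K1 + K2) * (1 / 2) ^ k / n := by
            gcongr
            linarith
        _ = (K1 + K2) / n * (1 / 2) ^ k := by ring
    · have h1 := h40_small d n k ρ C q hC hq0 hq hnp h hbig hd exists_exp small_old
      refine h1.trans ?_
      calc K1 * (1 / 2) ^ k / n ≤ (K1 + K2) * (1 / 2) ^ k / n := by
            gcongr
            linarith
        _ = (K1 + K2) / n * (1 / 2) ^ k := by ring
  refine (sum_le_sum hterm).trans ?_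
  rw [← mul_sum]
  have hgeo : ∑ k ∈ range (fc d n).card, ((1 : ℝ) / 2) ^ k ≤ 2 := by
    have h1 : Summable fun k : ℕ => ((1 : ℝ) / 2) ^ k :=
      summable_geometric_of_lt_one (by norm_num) (by norm_num)
    calc ∑ k ∈ range (fc d n).card, ((1 : ℝ) / 2) ^ k ≤ ∑' k : ℕ, ((1 : ℝ) / 2) ^ k :=
          h1.sum_le_tsum _ (fun _ _ => by positivity)
      _ = 2 := tsum_geometric_two
  calc (K1 + K2) / n * ∑ k ∈ range (fc d n).card, ((1 : ℝ) / 2) ^ k
      ≤ (K1 + K2) / n * 2 := by gcongr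
    _ = 2 * (K1 + K2) / n := by ring

end FC
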